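import Mathlib

set_option autoImplicit false
open MeasureTheory Set

namespace Pool.Agent.Lib.H29.Akop

noncomputable def I (f : ℝ → ℂ) : ℝ := ∫ x in (-1 : ℝ)..1, ‖f x‖

noncomputable def M (f : ℝ → ℂ) : ℝ := sSup ((fun x => ‖f x‖) '' Icc (-1 : ℝ) 1)

lemma le_M {f : ℝ → ℂ} (hf : Continuous f) {x : ℝ} (hx : x ∈ Icc (-1 : ℝ) 1) : ‖f x‖ ≤ M f :=
  le_csSup (isCompact_Icc.image hf.norm).bddAbove ⟨x, hx, rfl⟩

lemma M_le {f : ℝ → ℂ} {c : ℝ} (h : ∀ x ∈ Icc (-1 : ℝ) 1, ‖f x‖ ≤ c) : M f ≤ c := by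
  refine csSup_le ⟨_, ⟨0, by simp, rfl⟩⟩ ?_
  rintro _ ⟨x, hx, rfl⟩
  exact h x hx

lemma I_nonneg (f : ℝ → ℂ) : 0 ≤ I f :=
  intervalIntegral.integral_nonneg (by norm_num) (fun _ _ => norm_nonneg _)

lemma eLp_one {f : ℝ → ℂ} (hf : Continuous f) :
    eLpNorm f 1 (volume.restrict (Icc (-1 : ℝ) 1)) = ENNReal.ofReal (I f) := by
  rw [eLpNorm_one_eq_lintegral_enorm, I, intervalIntegral.integral_of_le (by norm_num),
    ← integral_Icc_eq_integral_Ioc, ofReal_integral_norm_eq_lintegral_enorm]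
  exact hf.continuousOn.integrableOn_compact isCompact_Icc

lemma eLp_top {f : ℝ → ℂ} (hf : Continuous f) :
    eLpNorm f ⊤ (volume.restrict (Icc (-1 : ℝ) 1)) = ENNReal.ofReal (M f) := by
  rw [eLpNorm_exponent_top]
  have hup : eLpNormEssSup f (volume.restrict (Icc (-1 : ℝ) 1)) ≤ ENNReal.ofReal (M f) := by
    apply eLpNormEssSup_le_of_ae_bound
    filter_upwards [ae_restrict_mem measurableSet_Icc] with x hx using le_M hf hx
  refine le_antisymm hup ?_
  have hfin : eLpNormEssSup f (volume.restrict (Icc (-1 : ℝ) 1)) ≠ ⊤ :=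
    ne_top_of_le_ne_top ENNReal.ofReal_ne_top hup
  set c := (eLpNormEssSup f (volume.restrict (Icc (-1 : ℝ) 1))).toReal with hc
  have hae : (fun x => max ‖f x‖ c) =ᵐ[volume.restrict (Icc (-1 : ℝ) 1)] fun _ => c := by
    filter_upwards [ae_le_eLpNormEssSup (f := f) (μ := volume.restrict (Icc (-1 : ℝ) 1))] with x hx
    apply max_eq_right
    rw [hc, ← ENNReal.ofReal_le_iff_le_toReal hfin]
    simpa using hx
  have hall := Measure.eqOn_Icc_of_ae_eq (μ := volume) (by norm_num : (-1 : ℝ) ≠ 1) hae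
    (hf.norm.max continuous_const).continuousOn continuousOn_const
  have : M f ≤ c := M_le fun x hx => by
    have := hall hx
    simp only at this
    rw [← this]; exact le_max_left _ _
  rw [ENNReal.ofReal_le_iff_le_toReal hfin]
  exact this

/-- the quadratic `(1 - u x) (1 - v x)` on the real line -/
noncomputable def p (u v : ℂ) (x : ℝ) : ℂ := (1 - u * x) * (1 - v * x)

/-- its derivative -/
noncomputable def d (u v : ℂ) (x : ℝ) : ℂ := 2 * (u * v) * x - (u + v)

noncomputable def R (w : ℂ × ℂ) : ℝ := I (d w.1 w.2) / M (p w.1 w.2)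

lemma cont_p (u v : ℂ) : Continuous (p u v) := by unfold p; fun_prop
lemma cont_d (u v : ℂ) : Continuous (d u v) := by unfold d; fun_prop

lemma one_le_M (u v : ℂ) : 1 ≤ M (p u v) := by
  have := le_M (cont_p u v) (x := 0) (by simp)
  simpa [p] using this

lemma cont_R : Continuous R := by
  unfold R
  refine Continuous.div ?_ ?_ (fun w => by have := one_le_M w.1 w.2; linarith)
  · unfold I
    apply intervalIntegral.continuous_parametric_intervalIntegral_of_continuous'
    unfold d Function.uncurry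
    fun_prop
  · unfold M
    apply isCompact_Icc.continuous_sSup (f := fun (w : ℂ × ℂ) (x : ℝ) => ‖p w.1 w.2 x‖)
    unfold p
    fun_prop

lemma ratio_le {f g : ℝ → ℂ} {c u v : ℂ} (hc : c ≠ 0) (hf : ∀ x, f x = c * p u v x)
    (hg : ∀ x, g x = c * d u v x) : 0 < M f ∧ I g / M f ≤ R (u, v) := by
  have hc' : 0 < ‖c‖ := norm_pos_iff.mpr hc
  have hfc : Continuous f := by
    rw [show f = fun x => c * p u v x from funext hf]
    exact continuous_const.mul (cont_p u v)
  have h1 : I g = ‖c‖ * I (d u v) := by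
    unfold I
    rw [← intervalIntegral.integral_const_mul]
    congr 1; ext x; rw [hg, norm_mul]
  have h2 : M (p u v) ≤ M f / ‖c‖ := M_le fun x hx => by
    rw [le_div_iff₀ hc']
    have := le_M hfc hx
    rw [hf, norm_mul] at this
    linarith
  have h3 := one_le_M u v
  rw [le_div_iff₀ hc'] at h2
  have h4 : 0 < M f := by nlinarith
  refine ⟨h4, ?_⟩
  unfold R
  rw [div_le_div_iff₀ h4 (by linarith), h1]
  have := I_nonneg (d u v)
  simp only
  nlinarith

lemma factor (a b c : ℂ) (hc : c ≠ 0) : ∃ u v : ℂ,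
    (∀ z : ℂ, a * z ^ 2 + b * z + c = c * ((1 - u * z) * (1 - v * z))) ∧
    (∀ z : ℂ, 2 * a * z + b = c * (2 * (u * v) * z - (u + v))) := by
  obtain ⟨s, hs⟩ := IsAlgClosed.exists_eq_mul_self (b ^ 2 - 4 * a * c)
  refine ⟨(-b + s) / (2 * c), (-b - s) / (2 * c), fun z => ?_, fun z => ?_⟩
  · field_simp
    linear_combination (-z ^ 2) * hs
  · field_simp
    linear_combination (-z) * hs

lemma abs_integral (s t m : ℝ) (h : ∀ x ∈ Icc (-1 : ℝ) 1, |x ^ 2 - s * x + t| ≤ m) :
    ∫ x in (-1 : ℝ)..1, |2 * x - s| ≤ 4 * m := by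
  have e1 := abs_le.mp (h 1 (by simp))
  have e2 := abs_le.mp (h (-1) (by simp))
  have hm : 0 ≤ m := le_trans (abs_nonneg _) (h 1 (by simp))
  have up : ∀ a b : ℝ, a ≤ b → s ≤ 2 * a →
      ∫ x in a..b, |2 * x - s| = (b ^ 2 - s * b) - (a ^ 2 - s * a) := by
    intro a b hab hs
    rw [intervalIntegral.integral_congr (g := fun x => 2 * x - s)]
    · rw [intervalIntegral.integral_sub (Continuous.intervalIntegrable (by fun_prop) _ _)
        (Continuous.intervalIntegrable (by fun_prop) _ _), intervalIntegral.integral_const_mul,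
        integral_id, intervalIntegral.integral_const, smul_eq_mul]
      ring
    · intro x hx
      rw [uIcc_of_le hab] at hx
      exact abs_of_nonneg (by linarith [hx.1])
  have dn : ∀ a b : ℝ, a ≤ b → 2 * b ≤ s →
      ∫ x in a..b, |2 * x - s| = (a ^ 2 - s * a) - (b ^ 2 - s * b) := by
    intro a b hab hs
    rw [intervalIntegral.integral_congr (g := fun x => s - 2 * x)]
    · rw [intervalIntegral.integral_sub (Continuous.intervalIntegrable (by fun_prop) _ _)
        (Continuous.intervalIntegrable (by fun_prop) _ _), intervalIntegral.integral_const_mul,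
        integral_id, intervalIntegral.integral_const, smul_eq_mul]
      ring
    · intro x hx
      rw [uIcc_of_le hab] at hx
      simp only
      rw [abs_of_nonpos (by linarith [hx.2])]; ring
  rcases le_total s (-2) with h1 | h1
  · rw [up _ _ (by norm_num) (by linarith)]; linarith [e1.2, e2.1]
  rcases le_total 2 s with h2 | h2
  · rw [dn _ _ (by norm_num) (by linarith)]; linarith [e1.1, e2.2]
  have e3 := abs_le.mp (h (s / 2) ⟨by linarith, by linarith⟩)
  have hc : Continuous fun x : ℝ => |2 * x - s| := by fun_prop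
  rw [← intervalIntegral.integral_add_adjacent_intervals (b := s / 2)
    (hc.intervalIntegrable _ _) (hc.intervalIntegrable _ _),
    dn _ _ (by linarith) (by linarith), up _ _ (by linarith) (by linarith)]
  linarith [e1.2, e2.2, e3.1]

lemma thin_bound {u v : ℂ} {ε : ℝ} (hu : u ≠ 0) (hv : v ≠ 0) (h1 : |(u⁻¹).im| ≤ ε)
    (h2 : |(v⁻¹).im| ≤ ε) : R (u, v) ≤ 4 + 8 * ε := by
  set z1 := u⁻¹ with hz1
  set z2 := v⁻¹ with hz2
  have hw : 0 < ‖u * v‖ := norm_pos_iff.mpr (mul_ne_zero hu hv)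
  have hε : 0 ≤ ε := le_trans (abs_nonneg _) h1
  have hp : ∀ x : ℝ, p u v x = (u * v) * ((x - z1) * (x - z2)) := by
    intro x; unfold p; rw [hz1, hz2]; field_simp; ring
  have hd : ∀ x : ℝ, d u v x = (u * v) * (2 * x - (z1 + z2)) := by
    intro x; unfold d; rw [hz1, hz2]; field_simp; ring
  set m := M (p u v) / ‖u * v‖ with hm
  have hq : ∀ x ∈ Icc (-1 : ℝ) 1, |x ^ 2 - (z1.re + z2.re) * x + z1.re * z2.re| ≤ m := by
    intro x hx
    rw [hm, le_div_iff₀ hw]
    have := le_M (cont_p u v) hx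
    rw [hp, norm_mul, norm_mul (_ - z1)] at this
    have a1 : |x - z1.re| ≤ ‖(x : ℂ) - z1‖ := by
      simpa using Complex.abs_re_le_norm ((x : ℂ) - z1)
    have a2 : |x - z2.re| ≤ ‖(x : ℂ) - z2‖ := by
      simpa using Complex.abs_re_le_norm ((x : ℂ) - z2)
    have a3 : |x ^ 2 - (z1.re + z2.re) * x + z1.re * z2.re| = |x - z1.re| * |x - z2.re| := by
      rw [← abs_mul]; congr 1; ring
    rw [a3]
    have a4 : |x - z1.re| * |x - z2.re| ≤ ‖(x : ℂ) - z1‖ * ‖(x : ℂ) - z2‖ :=
      mul_le_mul a1 a2 (abs_nonneg _) (norm_nonneg _)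
    nlinarith
  have hhalf : 1 / 2 ≤ m := by
    have e1 := abs_le.mp (hq 1 (by simp))
    have e2 := abs_le.mp (hq (-1) (by simp))
    have e3 := abs_le.mp (hq 0 (by simp))
    linarith [e1.2, e2.2, e3.1]
  have hI : I (d u v) ≤ ‖u * v‖ * (4 * m + 4 * ε) := by
    have hc : Continuous fun x : ℝ => |2 * x - (z1.re + z2.re)| := by fun_prop
    have : I (d u v) ≤ ∫ x in (-1 : ℝ)..1, ‖u * v‖ * (|2 * x - (z1.re + z2.re)| + 2 * ε) := by
      apply intervalIntegral.integral_mono_on (by norm_num)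
        ((cont_d u v).norm.intervalIntegrable _ _) (Continuous.intervalIntegrable (by fun_prop) _ _)
      intro x _
      rw [hd, norm_mul]
      apply mul_le_mul_of_nonneg_left _ hw.le
      refine le_trans (Complex.norm_le_abs_re_add_abs_im _) ?_
      have r1 : (2 * (x : ℂ) - (z1 + z2)).re = 2 * x - (z1.re + z2.re) := by simp
      have r2 : (2 * (x : ℂ) - (z1 + z2)).im = -(z1.im + z2.im) := by simp
      rw [r1, r2, abs_neg]
      have := abs_add_le z1.im z2.im
      linarith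
    refine le_trans this ?_
    rw [intervalIntegral.integral_const_mul, intervalIntegral.integral_add
      (hc.intervalIntegrable _ _) (by simp)]
    apply mul_le_mul_of_nonneg_left _ hw.le
    have := abs_integral _ _ _ hq
    simp only [intervalIntegral.integral_const, smul_eq_mul]
    linarith
  have hM : M (p u v) = ‖u * v‖ * m := by rw [hm]; field_simp
  unfold R
  simp only
  rw [div_le_iff₀ (by linarith [one_le_M u v]), hM]
  have : ‖u * v‖ * (4 * m + 4 * ε) ≤ ‖u * v‖ * ((4 + 8 * ε) * m) :=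
    mul_le_mul_of_nonneg_left (by nlinarith) hw.le
  linarith

lemma low_degree {u v : ℂ} (h : u * v = 0) : R (u, v) ≤ 2 := by
  have h1 := le_M (cont_p u v) (x := 1) (by simp)
  have h2 := le_M (cont_p u v) (x := -1) (by simp)
  have hI : I (d u v) = 2 * ‖u + v‖ := by
    unfold I d
    simp only [h, mul_zero, zero_mul, zero_sub, norm_neg]
    simp; norm_num
  have h3 : p u v (-1 : ℝ) - p u v (1 : ℝ) = 2 * (u + v) := by
    unfold p; push_cast; ring
  have h4 := norm_sub_le (p u v (-1 : ℝ)) (p u v (1 : ℝ))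
  rw [h3, norm_mul] at h4
  unfold R
  simp only
  rw [div_le_iff₀ (by linarith [one_le_M u v]), hI]
  simp at h4
  linarith

lemma special_M : M (fun x : ℝ => (1 : ℂ) * (x : ℂ) ^ 2 + (-Complex.I / 20) * x + (-401 / 800))
    ≤ 401 / 800 := by
  apply M_le
  intro x hx
  refine (pow_le_pow_iff_left₀ (norm_nonneg _) (by norm_num) two_ne_zero).mp ?_
  have e : (1 : ℂ) * (x : ℂ) ^ 2 + (-Complex.I / 20) * x + (-401 / 800)
      = ((x ^ 2 - 401 / 800 : ℝ) : ℂ) + ((-x / 20 : ℝ) : ℂ) * Complex.I := by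
    push_cast; ring
  rw [e, Complex.sq_norm, Complex.normSq_add_mul_I]
  have h1 : x ^ 2 ≤ 1 := by nlinarith [hx.1, hx.2]
  nlinarith [mul_nonneg (sq_nonneg x) (sub_nonneg.mpr h1)]

lemma special_norm (x : ℝ) : ‖2 * (1 : ℂ) * (x : ℂ) + (-Complex.I / 20)‖
    = Real.sqrt (4 * x ^ 2 + 1 / 400) := by
  have e : 2 * (1 : ℂ) * (x : ℂ) + (-Complex.I / 20)
      = ((2 * x : ℝ) : ℂ) + ((-1 / 20 : ℝ) : ℂ) * Complex.I := by
    push_cast; ring
  rw [e, Complex.norm_add_mul_I]
  congr 1; ring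

lemma half_integral : 1 + Real.log 81 / 1600 ≤ ∫ x in (0 : ℝ)..1, Real.sqrt (4 * x ^ 2 + 1 / 400) := by
  have hF : ∫ x in (0 : ℝ)..1, (2 * x + 1 / (20 * (80 * x + 1)))
      = (1 ^ 2 + Real.log (80 * 1 + 1) / 1600) - (0 ^ 2 + Real.log (80 * 0 + 1) / 1600) := by
    apply intervalIntegral.integral_eq_sub_of_hasDerivAt
      (f := fun x : ℝ => x ^ 2 + Real.log (80 * x + 1) / 1600)
    · intro x hx
      rw [uIcc_of_le (by norm_num)] at hx
      have hx0 : 80 * x + 1 ≠ 0 := by linarith [hx.1]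
      have a1 : HasDerivAt (fun x : ℝ => 80 * x + 1) 80 x := by
        simpa using ((hasDerivAt_id x).const_mul 80).add_const 1
      have a2 := ((hasDerivAt_pow 2 x).fun_add ((a1.log hx0).div_const 1600))
      refine a2.congr_deriv ?_
      field_simp
      ring
    · apply ContinuousOn.intervalIntegrable
      rw [uIcc_of_le (by norm_num)]
      refine ContinuousOn.add (by fun_prop) (ContinuousOn.div (by fun_prop) (by fun_prop) ?_)
      intro x hx
      linarith [hx.1]
  have h2 : (1 : ℝ) + Real.log 81 / 1600 = ∫ x in (0 : ℝ)..1, (2 * x + 1 / (20 * (80 * x + 1))) := by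
    rw [hF]; norm_num
  rw [h2]
  apply intervalIntegral.integral_mono_on (by norm_num) _
    (Continuous.intervalIntegrable (by fun_prop) _ _)
  · intro x hx
    apply Real.le_sqrt_of_sq_le
    have hx0 : 0 < 80 * x + 1 := by linarith [hx.1]
    set t := 1 / (20 * (80 * x + 1)) with ht
    have ht1 : t * (20 * (80 * x + 1)) = 1 := by rw [ht]; field_simp
    have ht0 : 0 < t := by positivity
    have ht2 : t ≤ 1 / 20 := by nlinarith [hx.1]
    nlinarith
  · apply ContinuousOn.intervalIntegrable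
    rw [uIcc_of_le (by norm_num)]
    refine ContinuousOn.add (by fun_prop) (ContinuousOn.div (by fun_prop) (by fun_prop) ?_)
    intro x hx
    linarith [hx.1]

lemma special_I : 2 + Real.log 81 / 800 ≤ I (fun x : ℝ => 2 * (1 : ℂ) * (x : ℂ) + (-Complex.I / 20)) := by
  unfold I
  simp only [special_norm]
  have hc : Continuous fun x : ℝ => Real.sqrt (4 * x ^ 2 + 1 / 400) := by fun_prop
  rw [← intervalIntegral.integral_add_adjacent_intervals (b := 0)
    (hc.intervalIntegrable _ _) (hc.intervalIntegrable _ _)]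
  have h := intervalIntegral.integral_comp_neg (a := 0) (b := 1)
    (fun x : ℝ => Real.sqrt (4 * x ^ 2 + 1 / 400))
  simp only [neg_sq, neg_zero] at h
  rw [← h]
  linarith [half_integral]

lemma log81 : 4.15 < Real.log 81 := by
  have h1 : Real.log 64 ≤ Real.log 81 := Real.log_le_log (by norm_num) (by norm_num)
  have h2 : Real.log 64 = 6 * Real.log 2 := by
    rw [show (64 : ℝ) = 2 ^ 6 by norm_num, Real.log_pow]; norm_num
  linarith [Real.log_two_gt_d9]

/-- the thin rectangle -/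
def G : Set ℂ := {z | |z.re| < 2 ∧ |z.im| < 1 / 100000}

lemma G_open : IsOpen G := by
  have h1 : IsOpen {z : ℂ | |z.re| < 2} := isOpen_lt (by fun_prop) continuous_const
  have h2 : IsOpen {z : ℂ | |z.im| < 1 / 100000} := isOpen_lt (by fun_prop) continuous_const
  exact h1.inter h2

lemma G_convex : Convex ℝ G := by
  have : G = ({z : ℂ | z.re < 2} ∩ {z : ℂ | -2 < z.re}) ∩
      ({z : ℂ | z.im < 1 / 100000} ∩ {z : ℂ | -(1 / 100000) < z.im}) := by
    ext z; simp only [G, mem_ofPred_eq, mem_inter_iff, abs_lt]; tauto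
  rw [this]
  exact ((convex_halfSpace_re_lt _).inter (convex_halfSpace_re_gt _)).inter
    ((convex_halfSpace_im_lt _).inter (convex_halfSpace_im_gt _))

lemma G_bdd : Bornology.IsBounded G := by
  apply (Metric.isBounded_closedBall (x := (0 : ℂ)) (r := 3)).subset
  intro z hz
  rw [mem_closedBall_zero_iff]
  linarith [Complex.norm_le_abs_re_add_abs_im z, hz.1, hz.2]

lemma G_frontier {z : ℂ} (hz : z ∈ frontier G) : |z.im| ≤ 1 / 100000 := by
  have h1 : IsClosed {z : ℂ | |z.im| ≤ 1 / 100000} := isClosed_le (by fun_prop) continuous_const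
  exact (closure_minimal (fun w hw => le_of_lt hw.2) h1) (frontier_subset_closure hz)

def U : Set ℂ := {u | ∀ z ∈ G, u * z ≠ 1}

lemma U_compact : IsCompact U := by
  apply Metric.isCompact_of_isClosed_isBounded
  · rw [← isOpen_compl_iff]
    have : Uᶜ = {u : ℂ | u ≠ 0} ∩ (fun u : ℂ => u⁻¹) ⁻¹' G := by
      ext u
      simp only [U, mem_compl_iff, mem_ofPred_eq, mem_inter_iff, mem_preimage]
      push Not
      constructor
      · rintro ⟨z, hz, h⟩
        have hu : u ≠ 0 := by rintro rfl; simp at h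
        refine ⟨hu, ?_⟩
        rwa [← eq_inv_of_mul_eq_one_right h]
      · rintro ⟨hu, h⟩
        exact ⟨_, h, mul_inv_cancel₀ hu⟩
    rw [this]
    exact ContinuousOn.isOpen_inter_preimage (continuousOn_inv₀) isOpen_ne G_open
  · apply (Metric.isBounded_closedBall (x := (0 : ℂ)) (r := 100000)).subset
    intro u hu
    rw [mem_closedBall_zero_iff]
    by_contra h
    push Not at h
    have hu0 : u ≠ 0 := by rintro rfl; norm_num at h
    have h1 : ‖u⁻¹‖ < 1 / 100000 := by
      rw [norm_inv, one_div]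
      exact inv_strictAnti₀ (by norm_num) h
    refine hu u⁻¹ ⟨?_, ?_⟩ (mul_inv_cancel₀ hu0)
    · linarith [Complex.abs_re_le_norm u⁻¹]
    · linarith [Complex.abs_im_le_norm u⁻¹]

lemma zero_mem_G : (0 : ℂ) ∈ G := by constructor <;> norm_num

lemma quad_le {a b c : ℂ} (h : ∀ z ∈ G, a * z ^ 2 + b * z + c ≠ 0) : ∃ w ∈ U ×ˢ U,
    0 < M (fun x : ℝ => a * (x : ℂ) ^ 2 + b * x + c) ∧
    I (fun x : ℝ => 2 * a * (x : ℂ) + b) / M (fun x : ℝ => a * (x : ℂ) ^ 2 + b * x + c) ≤ R w := by
  have hc : c ≠ 0 := by simpa using h 0 zero_mem_G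
  obtain ⟨u, v, h1, h2⟩ := factor a b c hc
  refine ⟨(u, v), ⟨fun z hz hh => h z hz ?_, fun z hz hh => h z hz ?_⟩,
    ratio_le hc (fun x => h1 x) (fun x => h2 x)⟩
  · simp only at hh
    rw [h1, hh]; ring
  · simp only at hh
    rw [h1, hh]; ring

lemma special_free : ∀ z ∈ G, (1 : ℂ) * z ^ 2 + (-Complex.I / 20) * z + (-401 / 800) ≠ 0 := by
  intro z hz h
  have h1 := congrArg Complex.re h
  have h2 := congrArg Complex.im h
  simp [pow_two] at h1 h2
  have hb := abs_lt.mp hz.2
  have h3 : z.re * (2 * z.im - 1 / 20) = 0 := by linarith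
  rcases mul_eq_zero.mp h3 with h4 | h4
  · rw [h4] at h1; nlinarith
  · linarith [hb.2]

theorem exists_max : ∃ u v : ℂ, u ∈ U ∧ v ∈ U ∧ (∀ w ∈ U ×ˢ U, R w ≤ R (u, v)) ∧
    4 + 8 * (1 / 100000) < R (u, v) := by
  obtain ⟨w0, hw0, hpos, hw⟩ := quad_le special_free
  obtain ⟨w, hw1, hw2⟩ := (U_compact.prod U_compact).exists_isMaxOn ⟨w0, hw0⟩ cont_R.continuousOn
  refine ⟨w.1, w.2, hw1.1, hw1.2, fun y hy => hw2 hy, lt_of_lt_of_le ?_ (le_trans hw (hw2 hw0))⟩
  rw [lt_div_iff₀ hpos]
  linarith [special_M, special_I, log81]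

end Pool.Agent.Lib.H29.Akop
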