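import Mathlib

set_option autoImplicit false

namespace Pool.Agent.Lib.H29.Astral

open Set

/-- A line of the Euclidean plane, identified with the complex numbers. -/
def RLine (l : Set ℂ) : Prop :=
  ∃ a b c : ℝ, (a ≠ 0 ∨ b ≠ 0) ∧ l = {z | a * z.re + b * z.im = c}

/-- A line of the rational plane. -/
def QLine (l : Set (ℚ × ℚ)) : Prop :=
  ∃ a b c : ℚ, (a ≠ 0 ∨ b ≠ 0) ∧ l = {z | a * z.1 + b * z.2 = c}

/-- A symmetry of a configuration: an isometry of the plane mapping the set of points onto itself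
and the set of lines onto itself. -/
def IsSym {n : ℕ} (P : Fin n → ℂ) (L : Fin n → Set ℂ) (f : ℂ ≃ᵢ ℂ) : Prop :=
  f '' range P = range P ∧ (fun l => f '' l) '' range L = range L

/-- The orbit of the point number `i` under the symmetry group. -/
def ptOrbit {n : ℕ} (P : Fin n → ℂ) (L : Fin n → Set ℂ) (i : Fin n) : Set (Fin n) :=
  {i' | ∃ f : ℂ ≃ᵢ ℂ, IsSym P L f ∧ f (P i) = P i'}

/-- The orbit of the line number `j` under the symmetry group. -/
def lnOrbit {n : ℕ} (P : Fin n → ℂ) (L : Fin n → Set ℂ) (j : Fin n) : Set (Fin n) :=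
  {j' | ∃ f : ℂ ≃ᵢ ℂ, IsSym P L f ∧ f '' L j = L j'}

/-- The primitive root of unity `exp (2 π i / m)`. -/
noncomputable def rootU (m : ℕ) : ℂ := Complex.exp (2 * Real.pi * Complex.I / m)

/-- A `k`-astral 4-configuration with dihedral symmetry group `d_m`, with points `P i` and lines `L j`. -/
structure IsAstral (k m : ℕ) (P : Fin (k * m) → ℂ) (L : Fin (k * m) → Set ℂ) : Prop where
  p_inj : Function.Injective P
  l_inj : Function.Injective L
  is_line : ∀ j, RLine (L j)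
  four_points : ∀ j, {i | P i ∈ L j}.ncard = 4
  four_lines : ∀ i, {j | P i ∈ L j}.ncard = 4
  dihedral : ∃ c u : ℂ, ‖u‖ = 1 ∧ ∀ f : ℂ ≃ᵢ ℂ, IsSym P L f ↔ ∃ r : ℕ,
    (∀ z, f z = c + rootU m ^ r * (z - c)) ∨
    (∀ z, f z = c + u * rootU m ^ r * (starRingEnd ℂ) (z - c))
  num_pt_orbits : (range (ptOrbit P L)).ncard = k
  num_ln_orbits : (range (lnOrbit P L)).ncard = k
  pt_orbit_size : ∀ i, (ptOrbit P L i).ncard = m
  ln_orbit_size : ∀ j, (lnOrbit P L j).ncard = m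
  regular : ∀ i, ∃ c v : ℂ, v ≠ 0 ∧ P '' ptOrbit P L i = range fun r : ℕ => c + v * rootU m ^ r
  two_two_pt : ∀ i, ∃ j₁ j₂, lnOrbit P L j₁ ≠ lnOrbit P L j₂ ∧
    {j | j ∈ lnOrbit P L j₁ ∧ P i ∈ L j}.ncard = 2 ∧ {j | j ∈ lnOrbit P L j₂ ∧ P i ∈ L j}.ncard = 2
  two_two_ln : ∀ j, ∃ i₁ i₂, ptOrbit P L i₁ ≠ ptOrbit P L i₂ ∧
    {i | i ∈ ptOrbit P L i₁ ∧ P i ∈ L j}.ncard = 2 ∧ {i | i ∈ ptOrbit P L i₂ ∧ P i ∈ L j}.ncard = 2

/-- The combinatorial configuration underlying `(P, L)` has a realization in the rational plane: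
distinct rational points and distinct rational lines with exactly the same incidences. -/
def HasRatRealization {n : ℕ} (P : Fin n → ℂ) (L : Fin n → Set ℂ) : Prop :=
  ∃ (P' : Fin n → ℚ × ℚ) (L' : Fin n → Set (ℚ × ℚ)), Function.Injective P' ∧
    Function.Injective L' ∧ (∀ j, QLine (L' j)) ∧ ∀ i j, P' i ∈ L' j ↔ P i ∈ L j

end Pool.Agent.Lib.H29.Astral
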