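import Mathlib
import Pool.Agent.Lib.helper29.AstralDefs

set_option autoImplicit false

namespace Pool.Agent.Lib.H29.Astral

open Set Complex

/-- coordinates in the ring generated by the square root of three -/
def T : Fin 24 → ℤ × ℤ × ℤ × ℤ := ![(2, 0, 0, 0), (0, 1, 1, 0), (1, 0, 0, 1), (0, 0, 2, 0), (-1, 0, 0, 1), (0, -1, 1, 0), (-2, 0, 0, 0), (0, -1, -1, 0), (-1, 0, 0, -1), (0, 0, -2, 0), (1, 0, 0, -1), (0, 1, -1, 0), (2, 1, 1, 0), (1, 1, 1, 1), (1, 0, 2, 1), (-1, 0, 2, 1), (-1, -1, 1, 1), (-2, -1, 1, 0), (-2, -1, -1, 0), (-1, -1, -1, -1), (-1, 0, -2, -1), (1, 0, -2, -1), (1, 1, -1, -1), (2, 1, -1, 0)]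
/-- rational points -/
def Q : Fin 24 → ℤ × ℤ := ![(3, 6), (9, 6), (9, 9), (3, 0), (-3, -12), (0, -9), (-3, -6), (-9, -6), (-9, -9), (-3, 0), (3, 12), (0, 9), (27, 36), (5, 4), (15, 6), (9, -18), (-1, -6), (-9, -24), (-27, -36), (-5, -4), (-15, -6), (-9, 18), (1, 6), (9, 24)]
/-- rational lines -/
def QL : Fin 24 → ℤ × ℤ × ℤ := ![(1, 2, 27), (3, 1, 9), (-3, 1, -3), (-5, 3, -27), (-5, 4, -9), (-1, 2, -3), (1, 2, -27), (3, 1, -9), (3, -1, -3), (5, -3, -27), (-5, 4, 9), (-1, 2, 3), (0, -1, -6), (1, 0, 9), (-3, 2, -9), (-2, 1, -6), (1, -1, 9), (1, 1, -9), (0, 1, -6), (-1, 0, 9), (3, -2, -9), (2, -1, -6), (-1, 1, 9), (1, 1, 9)]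
/-- rotation on indices -/
def rho : Fin 24 → Fin 24 := ![1, 2, 3, 4, 5, 6, 7, 8, 9, 10, 11, 0, 13, 14, 15, 16, 17, 18, 19, 20, 21, 22, 23, 12]
/-- reflection on indices -/
def sig : Fin 24 → Fin 24 := ![0, 11, 10, 9, 8, 7, 6, 5, 4, 3, 2, 1, 23, 22, 21, 20, 19, 18, 17, 16, 15, 14, 13, 12]
/-- right-hand sides -/
def CC (j : Fin 24) : ℤ × ℤ := if j.val < 12 then (2, 0) else (4, 2)
/-- inner product in coordinates -/
def dot (u v : ℤ × ℤ × ℤ × ℤ) : ℤ × ℤ :=
  (u.1 * v.1 + 3 * u.2.1 * v.2.1 + u.2.2.1 * v.2.2.1 + 3 * u.2.2.2 * v.2.2.2,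
    u.1 * v.2.1 + u.2.1 * v.1 + u.2.2.1 * v.2.2.2 + u.2.2.2 * v.2.2.1)
/-- incidence -/
def inc (i j : Fin 24) : Prop := dot (T i) (T j) = CC j
instance (i j : Fin 24) : Decidable (inc i j) := by unfold inc; infer_instance
/-- same half -/
def hf (i : Fin 24) : Bool := decide (i.val < 12)

/-- real number -/
noncomputable def ev (u : ℤ × ℤ) : ℝ := u.1 + u.2 * √3
/-- complex number -/
noncomputable def ph (u : ℤ × ℤ × ℤ × ℤ) : ℂ := ⟨ev (u.1, u.2.1), ev (u.2.2.1, u.2.2.2)⟩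
/-- points -/
noncomputable def PP (i : Fin 24) : ℂ := ph (T i)
/-- lines -/
def LL (j : Fin 24) : Set ℂ := {z | (PP j).re * z.re + (PP j).im * z.im = ev (CC j)}

lemma s3 : √3 * √3 = 3 := Real.mul_self_sqrt (by norm_num)

lemma ev_inj {u v : ℤ × ℤ} (h : ev u = ev v) : u = v := by
  have hi : Irrational √3 := by simpa using Nat.prime_three.irrational_sqrt
  unfold ev at h
  by_cases h2 : u.2 = v.2
  · rw [h2] at h
    have : (u.1 : ℝ) = v.1 := by linarith
    exact Prod.ext (by exact_mod_cast this) h2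
  · exfalso
    have h3 : ((u.2 - v.2 : ℤ) : ℝ) ≠ 0 := by exact_mod_cast sub_ne_zero.2 h2
    apply hi
    refine ⟨((v.1 - u.1 : ℤ) : ℚ) / ((u.2 - v.2 : ℤ) : ℚ), ?_⟩
    rw [Rat.cast_div, Rat.cast_intCast, Rat.cast_intCast, div_eq_iff h3]
    push_cast
    linarith

lemma dot_ev (u v : ℤ × ℤ × ℤ × ℤ) :
    (ph v).re * (ph u).re + (ph v).im * (ph u).im = ev (dot u v) := by
  simp only [ph, ev, dot]
  push_cast
  linear_combination ((u.2.1 : ℝ) * v.2.1 + (u.2.2.2 : ℝ) * v.2.2.2) * s3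

lemma mem_LL (i j : Fin 24) : PP i ∈ LL j ↔ inc i j := by
  simp only [LL, mem_ofPred_eq, PP, dot_ev, inc]
  exact ⟨ev_inj, fun h => by rw [h]⟩

lemma ph_inj {u v : ℤ × ℤ × ℤ × ℤ} (h : ph u = ph v) : u = v := by
  have h1 := ev_inj (congrArg Complex.re h)
  have h2 := ev_inj (congrArg Complex.im h)
  simp only [Prod.mk.injEq] at h1 h2
  exact Prod.ext h1.1 (Prod.ext h1.2 (Prod.ext h2.1 h2.2))

lemma PP_inj : Function.Injective PP := fun i j h => by
  have : ∀ i j, T i = T j → i = j := by decide +kernel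
  exact this i j (ph_inj h)

lemma LL_inj : Function.Injective LL := fun i j h => by
  have : ∀ i j, (∀ k, inc k i ↔ inc k j) → i = j := by decide +kernel
  exact this i j fun k => by rw [← mem_LL, ← mem_LL, h]

lemma root12 : rootU 12 = ⟨√3 / 2, 1 / 2⟩ := by
  have : 2 * (Real.pi : ℂ) * I / ((12 : ℕ) : ℂ) = ((Real.pi / 6 : ℝ) : ℂ) * I := by
    push_cast; ring
  rw [rootU, this, exp_mul_I, ← ofReal_cos, ← ofReal_sin, Real.cos_pi_div_six,
    Real.sin_pi_div_six]
  apply Complex.ext <;> simp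

lemma norm_root : ‖rootU 12‖ = 1 := by
  have : 2 * (Real.pi : ℂ) * I / ((12 : ℕ) : ℂ) = ((Real.pi / 6 : ℝ) : ℂ) * I := by
    push_cast; ring
  rw [rootU, this, norm_exp_ofReal_mul_I]

lemma rot_ph (u v : ℤ × ℤ × ℤ × ℤ)
    (h : (3 * u.2.1 - u.2.2.1, u.1 - u.2.2.2, u.1 + 3 * u.2.2.2, u.2.1 + u.2.2.1) =
      (2 * v.1, 2 * v.2.1, 2 * v.2.2.1, 2 * v.2.2.2)) : rootU 12 * ph u = ph v := by
  simp only [Prod.mk.injEq] at h
  obtain ⟨h1, h2, h3, h4⟩ := h
  have h1' : (3 * u.2.1 - u.2.2.1 : ℝ) = 2 * v.1 := by exact_mod_cast h1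
  have h2' : (u.1 - u.2.2.2 : ℝ) = 2 * v.2.1 := by exact_mod_cast h2
  have h3' : (u.1 + 3 * u.2.2.2 : ℝ) = 2 * v.2.2.1 := by exact_mod_cast h3
  have h4' : (u.2.1 + u.2.2.1 : ℝ) = 2 * v.2.2.2 := by exact_mod_cast h4
  rw [root12]
  apply Complex.ext
  · simp only [mul_re, ph, ev]
    linear_combination (1 / 2) * h1' + (√3 / 2) * h2' + ((u.2.1 : ℝ) / 2) * s3
  · simp only [mul_im, ph, ev]
    linear_combination (1 / 2) * h3' + (√3 / 2) * h4' + ((u.2.2.2 : ℝ) / 2) * s3

lemma rot_PP (i : Fin 24) : rootU 12 * PP i = PP (rho i) := by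
  have : ∀ i, (3 * (T i).2.1 - (T i).2.2.1, (T i).1 - (T i).2.2.2, (T i).1 + 3 * (T i).2.2.2,
      (T i).2.1 + (T i).2.2.1) = (2 * (T (rho i)).1, 2 * (T (rho i)).2.1, 2 * (T (rho i)).2.2.1,
      2 * (T (rho i)).2.2.2) := by decide +kernel
  exact rot_ph _ _ (this i)

lemma conj_PP (i : Fin 24) : (starRingEnd ℂ) (PP i) = PP (sig i) := by
  have : ∀ i, T (sig i) = ((T i).1, (T i).2.1, -(T i).2.2.1, -(T i).2.2.2) := by decide +kernel
  simp only [PP, this i]
  apply Complex.ext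
  · simp [ph]
  · simp [ph, ev]; ring

/-- a map acting on points and lines through one permutation preserving halves -/
def Good (g : ℂ → ℂ) : Prop :=
  ∃ σ : Fin 24 → Fin 24, Function.Surjective σ ∧ (∀ i, hf (σ i) = hf i) ∧
    (∀ i, g (PP i) = PP (σ i)) ∧ ∀ j, g '' LL j = LL (σ j)

lemma Good.comp {g g' : ℂ → ℂ} (h : Good g) (h' : Good g') : Good (g ∘ g') := by
  obtain ⟨σ, a, b, c, d⟩ := h
  obtain ⟨σ', a', b', c', d'⟩ := h'
  refine ⟨σ ∘ σ', a.comp a', fun i => ?_, fun i => ?_, fun j => ?_⟩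
  · simp [b, b']
  · simp [c, c']
  · rw [image_comp, d', d]; rfl

lemma CC_eq {i j : Fin 24} (h : hf i = hf j) : CC i = CC j := by
  revert i j; decide +kernel

lemma good_rot : Good fun z => rootU 12 * z := by
  have hh : ∀ i, hf (rho i) = hf i := by decide +kernel
  refine ⟨rho, by decide +kernel, hh, rot_PP, fun j => ?_⟩
  have hn : (rootU 12).re * (rootU 12).re + (rootU 12).im * (rootU 12).im = 1 := by
    rw [root12]; simp only; linear_combination (1 / 4) * s3
  have h0 : rootU 12 ≠ 0 := by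
    intro h; have := norm_root; rw [h] at this; simp at this
  have key : ∀ z, rootU 12 * z ∈ LL (rho j) ↔ z ∈ LL j := by
    intro z
    simp only [LL, mem_ofPred_eq, ← rot_PP, CC_eq (hh j), mul_re, mul_im]
    constructor
    · intro h
      linear_combination h - ((PP j).re * z.re + (PP j).im * z.im) * hn
    · intro h
      linear_combination h + ((PP j).re * z.re + (PP j).im * z.im) * hn
  ext w
  constructor
  · rintro ⟨z, hz, rfl⟩
    exact (key z).2 hz
  · intro hw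
    refine ⟨(rootU 12)⁻¹ * w, (key _).1 ?_, ?_⟩
    · rwa [mul_inv_cancel_left₀ h0]
    · simp only [mul_inv_cancel_left₀ h0]

lemma good_conj : Good fun z => (starRingEnd ℂ) z := by
  have hh : ∀ i, hf (sig i) = hf i := by decide +kernel
  refine ⟨sig, by decide +kernel, hh, conj_PP, fun j => ?_⟩
  have key : ∀ z, (starRingEnd ℂ) z ∈ LL (sig j) ↔ z ∈ LL j := by
    intro z
    simp only [LL, mem_ofPred_eq, ← conj_PP, CC_eq (hh j), conj_re, conj_im, neg_mul_neg]
  ext w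
  constructor
  · rintro ⟨z, hz, rfl⟩
    exact (key z).2 hz
  · intro hw
    refine ⟨(starRingEnd ℂ) w, (key _).1 ?_, ?_⟩
    · rwa [conj_conj]
    · simp only [conj_conj]

lemma good_pow (r : ℕ) : Good fun z => rootU 12 ^ r * z := by
  induction r with
  | zero => exact ⟨id, Function.surjective_id, fun _ => rfl, fun i => by simp, fun j => by simp⟩
  | succ r ih =>
    have := good_rot.comp ih
    convert this using 1
    funext z
    simp only [Function.comp]
    ring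

lemma Good.isSym {f : ℂ ≃ᵢ ℂ} (h : Good f) : IsSym PP LL f := by
  obtain ⟨σ, a, -, c, d⟩ := h
  constructor
  · rw [← range_comp, show (f ∘ PP) = PP ∘ σ from funext c, a.range_comp]
  · rw [← range_comp, show ((fun l => f '' l) ∘ LL) = LL ∘ σ from funext d, a.range_comp]

lemma pow_PP (r : ℕ) (i : Fin 24) : rootU 12 ^ r * PP i = PP (rho^[r] i) := by
  induction r with
  | zero => simp
  | succ r ih => rw [pow_succ', mul_assoc, ih, rot_PP, Function.iterate_succ_apply']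

lemma pow_LL (r : ℕ) (i : Fin 24) : (fun z => rootU 12 ^ r * z) '' LL i = LL (rho^[r] i) := by
  obtain ⟨σ, -, -, c, d⟩ := good_pow r
  rw [d, PP_inj ((c i).symm.trans (pow_PP r i))]

lemma sum_PP : ∑ i, PP i = 0 := by
  simp only [Fin.sum_univ_succ, PP, T, Fin.sum_univ_zero]
  apply Complex.ext <;> simp [ph, ev] <;> ring

lemma reach : ∀ i j : Fin 24, hf j = hf i → ∃ r : Fin 12, rho^[r.val] i = j := by decide +kernel

lemma normSq_PP (i : Fin 24) : normSq (PP i) = ev (dot (T i) (T i)) := by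
  rw [normSq_apply, ← dot_ev]; rfl

lemma sym_form (f : ℂ ≃ᵢ ℂ) (h : IsSym PP LL f) : ∃ r : ℕ,
    (∀ z, f z = rootU 12 ^ r * z) ∨ (∀ z, f z = rootU 12 ^ r * (starRingEnd ℂ) z) := by
  have h1 : ∀ i, ∃ i', PP i' = f (PP i) := fun i => by
    have : f (PP i) ∈ range PP := h.1 ▸ mem_image_of_mem _ (mem_range_self i)
    exact this
  choose σ hσ using h1
  have hinj : Function.Injective σ := fun a b hab =>
    PP_inj (f.injective (by rw [← hσ, ← hσ, hab]))
  have hbij : Function.Bijective σ := Finite.injective_iff_bijective.1 hinj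
  have hs : ∑ i, f (PP i) = 0 := by
    simp only [← hσ]
    rw [hbij.sum_comp PP, sum_PP]
  have hg := f.toRealLinearIsometryEquiv_apply
  have h0 : f 0 = 0 := by
    have : ∑ i, f.toRealLinearIsometryEquiv (PP i) = 0 := by rw [← map_sum, sum_PP, map_zero]
    simp only [hg, Finset.sum_sub_distrib, hs, Finset.sum_const, Finset.card_univ,
      Fintype.card_fin, zero_sub, neg_eq_zero, nsmul_eq_mul] at this
    exact (mul_eq_zero.1 this).resolve_left (by norm_num)
  simp only [h0, sub_zero] at hg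
  obtain ⟨a, ha⟩ := linear_isometry_complex f.toRealLinearIsometryEquiv
  have hP0 : PP 0 = 2 := by apply Complex.ext <;> simp [PP, T, ph, ev]
  have h2 : f (PP 0) = a * 2 := by
    rw [← hg, hP0]
    rcases ha with ha | ha <;> rw [ha]
    · rfl
    · simp [rotation_apply, conj_ofNat]
  have h3 : hf (σ 0) = hf 0 := by
    have e : normSq (PP (σ 0)) = normSq (PP 0) := by
      rw [hσ, h2, hP0, map_mul, Circle.normSq_coe, one_mul]
    rw [normSq_PP, normSq_PP] at e
    have := ev_inj e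
    revert this
    generalize σ 0 = k
    revert k
    decide +kernel
  obtain ⟨r, hr⟩ := reach 0 (σ 0) h3
  have h4 : (a : ℂ) = rootU 12 ^ r.val := by
    have := pow_PP r.val 0
    rw [hr, hσ, h2, hP0] at this
    exact (mul_right_cancel₀ two_ne_zero this).symm
  refine ⟨r.val, ?_⟩
  rcases ha with ha | ha
  · left; intro z; rw [← hg, ha, rotation_apply, h4]
  · right; intro z; rw [← hg, ha, ← h4]; simp [rotation_apply]

lemma good_of_form (f : ℂ ≃ᵢ ℂ) (r : ℕ)
    (h : (∀ z, f z = rootU 12 ^ r * z) ∨ (∀ z, f z = rootU 12 ^ r * (starRingEnd ℂ) z)) :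
    Good f := by
  rcases h with h | h
  · rw [show (f : ℂ → ℂ) = _ from funext h]; exact good_pow r
  · rw [show (f : ℂ → ℂ) = _ from funext h]; exact (good_pow r).comp good_conj

lemma exists_rot (r : ℕ) : ∃ f : ℂ ≃ᵢ ℂ, ∀ z, f z = rootU 12 ^ r * z :=
  ⟨(rotation ⟨rootU 12 ^ r, by simp [Submonoid.unitSphere, norm_root]⟩).toIsometryEquiv,
    fun _ => rfl⟩

lemma ptOrbit_eq (i : Fin 24) : ptOrbit PP LL i = {i' | hf i' = hf i} := by
  ext i'
  constructor
  · rintro ⟨f, hf', h⟩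
    obtain ⟨r, hr⟩ := sym_form f hf'
    obtain ⟨σ, -, b, c, -⟩ := good_of_form f r hr
    rw [mem_ofPred_eq, ← PP_inj ((c i).symm.trans h), b]
  · intro h
    obtain ⟨r, hr⟩ := reach i i' h
    obtain ⟨f, hf'⟩ := exists_rot r.val
    exact ⟨f, (good_of_form f _ (Or.inl hf')).isSym, by rw [hf', pow_PP, hr]⟩

lemma lnOrbit_eq (i : Fin 24) : lnOrbit PP LL i = {i' | hf i' = hf i} := by
  ext i'
  constructor
  · rintro ⟨f, hf', h⟩
    obtain ⟨r, hr⟩ := sym_form f hf'
    obtain ⟨σ, -, b, -, c⟩ := good_of_form f r hr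
    rw [mem_ofPred_eq, ← LL_inj ((c i).symm.trans h), b]
  · intro h
    obtain ⟨r, hr⟩ := reach i i' h
    obtain ⟨f, hf'⟩ := exists_rot r.val
    refine ⟨f, (good_of_form f _ (Or.inl hf')).isSym, ?_⟩
    rw [show (f : ℂ → ℂ) = _ from funext hf', pow_LL, hr]

lemma ncard_eq (p : Fin 24 → Prop) [DecidablePred p] :
    {i | p i}.ncard = (Finset.univ.filter p).card := by
  rw [← ncard_coe_finset]; congr 1; ext; simp

lemma half_ne : {i' : Fin 24 | hf i' = hf 0} ≠ {i' | hf i' = hf 12} := by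
  intro h
  have : (0 : Fin 24) ∈ {i' : Fin 24 | hf i' = hf 12} := h ▸ rfl
  revert this
  simp only [mem_ofPred_eq]
  decide

lemma range_half : (range fun i : Fin 24 => {i' : Fin 24 | hf i' = hf i}).ncard = 2 := by
  rw [← ncard_pair half_ne]
  congr 1
  ext s
  constructor
  · rintro ⟨i, rfl⟩
    have : ∀ i : Fin 24, hf i = hf 0 ∨ hf i = hf 12 := by decide
    rcases this i with h | h <;> simp [h]
  · rintro (rfl | rfl) <;> exact mem_range_self _

theorem astral : IsAstral 2 12 PP LL where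
  p_inj := PP_inj
  l_inj := LL_inj
  is_line j := by
    refine ⟨_, _, _, ?_, rfl⟩
    by_contra h
    push Not at h
    have h1 : PP j = ph (0, 0, 0, 0) := by
      apply Complex.ext
      · rw [h.1]; simp [ph, ev]
      · rw [h.2]; simp [ph, ev]
    have h2 : ∀ j : Fin 24, T j ≠ (0, 0, 0, 0) := by decide +kernel
    exact h2 j (ph_inj h1)
  four_points j := by
    have : ∀ j, (Finset.univ.filter fun i => inc i j).card = 4 := by decide +kernel
    exact (by simp only [mem_LL]; rw [ncard_eq]; exact this j :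
      {i : Fin 24 | PP i ∈ LL j}.ncard = 4)
  four_lines i := by
    have : ∀ i, (Finset.univ.filter fun j => inc i j).card = 4 := by decide +kernel
    exact (by simp only [mem_LL]; rw [ncard_eq]; exact this i :
      {j : Fin 24 | PP i ∈ LL j}.ncard = 4)
  dihedral := by
    refine ⟨0, 1, norm_one, fun f => ?_⟩
    simp only [zero_add, sub_zero, one_mul]
    exact ⟨sym_form f, fun ⟨r, hr⟩ => (good_of_form f r hr).isSym⟩
  num_pt_orbits := by
    have := range_half
    rwa [← show ptOrbit PP LL = _ from funext ptOrbit_eq] at this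
  num_ln_orbits := by
    have := range_half
    rwa [← show lnOrbit PP LL = _ from funext lnOrbit_eq] at this
  pt_orbit_size i := by
    have : ∀ i, (Finset.univ.filter fun j => hf j = hf i).card = 12 := by decide +kernel
    exact (by rw [ptOrbit_eq, ncard_eq]; exact this i : (ptOrbit (n := 24) PP LL i).ncard = 12)
  ln_orbit_size i := by
    have : ∀ i, (Finset.univ.filter fun j => hf j = hf i).card = 12 := by decide +kernel
    exact (by rw [lnOrbit_eq, ncard_eq]; exact this i : (lnOrbit (n := 24) PP LL i).ncard = 12)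
  regular i := by
    refine ⟨0, PP i, ?_, ?_⟩
    · intro h
      have h1 : PP i = ph (0, 0, 0, 0) := by
        rw [h]; apply Complex.ext <;> simp [ph, ev]
      have h2 : ∀ j : Fin 24, T j ≠ (0, 0, 0, 0) := by decide +kernel
      exact h2 i (ph_inj h1)
    · change PP '' ptOrbit (n := 24) PP LL i = _
      rw [ptOrbit_eq]
      ext z
      constructor
      · rintro ⟨j, hj, rfl⟩
        obtain ⟨r, hr⟩ := reach i j hj
        exact ⟨r.val, by simp only [zero_add]; rw [mul_comm, pow_PP, hr]⟩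
      · rintro ⟨r, rfl⟩
        obtain ⟨σ, -, b, c, -⟩ := good_pow r
        exact ⟨σ i, b i, by simp only [zero_add]; rw [← c, mul_comm]⟩
  two_two_pt i := by
    have : ∀ i, (Finset.univ.filter fun j => hf j = hf 0 ∧ inc i j).card = 2 ∧
      (Finset.univ.filter fun j => hf j = hf 12 ∧ inc i j).card = 2 := by decide +kernel
    exact (by
      refine ⟨0, 12, ?_, ?_, ?_⟩
      · rw [lnOrbit_eq, lnOrbit_eq]; exact half_ne
      · simp only [lnOrbit_eq, mem_ofPred_eq, mem_LL]; rw [ncard_eq]; exact (this i).1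
      · simp only [lnOrbit_eq, mem_ofPred_eq, mem_LL]; rw [ncard_eq]; exact (this i).2 :
      ∃ j₁ j₂ : Fin 24, lnOrbit PP LL j₁ ≠ lnOrbit PP LL j₂ ∧
        {j | j ∈ lnOrbit PP LL j₁ ∧ PP i ∈ LL j}.ncard = 2 ∧
        {j | j ∈ lnOrbit PP LL j₂ ∧ PP i ∈ LL j}.ncard = 2)
  two_two_ln j := by
    have : ∀ j, (Finset.univ.filter fun i => hf i = hf 0 ∧ inc i j).card = 2 ∧
      (Finset.univ.filter fun i => hf i = hf 12 ∧ inc i j).card = 2 := by decide +kernel
    exact (by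
      refine ⟨0, 12, ?_, ?_, ?_⟩
      · rw [ptOrbit_eq, ptOrbit_eq]; exact half_ne
      · simp only [ptOrbit_eq, mem_ofPred_eq, mem_LL]; rw [ncard_eq]; exact (this j).1
      · simp only [ptOrbit_eq, mem_ofPred_eq, mem_LL]; rw [ncard_eq]; exact (this j).2 :
      ∃ j₁ j₂ : Fin 24, ptOrbit PP LL j₁ ≠ ptOrbit PP LL j₂ ∧
        {i | i ∈ ptOrbit PP LL j₁ ∧ PP i ∈ LL j}.ncard = 2 ∧
        {i | i ∈ ptOrbit PP LL j₂ ∧ PP i ∈ LL j}.ncard = 2)

theorem ratReal : HasRatRealization PP LL := by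
  have key : ∀ i j, ((((Q i).1 : ℚ), ((Q i).2 : ℚ)) ∈
      {z : ℚ × ℚ | ((QL j).1 : ℚ) * z.1 + ((QL j).2.1 : ℚ) * z.2 = ((QL j).2.2 : ℚ)}) ↔ inc i j := by
    have : ∀ i j, (QL j).1 * (Q i).1 + (QL j).2.1 * (Q i).2 = (QL j).2.2 ↔ inc i j := by
      decide +kernel
    intro i j
    rw [← this i j, mem_ofPred_eq]
    simp only
    norm_cast
  refine ⟨fun i => (((Q i).1 : ℚ), ((Q i).2 : ℚ)),
    fun j => {z : ℚ × ℚ | ((QL j).1 : ℚ) * z.1 + ((QL j).2.1 : ℚ) * z.2 = ((QL j).2.2 : ℚ)},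
    fun i j h => ?_, fun i j h => ?_, fun j => ⟨_, _, _, ?_, rfl⟩, fun i j => ?_⟩
  · have : ∀ i j, (Q i).1 = (Q j).1 → (Q i).2 = (Q j).2 → i = j := by decide +kernel
    simp only [Prod.mk.injEq, Int.cast_inj] at h
    exact this i j h.1 h.2
  · have : ∀ i j, (∀ k, inc k i ↔ inc k j) → i = j := by decide +kernel
    refine this i j fun k => ?_
    rw [← key, ← key]
    simp only at h
    rw [h]
  · have : ∀ j, (QL j).1 ≠ 0 ∨ (QL j).2.1 ≠ 0 := by decide +kernel
    simpa using this j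
  · rw [key, mem_LL]

end Pool.Agent.Lib.H29.Astral
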