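import Mathlib

set_option autoImplicit false

namespace Pool.Agent.Lib.H29.ConfDim

/-- A balanced combinatorial configuration `(n_k)` with incidence relation `I point line`. -/
def IsBalanced {n : ℕ} (k : ℕ) (I : Fin n → Fin n → Prop) : Prop :=
  (∀ i, {j | I i j}.ncard = k) ∧ (∀ j, {i | I i j}.ncard = k) ∧
    ∀ i i' j j', i ≠ i' → I i j → I i' j → I i j' → I i' j' → j = j'

/-- A geometric realization in Euclidean `m`-space: distinct points, distinct straight lines,
exactly the prescribed incidences. -/
def RealizesIn (m : ℕ) {n : ℕ} (I : Fin n → Fin n → Prop) (P : Fin n → EuclideanSpace ℝ (Fin m))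
    (L : Fin n → AffineSubspace ℝ (EuclideanSpace ℝ (Fin m))) : Prop :=
  Function.Injective P ∧ Function.Injective L ∧
    (∀ j, Module.finrank ℝ (L j).direction = 1) ∧ ∀ i j, P i ∈ L j ↔ I i j

/-- The set of dimensions of affine hulls of realizations of `I` in all Euclidean spaces. -/
def hullDims {n : ℕ} (I : Fin n → Fin n → Prop) : Set ℕ :=
  {d | ∃ (m : ℕ) (P : Fin n → EuclideanSpace ℝ (Fin m))
    (L : Fin n → AffineSubspace ℝ (EuclideanSpace ℝ (Fin m))), RealizesIn m I P L ∧
    Module.finrank ℝ (affineSpan ℝ (Set.range P)).direction = d}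

end Pool.Agent.Lib.H29.ConfDim
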