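import Mathlib
import Pool.Agent.Lib.helper29.AstralDefs

set_option autoImplicit false

namespace Pool.Agent.Lib.H29.Astral

open Set

/-- Distinct points `P i` and distinct lines `L j` of the Euclidean plane whose incidences are
exactly those prescribed by `I`. -/
def EuRealizes {n : ℕ} (I : Fin n → Fin n → Prop) (P : Fin n → ℂ) (L : Fin n → Set ℂ) : Prop :=
  Function.Injective P ∧ Function.Injective L ∧ (∀ j, RLine (L j)) ∧ ∀ i j, P i ∈ L j ↔ I i j

/-- The rotation by the angle `2 π / m` about `c`. -/
noncomputable def rot (m : ℕ) (c : ℂ) (z : ℂ) : ℂ := c + rootU m * (z - c)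

/-- For some `m ≥ 2` the rotation by `2 π / m` about some point maps the point set and the line set
onto themselves, and all its orbits on points and on lines have exactly `m` elements. -/
def Polycyclic {n : ℕ} (P : Fin n → ℂ) (L : Fin n → Set ℂ) : Prop :=
  ∃ (m : ℕ) (c : ℂ), 2 ≤ m ∧ rot m c '' range P = range P ∧
    (fun l => rot m c '' l) '' range L = range L ∧
    (∀ i, (range fun r : ℕ => (rot m c)^[r] (P i)).ncard = m) ∧
    ∀ j, (range fun r : ℕ => (rot m c)^[r] '' L j).ncard = m

end Pool.Agent.Lib.H29.Astral
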