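import Mathlib
import Pool.Agent.Lib.helper29.Astral
import Pool.Agent.Lib.helper29.PolyDefs
import Pool.Agent.Lib.helper29.DimDefs

set_option autoImplicit false

namespace Pool.Agent.Lib.H29.Astral36

open Set Complex Module Pool.Agent.Lib.H29.Astral Pool.Agent.Lib.H29.ConfDim

/-- evaluation -/
noncomputable def φ : ℤ√3 →+* ℝ := Zsqrtd.toReal (by norm_num)

lemma φ_inj : Function.Injective φ := Zsqrtd.toReal_injective _ fun n h => by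
  have : n.natAbs * n.natAbs = 3 := by
    have := congrArg Int.natAbs h
    simpa [Int.natAbs_mul] using this.symm
  have h1 : n.natAbs ≤ 2 := by nlinarith
  interval_cases n.natAbs <;> omega

lemma φ_sqrt : φ ⟨0, 1⟩ = √3 := by simp [φ, Zsqrtd.toReal]

/-- spatial points -/
def T3 : Fin 36 → Fin 3 → ℤ√3 := ![![⟨4, 0⟩, ⟨0, 0⟩, ⟨1, 0⟩], ![⟨0, 2⟩, ⟨2, 0⟩, ⟨-1, 0⟩], ![⟨2, 0⟩, ⟨0, 2⟩, ⟨1, 0⟩], ![⟨0, 0⟩, ⟨4, 0⟩, ⟨-1, 0⟩], ![⟨-2, 0⟩, ⟨0, 2⟩, ⟨1, 0⟩], ![⟨0, -2⟩, ⟨2, 0⟩, ⟨-1, 0⟩], ![⟨-4, 0⟩, ⟨0, 0⟩, ⟨1, 0⟩], ![⟨0, -2⟩, ⟨-2, 0⟩, ⟨-1, 0⟩], ![⟨-2, 0⟩, ⟨0, -2⟩, ⟨1, 0⟩], ![⟨0, 0⟩, ⟨-4, 0⟩, ⟨-1, 0⟩], ![⟨2, 0⟩, ⟨0, -2⟩, ⟨1, 0⟩], ![⟨0, 2⟩, ⟨-2, 0⟩, ⟨-1, 0⟩], ![⟨2, 2⟩, ⟨0, 0⟩, ⟨-2, -1⟩], ![⟨3, 1⟩, ⟨1, 1⟩, ⟨2, 1⟩], ![⟨1, 1⟩, ⟨3, 1⟩, ⟨-2, -1⟩], ![⟨0, 0⟩, ⟨2, 2⟩, ⟨2, 1⟩], ![⟨-1, -1⟩, ⟨3, 1⟩, ⟨-2, -1⟩], ![⟨-3, -1⟩, ⟨1, 1⟩, ⟨2, 1⟩], ![⟨-2,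 -2⟩, ⟨0, 0⟩, ⟨-2, -1⟩], ![⟨-3, -1⟩, ⟨-1, -1⟩, ⟨2, 1⟩], ![⟨-1, -1⟩, ⟨-3, -1⟩, ⟨-2, -1⟩], ![⟨0, 0⟩, ⟨-2, -2⟩, ⟨2, 1⟩], ![⟨1, 1⟩, ⟨-3, -1⟩, ⟨-2, -1⟩], ![⟨3, 1⟩, ⟨-1, -1⟩, ⟨2, 1⟩], ![⟨-2, 2⟩, ⟨0, 0⟩, ⟨-2, 1⟩], ![⟨3, -1⟩, ⟨-1, 1⟩, ⟨2, -1⟩], ![⟨-1, 1⟩, ⟨3, -1⟩, ⟨-2, 1⟩], ![⟨0, 0⟩, ⟨-2, 2⟩, ⟨2, -1⟩], ![⟨1, -1⟩, ⟨3, -1⟩, ⟨-2, 1⟩], ![⟨-3, 1⟩, ⟨-1, 1⟩, ⟨2, -1⟩], ![⟨2, -2⟩, ⟨0, 0⟩, ⟨-2, 1⟩], ![⟨-3, 1⟩, ⟨1, -1⟩, ⟨2, -1⟩], ![⟨1, -1⟩, ⟨-3, 1⟩, ⟨-2, 1⟩], ![⟨0, 0⟩, ⟨2, -2⟩, ⟨2, -1⟩], ![⟨-1, 1⟩, ⟨-3, 1⟩, ⟨-2, 1⟩], ![⟨3, -1⟩, ⟨1, -1⟩, ⟨2, -1⟩]]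
/-- planar lines -/
def LC : Fin 36 → Fin 3 → ℤ√3 := ![![⟨2, 1⟩, ⟨1, 0⟩, ⟨8, 4⟩], ![⟨1, 1⟩, ⟨1, 1⟩, ⟨8, 4⟩], ![⟨1, 0⟩, ⟨2, 1⟩, ⟨8, 4⟩], ![⟨-1, 0⟩, ⟨2, 1⟩, ⟨8, 4⟩], ![⟨-1, -1⟩, ⟨1, 1⟩, ⟨8, 4⟩], ![⟨-2, -1⟩, ⟨1, 0⟩, ⟨8, 4⟩], ![⟨-2, -1⟩, ⟨-1, 0⟩, ⟨8, 4⟩], ![⟨-1, -1⟩, ⟨-1, -1⟩, ⟨8, 4⟩], ![⟨-1, 0⟩, ⟨-2, -1⟩, ⟨8, 4⟩], ![⟨1, 0⟩, ⟨-2, -1⟩, ⟨8, 4⟩], ![⟨1, 1⟩, ⟨-1, -1⟩, ⟨8, 4⟩], ![⟨2, 1⟩, ⟨-1, 0⟩, ⟨8, 4⟩], ![⟨2, 1⟩, ⟨1, 0⟩, ⟨2, 2⟩], ![⟨1, 1⟩, ⟨1, 1⟩, ⟨2, 2⟩], ![⟨1, 0⟩, ⟨2, 1⟩, ⟨2, 2⟩], ![⟨-1, 0⟩, ⟨2, 1⟩, ⟨2, 2⟩], ![⟨-1, -1⟩, ⟨1, 1⟩, ⟨2, 2⟩], ![⟨-2, -1⟩, ⟨1, 0⟩, ⟨2, 2⟩], ![⟨-2, -1⟩, ⟨-1, 0⟩, ⟨2, 2⟩], ![⟨-1, -1⟩, ⟨-1, -1⟩, ⟨2, 2⟩], ![⟨-1, 0⟩, ⟨-2, -1⟩, ⟨2, 2⟩], ![⟨1, 0⟩, ⟨-2, -1⟩, ⟨2, 2⟩], ![⟨1, 1⟩, ⟨-1, -1⟩, ⟨2, 2⟩], ![⟨2, 1⟩, ⟨-1, 0⟩, ⟨2, 2⟩], ![⟨2, 1⟩, ⟨1, 0⟩, ⟨4, 0⟩], ![⟨1, 1⟩, ⟨1, 1⟩, ⟨4, 0⟩], ![⟨1, 0⟩, ⟨2, 1⟩, ⟨4, 0⟩], ![⟨-1,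 0⟩, ⟨2, 1⟩, ⟨4, 0⟩], ![⟨-1, -1⟩, ⟨1, 1⟩, ⟨4, 0⟩], ![⟨-2, -1⟩, ⟨1, 0⟩, ⟨4, 0⟩], ![⟨-2, -1⟩, ⟨-1, 0⟩, ⟨4, 0⟩], ![⟨-1, -1⟩, ⟨-1, -1⟩, ⟨4, 0⟩], ![⟨-1, 0⟩, ⟨-2, -1⟩, ⟨4, 0⟩], ![⟨1, 0⟩, ⟨-2, -1⟩, ⟨4, 0⟩], ![⟨1, 1⟩, ⟨-1, -1⟩, ⟨4, 0⟩], ![⟨2, 1⟩, ⟨-1, 0⟩, ⟨4, 0⟩]]
/-- rotation -/
def rho : Fin 36 → Fin 36 := ![1, 2, 3, 4, 5, 6, 7, 8, 9, 10, 11, 0, 13, 14, 15, 16, 17, 18, 19, 20, 21, 22, 23, 12, 25, 26, 27, 28, 29, 30, 31, 32, 33, 34, 35, 24]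
/-- lines -/
def NN : Fin 36 → List ℕ := ![[0, 1, 14, 23], [1, 2, 12, 15], [2, 3, 13, 16], [3, 4, 14, 17], [4, 5, 15, 18], [5, 6, 16, 19], [6, 7, 17, 20], [7, 8, 18, 21], [8, 9, 19, 22], [9, 10, 20, 23], [10, 11, 12, 21], [0, 11, 13, 22], [15, 22, 24, 25], [16, 23, 25, 26], [12, 17, 26, 27], [13, 18, 27, 28], [14, 19, 28, 29], [15, 20, 29, 30], [16, 21, 30, 31], [17, 22, 31, 32], [18, 23, 32, 33], [12, 19, 33, 34], [13, 20, 34, 35], [14, 21, 24, 35], [3, 10, 26, 35], [4, 11, 24, 27], [0, 5, 25, 28], [1, 6, 26, 29], [2, 7, 27, 30], [3, 8, 28, 31], [4, 9, 29, 32], [5, 10, 30, 33], [6, 11, 31, 34], [0, 7, 32, 35], [1, 8, 24, 33], [2, 9, 25, 34]]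
/-- first -/
def a3 : Fin 36 → Fin 36 := ![0, 1, 2, 3, 4, 5, 6, 7, 8, 9, 10, 0, 15, 16, 12, 13, 14, 15, 16, 17, 18, 12, 13, 14, 3, 4, 0, 1, 2, 3, 4, 5, 6, 0, 1, 2]
/-- second -/
def b3 : Fin 36 → Fin 36 := ![1, 2, 3, 4, 5, 6, 7, 8, 9, 10, 11, 11, 22, 23, 17, 18, 19, 20, 21, 22, 23, 19, 20, 21, 10, 11, 5, 6, 7, 8, 9, 10, 11, 7, 8, 9]
/-- rank -/
def rk : Fin 36 → ℕ := ![0, 1, 13, 22, 23, 7, 16, 10, 19, 27, 28, 4, 14, 5, 2, 15, 30, 24, 31, 25, 29, 26, 6, 3, 20, 8, 17, 32, 9, 18, 35, 33, 11, 21, 34, 12]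
/-- incidence -/
def II (i j : Fin 36) : Prop := i.val ∈ NN j
instance (i j : Fin 36) : Decidable (II i j) := by unfold II; infer_instance
/-- class -/
def cl (i : Fin 36) : ℕ := i.val / 12

lemma sepP : ∀ i i', i ≠ i' → ∃ j, II i j ∧ ¬ II i' j := by decide +kernel
lemma sepL : ∀ j j', j ≠ j' → ∃ i, II i j ∧ ¬ II i j' := by decide +kernel

lemma ncard_eq (q : Fin 36 → Prop) [DecidablePred q] :
    {i | q i}.ncard = (Finset.univ.filter q).card := by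
  rw [← Set.ncard_coe_finset]; congr 1; ext; simp

lemma balanced : IsBalanced 4 II := by
  have h1 : ∀ i, (Finset.univ.filter fun j => II i j).card = 4 := by decide +kernel
  have h2 : ∀ j, (Finset.univ.filter fun i => II i j).card = 4 := by decide +kernel
  have h3 : ∀ j j', j ≠ j' → ∀ i, II i j → II i j' → ∀ i', II i' j → II i' j' → i = i' := by
    decide +kernel
  refine ⟨fun i => by rw [ncard_eq]; exact h1 i, fun j => by rw [ncard_eq]; exact h2 j, ?_⟩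
  intro i i' j j' hne a b c d
  by_contra h
  exact hne (h3 j j' h i a c i' b d)

lemma connected (i i' : Fin 36) :
    Relation.ReflTransGen (fun a b => ∃ j, II a j ∧ II b j) i i' := by
  have h : ∀ i, i = 0 ∨ ∃ i', rk i' < rk i ∧ ∃ j, II i' j ∧ II i j := by decide +kernel
  have h0 : ∀ n, ∀ i, rk i < n →
      Relation.ReflTransGen (fun a b => ∃ j, II a j ∧ II b j) 0 i := by
    intro n
    induction n with
    | zero => intro i hi; omega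
    | succ n ih =>
      intro i hi
      rcases h i with rfl | ⟨i', h1, h2⟩
      · exact Relation.ReflTransGen.refl
      · exact (ih i' (by omega)).tail h2
  have hs : ∀ a b, Relation.ReflTransGen (fun a b => ∃ j, II a j ∧ II b j) a b →
      Relation.ReflTransGen (fun a b => ∃ j, II a j ∧ II b j) b a := by
    intro a b hab
    induction hab with
    | refl => exact Relation.ReflTransGen.refl
    | tail _ h2 ih =>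
      obtain ⟨j, x, y⟩ := h2
      exact Relation.ReflTransGen.head ⟨j, y, x⟩ ih
  exact (hs _ _ (h0 _ i (Nat.lt_succ_self _))).trans (h0 _ i' (Nat.lt_succ_self _))

/-- points -/
noncomputable def PP (i : Fin 36) : ℂ := ⟨φ (T3 i 0), φ (T3 i 1)⟩
/-- lines -/
def LL (j : Fin 36) : Set ℂ := {z | φ (LC j 0) * z.re + φ (LC j 1) * z.im = φ (LC j 2)}

lemma mem_LL (i j : Fin 36) : PP i ∈ LL j ↔ II i j := by
  have : ∀ i j, LC j 0 * T3 i 0 + LC j 1 * T3 i 1 = LC j 2 ↔ II i j := by decide +kernel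
  rw [← this, ← φ_inj.eq_iff]
  simp only [PP, LL, mem_ofPred_eq, map_add, map_mul]

theorem euReal : EuRealizes II PP LL := by
  refine ⟨fun i i' h => ?_, fun j j' h => ?_, fun j => ⟨_, _, _, ?_, rfl⟩, mem_LL⟩
  · by_contra hne
    obtain ⟨k, k1, k2⟩ := sepP i i' hne
    rw [← mem_LL, h, mem_LL] at k1
    exact k2 k1
  · by_contra hne
    obtain ⟨k, k1, k2⟩ := sepL j j' hne
    rw [← mem_LL, h, mem_LL] at k1
    exact k2 k1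
  · have : ∀ j, LC j 0 ≠ 0 ∨ LC j 1 ≠ 0 := by decide +kernel
    simpa only [Ne, map_eq_zero_iff φ φ_inj] using this j

lemma rot_aux {x y x' y' : ℤ√3} (h : ⟨0, 1⟩ * x - y = 2 * x' ∧ x + ⟨0, 1⟩ * y = 2 * y') :
    rootU 12 * ⟨φ x, φ y⟩ = ⟨φ x', φ y'⟩ := by
  have h1 := congrArg φ h.1
  have h2 := congrArg φ h.2
  simp only [map_sub, map_add, map_mul, φ_sqrt, map_ofNat] at h1 h2
  rw [root12]
  apply Complex.ext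
  · simp only [mul_re]; linarith
  · simp only [mul_im]; linarith

lemma rot_PP (i : Fin 36) : rootU 12 * PP i = PP (rho i) := by
  have : ∀ i, ⟨0, 1⟩ * T3 i 0 - T3 i 1 = 2 * T3 (rho i) 0 ∧
    T3 i 0 + ⟨0, 1⟩ * T3 i 1 = 2 * T3 (rho i) 1 := by decide +kernel
  exact rot_aux (this i)

lemma rot_LL (j : Fin 36) : (fun z => rootU 12 * z) '' LL j = LL (rho j) := by
  have h1 : ∀ i, ⟨0, 1⟩ * LC i 0 - LC i 1 = 2 * LC (rho i) 0 ∧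
    LC i 0 + ⟨0, 1⟩ * LC i 1 = 2 * LC (rho i) 1 := by decide +kernel
  have h2 : ∀ i, LC (rho i) 2 = LC i 2 := by decide +kernel
  have h3 := rot_aux (h1 j)
  have hn : (rootU 12).re * (rootU 12).re + (rootU 12).im * (rootU 12).im = 1 := by
    rw [root12]; simp only; linear_combination (1 / 4) * s3
  have h0 : rootU 12 ≠ 0 := Complex.exp_ne_zero _
  have key : ∀ z, rootU 12 * z ∈ LL (rho j) ↔ z ∈ LL j := by
    intro z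
    have e1 := congrArg Complex.re h3
    have e2 := congrArg Complex.im h3
    simp only [mul_re, mul_im] at e1 e2
    simp only [LL, mem_ofPred_eq, h2, mul_re, mul_im, ← e1, ← e2]
    constructor
    · intro h
      linear_combination h - (φ (LC j 0) * z.re + φ (LC j 1) * z.im) * hn
    · intro h
      linear_combination h + (φ (LC j 0) * z.re + φ (LC j 1) * z.im) * hn
  ext w
  constructor
  · rintro ⟨z, hz, rfl⟩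
    exact (key z).2 hz
  · intro hw
    refine ⟨(rootU 12)⁻¹ * w, (key _).1 ?_, ?_⟩
    · rwa [mul_inv_cancel_left₀ h0]
    · simp only [mul_inv_cancel_left₀ h0]

lemma pow_PP (r : ℕ) (i : Fin 36) : rootU 12 ^ r * PP i = PP (rho^[r] i) := by
  induction r with
  | zero => simp
  | succ r ih => rw [pow_succ', mul_assoc, ih, rot_PP, Function.iterate_succ_apply']

lemma pow_LL (r : ℕ) (i : Fin 36) : (fun z => rootU 12 ^ r * z) '' LL i = LL (rho^[r] i) := by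
  induction r with
  | zero => simp
  | succ r ih =>
    rw [Function.iterate_succ_apply', ← rot_LL, ← ih, image_image]
    simp only [pow_succ', mul_assoc]

lemma rot_sym (r : ℕ) : ∃ f : ℂ ≃ᵢ ℂ, IsSym PP LL f ∧ (∀ i, f (PP i) = PP (rho^[r] i)) ∧
    ∀ j, f '' LL j = LL (rho^[r] j) := by
  obtain ⟨f, hf⟩ := exists_rot r
  have hs : Function.Surjective rho := by decide +kernel
  have c : ∀ i, f (PP i) = PP (rho^[r] i) := fun i => by rw [hf, pow_PP]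
  have d : ∀ j, f '' LL j = LL (rho^[r] j) := fun j => by
    rw [show (f : ℂ → ℂ) = _ from funext hf, pow_LL]
  refine ⟨f, ⟨?_, ?_⟩, c, d⟩
  · rw [← range_comp, show (f ∘ PP) = PP ∘ rho^[r] from funext c, (hs.iterate r).range_comp]
  · rw [← range_comp, show ((fun l => f '' l) ∘ LL) = LL ∘ rho^[r] from funext d,
      (hs.iterate r).range_comp]

lemma reach : ∀ i j : Fin 36, cl j = cl i → ∃ r : Fin 12, rho^[r.val] i = j := by decide +kernel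

lemma sum_PP : ∑ i, PP i = 0 := by
  have h1 : ∑ i, T3 i 0 = 0 := by decide +kernel
  have h2 : ∑ i, T3 i 1 = 0 := by decide +kernel
  apply Complex.ext
  · simp only [re_sum, PP, ← map_sum, h1, map_zero, zero_re]
  · simp only [im_sum, PP, ← map_sum, h2, map_zero, zero_im]

lemma sym_cl (f : ℂ ≃ᵢ ℂ) (h : IsSym PP LL f) (i : Fin 36) :
    ∃ i', PP i' = f (PP i) ∧ cl i' = cl i := by
  have h1 : ∀ i, ∃ i', PP i' = f (PP i) := fun i => by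
    have : f (PP i) ∈ range PP := h.1 ▸ mem_image_of_mem _ (mem_range_self i)
    exact this
  choose σ hσ using h1
  have hinj : Function.Injective σ := fun a b hab =>
    euReal.1 (f.injective (by rw [← hσ, ← hσ, hab]))
  have hbij : Function.Bijective σ := Finite.injective_iff_bijective.1 hinj
  have hs : ∑ i, f (PP i) = 0 := by
    simp only [← hσ]
    rw [hbij.sum_comp PP, sum_PP]
  have hg := f.toRealLinearIsometryEquiv_apply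
  have h0 : f 0 = 0 := by
    have : ∑ i, f.toRealLinearIsometryEquiv (PP i) = 0 := by rw [← map_sum, sum_PP, map_zero]
    simp only [hg, Finset.sum_sub_distrib, hs, Finset.sum_const, Finset.card_univ,
      Fintype.card_fin, zero_sub, neg_eq_zero, nsmul_eq_mul] at this
    exact (mul_eq_zero.1 this).resolve_left (by norm_num)
  refine ⟨σ i, hσ i, ?_⟩
  have e : ‖PP (σ i)‖ = ‖PP i‖ := by
    rw [hσ, ← f.toRealLinearIsometryEquiv.norm_map (PP i), hg, h0, sub_zero]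
  have e2 : normSq (PP (σ i)) = normSq (PP i) := by
    rw [normSq_eq_norm_sq, normSq_eq_norm_sq, e]
  simp only [normSq_apply, PP, ← map_mul, ← map_add] at e2
  have : ∀ a b, T3 a 0 * T3 a 0 + T3 a 1 * T3 a 1 = T3 b 0 * T3 b 0 + T3 b 1 * T3 b 1 →
    cl a = cl b := by decide +kernel
  exact this _ _ (φ_inj e2)

lemma ptOrbit_eq (i : Fin 36) : ptOrbit PP LL i = {i' | cl i' = cl i} := by
  ext i'
  constructor
  · rintro ⟨f, hf', h⟩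
    obtain ⟨k, h1, h2⟩ := sym_cl f hf' i
    rw [mem_ofPred_eq, ← euReal.1 (h1.trans h), h2]
  · intro h
    obtain ⟨r, hr⟩ := reach i i' h
    obtain ⟨f, a, b, -⟩ := rot_sym r.val
    exact ⟨f, a, by rw [b, hr]⟩

lemma lnOrbit_eq (j : Fin 36) : lnOrbit PP LL j = {j' | cl j' = cl j} := by
  ext j'
  constructor
  · rintro ⟨f, hf', h⟩
    have : ∀ j j', (∀ i, II i j → ∃ i', II i' j' ∧ cl i' = cl i) → cl j' = cl j := by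
      decide +kernel
    refine this j j' fun i hi => ?_
    obtain ⟨k, h1, h2⟩ := sym_cl f hf' i
    refine ⟨k, ?_, h2⟩
    rw [← mem_LL, h1, ← h]
    exact mem_image_of_mem _ ((mem_LL i j).2 hi)
  · intro h
    obtain ⟨r, hr⟩ := reach j j' h
    obtain ⟨f, a, -, b⟩ := rot_sym r.val
    exact ⟨f, a, by rw [b, hr]⟩

lemma range_cl : (range fun i : Fin 36 => {i' : Fin 36 | cl i' = cl i}).ncard = 3 := by
  have hne : ∀ a b : Fin 36, cl a ≠ cl b →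
      {i' : Fin 36 | cl i' = cl a} ≠ {i' : Fin 36 | cl i' = cl b} := fun a b h e => by
    have : a ∈ {i' : Fin 36 | cl i' = cl b} := e ▸ rfl
    exact h this
  rw [ncard_eq_three]
  refine ⟨_, _, _, hne 0 12 (by decide), hne 0 24 (by decide), hne 12 24 (by decide), ?_⟩
  ext s
  constructor
  · rintro ⟨i, rfl⟩
    have : ∀ i : Fin 36, cl i = cl 0 ∨ cl i = cl 12 ∨ cl i = cl 24 := by decide +kernel
    rcases this i with h | h | h <;> simp [h]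
  · rintro (rfl | rfl | rfl) <;> exact mem_range_self _

/-- cast -/
noncomputable def cv (x : Fin 3 → ℤ√3) : EuclideanSpace ℝ (Fin 3) :=
  WithLp.toLp 2 fun s => φ (x s)

lemma cv_apply (x : Fin 3 → ℤ√3) (s : Fin 3) : cv x s = φ (x s) := rfl

lemma mem_line (x a b : Fin 3 → ℤ√3) (hab : ∃ s, a s ≠ b s) :
    cv x ∈ line[ℝ, cv a, cv b] ↔ ∀ s t, (x s - a s) * (b t - a t) = (x t - a t) * (b s - a s) := by
  rw [mem_affineSpan_pair_iff_exists_lineMap_eq]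
  constructor
  · rintro ⟨r, hr⟩ s t
    have h : ∀ s, φ (x s) = r * (φ (b s) - φ (a s)) + φ (a s) := fun s => by
      rw [← cv_apply, ← hr, AffineMap.lineMap_apply]; simp [cv_apply]
    apply φ_inj
    simp only [map_mul, map_sub]
    rw [h s, h t]; ring
  · intro h
    obtain ⟨s, hs⟩ := hab
    have hs' : φ (b s) - φ (a s) ≠ 0 := sub_ne_zero.2 (φ_inj.ne hs.symm)
    refine ⟨(φ (x s) - φ (a s)) / (φ (b s) - φ (a s)), ?_⟩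
    ext t
    have := congrArg φ (h s t)
    simp only [map_mul, map_sub] at this
    rw [AffineMap.lineMap_apply]
    simp only [vsub_eq_sub, vadd_eq_add, PiLp.add_apply, PiLp.smul_apply, PiLp.sub_apply, cv_apply,
      smul_eq_mul]
    field_simp
    linarith

lemma three_mem : 3 ∈ hullDims II := by
  have h1 : ∀ j, ∃ s, T3 (a3 j) s ≠ T3 (b3 j) s := by decide +kernel
  have h2 : ∀ i j, (∀ s t, (T3 i s - T3 (a3 j) s) * (T3 (b3 j) t - T3 (a3 j) t) =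
      (T3 i t - T3 (a3 j) t) * (T3 (b3 j) s - T3 (a3 j) s)) ↔ II i j := by decide +kernel
  have key : ∀ i j, cv (T3 i) ∈ line[ℝ, cv (T3 (a3 j)), cv (T3 (b3 j))] ↔ II i j := fun i j => by
    rw [mem_line _ _ _ (h1 j), h2]
  refine ⟨3, fun i => cv (T3 i), fun j => line[ℝ, cv (T3 (a3 j)), cv (T3 (b3 j))],
    ⟨fun i i' h => ?_, fun j j' h => ?_, fun j => ?_, key⟩, ?_⟩
  · by_contra hne
    obtain ⟨k, k1, k2⟩ := sepP i i' hne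
    simp only at h
    rw [← key, h, key] at k1
    exact k2 k1
  · by_contra hne
    obtain ⟨k, k1, k2⟩ := sepL j j' hne
    simp only at h
    rw [← key, h, key] at k1
    exact k2 k1
  · rw [direction_affineSpan, vectorSpan_pair]
    apply finrank_span_singleton
    obtain ⟨s, hs⟩ := h1 j
    intro h
    have := congrArg (fun v : EuclideanSpace ℝ (Fin 3) => v s) h
    simp only [vsub_eq_sub, PiLp.sub_apply, cv_apply, PiLp.zero_apply, sub_eq_zero] at this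
    exact hs (φ_inj this)
  · rw [direction_affineSpan]
    have : vectorSpan ℝ (Set.range fun i => cv (T3 i)) = ⊤ := by
      rw [Submodule.eq_top_iff']
      intro x
      have m : ∀ i j, cv (T3 i) -ᵥ cv (T3 j) ∈ vectorSpan ℝ (Set.range fun i => cv (T3 i)) :=
        fun i j => vsub_mem_vectorSpan ℝ ⟨i, rfl⟩ ⟨j, rfl⟩
      have e : x = ((x 0 - 2 * x 2) / 8) • (cv (T3 0) -ᵥ cv (T3 6)) +
          ((x 1 + 2 * x 2) / 8) • (cv (T3 3) -ᵥ cv (T3 9)) +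
          (x 2 / 2) • (cv (T3 0) -ᵥ cv (T3 3)) := by
        have e0 : T3 0 = ![4, 0, 1] := by decide +kernel
        have e3 : T3 3 = ![0, 4, -1] := by decide +kernel
        have e6 : T3 6 = ![-4, 0, 1] := by decide +kernel
        have e9 : T3 9 = ![0, -4, -1] := by decide +kernel
        ext s
        fin_cases s <;> simp [e0, e3, e6, e9, cv_apply, map_ofNat] <;> ring
      rw [e]
      exact Submodule.add_mem _ (Submodule.add_mem _ (Submodule.smul_mem _ _ (m _ _))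
        (Submodule.smul_mem _ _ (m _ _))) (Submodule.smul_mem _ _ (m _ _))
    rw [this]
    simp

end Pool.Agent.Lib.H29.Astral36
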