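import Mathlib

/-! The completely multiplicative function obtained from a Dirichlet character modulo a power
of two by applying it to the odd part of its argument. -/

namespace Pool.Agent.Lib.H29.Paperfold

open Finset

/-- the odd part -/
def oddPart (n : ℕ) : ℕ := ordCompl[2] n

lemma oddPart_mul (a b : ℕ) : oddPart (a * b) = oddPart a * oddPart b :=
  Nat.ordCompl_mul a b 2

lemma oddPart_odd {n : ℕ} (hn : n ≠ 0) : oddPart n % 2 = 1 := by
  have h := Nat.not_dvd_ordCompl Nat.prime_two hn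
  unfold oddPart
  omega

lemma oddPart_of_odd {n : ℕ} (hn : n % 2 = 1) : oddPart n = n := by
  have h : ¬ 2 ∣ n := by omega
  unfold oddPart
  rw [Nat.factorization_eq_zero_of_not_dvd h]
  simp

lemma oddPart_two : oddPart 2 = 1 := by
  unfold oddPart
  rw [Nat.Prime.factorization_self Nat.prime_two]
  norm_num

lemma oddPart_two_mul (n : ℕ) : oddPart (2 * n) = oddPart n := by
  rw [oddPart_mul, oddPart_two, one_mul]

/-- the paperfolding function -/
def pf (n : ℕ) : ℤ := ZMod.χ₄ ((oddPart n : ℕ) : ZMod 4)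

lemma pf_mul (a b : ℕ) : pf (a * b) = pf a * pf b := by
  unfold pf
  rw [oddPart_mul, Nat.cast_mul, map_mul]

lemma pf_pm {n : ℕ} (hn : n ≠ 0) : pf n = 1 ∨ pf n = -1 := by
  unfold pf
  have h := oddPart_odd hn
  rw [ZMod.χ₄_nat_eq_if_mod_four]
  have h0 : ¬ oddPart n % 2 = 0 := by omega
  rw [if_neg h0]
  split_ifs <;> simp

lemma pf_sq {n : ℕ} (hn : n ≠ 0) : pf n * pf n = 1 := by
  rcases pf_pm hn with h | h <;> rw [h] <;> norm_num

lemma pf_odd {n : ℕ} (hn : n % 2 = 1) : pf n = if n % 4 = 1 then 1 else -1 := by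
  unfold pf
  rw [oddPart_of_odd hn, ZMod.χ₄_nat_eq_if_mod_four]
  have h0 : ¬ n % 2 = 0 := by omega
  rw [if_neg h0]

lemma pf_cancel {j r : ℕ} (hj : j % 2 = 1) (hr : r % 2 = 1) : pf j + pf (j + r + r) = 0 := by
  rw [pf_odd hj, pf_odd (n := j + r + r) (by omega)]
  by_cases h : j % 4 = 1
  · rw [if_pos h, if_neg (by omega)]; norm_num
  · rw [if_neg h, if_pos (by omega)]; norm_num

/-- the even-indexed correlation terms -/
def ev (r j : ℕ) : ℤ := if j % 2 = 0 then pf j * pf (j + r) else 0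

lemma corr_eq {r : ℕ} (hr : r % 2 = 1) (j : ℕ) :
    pf j * pf (j + r) = ev r j - ev r (j + r) := by
  unfold ev
  by_cases h : j % 2 = 0
  · rw [if_pos h, if_neg (by omega)]; ring
  · rw [if_neg h, if_pos (by omega)]
    have := pf_cancel (j := j) (r := r) (by omega) hr
    linear_combination (pf (j + r)) * this

lemma abs_pf_le (n : ℕ) : |pf n| ≤ 1 := by
  unfold pf
  rw [ZMod.χ₄_nat_eq_if_mod_four]
  split_ifs <;> simp

lemma abs_ev_le (r j : ℕ) : |ev r j| ≤ 1 := by
  unfold ev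
  split_ifs
  · rw [abs_mul]
    exact mul_le_one₀ (abs_pf_le _) (abs_nonneg _) (abs_pf_le _)
  · simp

lemma tele (E : ℕ → ℤ) (r A n : ℕ) :
    ∑ k ∈ range n, (E (A + k) - E (A + k + r)) =
      ∑ i ∈ range r, E (A + i) - ∑ i ∈ range r, E (A + n + i) := by
  induction n with
  | zero => simp
  | succ n ih =>
    rw [sum_range_succ, ih]
    have h1 := sum_range_succ (fun i => E (A + n + i)) r
    have h2 := sum_range_succ' (fun i => E (A + n + i)) r
    have h3 : ∑ i ∈ range r, E (A + (n + 1) + i) = ∑ i ∈ range r, E (A + n + (i + 1)) :=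
      sum_congr rfl (fun i _ => by congr 1; ring)
    simp only [add_zero] at h2
    rw [h3]
    linarith

lemma abs_sum_le (E : ℕ → ℤ) (hE : ∀ j, |E j| ≤ 1) (r A : ℕ) :
    |∑ i ∈ range r, E (A + i)| ≤ r := by
  calc |∑ i ∈ range r, E (A + i)| ≤ ∑ i ∈ range r, |E (A + i)| := abs_sum_le_sum_abs _ _
    _ ≤ ∑ i ∈ range r, (1 : ℤ) := sum_le_sum (fun i _ => hE _)
    _ = r := by simp

lemma corr_bound {r : ℕ} (hr : r % 2 = 1) (A n : ℕ) :
    |∑ k ∈ range n, pf (A + k) * pf (A + k + r)| ≤ 2 * r := by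
  rw [sum_congr rfl (fun k _ => corr_eq hr (A + k)), tele]
  have h1 := abs_sum_le (ev r) (abs_ev_le r) r A
  have h2 := abs_sum_le (ev r) (abs_ev_le r) r (A + n)
  have := abs_sub (∑ i ∈ range r, ev r (A + i)) (∑ i ∈ range r, ev r (A + n + i))
  linarith

lemma corr_one (n : ℕ) : |∑ k ∈ range n, pf (1 + k) * pf (1 + k + 1)| ≤ 1 := by
  rw [sum_congr rfl (fun k _ => corr_eq (r := 1) (by norm_num) (1 + k)), tele]
  have h := abs_ev_le 1 (1 + n)
  have h0 : ev 1 1 = 0 := by unfold ev; simp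
  simp [h0, h]

end Pool.Agent.Lib.H29.Paperfold
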