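import Mathlib
import Pool.Agent.Lib.helper29.Paperfold

namespace Pool.Agent.Lib.H29.BadSets

open Finset Pool.Agent.Lib.H29.Paperfold

lemma sum_indicator_eq (g : ℕ → ℕ) (hg : StrictMono g) (h0 : 1 ≤ g 0) (S : Set ℕ)
    (hS : ∀ k, 1 ≤ k → (k ∈ S ↔ ∃ m, g m = k)) (F : ℕ → ℂ) (n : ℕ) :
    ∃ M, ∑ k ∈ Finset.Icc 1 n, S.indicator F k = ∑ m ∈ range M, F (g m) := by
  classical
  have hex : ∃ m, n < g m := ⟨n + 1, lt_of_lt_of_le (Nat.lt_succ_self n) (hg.id_le (n + 1))⟩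
  refine ⟨Nat.find hex, ?_⟩
  rw [← Finset.sum_image (f := F) (fun a _ b _ h => hg.injective h)]
  have h1 := Finset.sum_indicator_eq_sum_filter (Finset.Icc 1 n) (fun _ => F) (fun _ => S)
    (fun k => k)
  rw [h1]
  refine sum_congr ?_ (fun _ _ => rfl)
  ext k
  simp only [mem_filter, mem_Icc, mem_image, mem_range]
  constructor
  · rintro ⟨⟨hk1, hkn⟩, hk⟩
    obtain ⟨m, rfl⟩ := (hS k hk1).1 hk
    refine ⟨m, ?_, rfl⟩
    by_contra hm
    have := Nat.find_spec hex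
    have h2 := hg.monotone (not_lt.1 hm)
    omega
  · rintro ⟨m, hm, rfl⟩
    have h2 := Nat.find_min hex hm
    have h3 : 1 ≤ g m := le_trans h0 (hg.monotone (Nat.zero_le m))
    exact ⟨⟨h3, not_lt.1 h2⟩, (hS _ h3).2 ⟨m, rfl⟩⟩

lemma bad_of (g : ℕ → ℕ) (hg : StrictMono g) (h0 : 1 ≤ g 0) (S : Set ℕ)
    (hS : ∀ k, 1 ≤ k → (k ∈ S ↔ ∃ m, g m = k)) (a : ℕ → ℂ)
    (ha : ∀ n, 1 ≤ n → ‖a n‖ = 1) (hm : ∀ m n, 1 ≤ m → 1 ≤ n → a (m * n) = a m * a n)
    (C : ℝ) (hC : ∀ M, ‖∑ m ∈ range M, a (g m)‖ ≤ C) (d n : ℕ) (hd : 1 ≤ d) :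
    ‖∑ k ∈ Finset.Icc 1 n, S.indicator (fun k => a (d * k)) k‖ ≤ C := by
  obtain ⟨M, hM⟩ := sum_indicator_eq g hg h0 S hS (fun k => a (d * k)) n
  rw [hM]
  have : ∑ m ∈ range M, a (d * g m) = a d * ∑ m ∈ range M, a (g m) := by
    rw [mul_sum]
    exact sum_congr rfl (fun m _ => hm _ _ hd (le_trans h0 (hg.monotone (Nat.zero_le m))))
  rw [this, norm_mul, ha d hd, one_mul]
  exact hC M

lemma norm_alt (M : ℕ) : ‖∑ m ∈ range M, (-1 : ℂ) ^ m‖ ≤ 1 := by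
  rw [neg_one_geom_sum]
  split_ifs <;> simp

/-- the sign of the parity of the 2-adic valuation -/
def v2s (n : ℕ) : ℤ := (-1) ^ (n.factorization 2)

lemma v2s_mul {m n : ℕ} (hm : 1 ≤ m) (hn : 1 ≤ n) : v2s (m * n) = v2s m * v2s n := by
  unfold v2s
  rw [Nat.factorization_mul (by omega) (by omega), Finsupp.add_apply, pow_add]

lemma v2s_odd {n : ℕ} (hn : n % 2 = 1) : v2s n = 1 := by
  unfold v2s
  rw [Nat.factorization_eq_zero_of_not_dvd (by omega)]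
  simp

lemma v2s_two : v2s 2 = -1 := by
  unfold v2s
  rw [Nat.Prime.factorization_self Nat.prime_two]
  simp

lemma v2s_sq (m : ℕ) : v2s ((m + 1) ^ 2 + 1) = - (-1) ^ m := by
  rcases Nat.even_or_odd' m with ⟨j, rfl | rfl⟩
  · have : (2 * j + 1) ^ 2 + 1 = 2 * (2 * (j ^ 2 + j) + 1) := by ring
    rw [this, v2s_mul (by norm_num) (by omega), v2s_two, v2s_odd (by omega)]
    simp
  · have : (2 * j + 1 + 1) ^ 2 + 1 = 2 * (2 * (j + 1) ^ 2) + 1 := by ring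
    rw [this, v2s_odd (by omega), pow_succ, pow_mul]
    simp

/-- the modified character of conductor eight -/
def e8 (n : ℕ) : ℤ := ZMod.χ₈' ((oddPart n : ℕ) : ZMod 8)

lemma e8_mul (a b : ℕ) : e8 (a * b) = e8 a * e8 b := by
  unfold e8
  rw [oddPart_mul, Nat.cast_mul, map_mul]

lemma e8_pm {n : ℕ} (hn : n ≠ 0) : e8 n = 1 ∨ e8 n = -1 := by
  unfold e8
  have h := oddPart_odd hn
  rw [ZMod.χ₈'_nat_eq_if_mod_eight]
  have h0 : ¬ oddPart n % 2 = 0 := by omega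
  rw [if_neg h0]
  split_ifs <;> simp

lemma abs_e8 {n : ℕ} (hn : n ≠ 0) : |e8 n| = 1 := by
  rcases e8_pm hn with h | h <;> simp [h]

lemma e8_odd {n : ℕ} (hn : n % 2 = 1) : e8 n = if n % 8 = 1 ∨ n % 8 = 3 then 1 else -1 := by
  unfold e8
  rw [oddPart_of_odd hn, ZMod.χ₈'_nat_eq_if_mod_eight]
  have h0 : ¬ n % 2 = 0 := by omega
  rw [if_neg h0]

lemma e8_two_mul (n : ℕ) : e8 (2 * n) = e8 n := by
  unfold e8
  rw [oddPart_two_mul]

/-- the terms -/
def tm (j : ℕ) : ℤ := e8 (j + 1) * e8 (j + 3)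

/-- partial block sums -/
def hb (i : ℕ) : ℤ :=
  if i % 8 = 1 ∨ i % 8 = 2 ∨ i % 8 = 7 then (if i % 8 = 7 then 0 else 2) else
  if i % 8 = 5 ∨ i % 8 = 6 then -2 else 0

lemma block (i : ℕ) : tm (4 * i + 1) + tm (4 * i + 2) + tm (4 * i + 3) + tm (4 * i + 4) =
    hb (i + 1) - hb i := by
  unfold tm
  have a1 : e8 (4 * i + 1 + 1) = e8 (2 * i + 1) := by
    rw [← e8_two_mul (2 * i + 1)]; congr 1; ring
  have a2 : e8 (4 * i + 1 + 3) = e8 (i + 1) := by
    rw [← e8_two_mul (i + 1), ← e8_two_mul (2 * (i + 1))]; congr 1; ring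
  have a3 : e8 (4 * i + 3 + 1) = e8 (i + 1) := by
    rw [← e8_two_mul (i + 1), ← e8_two_mul (2 * (i + 1))]; congr 1; ring
  have a4 : e8 (4 * i + 3 + 3) = e8 (2 * i + 3) := by
    rw [← e8_two_mul (2 * i + 3)]; congr 1; ring
  have b1 := e8_odd (n := 2 * i + 1) (by omega)
  have b2 := e8_odd (n := 2 * i + 3) (by omega)
  have b3 := e8_odd (n := 4 * i + 2 + 1) (by omega)
  have b4 := e8_odd (n := 4 * i + 2 + 3) (by omega)
  have b5 := e8_odd (n := 4 * i + 4 + 1) (by omega)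
  have b6 := e8_odd (n := 4 * i + 4 + 3) (by omega)
  have key : (e8 (4 * i + 2 + 1) * e8 (4 * i + 2 + 3) + e8 (4 * i + 4 + 1) * e8 (4 * i + 4 + 3) = 0) := by
    rw [b3, b4, b6]
    split_ifs <;> omega
  have key2 : e8 (i + 1) * (e8 (2 * i + 1) + e8 (2 * i + 3)) = hb (i + 1) - hb i := by
    rw [b1, b2]
    unfold hb
    by_cases hi : i % 2 = 0
    · rw [e8_odd (n := i + 1) (by omega)]
      split_ifs <;> omega
    · generalize e8 (i + 1) = x
      split_ifs <;> omega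
  linear_combination key + key2 + e8 (4 * i + 1 + 3) * a1 + e8 (2 * i + 1) * a2 +
    e8 (4 * i + 3 + 3) * a3 + e8 (i + 1) * a4

lemma blocks (i : ℕ) : ∑ j ∈ range (4 * i), tm (j + 1) = hb i := by
  induction i with
  | zero => simp [hb]
  | succ i ih =>
    have : 4 * (i + 1) = 4 * i + 1 + 1 + 1 + 1 := by ring
    rw [this, sum_range_succ, sum_range_succ, sum_range_succ, sum_range_succ, ih]
    have := block i
    simp only [add_assoc, Nat.reduceAdd] at this ⊢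
    linarith

lemma abs_tm (j : ℕ) : |tm j| = 1 := by
  unfold tm
  rw [abs_mul, abs_e8 (by omega), abs_e8 (by omega), one_mul]

lemma abs_hb (i : ℕ) : |hb i| ≤ 2 := by
  unfold hb
  split_ifs <;> simp

lemma tm_bound (M : ℕ) : |∑ j ∈ range M, tm j| ≤ 6 := by
  rcases M with _ | M
  · simp
  rw [sum_range_succ']
  obtain ⟨i, r, hr, rfl⟩ : ∃ i r, r < 4 ∧ M = 4 * i + r := ⟨M / 4, M % 4, by omega, by omega⟩
  rw [sum_range_add, blocks]
  have h1 := abs_hb i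
  have h2 := abs_tm 0
  have h3 : |∑ x ∈ range r, tm (4 * i + x + 1)| ≤ r :=
    calc |∑ x ∈ range r, tm (4 * i + x + 1)| ≤ ∑ x ∈ range r, |tm (4 * i + x + 1)| :=
          abs_sum_le_sum_abs _ _
      _ = ∑ x ∈ range r, (1 : ℤ) := sum_congr rfl (fun i _ => abs_tm _)
      _ = r := by simp
  have h4 : (r : ℤ) ≤ 3 := by omega
  rw [abs_le] at *
  have := abs_eq (a := tm 0) (b := 1) (by norm_num)
  constructor <;> omega

/-- the archimedean character -/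
noncomputable def arch (n : ℕ) : ℂ :=
  Complex.exp (Complex.I * ((Real.pi * Real.log n / Real.log 2 : ℝ) : ℂ))

lemma arch_norm (n : ℕ) : ‖arch n‖ = 1 := Complex.norm_exp_I_mul_ofReal _

lemma arch_mul {m n : ℕ} (hm : 1 ≤ m) (hn : 1 ≤ n) : arch (m * n) = arch m * arch n := by
  unfold arch
  have hm' : (m : ℝ) ≠ 0 := by positivity
  have hn' : (n : ℝ) ≠ 0 := by positivity
  rw [← Complex.exp_add, Nat.cast_mul, Real.log_mul hm' hn']
  congr 1
  push_cast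
  ring

lemma arch_pow (m : ℕ) : ‖arch (2 ^ m + 1) - (-1) ^ m‖ ≤ 5 * (1 / 2) ^ m := by
  have hl : 0 < Real.log 2 := Real.log_pos (by norm_num)
  have hp : (0 : ℝ) < (1 / 2) ^ m := by positivity
  have h1 : (((2 ^ m + 1 : ℕ) : ℝ)) = 2 ^ m * (1 + (1 / 2) ^ m) := by
    push_cast
    rw [mul_add, ← mul_pow]
    norm_num
  have h2 : Real.log ((2 ^ m + 1 : ℕ) : ℝ) = m * Real.log 2 + Real.log (1 + (1 / 2) ^ m) := by
    rw [h1, Real.log_mul (by positivity) (by positivity), Real.log_pow]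
  set θ : ℝ := Real.pi * Real.log (1 + (1 / 2) ^ m) / Real.log 2 with hθ
  have h3 : arch (2 ^ m + 1) = (-1) ^ m * Complex.exp (Complex.I * (θ : ℂ)) := by
    unfold arch
    have : Real.pi * Real.log ((2 ^ m + 1 : ℕ) : ℝ) / Real.log 2 = m * Real.pi + θ := by
      rw [h2, hθ]; field_simp
    rw [this, ← Complex.exp_pi_mul_I, ← Complex.exp_nat_mul, ← Complex.exp_add]
    congr 1
    push_cast
    ring
  have h4 : arch (2 ^ m + 1) - (-1) ^ m = (-1) ^ m * (Complex.exp (Complex.I * (θ : ℂ)) - 1) := by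
    rw [h3]; ring
  rw [h4, norm_mul, norm_pow, norm_neg, norm_one, one_pow, one_mul]
  refine le_trans Real.norm_exp_I_mul_ofReal_sub_one_le ?_
  have h5 : 0 ≤ Real.log (1 + (1 / 2) ^ m) := Real.log_nonneg (by linarith)
  have h6 : Real.log (1 + (1 / 2) ^ m) ≤ (1 / 2) ^ m := by
    have := Real.log_le_sub_one_of_pos (x := 1 + (1 / 2 : ℝ) ^ m) (by positivity)
    linarith
  have h7 : 0 ≤ θ := by rw [hθ]; positivity
  rw [Real.norm_of_nonneg h7, hθ, div_le_iff₀ hl]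
  have h8 := Real.log_two_gt_d9
  have h9 := Real.pi_lt_d2
  have h10 := Real.pi_pos
  nlinarith

lemma arch_bound (M : ℕ) : ‖∑ m ∈ range M, arch (2 ^ (m + 1) + 1)‖ ≤ 6 := by
  have h1 : ∑ m ∈ range M, arch (2 ^ (m + 1) + 1) =
      ∑ m ∈ range M, (arch (2 ^ (m + 1) + 1) - (-1) ^ (m + 1)) - ∑ m ∈ range M, (-1 : ℂ) ^ m := by
    rw [← sum_sub_distrib]
    exact sum_congr rfl (fun m _ => by ring)
  rw [h1]
  have h2 := norm_alt M
  have h3 : ‖∑ m ∈ range M, (arch (2 ^ (m + 1) + 1) - (-1) ^ (m + 1))‖ ≤ 5 - 5 * (1 / 2) ^ M := by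
    refine le_trans (norm_sum_le _ _) ?_
    refine le_trans (sum_le_sum (fun m _ => arch_pow (m + 1))) ?_
    induction M with
    | zero => simp
    | succ M ih =>
      rw [sum_range_succ]
      have := ih (by rw [← sum_sub_distrib]; exact sum_congr rfl (fun m _ => by ring)) (norm_alt M)
      rw [pow_succ] at *
      linarith
  have hp : (0 : ℝ) < (1 / 2) ^ M := by positivity
  have := norm_sub_le (∑ m ∈ range M, (arch (2 ^ (m + 1) + 1) - (-1) ^ (m + 1)))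
    (∑ m ∈ range M, (-1 : ℂ) ^ m)
  linarith

end Pool.Agent.Lib.H29.BadSets
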