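import Pool.Agent.Lib.helper29.SelfInv3

open Complex Set Filter Topology Real MeasureTheory Metric InnerProductSpace
open scoped ComplexConjugate Laplacian

namespace Pool.Agent.Lib.H29.Ball3

lemma coeff_circle {F : ℂ → ℂ} {s M : ℝ} (hs : 0 < s) (hF : DiffContOnCl ℂ F (ball 0 s))
    (hM : ∀ z : ℂ, ‖z‖ = s → |(F z).re| ≤ M) (k : ℕ) :
    ‖iteratedDeriv (k + 1) F 0 / ((k + 1).factorial : ℂ)‖ * s ^ (k + 1) ≤ 2 * M := by
  have hz : ∀ θ, ‖circleMap 0 s θ‖ = s := fun θ => by simp [abs_of_pos hs]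
  have hz0 : ∀ θ, circleMap 0 s θ ≠ 0 := fun θ => circleMap_ne_center hs.ne'
  have hFc : Continuous fun θ => F (circleMap 0 s θ) := by
    refine hF.continuousOn.comp_continuous (continuous_circleMap 0 s) fun θ => ?_
    rw [closure_ball 0 hs.ne', mem_closedBall_zero_iff, hz]
  have hc : Continuous fun θ => ((circleMap 0 s θ) ^ (k + 1))⁻¹ :=
    ((continuous_circleMap 0 s).pow _).inv₀ fun θ => pow_ne_zero _ (hz0 θ)
  have h1 := hF.circleIntegral_one_div_sub_center_pow_smul hs (k + 1)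
  have h2 : ∫ θ in (0 : ℝ)..2 * π, ((circleMap 0 s θ) ^ (k + 1))⁻¹ * F (circleMap 0 s θ)
      = 2 * π * (iteratedDeriv (k + 1) F 0 / ((k + 1).factorial : ℂ)) := by
    unfold circleIntegral at h1
    have e : ∀ θ, deriv (circleMap 0 s) θ • (1 / (circleMap 0 s θ - 0) ^ (k + 1 + 1)) •
        F (circleMap 0 s θ) = I * (((circleMap 0 s θ) ^ (k + 1))⁻¹ * F (circleMap 0 s θ)) := by
      intro θ
      have := hz0 θ
      rw [deriv_circleMap, sub_zero, smul_eq_mul, smul_eq_mul]
      field_simp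
      ring
    simp only [e] at h1
    rw [intervalIntegral.integral_const_mul, smul_eq_mul] at h1
    apply mul_left_cancel₀ I_ne_zero
    rw [h1]
    ring
  have h3 := SelfInv.mean_value (f := fun z => z ^ (k + 1) * F z) hs
    ⟨(differentiableOn_pow _).mul hF.differentiableOn, (continuousOn_pow _).mul hF.continuousOn⟩
  have h4 : ∫ θ in (0 : ℝ)..2 * π, ((circleMap 0 s θ) ^ (k + 1))⁻¹ * conj (F (circleMap 0 s θ))
      = 0 := by
    have e : ∀ θ, ((circleMap 0 s θ) ^ (k + 1))⁻¹ * conj (F (circleMap 0 s θ)) =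
        (((s : ℂ) ^ 2) ^ (k + 1))⁻¹ * conj ((circleMap 0 s θ) ^ (k + 1) * F (circleMap 0 s θ)) := by
      intro θ
      have h0 := hz0 θ
      have h5 : conj (circleMap 0 s θ) ≠ 0 := by simpa using h0
      rw [← SelfInv.conj_mul_circle s θ, map_mul, map_pow, mul_pow]
      field_simp
    simp only [e, intervalIntegral.integral_const_mul]
    rw [intervalIntegral.integral_of_le (by positivity), integral_conj,
      ← intervalIntegral.integral_of_le (by positivity), h3]
    simp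
  have h5 : ∫ θ in (0 : ℝ)..2 * π, ((circleMap 0 s θ) ^ (k + 1))⁻¹ *
      (F (circleMap 0 s θ) + conj (F (circleMap 0 s θ)))
      = 2 * π * (iteratedDeriv (k + 1) F 0 / ((k + 1).factorial : ℂ)) := by
    simp only [mul_add]
    have c1 : Continuous fun θ => ((circleMap 0 s θ) ^ (k + 1))⁻¹ * F (circleMap 0 s θ) :=
      hc.mul hFc
    have c2 : Continuous fun θ => ((circleMap 0 s θ) ^ (k + 1))⁻¹ * conj (F (circleMap 0 s θ)) :=
      hc.mul (continuous_conj.comp hFc)
    rw [intervalIntegral.integral_add (c1.intervalIntegrable _ _)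
      (c2.intervalIntegrable _ _), h2, h4, add_zero]
  have h6 : ‖∫ θ in (0 : ℝ)..2 * π, ((circleMap 0 s θ) ^ (k + 1))⁻¹ *
      (F (circleMap 0 s θ) + conj (F (circleMap 0 s θ)))‖
      ≤ (s ^ (k + 1))⁻¹ * (2 * M) * |2 * π - 0| := by
    refine intervalIntegral.norm_integral_le_of_norm_le_const fun θ _ => ?_
    rw [norm_mul, norm_inv, norm_pow, hz, Complex.add_conj]
    gcongr
    rw [Complex.norm_real, Real.norm_eq_abs, abs_mul, abs_two]
    have := hM _ (hz θ)
    linarith
  rw [h5, norm_mul, sub_zero, abs_of_pos (by positivity)] at h6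
  have h7 : ‖(2 * π : ℂ)‖ = 2 * π := by simp [abs_of_pos Real.pi_pos]
  rw [h7] at h6
  have h8 : 0 < s ^ (k + 1) := by positivity
  have h9 : ‖iteratedDeriv (k + 1) F 0 / ((k + 1).factorial : ℂ)‖ ≤ (s ^ (k + 1))⁻¹ * (2 * M) := by
    have := Real.pi_pos
    nlinarith
  calc _ ≤ (s ^ (k + 1))⁻¹ * (2 * M) * s ^ (k + 1) := by gcongr
    _ = 2 * M := by field_simp

lemma coeff_ball {F : ℂ → ℂ} {ρ M : ℝ} (hρ : 0 < ρ) (hF : DifferentiableOn ℂ F (ball 0 ρ))
    (hM : ∀ z : ℂ, ‖z‖ < ρ → |(F z).re| ≤ M) (k : ℕ) :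
    ‖iteratedDeriv (k + 1) F 0 / ((k + 1).factorial : ℂ)‖ * ρ ^ (k + 1) ≤ 2 * M := by
  have hc : Tendsto (fun s : ℝ => ‖iteratedDeriv (k + 1) F 0 / ((k + 1).factorial : ℂ)‖ *
      s ^ (k + 1)) (𝓝[<] ρ)
      (𝓝 (‖iteratedDeriv (k + 1) F 0 / ((k + 1).factorial : ℂ)‖ * ρ ^ (k + 1))) :=
    (Continuous.tendsto (by fun_prop) ρ).mono_left nhdsWithin_le_nhds
  refine le_of_tendsto hc ?_
  filter_upwards [Ioo_mem_nhdsLT hρ] with s hs
  refine coeff_circle hs.1 ?_ (fun z hz => hM z (hz ▸ hs.2)) k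
  refine (hF.mono ?_).diffContOnCl
  rw [closure_ball 0 hs.1.ne']
  exact closedBall_subset_ball hs.2

lemma sum_bound {ρ r : ℝ} (hρ : 0 < ρ) (hρr : ρ < r) (hr : r < 1) :
    ∃ K : ℝ, 0 ≤ K ∧ ∀ (ε : ℝ) (a : ℕ → ℝ), 0 ≤ ε → ε ≤ 1 → (∀ k, 0 ≤ a k) → (∀ k, a k ≤ 2) →
      (∀ k, a k * ρ ^ k ≤ 2 * ε) →
        ∑' k, a k * r ^ k ≤ K * ε ^ (Real.log r / Real.log ρ) := by
  set β := Real.log r / Real.log ρ with hβ
  have hr0 : 0 < r := hρ.trans hρr
  have hρ1 : ρ < 1 := hρr.trans hr
  have hl : Real.log ρ < 0 := Real.log_neg hρ hρ1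
  have hβ0 : 0 < β := div_pos_of_neg_of_neg (Real.log_neg hr0 hr) hl
  have hpow : ρ ^ β = r := by
    rw [Real.rpow_def_of_pos hρ, hβ, mul_div_cancel₀ _ hl.ne, Real.exp_log hr0]
  set q := r / ρ with hq
  have hq1 : 1 < q := (one_lt_div hρ).mpr hρr
  refine ⟨2 / (ρ * (q - 1)) + 2 / (1 - r), by
    have : 0 < q - 1 := by linarith
    have : 0 < 1 - r := by linarith
    positivity, ?_⟩
  intro ε a hε0 hε1 ha0 ha2 haε
  rcases hε0.eq_or_lt with rfl | hε
  · have : ∀ k, a k = 0 := by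
      intro k
      have h1 := haε k
      have h2 : 0 < ρ ^ k := by positivity
      have h3 := ha0 k
      nlinarith
    simp [this, Real.zero_rpow hβ0.ne']
  have hex : ∃ N : ℕ, ρ ^ N < ε := exists_pow_lt_of_lt_one hε hρ1
  have hN := Nat.find_spec hex
  set N := Nat.find hex with hNdef
  have hN1 : ε * ρ ≤ ρ ^ N := by
    rcases Nat.eq_zero_or_pos N with h0 | h0
    · rw [h0, pow_zero] at hN
      linarith
    · obtain ⟨M, hM⟩ := Nat.exists_eq_succ_of_ne_zero h0.ne'
      have := Nat.find_min hex (m := M) (by omega)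
      rw [hM, pow_succ]
      exact mul_le_mul_of_nonneg_right (not_lt.mp this) hρ.le
  have hrN : r ^ N ≤ ε ^ β := by
    rw [← hpow, ← Real.rpow_natCast, ← Real.rpow_mul hρ.le, mul_comm, Real.rpow_mul hρ.le,
      Real.rpow_natCast]
    exact Real.rpow_le_rpow (by positivity) hN.le hβ0.le
  have hg : Summable fun k : ℕ => 2 * r ^ k :=
    (summable_geometric_of_lt_one hr0.le hr).mul_left 2
  have hs : Summable fun k => a k * r ^ k :=
    Summable.of_nonneg_of_le (fun k => mul_nonneg (ha0 k) (by positivity))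
      (fun k => mul_le_mul_of_nonneg_right (ha2 k) (by positivity)) hg
  rw [← hs.sum_add_tsum_nat_add N, add_mul]
  refine add_le_add ?_ ?_
  · calc ∑ i ∈ Finset.range N, a i * r ^ i ≤ ∑ i ∈ Finset.range N, 2 * ε * q ^ i := by
          refine Finset.sum_le_sum fun i _ => ?_
          have e : a i * r ^ i = a i * ρ ^ i * q ^ i := by
            rw [hq, div_pow]
            field_simp
          rw [e]
          exact mul_le_mul_of_nonneg_right (haε i) (by positivity)
      _ = 2 * ε * ((q ^ N - 1) / (q - 1)) := by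
          rw [← Finset.mul_sum, geom_sum_eq hq1.ne']
      _ ≤ 2 * ε * (q ^ N / (q - 1)) := by
          have : 0 < q - 1 := by linarith
          gcongr
          linarith
      _ = 2 / (ρ * (q - 1)) * ((ε * ρ / ρ ^ N) * r ^ N) := by
          have : 0 < q - 1 := by linarith
          rw [show q ^ N = r ^ N / ρ ^ N by rw [hq, div_pow]]
          field_simp
      _ ≤ 2 / (ρ * (q - 1)) * (1 * ε ^ β) := by
          have : 0 < q - 1 := by linarith
          gcongr
          exact (div_le_one (by positivity)).mpr hN1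
      _ = _ := by ring
  · have h1 : HasSum (fun k : ℕ => 2 * r ^ N * r ^ k) (2 * r ^ N * (1 - r)⁻¹) :=
      (hasSum_geometric_of_lt_one hr0.le hr).mul_left _
    calc ∑' i, a (i + N) * r ^ (i + N) ≤ ∑' k : ℕ, 2 * r ^ N * r ^ k := by
          refine Summable.tsum_le_tsum (fun i => ?_) ((summable_nat_add_iff N).mpr hs) h1.summable
          rw [pow_add]
          have := ha2 (i + N)
          have h2 : 0 ≤ r ^ i * r ^ N := by positivity
          nlinarith
      _ = 2 / (1 - r) * r ^ N := by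
          rw [h1.tsum_eq]
          field_simp
      _ ≤ _ := by
          have : 0 < 1 - r := by linarith
          gcongr

theorem real_case {ρ r : ℝ} (hρ : 0 < ρ) (hρr : ρ < r) (hr : r < 1) :
    ∃ K : ℝ, 0 ≤ K ∧ ∀ (ε : ℝ) (u : ℂ → ℝ), ε ≤ 1 → HarmonicOnNhd u (ball 0 1) →
      (∀ z, ‖z‖ < 1 → |u z| ≤ 1) → (∀ z, ‖z‖ < ρ → |u z| ≤ ε) →
        ∀ z, ‖z‖ < r → |u z| ≤ K * ε ^ (Real.log r / Real.log ρ) := by
  obtain ⟨K, hK0, hK⟩ := sum_bound hρ hρr hr
  refine ⟨K, hK0, fun ε u hε1 hu h1 hε z hz => ?_⟩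
  have hρ1 : ρ < 1 := hρr.trans hr
  have hε0 : 0 ≤ ε := (abs_nonneg _).trans (hε 0 (by simpa using hρ))
  obtain ⟨F, hF, hFu⟩ := hu.exists_analyticOnNhd_ball_re_eq
  have hre : ∀ w : ℂ, ‖w‖ < 1 → (F w).re = u w := fun w hw => hFu (mem_ball_zero_iff.mpr hw)
  have hd := hF.differentiableOn
  let c : ℕ → ℂ := fun k => iteratedDeriv k F 0 / (k.factorial : ℂ)
  let a : ℕ → ℝ := fun k => if k = 0 then |u 0| else ‖c k‖
  have ha0 : ∀ k, 0 ≤ a k := by
    intro k
    simp only [a]
    split_ifs <;> positivity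
  have ha2 : ∀ k, a k ≤ 2 := by
    intro k
    rcases k with _ | k
    · have := h1 0 (by simp)
      simp only [a, if_true]
      linarith
    · have := coeff_ball one_pos hd (M := 1) (fun w hw => by rw [hre w hw]; exact h1 w hw) k
      simpa [a, c] using this
  have haε : ∀ k, a k * ρ ^ k ≤ 2 * ε := by
    intro k
    rcases k with _ | k
    · have := hε 0 (by simpa using hρ)
      simp only [a, if_true, pow_zero, mul_one]
      linarith
    · have := coeff_ball hρ (hd.mono (ball_subset_ball hρ1.le)) (M := ε)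
        (fun w hw => by rw [hre w (hw.trans hρ1)]; exact hε w hw) k
      simpa [a, c] using this
  refine le_trans ?_ (hK ε a hε0 hε1 ha0 ha2 haε)
  have hr0 : 0 < r := hρ.trans hρr
  have hg : Summable fun k : ℕ => 2 * r ^ k :=
    (summable_geometric_of_lt_one hr0.le hr).mul_left 2
  have hs : Summable fun k => a k * r ^ k :=
    Summable.of_nonneg_of_le (fun k => mul_nonneg (ha0 k) (by positivity))
      (fun k => mul_le_mul_of_nonneg_right (ha2 k) (by positivity)) hg
  have hT := Complex.hasSum_re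
    (Complex.hasSum_taylorSeries_on_ball hd (z := z) (mem_ball_zero_iff.mpr (hz.trans hr)))
  rw [hre z (hz.trans hr)] at hT
  rw [← Real.norm_eq_abs]
  refine hT.norm_le_of_bounded hs.hasSum fun k => ?_
  rcases k with _ | k
  · simp [a, hre 0 (by simp)]
  · refine (Complex.abs_re_le_norm _).trans ?_
    have e : (((k + 1).factorial : ℂ)⁻¹ • (z - 0) ^ (k + 1) • iteratedDeriv (k + 1) F 0)
        = c (k + 1) * z ^ (k + 1) := by
      simp only [c, smul_eq_mul, sub_zero]
      ring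
    rw [e, norm_mul, norm_pow]
    simp only [a, Nat.succ_ne_zero, if_false]
    gcongr

lemma harm_comp {u : EuclideanSpace ℝ (Fin 2) → ℂ} (g : ℂ ≃ₗᵢ[ℝ] EuclideanSpace ℝ (Fin 2))
    {z : ℂ} (h : HarmonicAt u (g z)) : HarmonicAt (u ∘ g) z := by
  refine ⟨h.1.comp z g.toContinuousLinearEquiv.contDiff.contDiffAt, ?_⟩
  have e : ∀ w, Δ (u ∘ g) w = Δ u (g w) := by
    intro w
    rw [laplacian_eq_iteratedFDeriv_orthonormalBasis _ Complex.orthonormalBasisOneI,
      laplacian_eq_iteratedFDeriv_orthonormalBasis _ (Complex.orthonormalBasisOneI.map g)]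
    simp only
    refine Finset.sum_congr rfl fun i _ => ?_
    have := g.toContinuousLinearEquiv.iteratedFDerivWithin_comp_right u uniqueDiffOn_univ
      (mem_univ (g w)) 2
    simp only [preimage_univ, iteratedFDerivWithin_univ] at this
    erw [this]
    simp only [ContinuousMultilinearMap.compContinuousLinearMap_apply]
    congr 1
    ext j : 1
    fin_cases j <;> simp
  have := g.continuous.continuousAt.tendsto.eventually h.2
  filter_upwards [this] with w hw
  rw [e, hw]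
  rfl

end Pool.Agent.Lib.H29.Ball3
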