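import Mathlib

open Complex Set Filter Topology Metric InnerProductSpace
open scoped Laplacian

namespace Pool.Agent.Lib.H29.Ball4

lemma harm_iso {n : ℕ} (l : EuclideanSpace ℝ (Fin n) →L[ℝ] ℂ)
    (hl : ∑ i, l (EuclideanSpace.basisFun (Fin n) ℝ i) ^ 2 = 0) {f : ℂ → ℂ}
    (hf : ContDiff ℂ 2 f) (x : EuclideanSpace ℝ (Fin n)) : HarmonicAt (f ∘ l) x := by
  have hr : ContDiff ℝ 2 f := hf.restrict_scalars ℝ
  refine ⟨(hr.comp l.contDiff).contDiffAt, Eventually.of_forall fun y => ?_⟩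
  rw [laplacian_eq_iteratedFDeriv_orthonormalBasis _ (EuclideanSpace.basisFun (Fin n) ℝ)]
  simp only [Pi.zero_apply]
  rw [l.iteratedFDeriv_comp_right hr y le_rfl,
    ← hf.contDiffAt.restrictScalars_iteratedFDeriv (𝕜 := ℝ)]
  have e : ∀ a : ℂ, iteratedFDeriv ℂ 2 f (l y) (fun _ => a) =
      a ^ 2 * iteratedFDeriv ℂ 2 f (l y) (fun _ => 1) := by
    intro a
    have := (iteratedFDeriv ℂ 2 f (l y)).map_smul_univ (fun _ => a) (fun _ => 1)
    simpa using this
  have e2 : ∀ i, (fun j : Fin 2 => l (![EuclideanSpace.basisFun (Fin n) ℝ i,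
      EuclideanSpace.basisFun (Fin n) ℝ i] j)) = fun _ => l (EuclideanSpace.basisFun (Fin n) ℝ i) := by
    intro i
    ext j
    fin_cases j <;> rfl
  simp only [ContinuousMultilinearMap.compContinuousLinearMap_apply, Function.comp_apply,
    ContinuousMultilinearMap.coe_restrictScalars, e2]
  rw [Finset.sum_congr rfl fun i _ => e _, ← Finset.sum_mul, hl, zero_mul]

/-- rational points of the circle -/
noncomputable def ca (j : ℕ) : ℝ := (1 - (j : ℝ) ^ 2) / (1 + (j : ℝ) ^ 2)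
/-- rational points of the circle -/
noncomputable def cb (j : ℕ) : ℝ := 2 * (j : ℝ) / (1 + (j : ℝ) ^ 2)

lemma cab (j : ℕ) : ca j ^ 2 + cb j ^ 2 = 1 := by
  unfold ca cb
  field_simp
  ring

lemma det_ge {N i j : ℕ} (hi : i < N) (hj : j < N) (hij : i ≠ j) :
    (2 / (1 + (N : ℝ) ^ 2) ^ 2) ^ 2 ≤ (ca i * cb j - cb i * ca j) ^ 2 := by
  have e : ca i * cb j - cb i * ca j =
      2 * ((j : ℝ) - i) * (1 + i * j) / ((1 + (i : ℝ) ^ 2) * (1 + (j : ℝ) ^ 2)) := by
    unfold ca cb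
    field_simp
    ring
  have h1 : (1 : ℝ) ≤ ((j : ℝ) - i) ^ 2 := by
    have : (1 : ℤ) ≤ ((j : ℤ) - i) ^ 2 := by
      have : (j : ℤ) - i ≠ 0 := by omega
      have := sq_pos_of_ne_zero this
      omega
    exact_mod_cast this
  have hi' : (i : ℝ) ≤ N := by exact_mod_cast hi.le
  have hj' : (j : ℝ) ≤ N := by exact_mod_cast hj.le
  have h2 : (1 : ℝ) ≤ (1 + (i : ℝ) * j) ^ 2 := by
    have : (0 : ℝ) ≤ (i : ℝ) * j := by positivity
    nlinarith
  rw [e, div_pow, div_pow]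
  refine div_le_div₀ (by positivity) ?_ (by positivity) ?_
  · rw [mul_pow, mul_pow]
    nlinarith [mul_le_mul h1 h2 zero_le_one (by positivity)]
  · rw [sq ((1 + (N : ℝ) ^ 2))]
    gcongr

/-- isotropic linear form -/
noncomputable def ww (j : ℕ) (x y z : ℝ) : ℂ := x + ((ca j * y + cb j * z : ℝ) : ℂ) * I

lemma ww_sq (j : ℕ) (x y z : ℝ) :
    ‖ww j x y z‖ ^ 2 = x ^ 2 + y ^ 2 + z ^ 2 - (ca j * z - cb j * y) ^ 2 := by
  unfold ww
  rw [Complex.sq_norm, Complex.normSq_add_mul_I]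
  have := cab j
  linear_combination (y ^ 2 + z ^ 2) * this

lemma ww_le (j : ℕ) {x y z : ℝ} (h : x ^ 2 + y ^ 2 + z ^ 2 ≤ 1) : ‖ww j x y z‖ ^ 2 ≤ 1 := by
  rw [ww_sq]
  nlinarith [sq_nonneg (ca j * z - cb j * y)]

lemma two_le {w : ℂ} {c : ℝ} (hc0 : 0 ≤ c) (hc : c ≤ 1) (h : ‖w‖ ^ 2 ≤ 1) :
    ‖(c : ℂ) - w ^ 2‖ ≤ 2 := by
  refine (norm_sub_le _ _).trans ?_
  rw [norm_pow, Complex.norm_real, Real.norm_of_nonneg hc0]
  linarith

lemma key {η : ℝ} (hη : 0 < η) : ∃ N k : ℕ, 0 < N ∧ ∀ x y z : ℝ, x ^ 2 + y ^ 2 + z ^ 2 ≤ 1 →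
    ∑ j ∈ Finset.range N, ‖ww j x y z ^ k * (1 - ww j x y z ^ 2)‖ ≤ η * N := by
  obtain ⟨δ, hδ0, hδ1, hδη⟩ : ∃ δ : ℝ, 0 < δ ∧ δ ≤ 1 / 2 ∧ 5 * δ ≤ η :=
    ⟨min (1 / 2) (η / 5), by positivity, min_le_left _ _, by
      have := min_le_right (1 / 2) (η / 5)
      linarith⟩
  obtain ⟨N, hN⟩ := exists_nat_gt (4 / η)
  have hN0 : (0 : ℝ) < N := lt_trans (by positivity) hN
  have hN2 : 2 ≤ η * N / 2 := by
    rw [div_lt_iff₀ hη] at hN
    linarith
  set c : ℝ := 2 / (1 + (N : ℝ) ^ 2) ^ 2 with hc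
  have hc0 : 0 < c := by positivity
  obtain ⟨θ, hθ0, hθ1, hθ2⟩ : ∃ θ : ℝ, 0 < θ ∧ θ ≤ δ ∧ 4 * θ ≤ c ^ 2 * δ ^ 2 :=
    ⟨min δ (c ^ 2 * δ ^ 2 / 4), by positivity, min_le_left _ _, by
      have := min_le_right δ (c ^ 2 * δ ^ 2 / 4)
      linarith⟩
  obtain ⟨k, hk⟩ := exists_pow_lt_of_lt_one (show 0 < η / 4 by positivity)
    (show 1 - θ < 1 by linarith)
  refine ⟨N, 2 * k, by exact_mod_cast hN0, fun x y z h => ?_⟩
  have hgood : ∀ j, ‖ww j x y z‖ ^ 2 ≤ 1 - θ →
      ‖ww j x y z ^ (2 * k) * (1 - ww j x y z ^ 2)‖ ≤ η / 2 := by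
    intro j hj
    rw [norm_mul, norm_pow, pow_mul]
    have h1 : (‖ww j x y z‖ ^ 2) ^ k ≤ η / 4 :=
      (pow_le_pow_left₀ (by positivity) hj k).trans hk.le
    have h2 := two_le zero_le_one le_rfl (ww_le j h)
    rw [Complex.ofReal_one] at h2
    calc _ ≤ η / 4 * 2 := by gcongr
      _ = η / 2 := by ring
  have hone : ∀ j, ‖ww j x y z ^ (2 * k)‖ ≤ 1 := by
    intro j
    rw [norm_pow, pow_mul]
    exact pow_le_one₀ (by positivity) (ww_le j h)
  have hconst : ∀ b : ℝ, ∑ _j ∈ Finset.range N, b = b * N := by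
    intro b
    simp [mul_comm]
  by_cases hB : δ < 1 - (x ^ 2 + y ^ 2 + z ^ 2)
  · refine (Finset.sum_le_sum fun j _ => hgood j ?_).trans ?_
    · rw [ww_sq]
      nlinarith [sq_nonneg (ca j * z - cb j * y)]
    · rw [hconst]
      nlinarith
  by_cases hC : δ ^ 2 < y ^ 2 + z ^ 2
  · obtain ⟨j0, hj0⟩ : ∃ j0, ∀ j < N, j ≠ j0 → θ ≤ (ca j * z - cb j * y) ^ 2 := by
      by_cases hex : ∃ i < N, (ca i * z - cb i * y) ^ 2 < θ
      · obtain ⟨i, hi, hi2⟩ := hex
        refine ⟨i, fun j hj hji => ?_⟩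
        by_contra hcon
        push Not at hcon
        have h1 := det_ge hi hj hji.symm
        rw [← hc] at h1
        have ei := cab i
        have ej := cab j
        set Di := ca i * z - cb i * y with hDi
        set Dj := ca j * z - cb j * y with hDj
        have h2 : (ca i * cb j - cb i * ca j) ^ 2 * (y ^ 2 + z ^ 2) =
            (ca j * Di - ca i * Dj) ^ 2 + (cb j * Di - cb i * Dj) ^ 2 := by
          rw [hDi, hDj]
          ring
        have h3 : (ca j * Di - ca i * Dj) ^ 2 + (cb j * Di - cb i * Dj) ^ 2 ≤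
            2 * Di ^ 2 + 2 * Dj ^ 2 := by
          have e : 2 * Di ^ 2 + 2 * Dj ^ 2 = 2 * Di ^ 2 * (ca j ^ 2 + cb j ^ 2) +
              2 * Dj ^ 2 * (ca i ^ 2 + cb i ^ 2) := by rw [ei, ej]; ring
          rw [e]
          nlinarith [sq_nonneg (ca j * Di + ca i * Dj), sq_nonneg (cb j * Di + cb i * Dj)]
        have h4 : c ^ 2 * δ ^ 2 ≤ (ca i * cb j - cb i * ca j) ^ 2 * (y ^ 2 + z ^ 2) :=
          mul_le_mul h1 hC.le (by positivity) (by positivity)
        linarith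
      · push Not at hex
        exact ⟨0, fun j hj _ => hex j hj⟩
    calc _ ≤ ∑ j ∈ Finset.range N, (η / 2 + if j = j0 then 2 else 0) := by
          refine Finset.sum_le_sum fun j hj => ?_
          split_ifs with hjj
          · rw [norm_mul]
            have h2 := two_le zero_le_one le_rfl (ww_le j h)
            rw [Complex.ofReal_one] at h2
            have := mul_le_mul (hone j) h2 (norm_nonneg _) zero_le_one
            linarith
          · rw [add_zero]
            apply hgood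
            rw [ww_sq]
            have := hj0 j (Finset.mem_range.mp hj) hjj
            linarith
      _ ≤ η / 2 * N + 2 := by
          rw [Finset.sum_add_distrib, hconst, Finset.sum_ite_eq']
          split_ifs <;> linarith
      _ ≤ η * N := by linarith
  · push Not at hB hC
    rw [← hconst]
    refine Finset.sum_le_sum fun j _ => ?_
    rw [norm_mul]
    have h1 : ‖1 - ww j x y z ^ 2‖ ≤ η := by
      set s := ca j * y + cb j * z with hs
      have hs2 : s ^ 2 ≤ δ ^ 2 := by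
        have := cab j
        have e : s ^ 2 = y ^ 2 + z ^ 2 - (ca j * z - cb j * y) ^ 2 := by
          rw [hs]
          linear_combination (y ^ 2 + z ^ 2) * this
        nlinarith [sq_nonneg (ca j * z - cb j * y)]
      have hs3 : |s| ≤ δ := abs_le_of_sq_le_sq hs2 hδ0.le
      have hx : |x| ≤ 1 := abs_le_one_iff_mul_self_le_one.mpr (by nlinarith)
      have e : 1 - ww j x y z ^ 2 = ((1 - x ^ 2 + s ^ 2 : ℝ) : ℂ) + ((-2 * x * s : ℝ) : ℂ) * I := by
        unfold ww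
        rw [← hs]
        push_cast
        linear_combination (-(s : ℂ) ^ 2) * I_sq
      rw [e]
      refine (norm_add_le _ _).trans ?_
      rw [norm_mul, Complex.norm_I, mul_one, Complex.norm_real, Complex.norm_real,
        Real.norm_of_nonneg (by nlinarith), Real.norm_eq_abs, abs_mul, abs_mul, abs_neg, abs_two]
      have := mul_le_mul hx hs3 (abs_nonneg _) zero_le_one
      nlinarith
    have := mul_le_mul (hone j) h1 (norm_nonneg _) zero_le_one
    linarith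

end Pool.Agent.Lib.H29.Ball4
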