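import Mathlib

set_option autoImplicit false

open Filter Topology MeasureTheory Set
open scoped ENNReal

namespace Pool.Agent.Lib.H29.Bmo

/-- The cube with lower corner `a` and side `l`. -/
def cube {n : ℕ} (a : Fin n → ℝ) (l : ℝ) : Set (Fin n → ℝ) := Icc a fun i => a i + l

/-- `ρ` is the quasi-norm (value `∞` off the space) of a quasi-Banach function space over `Q`
whose quasi-triangle constant is at most `K`. The space consists of the a.e. measurable `f`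
on `Q` with `ρ f < ∞`. -/
structure IsQBFS {n : ℕ} (Q : Set (Fin n → ℝ)) (K : ℝ≥0∞) (ρ : ((Fin n → ℝ) → ℝ) → ℝ≥0∞) :
    Prop where
  eq_zero : ∀ f, AEMeasurable f (volume.restrict Q) → (ρ f = 0 ↔ f =ᵐ[volume.restrict Q] 0)
  smul : ∀ (c : ℝ) f, AEMeasurable f (volume.restrict Q) → ρ (c • f) = ENNReal.ofReal |c| * ρ f
  add : ∀ f g, AEMeasurable f (volume.restrict Q) → AEMeasurable g (volume.restrict Q) →
    ρ (f + g) ≤ K * (ρ f + ρ g)
  complete : ∀ f : ℕ → (Fin n → ℝ) → ℝ, (∀ k, AEMeasurable (f k) (volume.restrict Q)) →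
    (∀ k, ρ (f k) < ∞) → (∀ ε > 0, ∃ N, ∀ j ≥ N, ∀ k ≥ N, ρ (f j - f k) < ε) →
    ∃ g, AEMeasurable g (volume.restrict Q) ∧ ρ g < ∞ ∧
      Tendsto (fun k => ρ (f k - g)) atTop (𝓝 0)
  mono : ∀ f g, AEMeasurable f (volume.restrict Q) → AEMeasurable g (volume.restrict Q) →
    (∀ᵐ x ∂volume.restrict Q, |f x| ≤ |g x|) → ρ f ≤ ρ g
  pos : ∃ f, AEMeasurable f (volume.restrict Q) ∧ ρ f < ∞ ∧ ∀ᵐ x ∂volume.restrict Q, 0 < f x
  fatou : ∀ (f : ℕ → (Fin n → ℝ) → ℝ) g, (∀ k, AEMeasurable (f k) (volume.restrict Q)) →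
    (∀ᵐ x ∂volume.restrict Q, 0 ≤ f 0 x ∧ (Monotone fun k => f k x) ∧
      Tendsto (fun k => f k x) atTop (𝓝 (g x))) → ρ g = ⨆ k, ρ (f k)

/-- A family of quasi-norms, one for each cube (indexed by corner and side). -/
abbrev Family (n : ℕ) : Type := (Fin n → ℝ) → ℝ → ((Fin n → ℝ) → ℝ) → ℝ≥0∞

/-- The `BMO_X` norm. -/
noncomputable def bmoX {n : ℕ} (X : Family n) (f : (Fin n → ℝ) → ℝ) : ℝ≥0∞ :=
  ⨆ (a : Fin n → ℝ) (l : ℝ) (_ : 0 < l), X a l fun x => f x - ⨍ y in cube a l, f y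

/-- The `BMO*_X` norm. -/
noncomputable def bmoStar {n : ℕ} (X : Family n) (f : (Fin n → ℝ) → ℝ) : ℝ≥0∞ :=
  ⨆ (a : Fin n → ℝ) (l : ℝ) (_ : 0 < l), ⨅ c : ℝ, X a l fun x => f x - c

/-- The normalized `L¹` family, which defines the classical `BMO` norm. -/
noncomputable def L1 (n : ℕ) : Family n :=
  fun a l f => (volume (cube a l))⁻¹ * ∫⁻ x in cube a l, ‖f x‖ₑ

end Pool.Agent.Lib.H29.Bmo
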