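import Mathlib

set_option autoImplicit false

namespace Pool.Agent.Lib.H29.Conf

open scoped LinearAlgebra.Projectivization

/-- The real projective plane. A line is given by its vector of homogeneous line coordinates,
which is again an element of this type. -/
abbrev PPlane : Type := ℙ ℝ (Fin 3 → ℝ)

/-- The set of points of the line with homogeneous line coordinates `l`. -/
def lineSet (l : PPlane) : Set PPlane := {x | x.orthogonal l}

/-- An incidence relation between `n` points and `n` lines with `k` lines on every point and
`k` points on every line. -/
def IsRegular {n : ℕ} (k : ℕ) (I : Fin n → Fin n → Prop) : Prop :=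
  (∀ i, {j | I i j}.ncard = k) ∧ ∀ j, {i | I i j}.ncard = k

/-- Distinct points `P i` and distinct lines `L j` of the real projective plane whose incidences
are exactly those prescribed by `I`. -/
def Realizes {n : ℕ} (I : Fin n → Fin n → Prop) (P L : Fin n → PPlane) : Prop :=
  Function.Injective P ∧ Function.Injective L ∧ ∀ i j, P i ∈ lineSet (L j) ↔ I i j

/-- Some projective transformation carries each point and each line of `(P, L)` to the
corresponding point and line of `(P', L')`. -/
def ProjEquiv {n : ℕ} (P L P' L' : Fin n → PPlane) : Prop :=
  ∃ A : (Fin 3 → ℝ) ≃ₗ[ℝ] (Fin 3 → ℝ),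
    (∀ i, Projectivization.map A.toLinearMap A.injective (P i) = P' i) ∧
    ∀ j, Projectivization.map A.toLinearMap A.injective '' lineSet (L j) = lineSet (L' j)

end Pool.Agent.Lib.H29.Conf
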