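import Mathlib
import Pool.Agent.Lib.helper29.ConfDefs

set_option autoImplicit false

namespace Pool.Agent.Lib.H29.Conf

open scoped LinearAlgebra.Projectivization

/-- vectors -/
abbrev V : Type := ℝ × ℝ × ℝ
/-- inner product -/
def dot (x y : V) : ℝ := x.1 * y.1 + x.2.1 * y.2.1 + x.2.2 * y.2.2
/-- cross product -/
def cross (x y : V) : V :=
  (x.2.1 * y.2.2 - x.2.2 * y.2.1, x.2.2 * y.1 - x.1 * y.2.2, x.1 * y.2.1 - x.2.1 * y.1)
/-- scalar multiple -/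
def sm (c : ℝ) (x : V) : V := (c * x.1, c * x.2.1, c * x.2.2)
/-- combination -/
def cmb (u : V) (a : ℝ) (w : V) : V := (u.1 + a * w.1, u.2.1 + a * w.2.1, u.2.2 + a * w.2.2)
/-- proportional -/
def Par (x y : V) : Prop := ∃ c : ℝ, c ≠ 0 ∧ x = sm c y

lemma dot_comm (x y : V) : dot x y = dot y x := by unfold dot; ring

lemma dot_self_pos {x y : V} (h : dot x y ≠ 0) : dot x x ≠ 0 := by
  intro h0
  apply h
  unfold dot at *
  have h1 : x.1 = 0 := by nlinarith [sq_nonneg x.1, sq_nonneg x.2.1, sq_nonneg x.2.2]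
  have h2 : x.2.1 = 0 := by nlinarith [sq_nonneg x.1, sq_nonneg x.2.1, sq_nonneg x.2.2]
  have h3 : x.2.2 = 0 := by nlinarith [sq_nonneg x.1, sq_nonneg x.2.1, sq_nonneg x.2.2]
  rw [h1, h2, h3]; ring

lemma Par.dot0 {X Y x y : V} (hx : Par X x) (hy : Par Y y) : dot X Y = 0 ↔ dot x y = 0 := by
  obtain ⟨c, hc, rfl⟩ := hx
  obtain ⟨d, hd, rfl⟩ := hy
  have : dot (sm c x) (sm d y) = c * d * dot x y := by simp only [dot, sm]; ring
  rw [this]
  simp [hc, hd]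

lemma Par.refl (x : V) : Par x x := ⟨1, one_ne_zero, by simp [sm]⟩

lemma Par.trans {x y z : V} (h : Par x y) (h' : Par y z) : Par x z := by
  obtain ⟨c, hc, rfl⟩ := h
  obtain ⟨d, hd, rfl⟩ := h'
  exact ⟨c * d, mul_ne_zero hc hd, by simp only [sm, mul_assoc]⟩

lemma cross_ne {u w Y Z : V} (h1 : dot Y u = 0) (h2 : dot Y w ≠ 0) (h3 : dot u Z ≠ 0) :
    dot (cross u w) (cross u w) ≠ 0 := by
  intro h
  have h0 : ∀ y, dot (cross u w) y = 0 := fun y => by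
    by_contra hy; exact dot_self_pos hy h
  have e : dot Y w * dot u Z = dot Y u * dot w Z + dot (cross u w) (cross Z Y) := by
    simp only [dot, cross]; ring
  rw [h1, h0] at e
  exact mul_ne_zero h2 h3 (by linarith)

lemma step {X U W Y Z Z' u w x : V} {g : ℝ} (hU : Par U u) (hW : Par W w) (h1 : dot X U = 0)
    (h2 : dot X W = 0) (hY1 : dot Y U = 0) (hY2 : dot Y W ≠ 0) (hU0 : dot U Z ≠ 0)
    (hX0 : dot X Z' ≠ 0) (hc : cross u w = sm g x) : Par X x := by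
  rw [(Par.refl X).dot0 hU] at h1
  rw [(Par.refl X).dot0 hW] at h2
  rw [(Par.refl Y).dot0 hU] at hY1
  rw [Ne, (Par.refl Y).dot0 hW] at hY2
  rw [Ne, hU.dot0 (Par.refl Z)] at hU0
  have hn := cross_ne hY1 hY2 hU0
  have hp : Par X (cross u w) := by
    have e : ∀ y, dot (cross u w) (cross u w) * dot X y = dot X (cross u w) * dot (cross u w) y
        + dot X w * dot (cross (cross u w) u) y - dot X u * dot (cross (cross u w) w) y := by
      intro y; simp only [dot, cross]; ring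
    simp only [h1, h2, zero_mul, add_zero, sub_zero] at e
    refine ⟨dot X (cross u w) / dot (cross u w) (cross u w), ?_, ?_⟩
    · refine div_ne_zero (fun h => ?_) hn
      have := e Z'
      rw [h, zero_mul] at this
      exact mul_ne_zero hn hX0 this
    · have e1 := e (1, 0, 0)
      have e2 := e (0, 1, 0)
      have e3 := e (0, 0, 1)
      generalize cross u w = n at *
      generalize hd : dot n n = d at *
      generalize hd' : dot X n = d' at *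
      simp only [dot, mul_one, mul_zero, add_zero, zero_add] at e1 e2 e3
      refine Prod.ext ?_ (Prod.ext ?_ ?_) <;> simp only [sm] <;> field_simp <;> linarith
  refine hp.trans ⟨g, fun hg => hn ?_, hc⟩
  rw [hc, hg]; simp [dot, sm]

lemma free {X U W Lv Y Z Y' u w : V} (hU : Par U u) (hW : Par W w) (h0 : dot Lv X = 0)
    (h1 : dot Lv U = 0) (h2 : dot Lv W = 0) (hY1 : dot Y U = 0) (hY2 : dot Y W ≠ 0)
    (hU0 : dot U Z ≠ 0) (hL : dot Lv Z ≠ 0 ∨ ∃ Z', dot Lv Z' ≠ 0) (hY3 : dot Y' W = 0)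
    (hY4 : dot Y' X ≠ 0) : ∃ a, Par X (cmb u a w) := by
  obtain ⟨Z', hZ'⟩ : ∃ Z', dot Lv Z' ≠ 0 := hL.elim (fun h => ⟨Z, h⟩) id
  have hp : Par Lv (cross u w) := step (g := 1) hU hW h1 h2 hY1 hY2 hU0 hZ' (by simp [sm])
  rw [hp.dot0 (Par.refl X)] at h0
  rw [(Par.refl Y).dot0 hU] at hY1
  rw [Ne, (Par.refl Y).dot0 hW] at hY2
  rw [Ne, hU.dot0 (Par.refl Z)] at hU0
  rw [(Par.refl Y').dot0 hW] at hY3
  have hn := cross_ne hY1 hY2 hU0
  have e : ∀ y, dot (cross u w) (cross u w) * dot y X = dot (cross u w) X * dot (cross u w) y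
      + dot X (cross w (cross u w)) * dot y u + dot X (cross (cross u w) u) * dot y w := by
    intro y; simp only [dot, cross]; ring
  simp only [h0, zero_mul, zero_add] at e
  generalize dot X (cross w (cross u w)) = α at e
  generalize dot X (cross (cross u w) u) = β at e
  generalize dot (cross u w) (cross u w) = d at e hn
  have hα : α ≠ 0 := by
    intro h
    have := e Y'
    rw [h, hY3, zero_mul, mul_zero, add_zero] at this
    exact mul_ne_zero hn hY4 this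
  refine ⟨β / α, α / d, div_ne_zero hα hn, ?_⟩
  have e1 := e (1, 0, 0)
  have e2 := e (0, 1, 0)
  have e3 := e (0, 0, 1)
  simp only [dot, one_mul, zero_mul, add_zero, zero_add] at e1 e2 e3
  refine Prod.ext ?_ (Prod.ext ?_ ?_) <;> simp only [sm, cmb] <;> field_simp <;> linarith

/-- points -/
def WP : Fin 21 → ℤ × ℤ × ℤ := ![(1, 0, 0), (0, 1, 0), (3, 2, 0), (0, 0, 1), (-1, 0, 2), (0, -1, -1), (1, 1, 1), (-3, -2, 18), (-9, -2, 18), (-1, -2, -2), (3, 1, -9), (0, 1, 9), (3, -1, -9), (-1, -2, 2), (-3, -2, 2), (3, -2, -18), (-1, -1, 1), (-1, -2, -6), (-1, 2, 6), (-1, -1, 3), (-2, -1, 3)]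
/-- lines -/
def WL : Fin 21 → ℤ × ℤ × ℤ := ![(-4, 3, -1), (2, 0, 1), (2, -3, 0), (2, -3, 1), (1, 0, 0), (0, 9, 1), (0, -1, 1), (0, -1, -1), (0, 9, -1), (6, -9, 1), (3, 0, 1), (2, -2, 1), (2, -1, 0), (4, -5, 1), (-4, 1, -1), (-12, 9, -5), (-12, 9, -1), (-2, 1, -1), (-1, 1, 0), (-6, 9, -2), (6, 0, 1)]
/-- incidence -/
def inc (i j : Fin 21) : Prop :=
  (WP i).1 * (WL j).1 + (WP i).2.1 * (WL j).2.1 + (WP i).2.2 * (WL j).2.2 = 0
instance (i j : Fin 21) : Decidable (inc i j) := by unfold inc; infer_instance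
/-- cast -/
def cz (x : ℤ × ℤ × ℤ) : V := (x.1, x.2.1, x.2.2)
/-- integer cross product relation -/
def crz (x y : ℤ × ℤ × ℤ) (g : ℤ) (z : ℤ × ℤ × ℤ) : Prop :=
  x.2.1 * y.2.2 - x.2.2 * y.2.1 = g * z.1 ∧ x.2.2 * y.1 - x.1 * y.2.2 = g * z.2.1 ∧
    x.1 * y.2.1 - x.2.1 * y.1 = g * z.2.2
instance (x y : ℤ × ℤ × ℤ) (g : ℤ) (z : ℤ × ℤ × ℤ) : Decidable (crz x y g z) := by
  unfold crz; infer_instance

lemma crz_cast {x y z : ℤ × ℤ × ℤ} {g : ℤ} (h : crz x y g z) :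
    cross (cz x) (cz y) = sm g (cz z) := by
  obtain ⟨h1, h2, h3⟩ := h
  simp only [cross, cz, sm, Prod.mk.injEq]
  exact ⟨by exact_mod_cast h1, by exact_mod_cast h2, by exact_mod_cast h3⟩

lemma sepP : ∀ i i' : Fin 21, i ≠ i' → ∃ k, inc i k ∧ ¬ inc i' k := by decide +kernel
lemma sepL : ∀ j j' : Fin 21, j ≠ j' → ∃ k, inc k j ∧ ¬ inc k j' := by decide +kernel
lemma nzP : ∀ i : Fin 21, ∃ k, ¬ inc i k := by decide +kernel
lemma nzL : ∀ j : Fin 21, ∃ k, ¬ inc k j := by decide +kernel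

section
variable {p l : Fin 21 → V} (H : ∀ i j, dot (p i) (l j) = 0 ↔ inc i j)
include H

lemma stepL (j i i' : Fin 21) (h : inc i j ∧ inc i' j ∧ i ≠ i') {u w x : V} (hu : Par (p i) u)
    (hw : Par (p i') w) (g : ℝ) (hc : cross u w = sm g x) : Par (l j) x := by
  obtain ⟨k, k1, k2⟩ := sepP i i' h.2.2
  obtain ⟨m, hm⟩ := nzP i
  obtain ⟨r, hr⟩ := nzL j
  refine step (Y := l k) (Z := l m) (Z' := p r) hu hw ?_ ?_ ?_ ?_ ?_ ?_ hc
  · rw [dot_comm, H]; exact h.1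
  · rw [dot_comm, H]; exact h.2.1
  · rw [dot_comm, H]; exact k1
  · rw [dot_comm, Ne, H]; exact k2
  · rw [Ne, H]; exact hm
  · rw [dot_comm, Ne, H]; exact hr

lemma stepP (i j j' : Fin 21) (h : inc i j ∧ inc i j' ∧ j ≠ j') {u w x : V} (hu : Par (l j) u)
    (hw : Par (l j') w) (g : ℝ) (hc : cross u w = sm g x) : Par (p i) x := by
  obtain ⟨k, k1, k2⟩ := sepL j j' h.2.2
  obtain ⟨m, hm⟩ := nzL j
  obtain ⟨r, hr⟩ := nzP i
  refine step (Y := p k) (Z := p m) (Z' := l r) hu hw ?_ ?_ ?_ ?_ ?_ ?_ hc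
  · rw [H]; exact h.1
  · rw [H]; exact h.2.1
  · rw [H]; exact k1
  · rw [Ne, H]; exact k2
  · rw [dot_comm, Ne, H]; exact hm
  · rw [Ne, H]; exact hr

lemma freeP (m i i' j : Fin 21) (h : inc m j ∧ inc i j ∧ inc i' j ∧ i ≠ i' ∧ i' ≠ m) {u w : V}
    (hu : Par (p i) u) (hw : Par (p i') w) : ∃ a, Par (p m) (cmb u a w) := by
  obtain ⟨k, k1, k2⟩ := sepP i i' h.2.2.2.1
  obtain ⟨k', k3, k4⟩ := sepP i' m h.2.2.2.2
  obtain ⟨s, hs⟩ := nzP i
  obtain ⟨r, hr⟩ := nzL j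
  refine free (Lv := l j) (Y := l k) (Z := l s) (Y' := l k') hu hw ?_ ?_ ?_ ?_ ?_ ?_
    (Or.inr ⟨p r, ?_⟩) ?_ ?_
  · rw [dot_comm, H]; exact h.1
  · rw [dot_comm, H]; exact h.2.1
  · rw [dot_comm, H]; exact h.2.2.1
  · rw [dot_comm, H]; exact k1
  · rw [dot_comm, Ne, H]; exact k2
  · rw [Ne, H]; exact hs
  · rw [dot_comm, Ne, H]; exact hr
  · rw [dot_comm, H]; exact k3
  · rw [dot_comm, Ne, H]; exact k4

lemma stepLz (j i i' : Fin 21) (g : ℤ)
    (h : (inc i j ∧ inc i' j ∧ i ≠ i') ∧ crz (WP i) (WP i') g (WL j))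
    (hu : Par (p i) (cz (WP i))) (hw : Par (p i') (cz (WP i'))) : Par (l j) (cz (WL j)) :=
  stepL H j i i' h.1 hu hw g (crz_cast h.2)

lemma stepPz (i j j' : Fin 21) (g : ℤ)
    (h : (inc i j ∧ inc i j' ∧ j ≠ j') ∧ crz (WL j) (WL j') g (WP i))
    (hu : Par (l j) (cz (WL j))) (hw : Par (l j') (cz (WL j'))) : Par (p i) (cz (WP i)) :=
  stepP H i j j' h.1 hu hw g (crz_cast h.2)

lemma phase1 (p0 : Par (p 0) (1, 0, 0)) (p1 : Par (p 1) (0, 1, 0)) (p3 : Par (p 3) (0, 0, 1))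
    (p6 : Par (p 6) (1, 1, 1)) : Par (p 9) (cz (WP 9)) ∧ Par (p 13) (cz (WP 13)) := by
  have l4 : Par (l 4) ((1, 0, 0) : V) :=
    stepL H 4 1 3 (by decide) p1 p3 (1) (by simp only [cross, sm, Prod.mk.injEq]; refine ⟨?_, ?_, ?_⟩ <;> ring)
  have l6 : Par (l 6) ((0, (-1), 1) : V) :=
    stepL H 6 0 6 (by decide) p0 p6 (1) (by simp only [cross, sm, Prod.mk.injEq]; refine ⟨?_, ?_, ?_⟩ <;> ring)
  have l18 : Par (l 18) (((-1), 1, 0) : V) :=
    stepL H 18 3 6 (by decide) p3 p6 (1) (by simp only [cross, sm, Prod.mk.injEq]; refine ⟨?_, ?_, ?_⟩ <;> ring)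
  have p5 : Par (p 5) ((0, (-1), (-1)) : V) :=
    stepP H 5 4 6 (by decide) l4 l6 (1) (by simp only [cross, sm, Prod.mk.injEq]; refine ⟨?_, ?_, ?_⟩ <;> ring)
  obtain ⟨a, p9⟩ := freeP H 9 0 6 6 (by decide) p0 p6
  replace p9 : Par (p 9) ((a + 1, a, a) : V) := by
    convert p9 using 1; simp only [cmb, Prod.mk.injEq]; refine ⟨?_, ?_, ?_⟩ <;> ring
  have l12 : Par (l 12) (((-1)*a, a + 1, 0) : V) :=
    stepL H 12 3 9 (by decide) p3 p9 (1) (by simp only [cross, sm, Prod.mk.injEq]; refine ⟨?_, ?_, ?_⟩ <;> ring)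
  obtain ⟨b, p13⟩ := freeP H 13 3 9 12 (by decide) p3 p9
  replace p13 : Par (p 13) ((a*b + b, a*b, a*b + 1) : V) := by
    convert p13 using 1; simp only [cmb, Prod.mk.injEq]; refine ⟨?_, ?_, ?_⟩ <;> ring
  have l1 : Par (l 1) ((a*b + 1, 0, (-1)*a*b + (-1)*b) : V) :=
    stepL H 1 1 13 (by decide) p1 p13 (1) (by simp only [cross, sm, Prod.mk.injEq]; refine ⟨?_, ?_, ?_⟩ <;> ring)
  have l7 : Par (l 7) ((0, (-1)*a*b + (-1), a*b) : V) :=
    stepL H 7 0 13 (by decide) p0 p13 (1) (by simp only [cross, sm, Prod.mk.injEq]; refine ⟨?_, ?_, ?_⟩ <;> ring)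
  have l14 : Par (l 14) (((-1), (-1)*a*b + (-1)*b, a*b + b) : V) :=
    stepL H 14 5 13 (by decide) p5 p13 (1) (by simp only [cross, sm, Prod.mk.injEq]; refine ⟨?_, ?_, ?_⟩ <;> ring)
  have p16 : Par (p 16) ((a*b, a*b, a*b + 1) : V) :=
    stepP H 16 18 7 (by decide) l18 l7 (1) (by simp only [cross, sm, Prod.mk.injEq]; refine ⟨?_, ?_, ?_⟩ <;> ring)
  have p19 : Par (p 19) ((a*b + b, a*b + b, a*b + b + 1) : V) :=
    stepP H 19 18 14 (by decide) l18 l14 (1) (by simp only [cross, sm, Prod.mk.injEq]; refine ⟨?_, ?_, ?_⟩ <;> ring)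
  have l0 : Par (l 0) ((a, (-1)*a*b + (-1)*a + (-1), a*b) : V) :=
    stepL H 0 9 16 (by decide) p9 p16 (1) (by simp only [cross, sm, Prod.mk.injEq]; refine ⟨?_, ?_, ?_⟩ <;> ring)
  have l10 : Par (l 10) ((a*b + b + 1, 0, (-1)*a*b + (-1)*b) : V) :=
    stepL H 10 1 19 (by decide) p1 p19 (1) (by simp only [cross, sm, Prod.mk.injEq]; refine ⟨?_, ?_, ?_⟩ <;> ring)
  have l17 : Par (l 17) (((-1), (-1)*a*b, a*b) : V) :=
    stepL H 17 5 16 (by decide) p5 p16 (1) (by simp only [cross, sm, Prod.mk.injEq]; refine ⟨?_, ?_, ?_⟩ <;> ring)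
  have p4 : Par (p 4) (((-1)*a^2*b + (-1)*a*b, (-1)*a^2*b + 1, (-1)*a^2*b + (-1)*a) : V) :=
    stepP H 4 1 17 (by decide) l1 l17 (b) (by simp only [cross, sm, Prod.mk.injEq]; refine ⟨?_, ?_, ?_⟩ <;> ring)
  have p10 : Par (p 10) ((a^2*b^2 + a^2*b + a*b^2 + 2*a*b + b, a^2*b^2 + a^2*b + a*b^2 + 2*a*b, a^2*b^2 + a^2*b + a*b^2 + 3*a*b + a + b + 1) : V) :=
    stepP H 10 0 10 (by decide) l0 l10 (1) (by simp only [cross, sm, Prod.mk.injEq]; refine ⟨?_, ?_, ?_⟩ <;> ring)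
  have l3 : Par (l 3) (((-1)*a + (-1), (-1)*a*b + a, a*b + 1) : V) :=
    stepL H 3 6 4 (by decide) p6 p4 (1) (by simp only [cross, sm, Prod.mk.injEq]; refine ⟨?_, ?_, ?_⟩ <;> ring)
  have l5 : Par (l 5) ((0, (-1)*a^2*b^2 + (-1)*a^2*b + (-1)*a*b^2 + (-3)*a*b + (-1)*a + (-1)*b + (-1), a^2*b^2 + a^2*b + a*b^2 + 2*a*b) : V) :=
    stepL H 5 0 10 (by decide) p0 p10 (1) (by simp only [cross, sm, Prod.mk.injEq]; refine ⟨?_, ?_, ?_⟩ <;> ring)
  have l11 : Par (l 11) (((-1)*a, a, 1) : V) :=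
    stepL H 11 9 4 (by decide) p9 p4 (a + 1) (by simp only [cross, sm, Prod.mk.injEq]; refine ⟨?_, ?_, ?_⟩ <;> ring)
  have p12 : Par (p 12) (((-1)*a^2*b^2 + a^2*b + (-1)*a*b^2 + a*b, (-1)*a^2*b^2 + a^2*b + (-1)*a*b^2 + (-1), (-1)*a^2*b^2 + a^2*b + (-1)*a*b^2 + a) : V) :=
    stepP H 12 10 3 (by decide) l10 l3 (1) (by simp only [cross, sm, Prod.mk.injEq]; refine ⟨?_, ?_, ?_⟩ <;> ring)
  have p14 : Par (p 14) (((-1)*a^2*b + (-1)*a*b + (-1), (-1)*a^2*b, (-1)*a^2*b + (-1)*a) : V) :=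
    stepP H 14 7 11 (by decide) l7 l11 (1) (by simp only [cross, sm, Prod.mk.injEq]; refine ⟨?_, ?_, ?_⟩ <;> ring)
  have p18 : Par (p 18) (((-1)*a^2*b + (-2)*a*b + (-1)*b, (-1)*a^2*b + (-1)*a*b + 1, (-1)*a^2*b + (-1)*a*b + (-1)*a) : V) :=
    stepP H 18 14 11 (by decide) l14 l11 (1) (by simp only [cross, sm, Prod.mk.injEq]; refine ⟨?_, ?_, ?_⟩ <;> ring)
  have l2 : Par (l 2) ((a^2*b, (-1)*a^2*b + (-1)*a*b + (-1), 0) : V) :=
    stepL H 2 3 14 (by decide) p3 p14 (1) (by simp only [cross, sm, Prod.mk.injEq]; refine ⟨?_, ?_, ?_⟩ <;> ring)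
  have l8 : Par (l 8) ((0, a^2*b^2 + (-1)*a^2*b + a*b^2 + (-1)*a, (-1)*a^2*b^2 + a^2*b + (-1)*a*b^2 + (-1)) : V) :=
    stepL H 8 0 12 (by decide) p0 p12 (1) (by simp only [cross, sm, Prod.mk.injEq]; refine ⟨?_, ?_, ?_⟩ <;> ring)
  have l20 : Par (l 20) (((-1)*a^2*b + (-1)*a*b + (-1)*a, 0, a^2*b + 2*a*b + b) : V) :=
    stepL H 20 1 18 (by decide) p1 p18 (1) (by simp only [cross, sm, Prod.mk.injEq]; refine ⟨?_, ?_, ?_⟩ <;> ring)
  have p7 : Par (p 7) ((a^3*b^2 + a^3*b + 2*a^2*b^2 + 3*a^2*b + a*b^2 + 3*a*b + a + b + 2, a^3*b^2 + a^3*b + a^2*b^2 + 2*a^2*b, a^3*b^2 + a^3*b + a^2*b^2 + 3*a^2*b + a^2 + a*b + a) : V) :=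
    stepP H 7 5 2 (by decide) l5 l2 (a*b) (by simp only [cross, sm, Prod.mk.injEq]; refine ⟨?_, ?_, ?_⟩ <;> ring)
  have p15 : Par (p 15) ((a^3*b^2 + (-1)*a^3*b + 2*a^2*b^2 + a*b^2 + a*b + a + 1, a^3*b^2 + (-1)*a^3*b + a^2*b^2 + a, a^3*b^2 + (-1)*a^3*b + a^2*b^2 + (-1)*a^2) : V) :=
    stepP H 15 0 8 (by decide) l0 l8 (1) (by simp only [cross, sm, Prod.mk.injEq]; refine ⟨?_, ?_, ?_⟩ <;> ring)
  have n1 := mt ((p0.dot0 l12).symm.trans (H 0 12)).1 (by decide)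
  have n2 := mt ((p1.dot0 l12).symm.trans (H 1 12)).1 (by decide)
  have n3 := mt ((p0.dot0 l10).symm.trans (H 0 10)).1 (by decide)
  have e1 := ((p7.dot0 l20).symm.trans (H 7 20)).2 (by decide)
  have e2 := ((p15.dot0 l20).symm.trans (H 15 20)).2 (by decide)
  simp only [dot] at n1 n2 n3 e1 e2
  have ha0 : a ≠ 0 := fun h => n1 (by rw [h]; ring)
  have ha1 : a + 1 ≠ 0 := fun h => n2 (by linear_combination h)
  have hab : a * b + b + 1 ≠ 0 := fun h => n3 (by linear_combination h)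
  have ha : a = -2 := by
    have : a * (a * b + b + 1) * (a + 2) = 0 := by linear_combination (-1) * e1
    have := (mul_eq_zero.1 this).resolve_left (mul_ne_zero ha0 hab)
    linarith
  have hb : b = 1 / 4 := by
    have : a * (a + 1) * (a * b + b + 1) * (2 * a * b + 1) = 0 := by linear_combination (-1) * e2
    have := (mul_eq_zero.1 this).resolve_left (mul_ne_zero (mul_ne_zero ha0 ha1) hab)
    rw [ha] at this
    linarith
  subst ha hb
  have w9 : WP 9 = (-1, -2, -2) := by decide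
  have w13 : WP 13 = (-1, -2, 2) := by decide
  refine ⟨p9.trans ⟨1, one_ne_zero, ?_⟩, p13.trans ⟨1 / 4, by norm_num, ?_⟩⟩ <;>
    simp only [sm, cz, w9, w13, Prod.mk.injEq] <;> norm_num

lemma core (p0 : Par (p 0) (1, 0, 0)) (p1 : Par (p 1) (0, 1, 0)) (p3 : Par (p 3) (0, 0, 1))
    (p6 : Par (p 6) (1, 1, 1)) :
    (∀ i, Par (p i) (cz (WP i))) ∧ ∀ j, Par (l j) (cz (WL j)) := by
  obtain ⟨p9w, p13w⟩ := phase1 H p0 p1 p3 p6
  have p0w : Par (p 0) (cz (WP 0)) := by simpa [cz, WP] using p0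
  have p1w : Par (p 1) (cz (WP 1)) := by simpa [cz, WP] using p1
  have p3w : Par (p 3) (cz (WP 3)) := by simpa [cz, WP] using p3
  have p6w : Par (p 6) (cz (WP 6)) := by simpa [cz, WP] using p6
  have l4w := stepLz H 4 1 3 (1) (by decide) p1w p3w
  have l6w := stepLz H 6 0 6 (1) (by decide) p0w p6w
  have l18w := stepLz H 18 3 6 (1) (by decide) p3w p6w
  have p5w := stepPz H 5 4 6 (1) (by decide) l4w l6w
  have l12w := stepLz H 12 3 9 (1) (by decide) p3w p9w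
  have l1w := stepLz H 1 1 13 (1) (by decide) p1w p13w
  have l7w := stepLz H 7 0 13 (2) (by decide) p0w p13w
  have l14w := stepLz H 14 5 13 (1) (by decide) p5w p13w
  have p16w := stepPz H 16 18 7 (1) (by decide) l18w l7w
  have p19w := stepPz H 19 18 14 (1) (by decide) l18w l14w
  have l0w := stepLz H 0 9 16 (1) (by decide) p9w p16w
  have l10w := stepLz H 10 1 19 (1) (by decide) p1w p19w
  have l17w := stepLz H 17 5 16 (1) (by decide) p5w p16w
  have p4w := stepPz H 4 1 17 (1) (by decide) l1w l17w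
  have p10w := stepPz H 10 0 10 (1) (by decide) l0w l10w
  have l3w := stepLz H 3 6 4 (1) (by decide) p6w p4w
  have l5w := stepLz H 5 0 10 (1) (by decide) p0w p10w
  have l11w := stepLz H 11 9 4 (-2) (by decide) p9w p4w
  have p8w := stepPz H 8 1 5 (1) (by decide) l1w l5w
  have p12w := stepPz H 12 10 3 (1) (by decide) l10w l3w
  have p14w := stepPz H 14 7 11 (1) (by decide) l7w l11w
  have p18w := stepPz H 18 14 11 (1) (by decide) l14w l11w
  have l2w := stepLz H 2 3 14 (1) (by decide) p3w p14w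
  have l8w := stepLz H 8 0 12 (1) (by decide) p0w p12w
  have l13w := stepLz H 13 6 14 (1) (by decide) p6w p14w
  have l15w := stepLz H 15 8 12 (-3) (by decide) p8w p12w
  have l20w := stepLz H 20 1 18 (1) (by decide) p1w p18w
  have p2w := stepPz H 2 3 2 (1) (by decide) l3w l2w
  have p7w := stepPz H 7 5 2 (-1) (by decide) l5w l2w
  have p11w := stepPz H 11 4 8 (1) (by decide) l4w l8w
  have p15w := stepPz H 15 0 8 (2) (by decide) l0w l8w
  have p17w := stepPz H 17 12 13 (1) (by decide) l12w l13w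
  have p20w := stepPz H 20 17 13 (2) (by decide) l17w l13w
  have l9w := stepLz H 9 10 2 (3) (by decide) p10w p2w
  have l16w := stepLz H 16 19 7 (1) (by decide) p19w p7w
  have l19w := stepLz H 19 8 2 (6) (by decide) p8w p2w
  constructor
  · intro i
    fin_cases i <;> assumption
  · intro i
    fin_cases i <;> assumption

end

/-- to triples -/
def tv (v : Fin 3 → ℝ) : V := (v 0, v 1, v 2)
/-- from integer triples -/
def vz (x : ℤ × ℤ × ℤ) : Fin 3 → ℝ := ![x.1, x.2.1, x.2.2]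

lemma dot_tv (v w : Fin 3 → ℝ) : dot (tv v) (tv w) = v ⬝ᵥ w := by
  simp [dot, tv, dotProduct, Fin.sum_univ_three]

lemma tv_vz (x : ℤ × ℤ × ℤ) : tv (vz x) = cz x := by simp [tv, vz, cz]

lemma par_tv {v : Fin 3 → ℝ} {x : ℤ × ℤ × ℤ} (h : Par (tv v) (cz x)) :
    ∃ c : ℝ, c ≠ 0 ∧ v = c • vz x := by
  obtain ⟨c, hc, h⟩ := h
  simp only [tv, sm, cz, Prod.mk.injEq] at h
  refine ⟨c, hc, funext fun i => ?_⟩
  fin_cases i <;> simp [vz, h.1, h.2.1, h.2.2]

/-- the linear map with prescribed columns -/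
noncomputable def cols (a b c : Fin 3 → ℝ) : (Fin 3 → ℝ) →ₗ[ℝ] (Fin 3 → ℝ) where
  toFun v := v 0 • a + v 1 • b + v 2 • c
  map_add' x y := by simp only [Pi.add_apply, add_smul]; abel
  map_smul' r x := by simp only [Pi.smul_apply, smul_eq_mul, RingHom.id_apply, smul_add, mul_smul]

lemma cols_dot (a b c v w : Fin 3 → ℝ) :
    cols a b c v ⬝ᵥ w = v 0 * (a ⬝ᵥ w) + v 1 * (b ⬝ᵥ w) + v 2 * (c ⬝ᵥ w) := by
  simp [cols, add_dotProduct, smul_dotProduct]

lemma normal_form (p l : Fin 21 → Fin 3 → ℝ) (H : ∀ i j, p i ⬝ᵥ l j = 0 ↔ inc i j) :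
    ∃ f : (Fin 3 → ℝ) ≃ₗ[ℝ] (Fin 3 → ℝ), (∀ i, ∃ c : ℝ, c ≠ 0 ∧ p i = c • f (vz (WP i))) ∧
      ∀ j v, f v ⬝ᵥ l j = 0 ↔ v ⬝ᵥ vz (WL j) = 0 := by
  have a1 := mt (H 0 4).1 (by decide)
  have a2 := (H 1 4).2 (by decide)
  have a3 := (H 3 4).2 (by decide)
  have a4 := mt (H 6 4).1 (by decide)
  have b1 := mt (H 0 18).1 (by decide)
  have b2 := mt (H 1 18).1 (by decide)
  have b3 := (H 3 18).2 (by decide)
  have b4 := (H 6 18).2 (by decide)
  have c1 := (H 0 6).2 (by decide)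
  have c2 := mt (H 1 6).1 (by decide)
  have c3 := mt (H 3 6).1 (by decide)
  have c4 := (H 6 6).2 (by decide)
  have hinj : ∀ x y z : ℝ, x ≠ 0 → y ≠ 0 → z ≠ 0 →
      Function.Injective (cols (x • p 0) (y • p 1) (z • p 3)) := by
    intro x y z hx hy hz
    rw [injective_iff_map_eq_zero]
    intro v hv
    have e1 := cols_dot (x • p 0) (y • p 1) (z • p 3) v (l 4)
    have e2 := cols_dot (x • p 0) (y • p 1) (z • p 3) v (l 18)
    have e3 := cols_dot (x • p 0) (y • p 1) (z • p 3) v (l 6)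
    simp only [hv, zero_dotProduct, smul_dotProduct, smul_eq_mul, a2, a3, b3, c1, mul_zero,
      add_zero, zero_add] at e1 e2 e3
    have v0 : v 0 = 0 := (mul_eq_zero.1 e1.symm).resolve_right (mul_ne_zero hx a1)
    rw [v0, zero_mul, zero_add] at e2
    have v1 : v 1 = 0 := (mul_eq_zero.1 e2.symm).resolve_right (mul_ne_zero hy b2)
    rw [v1, zero_mul, zero_add] at e3
    have v2 : v 2 = 0 := (mul_eq_zero.1 e3.symm).resolve_right (mul_ne_zero hz c3)
    funext i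
    fin_cases i <;> assumption
  obtain ⟨w, hw⟩ := (LinearEquiv.ofInjectiveEndo _
    (hinj 1 1 1 one_ne_zero one_ne_zero one_ne_zero)).surjective (p 6)
  change cols (1 • p 0) (1 • p 1) (1 • p 3) w = p 6 at hw
  simp only [one_smul] at hw
  have e1 := cols_dot (p 0) (p 1) (p 3) w (l 4)
  have e2 := cols_dot (p 0) (p 1) (p 3) w (l 18)
  have e3 := cols_dot (p 0) (p 1) (p 3) w (l 6)
  simp only [hw, a2, a3, b3, b4, c1, c4, mul_zero, add_zero, zero_add] at e1 e2 e3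
  have w0 : w 0 ≠ 0 := fun h => a4 (by rw [e1, h, zero_mul])
  have w1 : w 1 ≠ 0 := fun h => mul_ne_zero w0 b1 (by rw [h, zero_mul, add_zero] at e2; exact e2.symm)
  have w2 : w 2 ≠ 0 := fun h => mul_ne_zero w1 c2 (by rw [h, zero_mul, add_zero] at e3; exact e3.symm)
  set f := LinearEquiv.ofInjectiveEndo _ (hinj _ _ _ w0 w1 w2) with hf
  have fa : ∀ v, f v = cols (w 0 • p 0) (w 1 • p 1) (w 2 • p 3) v := fun _ => rfl
  set l' : Fin 21 → Fin 3 → ℝ := fun j =>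
    ![(w 0 • p 0) ⬝ᵥ l j, (w 1 • p 1) ⬝ᵥ l j, (w 2 • p 3) ⬝ᵥ l j] with hl'
  have key : ∀ v j, f v ⬝ᵥ l j = v ⬝ᵥ l' j := by
    intro v j
    rw [fa, cols_dot]
    simp [hl', dotProduct, Fin.sum_univ_three]
  have H' : ∀ i j, dot (tv (f.symm (p i))) (tv (l' j)) = 0 ↔ inc i j := by
    intro i j
    rw [dot_tv, ← key, f.apply_symm_apply, H]
  have fr : ∀ (i : Fin 21) (v : Fin 3 → ℝ) (c : ℝ), c ≠ 0 → f v = c • p i →
      Par (tv (f.symm (p i))) (tv v) := by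
    intro i v c hc h
    have : f.symm (p i) = c⁻¹ • v := by
      rw [f.symm_apply_eq, map_smul, h, smul_smul, inv_mul_cancel₀ hc, one_smul]
    exact ⟨c⁻¹, inv_ne_zero hc, by rw [this]; simp [tv, sm]⟩
  obtain ⟨h1, h2⟩ := core H'
    (by simpa [tv] using fr 0 ![1, 0, 0] (w 0) w0 (by simp [fa, cols]))
    (by simpa [tv] using fr 1 ![0, 1, 0] (w 1) w1 (by simp [fa, cols]))
    (by simpa [tv] using fr 3 ![0, 0, 1] (w 2) w2 (by simp [fa, cols]))
    (by simpa [tv] using fr 6 ![1, 1, 1] 1 one_ne_zero (by rw [one_smul, ← hw]; simp [fa, cols]))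
  refine ⟨f, fun i => ?_, fun j v => ?_⟩
  · obtain ⟨c, hc, h⟩ := par_tv (h1 i)
    exact ⟨c, hc, by rw [← map_smul, ← h, f.apply_symm_apply]⟩
  · obtain ⟨c, hc, h⟩ := par_tv (h2 j)
    rw [key, h, dotProduct_smul, smul_eq_mul, mul_eq_zero, or_iff_right hc]

lemma mem_lineSet (x l : PPlane) : x ∈ lineSet l ↔ x.rep ⬝ᵥ l.rep = 0 := by
  conv_lhs => rw [← x.mk_rep, ← l.mk_rep]
  rfl

theorem rigid (P L P' L' : Fin 21 → PPlane) (h : Realizes inc P L) (h' : Realizes inc P' L') :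
    ProjEquiv P L P' L' := by
  obtain ⟨f, f1, f2⟩ := normal_form (fun i => (P i).rep) (fun j => (L j).rep)
    (fun i j => by rw [← mem_lineSet]; exact h.2.2 i j)
  obtain ⟨g, g1, g2⟩ := normal_form (fun i => (P' i).rep) (fun j => (L' j).rep)
    (fun i j => by rw [← mem_lineSet]; exact h'.2.2 i j)
  refine ⟨f.symm.trans g, fun i => ?_, fun j => ?_⟩
  · obtain ⟨c, hc, e⟩ := f1 i
    obtain ⟨d, hd, e'⟩ := g1 i
    rw [← (P i).mk_rep, ← (P' i).mk_rep, Projectivization.map_mk, Projectivization.mk_eq_mk_iff']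
    refine ⟨c / d, ?_⟩
    rw [e, e']
    simp [smul_smul, div_mul_cancel₀ _ hd]
  · have key : ∀ x : PPlane, Projectivization.map (f.symm.trans g).toLinearMap
        (f.symm.trans g).injective x ∈ lineSet (L' j) ↔ x ∈ lineSet (L j) := by
      intro x
      rw [mem_lineSet x, ← f.apply_symm_apply x.rep, f2, ← g2]
      conv_lhs => rw [← x.mk_rep, ← (L' j).mk_rep, Projectivization.map_mk]
      rfl
    ext y
    constructor
    · rintro ⟨x, hx, rfl⟩
      exact (key x).2 hx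
    · intro hy
      have : Projectivization.map (f.symm.trans g).toLinearMap (f.symm.trans g).injective
          (Projectivization.mk ℝ ((f.symm.trans g).symm y.rep)
            (by simpa using y.rep_nonzero)) = y := by
        rw [Projectivization.map_mk]
        simp
      exact ⟨_, (key _).1 (by rwa [this]), this⟩

lemma vz_dot (x y : ℤ × ℤ × ℤ) :
    vz x ⬝ᵥ vz y = 0 ↔ x.1 * y.1 + x.2.1 * y.2.1 + x.2.2 * y.2.2 = 0 := by
  simp only [vz, dotProduct, Fin.sum_univ_three, Matrix.cons_val_zero, Matrix.cons_val_one,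
    Matrix.cons_val]
  norm_cast

lemma exists_real : ∃ P L, Realizes inc P L := by
  have hp : ∀ i, vz (WP i) ≠ 0 := fun i h => by
    obtain ⟨k, hk⟩ := nzP i
    exact hk ((vz_dot _ _).1 (by rw [h, zero_dotProduct]))
  have hl : ∀ j, vz (WL j) ≠ 0 := fun j h => by
    obtain ⟨k, hk⟩ := nzL j
    exact hk ((vz_dot _ _).1 (by rw [h, dotProduct_zero]))
  have key : ∀ i j, Projectivization.mk ℝ _ (hp i) ∈ lineSet (Projectivization.mk ℝ _ (hl j)) ↔
      inc i j := fun i j => vz_dot _ _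
  refine ⟨fun i => Projectivization.mk ℝ _ (hp i), fun j => Projectivization.mk ℝ _ (hl j),
    fun i i' h => ?_, fun j j' h => ?_, key⟩
  · by_contra hne
    obtain ⟨k, k1, k2⟩ := sepP i i' hne
    simp only at h
    rw [← key, h, key] at k1
    exact k2 k1
  · by_contra hne
    obtain ⟨k, k1, k2⟩ := sepL j j' hne
    simp only at h
    rw [← key, h, key] at k1
    exact k2 k1

lemma ncard_eq21 (q : Fin 21 → Prop) [DecidablePred q] :
    {i | q i}.ncard = (Finset.univ.filter q).card := by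
  rw [← Set.ncard_coe_finset]; congr 1; ext; simp

lemma regular : IsRegular 4 inc := by
  have h1 : ∀ i, (Finset.univ.filter fun j => inc i j).card = 4 := by decide +kernel
  have h2 : ∀ j, (Finset.univ.filter fun i => inc i j).card = 4 := by decide +kernel
  exact ⟨fun i => by rw [ncard_eq21]; exact h1 i, fun j => by rw [ncard_eq21]; exact h2 j⟩

end Pool.Agent.Lib.H29.Conf
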