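import Mathlib
import Pool.Agent.Lib.helper29.Rigid21

set_option autoImplicit false

namespace Pool.Agent.Lib.H29.Conf45

open Pool.Agent.Lib.H29.Conf

/-- points -/
def WP : Fin 40 → ℤ × ℤ × ℤ := ![(0, 1, 0), (1, 0, 0), (1, -1, 0), (1, 1, 0), (0, 1, -2), (0, 1, 2), (1, 0, -2), (1, 0, 2), (1, -2, 0), (1, 2, 0), (2, -1, 0), (2, 1, 0), (1, -1, -2), (1, -1, 2), (1, 1, -2), (1, 1, 2), (2, -3, -2), (2, -3, 2), (2, 3, -2), (2, 3, 2), (3, -2, -2), (3, -2, 2), (3, 2, -2), (3, 2, 2), (3, -3, -2), (3, -3, 2), (3, 3, -2), (3, 3, 2), (0, 3, -4), (0, 3, 4), (3, 0, -4), (3, 0, 4), (1, -4, -4), (1, -4, 4), (1, 4, -4), (1, 4, 4), (4, -1, -4), (4, -1, 4), (4, 1, -4), (4, 1, 4)]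
/-- lines -/
def WL : Fin 32 → ℤ × ℤ × ℤ := ![(0, 1, -1), (0, 1, 1), (1, 0, -1), (1, 0, 1), (2, -2, -1), (2, -2, 1), (2, 2, -1), (2, 2, 1), (0, 2, -3), (0, 2, 3), (2, 0, -3), (2, 0, 3), (2, -4, -3), (2, -4, 3), (2, 4, -3), (2, 4, 3), (4, -2, -3), (4, -2, 3), (4, 2, -3), (4, 2, 3), (2, -4, -1), (2, -4, 1), (2, 4, -1), (2, 4, 1), (4, -2, -1), (4, -2, 1), (4, 2, -1), (4, 2, 1), (4, -4, -3), (4, -4, 3), (4, 4, -3), (4, 4, 3)]
/-- incidence -/
def inc (i : Fin 40) (j : Fin 32) : Prop :=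
  (WP i).1 * (WL j).1 + (WP i).2.1 * (WL j).2.1 + (WP i).2.2 * (WL j).2.2 = 0
instance (i : Fin 40) (j : Fin 32) : Decidable (inc i j) := by unfold inc; infer_instance

lemma nzP : ∀ i, ∃ k, ¬ inc i k := by decide +kernel
lemma nzL : ∀ j, ∃ k, ¬ inc k j := by decide +kernel
lemma sepP : ∀ i i', i ≠ i' → ∃ k, inc i k ∧ ¬ inc i' k := by decide +kernel
lemma sepL : ∀ j j', j ≠ j' → ∃ k, inc k j ∧ ¬ inc k j' := by decide +kernel
lemma cardP : ∀ i, (Finset.univ.filter fun j => inc i j).card = 4 := by decide +kernel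
lemma cardL : ∀ j, (Finset.univ.filter fun i => inc i j).card = 5 := by decide +kernel

lemma ncard_eq {n : ℕ} (q : Fin n → Prop) [DecidablePred q] :
    {i | q i}.ncard = (Finset.univ.filter q).card := by
  rw [← Set.ncard_coe_finset]
  congr 1
  ext i
  simp

theorem exists_conf : ∃ (P : Fin 40 → PPlane) (L : Fin 32 → PPlane),
    Function.Injective P ∧ Function.Injective L ∧
    (∀ i, {j | P i ∈ lineSet (L j)}.ncard = 4) ∧ ∀ j, {i | P i ∈ lineSet (L j)}.ncard = 5 := by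
  have hp : ∀ i, vz (WP i) ≠ 0 := fun i h => by
    obtain ⟨k, hk⟩ := nzP i
    exact hk ((vz_dot _ _).1 (by rw [h, zero_dotProduct]))
  have hl : ∀ j, vz (WL j) ≠ 0 := fun j h => by
    obtain ⟨k, hk⟩ := nzL j
    exact hk ((vz_dot _ _).1 (by rw [h, dotProduct_zero]))
  have key : ∀ i j, Projectivization.mk ℝ _ (hp i) ∈ lineSet (Projectivization.mk ℝ _ (hl j)) ↔
      inc i j := fun i j => vz_dot _ _
  refine ⟨fun i => Projectivization.mk ℝ _ (hp i), fun j => Projectivization.mk ℝ _ (hl j),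
    fun i i' h => ?_, fun j j' h => ?_, fun i => ?_, fun j => ?_⟩
  · by_contra hne
    obtain ⟨k, k1, k2⟩ := sepP i i' hne
    simp only at h
    rw [← key, h, key] at k1
    exact k2 k1
  · by_contra hne
    obtain ⟨k, k1, k2⟩ := sepL j j' hne
    simp only at h
    rw [← key, h, key] at k1
    exact k2 k1
  · simp only [key]
    rw [ncard_eq]; exact cardP i
  · simp only [key]
    rw [ncard_eq]; exact cardL j

end Pool.Agent.Lib.H29.Conf45
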