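import Mathlib
import Pool.Agent.Lib.helper29.DimDefs

set_option autoImplicit false

namespace Pool.Agent.Lib.H29.ConfDim

open Module

/-- cast -/
noncomputable def cv {m : ℕ} (x : Fin m → ℤ) : EuclideanSpace ℝ (Fin m) :=
  WithLp.toLp 2 fun s => (x s : ℝ)

lemma cv_apply {m : ℕ} (x : Fin m → ℤ) (s : Fin m) : cv x s = x s := rfl

lemma mem_line {m : ℕ} (x a b : Fin m → ℤ) (hab : ∃ s, a s ≠ b s) :
    cv x ∈ line[ℝ, cv a, cv b] ↔ ∀ s t, (x s - a s) * (b t - a t) = (x t - a t) * (b s - a s) := by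
  rw [mem_affineSpan_pair_iff_exists_lineMap_eq]
  constructor
  · rintro ⟨r, hr⟩ s t
    have h : ∀ s, (x s : ℝ) = r * (b s - a s) + a s := fun s => by
      rw [← cv_apply, ← hr, AffineMap.lineMap_apply]; simp [cv_apply]
    have : ((x s : ℝ) - a s) * (b t - a t) = (x t - a t) * (b s - a s) := by
      rw [h s, h t]; ring
    exact_mod_cast this
  · intro h
    obtain ⟨s, hs⟩ := hab
    have hs' : (b s : ℝ) - a s ≠ 0 := sub_ne_zero.2 (by exact_mod_cast hs.symm)
    refine ⟨(x s - a s) / (b s - a s), ?_⟩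
    ext t
    have : ((x s : ℝ) - a s) * (b t - a t) = (x t - a t) * (b s - a s) := by exact_mod_cast h s t
    rw [AffineMap.lineMap_apply]
    simp only [vsub_eq_sub, vadd_eq_add, PiLp.add_apply, PiLp.smul_apply, PiLp.sub_apply, cv_apply,
      smul_eq_mul]
    field_simp
    linarith

lemma realizes_of {m n : ℕ} (I : Fin n → Fin n → Prop) (P : Fin n → Fin m → ℤ)
    (a b : Fin n → Fin n) (h1 : ∀ j, ∃ s, P (a j) s ≠ P (b j) s)
    (h2 : ∀ i j, (∀ s t, (P i s - P (a j) s) * (P (b j) t - P (a j) t) =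
      (P i t - P (a j) t) * (P (b j) s - P (a j) s)) ↔ I i j)
    (h3 : ∀ i i', i ≠ i' → ∃ j, I i j ∧ ¬ I i' j) (h4 : ∀ j j', j ≠ j' → ∃ i, I i j ∧ ¬ I i j') :
    RealizesIn m I (fun i => cv (P i)) fun j => line[ℝ, cv (P (a j)), cv (P (b j))] := by
  have key : ∀ i j, cv (P i) ∈ line[ℝ, cv (P (a j)), cv (P (b j))] ↔ I i j := fun i j => by
    rw [mem_line _ _ _ (h1 j), h2]
  refine ⟨fun i i' h => ?_, fun j j' h => ?_, fun j => ?_, key⟩
  · by_contra hne
    obtain ⟨k, k1, k2⟩ := h3 i i' hne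
    simp only at h
    rw [← key, h, key] at k1
    exact k2 k1
  · by_contra hne
    obtain ⟨k, k1, k2⟩ := h4 j j' hne
    simp only at h
    rw [← key, h, key] at k1
    exact k2 k1
  · rw [direction_affineSpan, vectorSpan_pair]
    apply finrank_span_singleton
    obtain ⟨s, hs⟩ := h1 j
    intro h
    have := congrArg (fun v : EuclideanSpace ℝ (Fin m) => v s) h
    simp only [vsub_eq_sub, PiLp.sub_apply, cv_apply, PiLp.zero_apply, sub_eq_zero] at this
    exact hs (by exact_mod_cast this)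

lemma line_le {m : ℕ} {L S : AffineSubspace ℝ (EuclideanSpace ℝ (Fin m))}
    (hL : finrank ℝ L.direction = 1) {x y : EuclideanSpace ℝ (Fin m)} (hxy : x ≠ y) (hx : x ∈ L)
    (hy : y ∈ L) (hx' : x ∈ S) (hy' : y ∈ S) : L ≤ S := by
  have h1 : line[ℝ, x, y] ≤ L := affineSpan_pair_le_of_mem_of_mem hx hy
  have h2 : line[ℝ, x, y] = L := by
    refine AffineSubspace.eq_of_direction_eq_of_nonempty_of_le ?_
      ⟨x, left_mem_affineSpan_pair _ _ _⟩ h1
    refine Submodule.eq_of_le_of_finrank_eq (AffineSubspace.direction_le h1) ?_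
    rw [hL, direction_affineSpan, vectorSpan_pair]
    exact finrank_span_singleton (vsub_ne_zero.2 hxy)
  rw [← h2]
  exact affineSpan_pair_le_of_mem_of_mem hx' hy'

/-- lines of C as 4-tuples -/
def LT : Fin 43 → List ℕ := ![[0, 3, 8, 11], [1, 2, 4, 7], [5, 6, 9, 10], [0, 1, 33, 36], [2, 3, 34, 35], [4, 5, 26, 28], [6, 7, 25, 27], [8, 9, 30, 32], [10, 11, 29, 31], [13, 16, 41, 42], [14, 17, 39, 40], [15, 18, 37, 38], [12, 13, 14, 15], [12, 16, 17, 18], [2, 19, 25, 37], [1, 19, 28, 38], [0, 20, 29, 39], [3, 20, 32, 40], [10, 21, 26, 41], [9, 21, 27, 42], [6, 22, 30, 41], [5, 22, 31, 42], [8, 23, 35, 39], [11, 23, 36, 40], [4, 24, 33, 37], [7, 24, 34, 38], [0, 15, 19, 26], [3, 18, 19, 27], [2, 14, 20, 30], [1, 17, 20, 31], [8, 13, 21, 25], [11, 16, 21, 28], [4, 13, 22, 29], [7, 16, 22, 32], [10, 14, 23, 33], [9, 17, 23, 34], [6, 15, 24, 35], [5, 18, 24, 36], [26, 27, 30, 31], [25, 28, 33, 34], [29, 32, 35, 36], [12, 37, 39, 41], [12, 38, 40, 42]]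
/-- planar points -/
def P2 : Fin 43 → Fin 2 → ℤ := ![![49896, -133056], ![106920, 0], ![64680, 0], ![11880, -95040], ![66528, 0], ![0, -110880], ![0, -332640], ![110880, 0], ![23760, -106920], ![0, -149688], ![0, -194040], ![33264, -116424], ![46200, -73920], ![66528, 149688], ![58212, 58212], ![49896, -33264], ![-665280, -582120], ![-374220, -374220], ![-83160, -166320], ![49896, -66528], ![68040, -30240], ![20790, -124740], ![66528, -33264], ![11880, -142560], ![41580, -83160], ![-27720, -415800], ![49896, -27720], ![101640, -27720], ![-27720, -157080], ![66528, -38808], ![67760, -27720], ![71280, -27720], ![63360, -35640], ![-27720, -314160], ![-27720, -166320], ![51480, -23760], ![83160, -55440], ![59400, -23760], ![249480, 166320], ![89100, 89100], ![706860, 706860], ![118800, 201960], ![1164240, 1247400]]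
/-- spatial points -/
def P3 : Fin 43 → Fin 3 → ℤ := ![![0, 0, 2310], ![0, -4620, 0], ![9240, 0, 0], ![0, -1320, 1320], ![0, -1848, 1848], ![4620, -4620, 0], ![2310, -2310, 0], ![-2310, 0, 2310], ![-4620, 0, 4620], ![0, -1540, 1540], ![3080, -3080, 0], ![-3080, 0, 3080], ![4620, 4620, 4620], ![2310, 2310, 2310], ![0, 2310, 4620], ![0, 1155, 2310], ![0, -9240, -4620], ![0, 9240, 4620], ![1320, 0, 2640], ![840, 0, 1680], ![-1848, -3696, 0], ![-9240, -18480, 0], ![4620, 0, 2310], ![2310, 0, 1155], ![-9240, -4620, 0], ![9240, 4620, 0], ![0, 1848, 3696], ![0, 1320, 2640], ![0, -18480, -9240], ![0, 18480, 9240], ![1155, 0, 2310], ![924, 0, 1848], ![-2310, -4620, 0], ![-4620, -9240, 0], ![3696, 0, 1848], ![2640, 0, 1320], ![-18480, -9240, 0], ![18480, 9240, 0], ![-3080, 6160, 6160], ![1540, -770, 1540], ![-3080, -3080, 1540], ![9240, 9240, 9240], ![1848, 1848, 1848]]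
/-- first point -/
def a2 : Fin 43 → Fin 43 := ![0, 1, 5, 0, 2, 4, 6, 8, 10, 13, 14, 15, 12, 12, 2, 1, 0, 3, 10, 9, 6, 5, 8, 11, 4, 7, 0, 3, 2, 1, 8, 11, 4, 7, 10, 9, 6, 5, 26, 25, 29, 12, 12]
/-- second point -/
def b2 : Fin 43 → Fin 43 := ![3, 2, 6, 1, 3, 5, 7, 9, 11, 16, 17, 18, 13, 16, 19, 19, 20, 20, 21, 21, 22, 22, 23, 23, 24, 24, 15, 18, 14, 17, 13, 16, 13, 16, 14, 17, 15, 18, 27, 28, 32, 37, 38]
/-- first point -/
def a3 : Fin 43 → Fin 43 := ![0, 1, 1, 0, 1, 2, 2, 1, 0, 2, 2, 0, 12, 9, 10, 11, 9, 10, 11, 14, 16, 18, 20, 22, 24, 6, 5, 6, 5, 8, 7, 8, 7, 3, 4, 4, 3, 11, 11, 10, 10, 9, 9]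
/-- second point -/
def b3 : Fin 43 → Fin 43 := ![3, 3, 4, 4, 5, 5, 6, 6, 7, 7, 8, 8, 13, 12, 12, 12, 13, 13, 13, 15, 17, 19, 21, 23, 25, 14, 18, 19, 15, 16, 20, 21, 17, 24, 25, 22, 23, 14, 15, 16, 17, 18, 19]
/-- incidence -/
def II (i j : Fin 43) : Prop := i.val ∈ LT j
instance (i j : Fin 43) : Decidable (II i j) := by unfold II; infer_instance

lemma sepP : ∀ i i', i ≠ i' → ∃ j, II i j ∧ ¬ II i' j := by decide +kernel
lemma sepL : ∀ j j', j ≠ j' → ∃ i, II i j ∧ ¬ II i j' := by decide +kernel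

lemma ncard_eq (q : Fin 43 → Prop) [DecidablePred q] :
    {i | q i}.ncard = (Finset.univ.filter q).card := by
  rw [← Set.ncard_coe_finset]; congr 1; ext; simp

lemma balanced : IsBalanced 4 II := by
  have h1 : ∀ i, (Finset.univ.filter fun j => II i j).card = 4 := by decide +kernel
  have h2 : ∀ j, (Finset.univ.filter fun i => II i j).card = 4 := by decide +kernel
  have h3 : ∀ j j', j ≠ j' → ∀ i, II i j → II i j' → ∀ i', II i' j → II i' j' → i = i' := by
    decide +kernel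
  refine ⟨fun i => by rw [ncard_eq]; exact h1 i, fun j => by rw [ncard_eq]; exact h2 j, ?_⟩
  intro i i' j j' hne a b c d
  by_contra h
  exact hne (h3 j j' h i a c i' b d)

lemma le_two {d : ℕ} (hd : d ∈ hullDims II) : d ≤ 2 := by
  obtain ⟨m, P, L, ⟨hP, -, hL, hI⟩, rfl⟩ := hd
  set S := affineSpan ℝ (Set.range ![P 0, P 8, P 1]) with hS
  have st : ∀ j a b c : Fin 43, (II a j ∧ II b j ∧ II c j ∧ a ≠ b) → P a ∈ S → P b ∈ S →
      P c ∈ S := fun j a b c h ha hb =>
    line_le (hL j) (hP.ne h.2.2.2) ((hI a j).2 h.1) ((hI b j).2 h.2.1) ha hb ((hI c j).2 h.2.2.1)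
  have h0 : P 0 ∈ S := mem_affineSpan ℝ ⟨0, rfl⟩
  have h8 : P 8 ∈ S := mem_affineSpan ℝ ⟨1, rfl⟩
  have h1 : P 1 ∈ S := mem_affineSpan ℝ ⟨2, rfl⟩
  have h3 := st 0 0 8 3 (by decide) h0 h8
  have h11 := st 0 0 8 11 (by decide) h0 h8
  have h33 := st 3 0 1 33 (by decide) h0 h1
  have h36 := st 3 0 1 36 (by decide) h0 h1
  have h23 := st 23 11 36 23 (by decide) h11 h36
  have h40 := st 23 11 36 40 (by decide) h11 h36
  have h10 := st 34 23 33 10 (by decide) h23 h33
  have h14 := st 34 23 33 14 (by decide) h23 h33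
  have h29 := st 8 10 11 29 (by decide) h10 h11
  have h31 := st 8 10 11 31 (by decide) h10 h11
  have h17 := st 10 14 40 17 (by decide) h14 h40
  have h39 := st 10 14 40 39 (by decide) h14 h40
  have h20 := st 16 0 29 20 (by decide) h0 h29
  have h32 := st 17 3 20 32 (by decide) h3 h20
  have h35 := st 22 8 23 35 (by decide) h8 h23
  have h2 := st 28 14 20 2 (by decide) h14 h20
  have h30 := st 28 14 20 30 (by decide) h14 h20
  have h9 := st 35 17 23 9 (by decide) h17 h23
  have h34 := st 35 17 23 34 (by decide) h17 h23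
  have h26 := st 38 30 31 26 (by decide) h30 h31
  have h27 := st 38 30 31 27 (by decide) h30 h31
  have h25 := st 39 33 34 25 (by decide) h33 h34
  have h28 := st 39 33 34 28 (by decide) h33 h34
  have h4 := st 1 1 2 4 (by decide) h1 h2
  have h7 := st 1 1 2 7 (by decide) h1 h2
  have h5 := st 2 9 10 5 (by decide) h9 h10
  have h6 := st 2 9 10 6 (by decide) h9 h10
  have h19 := st 14 2 25 19 (by decide) h2 h25
  have h37 := st 14 2 25 37 (by decide) h2 h25
  have h38 := st 15 1 19 38 (by decide) h1 h19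
  have h21 := st 18 10 26 21 (by decide) h10 h26
  have h41 := st 18 10 26 41 (by decide) h10 h26
  have h42 := st 19 9 21 42 (by decide) h9 h21
  have h22 := st 20 6 30 22 (by decide) h6 h30
  have h24 := st 24 4 33 24 (by decide) h4 h33
  have h15 := st 26 0 19 15 (by decide) h0 h19
  have h18 := st 27 3 19 18 (by decide) h3 h19
  have h13 := st 30 8 21 13 (by decide) h8 h21
  have h16 := st 31 11 21 16 (by decide) h11 h21
  have h12 := st 41 37 39 12 (by decide) h37 h39
  have hall : ∀ i, P i ∈ S := by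
    intro i
    fin_cases i <;> assumption
  have hle : affineSpan ℝ (Set.range P) ≤ S := by
    rw [affineSpan_le]
    rintro _ ⟨i, rfl⟩
    exact hall i
  refine (Submodule.finrank_mono (AffineSubspace.direction_le hle)).trans ?_
  rw [hS, direction_affineSpan]
  exact finrank_vectorSpan_range_le ℝ _ (by simp)

lemma two_mem : 2 ∈ hullDims II := by
  refine ⟨2, _, _, realizes_of II P2 a2 b2 (by decide +kernel) (by decide +kernel) sepP sepL, ?_⟩
  rw [direction_affineSpan]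
  have : vectorSpan ℝ (Set.range fun i => cv (P2 i)) = ⊤ := by
    rw [Submodule.eq_top_iff']
    intro x
    have m : ∀ i j, cv (P2 i) -ᵥ cv (P2 j) ∈ vectorSpan ℝ (Set.range fun i => cv (P2 i)) :=
      fun i j => vsub_mem_vectorSpan ℝ ⟨i, rfl⟩ ⟨j, rfl⟩
    have e : x = (x 0 / 42240) • (cv (P2 1) -ᵥ cv (P2 2)) +
        (x 1 / 221760) • (cv (P2 5) -ᵥ cv (P2 6)) := by
      have e1 : P2 1 = ![106920, 0] := by decide
      have e2 : P2 2 = ![64680, 0] := by decide
      have e5 : P2 5 = ![0, -110880] := by decide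
      have e6 : P2 6 = ![0, -332640] := by decide
      ext s
      fin_cases s <;> simp [e1, e2, e5, e6, cv_apply] <;> ring
    rw [e]
    exact Submodule.add_mem _ (Submodule.smul_mem _ _ (m _ _)) (Submodule.smul_mem _ _ (m _ _))
  rw [this]
  simp

lemma three_mem : 3 ∈ hullDims fun i j => II j i := by
  refine ⟨3, _, _, realizes_of (fun i j => II j i) P3 a3 b3 (by decide +kernel) (by decide +kernel)
    sepL sepP, ?_⟩
  rw [direction_affineSpan]
  have : vectorSpan ℝ (Set.range fun i => cv (P3 i)) = ⊤ := by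
    rw [Submodule.eq_top_iff']
    intro x
    have m : ∀ i j, cv (P3 i) -ᵥ cv (P3 j) ∈ vectorSpan ℝ (Set.range fun i => cv (P3 i)) :=
      fun i j => vsub_mem_vectorSpan ℝ ⟨i, rfl⟩ ⟨j, rfl⟩
    have e : x = (((4 * x 2 - 2 * x 1 + x 0) / 3 - x 1) / 4620) • (cv (P3 1) -ᵥ cv (P3 0)) +
        ((x 0 - (4 * x 2 - 2 * x 1 + x 0) / 3) / 9240) • (cv (P3 2) -ᵥ cv (P3 0)) +
        ((4 * x 2 - 2 * x 1 + x 0) / 6930) • (cv (P3 12) -ᵥ cv (P3 13)) := by
      have e0 : P3 0 = ![0, 0, 2310] := by decide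
      have e1 : P3 1 = ![0, -4620, 0] := by decide
      have e2 : P3 2 = ![9240, 0, 0] := by decide
      have e12 : P3 12 = ![4620, 4620, 4620] := by decide
      have e13 : P3 13 = ![2310, 2310, 2310] := by decide
      ext s
      fin_cases s <;> simp [e0, e1, e2, e12, e13, cv_apply] <;> ring
    rw [e]
    exact Submodule.add_mem _ (Submodule.add_mem _ (Submodule.smul_mem _ _ (m _ _))
      (Submodule.smul_mem _ _ (m _ _))) (Submodule.smul_mem _ _ (m _ _))
  rw [this]
  simp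

end Pool.Agent.Lib.H29.ConfDim
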