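import Mathlib

set_option autoImplicit false
open Polynomial Complex Set Real
open scoped ComplexConjugate

namespace Pool.Agent.Lib.H29.Darga

lemma second (z : ℂ) (s : Multiset ℂ) (h : ∀ a ∈ s, z ≠ a) :
    (derivative (s.map (X - C ·)).prod).eval z
        = ((s.map (X - C ·)).prod).eval z * (s.map fun a => 1 / (z - a)).sum ∧
    (derivative (derivative (s.map (X - C ·)).prod)).eval z * ((s.map (X - C ·)).prod).eval z
      - (derivative (s.map (X - C ·)).prod).eval z ^ 2
      = -((s.map (X - C ·)).prod).eval z ^ 2 * (s.map fun a => (1 / (z - a)) ^ 2).sum := by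
  induction s using Multiset.induction_on with
  | empty => simp
  | cons a s ih =>
    obtain ⟨i1, i2⟩ := ih (fun b hb => h b (Multiset.mem_cons_of_mem hb))
    have ha : z - a ≠ 0 := sub_ne_zero.mpr (h a (Multiset.mem_cons_self a s))
    have e : (z - a) * (1 / (z - a)) = 1 := mul_one_div_cancel ha
    simp only [Multiset.map_cons, Multiset.prod_cons, Multiset.sum_cons, derivative_mul,
      derivative_add, derivative_sub, derivative_X, derivative_C, sub_zero,
      one_mul, eval_add, eval_mul, eval_sub, eval_X, eval_C]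
    constructor
    · linear_combination (z - a) * i1 - ((s.map (X - C ·)).prod).eval z * e
    · linear_combination (z - a) ^ 2 * i2
        + ((s.map (X - C ·)).prod).eval z ^ 2 * ((z - a) * (1 / (z - a)) + 1) * e

lemma laguerre (p : ℂ[X]) (hr : ∀ a, p.IsRoot a → ‖a‖ = 1) {z : ℂ} (hz : ‖z‖ = 1)
    (h0 : p.eval z ≠ 0) :
    0 ≤ (z * (p.derivative.eval z / p.eval z) + z ^ 2 * (p.derivative.derivative.eval z / p.eval z
      - (p.derivative.eval z / p.eval z) ^ 2)).re := by
  have hp : p ≠ 0 := by rintro rfl; simp at h0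
  have hl : p.leadingCoeff ≠ 0 := leadingCoeff_ne_zero.mpr hp
  have hne : ∀ a ∈ p.roots, z ≠ a := fun a ha e => h0 (e ▸ (mem_roots hp).mp ha)
  obtain ⟨i1, i2⟩ := second z p.roots hne
  have hs := (IsAlgClosed.splits p).eq_prod_roots
  set q := (p.roots.map (X - C ·)).prod with hq
  have e0 : p.eval z = p.leadingCoeff * q.eval z := by
    conv_lhs => rw [hs]
    simp
  have e1 : p.derivative.eval z = p.leadingCoeff * q.derivative.eval z := by
    conv_lhs => rw [hs]
    simp
  have e2 : p.derivative.derivative.eval z = p.leadingCoeff * q.derivative.derivative.eval z := by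
    conv_lhs => rw [hs]
    simp
  have hq0 : q.eval z ≠ 0 := by rw [e0] at h0; exact right_ne_zero_of_mul h0
  have e3 : z * (p.derivative.eval z / p.eval z) + z ^ 2 * (p.derivative.derivative.eval z / p.eval z
      - (p.derivative.eval z / p.eval z) ^ 2)
      = (p.roots.map fun a => z * (1 / (z - a)) - z ^ 2 * (1 / (z - a)) ^ 2).sum := by
    rw [Multiset.sum_map_sub, Multiset.sum_map_mul_left, Multiset.sum_map_mul_left, e0, e1, e2]
    have a1 : (p.roots.map fun a => 1 / (z - a)).sum = q.derivative.eval z / q.eval z := by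
      rw [i1]; field_simp
    have a2 : (p.roots.map fun a => (1 / (z - a)) ^ 2).sum
        = -(q.derivative.derivative.eval z * q.eval z - q.derivative.eval z ^ 2) / q.eval z ^ 2 := by
      rw [i2]; field_simp
    rw [a1, a2]
    field_simp
    ring
  rw [e3]
  have key : ∀ s : Multiset ℂ, (∀ a ∈ s, z ≠ a ∧ ‖a‖ = 1) →
      0 ≤ ((s.map fun a => z * (1 / (z - a)) - z ^ 2 * (1 / (z - a)) ^ 2).sum).re := by
    intro s
    induction s using Multiset.induction_on with
    | empty => simp
    | cons a s ih =>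
      intro h
      simp only [Multiset.map_cons, Multiset.sum_cons, add_re]
      refine add_nonneg ?_ (ih fun b hb => h b (Multiset.mem_cons_of_mem hb))
      obtain ⟨h1, h2⟩ := h a (Multiset.mem_cons_self a s)
      have ha : z - a ≠ 0 := sub_ne_zero.mpr h1
      have c1 : z * conj z = 1 := by rw [mul_conj, Complex.normSq_eq_norm_sq, hz]; simp
      have c2 : a * conj a = 1 := by rw [mul_conj, Complex.normSq_eq_norm_sq, h2]; simp
      have hc : conj z - conj a ≠ 0 := by rw [← map_sub]; exact (_root_.map_ne_zero _).mpr ha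
      have : z * (1 / (z - a)) - z ^ 2 * (1 / (z - a)) ^ 2 = ((normSq (z - a))⁻¹ : ℝ) := by
        push_cast
        rw [← mul_conj, map_sub]
        field_simp
        linear_combination (-a) * c1 + z * c2
      rw [this, ofReal_re]
      exact inv_nonneg.mpr (normSq_nonneg _)
  exact key _ fun a ha => ⟨hne a ha, hr a ((mem_roots hp).mp ha)⟩

lemma alt_roots (f : ℝ → ℝ) (hf : Continuous f) (v : ℕ → ℝ) (n : ℕ)
    (hv : ∀ i, v i < v (i + 1)) (hs : ∀ i ≤ n, 0 < (-1) ^ i * f (v i)) :
    ∃ r : ℕ → ℝ, (∀ i < n, v 0 < r i ∧ r i < v n ∧ f (r i) = 0) ∧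
      Set.InjOn r (Finset.range n : Set ℕ) := by
  have hm : StrictMono v := strictMono_nat_of_lt_succ hv
  have : ∀ i, ∃ r, i < n → v i < r ∧ r < v (i + 1) ∧ f r = 0 := by
    intro i
    by_cases hi : i < n
    · have h1 := hs i hi.le
      have h2 := hs (i + 1) hi
      have hc : Continuous fun x => (-1 : ℝ) ^ i * f x := by fun_prop
      obtain ⟨r, hr, e⟩ := intermediate_value_Ioo' (hv i).le hc.continuousOn
        (show (0 : ℝ) ∈ Ioo _ _ from ⟨by rw [pow_succ] at h2; linarith, h1⟩)
      refine ⟨r, fun _ => ⟨hr.1, hr.2, ?_⟩⟩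
      simpa using e
    · exact ⟨0, fun h => absurd h hi⟩
  choose r hr using this
  refine ⟨r, fun i hi => ⟨lt_of_le_of_lt (hm.monotone (Nat.zero_le i)) (hr i hi).1,
    lt_of_lt_of_le (hr i hi).2.1 (hm.monotone hi), (hr i hi).2.2⟩, ?_⟩
  have hlt : ∀ i j, i < j → j < n → r i < r j := fun i j hij hj =>
    lt_trans (lt_of_lt_of_le (hr i (by omega)).2.1 (hm.monotone hij)) (hr j hj).1
  intro i hi j hj e
  simp only [Finset.coe_range, mem_Iio] at hi hj
  rcases lt_trichotomy i j with h | h | h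
  · exact absurd e (hlt i j h hj).ne
  · exact h
  · exact absurd e (hlt j i h hi).ne'

noncomputable def om (n : ℕ) : ℂ := Complex.exp ((π / n : ℝ) * I)

noncomputable def pp (n : ℕ) : ℂ[X] :=
  ∑ j ∈ Finset.range (n - 1), monomial (j + 1) (I * om n ^ (j + 1))

noncomputable def hh (n : ℕ) (α : ℝ) : ℂ[X] :=
  C (-I * α) * ((X - 1) * (1 - X ^ n)) + X ^ n - X

lemma om_norm (n : ℕ) : ‖om n‖ = 1 := norm_exp_ofReal_mul_I _

lemma om_pow {n : ℕ} (hn : 1 ≤ n) : om n ^ n = -1 := by
  rw [om, ← Complex.exp_nat_mul, ← exp_pi_mul_I]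
  congr 1
  have : (n : ℂ) ≠ 0 := by exact_mod_cast (show n ≠ 0 by omega)
  push_cast; field_simp

lemma pp_coeff (n j : ℕ) : (pp n).coeff j = if 0 < j ∧ j < n then I * om n ^ j else 0 := by
  rw [pp, finsetSum_coeff]
  simp only [coeff_monomial]
  split_ifs with h
  · rw [Finset.sum_eq_single (j - 1)]
    · rw [if_pos (by omega), show j - 1 + 1 = j by omega]
    · intro b _ hb; rw [if_neg (by omega)]
    · intro hb; exact absurd (Finset.mem_range.mpr (by omega)) hb
  · apply Finset.sum_eq_zero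
    intro b hb
    rw [if_neg (by have := Finset.mem_range.mp hb; omega)]

lemma pp_eval {n : ℕ} (hn : 1 ≤ n) (α : ℝ) (x : ℂ) :
    (om n * x - 1) * (C (α : ℂ) * (X ^ n + 1) + pp n).eval x = I * (hh n α).eval (om n * x) := by
  obtain ⟨m, rfl⟩ : ∃ m, n = m + 1 := ⟨n - 1, by omega⟩
  have g := mul_geom_sum (om (m + 1) * x) m
  have e : (pp (m + 1)).eval x
      = I * (om (m + 1) * x) * ∑ j ∈ Finset.range m, (om (m + 1) * x) ^ j := by
    rw [pp, eval_finsetSum, Finset.mul_sum]
    apply Finset.sum_congr rfl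
    intro j _
    rw [eval_monomial]; ring
  have o := om_pow hn
  have o2 : (om (m + 1) * x) ^ (m + 1) = -x ^ (m + 1) := by rw [mul_pow, o]; ring
  simp only [hh, eval_add, eval_mul, eval_C, eval_pow, eval_X, eval_one, eval_sub, e]
  linear_combination I * (om (m + 1) * x) * g + (-I ^ 2 * α * (om (m + 1) * x - 1)) * o2
    + α * (om (m + 1) * x - 1) * (x ^ (m + 1) + 1) * I_sq

lemma hh_circle (m : ℕ) (α u : ℝ) :
    (hh (m + 1) α).eval (Complex.exp ((2 * u : ℝ) * I)) = 2 * I * Complex.exp (((m + 2) * u : ℝ) * I)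
      * ((Real.sin (m * u) - 2 * α * Real.sin u * Real.sin ((m + 1) * u) : ℝ) : ℂ) := by
  set a := Complex.exp (u * I) with ha
  have ha0 : a ≠ 0 := Complex.exp_ne_zero _
  have k : ∀ j : ℕ, Complex.exp ((j * u : ℝ) * I) = a ^ j := by
    intro j; rw [ha, ← Complex.exp_nat_mul]; congr 1; push_cast; ring
  have s : ∀ j : ℕ, ((Real.sin (j * u) : ℝ) : ℂ) = ((a ^ j)⁻¹ - a ^ j) * I / 2 := by
    intro j
    rw [ofReal_sin, Complex.sin, ← k j, ← Complex.exp_neg, neg_mul]
  have k2 := k 2
  have k3 := k (m + 2)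
  have s1 := s 1
  have s2 := s m
  have s3 := s (m + 1)
  simp only [Nat.cast_ofNat, Nat.cast_add, Nat.cast_one, one_mul] at k2 k3 s1 s3
  rw [k2, k3]
  simp only [ofReal_sub, ofReal_mul, ofReal_ofNat]
  rw [s1, s2, s3]
  simp only [hh, eval_add, eval_mul, eval_C, eval_pow, eval_X, eval_one, eval_sub]
  field_simp
  linear_combination (a ^ 4 * a ^ (2 * m) * (a ^ (2 * m) - 1)
    + I * α * a ^ 2 * a ^ (2 * m) * (1 - a ^ 2) * (1 - a ^ 2 * a ^ (2 * m))) * I_sq


noncomputable def ct (x : ℝ) : ℝ := Real.cos x / Real.sin x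

lemma ct_sub {x y : ℝ} (hx : 0 < Real.sin x) (hy : 0 < Real.sin y) :
    ct x - ct y = Real.sin (y - x) / (Real.sin x * Real.sin y) := by
  unfold ct; rw [Real.sin_sub]; field_simp

lemma ct_lt {x y : ℝ} (h0 : 0 < x) (h1 : x < y) (h2 : y < π) : ct y < ct x := by
  have hx := Real.sin_pos_of_pos_of_lt_pi h0 (by linarith)
  have hy := Real.sin_pos_of_pos_of_lt_pi (by linarith : 0 < y) h2
  have h3 := Real.sin_pos_of_pos_of_lt_pi (by linarith : 0 < y - x) (by linarith)
  have := ct_sub hx hy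
  have : 0 < Real.sin (y - x) / (Real.sin x * Real.sin y) := by positivity
  linarith

lemma ct_gap {N J x : ℝ} (hJ : 0 < J) (hN : 20 * J ^ 2 < N) (h0 : 0 < x)
    (h1 : x + π / (4 * N) ≤ J * π / N) (h2 : J * π / N < π) : ct (x + π / (4 * N)) + 1 < ct x := by
  have hN0 : 0 < N := by nlinarith [sq_nonneg J]
  have hp := Real.pi_pos
  have hh : 0 < π / (4 * N) := by positivity
  have hx := Real.sin_pos_of_pos_of_lt_pi h0 (by linarith)
  have hy := Real.sin_pos_of_pos_of_lt_pi (by linarith : 0 < x + π / (4 * N)) (by linarith)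
  have e := ct_sub hx hy
  rw [add_sub_cancel_left] at e
  have hJN : J < N := by
    rw [div_lt_iff₀ hN0] at h2
    nlinarith
  have s1 : 2 / π * (π / (4 * N)) ≤ Real.sin (π / (4 * N)) := by
    apply Real.mul_le_sin hh.le
    by_contra hc
    push Not at hc
    rw [lt_div_iff₀ (by positivity)] at hc
    have h4 : π / (4 * N) < J * π / N := by linarith
    rw [div_lt_div_iff₀ (by positivity) hN0] at h4
    have h5 : 1 < 4 * J := by
      by_contra h6
      push Not at h6
      nlinarith [mul_pos hp hN0]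
    nlinarith
  have s2 : 2 / π * (π / (4 * N)) = 1 / (2 * N) := by field_simp; ring
  have s3 : Real.sin x ≤ J * π / N := le_trans (Real.sin_le h0.le) (by linarith)
  have s4 : Real.sin (x + π / (4 * N)) ≤ J * π / N := le_trans (Real.sin_le (by linarith)) h1
  have s5 : Real.sin x * Real.sin (x + π / (4 * N)) ≤ (J * π / N) * (J * π / N) :=
    mul_le_mul s3 s4 hy.le (by positivity)
  have s6 : (J * π / N) * (J * π / N) < 1 / (2 * N) := by
    rw [div_mul_div_comm, div_lt_div_iff₀ (by positivity) (by positivity)]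
    have p2 : π * π < 10 := by nlinarith [Real.pi_lt_d2]
    have p3 : J * π * (J * π) * 2 < N := by nlinarith [sq_pos_of_pos hJ]
    nlinarith
  have : 1 < Real.sin (π / (4 * N)) / (Real.sin x * Real.sin (x + π / (4 * N))) := by
    rw [one_lt_div (by positivity)]
    linarith
  linarith

noncomputable def ph (m : ℕ) (α u : ℝ) : ℝ :=
  Real.sin (m * u) - 2 * α * Real.sin u * Real.sin ((m + 1) * u)

lemma ph_eq (m : ℕ) (α : ℝ) (l : ℕ) (θ : ℝ) {u : ℝ} (hu : (m + 1) * u = θ + l * π)
    (hs : 0 < Real.sin u) :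
    ph m α u = (-1) ^ l * Real.sin u * (Real.sin θ * (ct u - 2 * α) - Real.cos θ) := by
  unfold ph ct
  rw [show (m : ℝ) * u = (m + 1) * u - u by ring, Real.sin_sub, hu, Real.sin_add_nat_mul_pi,
    Real.cos_add_nat_mul_pi]
  field_simp
  ring

noncomputable def ww (j i : ℕ) : ℝ :=
  if i < j then i + 1 else if i = j then j + 1 / 4 else if i = j + 1 then j + 3 / 4 else i - 1

lemma ww_lt (j i : ℕ) : ww j i < ww j (i + 1) := by
  unfold ww
  by_cases h1 : i + 1 < j
  · rw [if_pos (by omega), if_pos h1]; push_cast; linarith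
  by_cases h2 : i + 1 = j
  · rw [if_pos (by omega), if_neg h1, if_pos h2, ← h2]; push_cast; linarith
  by_cases h3 : i = j
  · rw [if_neg (by omega), if_pos h3, if_neg h1, if_neg h2, if_pos (by omega)]; linarith
  by_cases h4 : i = j + 1
  · rw [if_neg (by omega), if_neg h3, if_pos h4, if_neg h1, if_neg h2, if_neg (by omega), h4]
    push_cast; linarith
  · rw [if_neg (by omega), if_neg h3, if_neg h4, if_neg h1, if_neg h2, if_neg (by omega)]
    push_cast; linarith

lemma pa_deg {n : ℕ} (hn : 1 ≤ n) {α : ℝ} (hα : α ≠ 0) :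
    (C (α : ℂ) * (X ^ n + 1) + pp n).natDegree ≤ n ∧ C (α : ℂ) * (X ^ n + 1) + pp n ≠ 0 := by
  constructor
  · rw [natDegree_le_iff_coeff_eq_zero]
    intro j hj
    rw [coeff_add, coeff_C_mul, coeff_add, coeff_X_pow, coeff_one, pp_coeff, if_neg (by omega),
      if_neg (by omega), if_neg (by omega)]
    simp
  · intro e
    have := congrArg (coeff · 0) e
    simp only [coeff_add, coeff_C_mul, coeff_X_pow, coeff_one, pp_coeff, coeff_zero] at this
    rw [if_neg (by omega)] at this
    simp [hα] at this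

theorem window (m j : ℕ) (hj : 1 ≤ j) (hm : 20 * (j + 1) ^ 2 < m + 1) :
    0 < ct ((j + 1 / 2) * π / (m + 1)) / 2 ∧ ∀ z : ℂ,
      (C ((ct ((j + 1 / 2) * π / (m + 1)) / 2 : ℝ) : ℂ) * (X ^ (m + 1) + 1) + pp (m + 1)).IsRoot z
        → ‖z‖ = 1 := by
  classical
  set α := ct ((j + 1 / 2) * π / (m + 1)) / 2 with hα
  have hp := Real.pi_pos
  have hmR : 20 * ((j : ℝ) + 1) ^ 2 < m + 1 := by exact_mod_cast hm
  have hj1 : (1 : ℝ) ≤ j := by exact_mod_cast hj
  have hN : (0 : ℝ) < m + 1 := by positivity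
  have hin : ∀ w : ℝ, 0 < w → w < m + 1 → 0 < w * π / (m + 1) ∧ w * π / (m + 1) < π := by
    intro w h0 h1
    refine ⟨by positivity, ?_⟩
    rw [div_lt_iff₀ hN]; nlinarith
  have hsin : ∀ w : ℝ, 0 < w → w < m + 1 → 0 < Real.sin (w * π / (m + 1)) :=
    fun w h0 h1 => Real.sin_pos_of_pos_of_lt_pi (hin w h0 h1).1 (hin w h0 h1).2
  have hα0 : 0 < α := by
    have h1 : ct (π / 2) = 0 := by simp [ct]
    have h2 := ct_lt (x := (j + 1 / 2) * π / (m + 1)) (y := π / 2) (by positivity)
      (by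
        have h3 : 2 * (j : ℝ) + 1 < m + 1 := by nlinarith
        rw [div_lt_div_iff₀ hN two_pos]; nlinarith [mul_pos hp (sub_pos.mpr h3)]) (by linarith)
    rw [hα]; linarith
  refine ⟨hα0, ?_⟩
  have hint : ∀ l : ℕ, 0 < l → l < m + 1 → 0 < (-1) ^ (l + 1) * ph m α (l * π / (m + 1)) := by
    intro l h0 h1
    have h2 := hsin l (by exact_mod_cast h0) (by exact_mod_cast h1)
    rw [ph_eq m α l 0 (by field_simp; ring) h2, Real.sin_zero, Real.cos_zero, pow_succ]
    have : ((-1 : ℝ) ^ l) ^ 2 = 1 := by rw [← pow_mul, mul_comm, pow_mul]; simp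
    nlinarith
  have sq2 : 0 < Real.sqrt 2 / 2 := by positivity
  have hsq : ((-1 : ℝ) ^ j) ^ 2 = 1 := by rw [← pow_mul, mul_comm, pow_mul]; simp
  have hJ2 := (hin (j + 1) (by positivity) (by nlinarith)).2
  obtain ⟨r, hr1, hr2⟩ := alt_roots (ph m α) (by unfold ph; fun_prop)
    (fun i => ww j i * π / (m + 1)) (m + 1)
    (fun i => by
      apply div_lt_div_of_pos_right _ hN
      exact mul_lt_mul_of_pos_right (ww_lt j i) hp)
    (fun i hi => by
      unfold ww
      split_ifs with h1 h2 h3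
      · have := hint (i + 1) (by omega) (by nlinarith)
        rw [pow_succ, pow_succ] at this
        push_cast at this
        linarith
      · have h4 := hsin (j + 1 / 4) (by positivity) (by nlinarith)
        rw [h2, ph_eq m α j (π / 4) (by field_simp; ring) h4, Real.sin_pi_div_four,
          Real.cos_pi_div_four]
        have h5 := ct_gap (N := m + 1) (J := j + 1) (x := (j + 1 / 4) * π / (m + 1)) (by positivity)
          hmR (by positivity) (by
            rw [div_add_div _ _ hN.ne' (by positivity), div_le_div_iff₀ (by positivity) hN]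
            nlinarith [mul_pos hp (mul_pos hN hN)]) hJ2
        rw [show (j + 1 / 4) * π / (m + 1) + π / (4 * (m + 1)) = (j + 1 / 2) * π / (m + 1) by
          field_simp; ring] at h5
        have h6 : 0 < Real.sqrt 2 / 2 * (ct ((j + 1 / 4) * π / (m + 1)) - 2 * α) - Real.sqrt 2 / 2 := by
          rw [hα]; nlinarith
        nlinarith [mul_pos h4 h6]
      · have h4 := hsin (j + 3 / 4) (by positivity) (by nlinarith)
        rw [h3, ph_eq m α j (π - π / 4) (by field_simp; ring) h4, Real.sin_pi_sub, Real.cos_pi_sub,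
          Real.sin_pi_div_four, Real.cos_pi_div_four, pow_succ]
        have h5 := ct_gap (N := m + 1) (J := j + 1) (x := (j + 1 / 2) * π / (m + 1)) (by positivity)
          hmR (by positivity) (by
            rw [div_add_div _ _ hN.ne' (by positivity), div_le_div_iff₀ (by positivity) hN]
            nlinarith [mul_pos hp (mul_pos hN hN)]) hJ2
        rw [show (j + 1 / 2) * π / (m + 1) + π / (4 * (m + 1)) = (j + 3 / 4) * π / (m + 1) by
          field_simp; ring] at h5
        have h6 : 0 < -(Real.sqrt 2 / 2 * (ct ((j + 3 / 4) * π / (m + 1)) - 2 * α)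
            - -(Real.sqrt 2 / 2)) := by
          rw [hα]; nlinarith
        nlinarith [mul_pos h4 h6]
      · obtain ⟨l, rfl⟩ : ∃ l, i = l + 1 := ⟨i - 1, by omega⟩
        have := hint l (by omega) (by omega)
        push_cast
        rw [add_sub_cancel_right]
        exact this)
  have w0 : ww j 0 = 1 := by unfold ww; rw [if_pos (by omega)]; simp
  have wn : ww j (m + 1) = m := by
    unfold ww
    rw [if_neg (by nlinarith), if_neg (by nlinarith), if_neg (by nlinarith)]; push_cast; ring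
  have hr3 : ∀ i < m + 1, 0 < r i ∧ r i < π := by
    intro i hi
    obtain ⟨a1, a2, -⟩ := hr1 i hi
    simp only [w0, wn] at a1 a2
    have hm1 : (0 : ℝ) < m := by nlinarith
    exact ⟨lt_trans (by positivity) a1, lt_trans a2 (hin m hm1 (by linarith)).2⟩
  have hom : om (m + 1) ≠ 0 := Complex.exp_ne_zero _
  have einj : ∀ a b : ℝ, 0 ≤ a → a < π → 0 ≤ b → b < π →
      Complex.exp ((2 * a : ℝ) * I) = Complex.exp ((2 * b : ℝ) * I) → a = b := by
    intro a b a1 a2 b1 b2 e
    obtain ⟨k, hk⟩ := Complex.exp_eq_exp_iff_exists_int.mp e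
    have h1 := congrArg Complex.im hk
    simp at h1
    have h2 : (k : ℝ) < 1 := by nlinarith
    have h3 : (-1 : ℝ) < k := by nlinarith
    have h4 : k = 0 := by
      have : k < 1 := by exact_mod_cast h2
      have : -1 < k := by exact_mod_cast h3
      omega
    rw [h4] at h1
    simp at h1
    exact h1
  obtain ⟨d1, d2⟩ := pa_deg (n := m + 1) (by omega) hα0.ne'
  have hroots := roots_eq_of_natDegree_le_card_of_ne_zero
    (S := (Finset.range (m + 1)).image fun i => Complex.exp ((2 * r i : ℝ) * I) / om (m + 1))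
    (p := C (α : ℂ) * (X ^ (m + 1) + 1) + pp (m + 1))
    (by
      intro x hx
      obtain ⟨i, hi, rfl⟩ := Finset.mem_image.mp hx
      have hi' := Finset.mem_range.mp hi
      have e := pp_eval (n := m + 1) (by omega) α (Complex.exp ((2 * r i : ℝ) * I) / om (m + 1))
      rw [mul_div_cancel₀ _ hom, hh_circle] at e
      have e2 := (hr1 i hi').2.2
      unfold ph at e2
      rw [e2] at e
      simp only [ofReal_zero, mul_zero] at e
      refine (mul_eq_zero.mp e).resolve_left ?_
      intro e3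
      have := einj (r i) 0 (hr3 i hi').1.le (hr3 i hi').2 le_rfl hp (by simpa [sub_eq_zero] using e3)
      exact (hr3 i hi').1.ne' this)
    (by
      rw [Finset.card_image_of_injOn, Finset.card_range]
      · exact d1
      · intro a ha b hb e
        have ha' : a < m + 1 := by simpa using ha
        have hb' : b < m + 1 := by simpa using hb
        apply hr2 ha hb
        exact einj _ _ (hr3 a ha').1.le (hr3 a ha').2 (hr3 b hb').1.le (hr3 b hb').2
          ((div_left_inj' hom).mp e)) d2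
  intro z hz
  have : z ∈ (C (α : ℂ) * (X ^ (m + 1) + 1) + pp (m + 1)).roots := (mem_roots d2).mpr hz
  rw [hroots] at this
  obtain ⟨i, -, rfl⟩ := Finset.mem_image.mp (Finset.mem_val.mp this)
  rw [norm_div, om_norm, norm_exp_ofReal_mul_I, div_one]

theorem gap (m j : ℕ) (hj : 1 ≤ j) (hm : 20 * (j + 1) ^ 2 < m + 1) :
    ¬ ∀ z : ℂ, (C ((ct (j * π / (m + 1)) / 2 : ℝ) : ℂ) * (X ^ (m + 1) + 1) + pp (m + 1)).IsRoot z
        → ‖z‖ = 1 := by
  intro H
  obtain ⟨k, rfl⟩ : ∃ k, m = k + 1 := ⟨m - 1, by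
    have : 1 ≤ m := by nlinarith
    omega⟩
  set u : ℝ := j * π / ((k + 1 : ℕ) + 1) with hu
  set β := ct u / 2 with hβ
  have hp := Real.pi_pos
  have hmR : 20 * ((j : ℝ) + 1) ^ 2 < (k + 1 : ℕ) + 1 := by exact_mod_cast hm
  have hj1 : (1 : ℝ) ≤ j := by exact_mod_cast hj
  have hN : (0 : ℝ) < (k + 1 : ℕ) + 1 := by positivity
  have hu0 : 0 < u := by positivity
  have hs : 0 < Real.sin u := by
    apply Real.sin_pos_of_pos_of_lt_pi hu0
    have h3 : (j : ℝ) < (k + 1 : ℕ) + 1 := by nlinarith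
    rw [hu, div_lt_iff₀ hN]; nlinarith [mul_pos hp (sub_pos.mpr h3)]
  have hom : om (k + 1 + 1) ≠ 0 := Complex.exp_ne_zero _
  have hr : ∀ y, (hh (k + 1 + 1) β).IsRoot y → ‖y‖ = 1 := by
    intro y hy
    have e := pp_eval (n := k + 1 + 1) (by omega) β (y / om (k + 1 + 1))
    rw [mul_div_cancel₀ _ hom, hy.eq_zero, mul_zero] at e
    rcases mul_eq_zero.mp e with h | h
    · rw [sub_eq_zero.mp h, norm_one]
    · have := H _ h
      rwa [norm_div, om_norm, div_one] at this
  set a := Complex.exp (u * I) with ha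
  have ha0 : a ≠ 0 := Complex.exp_ne_zero _
  have hsin : ((Real.sin u : ℝ) : ℂ) = (a⁻¹ - a) * I / 2 := by
    rw [ofReal_sin, Complex.sin, ← Complex.exp_neg, neg_mul]
  have hcos : ((Real.cos u : ℝ) : ℂ) = (a + a⁻¹) / 2 := by
    rw [ofReal_cos, Complex.cos, ← Complex.exp_neg, neg_mul]
  have hsc : ((Real.sin u : ℝ) : ℂ) ≠ 0 := ofReal_ne_zero.mpr hs.ne'
  have h1 : 1 - a ^ 2 ≠ 0 := by
    intro e
    apply hsc
    rw [hsin]
    field_simp
    linear_combination I * e
  have h1' : a ^ 2 - 1 ≠ 0 := fun e => h1 (by linear_combination -e)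
  have hpow : (a ^ 2) ^ (k + 2) = 1 := by
    rw [ha, ← Complex.exp_nat_mul, ← Complex.exp_nat_mul, ← Complex.exp_nat_mul_two_pi_mul_I j]
    congr 1
    have : ((k : ℂ) + 1 + 1) ≠ 0 := by exact_mod_cast (show k + 1 + 1 ≠ 0 by omega)
    rw [hu]; push_cast; field_simp; ring
  have hb : -I * (β : ℂ) = (a ^ 2 + 1) / (2 * (a ^ 2 - 1)) := by
    rw [hβ, ct]
    push_cast [-ofReal_sin, -ofReal_cos]
    rw [hsin, hcos]
    have : a⁻¹ - a ≠ 0 := by
      intro e; apply hsc; rw [hsin, e]; simp
    field_simp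
    ring
  have hs2 : ((Real.sin u : ℝ) : ℂ) ^ 2 = -(1 - a ^ 2) ^ 2 / (4 * a ^ 2) := by
    rw [hsin, div_pow, mul_pow, I_sq]; field_simp; ring
  have hz : ‖a ^ 2‖ = 1 := by rw [norm_pow, ha, norm_exp_ofReal_mul_I, one_pow]
  generalize a ^ 2 = z at h1 h1' hpow hb hs2 hz
  have hz0 : z ≠ 0 := by rintro rfl; simp at hz
  have v0 : (hh (k + 1 + 1) β).eval z = 1 - z := by
    simp only [hh, eval_add, eval_mul, eval_C, eval_pow, eval_X, eval_one, eval_sub]
    rw [hpow]; ring
  have v1 : z * (hh (k + 1 + 1) β).derivative.eval z = (k + 2) * (1 - z) / 2 - z := by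
    simp only [hh, derivative_add, derivative_sub, derivative_mul, derivative_C, derivative_X,
      derivative_X_pow_succ, derivative_one, eval_add, eval_mul, eval_C, eval_pow, eval_X, eval_one,
      eval_sub, eval_zero, hb]
    push_cast
    field_simp
    linear_combination (-z * (z + 1) - (z + 1) * (z - 1) * (k + 2) + 2 * (z - 1) * (k + 2)) * hpow
  have v2 : z ^ 2 * (hh (k + 1 + 1) β).derivative.derivative.eval z
      = (k + 2) ^ 2 * (1 - z) / 2 - z - (k + 2) * z * (z + 1) / (z - 1)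
        - ((k + 2) * (1 - z) / 2 - z) := by
    simp only [hh, derivative_add, derivative_sub, derivative_mul, derivative_C, derivative_X,
      derivative_X_pow_succ, derivative_one, derivative_zero, eval_add, eval_mul, eval_C, eval_pow,
      eval_X, eval_one, eval_sub, eval_zero, hb]
    push_cast
    field_simp
    linear_combination ((z + 1) * (-2 * (k + 2) * z - (z - 1) * (k + 1) * (k + 2))
      + 2 * (z - 1) * (k + 1) * (k + 2)) * hpow
  have L := laguerre _ hr hz (by rw [v0]; exact h1)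
  have e : z * ((hh (k + 1 + 1) β).derivative.eval z / (hh (k + 1 + 1) β).eval z) + z ^ 2 *
      ((hh (k + 1 + 1) β).derivative.derivative.eval z / (hh (k + 1 + 1) β).eval z
      - ((hh (k + 1 + 1) β).derivative.eval z / (hh (k + 1 + 1) β).eval z) ^ 2)
      = (((k + 2) ^ 2 / 4 - (2 * k + 3) / (4 * Real.sin u ^ 2) : ℝ) : ℂ) := by
    have : z * ((hh (k + 1 + 1) β).derivative.eval z / (hh (k + 1 + 1) β).eval z) + z ^ 2 *
      ((hh (k + 1 + 1) β).derivative.derivative.eval z / (hh (k + 1 + 1) β).eval z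
      - ((hh (k + 1 + 1) β).derivative.eval z / (hh (k + 1 + 1) β).eval z) ^ 2)
      = (z * (hh (k + 1 + 1) β).derivative.eval z) / (hh (k + 1 + 1) β).eval z
        + (z ^ 2 * (hh (k + 1 + 1) β).derivative.derivative.eval z) / (hh (k + 1 + 1) β).eval z
        - ((z * (hh (k + 1 + 1) β).derivative.eval z) / (hh (k + 1 + 1) β).eval z) ^ 2 := by ring
    rw [this, v0, v1, v2]
    push_cast [-ofReal_sin]
    rw [hs2]
    field_simp
    ring
  rw [e, ofReal_re] at L
  have s1 : Real.sin u ≤ u := Real.sin_le hu0.le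
  have s2 : u * ((k : ℝ) + 2) = j * π := by rw [hu]; push_cast; field_simp; ring
  have s3 : (2 * (k : ℝ) + 3) ≤ (k + 2) ^ 2 * Real.sin u ^ 2 := by
    have : (2 * (k : ℝ) + 3) / (4 * Real.sin u ^ 2) ≤ (k + 2) ^ 2 / 4 := by linarith
    rw [div_le_div_iff₀ (by positivity) (by norm_num)] at this
    linarith
  have s4 : Real.sin u ^ 2 ≤ u ^ 2 := by nlinarith
  have s5 : ((k : ℝ) + 2) ^ 2 * Real.sin u ^ 2 ≤ (j * π) ^ 2 := by
    rw [← s2]; nlinarith [sq_nonneg ((k : ℝ) + 2)]
  have p2 : π ^ 2 < 10 := by nlinarith [Real.pi_lt_d2]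
  push_cast at hmR
  nlinarith

end Pool.Agent.Lib.H29.Darga
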