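import Mathlib

namespace Pool.Agent.Lib.H29.Discrep

open Finset MeasureTheory
open Classical

/-- grid point, with the top rows compressed to the left -/
noncomputable def pt (r a b : ℕ) : Fin 2 → ℝ :=
  ![if b + r < r ^ 2 then (a : ℝ) / (r ^ 2 : ℕ) else (a : ℝ) / (4 * (r ^ 2 : ℕ)),
    (b : ℝ) / (r ^ 2 : ℕ)]

/-- the point family -/
noncomputable def PP (r : ℕ) : Fin (r ^ 2 * r ^ 2) → Fin 2 → ℝ :=
  fun i => pt r (finProdFinEquiv.symm i).1 (finProdFinEquiv.symm i).2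

lemma PP_mem (r : ℕ) (hr : 1 ≤ r) (i : Fin (r ^ 2 * r ^ 2)) (j : Fin 2) :
    0 ≤ PP r i j ∧ PP r i j < 1 := by
  have hm : (0 : ℝ) < (r ^ 2 : ℕ) := by positivity
  have ha : (((finProdFinEquiv.symm i).1 : ℕ) : ℝ) < (r ^ 2 : ℕ) := by
    exact_mod_cast (finProdFinEquiv.symm i).1.isLt
  have hb : (((finProdFinEquiv.symm i).2 : ℕ) : ℝ) < (r ^ 2 : ℕ) := by
    exact_mod_cast (finProdFinEquiv.symm i).2.isLt
  unfold PP pt
  fin_cases j
  · simp only [Fin.zero_eta, Matrix.cons_val_zero]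
    split_ifs
    · exact ⟨by positivity, (div_lt_one hm).2 ha⟩
    · exact ⟨by positivity, (div_lt_one (by positivity)).2 (by linarith)⟩
  · simp only [Fin.mk_one, Matrix.cons_val_one, Matrix.cons_val_zero]
    exact ⟨by positivity, (div_lt_one hm).2 hb⟩

lemma card_eq (r : ℕ) (q : (Fin 2 → ℝ) → Prop) [DecidablePred q] (s : Finset (Fin (r ^ 2 * r ^ 2)))
    (hs : ∀ i, i ∈ s ↔ q (PP r i)) :
    (s.card : ℝ) = ∑ b ∈ range (r ^ 2), ∑ a ∈ range (r ^ 2), if q (pt r a b) then 1 else 0 := by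
  have h1 : s = univ.filter (fun i => q (PP r i)) := by
    ext i; simp [hs]
  rw [h1, Finset.card_filter]
  push_cast
  rw [← Equiv.sum_comp finProdFinEquiv, Fintype.sum_prod_type, Finset.sum_comm,
    ← Fin.sum_univ_eq_sum_range
      (fun b => ∑ a ∈ range (r ^ 2), if q (pt r a b) then (1 : ℝ) else 0)]
  refine sum_congr rfl (fun b _ => ?_)
  rw [← Fin.sum_univ_eq_sum_range (fun a => if q (pt r a b) then (1 : ℝ) else 0)]
  refine sum_congr rfl (fun a _ => ?_)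
  simp [PP]

/-- one-dimensional count -/
noncomputable def cnt (m : ℕ) (u v : ℝ) : ℝ :=
  ∑ a ∈ range m, if u ≤ (a : ℝ) / m ∧ (a : ℝ) / m < v then 1 else 0

lemma cnt_nonneg (m : ℕ) (u v : ℝ) : 0 ≤ cnt m u v :=
  sum_nonneg (fun _ _ => by split_ifs <;> norm_num)

lemma sum_ite_le (m : ℕ) (q : ℕ → Prop) :
    ∑ a ∈ range m, (if q a then (1 : ℝ) else 0) ≤ m := by
  calc ∑ a ∈ range m, (if q a then (1 : ℝ) else 0) ≤ ∑ a ∈ range m, (1 : ℝ) :=
        sum_le_sum (fun _ _ => by split_ifs <;> norm_num)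
    _ = m := by simp

lemma cnt_le (m : ℕ) (u v : ℝ) : cnt m u v ≤ m := by
  unfold cnt
  convert sum_ite_le m (fun a => u ≤ (a : ℝ) / m ∧ (a : ℝ) / m < v)

lemma cnt_approx (m : ℕ) (hm : 1 ≤ m) (u v : ℝ) (hu : 0 ≤ u) (huv : u ≤ v) (hv : v ≤ 1) :
    |cnt m u v - m * (v - u)| ≤ 1 := by
  have hm' : (0 : ℝ) < m := by positivity
  have h1 : cnt m u v = ((Finset.Ico ⌈m * u⌉₊ ⌈m * v⌉₊).card : ℝ) := by
    unfold cnt
    rw [← Finset.sum_filter]
    simp only [sum_const, nsmul_eq_mul, mul_one]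
    congr 2
    ext a
    simp only [mem_filter, mem_range, mem_Ico, Nat.ceil_le, Nat.lt_ceil, le_div_iff₀ hm',
      div_lt_iff₀ hm']
    constructor
    · rintro ⟨_, h2, h3⟩
      exact ⟨by linarith, by linarith⟩
    · rintro ⟨h2, h3⟩
      refine ⟨?_, by linarith, by linarith⟩
      have : (a : ℝ) < m := by nlinarith
      exact_mod_cast this
  have h2 : ⌈m * u⌉₊ ≤ ⌈m * v⌉₊ := Nat.ceil_mono (by nlinarith)
  rw [h1, Nat.card_Ico, Nat.cast_sub h2]
  have a1 := Nat.le_ceil (m * u)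
  have a2 := Nat.le_ceil (m * v)
  have a3 := Nat.ceil_lt_add_one (a := m * u) (by positivity)
  have a4 := Nat.ceil_lt_add_one (a := m * v) (mul_nonneg hm'.le (hu.trans huv))
  rw [abs_le]
  constructor <;> nlinarith

lemma top_count (r : ℕ) (hr : 1 ≤ r) :
    ∑ b ∈ range (r ^ 2), (if b + r < r ^ 2 then (0 : ℝ) else 1) ≤ r := by
  have hle : r ≤ r ^ 2 := by nlinarith
  have h1 : ∑ b ∈ range (r ^ 2), (if b + r < r ^ 2 then (0 : ℝ) else 1) =
      ((Finset.Ico (r ^ 2 - r) (r ^ 2)).card : ℝ) := by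
    have : ∀ b, (if b + r < r ^ 2 then (0 : ℝ) else 1) = if ¬ (b + r < r ^ 2) then 1 else 0 := by
      intro b; split_ifs <;> rfl
    simp only [this]
    rw [← Finset.sum_filter]
    simp only [sum_const, nsmul_eq_mul, mul_one]
    congr 2
    ext a
    simp only [mem_filter, mem_range, mem_Ico]
    omega
  rw [h1, Nat.card_Ico]
  have : r ^ 2 - (r ^ 2 - r) = r := by omega
  rw [this]

lemma extreme_bound (r : ℕ) (hr : 1 ≤ r) (x y : Fin 2 → ℝ) (hx : 0 ≤ x) (hxy : x ≤ y) (hy : y ≤ 1)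
    (s : Finset (Fin (r ^ 2 * r ^ 2))) (hs : ∀ i, i ∈ s ↔ ∀ j, x j ≤ PP r i j ∧ PP r i j < y j) :
    |(s.card : ℝ) - ((r ^ 2 * r ^ 2 : ℕ) : ℝ) * ∏ j, (y j - x j)| ≤
      2 * (r : ℝ) ^ 2 + Set.indicator (Set.Icc ![0, 1 - 1 / (r : ℝ)] ![1, 1])
        (fun _ => (r : ℝ) ^ 3) y := by
  have hm1 : 1 ≤ r ^ 2 := Nat.one_le_pow _ _ hr
  have hr' : (0 : ℝ) < r := by positivity
  have hm' : (0 : ℝ) < (r ^ 2 : ℕ) := by positivity
  rw [card_eq r (fun z => ∀ j, x j ≤ z j ∧ z j < y j) s hs]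
  set m := r ^ 2 with hm
  have hmr : (m : ℝ) = (r : ℝ) ^ 2 := by rw [hm]; push_cast; ring
  have c1 := cnt_approx m hm1 (x 0) (y 0) (hx 0) (hxy 0) (hy 0)
  have c2 := cnt_approx m hm1 (x 1) (y 1) (hx 1) (hxy 1) (hy 1)
  have hI : ∀ b ∈ range m,
      |(∑ a ∈ range m, if (∀ j, x j ≤ pt r a b j ∧ pt r a b j < y j) then (1 : ℝ) else 0) -
        (if x 1 ≤ (b : ℝ) / m ∧ (b : ℝ) / m < y 1 then (1 : ℝ) else 0) * cnt m (x 0) (y 0)| ≤
      (if b + r < m then (0 : ℝ) else 1) *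
        Set.indicator (Set.Icc ![0, 1 - 1 / (r : ℝ)] ![1, 1]) (fun _ => (r : ℝ) ^ 2) y := by
    intro b _
    by_cases hb : x 1 ≤ (b : ℝ) / m ∧ (b : ℝ) / m < y 1
    · rw [if_pos hb, one_mul]
      by_cases hbr : b + r < m
      · rw [if_pos hbr, zero_mul]
        apply le_of_eq
        rw [abs_eq_zero, sub_eq_zero]
        unfold cnt
        refine sum_congr rfl (fun a _ => ?_)
        congr 1
        simp only [Fin.forall_fin_two, pt, ← hm, if_pos hbr, Matrix.cons_val_zero,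
          Matrix.cons_val_one, hb, and_true]
      · rw [if_neg hbr, one_mul]
        have hy' : y ∈ Set.Icc ![0, 1 - 1 / (r : ℝ)] ![1, 1] := by
          constructor
          · intro j
            fin_cases j
            · exact (hx 0).trans (hxy 0)
            · have h3 : (m : ℝ) ≤ b + r := by exact_mod_cast not_lt.1 hbr
              have h4 : 1 - 1 / (r : ℝ) ≤ (b : ℝ) / m := by
                rw [le_div_iff₀ hm', hmr]
                have : (1 - 1 / (r : ℝ)) * r ^ 2 = r ^ 2 - r := by field_simp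
                rw [this]; linarith
              exact h4.trans hb.2.le
          · intro j
            fin_cases j
            · exact hy 0
            · exact hy 1
        rw [Set.indicator_of_mem hy', ← hmr]
        have e1 := sum_ite_le m (fun a => ∀ j, x j ≤ pt r a b j ∧ pt r a b j < y j)
        have e2 : 0 ≤ ∑ a ∈ range m,
            if (∀ j, x j ≤ pt r a b j ∧ pt r a b j < y j) then (1 : ℝ) else 0 :=
          sum_nonneg (fun _ _ => by split_ifs <;> norm_num)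
        have e3 := cnt_le m (x 0) (y 0)
        have e4 := cnt_nonneg m (x 0) (y 0)
        rw [abs_le]
        constructor
        · linarith
        · have e1' : (∑ a ∈ range m,
            if (∀ j, x j ≤ pt r a b j ∧ pt r a b j < y j) then (1 : ℝ) else 0) ≤ m := by
            convert e1
          linarith
    · rw [if_neg hb, zero_mul, sub_zero]
      have : (∑ a ∈ range m,
          if (∀ j, x j ≤ pt r a b j ∧ pt r a b j < y j) then (1 : ℝ) else 0) = 0 := by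
        refine sum_eq_zero (fun a _ => if_neg (fun h => hb ?_))
        have := h 1
        simpa [pt, ← hm] using this
      rw [this, abs_zero]
      refine mul_nonneg (by split_ifs <;> norm_num) (Set.indicator_nonneg (fun _ _ => by positivity) _)
  have hS := (abs_sum_le_sum_abs _ _).trans (sum_le_sum hI)
  rw [sum_sub_distrib, ← sum_mul, ← sum_mul] at hS
  have hT := top_count r hr
  rw [← hm] at hT
  have hI0 : 0 ≤ Set.indicator (Set.Icc ![0, 1 - 1 / (r : ℝ)] ![1, 1]) (fun _ => (r : ℝ) ^ 2) y :=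
    Set.indicator_nonneg (fun _ _ => by positivity) _
  have hI3 : Set.indicator (Set.Icc ![0, 1 - 1 / (r : ℝ)] ![1, 1]) (fun _ => (r : ℝ) ^ 3) y =
      r * Set.indicator (Set.Icc ![0, 1 - 1 / (r : ℝ)] ![1, 1]) (fun _ => (r : ℝ) ^ 2) y := by
    by_cases h : y ∈ Set.Icc ![0, 1 - 1 / (r : ℝ)] ![1, 1]
    · rw [Set.indicator_of_mem h, Set.indicator_of_mem h]; ring
    · rw [Set.indicator_of_notMem h, Set.indicator_of_notMem h]; ring
  have hS2 := hS.trans (mul_le_mul_of_nonneg_right hT hI0)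
  change |_ - cnt m (x 1) (y 1) * cnt m (x 0) (y 0)| ≤ _ at hS2
  rw [hI3, Fin.prod_univ_two, Nat.cast_mul]
  have e3 := cnt_le m (x 1) (y 1)
  have e4 := cnt_nonneg m (x 1) (y 1)
  have l0 : 0 ≤ y 0 - x 0 := sub_nonneg.2 (hxy 0)
  have l1 : y 0 - x 0 ≤ 1 := by have := hx 0; have := hy 0; simp at *; linarith
  have key : |cnt m (x 1) (y 1) * cnt m (x 0) (y 0) - m * m * ((y 0 - x 0) * (y 1 - x 1))| ≤
      2 * m := by
    have : cnt m (x 1) (y 1) * cnt m (x 0) (y 0) - m * m * ((y 0 - x 0) * (y 1 - x 1)) =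
        cnt m (x 1) (y 1) * (cnt m (x 0) (y 0) - m * (y 0 - x 0)) +
          m * (y 0 - x 0) * (cnt m (x 1) (y 1) - m * (y 1 - x 1)) := by ring
    rw [this]
    refine (abs_add_le _ _).trans ?_
    rw [abs_mul, abs_mul (m * (y 0 - x 0)), abs_of_nonneg e4,
      abs_of_nonneg (mul_nonneg hm'.le l0)]
    have t1 := mul_le_mul e3 c1 (abs_nonneg _) hm'.le
    have t2 : (m : ℝ) * (y 0 - x 0) ≤ m := by nlinarith
    have t3 := mul_le_mul t2 c2 (abs_nonneg _) hm'.le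
    linarith
  rw [abs_le] at *
  constructor <;> linarith [hS2.1, hS2.2, key.1, key.2, hmr]

lemma periodic_bound (r : ℕ) (hr : 4 ≤ r) (x y : Fin 2 → ℝ)
    (hx : x ∈ Set.Icc ![(1 / 4 : ℝ), 1 / 2] ![1 / 2, 3 / 4])
    (hy : y ∈ Set.Icc ![(3 / 4 : ℝ), 0] ![1, 1 / 4])
    (s : Finset (Fin (r ^ 2 * r ^ 2)))
    (hs : ∀ i, i ∈ s ↔ (x 0 ≤ PP r i 0 ∧ PP r i 0 < y 0) ∧ (PP r i 1 < y 1 ∨ x 1 ≤ PP r i 1)) :
    (r : ℝ) ^ 2 * (r - 6) / 4 ≤
      |(s.card : ℝ) - ((r ^ 2 * r ^ 2 : ℕ) : ℝ) * ((y 0 - x 0) * (1 - x 1 + y 1))| := by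
  have hm1 : 1 ≤ r ^ 2 := Nat.one_le_pow _ _ (by omega)
  have hr4 : (4 : ℝ) ≤ r := by exact_mod_cast hr
  have hr' : (0 : ℝ) < r := by linarith
  have hm' : (0 : ℝ) < (r ^ 2 : ℕ) := by positivity
  rw [card_eq r (fun z => (x 0 ≤ z 0 ∧ z 0 < y 0) ∧ (z 1 < y 1 ∨ x 1 ≤ z 1)) s hs]
  set m := r ^ 2 with hm
  have hmr : (m : ℝ) = (r : ℝ) ^ 2 := by rw [hm]; push_cast; ring
  have x0 : 1 / 4 ≤ x 0 := hx.1 0
  have x0' : x 0 ≤ 1 / 2 := hx.2 0
  have x1 : 1 / 2 ≤ x 1 := hx.1 1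
  have x1' : x 1 ≤ 3 / 4 := hx.2 1
  have y0 : 3 / 4 ≤ y 0 := hy.1 0
  have y0' : y 0 ≤ 1 := hy.2 0
  have y1 : 0 ≤ y 1 := hy.1 1
  have y1' : y 1 ≤ 1 / 4 := hy.2 1
  have hinv : 1 / (r : ℝ) ≤ 1 / 4 := one_div_le_one_div_of_le (by norm_num) hr4
  have hinv0 : 0 < 1 / (r : ℝ) := by positivity
  have c1 := cnt_approx m hm1 (x 0) (y 0) (by linarith) (by linarith) y0'
  have c2 := cnt_approx m hm1 0 (y 1) le_rfl y1 (by linarith)
  have c3 := cnt_approx m hm1 (x 1) (1 - 1 / r) (by linarith) (by linarith) (by linarith)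
  have hI : ∀ b ∈ range m,
      (∑ a ∈ range m, if ((x 0 ≤ pt r a b 0 ∧ pt r a b 0 < y 0) ∧
        (pt r a b 1 < y 1 ∨ x 1 ≤ pt r a b 1)) then (1 : ℝ) else 0) ≤
      ((if 0 ≤ (b : ℝ) / m ∧ (b : ℝ) / m < y 1 then (1 : ℝ) else 0) +
        (if x 1 ≤ (b : ℝ) / m ∧ (b : ℝ) / m < 1 - 1 / r then (1 : ℝ) else 0)) *
          cnt m (x 0) (y 0) := by
    intro b _
    unfold cnt
    rw [mul_sum]
    refine sum_le_sum (fun a ha => ?_)
    have ha' : (a : ℝ) < m := by exact_mod_cast mem_range.1 ha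
    by_cases h : ((x 0 ≤ pt r a b 0 ∧ pt r a b 0 < y 0) ∧ (pt r a b 1 < y 1 ∨ x 1 ≤ pt r a b 1))
    · rw [if_pos h]
      by_cases hbr : b + r < m
      · simp only [pt, ← hm, if_pos hbr, Matrix.cons_val_zero, Matrix.cons_val_one] at h
        rw [if_pos h.1, mul_one]
        have h3 : (b : ℝ) + r < m := by exact_mod_cast hbr
        have h4 : (b : ℝ) / m < 1 - 1 / (r : ℝ) := by
          rw [div_lt_iff₀ hm', hmr]
          have : (1 - 1 / (r : ℝ)) * r ^ 2 = r ^ 2 - r := by field_simp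
          rw [this]; linarith
        rcases h.2 with h5 | h5
        · rw [if_pos ⟨by positivity, h5⟩]
          split_ifs <;> norm_num
        · rw [if_pos (⟨h5, h4⟩ : x 1 ≤ (b : ℝ) / m ∧ (b : ℝ) / m < 1 - 1 / r)]
          split_ifs <;> norm_num
      · exfalso
        simp only [pt, ← hm, if_neg hbr, Matrix.cons_val_zero] at h
        have h6 : (a : ℝ) / (4 * m) < 1 / 4 := by
          rw [div_lt_iff₀ (by positivity)]; linarith
        linarith [h.1.1]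
    · rw [if_neg h]
      refine mul_nonneg (add_nonneg ?_ ?_) ?_ <;> split_ifs <;> norm_num
  have hS := sum_le_sum hI
  rw [← sum_mul, sum_add_distrib] at hS
  change _ ≤ (cnt m 0 (y 1) + cnt m (x 1) (1 - 1 / r)) * cnt m (x 0) (y 0) at hS
  have e1 := cnt_nonneg m 0 (y 1)
  have e2 := cnt_nonneg m (x 1) (1 - 1 / r)
  have e3 := cnt_nonneg m (x 0) (y 0)
  have hmr' : (m : ℝ) * (1 / r) = r := by rw [hmr]; field_simp
  rw [abs_le] at c1 c2 c3
  have f1 : cnt m 0 (y 1) + cnt m (x 1) (1 - 1 / r) ≤ m * (1 - x 1 + y 1) + 2 - r := by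
    nlinarith [c2.2, c3.2]
  have f2 : cnt m (x 0) (y 0) ≤ m * (y 0 - x 0) + 1 := by linarith [c1.2]
  have f3 := mul_le_mul f1 f2 e3 (by linarith)
  refine le_trans ?_ (neg_le_abs _)
  rw [Nat.cast_mul, ← hmr]
  have f4 : (m : ℝ) * (1 / 4) ≤ m * (y 0 - x 0) := mul_le_mul_of_nonneg_left (by linarith) hm'.le
  have f5 : (m : ℝ) * (1 - x 1 + y 1) ≤ m * 1 := mul_le_mul_of_nonneg_left (by linarith) hm'.le
  have f6 : ((r : ℝ) - 2) * (m * (1 / 4)) ≤ (r - 2) * (m * (y 0 - x 0)) :=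
    mul_le_mul_of_nonneg_left f4 (by linarith)
  linarith

lemma vol_unit : (volume (Set.Icc (0 : Fin 2 → ℝ) 1)) = 1 := by
  rw [Real.volume_Icc_pi]; simp

instance : IsProbabilityMeasure (volume.restrict (Set.Icc (0 : Fin 2 → ℝ) 1)) :=
  ⟨by simp [vol_unit]⟩

lemma int_ind (a b : Fin 2 → ℝ) (ha : 0 ≤ a) (hab : a ≤ b) (hb : b ≤ 1) (c : ℝ) :
    ∫ y in Set.Icc (0 : Fin 2 → ℝ) 1, Set.indicator (Set.Icc a b) (fun _ => c) y =
      (b 0 - a 0) * (b 1 - a 1) * c := by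
  rw [integral_indicator measurableSet_Icc, Measure.restrict_restrict measurableSet_Icc,
    Set.inter_eq_left.2 (Set.Icc_subset_Icc ha hb), setIntegral_const, smul_eq_mul,
    Measure.real, Real.volume_Icc_pi_toReal hab, Fin.prod_univ_two]

lemma upper_int (r : ℕ) (hr : 1 ≤ r) (f : (Fin 2 → ℝ) → ℝ) (h0 : ∀ y, 0 ≤ f y)
    (hf : ∀ y ∈ Set.Icc (0 : Fin 2 → ℝ) 1, f y ≤ 2 * (r : ℝ) ^ 2 +
      Set.indicator (Set.Icc ![0, 1 - 1 / (r : ℝ)] ![1, 1]) (fun _ => (r : ℝ) ^ 3) y) :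
    ∫ y in Set.Icc (0 : Fin 2 → ℝ) 1, f y ≤ 3 * (r : ℝ) ^ 2 := by
  have hr' : (1 : ℝ) ≤ r := by exact_mod_cast hr
  have hinv : 1 / (r : ℝ) ≤ 1 := by rw [div_le_one (by linarith)]; exact hr'
  have hinv0 : 0 < 1 / (r : ℝ) := by positivity
  have hi : Integrable (fun y => Set.indicator (Set.Icc ![0, 1 - 1 / (r : ℝ)] ![1, 1])
      (fun _ => (r : ℝ) ^ 3) y) (volume.restrict (Set.Icc (0 : Fin 2 → ℝ) 1)) :=
    (integrable_const _).indicator measurableSet_Icc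
  refine (integral_mono_of_nonneg (Filter.Eventually.of_forall h0)
    ((integrable_const (2 * (r : ℝ) ^ 2)).add hi)
    ((ae_restrict_iff' measurableSet_Icc).2 (Filter.Eventually.of_forall hf))).trans ?_
  simp only [Pi.add_apply]
  rw [integral_add (integrable_const _) hi, int_ind]
  · simp only [integral_const, probReal_univ, smul_eq_mul, one_mul, Matrix.cons_val_zero,
      Matrix.cons_val_one]
    apply le_of_eq
    field_simp
    ring
  · intro j; fin_cases j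
    · simp
    · simp only [Fin.mk_one, Matrix.cons_val_one, Matrix.cons_val_zero, Pi.zero_apply]; linarith
  · intro j; fin_cases j
    · simp
    · simp only [Fin.mk_one, Matrix.cons_val_one, Matrix.cons_val_zero]; linarith
  · intro j; fin_cases j <;> simp

lemma lower_int (f : (Fin 2 → ℝ) → (Fin 2 → ℝ) → ℝ) (hf : Measurable (Function.uncurry f))
    (B : ℝ) (h0 : ∀ x y, 0 ≤ f x y)
    (hB : ∀ x ∈ Set.Icc (0 : Fin 2 → ℝ) 1, ∀ y ∈ Set.Icc (0 : Fin 2 → ℝ) 1, f x y ≤ B)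
    (c : ℝ) (hc0 : 0 ≤ c)
    (hc : ∀ x ∈ Set.Icc ![(1 / 4 : ℝ), 1 / 2] ![1 / 2, 3 / 4],
      ∀ y ∈ Set.Icc ![(3 / 4 : ℝ), 0] ![1, 1 / 4], c ≤ f x y) :
    c / 256 ≤ ∫ x in Set.Icc (0 : Fin 2 → ℝ) 1, ∫ y in Set.Icc (0 : Fin 2 → ℝ) 1, f x y := by
  have hint : ∀ x ∈ Set.Icc (0 : Fin 2 → ℝ) 1,
      Integrable (f x) (volume.restrict (Set.Icc (0 : Fin 2 → ℝ) 1)) := by
    intro x hx
    refine Integrable.of_bound (C := B) (hf.of_uncurry_left (x := x)).aestronglyMeasurable ?_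
    refine (ae_restrict_iff' measurableSet_Icc).2 (Filter.Eventually.of_forall (fun y hy => ?_))
    rw [Real.norm_of_nonneg (h0 x y)]
    exact hB x hx y hy
  have hF : Integrable (fun x => ∫ y in Set.Icc (0 : Fin 2 → ℝ) 1, f x y)
      (volume.restrict (Set.Icc (0 : Fin 2 → ℝ) 1)) := by
    refine Integrable.of_bound (C := B)
      (hf.stronglyMeasurable.integral_prod_right).aestronglyMeasurable ?_
    refine (ae_restrict_iff' measurableSet_Icc).2 (Filter.Eventually.of_forall (fun x hx => ?_))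
    rw [Real.norm_of_nonneg (integral_nonneg (h0 x))]
    refine (integral_mono_of_nonneg (Filter.Eventually.of_forall (h0 x)) (integrable_const B)
      ((ae_restrict_iff' measurableSet_Icc).2 (Filter.Eventually.of_forall (hB x hx)))).trans ?_
    simp
  have hX1 : (0 : Fin 2 → ℝ) ≤ ![(1 / 4 : ℝ), 1 / 2] := by
    intro j; fin_cases j <;> norm_num
  have hX2 : ![(1 / 4 : ℝ), 1 / 2] ≤ ![1 / 2, 3 / 4] := by
    intro j; fin_cases j <;> norm_num
  have hX3 : ![(1 / 2 : ℝ), 3 / 4] ≤ 1 := by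
    intro j; fin_cases j <;> norm_num
  have hY1 : (0 : Fin 2 → ℝ) ≤ ![(3 / 4 : ℝ), 0] := by
    intro j; fin_cases j <;> norm_num
  have hY2 : ![(3 / 4 : ℝ), 0] ≤ ![1, 1 / 4] := by
    intro j; fin_cases j <;> norm_num
  have hY3 : ![(1 : ℝ), 1 / 4] ≤ 1 := by
    intro j; fin_cases j <;> norm_num
  have e1 := int_ind _ _ hX1 hX2 hX3 (c / 16)
  have e2 := int_ind _ _ hY1 hY2 hY3 c
  simp only [Matrix.cons_val_zero, Matrix.cons_val_one] at e1 e2
  have e3 : c / 256 = (1 / 2 - 1 / 4) * (3 / 4 - 1 / 2) * (c / 16) := by ring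
  rw [e3, ← e1]
  refine integral_mono_of_nonneg (Filter.Eventually.of_forall (fun x =>
    Set.indicator_nonneg (fun _ _ => by positivity) _)) hF (Filter.Eventually.of_forall ?_)
  intro x
  by_cases hx : x ∈ Set.Icc ![(1 / 4 : ℝ), 1 / 2] ![1 / 2, 3 / 4]
  · simp only [Set.indicator_of_mem hx]
    have e4 : c / 16 = (1 - 3 / 4) * (1 / 4 - 0) * c := by ring
    rw [e4, ← e2]
    refine integral_mono_of_nonneg (Filter.Eventually.of_forall (fun y =>
      Set.indicator_nonneg (fun _ _ => hc0) _)) (hint x (Set.Icc_subset_Icc hX1 hX3 hx))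
      (Filter.Eventually.of_forall ?_)
    intro y
    by_cases hy : y ∈ Set.Icc ![(3 / 4 : ℝ), 0] ![1, 1 / 4]
    · simp only [Set.indicator_of_mem hy]
      exact hc x hx y hy
    · simp only [Set.indicator_of_notMem hy]
      exact h0 x y
  · simp only [Set.indicator_of_notMem hx]
    exact integral_nonneg (h0 x)

lemma crude_bound (N : ℕ) (s : Finset (Fin N)) (x y : Fin 2 → ℝ)
    (hx : x ∈ Set.Icc (0 : Fin 2 → ℝ) 1) (hy : y ∈ Set.Icc (0 : Fin 2 → ℝ) 1) :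
    |(s.card : ℝ) - (N : ℝ) * ∏ j : Fin 2, (if x j ≤ y j then y j - x j else 1 - x j + y j)| ≤
      2 * (N : ℝ) := by
  have h1 : (s.card : ℝ) ≤ N := by
    have := Finset.card_le_univ s
    rw [Fintype.card_fin] at this
    exact_mod_cast this
  have h2 : ∀ j, 0 ≤ (if x j ≤ y j then y j - x j else 1 - x j + y j) ∧
      (if x j ≤ y j then y j - x j else 1 - x j + y j) ≤ 1 := by
    intro j
    have a1 : 0 ≤ x j := hx.1 j
    have a2 : x j ≤ 1 := hx.2 j
    have a3 : 0 ≤ y j := hy.1 j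
    have a4 : y j ≤ 1 := hy.2 j
    split_ifs <;> constructor <;> linarith
  have h3 : 0 ≤ ∏ j : Fin 2, (if x j ≤ y j then y j - x j else 1 - x j + y j) :=
    prod_nonneg (fun j _ => (h2 j).1)
  have h4 : ∏ j : Fin 2, (if x j ≤ y j then y j - x j else 1 - x j + y j) ≤ 1 :=
    prod_le_one (fun j _ => (h2 j).1) (fun j _ => (h2 j).2)
  have h5 : (0 : ℝ) ≤ N := by positivity
  have h6 : (0 : ℝ) ≤ s.card := by positivity
  rw [abs_le]
  constructor <;> nlinarith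

end Pool.Agent.Lib.H29.Discrep
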