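import Mathlib

namespace Pool.Agent.Lib.H29.Drazin

variable {X H K : Type*} [NormedAddCommGroup X] [NormedSpace ℂ X]
  [NormedAddCommGroup H] [InnerProductSpace ℂ H] [NormedAddCommGroup K] [InnerProductSpace ℂ K]

/-- `k` is the ascent of `T`: the least `k` with `N(T^(k+1)) = N(T^k)`. -/
def IsAsc (T : X →L[ℂ] X) (k : ℕ) : Prop :=
  IsLeast {k : ℕ | (T ^ (k + 1)).toLinearMap.ker = (T ^ k).toLinearMap.ker} k

/-- `k` is the descent of `T`: the least `k` with `R(T^(k+1)) = R(T^k)`. -/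
def IsDsc (T : X →L[ℂ] X) (k : ℕ) : Prop :=
  IsLeast {k : ℕ | (T ^ (k + 1)).toLinearMap.range = (T ^ k).toLinearMap.range} k

/-- Finite ascent and finite descent. -/
def IsDrazin (T : X →L[ℂ] X) : Prop := (∃ k, IsAsc T k) ∧ ∃ k, IsDsc T k

/-- The operator matrix `[[A, C], [0, B]]`, acting by `(x, y) ↦ (A x + C y, B y)`. -/
noncomputable def mat (A : H →L[ℂ] H) (B : K →L[ℂ] K) (C : K →L[ℂ] H) : H × K →L[ℂ] H × K :=
  (A.coprod C).prod (B.comp (ContinuousLinearMap.snd ℂ H K))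

/-- `S = R(A) + N(A^p)`. -/
noncomputable def spS (A : H →L[ℂ] H) (p : ℕ) : Submodule ℂ H :=
  A.toLinearMap.range ⊔ (A ^ p).toLinearMap.ker

/-- `T`, the closure of `N(B) ∩ R(B^p)`. -/
noncomputable def spT (B : K →L[ℂ] K) (p : ℕ) : Submodule ℂ K :=
  (B.toLinearMap.ker ⊓ (B ^ p).toLinearMap.range).topologicalClosure

/-- `S` is closed, and `C` is an invertible `J : T → S^⊥` on `T` and `0` on `T^⊥`. -/
def Admissible (A : H →L[ℂ] H) (B : K →L[ℂ] K) (p : ℕ) (C : K →L[ℂ] H) : Prop :=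
  IsClosed (spS A p : Set H) ∧ ∃ J : spT B p ≃L[ℂ] (spS A p)ᗮ,
    (∀ y : spT B p, C y = J y) ∧ ∀ y ∈ (spT B p)ᗮ, C y = 0

@[simp] lemma mat_apply (A : H →L[ℂ] H) (B : K →L[ℂ] K) (C : K →L[ℂ] H) (x : H) (y : K) :
    mat A B C (x, y) = (A x + C y, B y) := rfl

lemma pow_app (T : X →L[ℂ] X) (n : ℕ) (x : X) : (T ^ (n + 1)) x = T ((T ^ n) x) := by
  rw [pow_succ']; rfl

lemma pow_app' (T : X →L[ℂ] X) (n : ℕ) (x : X) : (T ^ (n + 1)) x = (T ^ n) (T x) := by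
  rw [pow_succ]; rfl

lemma ex_asc {T : X →L[ℂ] X} {p : ℕ} (h : ∀ x, (T ^ (p + 1)) x = 0 → (T ^ p) x = 0) :
    ∃ k ≤ p, IsAsc T k := by
  classical
  have h1 : ∃ k : ℕ, (T ^ (k + 1)).toLinearMap.ker = (T ^ k).toLinearMap.ker :=
    ⟨p, le_antisymm h fun x (hx : (T ^ p) x = 0) => show (T ^ (p + 1)) x = 0 by
      rw [pow_app, hx, map_zero]⟩
  exact ⟨Nat.find h1, Nat.find_min' h1 (le_antisymm h fun x (hx : (T ^ p) x = 0) =>
    show (T ^ (p + 1)) x = 0 by rw [pow_app, hx, map_zero]), Nat.find_spec h1,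
    fun _ hk => Nat.find_min' h1 hk⟩

lemma ex_dsc {T : X →L[ℂ] X} {p : ℕ} (h : ∀ x, ∃ y, (T ^ (p + 1)) y = (T ^ p) x) :
    ∃ k ≤ p, IsDsc T k := by
  classical
  have h0 : (T ^ (p + 1)).toLinearMap.range = (T ^ p).toLinearMap.range :=
    le_antisymm (by rintro _ ⟨x, rfl⟩; exact ⟨T x, (pow_app' T p x).symm⟩)
      (by rintro _ ⟨x, rfl⟩; exact h x)
  have h1 : ∃ k : ℕ, (T ^ (k + 1)).toLinearMap.range = (T ^ k).toLinearMap.range := ⟨p, h0⟩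
  exact ⟨Nat.find h1, Nat.find_min' h1 h0, Nat.find_spec h1, fun _ hk => Nat.find_min' h1 hk⟩

end Pool.Agent.Lib.H29.Drazin
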