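import Mathlib

set_option autoImplicit false

namespace Pool.Agent.Lib.H29.Dual

open Complex Filter Topology Set Metric

lemma coeff_poly (t : ℕ → ℂ) (N n : ℕ) :
    iteratedDeriv n (fun z : ℂ => ∑ i ∈ Finset.range N, t i * z ^ i) 0 / (n.factorial : ℂ) =
      if n < N then t n else 0 := by
  rw [iteratedDeriv_fun_sum (fun i _ => by fun_prop)]
  simp only [iteratedDeriv_const_mul_field, iteratedDeriv_fun_pow_zero]
  have : (n.factorial : ℂ) ≠ 0 := by exact_mod_cast n.factorial_ne_zero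
  by_cases h : n < N
  · rw [if_pos h, Finset.sum_eq_single n, if_pos rfl, mul_div_assoc, div_self this, mul_one]
    · intro b _ hb
      simp [Ne.symm hb]
    · intro h'
      exact absurd (Finset.mem_range.2 h) h'
  · rw [if_neg h, Finset.sum_eq_zero, zero_div]
    intro b hb
    have : n ≠ b := fun e => h (e ▸ Finset.mem_range.1 hb)
    simp [this]

lemma coeff_of {f G : ℂ → ℂ} (t : ℕ → ℂ) (N : ℕ) (hG : AnalyticAt ℂ G 0)
    (h : ∀ᶠ z in 𝓝 (0 : ℂ), f z = ∑ i ∈ Finset.range N, t i * z ^ i + z ^ N * G z) {n : ℕ}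
    (hn : n < N) : iteratedDeriv n f 0 / (n.factorial : ℂ) = t n := by
  have a : AnalyticAt ℂ (fun z => z ^ N * G z) 0 := by fun_prop
  have z0 := (natCast_le_analyticOrderAt_iff_iteratedDeriv_eq_zero a).1
    ((natCast_le_analyticOrderAt a).2 ⟨G, hG, Eventually.of_forall fun z => by simp⟩) n hn
  have b : ContDiffAt ℂ n (fun z : ℂ => ∑ i ∈ Finset.range N, t i * z ^ i) 0 := by fun_prop
  rw [Filter.EventuallyEq.iteratedDeriv_eq n h, iteratedDeriv_fun_add b a.contDiffAt, z0, add_zero,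
    coeff_poly, if_pos hn]

noncomputable def w (z : ℂ) : ℂ := 1 + z / (1 - z) ^ 2
noncomputable def R (z : ℂ) : ℂ := exp (log (w z) / 2)
noncomputable def D (y z : ℂ) : ℂ := (1 - y) * R z + (1 + y)
noncomputable def h (y z : ℂ) : ℂ := 4 * z / ((1 - z) ^ 2 * D y z ^ 2)

lemma one_sub_ne {z : ℂ} (hz : ‖z‖ < 1) : 1 - z ≠ 0 := by
  intro h
  rw [← sub_eq_zero.1 h] at hz
  simp at hz

lemma w_slit {z : ℂ} (hz : ‖z‖ < 1) : w z ∈ slitPlane := by
  have h1 := one_sub_ne hz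
  set u := (1 + z) / (1 - z) with hu
  have e : w z = 3 / 4 + u ^ 2 / 4 := by rw [hu, w]; field_simp; ring
  have hre : 0 < u.re := by
    have n : normSq z < 1 := by rw [← Complex.sq_norm]; nlinarith [norm_nonneg z]
    rw [hu, div_re, ← add_div]
    apply div_pos _ (normSq_pos.2 h1)
    rw [normSq_apply] at n
    simp
    nlinarith
  rw [e]
  by_cases hi : u.im = 0
  · left
    simp [pow_two, hi]
    positivity
  · right
    simp [pow_two]
    intro h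
    apply mul_ne_zero hre.ne' hi
    linarith

lemma R_sq {z : ℂ} (hz : ‖z‖ < 1) : R z ^ 2 = w z := by
  rw [R, ← exp_nat_mul, Nat.cast_ofNat, mul_div_cancel₀ _ two_ne_zero,
    exp_log (slitPlane_ne_zero (w_slit hz))]

lemma R_re {z : ℂ} (hz : ‖z‖ < 1) : 0 < (R z).re := by
  rw [R, exp_re]
  refine mul_pos (Real.exp_pos _) (Real.cos_pos_of_mem_Ioo ⟨?_, ?_⟩)
  · have := neg_pi_lt_arg (w z)
    simp [log_im]
    linarith
  · have := lt_of_le_of_ne (arg_le_pi (w z)) (mem_slitPlane_iff_arg.1 (w_slit hz)).1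
    simp [log_im]
    linarith

lemma R_an {z : ℂ} (hz : ‖z‖ < 1) : AnalyticAt ℂ R z := by
  have h1 := one_sub_ne hz
  have a : AnalyticAt ℂ w z := by
    have := pow_ne_zero 2 h1
    unfold w
    fun_prop (disch := assumption)
  exact ((a.clog (w_slit hz)).div_const (c := 2)).cexp'

lemma R_lt {z : ℂ} (hz : ‖z‖ < 1) : ‖R z - 1‖ < ‖R z + 1‖ := by
  have := R_re hz
  apply lt_of_pow_lt_pow_left₀ 2 (norm_nonneg _)
  rw [Complex.sq_norm, Complex.sq_norm]
  simp [normSq_apply]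
  nlinarith

lemma R_ne {z : ℂ} (hz : ‖z‖ < 1) : R z + 1 ≠ 0 :=
  norm_pos_iff.1 (lt_of_le_of_lt (norm_nonneg _) (R_lt hz))

lemma D_ne {y z : ℂ} (hy : ‖y‖ = 1) (hz : ‖z‖ < 1) : D y z ≠ 0 := by
  intro h
  have e : R z + 1 = y * (R z - 1) := by unfold D at h; linear_combination h
  have := R_lt hz
  rw [e, norm_mul, hy, one_mul] at this
  exact lt_irrefl _ this

lemma h_an {y z : ℂ} (hy : ‖y‖ = 1) (hz : ‖z‖ < 1) : AnalyticAt ℂ (h y) z := by
  have h1 := mul_ne_zero (pow_ne_zero 2 (one_sub_ne hz)) (pow_ne_zero 2 (D_ne hy hz))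
  have := R_an hz
  unfold h D at *
  fun_prop (disch := assumption)

lemma koebe_inj {y a b : ℂ} (hy : ‖y‖ = 1) (ha : ‖a‖ < 1) (hb : ‖b‖ < 1)
    (e : a * (1 - y * b) ^ 2 = b * (1 - y * a) ^ 2) : a = b := by
  have : (a - b) * (1 - y ^ 2 * a * b) = 0 := by linear_combination e
  rcases mul_eq_zero.1 this with h | h
  · exact sub_eq_zero.1 h
  · have := congrArg norm (sub_eq_zero.1 h)
    rw [norm_one, norm_mul, norm_mul, norm_pow, hy] at this
    nlinarith [norm_nonneg a, norm_nonneg b]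

lemma h_inj {y : ℂ} (hy : ‖y‖ = 1) : InjOn (h y) (ball 0 1) := by
  intro a ha b hb e
  rw [mem_ball_zero_iff] at ha hb
  have key : ∀ z : ℂ, ‖z‖ < 1 → h y z = 4 * ((R z - 1) * (R z + 1)) / D y z ^ 2 := by
    intro z hz
    have h1 := one_sub_ne hz
    have h2 := D_ne hy hz
    have : (R z - 1) * (R z + 1) = z / (1 - z) ^ 2 := by
      have := R_sq hz
      unfold w at this
      linear_combination this
    rw [this, h]
    field_simp
  have lt : ∀ z : ℂ, ‖z‖ < 1 → ‖(R z - 1) / (R z + 1)‖ < 1 := fun z hz => by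
    rw [norm_div, div_lt_one (norm_pos_iff.2 (R_ne hz))]; exact R_lt hz
  rw [key a ha, key b hb, div_eq_div_iff (pow_ne_zero 2 (D_ne hy ha))
    (pow_ne_zero 2 (D_ne hy hb))] at e
  have ra := R_ne ha
  have rb := R_ne hb
  have e2 := koebe_inj hy (lt a ha) (lt b hb) (by
    unfold D at e
    field_simp
    linear_combination e / 4)
  rw [div_eq_div_iff ra rb] at e2
  have e3 : R a = R b := by linear_combination e2 / 2
  have e4 : w a = w b := by rw [← R_sq ha, ← R_sq hb, e3]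
  unfold w at e4
  rw [add_right_inj, div_eq_div_iff (pow_ne_zero 2 (one_sub_ne ha))
    (pow_ne_zero 2 (one_sub_ne hb))] at e4
  exact koebe_inj (y := 1) norm_one ha hb (by linear_combination e4)

noncomputable def TR (z : ℂ) : ℂ := 1 + z / 2 + 7 / 8 * z ^ 2 + 17 / 16 * z ^ 3
noncomputable def N1 (z : ℂ) : ℂ := ((139 / 64)) * z ^ 0 +
    ((-77 / 64)) * z ^ 1 +
    ((195 / 256)) * z ^ 2 +
    ((51 / 128)) * z ^ 3 +
    ((-289 / 256)) * z ^ 4
noncomputable def N2 (y z : ℂ) : ℂ := ((-17 / 4) + (-197 / 32) * y ^ 1 + (-513 / 64) * y ^ 2 + (-3 / 2) * y ^ 3 + (-5 / 64) * y ^ 4) * z ^ 0 +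
    ((-219 / 128) + (1325 / 128) * y ^ 1 + (703 / 128) * y ^ 2 + (201 / 128) * y ^ 3 + (9 / 32) * y ^ 4 + (1 / 64) * y ^ 5) * z ^ 1 +
    ((-2199 / 1024) + (-1353 / 512) * y ^ 1 + (679 / 256) * y ^ 2 + (889 / 512) * y ^ 3 + (387 / 1024) * y ^ 4 + (3 / 128) * y ^ 5) * z ^ 2 +
    ((-489 / 2048) + (-2049 / 512) * y ^ 1 + (483 / 256) * y ^ 2 + (2005 / 1024) * y ^ 3 + (769 / 2048) * y ^ 4 + (21 / 1024) * y ^ 5) * z ^ 3 +
    ((7027 / 4096) + (12551 / 2048) * y ^ 1 + (-407 / 256) * y ^ 2 + (-10497 / 2048) * y ^ 3 + (-4387 / 4096) * y ^ 4 + (-59 / 1024) * y ^ 5) * z ^ 4 +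
    ((5493 / 8192) + (-6617 / 2048) * y ^ 1 + (7645 / 2048) * y ^ 2 + (-2059 / 4096) * y ^ 3 + (-5097 / 8192) * y ^ 4 + (-195 / 4096) * y ^ 5) * z ^ 5 +
    ((2499 / 2048) + (-3519 / 2048) * y ^ 1 + (-357 / 1024) * y ^ 2 + (969 / 1024) * y ^ 3 + (-153 / 2048) * y ^ 4 + (-51 / 2048) * y ^ 5) * z ^ 6 +
    ((6069 / 8192) + (2601 / 2048) * y ^ 1 + (-7803 / 2048) * y ^ 2 + (3757 / 4096) * y ^ 3 + (6647 / 8192) * y ^ 4 + (289 / 4096) * y ^ 5) * z ^ 7
noncomputable def aa (y : ℂ) : ℕ → ℂ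
  | 1 => 1
  | 2 => 3 / 2 + y / 2
  | 3 => 21 / 16 + 3 / 2 * y + 3 / 16 * y ^ 2
  | 4 => 21 / 32 + 39 / 16 * y + 27 / 32 * y ^ 2 + 1 / 16 * y ^ 3
  | _ => 0
noncomputable def TH (y z : ℂ) : ℂ := 1 + aa y 2 * z + aa y 3 * z ^ 2 + aa y 4 * z ^ 3
noncomputable def G1 (z : ℂ) : ℂ := N1 z / ((1 - z) ^ 2 * (R z + TR z))
noncomputable def G2 (y z : ℂ) : ℂ :=
  -(N2 y z + TH y z * (1 - z) ^ 2 * (2 * ((1 - y) * TR z + (1 + y)) * ((1 - y) * G1 z) +
    z ^ 4 * ((1 - y) * G1 z) ^ 2)) / ((1 - z) ^ 2 * D y z ^ 2)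

lemma R_zero : R 0 = 1 := by simp [R, w]

theorem h_coeff {y : ℂ} (hy : ‖y‖ = 1) {n : ℕ} (hn : n < 5) :
    iteratedDeriv n (h y) 0 / (n.factorial : ℂ) = aa y n := by
  have z0 : ‖(0 : ℂ)‖ < 1 := by simp
  have ra := R_an z0
  have s0 : (1 - (0 : ℂ)) ^ 2 * (R 0 + TR 0) ≠ 0 := by rw [R_zero, TR]; norm_num
  have g1 : AnalyticAt ℂ G1 0 := by
    unfold G1 N1 TR at *
    fun_prop (disch := assumption)
  have d0 := mul_ne_zero (pow_ne_zero 2 (one_sub_ne z0)) (pow_ne_zero 2 (D_ne hy z0))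
  have g2 : AnalyticAt ℂ (G2 y) 0 := by
    unfold G2 N2 TH TR D at *
    fun_prop (disch := assumption)
  refine coeff_of (aa y) 5 g2 ?_ hn
  have c : ContinuousAt (fun z => R z + TR z) 0 := by
    have := ra.continuousAt
    unfold TR
    fun_prop
  have e1 := c.eventually_ne (y := 0) (by rw [R_zero, TR]; norm_num)
  filter_upwards [e1, ball_mem_nhds (0 : ℂ) one_pos] with z h1 hz
  rw [mem_ball_zero_iff] at hz
  have h2 := one_sub_ne hz
  have h3 := D_ne hy hz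
  have r : R z = TR z + z ^ 4 * G1 z := by
    have a := R_sq hz
    have b : 1 - z + z ^ 2 - TR z ^ 2 * (1 - z) ^ 2 = z ^ 4 * N1 z := by
      unfold TR N1; ring
    have a' : R z ^ 2 * (1 - z) ^ 2 = 1 - z + z ^ 2 := by
      rw [a, w]; field_simp; ring
    unfold G1
    field_simp
    linear_combination a' + b
  have b2 : TH y z * (1 - z) ^ 2 * ((1 - y) * TR z + (1 + y)) ^ 2 - 4 = z ^ 4 * N2 y z := by
    simp only [TH, TR, N2, aa]; ring
  have d : D y z = ((1 - y) * TR z + (1 + y)) + z ^ 4 * ((1 - y) * G1 z) := by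
    rw [D, r]; ring
  have s : ∑ i ∈ Finset.range 5, aa y i * z ^ i = z * TH y z := by
    simp only [Finset.sum_range_succ, Finset.sum_range_zero, TH, aa]; ring
  rw [s, h, G2]
  field_simp
  rw [d]
  linear_combination -z * b2

noncomputable def b2 : ℂ := ⟨10673 / 100000, -11884 / 100000⟩
noncomputable def b3 : ℂ := ⟨13098 / 100000, 15283 / 100000⟩
noncomputable def b4 : ℂ := ⟨9815 / 100000, -6403 / 100000⟩
noncomputable def A (z : ℂ) : ℂ := b2 + 2 * b3 * z + 3 * b4 * z ^ 2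
noncomputable def B (z : ℂ) : ℂ := 3 * b2 + 4 * b3 * z + 5 * b4 * z ^ 2

lemma circ {z : ℂ} (hz : ‖z‖ = 1) : ‖A z‖ + ‖B z‖ ≤ 2 := by
  have h : z.re ^ 2 + z.im ^ 2 = 1 := by
    have := Complex.sq_norm z
    rw [hz, normSq_apply] at this
    linarith
  have key : 3 * ‖A z‖ ^ 2 + 3 / 2 * ‖B z‖ ^ 2 ≤ 4 := by
    rw [Complex.sq_norm, Complex.sq_norm]
    simp only [normSq_apply, A, B, b2, b3, b4, pow_two, add_re, add_im, mul_re, mul_im,
      re_ofNat, im_ofNat]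
    generalize z.re = c at *
    generalize z.im = s at *
    have q1 := sq_nonneg (764 / 1000 + (-2429 / 100000 * c - 23362 / 100000 * s) +
      (-74565 / 100000 * (c ^ 2 - s ^ 2) + 19915 / 100000 * (2 * c * s)))
    have q2 := sq_nonneg ((23362 / 100000 * c - 2429 / 100000 * s) +
      (-19915 / 100000 * (c ^ 2 - s ^ 2) - 74565 / 100000 * (2 * c * s)))
    have e1 : c * (c ^ 2 + s ^ 2) = c := by rw [h, mul_one]
    have e2 : s * (c ^ 2 + s ^ 2) = s := by rw [h, mul_one]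
    have e3 : c ^ 2 * (c ^ 2 + s ^ 2) = c ^ 2 := by rw [h, mul_one]
    have e4 : s ^ 2 * (c ^ 2 + s ^ 2) = s ^ 2 := by rw [h, mul_one]
    have e5 : c * s * (c ^ 2 + s ^ 2) = c * s := by rw [h, mul_one]
    linarith [sq_nonneg (c - 1), sq_nonneg (c + 1), sq_nonneg (s - 1), sq_nonneg (s + 1),
      sq_nonneg (c - s), sq_nonneg (c + s), sq_nonneg c, sq_nonneg s]
  nlinarith [sq_nonneg (2 * ‖A z‖ - ‖B z‖), norm_nonneg (A z), norm_nonneg (B z)]

lemma disc {z : ℂ} (hz : ‖z‖ < 1) : ‖A z‖ + ‖B z‖ ≤ 2 := by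
  obtain ⟨u, hu, eu⟩ := exists_norm_eq_mul_self (A z)
  obtain ⟨v, hv, ev⟩ := exists_norm_eq_mul_self (B z)
  have := norm_le_of_forall_mem_frontier_norm_le (f := fun t => u * A t + v * B t)
    (U := ball 0 1) isBounded_ball
    (Differentiable.diffContOnCl (by unfold A B; fun_prop)) (C := 2) (fun t ht => by
      rw [frontier_ball _ one_ne_zero, mem_sphere_zero_iff_norm] at ht
      refine (norm_add_le _ _).trans ?_
      rw [norm_mul, norm_mul, hu, hv, one_mul, one_mul]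
      exact circ ht) (z := z) (subset_closure (mem_ball_zero_iff.2 hz))
  rw [← eu, ← ev, ← ofReal_add, norm_real, Real.norm_eq_abs] at this
  exact (le_abs_self _).trans this

noncomputable def yy : ℂ := ⟨840 / 841, 41 / 841⟩
noncomputable def z0 : ℂ := 99999 / 100000
noncomputable def L : ℂ := b2 * aa yy 2 * z0 + b3 * aa yy 3 * z0 ^ 2 + b4 * aa yy 4 * z0 ^ 3

lemma yy_norm : ‖yy‖ = 1 := by
  have : ‖yy‖ ^ 2 = 1 := by rw [Complex.sq_norm, normSq_apply]; simp [yy]; norm_num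
  nlinarith [norm_nonneg yy]

lemma L_ge : 1 ≤ ‖L‖ := by
  refine le_trans ?_ (re_le_norm L)
  simp only [L, aa, b2, b3, b4, yy, z0, pow_succ, pow_zero, one_mul, add_re, add_im, mul_re,
    mul_im, div_ofNat_re, div_ofNat_im, re_ofNat, im_ofNat, one_re, one_im]
  norm_num

noncomputable def gc : ℕ → ℂ
  | 1 => 1
  | 2 => -L⁻¹ * b2
  | 3 => -L⁻¹ * b3
  | 4 => -L⁻¹ * b4
  | _ => 0

noncomputable def g (z : ℂ) : ℂ := ∑ i ∈ Finset.range 5, gc i * z ^ i

lemma g_eq : g = fun z => z + -L⁻¹ * (b2 * z ^ 2 + b3 * z ^ 3 + b4 * z ^ 4) := by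
  funext z
  simp only [g, Finset.sum_range_succ, Finset.sum_range_zero, gc]; ring

lemma g_deriv (z : ℂ) :
    deriv g z = 1 + -L⁻¹ * (b2 * (2 * z) + b3 * (3 * z ^ 2) + b4 * (4 * z ^ 3)) := by
  rw [g_eq]
  have i := hasDerivAt_id' z
  refine ((i.fun_add (((((i.fun_pow 2).const_mul b2).fun_add
    ((i.fun_pow 3).const_mul b3)).fun_add ((i.fun_pow 4).const_mul b4)).const_mul
      (-L⁻¹))).congr_deriv ?_).deriv
  simp

lemma g_bound {z : ℂ} (hz : ‖z‖ < 1) (h0 : z ≠ 0) :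
    ‖(deriv g z - 1) - (g z - z) / z‖ + ‖(deriv g z - 1) + (g z - z) / z‖ < 2 := by
  have e1 : (deriv g z - 1) - (g z - z) / z = -L⁻¹ * z * A z := by
    rw [g_deriv, g_eq, A]; field_simp; ring
  have e2 : (deriv g z - 1) + (g z - z) / z = -L⁻¹ * z * B z := by
    rw [g_deriv, g_eq, B]; field_simp; ring
  rw [e1, e2, norm_mul, norm_mul, norm_mul (-L⁻¹ * z), norm_mul, ← mul_add, norm_neg, norm_inv]
  have a : ‖L‖⁻¹ ≤ 1 := inv_le_one_of_one_le₀ L_ge
  have b : ‖L‖⁻¹ * ‖z‖ < 1 := lt_of_le_of_lt (mul_le_of_le_one_left (norm_nonneg _) a) hz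
  have c := mul_le_mul_of_nonneg_left (disc hz) (show 0 ≤ ‖L‖⁻¹ * ‖z‖ by positivity)
  linarith

theorem conv_zero : (∑' n : ℕ, (iteratedDeriv n g 0 / (n.factorial : ℂ)) *
    (iteratedDeriv n (h yy) 0 / (n.factorial : ℂ)) * z0 ^ n) = 0 := by
  have L0 : L ≠ 0 := norm_pos_iff.1 (lt_of_lt_of_le one_pos L_ge)
  rw [tsum_eq_sum (s := Finset.range 5) (fun n hn => by
    unfold g
    rw [coeff_poly, if_neg (fun h => hn (Finset.mem_range.2 h)), zero_mul, zero_mul])]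
  rw [Finset.sum_congr rfl (g := fun n => gc n * aa yy n * z0 ^ n) (fun n hn => by
    unfold g
    rw [coeff_poly, if_pos (Finset.mem_range.1 hn), h_coeff yy_norm (Finset.mem_range.1 hn)])]
  have : ∑ n ∈ Finset.range 5, gc n * aa yy n * z0 ^ n = z0 * (1 - L⁻¹ * L) := by
    conv_rhs => rw [L]
    rw [← L]
    simp only [Finset.sum_range_succ, Finset.sum_range_zero, gc]
    nth_rewrite 5 [L]
    simp only [aa]
    ring
  rw [this, inv_mul_cancel₀ L0, sub_self, mul_zero]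

end Pool.Agent.Lib.H29.Dual
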