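import Pool.Agent.Lib.helper29.Dual1

set_option autoImplicit false

namespace Pool.Agent.Lib.H29.Dual

open Complex Filter Topology Set Metric

noncomputable def fx (x z : ℂ) : ℂ := z / (1 - x * z)
noncomputable def tt (x : ℂ) (n : ℕ) : ℂ := if n = 0 then 0 else x ^ (n - 1)

lemma fx_ne {x z : ℂ} (hx : ‖x‖ ≤ 1) (hz : ‖z‖ < 1) : 1 - x * z ≠ 0 := by
  apply one_sub_ne
  rw [norm_mul]
  exact lt_of_le_of_lt (mul_le_of_le_one_left (norm_nonneg _) hx) hz

lemma fx_an {x z : ℂ} (hx : ‖x‖ ≤ 1) (hz : ‖z‖ < 1) : AnalyticAt ℂ (fx x) z := by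
  have := fx_ne hx hz
  unfold fx
  fun_prop (disch := assumption)

lemma fx_coeff {x : ℂ} (hx : ‖x‖ ≤ 1) (n : ℕ) :
    iteratedDeriv n (fx x) 0 / (n.factorial : ℂ) = tt x n := by
  have h0 : 1 - x * 0 ≠ 0 := by simp
  refine coeff_of (G := fun z => x ^ n / (1 - x * z)) (tt x) (n + 1)
    (by fun_prop (disch := assumption)) ?_ (Nat.lt_succ_self n)
  filter_upwards [ball_mem_nhds (0 : ℂ) one_pos] with z hz
  have h1 := fx_ne hx (mem_ball_zero_iff.1 hz)
  induction n with
  | zero => simp [tt, fx, div_eq_mul_inv]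
  | succ n ih =>
    rw [Finset.sum_range_succ, ih, tt, if_neg (Nat.succ_ne_zero n), Nat.add_sub_cancel]
    field_simp
    ring

noncomputable def HH (z : ℂ) : ℂ := 4 / ((1 - z) ^ 2 * D yy z ^ 2)

lemma HH_ev : ∀ᶠ z in 𝓝 (0 : ℂ), ‖HH z‖ < 10001 / 10000 := by
  have z0 : ‖(0 : ℂ)‖ < 1 := by simp
  have d0 := mul_ne_zero (pow_ne_zero 2 (one_sub_ne z0)) (pow_ne_zero 2 (D_ne yy_norm z0))
  have ra := (R_an z0).continuousAt
  have c : ContinuousAt (fun z => ‖HH z‖) 0 := by
    unfold HH D at *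
    fun_prop (disch := assumption)
  apply c.eventually_lt continuousAt_const
  have : HH 0 = 1 := by simp only [HH, D, R_zero]; ring_nf
  rw [this]; norm_num

lemma L_ge' : 10002 / 10000 ≤ ‖L‖ := by
  refine le_trans ?_ (re_le_norm L)
  simp only [L, aa, b2, b3, b4, yy, z0, pow_succ, pow_zero, one_mul, add_re, add_im, mul_re,
    mul_im, div_ofNat_re, div_ofNat_im, re_ofNat, im_ofNat]
  norm_num

lemma z0_norm : ‖z0‖ = 99999 / 100000 := by norm_num [z0]

noncomputable def pc : ℕ → ℂ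
  | 2 => b2
  | 3 => b3
  | 4 => b4
  | _ => 0

noncomputable def φ (z : ℂ) : ℂ := ∑ i ∈ Finset.range 5, pc i * z ^ i

lemma φ_eq : φ = fun z => b2 * z ^ 2 + b3 * z ^ 3 + b4 * z ^ 4 := by
  funext z
  simp only [φ, Finset.sum_range_succ, Finset.sum_range_zero, pc]; ring

lemma φ_deriv (z : ℂ) : HasDerivAt φ (b2 * (2 * z) + b3 * (3 * z ^ 2) + b4 * (4 * z ^ 3)) z := by
  rw [φ_eq]
  have i := hasDerivAt_id' z
  refine ((((i.fun_pow 2).const_mul b2).fun_add
    ((i.fun_pow 3).const_mul b3)).fun_add ((i.fun_pow 4).const_mul b4)).congr_deriv ?_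
  simp

noncomputable def gx (x μ z : ℂ) : ℂ := fx x z + μ * φ z

lemma gx_deriv {x z : ℂ} (μ : ℂ) (hx : ‖x‖ ≤ 1) (hz : ‖z‖ < 1) : deriv (gx x μ) z =
    deriv (fx x) z + μ * (b2 * (2 * z) + b3 * (3 * z ^ 2) + b4 * (4 * z ^ 3)) :=
  ((fx_an hx hz).differentiableAt.hasDerivAt.fun_add ((φ_deriv z).const_mul μ)).deriv

lemma gx_bound {x μ z : ℂ} {γ : ℝ} (hx : ‖x‖ ≤ 1) (hμ : ‖μ‖ ≤ γ) (hγ : 0 < γ) (hz : ‖z‖ < 1)
    (h0 : z ≠ 0) :
    ‖(deriv (gx x μ) z - deriv (fx x) z) - (gx x μ z - fx x z) / z‖ +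
      ‖(deriv (gx x μ) z - deriv (fx x) z) + (gx x μ z - fx x z) / z‖ < 2 * γ := by
  have e1 : (deriv (gx x μ) z - deriv (fx x) z) - (gx x μ z - fx x z) / z = μ * z * A z := by
    rw [gx_deriv μ hx hz, gx, φ_eq, A]; field_simp; ring
  have e2 : (deriv (gx x μ) z - deriv (fx x) z) + (gx x μ z - fx x z) / z = μ * z * B z := by
    rw [gx_deriv μ hx hz, gx, φ_eq, B]; field_simp; ring
  rw [e1, e2, norm_mul, norm_mul, norm_mul (μ * z), norm_mul, ← mul_add]
  have b : ‖μ‖ * ‖z‖ < γ := lt_of_le_of_lt (mul_le_mul_of_nonneg_right hμ (norm_nonneg _))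
    (mul_lt_of_lt_one_right hγ hz)
  have c := mul_le_mul_of_nonneg_left (disc hz) (show 0 ≤ ‖μ‖ * ‖z‖ by positivity)
  linarith

lemma gx_coeff {x : ℂ} (μ : ℂ) (hx : ‖x‖ ≤ 1) (n : ℕ) :
    iteratedDeriv n (gx x μ) 0 / (n.factorial : ℂ) =
      tt x n + μ * if n < 5 then pc n else 0 := by
  have a : ContDiffAt ℂ n (fx x) 0 := (fx_an hx (by simp)).contDiffAt
  have b : ContDiffAt ℂ n (fun z => μ * φ z) 0 := by rw [φ_eq]; fun_prop
  unfold gx
  rw [iteratedDeriv_fun_add a b, add_div, fx_coeff hx, iteratedDeriv_const_mul_field,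
    mul_div_assoc]
  unfold φ
  rw [coeff_poly]

theorem conv_zero' {x : ℂ} (hx : ‖x‖ ≤ 1) :
    HasSum (fun n : ℕ => (iteratedDeriv n (gx x (-HH (x * z0) / L)) 0 / (n.factorial : ℂ)) *
      (iteratedDeriv n (h yy) 0 / (n.factorial : ℂ)) * z0 ^ n) 0 := by
  have L0 : L ≠ 0 := norm_pos_iff.1 (lt_of_lt_of_le one_pos L_ge)
  have s1 : HasSum (fun n : ℕ => tt x n * (iteratedDeriv n (h yy) 0 / (n.factorial : ℂ)) * z0 ^ n)
      (z0 * HH (x * z0)) := by
    by_cases h0 : x = 0
    · subst h0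
      have := hasSum_single (f := fun n : ℕ => tt 0 n *
        (iteratedDeriv n (h yy) 0 / (n.factorial : ℂ)) * z0 ^ n) 1 (fun n hn => by
          have : tt 0 n = 0 := by
            unfold tt
            split_ifs with h
            · rfl
            · exact zero_pow (by omega)
          rw [this, zero_mul, zero_mul])
      rw [h_coeff yy_norm (by norm_num)] at this
      have e : HH (0 * z0) = 1 := by simp only [zero_mul, HH, D, R_zero]; ring_nf
      rw [e]
      simpa [tt, aa] using this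
    · have hm : x * z0 ∈ ball (0 : ℂ) 1 := by
        rw [mem_ball_zero_iff, norm_mul, z0_norm]
        nlinarith [norm_nonneg x]
      have := (hasSum_taylorSeries_on_ball (f := h yy) (fun z hz => (h_an yy_norm
        (mem_ball_zero_iff.1 hz)).differentiableAt.differentiableWithinAt) hm).mul_left x⁻¹
      have e : x⁻¹ * h yy (x * z0) = z0 * HH (x * z0) := by
        unfold h HH; field_simp
      rw [e] at this
      refine this.congr_fun fun n => ?_
      rcases n with _ | n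
      · simp [tt, h]
      · simp only [tt, Nat.succ_ne_zero, if_false, Nat.add_sub_cancel, sub_zero, smul_eq_mul,
          mul_pow, pow_succ]
        field_simp
  have s2 : HasSum (fun n : ℕ => (if n < 5 then pc n else 0) *
      (iteratedDeriv n (h yy) 0 / (n.factorial : ℂ)) * z0 ^ n) (z0 * L) := by
    have := hasSum_sum_of_ne_finset_zero (f := fun n : ℕ => (if n < 5 then pc n else 0) *
      (iteratedDeriv n (h yy) 0 / (n.factorial : ℂ)) * z0 ^ n) (s := Finset.range 5)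
      (L := SummationFilter.unconditional ℕ)
      (fun n hn => by rw [if_neg (fun h => hn (Finset.mem_range.2 h)), zero_mul, zero_mul])
    rw [Finset.sum_congr rfl (g := fun n => pc n * aa yy n * z0 ^ n) (fun n hn => by
      rw [if_pos (Finset.mem_range.1 hn), h_coeff yy_norm (Finset.mem_range.1 hn)])] at this
    convert this using 1
    simp only [Finset.sum_range_succ, Finset.sum_range_zero, pc, L]
    ring
  have := s1.add (s2.mul_left (-HH (x * z0) / L))
  have e : z0 * HH (x * z0) + -HH (x * z0) / L * (z0 * L) = 0 := by field_simp; ring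
  rw [e] at this
  refine this.congr_fun fun n => ?_
  rw [gx_coeff _ hx]
  ring

end Pool.Agent.Lib.H29.Dual
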