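import Mathlib

set_option autoImplicit false

namespace Pool.Agent.Lib.H29.Ent

open MeasureTheory ProbabilityTheory

/-- The standard normal density. -/
noncomputable def phi (x : ℝ) : ℝ := gaussianPDFReal 0 1 x

/-- The relative entropy `∫ f log (f / φ)`. -/
noncomputable def D (f : ℝ → ℝ) : ℝ := ∫ x, f x * Real.log (f x / phi x)

/-- The relative Fisher information `∫ f (f' / f + x) ^ 2`. -/
noncomputable def J (f : ℝ → ℝ) : ℝ := ∫ x, f x * (deriv f x / f x + x) ^ 2

/-- The measure with density `f`. -/
noncomputable def law (f : ℝ → ℝ) : Measure ℝ := volume.withDensity fun x => ENNReal.ofReal (f x)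

/-- A positive `C¹` probability density for which the integrals defining `D` and `J` converge. -/
def Good (f : ℝ → ℝ) : Prop :=
  ContDiff ℝ 1 f ∧ (∀ x, 0 < f x) ∧ Integrable f ∧ ∫ x, f x = 1 ∧
    Integrable (fun x => f x * Real.log (f x / phi x)) ∧
    Integrable (fun x => f x * (deriv f x / f x + x) ^ 2)

end Pool.Agent.Lib.H29.Ent
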