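import Mathlib
import Pool.Agent.Lib.helper29.EntDefs

set_option autoImplicit false

namespace Pool.Agent.Lib.H29.Ent

open MeasureTheory ProbabilityTheory Real Finset
open scoped NNReal ENNReal

noncomputable abbrev g := gaussianPDFReal

lemma quad (m : ℝ) {v : ℝ≥0} (hv : v ≠ 0) (a b c : ℝ) :
    Integrable (fun x => g m v x * (a * x ^ 2 + b * x + c)) ∧
      ∫ x, g m v x * (a * x ^ 2 + b * x + c) = a * (m ^ 2 + v) + b * m + c := by
  have h2 := memLp_id_gaussianReal (μ := m) (v := v) 2
  have i2 : Integrable (fun x : ℝ => x ^ 2) (gaussianReal m v) := h2.integrable_sq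
  have i1 : Integrable (fun x : ℝ => x) (gaussianReal m v) := h2.integrable (by norm_num)
  have hi : Integrable (fun x => a * x ^ 2 + b * x + c) (gaussianReal m v) :=
    ((i2.const_mul a).add (i1.const_mul b)).add (integrable_const c)
  have e2 : ∫ x, x ^ 2 ∂(gaussianReal m v) = m ^ 2 + v := by
    have := variance_eq_sub h2
    rw [variance_id_gaussianReal] at this
    simp only [Pi.pow_apply, id, integral_id_gaussianReal] at this
    linarith
  constructor
  · rw [gaussianReal_of_var_ne_zero _ hv, integrable_withDensity_iff (measurable_gaussianPDF _ _)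
      (ae_of_all _ fun _ => gaussianPDF_lt_top)] at hi
    simpa [mul_comm] using hi
  · have := integral_gaussianReal_eq_integral_smul (μ := m) (f := fun x => a * x ^ 2 + b * x + c) hv
    simp only [smul_eq_mul] at this
    rw [← this, integral_add (f := fun x => a * x ^ 2 + b * x) ((i2.const_mul a).add (i1.const_mul b)) (integrable_const c),
      integral_add (i2.const_mul a) (i1.const_mul b), integral_const_mul, integral_const_mul, e2,
      integral_id_gaussianReal]
    simp

lemma shift (m : ℝ) {v : ℝ≥0} (hv : v ≠ 0) (θ x : ℝ) :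
    exp (θ * x) * g m v x = exp (θ * m + v * θ ^ 2 / 2) * g (m + θ * v) v x := by
  have : (v : ℝ) ≠ 0 := NNReal.coe_ne_zero.2 hv
  simp only [gaussianPDFReal]
  rw [mul_left_comm, mul_left_comm (exp _), ← exp_add, ← exp_add]
  congr 2
  field_simp
  ring

lemma log_ratio (m : ℝ) {v : ℝ≥0} (hv : v ≠ 0) (x : ℝ) : log (g m v x / phi x) =
    (1 / 2 - 1 / (2 * v)) * x ^ 2 + m / v * x + (-m ^ 2 / (2 * v) - log v / 2) := by
  have h : (0 : ℝ) < v := NNReal.coe_pos.2 (pos_iff_ne_zero.2 hv)
  have hπ := pi_pos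
  simp only [gaussianPDFReal, phi]
  rw [log_div (by positivity) (by positivity), log_mul (by positivity) (by positivity),
    log_mul (by positivity) (by positivity), log_exp, log_exp, log_inv, log_inv,
    log_sqrt (by positivity), log_sqrt (by positivity), log_mul (by positivity) h.ne']
  simp only [NNReal.coe_one, mul_one]
  field_simp
  ring

lemma g_deriv (m : ℝ) {v : ℝ≥0} (hv : v ≠ 0) (x : ℝ) :
    HasDerivAt (g m v) (-(x - m) / v * g m v x) x := by
  have : (v : ℝ) ≠ 0 := NNReal.coe_ne_zero.2 hv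
  have h := (((((hasDerivAt_id x).sub_const m).pow 2).neg.div_const (2 * v)).exp).const_mul
    (√(2 * π * v))⁻¹
  refine h.congr_deriv ?_
  simp only [gaussianPDFReal, id, Pi.pow_apply, Pi.neg_apply]
  field_simp
  norm_num

lemma mul_log_ge {f t : ℝ} (hf : 0 < f) (ht : 0 < t) : f - t ≤ f * log (f / t) := by
  have := one_sub_inv_le_log_of_pos (div_pos hf ht)
  rw [inv_div] at this
  have h2 := mul_le_mul_of_nonneg_left this hf.le
  rwa [mul_sub, mul_one, mul_div_cancel₀ _ hf.ne'] at h2

lemma phi_pos (x : ℝ) : 0 < phi x := gaussianPDFReal_pos _ _ _ one_ne_zero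

noncomputable def mix (s : Finset ℕ) (w m : ℕ → ℝ) (v : ℝ≥0) (x : ℝ) : ℝ :=
  ∑ k ∈ s, w k * g (m k) v x

section
variable {s : Finset ℕ} {w m : ℕ → ℝ} {v : ℝ≥0}

lemma quadmix (hv : v ≠ 0) (s : Finset ℕ) (w m a b c : ℕ → ℝ) :
    Integrable (fun x => ∑ k ∈ s, w k * (g (m k) v x * (a k * x ^ 2 + b k * x + c k))) ∧
      ∫ x, ∑ k ∈ s, w k * (g (m k) v x * (a k * x ^ 2 + b k * x + c k)) =
        ∑ k ∈ s, w k * (a k * (m k ^ 2 + v) + b k * m k + c k) := by
  have h := fun k => ((quad (m k) hv (a k) (b k) (c k)).1.const_mul (w k))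
  refine ⟨integrable_finsetSum _ fun k _ => h k, ?_⟩
  rw [integral_finsetSum _ fun k _ => h k]
  exact sum_congr rfl fun k _ => by rw [integral_const_mul, (quad (m k) hv _ _ _).2]

lemma mix_quad (hv : v ≠ 0) (a b c : ℝ) :
    Integrable (fun x => mix s w m v x * (a * x ^ 2 + b * x + c)) ∧
      ∫ x, mix s w m v x * (a * x ^ 2 + b * x + c) =
        ∑ k ∈ s, w k * (a * (m k ^ 2 + v) + b * m k + c) := by
  have := quadmix hv s w m (fun _ => a) (fun _ => b) fun _ => c
  simpa only [mix, sum_mul, mul_assoc] using this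

lemma mix_one (hv : v ≠ 0) (h1 : ∑ k ∈ s, w k = 1) :
    Integrable (mix s w m v) ∧ ∫ x, mix s w m v x = 1 := by
  have := mix_quad (s := s) (w := w) (m := m) hv 0 0 1
  simpa [h1] using this

lemma mix_pos (hv : v ≠ 0) (hw : ∀ k, 0 ≤ w k) (h1 : ∑ k ∈ s, w k = 1) (x : ℝ) :
    0 < mix s w m v x := by
  obtain ⟨k, hk, h⟩ := exists_ne_zero_of_sum_ne_zero (h1.trans_ne one_ne_zero)
  exact sum_pos' (fun k _ => mul_nonneg (hw k) (gaussianPDFReal_nonneg _ _ _))
    ⟨k, hk, mul_pos ((hw k).lt_of_ne' h) (gaussianPDFReal_pos _ _ _ hv)⟩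

lemma mix_contDiff : ContDiff ℝ 1 (mix s w m v) := by
  unfold mix g gaussianPDFReal
  fun_prop

lemma phi_int : Integrable phi ∧ ∫ x, phi x = 1 :=
  ⟨integrable_gaussianPDFReal _ _, integral_gaussianPDFReal_eq_one _ one_ne_zero⟩

lemma D_up (hv : v ≠ 0) (hw : ∀ k, 0 ≤ w k) (h1 : ∑ k ∈ s, w k = 1) :
    Integrable (fun x => mix s w m v x * log (mix s w m v x / phi x)) ∧ 0 ≤ D (mix s w m v) ∧
      D (mix s w m v) ≤ ∑ k ∈ s, w k * ((m k ^ 2 + v - 1 - log v) / 2) := by
  have hv' : (v : ℝ) ≠ 0 := NNReal.coe_ne_zero.2 hv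
  have hp := mix_pos (m := m) hv hw h1
  obtain ⟨i1, e1⟩ := quadmix hv s w m (fun _ => 1 / 2 - 1 / (2 * v)) (fun k => m k / v)
    fun k => -m k ^ 2 / (2 * v) - log v / 2
  obtain ⟨i2, e2⟩ := mix_one (m := m) hv h1
  have up : ∀ x, mix s w m v x * log (mix s w m v x / phi x) ≤ ∑ k ∈ s, w k * (g (m k) v x *
      ((1 / 2 - 1 / (2 * v)) * x ^ 2 + m k / v * x + (-m k ^ 2 / (2 * v) - log v / 2))) := by
    intro x
    have h : ∀ k ∈ s, w k * g (m k) v x * log (mix s w m v x / phi x) +
        (w k * g (m k) v x - w k * mix s w m v x) ≤ w k * (g (m k) v x *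
        ((1 / 2 - 1 / (2 * v)) * x ^ 2 + m k / v * x + (-m k ^ 2 / (2 * v) - log v / 2))) := by
      intro k _
      have h0 := gaussianPDFReal_pos (m k) v x hv
      have h2 := mul_le_mul_of_nonneg_left (mul_log_ge h0 (hp x)) (hw k)
      rw [← log_ratio _ hv, log_div h0.ne' (phi_pos x).ne', log_div (hp x).ne' (phi_pos x).ne']
      rw [log_div h0.ne' (hp x).ne'] at h2
      linarith
    have := sum_le_sum h
    rw [sum_add_distrib, sum_sub_distrib, ← sum_mul, ← sum_mul, h1] at this
    simp only [mix] at this ⊢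
    linarith
  have low : ∀ x, mix s w m v x - phi x ≤ mix s w m v x * log (mix s w m v x / phi x) :=
    fun x => mul_log_ge (hp x) (phi_pos x)
  have i3 : Integrable (fun x => mix s w m v x * log (mix s w m v x / phi x)) := by
    refine integrable_of_le_of_le (Measurable.aestronglyMeasurable ?_) (ae_of_all _ low)
      (ae_of_all _ up) (i2.sub phi_int.1) i1
    unfold mix phi
    fun_prop
  refine ⟨i3, ?_, (integral_mono i3 i1 up).trans (le_of_eq (e1.trans (sum_congr rfl fun k _ => ?_)))⟩
  · have := integral_mono (i2.sub phi_int.1) i3 low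
    rwa [integral_sub' i2 phi_int.1, e2, phi_int.2, sub_self] at this
  · field_simp
    ring

lemma D_low (hv : v ≠ 0) (hw : ∀ k, 0 ≤ w k) (h1 : ∑ k ∈ s, w k = 1) {j : ℕ} (hj : j ∈ s)
    (l : ℝ) : w j * (m j ^ 2 / 2 - l) - exp (-l) ≤ D (mix s w m v) := by
  have hp := mix_pos (m := m) hv hw h1
  obtain ⟨i1, e1⟩ := quad (m j) hv 0 (m j) (-l - m j ^ 2 / 2)
  obtain ⟨i2, e2⟩ := mix_one (m := m) hv h1
  have i3 := integrable_gaussianPDFReal (m j) 1
  have e3 := integral_gaussianPDFReal_eq_one (m j) (v := 1) one_ne_zero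
  have key : ∀ x, w j * (g (m j) v x * (0 * x ^ 2 + m j * x + (-l - m j ^ 2 / 2))) +
      (mix s w m v x - phi x) - exp (-l) * g (m j) 1 x ≤
      mix s w m v x * log (mix s w m v x / phi x) := by
    intro x
    set y := m j * x + (-l - m j ^ 2 / 2) with hy
    have e : phi x * exp y = exp (-l) * g (m j) 1 x := by
      have := shift 0 (v := 1) one_ne_zero (m j) x
      simp only [NNReal.coe_one, mul_zero, zero_add, mul_one, one_mul] at this
      rw [hy, exp_add, phi, mul_comm (g 0 1 x), mul_right_comm, this, mul_right_comm, ← exp_add]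
      congr 2
      ring
    have he : 0 < 1 + exp y := by positivity
    have h2 := mul_log_ge (hp x) (mul_pos (phi_pos x) he)
    rw [← div_div, log_div (div_pos (hp x) (phi_pos x)).ne' he.ne'] at h2
    have h3 : y ≤ log (1 + exp y) := (le_log_iff_exp_le he).2 (by linarith)
    have h4 : 0 ≤ log (1 + exp y) := log_nonneg (by linarith [exp_pos y])
    have h5 : w j * g (m j) v x ≤ mix s w m v x :=
      single_le_sum (f := fun k => w k * g (m k) v x)
        (fun k _ => mul_nonneg (hw k) (gaussianPDFReal_nonneg _ _ _)) hj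
    have h6 := mul_le_mul_of_nonneg_left h3 (mul_nonneg (hw j) (gaussianPDFReal_nonneg (m j) v x))
    have h7 := mul_le_mul_of_nonneg_right h5 h4
    rw [zero_mul, zero_add, ← hy]
    linarith
  have := integral_mono (((i1.const_mul _).add (i2.sub phi_int.1)).sub (i3.const_mul _))
    (D_up (m := m) hv hw h1).1 key
  rw [integral_sub' ((i1.const_mul _).add (i2.sub phi_int.1)) (i3.const_mul _),
    integral_add' (i1.const_mul _) (i2.sub phi_int.1), integral_sub' i2 phi_int.1,
    integral_const_mul, integral_const_mul, e1, e2, e3, phi_int.2] at this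
  unfold D
  linarith

lemma score (hv : v ≠ 0) (hw : ∀ k, 0 ≤ w k) (h1 : ∑ k ∈ s, w k = 1) (x : ℝ) :
    mix s w m v x * (deriv (mix s w m v) x / mix s w m v x + x) =
      ∑ k ∈ s, w k * g (m k) v x * ((1 - 1 / v) * x + m k / v) := by
  have h : HasDerivAt (mix s w m v) (∑ k ∈ s, w k * (-(x - m k) / v * g (m k) v x)) x :=
    HasDerivAt.fun_sum fun k _ => (g_deriv (m k) hv x).const_mul (w k)
  rw [mul_add, mul_div_cancel₀ _ (mix_pos hv hw h1 x).ne', h.deriv, mix, sum_mul, ← sum_add_distrib]
  exact sum_congr rfl fun k _ => by ring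

lemma J_up (hv : v ≠ 0) (hw : ∀ k, 0 ≤ w k) (h1 : ∑ k ∈ s, w k = 1) :
    Integrable (fun x => mix s w m v x * (deriv (mix s w m v) x / mix s w m v x + x) ^ 2) ∧
      0 ≤ J (mix s w m v) ∧ J (mix s w m v) ≤ ∑ k ∈ s, w k * (m k ^ 2 + (1 - v) ^ 2 / v) := by
  have hv' : (v : ℝ) ≠ 0 := NNReal.coe_ne_zero.2 hv
  have hp := mix_pos (m := m) hv hw h1
  obtain ⟨i1, e1⟩ := quadmix hv s w m (fun _ => (1 - 1 / v) ^ 2) (fun k => 2 * (1 - 1 / v) * (m k / v))
    fun k => (m k / v) ^ 2
  have up : ∀ x, mix s w m v x * (deriv (mix s w m v) x / mix s w m v x + x) ^ 2 ≤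
      ∑ k ∈ s, w k * (g (m k) v x * ((1 - 1 / v) ^ 2 * x ^ 2 + 2 * (1 - 1 / v) * (m k / v) * x +
        (m k / v) ^ 2)) := by
    intro x
    have e := score (m := m) hv hw h1 x
    set ρ := deriv (mix s w m v) x / mix s w m v x + x
    have h : ∀ k ∈ s, 2 * ρ * (w k * g (m k) v x * ((1 - 1 / v) * x + m k / v)) -
        ρ ^ 2 * (w k * g (m k) v x) ≤ w k * (g (m k) v x * ((1 - 1 / v) ^ 2 * x ^ 2 +
          2 * (1 - 1 / v) * (m k / v) * x + (m k / v) ^ 2)) := fun k _ => by
      have := mul_nonneg (mul_nonneg (hw k) (gaussianPDFReal_nonneg (m k) v x))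
        (sq_nonneg ((1 - 1 / v) * x + m k / v - ρ))
      linarith
    have := sum_le_sum h
    rw [sum_sub_distrib, ← mul_sum, ← mul_sum, ← e] at this
    simp only [mix] at this ⊢
    linarith
  have low : ∀ x, 0 ≤ mix s w m v x * (deriv (mix s w m v) x / mix s w m v x + x) ^ 2 :=
    fun x => mul_nonneg (hp x).le (sq_nonneg _)
  have i3 : Integrable (fun x => mix s w m v x * (deriv (mix s w m v) x / mix s w m v x + x) ^ 2) := by
    refine integrable_of_le_of_le (Measurable.aestronglyMeasurable ?_) (ae_of_all _ low)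
      (ae_of_all _ up) (integrable_zero _ _ _) i1
    have := (mix_contDiff (s := s) (w := w) (m := m) (v := v)).continuous.measurable
    have := measurable_deriv (mix s w m v)
    fun_prop
  refine ⟨i3, integral_nonneg low,
    (integral_mono i3 i1 up).trans (le_of_eq (e1.trans (sum_congr rfl fun k _ => ?_)))⟩
  field_simp
  ring

lemma J_low (hv : v ≠ 0) (hw : ∀ k, 0 ≤ w k) (h1 : ∑ k ∈ s, w k = 1) (c θ : ℝ) :
    2 * c * ∑ k ∈ s, w k * exp (θ * m k + v * θ ^ 2 / 2) * (m k - θ * (1 - v)) -
      c ^ 2 * ∑ k ∈ s, w k * exp (2 * θ * m k + v * (2 * θ) ^ 2 / 2) ≤ J (mix s w m v) := by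
  have hv' : (v : ℝ) ≠ 0 := NNReal.coe_ne_zero.2 hv
  have hp := mix_pos (m := m) hv hw h1
  obtain ⟨i1, e1⟩ := quadmix hv s (fun k => w k * exp (θ * m k + v * θ ^ 2 / 2))
    (fun k => m k + θ * v) (fun _ => 0) (fun _ => 1 - 1 / v) fun k => m k / v
  obtain ⟨i2, e2⟩ := quadmix hv s (fun k => w k * exp (2 * θ * m k + v * (2 * θ) ^ 2 / 2))
    (fun k => m k + 2 * θ * v) (fun _ => 0) (fun _ => 0) fun _ => 1
  have := integral_mono ((i1.const_mul (2 * c)).sub (i2.const_mul (c ^ 2)))
    (J_up (m := m) hv hw h1).1 fun x => by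
      have e := score (m := m) hv hw h1 x
      have a1 : ∑ k ∈ s, w k * exp (θ * m k + v * θ ^ 2 / 2) * (g (m k + θ * v) v x *
          (0 * x ^ 2 + (1 - 1 / v) * x + m k / v)) = exp (θ * x) *
          ∑ k ∈ s, w k * g (m k) v x * ((1 - 1 / v) * x + m k / v) := by
        rw [mul_sum]
        exact sum_congr rfl fun k _ => by
          linear_combination (-w k * ((1 - 1 / v) * x + m k / v)) * shift (m k) hv θ x
      have a2 : ∑ k ∈ s, w k * exp (2 * θ * m k + v * (2 * θ) ^ 2 / 2) * (g (m k + 2 * θ * v) v x *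
          (0 * x ^ 2 + 0 * x + 1)) = exp (θ * x) ^ 2 * mix s w m v x := by
        rw [mix, mul_sum, ← exp_nat_mul, ← mul_assoc]
        exact sum_congr rfl fun k _ => by
          push_cast
          linear_combination (-w k) * shift (m k) hv (2 * θ) x
      simp only [Pi.sub_apply]
      rw [a1, a2, ← e]
      have := mul_nonneg (hp x).le
        (sq_nonneg (deriv (mix s w m v) x / mix s w m v x + x - c * exp (θ * x)))
      linarith
  rw [integral_sub' (i1.const_mul _) (i2.const_mul _), integral_const_mul, integral_const_mul,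
    e1, e2] at this
  refine le_trans (le_of_eq ?_) this
  congr 2
  · exact sum_congr rfl fun k _ => by field_simp; ring
  · exact sum_congr rfl fun k _ => by ring

lemma fourth (hv : v ≠ 0) (hw : ∀ k, 0 ≤ w k) (hv1 : (v : ℝ) ≤ 1) :
    Integrable (fun x => x ^ 4 * mix s w m v x) ∧
      ∫ x, x ^ 4 * mix s w m v x ≤ ∑ k ∈ s, w k * (8 * m k ^ 4 + 1200) := by
  have key : ∀ k, Integrable (fun x => x ^ 4 * g (m k) v x) ∧
      ∫ x, x ^ 4 * g (m k) v x ≤ 8 * m k ^ 4 + 1200 := by
    intro k
    have i := fun a => integrable_gaussianPDFReal a v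
    have e := fun a => integral_gaussianPDFReal_eq_one a hv
    have up : ∀ x, x ^ 4 * g (m k) v x ≤ 8 * m k ^ 4 * g (m k) v x +
        192 * exp (v / 2) * (g (m k + 1 * v) v x + g (m k + -1 * v) v x) := by
      intro x
      have a1 := shift (m k) hv 1 x
      have a2 := shift (m k) hv (-1) x
      have b1 : exp (x - m k) * g (m k) v x = exp (v / 2) * g (m k + 1 * v) v x := by
        rw [exp_sub, div_mul_eq_mul_div, div_eq_iff (exp_pos _).ne', mul_right_comm, ← exp_add]
        rw [one_mul] at a1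
        rw [a1]; congr 2; ring
      have b2 : exp (-(x - m k)) * g (m k) v x = exp (v / 2) * g (m k + -1 * v) v x := by
        rw [show -(x - m k) = -1 * x - -m k by ring, exp_sub, div_mul_eq_mul_div,
          div_eq_iff (exp_pos _).ne', mul_right_comm, ← exp_add, a2]
        congr 2; ring
      have c1 : (x - m k) ^ 4 ≤ 24 * (exp (x - m k) + exp (-(x - m k))) := by
        have := pow_div_factorial_le_exp |x - m k| (abs_nonneg _) 4
        rw [Even.pow_abs (by decide)] at this
        have h2 : exp |x - m k| ≤ exp (x - m k) + exp (-(x - m k)) := by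
          rcases abs_choice (x - m k) with h | h <;> rw [h] <;> linarith [exp_pos (x - m k),
            exp_pos (-(x - m k))]
        norm_num [Nat.factorial] at this
        linarith
      have c2 : x ^ 4 ≤ 8 * m k ^ 4 + 8 * (x - m k) ^ 4 := by
        have := (even_two.add even_two).add_pow_le (a := m k) (b := x - m k)
        norm_num at this
        linarith
      have := mul_le_mul_of_nonneg_right (c2.trans (add_le_add_right (mul_le_mul_of_nonneg_left c1
        (by norm_num)) _)) (gaussianPDFReal_nonneg (m k) v x)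
      linarith
    have iu := ((i (m k)).const_mul (8 * m k ^ 4)).add
      (((i (m k + 1 * v)).add (i (m k + -1 * v))).const_mul (192 * exp (v / 2)))
    have i3 : Integrable (fun x => x ^ 4 * g (m k) v x) :=
      integrable_of_le_of_le (Measurable.aestronglyMeasurable (by fun_prop)) (ae_of_all _ fun x =>
        mul_nonneg (by positivity) (gaussianPDFReal_nonneg _ _ _)) (ae_of_all _ up)
        (integrable_zero _ _ _) iu
    refine ⟨i3, (integral_mono i3 iu up).trans ?_⟩
    rw [integral_add' ((i _).const_mul _) (((i _).add (i _)).const_mul _), integral_const_mul,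
      integral_const_mul, integral_add' (i _) (i _), e, e, e]
    have := (exp_le_exp.2 (show (v : ℝ) / 2 ≤ 1 by linarith)).trans exp_one_lt_d9.le
    linarith
  have e : (fun x => x ^ 4 * mix s w m v x) = fun x => ∑ k ∈ s, w k * (x ^ 4 * g (m k) v x) := by
    funext x
    rw [mix, mul_sum]
    exact sum_congr rfl fun k _ => by ring
  rw [e, integral_finsetSum _ fun k _ => (key k).1.const_mul _]
  refine ⟨integrable_finsetSum _ fun k _ => (key k).1.const_mul _, sum_le_sum fun k _ => ?_⟩
  rw [integral_const_mul]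
  exact mul_le_mul_of_nonneg_left (key k).2 (hw k)

lemma law_prob (hv : v ≠ 0) (hw : ∀ k, 0 ≤ w k) (h1 : ∑ k ∈ s, w k = 1) :
    IsProbabilityMeasure (law (mix s w m v)) := ⟨by
  rw [law, withDensity_apply _ MeasurableSet.univ, Measure.restrict_univ,
    ← ofReal_integral_eq_lintegral_ofReal (mix_one hv h1).1
      (ae_of_all _ fun x => (mix_pos hv hw h1 x).le), (mix_one hv h1).2, ENNReal.ofReal_one]⟩

lemma charFun_law (hv : v ≠ 0) (hw : ∀ k, 0 ≤ w k) (h1 : ∑ k ∈ s, w k = 1) (t : ℝ) :
    charFun (law (mix s w m v)) t =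
      ∑ k ∈ s, w k * Complex.exp (t * m k * Complex.I - v * t ^ 2 / 2) := by
  have hm := (mix_contDiff (s := s) (w := w) (m := m) (v := v)).continuous.measurable
  rw [charFun_apply_real, law, integral_withDensity_eq_integral_toReal_smul (by fun_prop)
    (ae_of_all _ fun _ => ENNReal.ofReal_lt_top)]
  simp_rw [ENNReal.toReal_ofReal (mix_pos hv hw h1 _).le, mix, sum_smul, mul_smul]
  rw [integral_finsetSum]
  · refine sum_congr rfl fun k _ => ?_
    rw [integral_smul, ← integral_gaussianReal_eq_integral_smul hv, ← charFun_apply_real,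
      charFun_gaussianReal, Complex.real_smul]
  · refine fun k _ => Integrable.smul (w k) ?_
    refine (integrable_gaussianPDFReal (m k) v).smul_of_top_left
      (memLp_top_of_bound (by fun_prop) 1 (ae_of_all _ fun x => ?_))
    rw [← Complex.ofReal_mul, Complex.norm_exp_ofReal_mul_I]

end

end Pool.Agent.Lib.H29.Ent
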