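import Mathlib
import Pool.Agent.Lib.helper29.Ent1

set_option autoImplicit false

namespace Pool.Agent.Lib.H29.Ent

open MeasureTheory ProbabilityTheory Real Finset
open scoped NNReal ENNReal

noncomputable def bw (p : ℝ) (N k : ℕ) : ℝ := p ^ k * (1 - p) ^ (N - k) * N.choose k
noncomputable def bm (L p : ℝ) (N k : ℕ) : ℝ := L * (k - N * p) / √N

lemma bw_nonneg {p : ℝ} (h0 : 0 ≤ p) (h1 : p ≤ 1) (N k : ℕ) : 0 ≤ bw p N k := by
  have := sub_nonneg.2 h1
  unfold bw; positivity

lemma bw_sum (p : ℝ) (N : ℕ) : ∑ k ∈ range (N + 1), bw p N k = 1 := by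
  simp only [bw]
  rw [← add_pow]; simp

lemma law_sum {p : ℝ} (h0 : 0 ≤ p) (h1 : p ≤ 1) (L : ℝ) {v : ℝ≥0} (hv : v ≠ 0) {n : ℕ} (hn : 1 ≤ n) :
    (Measure.pi fun _ : Fin n => law (mix (range 2) (bw p 1) (bm L p 1) v)).map
      (fun x => (∑ i, x i) / √n) = law (mix (range (n + 1)) (bw p n) (bm L p n) v) := by
  have := law_prob (m := bm L p 1) hv (bw_nonneg h0 h1 1) (bw_sum p 1)
  have := law_prob (m := bm L p n) hv (bw_nonneg h0 h1 n) (bw_sum p n)
  refine Measure.ext_of_charFun (funext fun t => ?_)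
  simp_rw [div_eq_inv_mul]
  rw [charFun_map_mul_comp (by fun_prop), charFun_map_sum_pi_eq_prod,
    charFun_law hv (bw_nonneg h0 h1 n) (bw_sum p n), Finset.prod_apply,
    charFun_law hv (bw_nonneg h0 h1 1) (bw_sum p 1), prod_const, card_univ, Fintype.card_fin,
    sum_range_succ, sum_range_one, add_comm, add_pow]
  refine sum_congr rfl fun k hk => ?_
  have hk : k ≤ n := Nat.lt_succ_iff.1 (mem_range.1 hk)
  have hs : ((√n : ℝ) : ℂ) ^ 2 = n := by
    rw [← Complex.ofReal_pow, Real.sq_sqrt (Nat.cast_nonneg n)]; simp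
  have hs0 : ((√n : ℝ) : ℂ) ≠ 0 := by
    intro h
    rw [h] at hs
    have : (n : ℂ) = 0 := by rw [← hs]; simp
    exact absurd (Nat.cast_eq_zero.1 this) (by omega)
  rw [mul_pow, mul_pow, ← Complex.exp_nat_mul, ← Complex.exp_nat_mul, mul_mul_mul_comm,
    ← Complex.exp_add, mul_right_comm]
  congr 1
  · simp [bw]
  · congr 1
    simp only [bm, Nat.cast_sub hk]
    push_cast
    rw [← hs]
    simp only [Real.sqrt_one, Complex.ofReal_one]
    field_simp
    ring

theorem main (n : ℕ) (hn : 1 ≤ n) : ∃ (a : ℝ) (f h : ℝ → ℝ), 0 < a ∧ Good f ∧ Good h ∧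
    ∫ x, x * f x = 0 ∧ ∫ x, x ^ 2 * f x = 1 ∧ Integrable (fun x => x ^ 4 * f x) ∧
    ∫ x, x ^ 4 * f x ≤ 1216 ∧
    (Measure.pi fun _ : Fin n => law f).map (fun x => (∑ i, x i) / √n) = law h ∧
    0 ≤ J f ∧ J f ≤ 2 * a ∧ a / 10 ≤ J h ∧ 0 ≤ D f ∧ D f ≤ 2 * a ∧ a / 10 ≤ D h := by
  have hn' : (1 : ℝ) ≤ n := by exact_mod_cast hn
  set l : ℝ := 120 * n with hl
  have hl0 : 120 ≤ l := by linarith
  set u := exp (-l / 2) with hu
  have hu0 : 0 < u := exp_pos _
  set q := exp (-l) with hq
  have hq0 : 0 < q := exp_pos _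
  have huq : u ^ 2 = q := by rw [hu, hq, ← exp_nat_mul]; congr 1; push_cast; ring
  have h4 : q * l ^ 4 * n ≤ 1 := by
    have := pow_div_factorial_le_exp l (by linarith) 5
    have h2 : l ^ 5 / (Nat.factorial 5 : ℕ) = l ^ 4 * n := by
      rw [pow_succ, hl]; norm_num [Nat.factorial]; ring
    rw [h2] at this
    rw [hq, exp_neg, mul_assoc, inv_mul_le_iff₀ (exp_pos _), mul_one]
    exact this
  set b := q * l ^ 2 with hb
  have hb0 : 0 < b := by positivity
  have hl2 : 14400 ≤ l ^ 2 := by nlinarith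
  have hb1 : b ≤ 1 / 14400 := by
    have h1 : b * 14400 ≤ b * l ^ 2 := mul_le_mul_of_nonneg_left hl2 hb0.le
    have h2 : b * l ^ 2 * 1 ≤ b * l ^ 2 * n := mul_le_mul_of_nonneg_left hn' (by positivity)
    have h3 : b * l ^ 2 * n = q * l ^ 4 * n := by rw [hb]; ring
    linarith
  have hqb : q * 14400 ≤ b := mul_le_mul_of_nonneg_left hl2 hq0.le
  have hlq : l * q * 120 ≤ b := by
    have := mul_le_mul_of_nonneg_left hl0 (show 0 ≤ l * q by positivity)
    rw [hb]; linarith
  set p := q / n with hp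
  have hp0 : 0 < p := by positivity
  have hnp : n * p = q := by rw [hp]; field_simp
  have hpq : p ≤ q := div_le_self hq0.le hn'
  have hp1 : p ≤ 1 := by linarith
  have hs0 : 0 < √(n : ℝ) := Real.sqrt_pos.2 (by linarith)
  set L := l * √n with hL
  have hL2 : L ^ 2 = l ^ 2 * n := by rw [hL, mul_pow, Real.sq_sqrt (by linarith)]
  have hpL : p * L ^ 2 = b := by rw [hL2, hb, ← hnp]; ring
  set δ := p * (1 - p) * L ^ 2 with hδ
  have hδ0 : 0 ≤ δ := by have := sub_nonneg.2 hp1; positivity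
  have hδb : δ ≤ b := by
    have : 0 ≤ p * (p * L ^ 2) := by positivity
    rw [hδ, ← hpL]; linarith
  let v : ℝ≥0 := ⟨1 - δ, by linarith⟩
  have hvv : (v : ℝ) = 1 - δ := rfl
  have hv : v ≠ 0 := by
    rw [← NNReal.coe_ne_zero, hvv]; linarith
  have W := bw_nonneg hp0.le hp1
  have good : ∀ N, Good (mix (range (N + 1)) (bw p N) (bm L p N) v) := fun N =>
    ⟨mix_contDiff, mix_pos hv (W N) (bw_sum p N), (mix_one hv (bw_sum p N)).1,
      (mix_one hv (bw_sum p N)).2, (D_up hv (W N) (bw_sum p N)).1, (J_up hv (W N) (bw_sum p N)).1⟩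
  have w0 : bw p 1 0 = 1 - p := by simp [bw]
  have w1 : bw p 1 1 = p := by simp [bw]
  have m0 : bm L p 1 0 = -(L * p) := by simp [bm]
  have m1 : bm L p 1 1 = L * (1 - p) := by simp [bm]
  have mk : ∀ k : ℕ, bm L p n k = l * (k - q) := fun k => by rw [bm, hnp, hL]; field_simp
  have wn : 99 / 100 * q ≤ bw p n 1 := by
    have h1 := one_add_mul_le_pow (a := -p) (by linarith) (n - 1)
    rw [Nat.cast_sub hn, Nat.cast_one] at h1
    have h2 : 99 / 100 ≤ (1 - p) ^ (n - 1) := by
      rw [sub_eq_add_neg 1 p]; linarith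
    simp only [bw, pow_one, Nat.choose_one_right]
    rw [show p * (1 - p) ^ (n - 1) * n = (1 - p) ^ (n - 1) * (n * p) by ring, hnp]
    exact mul_le_mul_of_nonneg_right h2 hq0.le
  refine ⟨b, _, _, hb0, good 1, good n, ?_, ?_, (fourth hv (W 1) (by linarith)).1, ?_,
    law_sum hp0.le hp1 L hv hn, (J_up hv (W 1) (bw_sum p 1)).2.1, ?_, ?_,
    (D_up hv (W 1) (bw_sum p 1)).2.1, ?_, ?_⟩
  · have := (mix_quad (s := range 2) (w := bw p 1) (m := bm L p 1) hv 0 1 0).2
    rw [sum_range_succ, sum_range_one, w0, w1, m0, m1] at this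
    simp only [zero_mul, zero_add, add_zero, one_mul] at this
    simp only [mul_comm _ (mix _ _ _ _ _)]
    rw [this]; ring
  · have := (mix_quad (s := range 2) (w := bw p 1) (m := bm L p 1) hv 1 0 0).2
    rw [sum_range_succ, sum_range_one, w0, w1, m0, m1, hvv, hδ] at this
    simp only [zero_mul, add_zero, one_mul] at this
    simp only [mul_comm _ (mix _ _ _ _ _)]
    rw [this]; ring
  · refine (fourth hv (W 1) (by linarith)).2.trans ?_
    rw [sum_range_succ, sum_range_one, w0, w1, m0, m1]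
    have h1 : p * L ^ 4 ≤ 1 := by
      rw [show p * L ^ 4 = p * L ^ 2 * L ^ 2 by ring, hpL, hL2, hb]; linarith
    have h2 : (1 - p) * p ^ 3 ≤ 1 := mul_le_one₀ (by linarith) (by positivity) (pow_le_one₀ hp0.le hp1)
    have h3 : (1 - p) ^ 4 ≤ 1 := pow_le_one₀ (by linarith) (by linarith)
    have h5 := mul_le_mul_of_nonneg_left h2 (show 0 ≤ p * L ^ 4 by positivity)
    have h6 := mul_le_mul_of_nonneg_left h3 (show 0 ≤ p * L ^ 4 by positivity)
    linarith
  · refine (J_up hv (W 1) (bw_sum p 1)).2.2.trans ?_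
    rw [sum_range_succ, sum_range_one, w0, w1, m0, m1, hvv]
    have h1 : (1 - (1 - δ)) ^ 2 / (1 - δ) ≤ δ := by
      rw [div_le_iff₀ (by linarith)]
      have := mul_le_mul_of_nonneg_left (show 2 * δ ≤ 1 by linarith) hδ0
      linarith
    generalize (1 - (1 - δ)) ^ 2 / (1 - δ) = z at *
    linarith
  · refine le_trans ?_ (J_low hv (W n) (bw_sum p n) (u * l / 10) (1 / 2))
    have hA : 9 / 10 * (u * l) ≤ ∑ k ∈ range (n + 1), bw p n k *
        exp (1 / 2 * bm L p n k + v * (1 / 2) ^ 2 / 2) * (bm L p n k - 1 / 2 * (1 - v)) := by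
      refine le_trans ?_ (sum_le_sum_of_subset_of_nonneg (range_subset_range.2 (show 2 ≤ n + 1 by omega))
        fun k _ hk => mul_nonneg (mul_nonneg (W n k) (exp_pos _).le) ?_)
      · rw [sum_range_succ, sum_range_one, mk, mk, hvv]
        have hul : u * l ≤ 1 / 100 := by
          refine le_of_pow_le_pow_left₀ two_ne_zero (by norm_num) ?_
          rw [mul_pow, huq, ← hb]; linarith
        have hul2 : b ≤ u * l * (1 / 100) := by
          rw [hb, ← huq, ← mul_pow, sq]
          exact mul_le_mul_of_nonneg_left hul (by positivity)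
        have t0 : bw p n 0 * exp (1 / 2 * (l * ((0 : ℕ) - q)) + (1 - δ) * (1 / 2) ^ 2 / 2) ≤ 3 := by
          have a1 : bw p n 0 ≤ 1 := by
            simp only [bw, pow_zero, Nat.choose_zero_right, Nat.cast_one, one_mul, mul_one]
            exact pow_le_one₀ (by linarith) (by linarith)
          have a2 : exp (1 / 2 * (l * ((0 : ℕ) - q)) + (1 - δ) * (1 / 2) ^ 2 / 2) ≤ 3 := by
            refine (exp_le_exp.2 ?_).trans (exp_one_lt_d9.le.trans (by norm_num))
            have : 0 ≤ l * q := by positivity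
            push_cast; linarith
          exact (mul_le_mul a1 a2 (exp_pos _).le zero_le_one).trans (by norm_num)
        have t1 : 98 / 100 * u ≤
            bw p n 1 * exp (1 / 2 * (l * ((1 : ℕ) - q)) + (1 - δ) * (1 / 2) ^ 2 / 2) := by
          have a2 : exp (l / 2) * (99 / 100) ≤
              exp (1 / 2 * (l * ((1 : ℕ) - q)) + (1 - δ) * (1 / 2) ^ 2 / 2) := by
            have := add_one_le_exp (-(1 / 100))
            refine (mul_le_mul_of_nonneg_left (show 99 / 100 ≤ exp (-(1 / 100)) by linarith)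
              (exp_pos _).le).trans ?_
            rw [← exp_add, exp_le_exp]
            push_cast; linarith
          have a3 : q * exp (l / 2) = u := by rw [hq, hu, ← exp_add]; congr 1; ring
          refine le_trans ?_ (mul_le_mul wn a2 (by positivity) (W n 1))
          rw [show 99 / 100 * q * (exp (l / 2) * (99 / 100)) = 9801 / 10000 * (q * exp (l / 2)) by ring, a3]
          linarith
        have t2 := mul_le_mul t1 (show 98 / 100 * l ≤ l * ((1 : ℕ) - q) - 1 / 2 * (1 - (1 - δ)) by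
          push_cast; linarith) (by positivity) (mul_nonneg (W n 1) (exp_pos _).le)
        have t3 := mul_le_mul_of_nonpos_right t0
          (show l * ((0 : ℕ) - q) - 1 / 2 * (1 - (1 - δ)) ≤ 0 by
            have : 0 ≤ l * q := by positivity
            push_cast; linarith)
        have : 0 < u * l := by positivity
        push_cast at t2 t3 ⊢
        linarith
      · have : (2 : ℝ) ≤ k := by exact_mod_cast not_lt.1 (mt mem_range.2 hk)
        have h2 := mul_le_mul_of_nonneg_left (show (1 : ℝ) ≤ k - q by linarith) (show 0 ≤ l by linarith)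
        rw [mk, hvv]; linarith
    have hK : ∑ k ∈ range (n + 1), bw p n k *
        exp (2 * (1 / 2) * bm L p n k + v * (2 * (1 / 2)) ^ 2 / 2) ≤ 6 := by
      have h1 : ∀ k ∈ range (n + 1), bw p n k *
          exp (2 * (1 / 2) * bm L p n k + v * (2 * (1 / 2)) ^ 2 / 2) ≤
          (p * exp l) ^ k * (1 - p) ^ (n - k) * n.choose k * 2 := by
        intro k _
        have a1 : exp (2 * (1 / 2) * bm L p n k + v * (2 * (1 / 2)) ^ 2 / 2) ≤ exp l ^ k * 2 := by
          have a2 := exp_bound_div_one_sub_of_interval (x := 1 / 2) (by norm_num) (by norm_num)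
          refine le_trans ?_ (mul_le_mul_of_nonneg_left (a2.trans (by norm_num)) (by positivity))
          rw [← exp_nat_mul, ← exp_add, exp_le_exp, mk, hvv]
          have : 0 ≤ l * q := by positivity
          linarith
        refine (mul_le_mul_of_nonneg_left a1 (W n k)).trans (le_of_eq ?_)
        rw [bw]; ring
      refine (sum_le_sum h1).trans ?_
      have a3 : p * exp l = (n : ℝ)⁻¹ := by
        rw [hp, hq, exp_neg]; field_simp
      rw [← sum_mul, ← add_pow, a3]
      have a4 : ((n : ℝ)⁻¹ + (1 - p)) ^ n ≤ (1 + (n : ℝ)⁻¹) ^ n :=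
        pow_le_pow_left₀ (add_nonneg (by positivity) (by linarith)) (by linarith) n
      linarith [one_add_inv_pow_le_exp (n := n), exp_one_lt_d9]
    have e : (u * l) ^ 2 = b := by rw [mul_pow, huq]
    have c1 := mul_le_mul_of_nonneg_left hA (show 0 ≤ 2 * (u * l / 10) by positivity)
    have c2 := mul_le_mul_of_nonneg_left hK (show 0 ≤ (u * l / 10) ^ 2 by positivity)
    linarith
  · refine (D_up hv (W 1) (bw_sum p 1)).2.2.trans ?_
    rw [sum_range_succ, sum_range_one, w0, w1, m0, m1, hvv]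
    have h1 := one_sub_inv_le_log_of_pos (show 0 < 1 - δ by linarith)
    have h2 : (1 - δ)⁻¹ ≤ 1 + 2 * δ := by
      rw [inv_le_iff_one_le_mul₀ (by linarith)]
      have := mul_le_mul_of_nonneg_left (show 2 * δ ≤ 1 by linarith) hδ0
      linarith
    generalize log (1 - δ) = z at *
    linarith
  · refine le_trans ?_ (D_low hv (W n) (bw_sum p n) (j := 1) (mem_range.2 (by omega)) l)
    rw [mk, ← hq]
    have h1 : (99 / 100 * l) ^ 2 ≤ (l * ((1 : ℕ) - q)) ^ 2 :=
      pow_le_pow_left₀ (by positivity) (by push_cast; linarith) 2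
    have h2 : l * 120 ≤ l ^ 2 := by rw [sq]; exact mul_le_mul_of_nonneg_left hl0 (by linarith)
    have h3 := mul_le_mul wn (show 4 / 10 * l ^ 2 ≤ (l * ((1 : ℕ) - q)) ^ 2 / 2 - l by linarith)
      (by positivity) (W n 1)
    linarith

end Pool.Agent.Lib.H29.Ent
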