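import Mathlib

open MeasureTheory FourierTransform Filter Topology Complex
open scoped Real Convolution Pointwise RealInnerProductSpace

namespace Pool.Agent.Lib.H29.FM

/-- Euclidean space of dimension `d`. -/
abbrev E (d : ℕ) := EuclideanSpace ℝ (Fin d)

/-- A complex Radon measure on `ℝ^d` in polar form `μ = θ · m`: `m = |μ|` is a positive Borel
measure, finite on compact sets, and `θ` is a Borel function of modulus one. -/
structure CMeas (d : ℕ) where
  m : Measure (E d)
  fin : IsFiniteMeasureOnCompacts m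
  θ : E d → ℂ
  meas : Measurable θ
  norm_θ : ∀ x, ‖θ x‖ = 1

/-- The value `μ(f) = ∫ f dμ`. -/
noncomputable def CMeas.act {d : ℕ} (μ : CMeas d) (f : E d → ℂ) : ℂ := ∫ x, f x * μ.θ x ∂μ.m

/-- `f ∈ C_c(ℝ^d)`. -/
def IsCc {d : ℕ} (f : E d → ℂ) : Prop := Continuous f ∧ HasCompactSupport f

/-- `‖μ‖_K = sup_x |μ|(x + K)`. -/
noncomputable def CMeas.normK {d : ℕ} (μ : CMeas d) (K : Set (E d)) : ENNReal :=
  ⨆ x : E d, μ.m (x +ᵥ K)

/-- The measure with continuous density `h`. -/
noncomputable def ofDens {d : ℕ} (h : E d → ℂ) (hc : Continuous h) : CMeas d where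
  m := volume.withDensity (fun x => ((‖h x‖₊ : NNReal) : ENNReal))
  fin := by
    have : IsLocallyFiniteMeasure (volume.withDensity
        (fun x : E d => ((‖h x‖₊ : NNReal) : ENNReal))) :=
      IsLocallyFiniteMeasure.withDensity_coe hc.nnnorm
    infer_instance
  θ := fun x => if h x = 0 then 1 else h x / (‖h x‖ : ℂ)
  meas := by
    refine Measurable.ite ?_ measurable_const ?_
    · exact (isClosed_eq hc continuous_const).measurableSet
    · exact hc.measurable.div (Complex.continuous_ofReal.comp hc.norm).measurable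
  norm_θ := by
    intro x
    split_ifs with h0
    · simp
    · rw [norm_div]
      simp only [Complex.norm_real, norm_norm]
      exact div_self (norm_ne_zero_iff.mpr h0)

lemma ofDens_act {d : ℕ} (h : E d → ℂ) (hc : Continuous h) (f : E d → ℂ) :
    (ofDens h hc).act f = ∫ x, f x * h x := by
  unfold CMeas.act ofDens
  simp only
  rw [integral_withDensity_eq_integral_smul hc.nnnorm.measurable]
  congr 1
  ext x
  by_cases h0 : h x = 0
  · simp [h0]
  · have : (‖h x‖ : ℂ) ≠ 0 := by exact_mod_cast norm_ne_zero_iff.mpr h0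
    simp only [h0, if_false, NNReal.smul_def, coe_nnnorm, Complex.real_smul]
    field_simp

lemma ofDens_finite {d : ℕ} (h : E d → ℂ) (hc : Continuous h) (hi : Integrable h) :
    IsFiniteMeasure (ofDens h hc).m := by
  unfold ofDens
  simp only
  exact isFiniteMeasure_withDensity hi.2.ne

lemma ofDens_normK {d : ℕ} (h : E d → ℂ) (hc : Continuous h) (C : ℝ) (hC : ∀ x, ‖h x‖ ≤ C)
    (K : Set (E d)) (hK : IsCompact K) :
    (ofDens h hc).normK K ≤ ENNReal.ofReal C * volume K := by
  unfold CMeas.normK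
  refine iSup_le fun x => ?_
  unfold ofDens
  simp only
  have hm : MeasurableSet (x +ᵥ K) := (hK.vadd x).measurableSet
  rw [withDensity_apply _ hm]
  calc ∫⁻ a in x +ᵥ K, ((‖h a‖₊ : NNReal) : ENNReal)
      ≤ ∫⁻ _ in x +ᵥ K, ENNReal.ofReal C := by
        refine lintegral_mono fun a => ?_
        rw [← enorm_eq_nnnorm, ← ofReal_norm]
        exact ENNReal.ofReal_le_ofReal (hC a)
    _ = ENNReal.ofReal C * volume K := by
        rw [setLIntegral_const, measure_vadd]

lemma cont_inv {d : ℕ} {w : E d → ℂ} (hw : Integrable w) : Continuous (𝓕⁻ w) := by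
  rw [Real.fourierInv_eq_fourier_comp_neg]
  exact VectorFourier.fourierIntegral_continuous Real.continuous_fourierChar
    (innerSL ℝ).continuous₂ hw.comp_neg

lemma norm_inv_le {d : ℕ} (w : E d → ℂ) (x : E d) : ‖𝓕⁻ w x‖ ≤ ∫ y, ‖w y‖ := by
  rw [Real.fourierInv_eq]
  refine (norm_integral_le_integral_norm _).trans (le_of_eq ?_)
  simp_rw [Circle.norm_smul]

lemma swap {d : ℕ} {g w : E d → ℂ} (hg : Integrable g) (hw : Integrable w) :
    ∫ x, g x * 𝓕⁻ w x = ∫ y, 𝓕⁻ g y * w y := by
  have := VectorFourier.integral_fourierIntegral_smul_eq_flip (L := -innerₗ (E d))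
    (μ := volume) (ν := volume) (f := g) (g := w) Real.continuous_fourierChar
    (by
      have : Continuous fun p : E d × E d => -(inner ℝ p.1 p.2) := by fun_prop
      simpa using this) hg hw
  simp only [smul_eq_mul] at this
  symm
  refine this.trans ?_
  congr 1
  ext x
  congr 1
  rw [Real.fourierInv_eq]
  simp [VectorFourier.fourierIntegral, real_inner_comm]

lemma memLp_inv {d : ℕ} {g w : E d → ℂ} (hg : Integrable g) (hc : Continuous w)
    (hw : Integrable w) (p : ENNReal) : MemLp (𝓕⁻ g) p (ofDens w hc).m := by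
  have := ofDens_finite w hc hw
  exact MemLp.of_bound (cont_inv hg).aestronglyMeasurable _
    (Eventually.of_forall (norm_inv_le g))

lemma IsCc.integrable {d : ℕ} {f : E d → ℂ} (hf : IsCc f) : Integrable f :=
  hf.1.integrable_of_hasCompactSupport hf.2

lemma inv_conv {d : ℕ} {f : E d → ℂ} (hf : Integrable f) (y : E d) :
    𝓕⁻ (f ⋆[ContinuousLinearMap.mul ℂ ℂ] (fun x => (starRingEnd ℂ) (f (-x)))) y
      = ((‖𝓕⁻ f y‖ ^ 2 : ℝ) : ℂ) := by
  have h2 : Integrable (fun x => (starRingEnd ℂ) (f (-x))) :=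
    Complex.conjCLE.toContinuousLinearMap.integrable_comp hf.comp_neg
  rw [Real.fourierInv_eq_fourier_neg, Real.fourier_mul_convolution_eq hf h2,
    Real.fourierInv_eq_fourier_neg]
  have : 𝓕 (fun x => (starRingEnd ℂ) (f (-x))) (-y) = (starRingEnd ℂ) (𝓕 f (-y)) := by
    rw [Real.fourier_eq', Real.fourier_eq', ← integral_conj, ← integral_neg_eq_self]
    congr 1
    ext v
    simp only [smul_eq_mul, map_mul, neg_neg, ← Complex.exp_conj, inner_neg_left,
      inner_neg_right, Complex.conj_ofReal, Complex.conj_I]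
    congr 2
    push_cast
    ring
  rw [this, Complex.mul_conj, Complex.normSq_eq_norm_sq]

end Pool.Agent.Lib.H29.FM
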