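import Pool.Agent.Lib.helper29.FM1

open MeasureTheory FourierTransform Filter Topology Complex
open scoped Real Convolution Pointwise RealInnerProductSpace BoundedContinuousFunction

namespace Pool.Agent.Lib.H29.FM

/-- chirp parameter -/
noncomputable def bb (n : ℕ) : ℂ := 1 + (π * ((n : ℝ) + 1) ^ 4 : ℝ) * I

lemma bb_re (n : ℕ) : 0 < (bb n).re := by
  unfold bb
  simp only [add_re, one_re, mul_re, ofReal_re, I_re, mul_zero, ofReal_im, I_im, mul_one,
    sub_self, add_zero]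
  norm_num

lemma bb_norm (n : ℕ) : π * ((n : ℝ) + 1) ^ 4 ≤ ‖bb n‖ := by
  have h := Complex.abs_im_le_norm (bb n)
  have h2 : (bb n).im = π * ((n : ℝ) + 1) ^ 4 := by
    unfold bb
    simp only [add_im, one_im, mul_im, ofReal_re, I_im, mul_one, ofReal_im, I_re, mul_zero,
      add_zero, zero_add]
  rw [h2, abs_of_nonneg (by positivity)] at h
  exact h

/-- chirped Gaussian -/
noncomputable def ww (d n : ℕ) (v : E d) : ℂ := ((n : ℂ) + 1) * cexp (-bb n * (‖v‖ : ℂ) ^ 2)

lemma ww_cont (d n : ℕ) : Continuous (ww d n) := by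
  unfold ww
  fun_prop

lemma ww_int (d n : ℕ) : Integrable (ww d n) := by
  have := GaussianFourier.integrable_cexp_neg_mul_sq_norm_add (V := E d) (bb_re n) 0 0
  simp only [zero_mul, add_zero] at this
  exact this.const_mul _

lemma norm_exp_le (b : ℂ) (hb : 0 ≤ b.re) (t : ℝ) (ht : 0 ≤ t) : ‖cexp (-b * (t : ℂ))‖ ≤ 1 := by
  rw [Complex.norm_exp]
  apply Real.exp_le_one_iff.mpr
  simp only [neg_mul, neg_re, mul_re, ofReal_re, ofReal_im, mul_zero, sub_zero]
  nlinarith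

lemma ww_bound (d n : ℕ) (v : E d) : ‖ww d n v‖ ≤ (n : ℝ) + 1 := by
  unfold ww
  rw [norm_mul]
  have h1 : ‖((n : ℂ) + 1)‖ = (n : ℝ) + 1 := by
    rw [show ((n : ℂ) + 1) = (((n : ℝ) + 1 : ℝ) : ℂ) by push_cast; ring, Complex.norm_real,
      Real.norm_of_nonneg (by positivity)]
  have h2 := norm_exp_le (bb n) (bb_re n).le (‖v‖ ^ 2) (by positivity)
  push_cast at h2
  rw [h1]
  nlinarith [norm_nonneg (cexp (-bb n * (‖v‖ : ℂ) ^ 2))]

lemma inv_ww_bound (d : ℕ) (hd : 1 ≤ d) (n : ℕ) (x : E d) :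
    ‖𝓕⁻ (ww d n) x‖ ≤ 1 / ((n : ℝ) + 1) := by
  rw [Real.fourierInv_eq_fourier_neg]
  have h0 : 𝓕 (ww d n) (-x) =
      ((n : ℂ) + 1) * 𝓕 (fun v : E d => cexp (-bb n * (‖v‖ : ℂ) ^ 2)) (-x) := by
    rw [Real.fourier_eq', Real.fourier_eq', ← integral_const_mul]
    congr 1
    ext v
    unfold ww
    simp only [smul_eq_mul]
    ring
  rw [h0, fourier_gaussian_innerProductSpace (bb_re n), norm_mul, norm_mul]
  have h1 : ‖((n : ℂ) + 1)‖ = (n : ℝ) + 1 := by
    rw [show ((n : ℂ) + 1) = (((n : ℝ) + 1 : ℝ) : ℂ) by push_cast; ring, Complex.norm_real,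
      Real.norm_of_nonneg (by positivity)]
  have hb0 : bb n ≠ 0 := by
    intro h
    have := bb_re n
    rw [h] at this
    simp at this
  have h2 : ‖cexp (-(π : ℂ) ^ 2 * (‖-x‖ : ℂ) ^ 2 / bb n)‖ ≤ 1 := by
    have := norm_exp_le (bb n)⁻¹ (by
      rw [Complex.inv_re]
      exact div_nonneg (bb_re n).le (Complex.normSq_nonneg _)) (π ^ 2 * ‖-x‖ ^ 2) (by positivity)
    convert this using 3
    push_cast
    field_simp
  have hn : (0 : ℝ) < (n : ℝ) + 1 := by positivity
  have h3 : ‖((π : ℂ) / bb n) ^ ((Module.finrank ℝ (E d) : ℂ) / 2)‖ ≤ 1 / ((n : ℝ) + 1) ^ 2 := by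
    have e : ((Module.finrank ℝ (E d) : ℂ) / 2) = (((d : ℝ) / 2 : ℝ) : ℂ) := by
      simp
    rw [e, Complex.norm_cpow_real, norm_div, Complex.norm_real, Real.norm_of_nonneg Real.pi_pos.le]
    have h4 : π / ‖bb n‖ ≤ (1 / ((n : ℝ) + 1) ^ 2) ^ 2 := by
      have := bb_norm n
      rw [div_le_iff₀ (norm_pos_iff.mpr hb0)]
      have e2 : (1 / ((n : ℝ) + 1) ^ 2) ^ 2 * (π * ((n : ℝ) + 1) ^ 4) = π := by
        field_simp
      calc π = (1 / ((n : ℝ) + 1) ^ 2) ^ 2 * (π * ((n : ℝ) + 1) ^ 4) := e2.symm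
        _ ≤ _ := by gcongr
    have h5 : 1 / ((n : ℝ) + 1) ^ 2 ≤ 1 := by
      rw [div_le_one (by positivity)]
      have : (0 : ℝ) ≤ n := by positivity
      nlinarith
    calc (π / ‖bb n‖) ^ ((d : ℝ) / 2) ≤ ((1 / ((n : ℝ) + 1) ^ 2) ^ 2) ^ ((d : ℝ) / 2) := by
          gcongr
      _ = (1 / ((n : ℝ) + 1) ^ 2) ^ d := by
          have hp : (0 : ℝ) ≤ 1 / ((n : ℝ) + 1) ^ 2 := by positivity
          generalize 1 / ((n : ℝ) + 1) ^ 2 = y at hp
          rw [← Real.rpow_natCast y 2, ← Real.rpow_mul hp, ← Real.rpow_natCast]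
          congr 1
          push_cast
          ring
      _ ≤ (1 / ((n : ℝ) + 1) ^ 2) ^ 1 := pow_le_pow_of_le_one (by positivity) h5 hd
      _ = _ := pow_one _
  rw [h1]
  calc ((n : ℝ) + 1) * (‖((π : ℂ) / bb n) ^ ((Module.finrank ℝ (E d) : ℂ) / 2)‖ *
        ‖cexp (-(π : ℂ) ^ 2 * (‖-x‖ : ℂ) ^ 2 / bb n)‖)
      ≤ ((n : ℝ) + 1) * (1 / ((n : ℝ) + 1) ^ 2 * 1) := by gcongr
    _ = 1 / ((n : ℝ) + 1) := by field_simp

/-- the functional `φ ↦ ∫ φ u` on bounded continuous functions -/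
noncomputable def TT {d : ℕ} (u : E d → ℂ) (hu : Integrable u) : (E d →ᵇ ℂ) →L[ℂ] ℂ :=
  LinearMap.mkContinuous
    { toFun := fun φ => ∫ x, φ x * u x
      map_add' := fun φ ψ => by
        have h1 : Integrable (fun x => φ x * u x) :=
          hu.bdd_mul φ.continuous.aestronglyMeasurable (Eventually.of_forall φ.norm_coe_le_norm)
        have h2 : Integrable (fun x => ψ x * u x) :=
          hu.bdd_mul ψ.continuous.aestronglyMeasurable (Eventually.of_forall ψ.norm_coe_le_norm)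
        rw [← integral_add h1 h2]
        congr 1
        ext x
        simp [add_mul]
      map_smul' := fun c φ => by
        simp only [BoundedContinuousFunction.coe_smul, smul_eq_mul, RingHom.id_apply]
        rw [← integral_const_mul]
        congr 1
        ext x
        ring }
    (∫ x, ‖u x‖) fun φ => by
      simp only [LinearMap.coe_mk, AddHom.coe_mk]
      refine (norm_integral_le_integral_norm _).trans ?_
      rw [← integral_mul_const]
      refine integral_mono_of_nonneg (Eventually.of_forall fun x => norm_nonneg _)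
        (hu.norm.mul_const _) (Eventually.of_forall fun x => ?_)
      simp only [norm_mul]
      rw [mul_comm]
      gcongr
      exact φ.norm_coe_le_norm x

lemma TT_apply {d : ℕ} (u : E d → ℂ) (hu : Integrable u) (φ : E d →ᵇ ℂ) :
    TT u hu φ = ∫ x, φ x * u x := rfl

theorem not_vague (d : ℕ) :
    ¬ ∀ g : E d → ℂ, IsCc g → Tendsto (fun n => ∫ x, g x * ww d n x) atTop (𝓝 0) := by
  intro H
  let χ : ContDiffBump (0 : E d) := ⟨1, 2, by norm_num, by norm_num⟩
  have hχc : Continuous (fun x => ((χ x : ℝ) : ℂ)) := Complex.continuous_ofReal.comp χ.continuous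
  have hχs : HasCompactSupport (fun x => ((χ x : ℝ) : ℂ)) :=
    χ.hasCompactSupport.comp_left (g := fun t : ℝ => (t : ℂ)) (by simp)
  have hu : ∀ n, Integrable (fun x => ((χ x : ℝ) : ℂ) * ww d n x) := fun n =>
    (hχc.mul (ww_cont d n)).integrable_of_hasCompactSupport hχs.mul_right
  obtain ⟨C, hC⟩ := banach_steinhaus (g := fun n => TT _ (hu n)) (fun φ => by
    have := H (fun x => φ x * (χ x : ℂ)) ⟨φ.continuous.mul hχc, hχs.mul_left⟩
    obtain ⟨C, hC⟩ := this.norm.bddAbove_range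
    refine ⟨C, fun i => ?_⟩
    have := hC ⟨i, rfl⟩
    simpa [TT_apply, mul_assoc] using this)
  set J : ℝ := ∫ x : E d, χ x * Real.exp (-‖x‖ ^ 2) with hJ
  have hJ0 : 0 < J := by
    refine Continuous.integral_pos_of_hasCompactSupport_nonneg_nonzero (x := 0)
      (χ.continuous.mul (by fun_prop)) χ.hasCompactSupport.mul_right
      (fun x => mul_nonneg χ.nonneg (Real.exp_pos _).le) ?_
    have : χ 0 = 1 := χ.one_of_mem_closedBall (by simp [χ])
    simp [this]
  have key : ∀ n : ℕ, ((n : ℝ) + 1) * J ≤ C := by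
    intro n
    let φ : E d →ᵇ ℂ := BoundedContinuousFunction.ofNormedAddCommGroup
      (fun v => cexp (((π * ((n : ℝ) + 1) ^ 4 * ‖v‖ ^ 2 : ℝ) : ℂ) * I)) (by fun_prop) 1
      (fun v => by rw [Complex.norm_exp_ofReal_mul_I])
    have hφ : ‖φ‖ ≤ 1 := BoundedContinuousFunction.norm_ofNormedAddCommGroup_le _ (by norm_num) _
    have h1 : TT _ (hu n) φ = ((((n : ℝ) + 1) * J : ℝ) : ℂ) := by
      rw [TT_apply, hJ, ← integral_const_mul, ← integral_complex_ofReal]
      congr 1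
      ext v
      simp only [φ, BoundedContinuousFunction.coe_ofNormedAddCommGroup, ww, bb]
      have : cexp (((π * ((n : ℝ) + 1) ^ 4 * ‖v‖ ^ 2 : ℝ) : ℂ) * I) *
          cexp (-(1 + (π * ((n : ℝ) + 1) ^ 4 : ℝ) * I) * (‖v‖ : ℂ) ^ 2)
          = ((Real.exp (-‖v‖ ^ 2) : ℝ) : ℂ) := by
        rw [← Complex.exp_add]
        push_cast
        congr 1
        ring
      rw [Complex.ofReal_mul ((n : ℝ) + 1), Complex.ofReal_mul (χ v), ← this]
      push_cast
      ring
    have h2 := (TT _ (hu n)).le_opNorm φ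
    rw [h1, Complex.norm_real, Real.norm_of_nonneg (by positivity)] at h2
    have h3 := hC n
    have h4 := norm_nonneg (TT _ (hu n))
    nlinarith [norm_nonneg φ]
  obtain ⟨n, hn⟩ := exists_nat_gt (C / J)
  have := key n
  rw [div_lt_iff₀ hJ0] at hn
  nlinarith

end Pool.Agent.Lib.H29.FM
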