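import Pool.Agent.Lib.helper29.FM1

open MeasureTheory FourierTransform Filter Topology Complex
open scoped Real Convolution Pointwise RealInnerProductSpace

namespace Pool.Agent.Lib.H29.FM

/-- character -/
noncomputable def ch {d : ℕ} (a ξ : E d) : ℂ := cexp (((-2 * π * ⟪ξ, a⟫ : ℝ) : ℂ) * I)

lemma ch_norm {d : ℕ} (a ξ : E d) : ‖ch a ξ‖ = 1 := Complex.norm_exp_ofReal_mul_I _

lemma ch_cont {d : ℕ} (a : E d) : Continuous (ch a) := by
  unfold ch
  fun_prop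

lemma ch_pow {d : ℕ} (a ξ : E d) (j : ℕ) : ch a ξ ^ j = ch ((j : ℝ) • a) ξ := by
  unfold ch
  rw [← Complex.exp_nat_mul, real_inner_smul_right]
  congr 1
  push_cast
  ring

lemma inv_mul_ch {d : ℕ} (W : E d → ℂ) (a t : E d) :
    𝓕⁻ (fun ξ => W ξ * ch a ξ) t = 𝓕⁻ W (t - a) := by
  rw [Real.fourierInv_eq', Real.fourierInv_eq']
  congr 1
  ext v
  unfold ch
  simp only [smul_eq_mul, inner_sub_right]
  rw [mul_comm (W v), ← mul_assoc, ← Complex.exp_add]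
  congr 2
  push_cast
  ring

lemma int_mul_ch {d : ℕ} {W : E d → ℂ} (hW : Integrable W) (a : E d) :
    Integrable (fun ξ => W ξ * ch a ξ) :=
  hW.mul_bdd (ch_cont a).aestronglyMeasurable (c := 1)
    (Eventually.of_forall fun ξ => (ch_norm a ξ).le)

lemma inv_add {d : ℕ} {u v : E d → ℂ} (hu : Integrable u) (hv : Integrable v) (t : E d) :
    𝓕⁻ (fun ξ => u ξ + v ξ) t = 𝓕⁻ u t + 𝓕⁻ v t := by
  rw [Real.fourierInv_eq_fourier_neg, Real.fourierInv_eq_fourier_neg,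
    Real.fourierInv_eq_fourier_neg, Real.fourier_eq, Real.fourier_eq, Real.fourier_eq,
    ← integral_add ((Real.fourierIntegral_convergent_iff _).2 hu)
      ((Real.fourierIntegral_convergent_iff _).2 hv)]
  simp only [smul_add]

lemma inv_const_mul {d : ℕ} (c : ℂ) (u : E d → ℂ) (t : E d) :
    𝓕⁻ (fun ξ => c * u ξ) t = c * 𝓕⁻ u t := by
  rw [Real.fourierInv_eq', Real.fourierInv_eq', ← integral_const_mul]
  congr 1
  ext v
  simp only [smul_eq_mul]
  ring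

lemma poly_vanish {d : ℕ} {W : E d → ℂ} (hW : Integrable W) (a t : E d) (m : ℕ)
    (h0 : ∀ j : ℕ, m ≤ j → 𝓕⁻ W (t - (j : ℝ) • a) = 0) (Q : Polynomial ℂ) :
    Integrable (fun ξ => W ξ * (ch a ξ ^ m * Q.eval (ch a ξ))) ∧
      𝓕⁻ (fun ξ => W ξ * (ch a ξ ^ m * Q.eval (ch a ξ))) t = 0 := by
  induction Q using Polynomial.induction_on' with
  | add p q hp hq =>
    have e : (fun ξ => W ξ * (ch a ξ ^ m * (p + q).eval (ch a ξ))) =
        fun ξ => W ξ * (ch a ξ ^ m * p.eval (ch a ξ)) + W ξ * (ch a ξ ^ m * q.eval (ch a ξ)) := by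
      ext ξ
      rw [Polynomial.eval_add]
      ring
    rw [e]
    refine ⟨hp.1.add hq.1, ?_⟩
    rw [inv_add hp.1 hq.1, hp.2, hq.2, add_zero]
  | monomial j c =>
    have e : (fun ξ => W ξ * (ch a ξ ^ m * (Polynomial.monomial j c).eval (ch a ξ))) =
        fun ξ => c * (W ξ * ch (((m + j : ℕ) : ℝ) • a) ξ) := by
      ext ξ
      rw [Polynomial.eval_monomial, ← ch_pow, pow_add]
      ring
    rw [e]
    refine ⟨(int_mul_ch hW _).const_mul c, ?_⟩
    rw [inv_const_mul, inv_mul_ch, h0 _ (Nat.le_add_right m j), mul_zero]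

lemma exists_approx {d : ℕ} (hd : 1 ≤ d) {W : E d → ℂ} (hc : Continuous W) (hW : Integrable W)
    (h0 : ∀ t, 2 ≤ ‖t‖ → 𝓕⁻ W t = 0) (n : ℕ) :
    ∃ w : E d → ℂ, Continuous w ∧ Integrable w ∧ (∀ t, ‖t‖ ≤ n → 𝓕⁻ w t = 0) ∧
      ∀ ξ, ‖ξ‖ ≤ n → ‖w ξ - W ξ‖ ≤ ‖W ξ‖ * (1 / ((n : ℝ) + 1)) := by
  have hn : (0 : ℝ) < (n : ℝ) + 1 := by positivity
  let u : E d := EuclideanSpace.single (⟨0, hd⟩ : Fin d) (1 : ℝ)
  have hu : ‖u‖ = 1 := by simp [u]
  set h : ℝ := 1 / (16 * ((n : ℝ) + 1)) with hh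
  have hh0 : 0 < h := by positivity
  set m : ℕ := 16 * (n + 1) * (n + 2) with hm
  have hcont : ContinuousAt (fun y : ℂ => (1 - y) ^ m) 0 := by fun_prop
  obtain ⟨δ, hδ, hδ2⟩ := Metric.continuousAt_iff.mp hcont (1 / ((n : ℝ) + 1)) (by positivity)
  obtain ⟨K, hK⟩ := exists_pow_lt_of_lt_one hδ (show (1 / 2 : ℝ) < 1 by norm_num)
  obtain ⟨Q, hQ⟩ : (Polynomial.X : Polynomial ℂ) ∣ 1 - (1 - Polynomial.X) ^ K := by
    rw [Polynomial.X_dvd_iff]
    simp [Polynomial.coeff_zero_eq_eval_zero]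
  have hP : ∀ z : ℂ, z ^ m * (Q ^ m).eval z = (1 - (1 - z) ^ K) ^ m := by
    intro z
    have := congrArg (Polynomial.eval z) hQ
    simp only [Polynomial.eval_sub, Polynomial.eval_one, Polynomial.eval_pow, Polynomial.eval_X,
      Polynomial.eval_mul] at this
    rw [this, Polynomial.eval_pow, mul_pow]
  have hv : ∀ t : E d, ‖t‖ ≤ n → ∀ j : ℕ, m ≤ j → 𝓕⁻ W (t - (j : ℝ) • (h • u)) = 0 := by
    intro t ht j hj
    apply h0
    have h1 : ‖(j : ℝ) • (h • u)‖ = j * h := by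
      rw [norm_smul, norm_smul, hu, Real.norm_of_nonneg hh0.le, Real.norm_of_nonneg (by positivity),
        mul_one]
    have h2 : (m : ℝ) * h = n + 2 := by
      rw [hm, hh]
      push_cast
      field_simp
    have h3 : (m : ℝ) ≤ j := by exact_mod_cast hj
    have h4 := norm_sub_norm_le ((j : ℝ) • (h • u)) t
    rw [norm_sub_rev] at h4
    nlinarith
  refine ⟨fun ξ => W ξ * (ch (h • u) ξ ^ m * (Q ^ m).eval (ch (h • u) ξ)), ?_, ?_, ?_, ?_⟩
  · exact hc.mul (((ch_cont _).pow m).mul ((Polynomial.continuous _).comp (ch_cont _)))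
  · exact (poly_vanish hW (h • u) 0 m (hv 0 (by simp)) _).1
  · intro t ht
    exact (poly_vanish hW (h • u) t m (hv t ht) _).2
  · intro ξ hξ
    simp only
    rw [hP, ← mul_sub_one, norm_mul]
    gcongr
    have h1 : ‖1 - ch (h • u) ξ‖ ≤ 1 / 2 := by
      rw [norm_sub_rev]
      unfold ch
      rw [mul_comm _ I]
      refine Real.norm_exp_I_mul_ofReal_sub_one_le.trans ?_
      rw [real_inner_smul_right, Real.norm_eq_abs, abs_mul, abs_mul, abs_mul,
        abs_of_pos Real.pi_pos, abs_of_pos hh0]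
      have h2 : |⟪ξ, u⟫| ≤ n := by
        have := abs_real_inner_le_norm ξ u
        rw [hu, mul_one] at this
        exact this.trans hξ
      have h3 : h * |⟪ξ, u⟫| ≤ 1 / 16 := by
        calc h * |⟪ξ, u⟫| ≤ h * (n + 1) := by gcongr; linarith
          _ = 1 / 16 := by rw [hh]; field_simp
      have h4 := Real.pi_le_four
      have h5 : |(-2 : ℝ)| = 2 := by norm_num
      rw [h5]
      have h6 : 0 ≤ h * |⟪ξ, u⟫| := by positivity
      nlinarith [Real.pi_pos]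
    have h2 : dist ((1 - ch (h • u) ξ) ^ K) 0 < δ := by
      rw [dist_zero_right, norm_pow]
      exact (pow_le_pow_left₀ (norm_nonneg _) h1 K).trans_lt hK
    have := hδ2 h2
    rw [dist_eq_norm] at this
    simpa using this.le

lemma exists_W (d : ℕ) : ∃ W : E d → ℂ, Continuous W ∧ Integrable W ∧
    (∀ t, 2 ≤ ‖t‖ → 𝓕⁻ W t = 0) ∧ 𝓕⁻ W 0 = 1 := by
  let χ : ContDiffBump (0 : E d) := ⟨1, 2, by norm_num, by norm_num⟩
  have hχs : HasCompactSupport (fun x => ((χ x : ℝ) : ℂ)) :=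
    χ.hasCompactSupport.comp_left (g := fun t : ℝ => (t : ℂ)) (by simp)
  have hχd : ContDiff ℝ (⊤ : ℕ∞) (fun x => ((χ x : ℝ) : ℂ)) :=
    Complex.ofRealCLM.contDiff.comp χ.contDiff
  let ψ : SchwartzMap (E d) ℂ := hχs.toSchwartzMap hχd
  have hψ : ∀ x, ψ x = ((χ x : ℝ) : ℂ) := fun x => rfl
  have hinv : 𝓕⁻ (𝓕 (ψ : E d → ℂ)) = ψ :=
    ψ.continuous.fourierInv_fourier_eq ψ.integrable (𝓕 ψ).integrable
  refine ⟨𝓕 (ψ : E d → ℂ), (𝓕 ψ).continuous, (𝓕 ψ).integrable, ?_, ?_⟩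
  · intro t ht
    rw [hinv, hψ, χ.zero_of_le_dist (by simpa [χ] using ht)]
    simp
  · rw [hinv, hψ, χ.one_of_mem_closedBall (by simp [χ])]
    simp

end Pool.Agent.Lib.H29.FM
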