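import Mathlib

set_option autoImplicit false

namespace Pool.Agent.Lib.H29.Gabor

open MeasureTheory
open scoped ComplexConjugate InnerProductSpace

section abstract
variable {H ι : Type*} [NormedAddCommGroup H] [InnerProductSpace ℂ H]

lemma exists_twist (bs : HilbertBasis ι ℂ H) (ε : ι → ℂ) (hε : ∀ i, ‖ε i‖ = 1) (f : H) :
    ∃ g : H, ‖g‖ = ‖f‖ ∧ ∀ i, ⟪bs i, g⟫_ℂ = ε i * ⟪bs i, f⟫_ℂ := by
  have hn : ∀ i, ‖ε i * bs.repr f i‖ = ‖bs.repr f i‖ := fun i => by rw [norm_mul, hε, one_mul]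
  have hm : Memℓp (fun i => ε i * bs.repr f i) 2 := by
    refine memℓp_gen ?_
    simp only [hn]
    exact (lp.memℓp (bs.repr f)).summable (by norm_num)
  refine ⟨bs.repr.symm ⟨_, hm⟩, ?_, fun i => ?_⟩
  · rw [LinearIsometryEquiv.norm_map, ← bs.repr.norm_map f,
      lp.norm_eq_tsum_rpow (by norm_num), lp.norm_eq_tsum_rpow (by norm_num)]
    simp only [hn]
  · rw [← bs.repr_apply_apply, ← bs.repr_apply_apply, LinearIsometryEquiv.apply_symm_apply]

lemma pair (bs : HilbertBasis ι ℂ H) (ε : ι → ℂ) (hε : ∀ i, ‖ε i‖ = 1) (φ ψ g f : H)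
    (h1 : ∀ i, ⟪bs i, φ⟫_ℂ = ε i * ⟪bs i, ψ⟫_ℂ) (h2 : ∀ i, ⟪bs i, g⟫_ℂ = ε i * ⟪bs i, f⟫_ℂ) :
    ⟪φ, g⟫_ℂ = ⟪ψ, f⟫_ℂ := by
  refine (bs.hasSum_inner_mul_inner φ g).unique ?_
  convert bs.hasSum_inner_mul_inner ψ f using 2 with i
  rw [← inner_conj_symm φ, ← inner_conj_symm ψ, h1, h2, map_mul]
  have : conj (ε i) * ε i = 1 := by
    rw [mul_comm, Complex.mul_conj, Complex.normSq_eq_norm_sq, hε]; simp
  linear_combination (conj ⟪bs i, ψ⟫_ℂ * ⟪bs i, f⟫_ℂ) * this

end abstract

variable {d : ℕ}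

/-- the exponential -/
noncomputable def ch (x b : EuclideanSpace ℝ (Fin d)) : ℂ :=
  Complex.exp (-2 * (Real.pi : ℂ) * Complex.I * ((inner ℝ x b : ℝ) : ℂ))

lemma ch_add (x y b : EuclideanSpace ℝ (Fin d)) : ch (x + y) b = ch x b * ch y b := by
  unfold ch
  rw [← Complex.exp_add, inner_add_left]
  congr 1; push_cast; ring

lemma norm_ch (x b : EuclideanSpace ℝ (Fin d)) : ‖ch x b‖ = 1 := by
  unfold ch
  rw [show -2 * (Real.pi : ℂ) * Complex.I * ((inner ℝ x b : ℝ) : ℂ) =
    ((-2 * Real.pi * inner ℝ x b : ℝ) : ℂ) * Complex.I by push_cast; ring]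
  exact Complex.norm_exp_ofReal_mul_I _

lemma cont_ch (b : EuclideanSpace ℝ (Fin d)) : Continuous fun x => ch x b := by
  unfold ch; fun_prop

lemma shift (E : Set (EuclideanSpace ℝ (Fin d))) (F : EuclideanSpace ℝ (Fin d) → ℂ)
    (u b : EuclideanSpace ℝ (Fin d)) (h1 : ∀ x, x ∉ E → F x = 0) (h2 : ∀ x, x ∉ E → F (x - u) = 0) :
    ∫ x in E, F (x - u) * conj (ch x b) = conj (ch u b) * ∫ x in E, F x * conj (ch x b) := by
  rw [setIntegral_eq_integral_of_forall_compl_eq_zero fun x hx => by rw [h2 x hx, zero_mul],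
    setIntegral_eq_integral_of_forall_compl_eq_zero fun x hx => by rw [h1 x hx, zero_mul],
    ← integral_add_right_eq_self _ u, ← integral_const_mul]
  congr 1
  funext x
  rw [add_sub_cancel_right, ch_add, map_mul]
  ring

theorem not_spectral (E W : Set (EuclideanSpace ℝ (Fin d))) (hE : MeasurableSet E)
    (hfin : volume E < ⊤) (hW : MeasurableSet W) (hWE : W ⊆ E) (hW0 : volume W ≠ 0)
    (u : EuclideanSpace ℝ (Fin d)) (hu1 : ∀ x ∈ W, x + u ∉ E) (hu2 : ∀ x ∈ W, x + u + u ∈ E)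
    (hu3 : ∀ x ∈ E, x - u ∈ E ∨ x + u ∈ E) :
    ¬ ∃ B : Set (EuclideanSpace ℝ (Fin d)),
      (∀ b ∈ B, ∀ b' ∈ B, b ≠ b' → ∫ x in E, ch x b * conj (ch x b') = 0) ∧
      (∀ f : EuclideanSpace ℝ (Fin d) → ℂ, MemLp f 2 (volume.restrict E) →
        (∀ b ∈ B, ∫ x in E, f x * conj (ch x b) = 0) → f =ᵐ[volume.restrict E] 0) := by
  rintro ⟨B, ho, hc⟩
  have : IsFiniteMeasure (volume.restrict E) := isFiniteMeasure_restrict.2 hfin.ne
  have hE0 : 0 < (volume E).toReal :=
    ENNReal.toReal_pos (fun h => hW0 (measure_mono_null hWE h)) hfin.ne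
  set c : ℝ := (√((volume E).toReal))⁻¹ with hcdef
  have hc0 : 0 < c := by positivity
  have mch : ∀ b, MemLp (fun x => ch x b) 2 (volume.restrict E) := fun b =>
    MemLp.of_bound (cont_ch b).aestronglyMeasurable 1 (Filter.Eventually.of_forall fun x =>
      (norm_ch x b).le)
  let v : B → Lp ℂ 2 (volume.restrict E) := fun b => (c : ℂ) • (mch b).toLp _
  have hin : ∀ (b : B) (f : Lp ℂ 2 (volume.restrict E)),
      ⟪v b, f⟫_ℂ = c * ∫ x in E, f x * conj (ch x b) := fun b f => by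
    simp only [v, inner_smul_left, Complex.conj_ofReal]
    congr 1
    rw [L2.inner_def]
    refine integral_congr_ae ?_
    filter_upwards [(mch b).coeFn_toLp] with x hx
    rw [hx, RCLike.inner_apply]
  have hin' : ∀ (b : B) (F : EuclideanSpace ℝ (Fin d) → ℂ) (hF : MemLp F 2 (volume.restrict E)),
      ⟪v b, hF.toLp F⟫_ℂ = c * ∫ x in E, F x * conj (ch x b) := fun b F hF => by
    rw [hin]
    congr 1
    refine integral_congr_ae ?_
    filter_upwards [hF.coeFn_toLp] with x hx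
    rw [hx]
  have hon : Orthonormal ℂ v := by
    rw [orthonormal_iff_ite]
    intro b b'
    have : ⟪v b, v b'⟫_ℂ = c * (c * ∫ x in E, ch x b' * conj (ch x b)) := by
      conv_lhs => rw [show v b' = (c : ℂ) • (mch b').toLp _ from rfl]
      rw [inner_smul_right, hin']
    rw [this]
    split_ifs with h
    · subst h
      simp only [Complex.mul_conj, Complex.normSq_eq_norm_sq, norm_ch]
      simp only [one_pow, Complex.ofReal_one, integral_const, MeasurableSet.univ,
        measureReal_restrict_apply, Set.univ_inter, Complex.real_smul, mul_one]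
      rw [← Complex.ofReal_mul, ← Complex.ofReal_mul, Complex.ofReal_eq_one, hcdef,
        Measure.real, ← mul_assoc, ← mul_inv, Real.mul_self_sqrt hE0.le, inv_mul_cancel₀ hE0.ne']
    · rw [ho b' b'.2 b b.2 (fun e => h (Subtype.ext e.symm))]; simp
  have hsp : (Submodule.span ℂ (Set.range v))ᗮ = ⊥ := by
    rw [Submodule.eq_bot_iff]
    intro f hf
    have h0 := hc f (Lp.memLp f) fun b hb => by
      have := hf (v ⟨b, hb⟩) (Submodule.subset_span ⟨_, rfl⟩)
      rw [hin] at this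
      exact (mul_eq_zero.1 this).resolve_left (by exact_mod_cast hc0.ne')
    exact Lp.ext (h0.trans (Lp.coeFn_zero _ _ _).symm)
  let bs := HilbertBasis.mkOfOrthogonalEqBot hon hsp
  have hbs : ∀ b, bs b = v b := fun b => congrFun (HilbertBasis.coe_mkOfOrthogonalEqBot hon hsp) b
  let ε : B → ℂ := fun b => conj (ch u b)
  have hε : ∀ b, ‖ε b‖ = 1 := fun b => by simp only [ε, RCLike.norm_conj, norm_ch]
  have tr : ∀ (F : EuclideanSpace ℝ (Fin d) → ℂ) (w : EuclideanSpace ℝ (Fin d)),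
      MemLp F 2 volume → MemLp (fun x => F (x - w)) 2 volume := fun F w hF =>
    hF.comp_measurePreserving (measurePreserving_sub_right volume w)
  have key : ∀ (F : EuclideanSpace ℝ (Fin d) → ℂ) (hF : MemLp F 2 volume),
      (∀ x, x ∉ E → F x = 0) → (∀ x, x ∉ E → F (x - u) = 0) → ∀ b,
      ⟪bs b, ((tr F u hF).restrict E).toLp _⟫_ℂ = ε b * ⟪bs b, (hF.restrict E).toLp _⟫_ℂ :=
    fun F hF h1 h2 b => by
      rw [hbs, hin', hin', shift E F u b h1 h2]; ring
  have hWfin : volume W ≠ ⊤ := ((measure_mono hWE).trans_lt hfin).ne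
  set f0 : EuclideanSpace ℝ (Fin d) → ℂ := W.indicator fun _ => 1 with hf0
  have mf0 : MemLp f0 2 volume := memLp_indicator_const 2 hW 1 (Or.inr hWfin)
  obtain ⟨g, hg, hg'⟩ := exists_twist bs ε hε ((mf0.restrict E).toLp _)
  have hG : ∀ b, ⟪bs b, ((tr f0 (u + u) mf0).restrict E).toLp _⟫_ℂ = ε b * ⟪bs b, g⟫_ℂ := fun b => by
    rw [hg', hbs, hin', hin', shift E f0 (u + u) b, ch_add, map_mul]
    · ring
    · exact fun x hx => Set.indicator_of_notMem (fun h => hx (hWE h)) _
    · refine fun x hx => Set.indicator_of_notMem (fun h => hx ?_) _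
      have := hu2 _ h
      rwa [add_assoc, sub_add_cancel] at this
  have hS : MeasurableSet {x | x - u ∈ E} := (measurable_id.sub_const u) hE
  have mi : ∀ S : Set (EuclideanSpace ℝ (Fin d)), MeasurableSet S →
      MemLp ((E ∩ S).indicator g) 2 volume := fun S hS =>
    (memLp_indicator_iff_restrict (hE.inter hS)).2
      ((Lp.memLp g).mono_measure (Measure.restrict_mono_set _ Set.inter_subset_left))
  set φ1 := (E ∩ {x | x - u ∈ E}).indicator g with hφ1
  set φ2 := (E ∩ {x | x - u ∈ E}ᶜ).indicator g with hφ2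
  have m1 : MemLp φ1 2 volume := mi _ hS
  have m2 : MemLp φ2 2 volume := mi _ hS.compl
  have z1 : ∀ x, x ∉ E → φ1 x = 0 := fun x hx => Set.indicator_of_notMem (fun h => hx h.1) _
  have z2 : ∀ x, x ∉ E → φ2 x = 0 := fun x hx => Set.indicator_of_notMem (fun h => hx h.1) _
  have e1 : ⟪(m1.restrict E).toLp _, g⟫_ℂ = 0 := by
    have k := key (fun x => φ1 (x - -u)) (tr _ _ m1)
      (fun x hx => Set.indicator_of_notMem (fun h => hx (by simpa using h.2)) _)
      (fun x hx => z1 _ (by simpa using hx))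
    have e : (m1.restrict E).toLp _ = ((tr _ u (tr _ (-u) m1)).restrict E).toLp _ := by
      congr 1; funext x; simp
    rw [e, pair bs ε hε _ _ _ _ k hg', L2.inner_def]
    refine integral_eq_zero_of_ae ?_
    filter_upwards [(mf0.restrict E).coeFn_toLp, ((tr _ (-u) m1).restrict E).coeFn_toLp]
      with x h1 h2
    rw [h1, h2, RCLike.inner_apply]
    by_cases hx : x ∈ W
    · rw [z1 _ (by simpa using hu1 x hx)]; simp
    · rw [hf0, Set.indicator_of_notMem hx]; simp
  have e2 : ⟪(m2.restrict E).toLp _, g⟫_ℂ = 0 := by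
    have k := key φ2 m2 z2 (fun x hx => Set.indicator_of_notMem (fun h => by
      rcases hu3 _ h.1 with h' | h'
      · exact h.2 h'
      · exact hx (by simpa using h')) _)
    rw [← pair bs ε hε _ _ _ _ k hG, L2.inner_def]
    refine integral_eq_zero_of_ae ?_
    filter_upwards [((tr f0 (u + u) mf0).restrict E).coeFn_toLp, ((tr _ u m2).restrict E).coeFn_toLp]
      with x h1 h2
    rw [h1, h2, RCLike.inner_apply]
    by_cases hx : x - (u + u) ∈ W
    · rw [z2 _ (by have := hu1 _ hx; rwa [show x - (u + u) + u = x - u by abel] at this)]; simp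
    · rw [hf0, Set.indicator_of_notMem hx]; simp
  have e3 : (m1.restrict E).toLp _ + (m2.restrict E).toLp _ = g := by
    refine Lp.ext ?_
    filter_upwards [Lp.coeFn_add ((m1.restrict E).toLp _) ((m2.restrict E).toLp _),
      (m1.restrict E).coeFn_toLp, (m2.restrict E).coeFn_toLp, ae_restrict_mem hE]
      with x h h1 h2 hx
    rw [h, Pi.add_apply, h1, h2, hφ1, hφ2]
    by_cases hx' : x - u ∈ E
    · rw [Set.indicator_of_mem (show x ∈ E ∩ {x | x - u ∈ E} from ⟨hx, hx'⟩),
        Set.indicator_of_notMem (fun h => h.2 hx'), add_zero]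
    · rw [Set.indicator_of_notMem (fun h => hx' h.2),
        Set.indicator_of_mem (show x ∈ E ∩ {x | x - u ∈ E}ᶜ from ⟨hx, hx'⟩), zero_add]
  have e4 : g = 0 := by
    rw [← inner_self_eq_zero (𝕜 := ℂ)]
    nth_rewrite 1 [← e3]
    rw [inner_add_left, e1, e2, add_zero]
  rw [e4, norm_zero, eq_comm, norm_eq_zero] at hg
  have h5 : f0 =ᵐ[volume.restrict E] 0 := by
    have := (mf0.restrict E).coeFn_toLp
    rw [hg] at this
    exact this.symm.trans (Lp.coeFn_zero _ _ _)
  have h6 : volume.restrict E W = 0 := by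
    refine measure_mono_null (fun x hx => ?_) h5
    simp [hf0, hx]
  rw [Measure.restrict_apply hW, Set.inter_eq_left.2 hWE] at h6
  exact hW0 h6

end Pool.Agent.Lib.H29.Gabor
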