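import Mathlib
import Pool.Agent.Lib.helper29.Gabor1

set_option autoImplicit false

namespace Pool.Agent.Lib.H29.Gabor

open MeasureTheory
open scoped ComplexConjugate InnerProductSpace

/-- the plane -/
abbrev V : Type := EuclideanSpace ℝ (Fin 2)

/-- a vector -/
noncomputable def vec (a b : ℝ) : V := WithLp.toLp 2 ![a, b]

@[simp] lemma vec0 (a b : ℝ) : vec a b 0 = a := rfl
@[simp] lemma vec1 (a b : ℝ) : vec a b 1 = b := rfl

lemma inner_vec (x : V) (a b : ℝ) : inner ℝ x (vec a b) = x 0 * a + x 1 * b := by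
  simp [PiLp.inner_apply, Fin.sum_univ_two, mul_comm]

/-- the unit square -/
def D : Set V := {x | ∀ i, x i ∈ Set.Ioc (0 : ℝ) (0 + 1)}

lemma mem_D (x : V) : x ∈ D ↔ (0 < x 0 ∧ x 0 ≤ 1) ∧ (0 < x 1 ∧ x 1 ≤ 1) := by
  simp [D, Fin.forall_fin_two]

lemma meas_D : MeasurableSet D := by
  have : D = {x : V | 0 < x 0} ∩ {x | x 0 ≤ 1} ∩ ({x | 0 < x 1} ∩ {x | x 1 ≤ 1}) := by
    ext x; simp [mem_D]
  rw [this]
  measurability

section torus
attribute [local instance] instMeasureSpaceUnitAddCircle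

/-- the section of the covering map -/
noncomputable def sec (z : UnitAddTorus (Fin 2)) : V :=
  WithLp.toLp 2 (UnitAddTorus.measurableEquivPiIoc (fun _ => (0 : ℝ)) z).1

lemma sec_emb : MeasurableEmbedding sec :=
  (MeasurableEquiv.toLp 2 (Fin 2 → ℝ)).measurableEmbedding.comp
    ((MeasurableEmbedding.subtype_coe
      (MeasurableSet.univ_pi' (fun _ => measurableSet_Ioc))).comp
      (UnitAddTorus.measurableEquivPiIoc (fun _ : Fin 2 => (0 : ℝ))).measurableEmbedding)

lemma sec_mp : MeasurePreserving sec volume (volume.restrict D) := by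
  have h1 := UnitAddTorus.measurePreserving_equivPiIoc (fun _ : Fin 2 => (0 : ℝ))
  have hm : MeasurableSet {x : Fin 2 → ℝ | ∀ i, x i ∈ Set.Ioc (0 : ℝ) (0 + 1)} :=
    MeasurableSet.univ_pi' (fun _ => measurableSet_Ioc)
  have h2 := measurePreserving_subtype_coe (μa := (volume : Measure (Fin 2 → ℝ))) hm
  have h3 := (PiLp.volume_preserving_toLp (Fin 2)).restrict_preimage_emb
    (MeasurableEquiv.toLp 2 (Fin 2 → ℝ)).measurableEmbedding D
  exact h3.comp (h2.comp h1)

lemma mFourier_sec (n : Fin 2 → ℤ) (z : UnitAddTorus (Fin 2)) :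
    UnitAddTorus.mFourier n z = conj (ch (sec z) (vec (n 0) (n 1))) := by
  have hz : ∀ i, z i = ((sec z i : ℝ) : UnitAddCircle) := fun i => by
    simp [sec]
  rw [UnitAddTorus.mFourier, ContinuousMap.coe_mk, Fin.prod_univ_two, hz 0, hz 1,
    fourier_coe_apply, fourier_coe_apply, ← Complex.exp_add, ch, ← Complex.exp_conj, inner_vec]
  congr 1
  simp only [map_mul, map_neg, Complex.conj_ofReal, Complex.conj_I, map_ofNat]
  push_cast
  ring

lemma int_ch (a b : ℤ) (h : (a, b) ≠ (0, 0)) : ∫ y in D, conj (ch y (vec a b)) = 0 := by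
  rw [← sec_mp.integral_comp sec_emb]
  have := (orthonormal_iff_ite.1 (UnitAddTorus.orthonormal_mFourier (d := Fin 2))) 0 ![a, b]
  rw [if_neg (fun e => h (by
    have e0 := congrFun e 0
    have e1 := congrFun e 1
    simp at e0 e1
    rw [← e0, ← e1])), ContinuousMap.inner_toLp] at this
  rw [← this]
  congr 1
  funext z
  rw [UnitAddTorus.mFourier_zero, mFourier_sec]
  simp

lemma unique_D (F : V → ℂ) (hF : MemLp F 2 (volume.restrict D))
    (h : ∀ a b : ℤ, ∫ y in D, F y * conj (ch y (vec a b)) = 0) :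
    F =ᵐ[volume.restrict D] 0 := by
  have hG : MemLp (F ∘ sec) 2 volume := hF.comp_measurePreserving sec_mp
  have h0 : hG.toLp _ = 0 := by
    rw [← (UnitAddTorus.mFourierBasis (d := Fin 2)).repr.map_eq_zero_iff]
    ext n
    rw [UnitAddTorus.mFourierBasis_repr, UnitAddTorus.mFourierCoeff]
    have := h (-n 0) (-n 1)
    rw [← sec_mp.integral_comp sec_emb] at this
    simp only [lp.coeFn_zero, Pi.zero_apply]
    rw [← this]
    refine integral_congr_ae ?_
    filter_upwards [hG.coeFn_toLp] with z hz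
    rw [hz, mFourier_sec, smul_eq_mul, mul_comm]
    rfl
  have h1 : F ∘ sec =ᵐ[volume] 0 := by
    have := hG.coeFn_toLp
    rw [h0] at this
    exact this.symm.trans (Lp.coeFn_zero _ _ _)
  rw [← sec_mp.map_eq]
  exact sec_emb.ae_map_iff.2 h1

lemma vol_D : volume D = 1 := by
  have := sec_mp.measure_preimage (s := Set.univ) MeasurableSet.univ.nullMeasurableSet
  rw [Set.preimage_univ, Measure.restrict_apply_univ] at this
  rw [← this]
  have : IsProbabilityMeasure (volume : Measure UnitAddCircle) :=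
    inferInstanceAs (IsProbabilityMeasure AddCircle.haarAddCircle)
  exact measure_univ

end torus

/-- integer vectors -/
noncomputable def iv (l : ℤ × ℤ) : V := vec l.1 l.2

/-- the square containing a point -/
noncomputable def sq (x : V) : ℤ × ℤ := (⌈x 0⌉ - 1, ⌈x 1⌉ - 1)

lemma sq_add (y : V) (l : ℤ × ℤ) : sq (y + iv l) = l ↔ y ∈ D := by
  rw [mem_D]
  simp only [sq, iv, PiLp.add_apply, vec0, vec1, Int.ceil_add_intCast, Prod.ext_iff]
  have h : ∀ (t : ℝ) (k : ℤ), ⌈t⌉ + k - 1 = k ↔ 0 < t ∧ t ≤ 1 := fun t k => by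
    rw [show (⌈t⌉ + k - 1 = k ↔ ⌈t⌉ = 1) by omega, Int.ceil_eq_iff]; simp
  rw [h, h]

lemma meas_sq : Measurable sq := by
  unfold sq
  have h0 : Measurable fun x : V => x 0 := by fun_prop
  have h1 : Measurable fun x : V => x 1 := by fun_prop
  exact (h0.ceil.sub_const 1).prodMk (h1.ceil.sub_const 1)

lemma period (T : Finset (ℤ × ℤ)) (h : V → ℂ) (hi : Integrable h) (hs : ∀ x, h x ≠ 0 → sq x ∈ T) :
    ∫ x, h x = ∫ y in D, ∑ l ∈ T, h (y + iv l) := by
  have ms : ∀ l, MeasurableSet {x | sq x = l} := fun l => meas_sq (measurableSet_singleton l)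
  have e : h = fun x => ∑ l ∈ T, {x | sq x = l}.indicator h x := by
    funext x
    by_cases hx : h x = 0
    · rw [hx, Finset.sum_eq_zero fun l _ => by simp [Set.indicator, hx]]
    · rw [Finset.sum_eq_single (sq x) (fun l _ hl => by simp [Set.indicator, Ne.symm hl])
        (fun h' => absurd (hs x hx) h'), Set.indicator_of_mem (by simp)]
  conv_lhs => rw [e]
  rw [integral_finsetSum _ fun l _ => hi.indicator (ms l),
    integral_finsetSum _ fun l _ => (hi.comp_add_right (iv l)).integrableOn]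
  refine Finset.sum_congr rfl fun l _ => ?_
  rw [← integral_add_right_eq_self _ (iv l), ← integral_indicator meas_D]
  congr 1
  funext y
  by_cases hy : y ∈ D
  · simp [Set.indicator, sq_add, hy]
  · simp [Set.indicator, sq_add, hy]

lemma ae_of_D (f : V → ℂ) (h : ∀ l, (fun y => f (y + iv l)) =ᵐ[volume.restrict D] 0) :
    f =ᵐ[volume] 0 := by
  have h2 : ∀ l, ∀ᵐ x : V, sq x = l → f x = 0 := fun l => by
    have h1 := (ae_restrict_iff' meas_D).1 (h l)
    have h3 := (measurePreserving_sub_right (volume : Measure V) (iv l)).quasiMeasurePreserving.ae h1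
    filter_upwards [h3] with x hx hl
    have := hx ((sq_add _ l).1 (by rwa [sub_add_cancel]))
    simpa using this
  filter_upwards [ae_all_iff.2 h2] with x hx
  exact hx _ rfl

end Pool.Agent.Lib.H29.Gabor
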