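import Mathlib

set_option autoImplicit false

namespace Pool.Agent.Lib.H29.Gabor

/-- the cells of the window -/
def inE (p q : ℤ) : Bool :=
  decide (0 ≤ p) && decide (p < 40) && decide (0 ≤ q) && decide (q < 8) &&
    Nat.testBit 1883590130309639997034712387107895835843219737284182562177228038990310825113336511720617513320700
      (p.toNat + 40 * q.toNat)

/-- indicator -/
def ind (p q : ℤ) : ℤ := if inE p q then 1 else 0

/-- sign -/
def sg (k : ℤ) : ℤ := 1 - 2 * (k % 2)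

/-- box of lattice vectors -/
noncomputable def Box : Finset (ℤ × ℤ) := Finset.Icc (-2) 2 ×ˢ Finset.Icc (-7) 7

/-- nearby windows -/
noncomputable def Near : Finset (ℤ × ℤ) := Finset.Icc (-7) 3 ×ˢ Finset.Icc 0 1

lemma chkO : ∀ r ∈ Finset.Icc (-15 : ℤ) 19, ∀ a ∈ Finset.Icc (-7 : ℤ) 7, ∀ b ∈ Finset.Icc (-1 : ℤ) 1,
    ∑ m ∈ Box, ind (r + 20 * m.1) m.2 * ind (r + 20 * m.1 + 5 * a) (m.2 + 4 * b) *
      sg ((a + b) * m.1 + a * m.2) = if a = 0 ∧ b = 0 then 3 else 0 := by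
  have h : ∀ r ∈ Finset.Icc (-15 : ℤ) 19, ∀ a ∈ Finset.Icc (-7 : ℤ) 7, ∀ b ∈ Finset.Icc (-1 : ℤ) 1,
      ∑ m ∈ Box.filter (fun m => inE (r + 20 * m.1) m.2 = true),
        ind (r + 20 * m.1 + 5 * a) (m.2 + 4 * b) *
        sg ((a + b) * m.1 + a * m.2) = if a = 0 ∧ b = 0 then 3 else 0 := by
    decide +kernel
  intro r hr a ha b hb
  rw [← h r hr a ha b hb, Finset.sum_filter]
  refine Finset.sum_congr rfl fun m _ => ?_
  rw [mul_assoc]
  nth_rewrite 1 [ind]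
  split_ifs <;> simp

lemma chkC : ∀ r ∈ Finset.Icc (0 : ℤ) 19, ∀ w ∈ Finset.Icc (0 : ℤ) 3, ∀ m ∈ Box,
    ∑ u ∈ Near, ind (r - 5 * u.1) (w + 4 * u.2) * (ind (r + 20 * m.1 - 5 * u.1) (w + m.2 + 4 * u.2) *
      sg ((u.1 - u.2) * m.1 + u.1 * m.2)) = if m = 0 then 3 else 0 := by
  have h : ∀ r ∈ Finset.Icc (0 : ℤ) 19, ∀ w ∈ Finset.Icc (0 : ℤ) 3, ∀ m ∈ Box,
      ∑ u ∈ Near.filter (fun u => inE (r - 5 * u.1) (w + 4 * u.2) = true),
        (ind (r + 20 * m.1 - 5 * u.1) (w + m.2 + 4 * u.2) *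
        sg ((u.1 - u.2) * m.1 + u.1 * m.2)) = if m = 0 then 3 else 0 := by
    decide +kernel
  intro r hr w hw m hm
  rw [← h r hr w hw m hm, Finset.sum_filter]
  refine Finset.sum_congr rfl fun u _ => ?_
  nth_rewrite 1 [ind]
  split_ifs <;> simp

lemma chkR : ∀ p ∈ Finset.Icc (0 : ℤ) 39, ∀ q ∈ Finset.Icc (0 : ℤ) 7, inE p q = true →
    inE (p - 1) q = true ∨ inE (p + 1) q = true := by
  decide +kernel

lemma inE_range {p q : ℤ} (h : inE p q = true) : 0 ≤ p ∧ p < 40 ∧ 0 ≤ q ∧ q < 8 := by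
  simp only [inE, Bool.and_eq_true, decide_eq_true_eq] at h
  exact ⟨h.1.1.1.1, h.1.1.1.2, h.1.1.2, h.1.2⟩

lemma ind_range {p q : ℤ} (h : ind p q ≠ 0) : 0 ≤ p ∧ p < 40 ∧ 0 ≤ q ∧ q < 8 := by
  unfold ind at h
  split_ifs at h with h'
  · exact inE_range h'
  · exact absurd rfl h

lemma sg_add (a b : ℤ) : sg (a + b) = sg a * sg b := by
  unfold sg
  rcases Int.emod_two_eq_zero_or_one a with h | h <;>
    rcases Int.emod_two_eq_zero_or_one b with h' | h' <;>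
    rw [Int.add_emod, h, h'] <;> rfl

lemma sg_two (a e : ℤ) : sg (a + 2 * e) = sg a := by
  unfold sg; rw [Int.add_mul_emod_self_left]

lemma sg_sq (a : ℤ) : sg a * sg a = 1 := by
  rw [← sg_add, show a + a = 0 + 2 * a by ring, sg_two]; rfl

/-- the pairing -/
def ph (t l : ℤ × ℤ) : ℤ := (t.1 + t.2) * l.1 + t.1 * l.2

lemma orthZ (r : ℤ) (hr : 0 ≤ r ∧ r < 20) (t t' : ℤ × ℤ) :
    ∑ m ∈ Box, (ind (r + 20 * ((t.1 / 4, 4 * t.2) + m).1 - 5 * t.1) (((t.1 / 4, 4 * t.2) + m).2 - 4 * t.2) *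
        sg (ph t ((t.1 / 4, 4 * t.2) + m))) *
      (ind (r + 20 * ((t.1 / 4, 4 * t.2) + m).1 - 5 * t'.1) (((t.1 / 4, 4 * t.2) + m).2 - 4 * t'.2) *
        sg (ph t' ((t.1 / 4, 4 * t.2) + m))) = if t = t' then 3 else 0 := by
  obtain ⟨t1, t2⟩ := t
  obtain ⟨s1, s2⟩ := t'
  have e : ∀ m : ℤ × ℤ, (ind (r + 20 * ((t1 / 4, 4 * t2) + m).1 - 5 * t1) (((t1 / 4, 4 * t2) + m).2 - 4 * t2) *
        sg (ph (t1, t2) ((t1 / 4, 4 * t2) + m))) *
      (ind (r + 20 * ((t1 / 4, 4 * t2) + m).1 - 5 * s1) (((t1 / 4, 4 * t2) + m).2 - 4 * s2) *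
        sg (ph (s1, s2) ((t1 / 4, 4 * t2) + m))) =
      sg (ph (t1 - s1, t2 - s2) (t1 / 4, 4 * t2)) * (ind (r - 5 * (t1 % 4) + 20 * m.1) m.2 *
        ind (r - 5 * (t1 % 4) + 20 * m.1 + 5 * (t1 - s1)) (m.2 + 4 * (t2 - s2)) *
        sg ((t1 - s1 + (t2 - s2)) * m.1 + (t1 - s1) * m.2)) := fun m => by
    have h : sg (ph (t1, t2) ((t1 / 4, 4 * t2) + m)) * sg (ph (s1, s2) ((t1 / 4, 4 * t2) + m)) =
        sg (ph (t1 - s1, t2 - s2) (t1 / 4, 4 * t2)) *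
          sg ((t1 - s1 + (t2 - s2)) * m.1 + (t1 - s1) * m.2) := by
      rw [← sg_add, ← sg_add, ← sg_two (_ + (_ + _)) (ph (s1, s2) ((t1 / 4, 4 * t2) + m))]
      congr 1
      simp only [ph, Prod.fst_add, Prod.snd_add]
      ring
    simp only [Prod.fst_add, Prod.snd_add] at h ⊢
    rw [show r + 20 * (t1 / 4 + m.1) - 5 * t1 = r - 5 * (t1 % 4) + 20 * m.1 by omega,
      show 4 * t2 + m.2 - 4 * t2 = m.2 by ring,
      show r + 20 * (t1 / 4 + m.1) - 5 * s1 = r - 5 * (t1 % 4) + 20 * m.1 + 5 * (t1 - s1) by omega,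
      show 4 * t2 + m.2 - 4 * s2 = m.2 + 4 * (t2 - s2) by ring]
    linear_combination (ind (r - 5 * (t1 % 4) + 20 * m.1) m.2 *
        ind (r - 5 * (t1 % 4) + 20 * m.1 + 5 * (t1 - s1)) (m.2 + 4 * (t2 - s2))) * h
  simp only [e]
  rw [← Finset.mul_sum]
  by_cases hs : t1 - s1 ∈ Finset.Icc (-7 : ℤ) 7 ∧ t2 - s2 ∈ Finset.Icc (-1 : ℤ) 1
  · rw [chkO _ (by rw [Finset.mem_Icc]; omega) _ hs.1 _ hs.2]
    by_cases h : t1 - s1 = 0 ∧ t2 - s2 = 0
    · rw [if_pos h, if_pos (Prod.ext (by simp only; omega) (by simp only; omega)), h.1, h.2]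
      simp [ph, sg]
    · rw [if_neg h, if_neg (fun h' => h (by simp only [Prod.mk.injEq] at h'; omega)), mul_zero]
  · simp only [Finset.mem_Icc] at hs
    rw [if_neg (fun h' => hs (by simp only [Prod.mk.injEq] at h'; omega)),
      Finset.sum_eq_zero, mul_zero]
    intro m _
    by_contra h
    have h1 := ind_range (left_ne_zero_of_mul (left_ne_zero_of_mul h))
    have h2 := ind_range (right_ne_zero_of_mul (left_ne_zero_of_mul h))
    omega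

/-- the windows near a lattice point -/
def nr (l u : ℤ × ℤ) : ℤ × ℤ := (4 * l.1 + u.1, l.2 / 4 - u.2)

lemma compZ (r : ℤ) (hr : 0 ≤ r ∧ r < 20) (l : ℤ × ℤ) (m : ℤ × ℤ) (hm : m ∈ Box) :
    ∑ u ∈ Near, (ind (r + 20 * l.1 - 5 * (nr l u).1) (l.2 - 4 * (nr l u).2) * sg (ph (nr l u) l)) *
      (ind (r + 20 * (l + m).1 - 5 * (nr l u).1) ((l + m).2 - 4 * (nr l u).2) *
        sg (ph (nr l u) (l + m))) = if m = 0 then 3 else 0 := by
  have e : ∀ u : ℤ × ℤ, (ind (r + 20 * l.1 - 5 * (nr l u).1) (l.2 - 4 * (nr l u).2) *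
      sg (ph (nr l u) l)) *
      (ind (r + 20 * (l + m).1 - 5 * (nr l u).1) ((l + m).2 - 4 * (nr l u).2) *
        sg (ph (nr l u) (l + m))) = sg (l.2 / 4 * m.1) * (ind (r - 5 * u.1) (l.2 % 4 + 4 * u.2) *
        (ind (r + 20 * m.1 - 5 * u.1) (l.2 % 4 + m.2 + 4 * u.2) *
          sg ((u.1 - u.2) * m.1 + u.1 * m.2))) := fun u => by
    have h : sg (ph (nr l u) l) * sg (ph (nr l u) (l + m)) =
        sg (l.2 / 4 * m.1) * sg ((u.1 - u.2) * m.1 + u.1 * m.2) := by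
      rw [← sg_add, ← sg_add,
        ← sg_two (_ + (_ + _)) (ph (nr l u) l + 2 * l.1 * m.1 + 2 * l.1 * m.2)]
      congr 1
      simp only [ph, nr, Prod.fst_add, Prod.snd_add]
      ring
    rw [show r + 20 * l.1 - 5 * (nr l u).1 = r - 5 * u.1 by simp only [nr]; ring,
      show l.2 - 4 * (nr l u).2 = l.2 % 4 + 4 * u.2 by simp only [nr]; omega,
      show r + 20 * (l + m).1 - 5 * (nr l u).1 = r + 20 * m.1 - 5 * u.1 by
        simp only [nr, Prod.fst_add]; ring,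
      show (l + m).2 - 4 * (nr l u).2 = l.2 % 4 + m.2 + 4 * u.2 by
        simp only [nr, Prod.snd_add]; omega]
    linear_combination (ind (r - 5 * u.1) (l.2 % 4 + 4 * u.2) *
        ind (r + 20 * m.1 - 5 * u.1) (l.2 % 4 + m.2 + 4 * u.2)) * h
  simp only [e]
  rw [← Finset.mul_sum, chkC _ (by rw [Finset.mem_Icc]; omega) _ (by rw [Finset.mem_Icc]; omega) _ hm]
  split_ifs with h
  · rw [h]; simp [sg]
  · simp

end Pool.Agent.Lib.H29.Gabor
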