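import Mathlib
import Pool.Agent.Lib.helper29.Gabor2
import Pool.Agent.Lib.helper29.Gabor3

set_option autoImplicit false

namespace Pool.Agent.Lib.H29.Gabor

open MeasureTheory
open scoped ComplexConjugate InnerProductSpace

/-- the small cell containing a point -/
noncomputable def cell (x : V) : ℤ × ℤ := (⌈20 * x 0⌉ - 1, ⌈x 1⌉ - 1)

lemma meas_cell : Measurable cell := by
  unfold cell
  have h0 : Measurable fun x : V => 20 * x 0 := by fun_prop
  have h1 : Measurable fun x : V => x 1 := by fun_prop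
  exact (h0.ceil.sub_const 1).prodMk (h1.ceil.sub_const 1)

/-- the window set -/
def EE : Set V := {x | inE (cell x).1 (cell x).2 = true}

lemma meas_EE : MeasurableSet EE :=
  meas_cell (MeasurableSet.of_discrete (s := {p : ℤ × ℤ | inE p.1 p.2 = true}))

lemma vol_EE : volume EE < ⊤ := by
  refine lt_of_le_of_lt (measure_mono fun x hx => ?_) (measure_closedBall_lt_top (x := (0 : V)) (r := 10))
  obtain ⟨h1, h2, h3, h4⟩ := inE_range hx
  simp only [cell] at h1 h2 h3 h4
  have a1 : (0 : ℝ) < 20 * x 0 := Int.ceil_pos.1 (by omega)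
  have a2 : 20 * x 0 ≤ ((40 : ℤ) : ℝ) := Int.ceil_le.1 (by omega)
  have a3 : (0 : ℝ) < x 1 := Int.ceil_pos.1 (by omega)
  have a4 : x 1 ≤ ((8 : ℤ) : ℝ) := Int.ceil_le.1 (by omega)
  push_cast at a2 a4
  rw [mem_closedBall_zero_iff, EuclideanSpace.norm_eq, Real.sqrt_le_iff, Fin.sum_univ_two,
    Real.norm_eq_abs, Real.norm_eq_abs, sq_abs, sq_abs]
  constructor <;> nlinarith

lemma ind_EE (x : V) : EE.indicator (fun _ => (1 : ℂ)) x = (ind (cell x).1 (cell x).2 : ℂ) := by
  unfold ind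
  by_cases h : x ∈ EE
  · rw [Set.indicator_of_mem h, if_pos (show inE _ _ = true from h)]; simp
  · rw [Set.indicator_of_notMem h, if_neg (show ¬ inE _ _ = true from h)]; simp

/-- time shifts -/
noncomputable def tau (t : ℤ × ℤ) : V := vec (t.1 / 4) (4 * t.2)
/-- frequency shifts -/
noncomputable def fr (t n : ℤ × ℤ) : V := vec ((t.1 + t.2) / 2 + n.1) (t.1 / 2 + n.2)
/-- the Gabor system -/
noncomputable def gb (t n : ℤ × ℤ) (x : V) : ℂ :=
  EE.indicator (fun _ => (1 : ℂ)) (x - tau t) * ch x (fr t n)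

lemma cell_D {y : V} (hy : y ∈ D) : (0 ≤ (cell y).1 ∧ (cell y).1 < 20) ∧ (cell y).2 = 0 := by
  obtain ⟨⟨h1, h2⟩, h3, h4⟩ := (mem_D y).1 hy
  have a1 : 0 < ⌈20 * y 0⌉ := Int.ceil_pos.2 (by linarith)
  have a2 : ⌈20 * y 0⌉ ≤ 20 := Int.ceil_le.2 (by push_cast; linarith)
  have a3 : 0 < ⌈y 1⌉ := Int.ceil_pos.2 h3
  have a4 : ⌈y 1⌉ ≤ 1 := Int.ceil_le.2 (by push_cast; linarith)
  simp only [cell]
  omega

lemma cell_shift (y : V) (l t : ℤ × ℤ) :
    cell (y + iv l - tau t) = ((cell y).1 + 20 * l.1 - 5 * t.1, (cell y).2 + l.2 - 4 * t.2) := by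
  simp only [cell, iv, tau, PiLp.add_apply, PiLp.sub_apply, vec0, vec1, Prod.mk.injEq]
  rw [show 20 * (y 0 + l.1 - t.1 / 4) = 20 * y 0 + ((20 * l.1 - 5 * t.1 : ℤ) : ℝ) by push_cast; ring,
    show y 1 + l.2 - 4 * t.2 = y 1 + ((l.2 - 4 * t.2 : ℤ) : ℝ) by push_cast; ring,
    Int.ceil_add_intCast, Int.ceil_add_intCast]
  omega

lemma exp_sg (k : ℤ) : Complex.exp (-(k : ℂ) * (Real.pi * Complex.I)) = (sg k : ℂ) := by
  have e : -(k : ℂ) * (Real.pi * Complex.I) = ((-(k / 2) - k % 2 : ℤ) : ℂ) * (2 * Real.pi * Complex.I) +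
      ((k % 2 : ℤ) : ℂ) * (Real.pi * Complex.I) := by
    have : (k : ℂ) = 2 * ((k / 2 : ℤ) : ℂ) + ((k % 2 : ℤ) : ℂ) := by
      exact_mod_cast (Int.mul_ediv_add_emod k 2).symm
    rw [Int.cast_sub, Int.cast_neg]
    linear_combination (-(Real.pi * Complex.I)) * this
  rw [e, Complex.exp_add, Complex.exp_int_mul_two_pi_mul_I, one_mul, sg]
  rcases Int.emod_two_eq_zero_or_one k with h | h <;> rw [h]
  · simp
  · simp [Complex.exp_pi_mul_I]

lemma ch_iv (l t n : ℤ × ℤ) : ch (iv l) (fr t n) = (sg (ph t l) : ℂ) := by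
  rw [← sg_two _ (n.1 * l.1 + n.2 * l.2), ← exp_sg, ch, fr, inner_vec]
  congr 1
  simp only [iv, vec0, vec1, ph]
  push_cast
  ring

lemma ch_fr (y : V) (t n : ℤ × ℤ) : ch y (fr t n) = ch y (fr t 0) * ch y (vec n.1 n.2) := by
  simp only [ch, fr, inner_vec, ← Complex.exp_add]
  congr 1
  simp only [Prod.fst_zero, Prod.snd_zero]
  push_cast
  ring

lemma ch_vec (y : V) (n n' : ℤ × ℤ) : ch y (vec n.1 n.2) * conj (ch y (vec n'.1 n'.2)) =
    conj (ch y (vec (n'.1 - n.1 : ℤ) (n'.2 - n.2 : ℤ))) := by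
  simp only [ch, inner_vec, ← Complex.exp_conj, ← Complex.exp_add]
  congr 1
  simp only [map_mul, map_neg, Complex.conj_ofReal, Complex.conj_I, map_ofNat]
  push_cast
  ring

lemma gb_eq {y : V} (hy : y ∈ D) (l t n : ℤ × ℤ) : gb t n (y + iv l) = ch y (fr t n) *
    ((ind ((cell y).1 + 20 * l.1 - 5 * t.1) (l.2 - 4 * t.2) * sg (ph t l) : ℤ) : ℂ) := by
  rw [gb, ind_EE, cell_shift, ch_add, ch_iv, (cell_D hy).2, zero_add]
  push_cast
  ring

lemma mem_gb (t n : ℤ × ℤ) : MemLp (gb t n) 2 volume := by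
  have h : MemLp (fun x => EE.indicator (fun _ => (1 : ℂ)) (x - tau t)) 2 volume :=
    (memLp_indicator_const 2 meas_EE 1 (Or.inr vol_EE.ne)).comp_measurePreserving
      (measurePreserving_sub_right volume (tau t))
  refine h.of_le (h.1.mul (cont_ch _).aestronglyMeasurable) (Filter.Eventually.of_forall fun x => ?_)
  rw [gb, norm_mul, norm_ch, mul_one]

lemma int_mul {f g : V → ℂ} (hf : MemLp f 2 volume) (hg : MemLp g 2 volume) :
    Integrable fun x => f x * conj (g x) := by
  have : MemLp (fun x => conj (g x)) 2 volume :=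
    hg.of_le (Complex.continuous_conj.comp_aestronglyMeasurable hg.1)
      (Filter.Eventually.of_forall fun x => by simp)
  exact hf.integrable_mul this

lemma period' (l : ℤ × ℤ) (h : V → ℂ) (hi : Integrable h)
    (hs : ∀ y ∈ D, ∀ k, h (y + iv k) ≠ 0 → k - l ∈ Box) :
    ∫ x, h x = ∫ y in D, ∑ m ∈ Box, h (y + iv (l + m)) := by
  rw [period (Box.map (addLeftEmbedding l)) h hi fun x hx => ?_]
  · simp only [Finset.sum_map, addLeftEmbedding_apply]
  · have e : x = x - iv (sq x) + iv (sq x) := (sub_add_cancel _ _).symm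
    have := hs _ ((sq_add _ (sq x)).1 (by rw [← e])) (sq x) (by rwa [← e])
    exact Finset.mem_map.2 ⟨_, this, by simp⟩

lemma supp_box {y : V} (hy : y ∈ D) (k l u n : ℤ × ℤ) (hu : u ∈ Near)
    (h : gb (nr l u) n (y + iv k) ≠ 0) : k - l ∈ Box := by
  rw [gb_eq hy] at h
  have h1 := ind_range (left_ne_zero_of_mul (Int.cast_ne_zero.1 (right_ne_zero_of_mul h)))
  have h2 := (cell_D hy).1
  simp only [Near, Box, nr, Finset.mem_product, Finset.mem_Icc, Prod.fst_sub, Prod.snd_sub] at *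
  omega

lemma orth (t n t' n' : ℤ × ℤ) (h : (t, n) ≠ (t', n')) :
    ∫ x, gb t n x * conj (gb t' n' x) = 0 := by
  rw [period' (t.1 / 4, 4 * t.2) _ (int_mul (mem_gb t n) (mem_gb t' n')) fun y hy k hk => ?_]
  · have e : ∀ y ∈ D, ∑ m ∈ Box, gb t n (y + iv ((t.1 / 4, 4 * t.2) + m)) *
        conj (gb t' n' (y + iv ((t.1 / 4, 4 * t.2) + m))) =
        ch y (fr t n) * conj (ch y (fr t' n')) * ((if t = t' then 3 else 0 : ℤ) : ℂ) := fun y hy => by
      rw [← orthZ _ (cell_D hy).1 t t', Int.cast_sum, Finset.mul_sum]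
      refine Finset.sum_congr rfl fun m _ => ?_
      rw [gb_eq hy, gb_eq hy, map_mul, map_intCast, Int.cast_mul (_ * _)]
      ring
    rw [setIntegral_congr_fun meas_D e]
    split_ifs with ht
    · subst ht
      have e2 : ∀ y : V, ch y (fr t n) * conj (ch y (fr t n')) =
          conj (ch y (vec (n'.1 - n.1 : ℤ) (n'.2 - n.2 : ℤ))) := fun y => by
        rw [ch_fr y t n, ch_fr y t n', map_mul, ← ch_vec]
        have : ch y (fr t 0) * conj (ch y (fr t 0)) = 1 := by
          rw [Complex.mul_conj, Complex.normSq_eq_norm_sq, norm_ch]; simp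
        linear_combination (ch y (vec n.1 n.2) * conj (ch y (vec n'.1 n'.2))) * this
      simp only [e2]
      rw [integral_mul_const, int_ch _ _ fun h' => h ?_, zero_mul]
      simp only [Prod.mk.injEq] at h'
      rw [Prod.ext (show n.1 = n'.1 by omega) (show n.2 = n'.2 by omega)]
    · simp
  · have e : t = nr (t.1 / 4, 4 * t.2) (t.1 % 4, 0) := by
      simp only [nr]; refine Prod.ext ?_ ?_ <;> simp only <;> omega
    refine supp_box hy k _ (t.1 % 4, 0) n ?_ (by rw [← e]; exact left_ne_zero_of_mul hk)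
    simp only [Near, Finset.mem_product, Finset.mem_Icc]
    omega

lemma complete (f : V → ℂ) (hf : MemLp f 2 volume)
    (h : ∀ t n, ∫ x, f x * conj (gb t n x) = 0) : f =ᵐ[volume] 0 := by
  refine ae_of_D f fun l => ?_
  have key : ∀ u ∈ Near, (fun y => ∑ m ∈ Box, f (y + iv (l + m)) * conj (gb (nr l u) 0 (y + iv (l + m))))
      =ᵐ[volume.restrict D] 0 := fun u hu => by
    refine unique_D _ (memLp_finsetSum _ fun m _ => ?_) fun a b => ?_
    · have h1 : MemLp (fun y => f (y + iv (l + m))) 2 volume :=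
        hf.comp_measurePreserving (measurePreserving_add_right volume _)
      have h2 : MemLp (fun y => gb (nr l u) 0 (y + iv (l + m))) 2 volume :=
        (mem_gb _ _).comp_measurePreserving (measurePreserving_add_right volume _)
      refine (h1.of_le (h1.1.mul (Complex.continuous_conj.comp_aestronglyMeasurable h2.1))
        (Filter.Eventually.of_forall fun x => ?_)).restrict D
      rw [Pi.mul_apply, norm_mul, RCLike.norm_conj, gb, norm_mul, norm_ch, mul_one]
      refine mul_le_of_le_one_right (norm_nonneg _) ?_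
      rw [Set.indicator]
      split_ifs <;> simp
    · rw [← h (nr l u) (a, b), period' l _ (int_mul hf (mem_gb _ _)) fun y hy k hk =>
        supp_box hy k l u (a, b) hu (by simpa using right_ne_zero_of_mul hk)]
      refine setIntegral_congr_fun meas_D fun y hy => ?_
      rw [Finset.sum_mul]
      refine Finset.sum_congr rfl fun m _ => ?_
      rw [gb_eq hy, gb_eq hy, ch_fr y _ (a, b)]
      simp only [map_mul]
      ring
  filter_upwards [(ae_ball_iff Near.countable_toSet).2 key, ae_restrict_mem meas_D] with y hk hy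
  have hc : ∀ u, conj (ch y (fr (nr l u) 0)) ≠ 0 := fun u h0 => by
    have := congrArg norm h0
    rw [RCLike.norm_conj, norm_ch, norm_zero] at this
    exact one_ne_zero this
  have k2 : ∀ u ∈ Near, ∑ m ∈ Box, f (y + iv (l + m)) *
      ((ind ((cell y).1 + 20 * (l + m).1 - 5 * (nr l u).1) ((l + m).2 - 4 * (nr l u).2) *
        sg (ph (nr l u) (l + m)) : ℤ) : ℂ) = 0 := fun u hu => by
    have := hk u hu
    simp only [Pi.zero_apply] at this
    refine (mul_eq_zero.1 ?_).resolve_left (hc u)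
    rw [← this, Finset.mul_sum]
    refine Finset.sum_congr rfl fun m _ => ?_
    rw [gb_eq hy, map_mul, map_intCast]
    ring
  have k3 : ∑ m ∈ Box, f (y + iv (l + m)) * ((if m = 0 then 3 else 0 : ℤ) : ℂ) = 0 := by
    rw [Finset.sum_congr rfl fun m hm => by
      rw [← compZ _ (cell_D hy).1 l m hm, Int.cast_sum, Finset.mul_sum], Finset.sum_comm]
    refine Finset.sum_eq_zero fun u hu => ?_
    rw [← mul_zero ((ind ((cell y).1 + 20 * l.1 - 5 * (nr l u).1) (l.2 - 4 * (nr l u).2) *
      sg (ph (nr l u) l) : ℤ) : ℂ), ← k2 u hu, Finset.mul_sum]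
    refine Finset.sum_congr rfl fun m _ => ?_
    rw [Int.cast_mul (_ * _)]
    ring
  rw [Finset.sum_eq_single 0 (fun m _ hm => by simp [hm])
    (fun h => absurd (by simp [Box]) h)] at k3
  simpa using k3

lemma cell_add (x : V) : cell (x + vec (1 / 20) 0) = ((cell x).1 + 1, (cell x).2) := by
  simp only [cell, PiLp.add_apply, vec0, vec1, add_zero, Prod.mk.injEq, and_true]
  rw [show 20 * (x 0 + 1 / 20) = 20 * x 0 + 1 by ring, Int.ceil_add_one]
  omega

lemma cell_sub (x : V) : cell (x - vec (1 / 20) 0) = ((cell x).1 - 1, (cell x).2) := by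
  simp only [cell, PiLp.sub_apply, vec0, vec1, sub_zero, Prod.mk.injEq, and_true]
  rw [show 20 * (x 0 - 1 / 20) = 20 * x 0 - 1 by ring, Int.ceil_sub_one]

lemma EE_not_spectral : ¬ ∃ B : Set V,
      (∀ b ∈ B, ∀ b' ∈ B, b ≠ b' → ∫ x in EE, ch x b * conj (ch x b') = 0) ∧
      (∀ f : V → ℂ, MemLp f 2 (volume.restrict EE) →
        (∀ b ∈ B, ∫ x in EE, f x * conj (ch x b) = 0) → f =ᵐ[volume.restrict EE] 0) := by
  refine not_spectral EE {x | cell x = (11, 4)} meas_EE vol_EE
    (meas_cell (measurableSet_singleton _)) (fun x hx => ?_) ?_ (vec (1 / 20) 0)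
    (fun x hx => ?_) (fun x hx => ?_) fun x hx => ?_
  · have : cell x = (11, 4) := hx
    simp only [EE, Set.mem_ofPred_eq, this]; decide +kernel
  · have ho : IsOpen {x : V | 11 < 20 * x 0 ∧ 20 * x 0 < 12 ∧ 4 < x 1 ∧ x 1 < 5} := by
      have c0 : Continuous fun x : V => 20 * x 0 := by fun_prop
      have c1 : Continuous fun x : V => x 1 := by fun_prop
      exact (isOpen_lt continuous_const c0).inter ((isOpen_lt c0 continuous_const).inter
        ((isOpen_lt continuous_const c1).inter (isOpen_lt c1 continuous_const)))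
    have hp := ho.measure_pos volume ⟨vec (23 / 40) (9 / 2), by
      simp only [Set.mem_ofPred_eq, vec0, vec1]; norm_num⟩
    refine (lt_of_lt_of_le hp (measure_mono fun x hx => ?_)).ne'
    obtain ⟨h1, h2, h3, h4⟩ := hx
    have a : ⌈20 * x 0⌉ = 12 := Int.ceil_eq_iff.2 (by push_cast; constructor <;> linarith)
    have b : ⌈x 1⌉ = 5 := Int.ceil_eq_iff.2 (by push_cast; constructor <;> linarith)
    simp only [Set.mem_ofPred_eq, cell, a, b]
    rfl
  · have : cell x = (11, 4) := hx
    simp only [EE, Set.mem_ofPred_eq, cell_add, this]; decide +kernel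
  · have : cell x = (11, 4) := hx
    simp only [EE, Set.mem_ofPred_eq, cell_add, this]; decide +kernel
  · simp only [EE, Set.mem_ofPred_eq, cell_add, cell_sub] at hx ⊢
    have := inE_range hx
    exact chkR _ (by rw [Finset.mem_Icc]; omega) _ (by rw [Finset.mem_Icc]; omega) hx

end Pool.Agent.Lib.H29.Gabor
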