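import Mathlib
import Pool.Agent.Lib.helper29.Gabor4

set_option autoImplicit false

namespace Pool.Agent.Lib.H29.Gabor

open MeasureTheory
open scoped ComplexConjugate InnerProductSpace

/-- integer weights -/
def wt (p q : ℤ) : ℤ :=
  if p = 0 ∧ q = 0 then 3 else if p = 0 ∧ q = 1 then 4 else if p = 1 ∧ q = 0 then -4 else
    if p = 1 ∧ q = 1 then 3 else 0

lemma wt_range {p q : ℤ} (h : wt p q ≠ 0) : 0 ≤ p ∧ p ≤ 1 ∧ 0 ≤ q ∧ q ≤ 1 := by
  unfold wt at h
  split_ifs at h <;> omega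

lemma wt_abs (p q : ℤ) : |wt p q| ≤ 5 := by
  unfold wt
  split_ifs <;> decide

/-- small box -/
noncomputable def Box2 : Finset (ℤ × ℤ) := Finset.Icc (-1) 1 ×ˢ Finset.Icc (-1) 1

lemma chkO2 : ∀ r ∈ Finset.Icc (-1 : ℤ) 1, ∀ a ∈ Finset.Icc (-1 : ℤ) 1,
    ∑ m ∈ Box2, wt (r + 2 * m.1) m.2 * wt (r + 2 * m.1 + a) m.2 = if a = 0 then 25 else 0 := by
  decide +kernel

lemma chkC2 : ∀ r ∈ Finset.Icc (0 : ℤ) 1, ∀ w ∈ Finset.Icc (0 : ℤ) 1, ∀ m ∈ Box2,
    ∑ u ∈ Finset.Icc (-1 : ℤ) 1, wt (r - u) w * wt (r + 2 * m.1 - u) (w + m.2) =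
      if m = 0 then 25 else 0 := by
  decide +kernel

lemma orthZ2 (r : ℤ) (hr : 0 ≤ r ∧ r ≤ 1) (t t' : ℤ × ℤ) :
    ∑ m ∈ Box2, wt (r + 2 * ((t.1 / 2, 2 * t.2) + m).1 - t.1) (((t.1 / 2, 2 * t.2) + m).2 - 2 * t.2) *
      wt (r + 2 * ((t.1 / 2, 2 * t.2) + m).1 - t'.1) (((t.1 / 2, 2 * t.2) + m).2 - 2 * t'.2) =
      if t = t' then 25 else 0 := by
  obtain ⟨t1, t2⟩ := t
  obtain ⟨s1, s2⟩ := t'
  simp only [Prod.fst_add, Prod.snd_add]
  by_cases hs : t1 - s1 ∈ Finset.Icc (-1 : ℤ) 1 ∧ t2 = s2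
  · obtain ⟨hs, rfl⟩ := hs
    have := chkO2 (r - t1 % 2) (by rw [Finset.mem_Icc]; omega) _ hs
    rw [show (if (t1, t2) = (s1, t2) then (25 : ℤ) else 0) = if t1 - s1 = 0 then 25 else 0 by
      simp [sub_eq_zero], ← this]
    refine Finset.sum_congr rfl fun m _ => ?_
    congr 2 <;> omega
  · simp only [Finset.mem_Icc] at hs
    rw [if_neg (fun h' => hs (by simp only [Prod.mk.injEq] at h'; omega)), Finset.sum_eq_zero]
    intro m _
    by_contra h
    have h1 := wt_range (left_ne_zero_of_mul h)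
    have h2 := wt_range (right_ne_zero_of_mul h)
    omega

/-- nearby windows -/
def nr2 (l : ℤ × ℤ) (u : ℤ) : ℤ × ℤ := (2 * l.1 + u, l.2 / 2)

lemma compZ2 (r : ℤ) (hr : 0 ≤ r ∧ r ≤ 1) (l m : ℤ × ℤ) (hm : m ∈ Box2) :
    ∑ u ∈ Finset.Icc (-1 : ℤ) 1, wt (r + 2 * l.1 - (nr2 l u).1) (l.2 - 2 * (nr2 l u).2) *
      wt (r + 2 * (l + m).1 - (nr2 l u).1) ((l + m).2 - 2 * (nr2 l u).2) =
      if m = 0 then 25 else 0 := by
  rw [← chkC2 r (by rw [Finset.mem_Icc]; omega) (l.2 % 2) (by rw [Finset.mem_Icc]; omega) m hm]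
  refine Finset.sum_congr rfl fun u _ => ?_
  simp only [nr2, Prod.fst_add, Prod.snd_add]
  congr 2 <;> omega

/-- the cell containing a point -/
noncomputable def cell2 (x : V) : ℤ × ℤ := (⌈2 * x 0⌉ - 1, ⌈x 1⌉ - 1)

lemma meas_cell2 : Measurable cell2 := by
  unfold cell2
  have h0 : Measurable fun x : V => 2 * x 0 := by fun_prop
  have h1 : Measurable fun x : V => x 1 := by fun_prop
  exact (h0.ceil.sub_const 1).prodMk (h1.ceil.sub_const 1)

/-- the window -/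
noncomputable def gw (x : V) : ℂ := (wt (cell2 x).1 (cell2 x).2 : ℂ) / 5

lemma meas_gw : Measurable gw :=
  (Measurable.of_discrete (f := fun p : ℤ × ℤ => (wt p.1 p.2 : ℂ) / 5)).comp meas_cell2

lemma norm_gw (x : V) : ‖gw x‖ ≤ 1 := by
  rw [gw, norm_div, Complex.norm_intCast, div_le_one (by simp)]
  have : ((|wt (cell2 x).1 (cell2 x).2| : ℤ) : ℝ) ≤ ((5 : ℤ) : ℝ) := Int.cast_le.2 (wt_abs _ _)
  simpa using this

lemma supp_gw (x : V) (hx : x ∉ Metric.closedBall (0 : V) 3) : gw x = 0 := by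
  by_contra h
  apply hx
  obtain ⟨h1, h2, h3, h4⟩ := wt_range (Int.cast_ne_zero.1 (div_ne_zero_iff.1 h).1)
  simp only [cell2] at h1 h2 h3 h4
  have a1 : (0 : ℝ) < 2 * x 0 := Int.ceil_pos.1 (by omega)
  have a2 : 2 * x 0 ≤ ((2 : ℤ) : ℝ) := Int.ceil_le.1 (by omega)
  have a3 : (0 : ℝ) < x 1 := Int.ceil_pos.1 (by omega)
  have a4 : x 1 ≤ ((2 : ℤ) : ℝ) := Int.ceil_le.1 (by omega)
  push_cast at a2 a4
  rw [mem_closedBall_zero_iff, EuclideanSpace.norm_eq, Real.sqrt_le_iff, Fin.sum_univ_two,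
    Real.norm_eq_abs, Real.norm_eq_abs, sq_abs, sq_abs]
  constructor <;> nlinarith

lemma cs_gw : HasCompactSupport gw := HasCompactSupport.intro (isCompact_closedBall 0 3) supp_gw

lemma mem_gw : MemLp gw 2 volume := by
  refine (memLp_indicator_const 2 (Metric.isClosed_closedBall (x := (0 : V)) (ε := 3)).measurableSet
    (1 : ℝ) (Or.inr measure_closedBall_lt_top.ne)).of_le meas_gw.aestronglyMeasurable
    (Filter.Eventually.of_forall fun x => ?_)
  by_cases hx : x ∈ Metric.closedBall (0 : V) 3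
  · rw [Set.indicator_of_mem hx, norm_one]; exact norm_gw x
  · rw [supp_gw x hx, norm_zero]; exact norm_nonneg _

/-- time shifts -/
noncomputable def tau2 (t : ℤ × ℤ) : V := vec (t.1 / 2) (2 * t.2)
/-- the Gabor system -/
noncomputable def gb2 (t n : ℤ × ℤ) (x : V) : ℂ :=
  gw (x - tau2 t) * Complex.exp (2 * Real.pi * Complex.I * ((inner ℝ (iv n) x : ℝ) : ℂ))

lemma exp_ch (s x : V) :
    Complex.exp (2 * Real.pi * Complex.I * ((inner ℝ s x : ℝ) : ℂ)) = conj (ch x s) := by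
  rw [ch, ← Complex.exp_conj, real_inner_comm]
  congr 1
  simp only [map_mul, map_neg, Complex.conj_ofReal, Complex.conj_I, map_ofNat]
  ring

lemma ch_iv2 (l n : ℤ × ℤ) : ch (iv l) (iv n) = 1 := by
  rw [← Complex.exp_int_mul_two_pi_mul_I (-(l.1 * n.1 + l.2 * n.2)), ch, iv, iv, inner_vec]
  congr 1
  simp only [vec0, vec1]
  push_cast
  ring

lemma cell2_D {y : V} (hy : y ∈ D) : (0 ≤ (cell2 y).1 ∧ (cell2 y).1 ≤ 1) ∧ (cell2 y).2 = 0 := by
  obtain ⟨⟨h1, h2⟩, h3, h4⟩ := (mem_D y).1 hy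
  have a1 : 0 < ⌈2 * y 0⌉ := Int.ceil_pos.2 (by linarith)
  have a2 : ⌈2 * y 0⌉ ≤ 2 := Int.ceil_le.2 (by push_cast; linarith)
  have a3 : 0 < ⌈y 1⌉ := Int.ceil_pos.2 h3
  have a4 : ⌈y 1⌉ ≤ 1 := Int.ceil_le.2 (by push_cast; linarith)
  simp only [cell2]
  omega

lemma cell2_shift (y : V) (l t : ℤ × ℤ) :
    cell2 (y + iv l - tau2 t) = ((cell2 y).1 + 2 * l.1 - t.1, (cell2 y).2 + l.2 - 2 * t.2) := by
  simp only [cell2, iv, tau2, PiLp.add_apply, PiLp.sub_apply, vec0, vec1, Prod.mk.injEq]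
  rw [show 2 * (y 0 + l.1 - t.1 / 2) = 2 * y 0 + ((2 * l.1 - t.1 : ℤ) : ℝ) by push_cast; ring,
    show y 1 + l.2 - 2 * t.2 = y 1 + ((l.2 - 2 * t.2 : ℤ) : ℝ) by push_cast; ring,
    Int.ceil_add_intCast, Int.ceil_add_intCast]
  omega

lemma gb2_eq {y : V} (hy : y ∈ D) (l t n : ℤ × ℤ) : gb2 t n (y + iv l) = conj (ch y (iv n)) *
    ((wt ((cell2 y).1 + 2 * l.1 - t.1) (l.2 - 2 * t.2) : ℂ) / 5) := by
  rw [gb2, gw, cell2_shift, exp_ch, ch_add, ch_iv2, (cell2_D hy).2, zero_add]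
  ring

lemma norm_gb2 (t n : ℤ × ℤ) (x : V) : ‖gb2 t n x‖ = ‖gw (x - tau2 t)‖ := by
  rw [gb2, exp_ch, norm_mul, RCLike.norm_conj, norm_ch, mul_one]

lemma mem_gb2 (t n : ℤ × ℤ) : MemLp (gb2 t n) 2 volume := by
  have h : MemLp (fun x => gw (x - tau2 t)) 2 volume :=
    mem_gw.comp_measurePreserving (measurePreserving_sub_right volume (tau2 t))
  refine h.of_le (h.1.mul (Continuous.aestronglyMeasurable (by fun_prop)))
    (Filter.Eventually.of_forall fun x => (norm_gb2 t n x).le)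

lemma period2 (l : ℤ × ℤ) (h : V → ℂ) (hi : Integrable h)
    (hs : ∀ y ∈ D, ∀ k, h (y + iv k) ≠ 0 → k - l ∈ Box2) :
    ∫ x, h x = ∫ y in D, ∑ m ∈ Box2, h (y + iv (l + m)) := by
  rw [period (Box2.map (addLeftEmbedding l)) h hi fun x hx => ?_]
  · simp only [Finset.sum_map, addLeftEmbedding_apply]
  · have e : x = x - iv (sq x) + iv (sq x) := (sub_add_cancel _ _).symm
    have := hs _ ((sq_add _ (sq x)).1 (by rw [← e])) (sq x) (by rwa [← e])
    exact Finset.mem_map.2 ⟨_, this, by simp⟩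

lemma supp_box2 {y : V} (hy : y ∈ D) (k l n : ℤ × ℤ) (u : ℤ) (hu : u ∈ Finset.Icc (-1 : ℤ) 1)
    (h : gb2 (nr2 l u) n (y + iv k) ≠ 0) : k - l ∈ Box2 := by
  rw [gb2_eq hy] at h
  have h1 := wt_range (Int.cast_ne_zero.1 (div_ne_zero_iff.1 (right_ne_zero_of_mul h)).1)
  have h2 := (cell2_D hy).1
  simp only [Box2, nr2, Finset.mem_product, Finset.mem_Icc, Prod.fst_sub, Prod.snd_sub] at *
  omega

lemma orth2 (t n t' n' : ℤ × ℤ) :
    ∫ x, gb2 t n x * conj (gb2 t' n' x) = if (t, n) = (t', n') then 1 else 0 := by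
  rw [period2 (t.1 / 2, 2 * t.2) _ (int_mul (mem_gb2 t n) (mem_gb2 t' n')) fun y hy k hk => ?_]
  · have e : ∀ y ∈ D, ∑ m ∈ Box2, gb2 t n (y + iv ((t.1 / 2, 2 * t.2) + m)) *
        conj (gb2 t' n' (y + iv ((t.1 / 2, 2 * t.2) + m))) =
        conj (ch y (vec (n.1 - n'.1 : ℤ) (n.2 - n'.2 : ℤ))) *
          (((if t = t' then 25 else 0 : ℤ) : ℂ) / 25) := fun y hy => by
      rw [← orthZ2 _ (cell2_D hy).1 t t', Int.cast_sum, Finset.sum_div, Finset.mul_sum, ← ch_vec]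
      refine Finset.sum_congr rfl fun m _ => ?_
      rw [gb2_eq hy, gb2_eq hy, map_mul, map_div₀, map_intCast, Int.cast_mul, Complex.conj_conj,
        map_ofNat]
      simp only [iv]
      ring
    rw [setIntegral_congr_fun meas_D e, integral_mul_const]
    by_cases ht : t = t'
    · subst ht
      by_cases hn : n = n'
      · subst hn
        simp [ch, inner_vec, Measure.real, vol_D]
      · rw [int_ch _ _ fun h' => hn ?_, zero_mul, if_neg (by simpa using hn)]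
        simp only [Prod.mk.injEq] at h'
        exact Prod.ext (by omega) (by omega)
    · simp [ht]
  · have e : t = nr2 (t.1 / 2, 2 * t.2) (t.1 % 2) := by
      simp only [nr2]; refine Prod.ext ?_ ?_ <;> simp only <;> omega
    refine supp_box2 hy k _ n (t.1 % 2) ?_ (by rw [← e]; exact left_ne_zero_of_mul hk)
    simp only [Finset.mem_Icc]
    omega

lemma complete2 (f : V → ℂ) (hf : MemLp f 2 volume)
    (h : ∀ t n, ∫ x, f x * conj (gb2 t n x) = 0) : f =ᵐ[volume] 0 := by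
  refine ae_of_D f fun l => ?_
  have key : ∀ u ∈ Finset.Icc (-1 : ℤ) 1,
      (fun y => ∑ m ∈ Box2, f (y + iv (l + m)) * conj (gb2 (nr2 l u) 0 (y + iv (l + m))))
      =ᵐ[volume.restrict D] 0 := fun u hu => by
    refine unique_D _ (memLp_finsetSum _ fun m _ => ?_) fun a b => ?_
    · have h1 : MemLp (fun y => f (y + iv (l + m))) 2 volume :=
        hf.comp_measurePreserving (measurePreserving_add_right volume _)
      have h2 : MemLp (fun y => gb2 (nr2 l u) 0 (y + iv (l + m))) 2 volume :=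
        (mem_gb2 _ _).comp_measurePreserving (measurePreserving_add_right volume _)
      refine (h1.of_le (h1.1.mul (Complex.continuous_conj.comp_aestronglyMeasurable h2.1))
        (Filter.Eventually.of_forall fun x => ?_)).restrict D
      rw [Pi.mul_apply, norm_mul, RCLike.norm_conj, norm_gb2]
      exact mul_le_of_le_one_right (norm_nonneg _) (norm_gw _)
    · rw [← h (nr2 l u) (-a, -b), period2 l _ (int_mul hf (mem_gb2 _ _)) fun y hy k hk =>
        supp_box2 hy k l (-a, -b) u hu (by simpa using right_ne_zero_of_mul hk)]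
      refine setIntegral_congr_fun meas_D fun y hy => ?_
      rw [Finset.sum_mul]
      refine Finset.sum_congr rfl fun m _ => ?_
      have e := ch_vec y (-a, -b) 0
      have e0 : ch y (iv 0) = 1 := by simp [ch, iv, inner_vec]
      simp only [Prod.fst_zero, Prod.snd_zero, zero_sub, neg_neg] at e
      rw [gb2_eq hy, gb2_eq hy, ← e]
      simp only [iv, Prod.fst_zero, Prod.snd_zero] at e0 ⊢
      simp only [map_mul, Complex.conj_conj, e0, map_one]
      ring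
  filter_upwards [(ae_ball_iff (Finset.Icc (-1 : ℤ) 1).countable_toSet).2 key,
    ae_restrict_mem meas_D] with y hk hy
  have e0 : ch y (iv 0) = 1 := by simp [ch, iv, inner_vec]
  have k2 : ∀ u ∈ Finset.Icc (-1 : ℤ) 1, ∑ m ∈ Box2, f (y + iv (l + m)) *
      ((wt ((cell2 y).1 + 2 * (l + m).1 - (nr2 l u).1) ((l + m).2 - 2 * (nr2 l u).2) : ℤ) : ℂ) = 0 :=
    fun u hu => by
      have := hk u hu
      simp only [Pi.zero_apply] at this
      rw [← mul_zero 5, ← this, Finset.mul_sum]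
      refine Finset.sum_congr rfl fun m _ => ?_
      rw [gb2_eq hy, e0, map_one, one_mul, map_div₀, map_intCast, map_ofNat]
      ring
  have k3 : ∑ m ∈ Box2, f (y + iv (l + m)) * ((if m = 0 then 25 else 0 : ℤ) : ℂ) = 0 := by
    rw [Finset.sum_congr rfl fun m hm => by
      rw [← compZ2 _ (cell2_D hy).1 l m hm, Int.cast_sum, Finset.mul_sum], Finset.sum_comm]
    refine Finset.sum_eq_zero fun u hu => ?_
    rw [← mul_zero ((wt ((cell2 y).1 + 2 * l.1 - (nr2 l u).1) (l.2 - 2 * (nr2 l u).2) : ℤ) : ℂ),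
      ← k2 u hu, Finset.mul_sum]
    refine Finset.sum_congr rfl fun m _ => ?_
    rw [Int.cast_mul]
    ring
  rw [Finset.sum_eq_single 0 (fun m _ hm => by simp [hm])
    (fun h => absurd (by simp [Box2]) h)] at k3
  simpa using k3

lemma not_ind (Ω : Set V) (c : ℝ)
    (h : ∀ᵐ x, ‖gw x‖ = c * Ω.indicator (fun _ => (1 : ℝ)) x) : False := by
  have key : ∀ q : ℤ, wt 0 q ≠ 0 → ‖(wt 0 q : ℂ) / 5‖ = c := fun q hq => by
    have ho : IsOpen {x : V | 0 < 2 * x 0 ∧ 2 * x 0 < 1 ∧ q < x 1 ∧ x 1 < q + 1} := by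
      have c0 : Continuous fun x : V => 2 * x 0 := by fun_prop
      have c1 : Continuous fun x : V => x 1 := by fun_prop
      exact (isOpen_lt continuous_const c0).inter ((isOpen_lt c0 continuous_const).inter
        ((isOpen_lt continuous_const c1).inter (isOpen_lt c1 continuous_const)))
    have hp := ho.measure_pos volume ⟨vec (1 / 4) (q + 1 / 2), by
      simp only [Set.mem_ofPred_eq, vec0, vec1]; norm_num⟩
    obtain ⟨x, ⟨h1, h2, h3, h4⟩, hx⟩ := Measure.exists_mem_of_measure_ne_zero_of_ae hp.ne'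
      (ae_restrict_of_ae h)
    have a : ⌈2 * x 0⌉ = 1 := Int.ceil_eq_iff.2 (by push_cast; constructor <;> linarith)
    have b : ⌈x 1⌉ = q + 1 := Int.ceil_eq_iff.2 (by push_cast; constructor <;> linarith)
    simp only [gw, cell2, a, b, sub_self, add_sub_cancel_right] at hx
    rw [hx]
    by_cases hΩ : x ∈ Ω
    · simp [hΩ]
    · simp [hΩ, hq] at hx
  have h0 := key 0 (by decide)
  have h1 := key 1 (by decide)
  rw [← h1] at h0
  simp [wt] at h0

end Pool.Agent.Lib.H29.Gabor
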