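import Mathlib

set_option autoImplicit false

namespace Pool.Agent.Lib.H29.Gap

/-- The opening (gap) of two subsets of a normed space. -/
noncomputable def gap {E : Type} [NormedAddCommGroup E] (G₁ G₂ : Set E) : ℝ :=
  max (sSup ((fun x => Metric.infDist x G₂) '' {x | x ∈ G₁ ∧ ‖x‖ = 1}))
    (sSup ((fun y => Metric.infDist y G₁) '' {y | y ∈ G₂ ∧ ‖y‖ = 1}))

/-- The density character: the least cardinality of a dense subset. -/
noncomputable def densChar (X : Type) [TopologicalSpace X] : Cardinal :=
  sInf {c : Cardinal | ∃ s : Set X, Dense s ∧ Cardinal.mk s = c}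

open Classical in
/-- The linear dimension for a finite-dimensional space, the density character otherwise.
-/
noncomputable def dimn (𝕜 X : Type) [Field 𝕜] [NormedAddCommGroup X] [Module 𝕜 X] : Cardinal :=
  if FiniteDimensional 𝕜 X then (Module.finrank 𝕜 X : Cardinal) else densChar X

end Pool.Agent.Lib.H29.Gap
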