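import Mathlib
import Pool.Agent.Lib.helper14.Deg3
import Pool.Agent.Lib.helper29.GapDefs

set_option autoImplicit false

namespace Pool.Agent.Lib.H29.Gap

open Set Filter Topology Metric

variable {E : Type} [NormedAddCommGroup E] [NormedSpace ℝ E]

/-- every vector of `X` is approximated from `Y` with relative error `a` -/
def Near (a : ℝ) (X Y : Submodule ℝ E) : Prop := ∀ x ∈ X, ∃ y ∈ Y, ‖x - y‖ ≤ a * ‖x‖

lemma near_of_unit {a : ℝ} {X Y : Submodule ℝ E}
    (h : ∀ x ∈ X, ‖x‖ = 1 → ∃ y ∈ Y, ‖x - y‖ ≤ a) : Near a X Y := by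
  intro x hx
  rcases eq_or_ne x 0 with rfl | h0
  · exact ⟨0, Y.zero_mem, by simp⟩
  · have hn : 0 < ‖x‖ := norm_pos_iff.2 h0
    obtain ⟨y, hy, h1⟩ := h (‖x‖⁻¹ • x) (X.smul_mem _ hx) (by simp [norm_smul, hn.ne'])
    refine ⟨‖x‖ • y, Y.smul_mem _ hy, ?_⟩
    have : x - ‖x‖ • y = ‖x‖ • (‖x‖⁻¹ • x - y) := by
      rw [smul_sub, smul_smul, mul_inv_cancel₀ hn.ne', one_smul]
    rw [this, norm_smul, norm_norm, mul_comm]
    exact mul_le_mul_of_nonneg_right h1 hn.le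

lemma near_of_gap {a : ℝ} {X Y : Submodule ℝ E} (h : gap (X : Set E) Y < a) :
    Near a X Y ∧ Near a Y X := by
  have key : ∀ X Y : Submodule ℝ E,
      sSup ((fun x => Metric.infDist x (Y : Set E)) '' {x | x ∈ (X : Set E) ∧ ‖x‖ = 1}) < a →
      Near a X Y := by
    intro X Y h
    refine near_of_unit fun x hx h1 => ?_
    have hb : BddAbove ((fun x => Metric.infDist x (Y : Set E)) '' {x | x ∈ (X : Set E) ∧ ‖x‖ = 1}) := by
      refine ⟨1, ?_⟩
      rintro _ ⟨z, hz, rfl⟩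
      have := Metric.infDist_le_dist_of_mem (x := z) (Y.zero_mem : (0 : E) ∈ (Y : Set E))
      rwa [dist_zero_right, hz.2] at this
    have h2 := (le_csSup hb ⟨x, ⟨hx, h1⟩, rfl⟩).trans_lt h
    obtain ⟨y, hy, h3⟩ := (Metric.infDist_lt_iff ⟨0, Y.zero_mem⟩).1 h2
    exact ⟨y, hy, by rw [← dist_eq_norm]; exact h3.le⟩
  exact ⟨key X Y ((le_max_left _ _).trans_lt h), key Y X ((le_max_right _ _).trans_lt h)⟩

/-- the three-centres argument -/
lemma three {X Y : Submodule ℝ E} (hX : Near (13 / 25) X Y) (hY : Near (13 / 25) Y X)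
    (Y0 : AddSubgroup E) (h0 : ∀ p ∈ Y0, p ∈ Y) (h3 : ∀ p ∈ Y0, (1 / 3 : ℝ) • p ∈ Y0)
    (hc : ∀ x ∈ X, ∀ y ∈ Y, ∀ δ > 0, ∃ p ∈ Y0, ‖x - p‖ ≤ ‖x - y‖ + δ) {y : E} (hy : y ∈ Y) :
    y ∈ closure (Y0 : Set E) := by
  rw [Metric.mem_closure_iff_infDist_zero ⟨0, Y0.zero_mem⟩]
  by_contra hN
  set N := infDist y (Y0 : Set E) with hNdef
  have hN0 : 0 < N := lt_of_le_of_ne infDist_nonneg (Ne.symm hN)
  have hlow : ∀ p ∈ Y0, N ≤ ‖y - p‖ := fun p hp => by
    rw [← dist_eq_norm]; exact infDist_le_dist_of_mem hp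
  obtain ⟨p1, hp1, e1⟩ := (Metric.infDist_lt_iff (x := y) (r := N + N / 1000)
    ⟨0, Y0.zero_mem⟩).1 (by linarith)
  rw [dist_eq_norm] at e1
  have m1 : y - p1 ∈ Y := Y.sub_mem hy (h0 _ hp1)
  obtain ⟨x1, hx1, a1⟩ := hY _ m1
  obtain ⟨q1, hq1, b1⟩ := hc x1 hx1 _ m1 (N / 1000) (by positivity)
  have m2 : y - p1 - q1 ∈ Y := Y.sub_mem m1 (h0 _ hq1)
  obtain ⟨x2, hx2, a2⟩ := hY _ m2
  obtain ⟨q2, hq2, b2⟩ := hc x2 hx2 _ m2 (N / 1000) (by positivity)
  have m3 : y - p1 - q1 - q2 ∈ Y := Y.sub_mem m2 (h0 _ hq2)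
  obtain ⟨x3, hx3, a3⟩ := hY _ m3
  have hs : x1 + x2 + x3 ∈ X := X.add_mem (X.add_mem hx1 hx2) hx3
  obtain ⟨w, hw, c1⟩ := hX _ hs
  obtain ⟨q, hq, c2⟩ := hc _ hs w hw (N / 1000) (by positivity)
  rw [norm_sub_rev x1 (y - p1)] at b1
  rw [norm_sub_rev x2 (y - p1 - q1)] at b2
  have n2 : ‖y - p1 - q1‖ ≤ ‖y - p1 - x1‖ + ‖x1 - q1‖ := by
    rw [show y - p1 - q1 = (y - p1 - x1) + (x1 - q1) by abel]; exact norm_add_le _ _
  have n3 : ‖y - p1 - q1 - q2‖ ≤ ‖y - p1 - q1 - x2‖ + ‖x2 - q2‖ := by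
    rw [show y - p1 - q1 - q2 = (y - p1 - q1 - x2) + (x2 - q2) by abel]; exact norm_add_le _ _
  have n4 : ‖x1 + x2 + x3‖ ≤ ‖y - p1‖ + ‖x1 - q1‖ + ‖x2 - q2‖ + ‖y - p1 - q1 - q2 - x3‖ := by
    rw [show x1 + x2 + x3 = (y - p1) + (x1 - q1) + (x2 - q2) - (y - p1 - q1 - q2 - x3) by abel]
    exact (norm_sub_le _ _).trans (by gcongr; exact norm_add₃_le)
  have n5 := hlow ((1 / 3 : ℝ) • (p1 + p1 + p1 + q1 + q1 + q2 + q)) (h3 _ (by
    repeat' apply Y0.add_mem
    all_goals assumption))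
  have n6 : y - (1 / 3 : ℝ) • (p1 + p1 + p1 + q1 + q1 + q2 + q) = (1 / 3 : ℝ) •
      ((y - p1 - x1) + (y - p1 - q1 - x2) + (y - p1 - q1 - q2 - x3) + (x1 + x2 + x3 - q)) := by
    module
  rw [n6, norm_smul, Real.norm_of_nonneg (by norm_num)] at n5
  have n7 := norm_add₄_le (a := y - p1 - x1) (b := y - p1 - q1 - x2) (c := y - p1 - q1 - q2 - x3)
    (d := x1 + x2 + x3 - q)
  linarith

lemma dens_spec (X : Type) [TopologicalSpace X] :
    ∃ s : Set X, Dense s ∧ Cardinal.mk s = densChar X :=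
  csInf_mem (s := {c : Cardinal | ∃ s : Set X, Dense s ∧ Cardinal.mk s = c})
    ⟨_, univ, dense_univ, rfl⟩

lemma dens_le {X Y : Submodule ℝ E} (hX0 : X ≠ ⊥) (hX : Near (13 / 25) X Y)
    (hY : Near (13 / 25) Y X) : densChar Y ≤ densChar X := by
  obtain ⟨D, hD, hDc⟩ := dens_spec X
  have hinf : Infinite D := by
    have : Nontrivial X := Submodule.nontrivial_iff_ne_bot.2 hX0
    have : Infinite X := Module.Free.infinite ℝ X
    rw [infinite_coe_iff]
    intro hf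
    have := hD.closure_eq
    rw [hf.isClosed.closure_eq] at this
    exact infinite_univ (this ▸ hf)
  have hch : ∀ (d : D × ℕ), ∃ y : Y, ‖(d.1.1 : E) - y‖ < infDist (d.1.1 : E) (Y : Set E) +
      1 / ((d.2 : ℝ) + 1) := by
    intro d
    obtain ⟨y, hy, h⟩ := (Metric.infDist_lt_iff (x := (d.1.1 : E)) (s := (Y : Set E))
      (r := infDist (d.1.1 : E) (Y : Set E) + 1 / ((d.2 : ℝ) + 1)) ⟨0, Y.zero_mem⟩).1
      (lt_add_of_pos_right _ (by positivity))
    exact ⟨⟨y, hy⟩, by rwa [dist_eq_norm] at h⟩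
  choose Ψ hΨ using hch
  let _ : Module ℚ Y := Module.compHom Y (algebraMap ℚ ℝ)
  let L : ((D × ℕ) →₀ ℚ) →ₗ[ℚ] Y := Finsupp.linearCombination ℚ Ψ
  let Y0 : AddSubgroup E := L.range.toAddSubgroup.map Y.subtype.toAddMonoidHom
  have hden : Dense (range L) := by
    intro y
    have := three hX hY Y0 (by rintro _ ⟨p, -, rfl⟩; exact p.2) (by
      rintro _ ⟨p, hp, rfl⟩
      refine ⟨(1 / 3 : ℚ) • p, L.range.smul_mem _ hp, ?_⟩
      show ((algebraMap ℚ ℝ (1 / 3) • p : Y) : E) = (1 / 3 : ℝ) • (p : E)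
      simp) (by
      intro x hx z hz δ hδ
      obtain ⟨d, hd, h1⟩ := hD.exists_dist_lt ⟨x, hx⟩ (show 0 < δ / 3 by positivity)
      obtain ⟨n, hn⟩ := exists_nat_one_div_lt (show 0 < δ / 3 by positivity)
      have h2 := hΨ (⟨d, hd⟩, n)
      have h3 := infDist_le_dist_of_mem (x := (d : E)) (show z ∈ (Y : Set E) from hz)
      rw [Subtype.dist_eq, dist_eq_norm] at h1
      rw [dist_eq_norm] at h3
      refine ⟨Ψ (⟨d, hd⟩, n), ⟨_, ⟨Finsupp.single (⟨d, hd⟩, n) 1, by simp [L]⟩, rfl⟩, ?_⟩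
      have h4 : ‖x - Ψ (⟨d, hd⟩, n)‖ ≤ ‖x - d‖ + ‖(d : E) - Ψ (⟨d, hd⟩, n)‖ := norm_sub_le_norm_sub_add_norm_sub _ _ _
      have h5 : ‖(d : E) - z‖ ≤ ‖(d : E) - x‖ + ‖x - z‖ := norm_sub_le_norm_sub_add_norm_sub _ _ _
      rw [norm_sub_rev (d : E) x] at h5
      dsimp only at h1 h2
      linarith) y.2
    rw [closure_subtype]
    exact this
  have hle : densChar Y ≤ Cardinal.mk (range L) :=
    csInf_le' (s := {c : Cardinal | ∃ s : Set Y, Dense s ∧ Cardinal.mk s = c}) ⟨range L, hden, rfl⟩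
  refine hle.trans (Cardinal.mk_range_le.trans ?_)
  rw [Cardinal.mk_finsupp_of_infinite, ← hDc]
  simp

lemma fin_le {X Y : Submodule ℝ E} [FiniteDimensional ℝ X] [FiniteDimensional ℝ Y]
    (hX : Near (53 / 100) X Y) (hY : Near (53 / 100) Y X) :
    Module.finrank ℝ Y ≤ Module.finrank ℝ X := by
  by_contra hlt
  push Not at hlt
  have sel : ∀ (A B : Submodule ℝ E), Near (53 / 100) A B →
      (∀ a : A, Convex ℝ {b : B | ‖(a : E) - b‖ < 53 / 100 * ‖(a : E)‖ + 1 / 100}) ∧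
      ∀ a : A, ∃ c : B, ∀ᶠ a' : A in 𝓝 a,
        c ∈ {b : B | ‖(a' : E) - b‖ < 53 / 100 * ‖(a' : E)‖ + 1 / 100} := by
    intro A B h
    constructor
    · intro a
      have := (convex_ball (a : E) (53 / 100 * ‖(a : E)‖ + 1 / 100)).linear_preimage B.subtype
      have h2 : {b : B | ‖(a : E) - b‖ < 53 / 100 * ‖(a : E)‖ + 1 / 100} =
          B.subtype ⁻¹' ball (a : E) (53 / 100 * ‖(a : E)‖ + 1 / 100) := by
        ext b
        exact mem_ball_iff_norm'.symm
      rw [h2]; exact this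
    · intro a
      obtain ⟨y, hy, h1⟩ := h a a.2
      refine ⟨⟨y, hy⟩, ?_⟩
      exact (isOpen_lt (f := fun a' : A => ‖(a' : E) - y‖)
        (g := fun a' : A => 53 / 100 * ‖(a' : E)‖ + 1 / 100) (by fun_prop) (by fun_prop)).mem_nhds
        (show ‖(a : E) - y‖ < _ by linarith)
  obtain ⟨Φ, hΦ⟩ := exists_continuous_forall_mem_convex_of_local_const (sel Y X hY).1 (sel Y X hY).2
  obtain ⟨ψ, hψ⟩ := exists_contMDiffMap_forall_mem_convex_of_local_const (n := 1)
    (modelWithCornersSelf ℝ X) (sel X Y hX).1 (sel X Y hX).2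
  have hψd : ContDiff ℝ 1 ψ := ψ.contMDiff.contDiff
  let Ψ : X → Y := fun x => ‖x‖ • ψ (‖x‖⁻¹ • x)
  have hΨa : ∀ x : X, ‖(x : E) - Ψ x‖ ≤ 54 / 100 * ‖x‖ := by
    intro x
    rcases eq_or_ne x 0 with rfl | h0
    · simp [Ψ]
    · have hn : 0 < ‖x‖ := norm_pos_iff.2 h0
      have h1 := hψ (‖x‖⁻¹ • x)
      have h2 : ‖((‖x‖⁻¹ • x : X) : E)‖ = 1 := by
        show ‖(‖x‖⁻¹ • x : X)‖ = 1
        rw [norm_smul, norm_inv, norm_norm, inv_mul_cancel₀ hn.ne']
      simp only [mem_ofPred_eq, h2] at h1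
      have : (x : E) - Ψ x = ‖x‖ • (((‖x‖⁻¹ • x : X) : E) - ψ (‖x‖⁻¹ • x)) := by
        simp only [Ψ, Submodule.coe_smul, smul_sub, smul_smul, mul_inv_cancel₀ hn.ne', one_smul]
      rw [this, norm_smul, norm_norm]
      nlinarith
  have hΨn : ∀ x : X, ‖Ψ x‖ ≤ 2 * ‖x‖ := fun x => by
    have h1 := hΨa x
    have h2 := norm_sub_norm_le (Ψ x : E) x
    rw [norm_sub_rev] at h2
    simp only [Submodule.coe_norm] at *
    linarith [norm_nonneg (x : E)]
  have hΨc : Continuous Ψ := by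
    refine continuous_iff_continuousAt.2 fun x => ?_
    rcases eq_or_ne x 0 with rfl | h0
    · have : Ψ 0 = 0 := by simp [Ψ]
      rw [ContinuousAt, this]
      refine squeeze_zero_norm hΨn ?_
      simpa using (continuous_norm.tendsto (0 : X)).const_mul 2
    · exact continuous_norm.continuousAt.smul (hψd.continuous.continuousAt.comp
        ((continuous_norm.continuousAt.inv₀ (norm_ne_zero_iff.2 h0)).smul continuousAt_id))
  have hΨh : ∀ (t : ℝ) (x : X), 0 ≤ t → Ψ (t • x) = t • Ψ x := by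
    intro t x ht
    rcases ht.eq_or_lt with rfl | ht
    · simp [Ψ]
    · simp only [Ψ, norm_smul, Real.norm_of_nonneg ht.le, smul_smul, mul_inv]
      congr 3
      field_simp
  have hdim : dimH (range Ψ) < Module.finrank ℝ Y := by
    let h : ℝ × X → Y := fun p => p.1 • ψ (p.1⁻¹ • p.2)
    have hh : ContDiffOn ℝ 1 h {p | 0 < p.1} :=
      contDiffOn_fst.smul (hψd.comp_contDiffOn
        ((contDiffOn_fst.inv fun (p : ℝ × X) hp => (show (0 : ℝ) < p.1 from hp).ne').smul contDiffOn_snd))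
    have hL : LipschitzWith 1 fun x : X => (‖x‖, x) := by
      have := (lipschitzWith_one_norm (E := X)).prodMk (LipschitzWith.id (α := X))
      rw [max_self] at this
      exact this
    have h1 := hh.dimH_image_le (t := (fun x : X => (‖x‖, x)) '' {x | x ≠ 0})
      ((convex_Ioi (0 : ℝ)).linear_preimage (LinearMap.fst ℝ ℝ X))
      (by rintro _ ⟨x, hx, rfl⟩; exact norm_pos_iff.2 hx)
    have h2 := (hL.dimH_image_le {x | x ≠ 0}).trans (dimH_mono (subset_univ _))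
    rw [Real.dimH_univ_eq_finrank] at h2
    have h3 : range Ψ ⊆ h '' ((fun x : X => (‖x‖, x)) '' {x | x ≠ 0}) ∪ {0} := by
      rintro _ ⟨x, rfl⟩
      rcases eq_or_ne x 0 with rfl | h0
      · right; simp [Ψ]
      · left; exact ⟨_, ⟨x, h0, rfl⟩, rfl⟩
    refine (dimH_mono h3).trans_lt ?_
    rw [dimH_union, dimH_singleton, max_eq_left zero_le]
    exact (h1.trans h2).trans_lt (Nat.cast_lt.2 hlt)
  obtain ⟨z, hz⟩ := (dense_compl_of_dimH_lt_finrank hdim).nonempty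
  let F : Y → Y := fun y => max 0 (min 1 (‖y‖ - 1)) • y + max 0 (min ‖y‖ (2 - ‖y‖)) • Ψ (Φ y) -
    max 0 (1 - ‖y‖) • z
  have hF : Continuous F := by
    have := Φ.continuous
    fun_prop
  obtain ⟨y, hy⟩ := Pool.Agent.H14Deg.exists_zero hF (R := 2) two_pos fun y hy => by
    simp only [F]
    rw [min_eq_left (by linarith), max_eq_right zero_le_one, max_eq_left (min_le_of_right_le (by linarith)),
      max_eq_left (by linarith)]
    simp
  have hy0 := norm_nonneg y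
  simp only [F] at hy
  rcases lt_or_ge ‖y‖ 1 with h1 | h1
  · rw [max_eq_left (min_le_of_right_le (by linarith)), min_eq_left (by linarith), max_eq_right hy0,
      max_eq_right (by linarith), zero_smul, zero_add, sub_eq_zero] at hy
    refine hz ⟨(‖y‖ / (1 - ‖y‖)) • Φ y, ?_⟩
    have h2 : 0 < 1 - ‖y‖ := by linarith
    rw [hΨh _ _ (by positivity), div_eq_inv_mul, mul_smul, hy, smul_smul, inv_mul_cancel₀ h2.ne',
      one_smul]
  · rw [max_eq_left (show 1 - ‖y‖ ≤ 0 by linarith), zero_smul, sub_zero] at hy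
    rcases lt_or_ge ‖y‖ 2 with h2 | h2
    · rw [min_eq_right (by linarith), max_eq_right (by linarith), min_eq_right (by linarith),
        max_eq_right (by linarith)] at hy
      set s := (‖y‖ - 1) / (2 - ‖y‖) with hs
      have h3 : 0 < 2 - ‖y‖ := by linarith
      have hs0 : 0 ≤ s := div_nonneg (by linarith) h3.le
      have h4 : Ψ (Φ y) = -(s • y) := by
        have := congrArg ((2 - ‖y‖)⁻¹ • ·) hy
        simp only [smul_add, smul_smul, inv_mul_cancel₀ h3.ne', one_smul, smul_zero] at this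
        rw [hs, div_eq_inv_mul]
        exact eq_neg_of_add_eq_zero_right this
      have a1 := hΦ y
      have a2 := hΨa (Φ y)
      simp only [mem_ofPred_eq] at a1
      rw [h4] at a2
      simp only [Submodule.coe_neg, Submodule.coe_smul, sub_neg_eq_add, Submodule.coe_norm] at a2 h1
      have a3 : ‖(y : E) + s • y‖ = ‖(y : E)‖ + s * ‖(y : E)‖ := by
        rw [show (y : E) + s • y = (1 + s) • (y : E) by module, norm_smul,
          Real.norm_of_nonneg (by linarith)]; ring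
      have a4 : ‖(y : E) + s • y‖ ≤ ‖(y : E) - Φ y‖ + ‖(Φ y : E) + s • y‖ := by
        rw [show (y : E) + s • y = ((y : E) - Φ y) + ((Φ y : E) + s • y) by abel]
        exact norm_add_le _ _
      have a5 : ‖(Φ y : E)‖ ≤ ‖(Φ y : E) + s • y‖ + s * ‖(y : E)‖ := by
        have := norm_sub_le ((Φ y : E) + s • y) (s • (y : E))
        rwa [add_sub_cancel_right, norm_smul, Real.norm_of_nonneg hs0] at this
      have a6 := norm_sub_norm_le (Φ y : E) y
      rw [norm_sub_rev] at a6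
      linarith
    · rw [min_eq_left (by linarith), max_eq_right zero_le_one,
        max_eq_left (min_le_of_right_le (by linarith)), one_smul, zero_smul, add_zero] at hy
      rw [hy, norm_zero] at h1
      linarith

lemma near_mono {a b : ℝ} (hab : a ≤ b) {X Y : Submodule ℝ E} (h : Near a X Y) : Near b X Y :=
  fun x hx => by
    obtain ⟨y, hy, h1⟩ := h x hx
    exact ⟨y, hy, h1.trans (mul_le_mul_of_nonneg_right hab (norm_nonneg _))⟩

lemma fin_of_fin {X Y : Submodule ℝ E} [FiniteDimensional ℝ X]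
    (hX : Near (13 / 25) X Y) (hY : Near (13 / 25) Y X) : FiniteDimensional ℝ Y := by
  by_contra hinf
  obtain ⟨t, ht, htf, hcov⟩ := finite_cover_balls_of_compact (isCompact_sphere (0 : X) 1)
    (show (0 : ℝ) < 1 / 100 by norm_num)
  choose! Ψ hΨ using hX
  obtain ⟨s, hs, hs'⟩ := exists_finset_linearIndependent_of_le_rank (R := ℝ) (M := Y)
    (n := Module.finrank ℝ X + 1) (by
      by_contra h
      push Not at h
      exact hinf (Module.rank_lt_aleph0_iff.1 (h.trans (Cardinal.natCast_lt_aleph0))))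
  let Y1 : Submodule ℝ E :=
    Submodule.span ℝ (((fun x : X => Ψ x) '' t) ∪ (Y.subtype '' (s : Set Y)))
  have : FiniteDimensional ℝ Y1 := FiniteDimensional.span_of_finite ℝ
    ((htf.image _).union (s.finite_toSet.image _))
  have hY1 : Y1 ≤ Y := by
    rw [Submodule.span_le]
    rintro _ (⟨x, -, rfl⟩ | ⟨y, -, rfl⟩)
    · exact (hΨ x x.2).1
    · exact y.2
  have h1 : Near (53 / 100) X Y1 := near_of_unit fun x hx hx1 => by
    have := hcov (show (⟨x, hx⟩ : X) ∈ sphere (0 : X) 1 by simpa using hx1)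
    simp only [mem_iUnion, mem_ball] at this
    obtain ⟨u, hu, h2⟩ := this
    refine ⟨Ψ u, Submodule.subset_span (Or.inl ⟨u, hu, rfl⟩), ?_⟩
    have h3 := (hΨ u u.2).2
    have h4 : ‖(u : E)‖ = 1 := by simpa using ht hu
    rw [Subtype.dist_eq, dist_eq_norm] at h2
    have h5 := norm_sub_le_norm_sub_add_norm_sub x u (Ψ u)
    dsimp only at h2
    rw [h4] at h3
    linarith
  have h2 := fin_le h1 (near_mono (by norm_num) fun y hy => hY y (hY1 hy))
  have h3 : LinearIndependent ℝ fun i : s =>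
      (⟨(i : Y), Submodule.subset_span (Or.inr ⟨i, i.2, rfl⟩)⟩ : Y1) := by
    refine LinearIndependent.of_comp Y1.subtype ?_
    exact hs'.map' Y.subtype Y.ker_subtype
  have h4 := h3.fintype_card_le_finrank
  rw [Fintype.card_coe, hs] at h4
  omega

theorem real_case {X Y : Submodule ℝ E} (hX0 : X ≠ ⊥) (hY0 : Y ≠ ⊥)
    (h : gap (X : Set E) Y < 13 / 25) :
    (FiniteDimensional ℝ X ↔ FiniteDimensional ℝ Y) ∧
      (FiniteDimensional ℝ X → Module.finrank ℝ X = Module.finrank ℝ Y) ∧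
      densChar X = densChar Y := by
  obtain ⟨hX, hY⟩ := near_of_gap h
  refine ⟨⟨fun _ => fin_of_fin hX hY, fun _ => fin_of_fin hY hX⟩, fun _ => ?_,
    le_antisymm (dens_le hY0 hY hX) (dens_le hX0 hX hY)⟩
  have := fin_of_fin hX hY
  exact le_antisymm (fin_le (near_mono (by norm_num) hY) (near_mono (by norm_num) hX))
    (fin_le (near_mono (by norm_num) hX) (near_mono (by norm_num) hY))

end Pool.Agent.Lib.H29.Gap
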