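import Mathlib

set_option autoImplicit false

namespace Pool.Agent.Lib.H29.Hall

open Set MeasureTheory EuclideanGeometry Real
open scoped ENNReal

lemma lint_mul {a : ℂ} (ha : a ≠ 0) {f : ℂ → ℝ≥0∞} (hf : Measurable f) :
    ∫⁻ z, f z = ‖a‖ₑ ^ 2 * ∫⁻ w, f (a * w) := by
  have hd : LinearMap.det (Algebra.lmul ℝ ℂ a) = ‖a‖ ^ 2 := by
    rw [← Algebra.norm_apply, Algebra.norm_complex_apply, Complex.normSq_eq_norm_sq]
  have hp : 0 < ‖a‖ ^ 2 := by positivity
  have h := Measure.map_linearMap_addHaar_eq_smul_addHaar (volume : Measure ℂ)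
    (f := Algebra.lmul ℝ ℂ a) (by rw [hd]; exact hp.ne')
  have h2 : ∫⁻ w, f (a * w) = ∫⁻ z, f z ∂(Measure.map (Algebra.lmul ℝ ℂ a) volume) :=
    (lintegral_map hf (measurable_const_mul a)).symm
  rw [h2, h, hd, lintegral_smul_measure, smul_eq_mul, ← mul_assoc, ← ofReal_norm,
    ← ENNReal.ofReal_pow (norm_nonneg _), ← ENNReal.ofReal_mul hp.le, abs_of_pos (inv_pos.2 hp),
    mul_inv_cancel₀ hp.ne', ENNReal.ofReal_one, one_mul]

lemma lint_polar {f : ℂ → ℝ≥0∞} (hf : Measurable f) :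
    ∫⁻ z, f z = ∫⁻ θ in Ioo (-π) π, ∫⁻ r in Ioi (0 : ℝ),
      ENNReal.ofReal r * f (r * (cos θ + sin θ * Complex.I)) := by
  rw [← Complex.lintegral_comp_polarCoord_symm, polarCoord_target, Measure.volume_eq_prod,
    ← Measure.prod_restrict]
  simp only [Complex.polarCoord_symm_apply, smul_eq_mul]
  rw [lintegral_prod_symm]
  refine Measurable.aemeasurable (Measurable.mul (by fun_prop) (hf.comp ?_))
  fun_prop

/-- the largest angle of the triangle `x y z` -/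
noncomputable def ang (x y z : ℂ) : ℝ := max (∠ y x z) (max (∠ x y z) (∠ x z y))

lemma meas_angle {α : Type} [MeasurableSpace α] {f g h : α → ℂ} (hf : Measurable f)
    (hg : Measurable g) (hh : Measurable h) : Measurable fun a => ∠ (f a) (g a) (h a) := by
  unfold EuclideanGeometry.angle InnerProductGeometry.angle
  simp only [vsub_eq_sub]
  exact Real.measurable_arccos.comp (((hf.sub hg).inner (hh.sub hg)).div
    ((hf.sub hg).norm.mul (hh.sub hg).norm))

lemma meas_ang {α : Type} [MeasurableSpace α] {f g h : α → ℂ} (hf : Measurable f)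
    (hg : Measurable g) (hh : Measurable h) : Measurable fun a => ang (f a) (g a) (h a) :=
  (meas_angle hg hf hh).max ((meas_angle hf hg hh).max (meas_angle hf hh hg))

lemma ang_sim (x w : ℂ) {d : ℂ} (hd : d ≠ 0) : ang x (x + d) (x + d * w) = ang 0 1 w := by
  have key : ∀ p q r : ℂ, ∠ (x + d * p) (x + d * q) (x + d * r) = ∠ p q r := by
    intro p q r
    unfold EuclideanGeometry.angle
    simp only [vsub_eq_sub]
    rw [← Complex.angle_mul_left hd (p - q)]
    congr 1 <;> ring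
  have := key 1 0 w
  have h2 := key 0 1 w
  have h3 := key 0 w 1
  simp only [mul_one, mul_zero, add_zero] at this h2 h3
  rw [ang, ang, this, h2, h3]

def T (S : Set ℂ) (w : ℂ) : Set (ℂ × ℂ) := {p | p.1 ∈ S ∧ p.1 + p.2 ∈ S ∧ p.1 + p.2 * w ∈ S}

noncomputable def c (S : Set ℂ) (w : ℂ) : ℝ≥0∞ := ∫⁻ p, (T S w).indicator (fun p => ‖p.2‖ₑ ^ 2) p

lemma meas_T {S : Set ℂ} (hS : MeasurableSet S) (w : ℂ) : MeasurableSet (T S w) :=
  (measurable_fst hS).inter (((by fun_prop : Measurable fun p : ℂ × ℂ => p.1 + p.2) hS).inter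
    ((by fun_prop : Measurable fun p : ℂ × ℂ => p.1 + p.2 * w) hS))

lemma meas_ind {S : Set ℂ} (hS : MeasurableSet S) (w : ℂ) :
    Measurable ((T S w).indicator fun p : ℂ × ℂ => ‖p.2‖ₑ ^ 2) :=
  Measurable.indicator (by fun_prop) (meas_T hS w)

lemma c_mono {S S' : Set ℂ} {w w' : ℂ} (h : T S w ⊆ T S' w') : c S w ≤ c S' w' :=
  lintegral_mono fun p => indicator_le_indicator_of_subset h (fun _ => zero_le) p

lemma ind_ind {α β γ : Type} (A : Set α) (B : α → Set β) (C : Set γ) (f : β → ℝ≥0∞)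
    (g : γ → ℝ≥0∞) (a : α) (b : β) (q : γ) (h : a ∈ A ∧ b ∈ B a ↔ q ∈ C) (e : f b = g q) :
    A.indicator (fun a => (B a).indicator f b) a = C.indicator g q := by
  by_cases h1 : a ∈ A
  · by_cases h2 : b ∈ B a
    · rw [indicator_of_mem h1, indicator_of_mem h2, indicator_of_mem (h.1 ⟨h1, h2⟩), e]
    · rw [indicator_of_mem h1, indicator_of_notMem h2, indicator_of_notMem fun h3 => h2 (h.2 h3).2]
  · rw [indicator_of_notMem h1, indicator_of_notMem fun h3 => h1 (h.2 h3).1]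

lemma count {S : Set ℂ} (hS : MeasurableSet S) (φ : ℝ) :
    volume ({p : ℂ × ℂ × ℂ | ang p.1 p.2.1 p.2.2 ≤ φ} ∩ S ×ˢ S ×ˢ S) =
      ∫⁻ w in {w | ang 0 1 w ≤ φ}, c S w := by
  have hE : MeasurableSet ({p : ℂ × ℂ × ℂ | ang p.1 p.2.1 p.2.2 ≤ φ} ∩ S ×ˢ S ×ˢ S) :=
    (measurableSet_le (meas_ang (by fun_prop) (by fun_prop) (by fun_prop)) measurable_const).inter
      (hS.prod (hS.prod hS))
  have hW : MeasurableSet {w : ℂ | ang 0 1 w ≤ φ} :=
    measurableSet_le (meas_ang (by fun_prop) (by fun_prop) (by fun_prop)) measurable_const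
  set E := {p : ℂ × ℂ × ℂ | ang p.1 p.2.1 p.2.2 ≤ φ} ∩ S ×ˢ S ×ˢ S with hEd
  have hI : Measurable (E.indicator (1 : ℂ × ℂ × ℂ → ℝ≥0∞)) := measurable_one.indicator hE
  let H : (ℂ × ℂ) → ℂ → ℝ≥0∞ := fun p w =>
    {w : ℂ | ang 0 1 w ≤ φ}.indicator (fun w => (T S w).indicator (fun p => ‖p.2‖ₑ ^ 2) p) w
  have hH : Measurable (Function.uncurry H) := by
    have : Function.uncurry H = {q : (ℂ × ℂ) × ℂ | q.2 ∈ {w : ℂ | ang 0 1 w ≤ φ} ∧ q.1.1 ∈ S ∧
        q.1.1 + q.1.2 ∈ S ∧ q.1.1 + q.1.2 * q.2 ∈ S}.indicator fun q => ‖q.1.2‖ₑ ^ 2 := by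
      funext q
      exact ind_ind _ _ _ _ _ _ _ _ Iff.rfl rfl
    rw [this]
    exact Measurable.indicator (by fun_prop) ((measurable_snd hW).inter
      (((by fun_prop : Measurable fun q : (ℂ × ℂ) × ℂ => q.1.1) hS).inter
      (((by fun_prop : Measurable fun q : (ℂ × ℂ) × ℂ => q.1.1 + q.1.2) hS).inter
      ((by fun_prop : Measurable fun q : (ℂ × ℂ) × ℂ => q.1.1 + q.1.2 * q.2) hS))))
  have h1 : ∫⁻ w in {w | ang 0 1 w ≤ φ}, c S w = ∫⁻ w, ∫⁻ p, H p w := by
    rw [← lintegral_indicator hW]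
    refine lintegral_congr fun w => ?_
    by_cases hw : w ∈ {w : ℂ | ang 0 1 w ≤ φ}
    · simp only [H, indicator_of_mem hw, c]
    · simp only [H, indicator_of_notMem hw, lintegral_zero]
  rw [h1, ← lintegral_lintegral_swap hH.aemeasurable, ← lintegral_indicator_one hE,
    Measure.volume_eq_prod, lintegral_prod _ hI.aemeasurable, Measure.volume_eq_prod,
    lintegral_prod _ hH.lintegral_prod_right.aemeasurable]
  refine lintegral_congr fun x => ?_
  rw [lintegral_prod (fun y : ℂ × ℂ => E.indicator 1 (x, y))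
    (hI.comp measurable_prodMk_left).aemeasurable, ← lintegral_add_left_eq_self _ x]
  refine lintegral_congr_ae ?_
  filter_upwards [compl_mem_ae_iff.2 (measure_singleton (0 : ℂ))] with d hd
  have hd : d ≠ 0 := hd
  rw [← lintegral_add_left_eq_self _ x, lint_mul hd (f := fun z => E.indicator 1 (x, x + d, x + z))
    (hI.comp (by fun_prop)), ← lintegral_const_mul _
      (f := fun w => E.indicator 1 (x, x + d, x + d * w)) (hI.comp (by fun_prop))]
  refine lintegral_congr fun w => ?_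
  rw [← indicator_const_mul]
  refine (ind_ind _ _ _ _ _ _ _ _ ?_ (by simp)).symm
  simp only [hEd, T, mem_inter_iff, mem_ofPred_eq, mem_prod, ang_sim x w hd]

noncomputable def om : ℂ := ⟨1 / 2, √3 / 2⟩

lemma s3 : √3 * √3 = 3 := Real.mul_self_sqrt (by norm_num)

lemma om_sq : om * om = om - 1 := by
  have := s3
  apply Complex.ext <;> simp [om] <;> linarith

lemma om_conj : (starRingEnd ℂ) om = 1 - om := by
  apply Complex.ext <;> simp [om]; norm_num

lemma norm_om : ‖om‖ = 1 := by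
  have := s3
  rw [Complex.norm_def, Complex.normSq_apply, Real.sqrt_eq_one]
  simp only [om]; linarith

lemma lint_rot {a : ℂ} (ha : ‖a‖ = 1) {f : ℂ × ℂ → ℝ≥0∞} (hf : Measurable f) :
    ∫⁻ p, f p = ∫⁻ p : ℂ × ℂ, f (p.1 + p.2, a * p.2) := by
  have h0 : a ≠ 0 := by rintro rfl; simp at ha
  have h1 : ∫⁻ p, f p = ∫⁻ p : ℂ × ℂ, f (p.1, a * p.2) := by
    rw [Measure.volume_eq_prod, lintegral_prod _ hf.aemeasurable,
      lintegral_prod (fun p : ℂ × ℂ => f (p.1, a * p.2)) (hf.comp (by fun_prop)).aemeasurable]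
    refine lintegral_congr fun x => ?_
    rw [lint_mul h0 (f := fun z => f (x, z)) (hf.comp (by fun_prop)), ← ofReal_norm, ha]
    simp
  rw [h1, Measure.volume_eq_prod]
  exact ((measurePreserving_add_prod (volume : Measure ℂ) volume).lintegral_comp
    (f := fun p : ℂ × ℂ => f (p.1, a * p.2)) (hf.comp (by fun_prop))).symm

lemma c_conj {S : Set ℂ} (hS : MeasurableSet S) : c S (1 - om) = c S om := by
  rw [c, lint_rot (a := -1) (by simp) (meas_ind hS _), c]
  refine lintegral_congr fun p => ?_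
  have e1 : p.1 + p.2 + -1 * p.2 = p.1 := by ring
  have e2 : p.1 + p.2 + -1 * p.2 * (1 - om) = p.1 + p.2 * om := by ring
  have e3 : (p.1 + p.2, -1 * p.2) ∈ T S (1 - om) ↔ p ∈ T S om := by
    simp only [T, mem_ofPred_eq]
    rw [e1, e2, and_left_comm]
  by_cases h : p ∈ T S om
  · rw [indicator_of_mem h, indicator_of_mem (e3.2 h)]; simp
  · rw [indicator_of_notMem h, indicator_of_notMem (mt e3.1 h)]

lemma near_aux {a b u v : ℝ} (ha : 0 < a) (hb : 0 < b)
    (h1 : a ^ 2 ≤ 1 ^ 2 + b ^ 2 - (1 - 2 / 10 ^ 7) * (1 * b))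
    (h2 : b ^ 2 ≤ 1 ^ 2 + a ^ 2 - (1 - 2 / 10 ^ 7) * (1 * a))
    (h3 : 1 ^ 2 ≤ b ^ 2 + a ^ 2 - (1 - 2 / 10 ^ 7) * (b * a))
    (ea : a ^ 2 = (u - 1) ^ 2 + v ^ 2) (eb : b ^ 2 = u ^ 2 + v ^ 2) :
    |u - 1 / 2| ≤ 4 / 10 ^ 6 ∧ ∀ t : ℝ, 0 ≤ t → t ^ 2 = v ^ 2 → |t - √3 / 2| ≤ 2 / 10 ^ 5 := by
  have k1 : (1 - 2 / 10 ^ 7) * (a + b) ≤ 2 := by linarith
  have k2 : (1 - 2 / 10 ^ 7) * (1 + a) ≤ 2 * b := le_of_mul_le_mul_right (by linarith) hb
  have k3 : (1 - 2 / 10 ^ 7) * (1 + b) ≤ 2 * a := le_of_mul_le_mul_right (by linarith) ha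
  have a1 : 1 - 1 / 10 ^ 6 ≤ a := by linarith
  have b1 : 1 - 1 / 10 ^ 6 ≤ b := by linarith
  have a2 : a ≤ 1 + 2 / 10 ^ 6 := by linarith
  have b2 : b ≤ 1 + 2 / 10 ^ 6 := by linarith
  have a3 := pow_le_pow_left₀ (by norm_num) a1 2
  have b3 := pow_le_pow_left₀ (by norm_num) b1 2
  have a4 := pow_le_pow_left₀ ha.le a2 2
  have b4 := pow_le_pow_left₀ hb.le b2 2
  norm_num at a3 b3 a4 b4
  have r1 : 1 / 2 - 4 / 10 ^ 6 ≤ u := by linarith
  have r2 : u ≤ 1 / 2 + 4 / 10 ^ 6 := by linarith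
  have u3 := pow_le_pow_left₀ (by norm_num) r1 2
  have u4 := pow_le_pow_left₀ (by linarith) r2 2
  norm_num at u3 u4
  have hs := s3
  have hs0 : 1 ≤ √3 := Real.one_le_sqrt.2 (by norm_num)
  refine ⟨abs_le.2 ⟨by linarith, by linarith⟩, fun t h0 ht => ?_⟩
  have hp : 0 ≤ t + √3 / 2 - 1 / 2 := by linarith
  rw [abs_le]
  constructor
  · by_contra h
    have := mul_nonneg (sub_nonneg.2 (not_le.1 h).le) hp
    have := not_le.1 h
    linarith
  · by_contra h
    have := mul_nonneg (sub_nonneg.2 (not_le.1 h).le) hp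
    have := not_le.1 h
    linarith

lemma near {w : ℂ} (h : ang 0 1 w ≤ arccos (1 / 2 - 1 / 10 ^ 7)) :
    ‖w - om‖ ≤ 1 / 10 ^ 4 ∨ ‖w - (1 - om)‖ ≤ 1 / 10 ^ 4 := by
  have key : ∀ x y : ℂ, InnerProductGeometry.angle x y ≤ arccos (1 / 2 - 1 / 10 ^ 7) →
      0 < ‖x‖ ∧ 0 < ‖y‖ ∧ ‖x - y‖ ^ 2 ≤ ‖x‖ ^ 2 + ‖y‖ ^ 2 - (1 - 2 / 10 ^ 7) * (‖x‖ * ‖y‖) := by
    intro x y h
    have h1 := Real.cos_le_cos_of_nonneg_of_le_pi (InnerProductGeometry.angle_nonneg x y)
      (Real.arccos_le_pi _) h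
    rw [Real.cos_arccos (by norm_num) (by norm_num), InnerProductGeometry.cos_angle] at h1
    have hx : 0 < ‖x‖ := by
      refine norm_pos_iff.2 ?_
      rintro rfl
      norm_num at h1
    have hy : 0 < ‖y‖ := by
      refine norm_pos_iff.2 ?_
      rintro rfl
      norm_num at h1
    rw [le_div_iff₀ (mul_pos hx hy)] at h1
    refine ⟨hx, hy, ?_⟩
    rw [norm_sub_sq_real]
    linarith
  simp only [ang, max_le_iff, EuclideanGeometry.angle, vsub_eq_sub, sub_zero, zero_sub] at h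
  obtain ⟨-, hb, h1⟩ := key _ _ h.1
  obtain ⟨-, ha, h2⟩ := key _ _ h.2.1
  obtain ⟨-, -, h3⟩ := key _ _ h.2.2
  rw [norm_sub_rev 1 w] at h1 h3
  rw [show -1 - (w - 1) = -w by ring] at h2
  rw [show -w - (1 - w) = -1 by ring] at h3
  simp only [norm_neg, norm_one] at h1 h2 h3
  have ea : ‖w - 1‖ ^ 2 = (w.re - 1) ^ 2 + w.im ^ 2 := by
    rw [Complex.sq_norm, Complex.normSq_apply]; simp; ring
  have eb : ‖w‖ ^ 2 = w.re ^ 2 + w.im ^ 2 := by
    rw [Complex.sq_norm, Complex.normSq_apply]; ring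
  obtain ⟨r3, fin⟩ := near_aux ha hb h1 h2 h3 ea eb
  rcases le_total 0 w.im with h0 | h0
  · left
    have := fin _ h0 rfl
    refine (Complex.norm_le_abs_re_add_abs_im _).trans ?_
    simp only [om, Complex.sub_re, Complex.sub_im]
    linarith
  · right
    have := fin (-w.im) (by linarith) (by ring)
    refine (Complex.norm_le_abs_re_add_abs_im _).trans ?_
    simp only [om, Complex.sub_re, Complex.sub_im, Complex.one_re, Complex.one_im]
    rw [show w.im - (0 - √3 / 2) = -(-w.im - √3 / 2) by ring, abs_neg,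
      show (1 : ℝ) - 1 / 2 = 1 / 2 by norm_num]
    linarith

lemma W_pos : 0 < volume {w : ℂ | ang 0 1 w ≤ arccos (1 / 2 - 1 / 10 ^ 7)} := by
  have n1 : ‖om - 1‖ = 1 := by rw [← om_sq, norm_mul, norm_om, one_mul]
  have h0 : om ≠ 0 := by intro h; have := norm_om; rw [h] at this; simp at this
  have h1 : om ≠ 1 := by intro h; rw [h] at n1; simp at n1
  have key : ∀ x y : ℂ, ‖x‖ = 1 → ‖y‖ = 1 → ‖x - y‖ = 1 →
      InnerProductGeometry.angle x y < arccos (1 / 2 - 1 / 10 ^ 7) := by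
    intro x y hx hy h
    have := norm_sub_sq_real x y
    rw [hx, hy, h] at this
    rw [InnerProductGeometry.angle, hx, hy]
    exact Real.arccos_lt_arccos (by norm_num) (by linarith) (by linarith)
  have hc : ContinuousAt (fun w => ang 0 1 w) om :=
    ((continuousAt_angle (x := ((1 : ℂ), (0 : ℂ), om)) one_ne_zero h0).comp
      (f := fun w : ℂ => ((1 : ℂ), (0 : ℂ), w)) (by fun_prop)).max
    (((continuousAt_angle (x := ((0 : ℂ), (1 : ℂ), om)) zero_ne_one h1).comp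
      (f := fun w : ℂ => ((0 : ℂ), (1 : ℂ), w)) (by fun_prop)).max
    ((continuousAt_angle (x := ((0 : ℂ), om, (1 : ℂ))) h0.symm h1.symm).comp
      (f := fun w : ℂ => ((0 : ℂ), w, (1 : ℂ))) (by fun_prop)))
  refine Measure.measure_pos_of_mem_nhds _ (x := om) (Filter.mem_of_superset
    (hc.eventually_lt (continuousAt_const (y := arccos (1 / 2 - 1 / 10 ^ 7))) ?_) fun w hw => (show ang 0 1 w < _ from hw).le)
  simp only [ang, max_lt_iff, EuclideanGeometry.angle, vsub_eq_sub, sub_zero, zero_sub]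
  refine ⟨key _ _ (by simp) norm_om (by rw [norm_sub_rev, n1]), key _ _ (by simp) n1 ?_,
    key _ _ (by rw [norm_neg, norm_om]) (by rw [norm_sub_rev, n1]) ?_⟩
  · rw [show -1 - (om - 1) = -om by ring, norm_neg, norm_om]
  · rw [show -om - (1 - om) = -1 by ring]; simp

lemma W_fin : volume {w : ℂ | ang 0 1 w ≤ arccos (1 / 2 - 1 / 10 ^ 7)} < ∞ := by
  refine (measure_mono (t := Metric.closedBall om (1 / 10 ^ 4) ∪
    Metric.closedBall (1 - om) (1 / 10 ^ 4)) fun w hw => ?_).trans_lt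
    (measure_union_lt_top measure_closedBall_lt_top measure_closedBall_lt_top)
  simpa only [mem_union, mem_closedBall_iff_norm] using near hw

end Pool.Agent.Lib.H29.Hall
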