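import Mathlib
import Pool.Agent.Lib.helper29.Hall1

set_option autoImplicit false

namespace Pool.Agent.Lib.H29.Hall

open Set MeasureTheory Real
open scoped ENNReal

lemma lint_Icc {f : ℝ → ℝ} (hf : Continuous f) {a b : ℝ} (hab : a ≤ b) (h0 : ∀ x ∈ Ioc a b, 0 ≤ f x) :
    ∫⁻ x in Ioc a b, ENNReal.ofReal (f x) = ENNReal.ofReal (∫ x in a..b, f x) := by
  rw [intervalIntegral.integral_of_le hab, ofReal_integral_eq_lintegral_ofReal
    (hf.integrableOn_Icc.mono_set Ioc_subset_Icc_self)]
  exact (ae_restrict_iff' measurableSet_Ioc).2 (ae_of_all _ h0)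

lemma rad {g : ℝ → ℝ≥0∞} {ρ : ℝ} (hρ : 0 ≤ ρ) (k : ℕ)
    (h : ∀ r, 0 < r → g r ≤ (Iic ρ).indicator (fun r => ENNReal.ofReal (r ^ k)) r) :
    ∫⁻ r in Ioi (0 : ℝ), ENNReal.ofReal r * g r ≤ ENNReal.ofReal (ρ ^ (k + 2) / (k + 2)) := by
  have h1 : ∫⁻ r in Ioi (0 : ℝ), ENNReal.ofReal r * g r ≤
      ∫⁻ r in Ioi (0 : ℝ), (Iic ρ).indicator (fun r => ENNReal.ofReal (r ^ (k + 1))) r := by
    refine setLIntegral_mono' measurableSet_Ioi fun r hr => (mul_le_mul_right (h r hr) _).trans ?_
    by_cases h2 : r ∈ Iic ρ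
    · rw [indicator_of_mem h2, indicator_of_mem h2, ← ENNReal.ofReal_mul (le_of_lt hr), pow_succ']
    · simp [indicator_of_notMem h2]
  refine h1.trans (le_of_eq ?_)
  rw [lintegral_indicator measurableSet_Iic, Measure.restrict_restrict measurableSet_Iic,
    Iic_inter_Ioi, lint_Icc (by fun_prop) hρ fun x hx => pow_nonneg hx.1.le _, integral_pow]
  congr 1
  push_cast
  ring

lemma norm_polar (r θ : ℝ) (hr : 0 < r) : ‖(r : ℂ) * (cos θ + sin θ * Complex.I)‖ = r := by
  have := Complex.norm_polarCoord_symm (r, θ)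
  rw [Complex.polarCoord_symm_apply] at this
  rw [this, abs_of_pos hr]

lemma int_cos4 (a b : ℝ) : ∫ x in a..b, cos x ^ 4 = (cos b ^ 3 * sin b - cos a ^ 3 * sin a) / 4 +
    3 / 4 * ((cos b * sin b - cos a * sin a + b - a) / 2) := by
  rw [integral_cos_pow (n := 2), integral_cos_sq]
  norm_num

def L : Set ℂ := {u | ‖1 - u‖ ≤ 1 ∧ ‖1 - u * om‖ ≤ 1}

lemma meas_L : MeasurableSet L := by
  unfold L
  rw [ofPred_and]
  exact (measurableSet_le (by fun_prop) measurable_const).inter
    (measurableSet_le (by fun_prop) measurable_const)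

lemma lens : ∫⁻ u, L.indicator (fun u => ‖u‖ₑ ^ 2) u ≤ ENNReal.ofReal (π - 9 * √3 / 8) := by
  have hs := s3
  have hπ := Real.pi_pos
  rw [lint_polar (Measurable.indicator (by fun_prop) meas_L)]
  have h1 : ∀ θ ∈ Ioo (-π) π, ∫⁻ r in Ioi (0 : ℝ), ENNReal.ofReal r *
      L.indicator (fun u => ‖u‖ₑ ^ 2) (r * (cos θ + sin θ * Complex.I)) ≤
      (Ioc (-(π / 2)) (-(π / 6))).indicator (fun θ => ENNReal.ofReal (4 * cos θ ^ 4)) θ +
      (Ioc (-(π / 6)) (π / 6)).indicator (fun θ => ENNReal.ofReal (4 * cos (θ + π / 3) ^ 4)) θ := by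
    intro θ hθ
    have key : ∀ ρ, 0 ≤ ρ → (2 * cos θ ≤ ρ ∨ 2 * cos (θ + π / 3) ≤ ρ) →
        ∫⁻ r in Ioi (0 : ℝ), ENNReal.ofReal r *
        L.indicator (fun u => ‖u‖ₑ ^ 2) (r * (cos θ + sin θ * Complex.I)) ≤
        ENNReal.ofReal (ρ ^ 4 / 4) := by
      intro ρ hρ h
      refine (rad hρ 2 fun r hr => ?_).trans (by norm_num)
      by_cases hL : (r : ℂ) * (cos θ + sin θ * Complex.I) ∈ L
      · have hr2 : r ∈ Iic ρ := by
          obtain ⟨a, b⟩ := hL
          rw [← sq_le_one_iff₀ (norm_nonneg _), Complex.sq_norm, Complex.normSq_apply] at a b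
          simp only [om, Complex.sub_re, Complex.sub_im, Complex.mul_re, Complex.mul_im,
            Complex.add_re, Complex.add_im, Complex.ofReal_re, Complex.ofReal_im, Complex.I_re,
            Complex.I_im, Complex.one_re, Complex.one_im] at a b
          have e := cos_sq_add_sin_sq θ
          rcases h with h | h
          · refine le_trans (le_of_mul_le_mul_left (a := r) ?_ hr) h
            have : r ^ 2 * (cos θ ^ 2 + sin θ ^ 2) = r ^ 2 := by rw [e, mul_one]
            linarith
          · rw [cos_add, cos_pi_div_three, sin_pi_div_three] at h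
            refine le_trans (le_of_mul_le_mul_left (a := r) ?_ hr) h
            have h3 : r ^ 2 * (cos θ ^ 2 + sin θ ^ 2) = r ^ 2 := by rw [e, mul_one]
            have h4 : r ^ 2 * (cos θ ^ 2 + sin θ ^ 2) * (√3 * √3) = r ^ 2 * 3 := by rw [h3, hs]
            linarith
        rw [indicator_of_mem hL, indicator_of_mem hr2, ← ofReal_norm, norm_polar r θ hr,
          ENNReal.ofReal_pow hr.le]
      · rw [indicator_of_notMem hL]; exact zero_le
    rcases le_or_gt θ (-(π / 2)) with h | h
    · refine (key 0 le_rfl (Or.inl ?_)).trans (by simp)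
      have := cos_nonpos_of_pi_div_two_le_of_le (x := -θ) (by linarith) (by linarith [hθ.1])
      rw [cos_neg] at this
      linarith
    rcases le_or_gt θ (-(π / 6)) with h2 | h2
    · have := cos_nonneg_of_mem_Icc (x := θ) ⟨h.le, by linarith⟩
      refine (key _ (by linarith) (Or.inl le_rfl)).trans (le_trans ?_ le_self_add)
      rw [indicator_of_mem (show θ ∈ Ioc _ _ from ⟨h, h2⟩)]
      exact le_of_eq (by congr 1; ring)
    rcases le_or_gt θ (π / 6) with h3 | h3
    · have := cos_nonneg_of_mem_Icc (x := θ + π / 3) ⟨by linarith, by linarith⟩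
      refine (key _ (by linarith) (Or.inr le_rfl)).trans (le_trans ?_ le_add_self)
      rw [indicator_of_mem (show θ ∈ Ioc _ _ from ⟨h2, h3⟩)]
      exact le_of_eq (by congr 1; ring)
    · refine (key 0 le_rfl (Or.inr ?_)).trans (by simp)
      have := cos_nonpos_of_pi_div_two_le_of_le (x := θ + π / 3) (by linarith) (by linarith [hθ.2])
      linarith
  refine (setLIntegral_mono' measurableSet_Ioo h1).trans ((setLIntegral_le_lintegral _ _).trans ?_)
  rw [lintegral_add_left (Measurable.indicator (by fun_prop) measurableSet_Ioc),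
    lintegral_indicator measurableSet_Ioc, lintegral_indicator measurableSet_Ioc,
    lint_Icc (by fun_prop) (by linarith) fun x _ => by positivity,
    lint_Icc (by fun_prop) (by linarith) fun x _ => by positivity,
    intervalIntegral.integral_const_mul, intervalIntegral.integral_const_mul,
    intervalIntegral.integral_comp_add_right (fun x => cos x ^ 4), int_cos4, int_cos4,
    show π / 6 + π / 3 = π / 2 by ring, show -(π / 6) + π / 3 = π / 6 by ring]
  simp only [cos_neg, sin_neg, cos_pi_div_two, sin_pi_div_two, cos_pi_div_six, sin_pi_div_six]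
  have h3 : √3 ^ 3 = 3 * √3 := by rw [pow_succ, sq, hs]
  have h4 : √3 ≤ 2 := by rw [Real.sqrt_le_left (by norm_num)]; norm_num
  have h5 := Real.pi_gt_three
  rw [← ENNReal.ofReal_add (by rw [div_pow, h3]; linarith) (by rw [div_pow, h3]; linarith), div_pow, h3]
  exact le_of_eq (by congr 1; ring)

lemma disk {R : ℝ} (hR : 0 ≤ R) :
    c (Metric.closedBall 0 R) om ≤ ENNReal.ofReal (π * R ^ 6 * (π - 9 * √3 / 8)) := by
  let T0 : Set (ℂ × ℂ) := {p | ‖p.1‖ ≤ R ∧ ‖p.1 + p.2‖ ≤ ‖p.1‖ ∧ ‖p.1 + p.2 * om‖ ≤ ‖p.1‖}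
  have hT : MeasurableSet T0 := by
    simp only [T0]
    rw [ofPred_and, ofPred_and]
    exact (measurableSet_le (by fun_prop) measurable_const).inter
      ((measurableSet_le (by fun_prop) (by fun_prop)).inter
        (measurableSet_le (by fun_prop) (by fun_prop)))
  let f : ℂ × ℂ → ℝ≥0∞ := T0.indicator fun p => ‖p.2‖ₑ ^ 2
  have hf : Measurable f := Measurable.indicator (by fun_prop) hT
  let σ : ℂ × ℂ → ℂ × ℂ := fun p => (p.1 + p.2, om * om * p.2)
  have hσ : Measurable σ := by fun_prop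
  have n2 : ‖om * om‖ = 1 := by rw [norm_mul, norm_om, one_mul]
  have s1 : ∀ p : ℂ × ℂ, (σ p).1 + (σ p).2 = p.1 + p.2 * om := fun p => by
    simp only [σ]; linear_combination p.2 * om_sq
  have s2 : ∀ p : ℂ × ℂ, (σ p).1 + (σ p).2 * om = p.1 := fun p => by
    simp only [σ]; linear_combination p.2 * (om + 1) * om_sq
  have s0 : ∀ p : ℂ × ℂ, ‖(σ p).2‖ₑ = ‖p.2‖ₑ := fun p => by
    rw [← ofReal_norm, ← ofReal_norm]; simp only [σ]; rw [norm_mul, n2, one_mul]
  have h1 : c (Metric.closedBall 0 R) om ≤ ∫⁻ p, (f p + f (σ p) + f (σ (σ p))) := by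
    refine lintegral_mono fun p => ?_
    by_cases hp : p ∈ T (Metric.closedBall 0 R) om
    swap
    · simp [indicator_of_notMem hp]
    rw [indicator_of_mem hp]
    obtain ⟨a, b, d⟩ := hp
    rw [mem_closedBall_zero_iff] at a b d
    by_cases c1 : p ∈ T0
    · refine le_trans (le_of_eq ?_) (le_self_add.trans le_self_add)
      simp only [f]
      rw [indicator_of_mem c1]
    by_cases c2 : σ p ∈ T0
    · refine le_trans (le_of_eq ?_) (le_add_self.trans le_self_add)
      simp only [f]
      rw [indicator_of_mem c2, s0]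
    refine le_trans (le_of_eq ?_) le_add_self
    have c3 : σ (σ p) ∈ T0 := by
      simp only [T0, mem_ofPred_eq, s1, s2] at c1 c2 ⊢
      rw [show (σ (σ p)).1 = p.1 + p.2 * om from s1 p, show (σ p).1 = p.1 + p.2 from rfl] at *
      refine ⟨d, ?_, ?_⟩ <;> by_contra h <;> push Not at h c1 c2
      · rcases le_total ‖p.1 + p.2‖ ‖p.1‖ with h2 | h2
        · linarith [c1 a h2]
        · linarith [c2 b (by linarith)]
      · rcases le_total ‖p.1 + p.2‖ ‖p.1‖ with h2 | h2
        · linarith [c1 a h2]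
        · linarith [c2 b (by linarith)]
    simp only [f]
    rw [indicator_of_mem c3, s0, s0]
  have e1 : ∫⁻ p, f (σ p) = ∫⁻ p, f p := (lint_rot n2 hf).symm
  have e2 : ∫⁻ p, f (σ (σ p)) = ∫⁻ p, f p := (lint_rot n2 (hf.comp hσ)).symm.trans e1
  rw [lintegral_add_left (f := fun p => f p + f (σ p)) (hf.add (hf.comp hσ)),
    lintegral_add_left hf, e1, e2] at h1
  have h2 : ∫⁻ p, f p = (∫⁻ x : ℂ, (Metric.closedBall 0 R).indicator (fun x => ‖x‖ₑ ^ 4) x) *
      ∫⁻ u, L.indicator (fun u => ‖u‖ₑ ^ 2) u := by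
    rw [Measure.volume_eq_prod, lintegral_prod _ hf.aemeasurable,
      ← lintegral_mul_const _ (Measurable.indicator (by fun_prop) measurableSet_closedBall)]
    refine lintegral_congr_ae ?_
    filter_upwards [compl_mem_ae_iff.2 (measure_singleton (0 : ℂ))] with x hx
    have hx : x ≠ 0 := hx
    have hx0 := norm_pos_iff.2 hx
    rw [lint_mul (neg_ne_zero.2 hx) (f := fun d => f (x, d)) (hf.comp (by fun_prop)),
      ← lintegral_const_mul _ (f := fun u => f (x, -x * u)) (hf.comp (by fun_prop)),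
      ← lintegral_const_mul _ (Measurable.indicator (by fun_prop) meas_L)]
    refine lintegral_congr fun u => ?_
    have e : (x, -x * u) ∈ T0 ↔ x ∈ Metric.closedBall 0 R ∧ u ∈ L := by
      simp only [T0, L, mem_ofPred_eq, mem_closedBall_zero_iff]
      rw [show x + -x * u = x * (1 - u) by ring, show x + -x * u * om = x * (1 - u * om) by ring,
        norm_mul, norm_mul, mul_le_iff_le_one_right hx0, mul_le_iff_le_one_right hx0]
    simp only [f]
    by_cases a : x ∈ Metric.closedBall 0 R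
    · by_cases b : u ∈ L
      · rw [indicator_of_mem (e.2 ⟨a, b⟩), indicator_of_mem a, indicator_of_mem b]
        simp only [enorm_mul, enorm_neg]
        ring
      · rw [indicator_of_notMem (fun h => b (e.1 h).2), indicator_of_notMem b]; simp
    · rw [indicator_of_notMem (fun h => a (e.1 h).1), indicator_of_notMem a]; simp
  have h3 : ∫⁻ x : ℂ, (Metric.closedBall 0 R).indicator (fun x => ‖x‖ₑ ^ 4) x ≤
      ENNReal.ofReal (π * R ^ 6 / 3) := by
    rw [lint_polar (Measurable.indicator (by fun_prop) measurableSet_closedBall)]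
    refine (setLIntegral_mono' (g := fun _ => ENNReal.ofReal (R ^ 6 / 6)) measurableSet_Ioo
      fun θ _ => (rad hR 4 fun r hr => ?_).trans (by norm_num)).trans ?_
    · by_cases h : r ∈ Iic R
      · rw [indicator_of_mem h, indicator_of_mem (by rwa [mem_closedBall_zero_iff, norm_polar r θ hr]),
          ← ofReal_norm, norm_polar r θ hr, ENNReal.ofReal_pow hr.le]
      · rw [indicator_of_notMem (by rwa [mem_closedBall_zero_iff, norm_polar r θ hr])]
        exact zero_le
    · rw [setLIntegral_const, Real.volume_Ioo, ← ENNReal.ofReal_mul (by positivity)]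
      exact le_of_eq (by congr 1; ring)
  have h4 : 0 ≤ π * R ^ 6 / 3 * (π - 9 * √3 / 8) := by
    have h4 : √3 ≤ 2 := by rw [Real.sqrt_le_left (by norm_num)]; norm_num
    have h5 := Real.pi_gt_three
    exact mul_nonneg (by positivity) (by linarith)
  have h5 : ∫⁻ p, f p ≤ ENNReal.ofReal (π * R ^ 6 / 3 * (π - 9 * √3 / 8)) := by
    rw [h2, ENNReal.ofReal_mul (by positivity)]
    exact mul_le_mul' h3 lens
  refine h1.trans ((add_le_add (add_le_add h5 h5) h5).trans ?_)
  rw [← ENNReal.ofReal_add h4 h4, ← ENNReal.ofReal_add (add_nonneg h4 h4) h4]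
  exact le_of_eq (by congr 1; ring)

end Pool.Agent.Lib.H29.Hall
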