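import Mathlib
import Pool.Agent.Lib.helper29.Hall2

set_option autoImplicit false

namespace Pool.Agent.Lib.H29.Hall

open Set MeasureTheory Real
open scoped ENNReal

def Sq (a b : ℝ) : Set ℂ := {z | z.re ∈ Icc a b ∧ z.im ∈ Icc a b}

lemma vol_prod (U V : Set ℝ) (hU : MeasurableSet U) (hV : MeasurableSet V) :
    volume {z : ℂ | z.re ∈ U ∧ z.im ∈ V} = volume U * volume V := by
  have := Complex.volume_preserving_equiv_real_prod.measure_preimage (hU.prod hV).nullMeasurableSet
  rw [Measure.volume_eq_prod, Measure.prod_prod] at this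
  exact this

lemma meas_Sq (a b : ℝ) : MeasurableSet (Sq a b) :=
  (Complex.measurable_re measurableSet_Icc).inter (Complex.measurable_im measurableSet_Icc)

noncomputable def wd (p q : ℝ) : ℝ := max |p| (max |q| |q - p|)

lemma width (p q : ℝ) : ∃ u v : ℝ, 1 - wd p q ≤ v - u ∧
    ∀ x ∈ Icc u v, x ∈ Icc (0 : ℝ) 1 ∧ x + p ∈ Icc (0 : ℝ) 1 ∧ x + q ∈ Icc (0 : ℝ) 1 := by
  refine ⟨-min 0 (min p q), 1 - max 0 (max p q), ?_, fun x hx => ?_⟩
  · have h1 : |p| ≤ wd p q := le_max_left _ _
    have h2 : |q| ≤ wd p q := (le_max_left _ _).trans (le_max_right _ _)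
    have h3 : |q - p| ≤ wd p q := (le_max_right _ _).trans (le_max_right _ _)
    rw [abs_le] at h1 h2 h3
    simp only [min_def, max_def]
    split_ifs <;> linarith [h1.1, h1.2, h2.1, h2.2, h3.1, h3.2]
  · have a1 := min_le_left 0 (min p q)
    have a2 := (min_le_right 0 (min p q)).trans (min_le_left p q)
    have a3 := (min_le_right 0 (min p q)).trans (min_le_right p q)
    have b1 := le_max_left 0 (max p q)
    have b2 := (le_max_left p q).trans (le_max_right 0 (max p q))
    have b3 := (le_max_right p q).trans (le_max_right 0 (max p q))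
    obtain ⟨h1, h2⟩ := hx
    refine ⟨⟨?_, ?_⟩, ⟨?_, ?_⟩, ?_, ?_⟩ <;> linarith

noncomputable def wa (θ : ℝ) : ℝ := max |cos θ| (max |cos (θ + π / 3)| |cos (θ + 2 * π / 3)|)
noncomputable def wb (θ : ℝ) : ℝ := max |sin θ| (max |sin (θ + π / 3)| |sin (θ + 2 * π / 3)|)

lemma trig (θ : ℝ) : cos (θ + π / 3) = cos θ / 2 - √3 / 2 * sin θ ∧
    sin (θ + π / 3) = sin θ / 2 + √3 / 2 * cos θ ∧
    cos (θ + 2 * π / 3) = -cos θ / 2 - √3 / 2 * sin θ ∧
    sin (θ + 2 * π / 3) = -sin θ / 2 + √3 / 2 * cos θ := by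
  rw [show θ + 2 * π / 3 = θ - π / 3 + π by ring, cos_add_pi, sin_add_pi, cos_add, sin_add, cos_sub,
    sin_sub, cos_pi_div_three, sin_pi_div_three]
  refine ⟨?_, ?_, ?_, ?_⟩ <;> ring

noncomputable def gam (θ : ℝ) : ℝ :=
  ∫ r in (0 : ℝ)..2, r ^ 3 * (max (1 - r * wa θ) 0 * max (1 - r * wb θ) 0)

lemma gam_cont : Continuous gam := by
  refine intervalIntegral.continuous_parametric_intervalIntegral_of_continuous' ?_ _ _
  unfold wa wb
  fun_prop

lemma gam_nonneg (θ : ℝ) : 0 ≤ gam θ :=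
  intervalIntegral.integral_nonneg (by norm_num) fun r hr => by have := hr.1; positivity

lemma gam_per : Function.Periodic gam (π / 6) := by
  intro θ
  have h1 : wa (θ + π / 6) = wb θ := by
    unfold wa wb
    rw [show θ + π / 6 + π / 3 = θ + π / 2 by ring,
      show θ + π / 6 + 2 * π / 3 = θ + π / 3 + π / 2 by ring,
      show θ + 2 * π / 3 = θ + π / 6 + π / 2 by ring, cos_add_pi_div_two, cos_add_pi_div_two,
      sin_add_pi_div_two, abs_neg, abs_neg, max_comm, max_assoc]
  have h2 : wb (θ + π / 6) = wa θ := by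
    unfold wa wb
    rw [show θ + π / 6 + π / 3 = θ + π / 2 by ring,
      show θ + π / 6 + 2 * π / 3 = θ + π / 3 + π / 2 by ring,
      show θ + 2 * π / 3 = θ + π / 6 + π / 2 by ring, cos_add_pi_div_two, sin_add_pi_div_two,
      sin_add_pi_div_two, abs_neg, max_comm, max_assoc]
  simp only [gam, h1, h2, mul_comm (max (1 - _ * wb θ) 0)]

lemma c_ge : ENNReal.ofReal (∫ θ in (-π)..π, gam θ) ≤ c (Sq 0 1) om := by
  let F : ℂ → ℝ≥0∞ := fun d => ‖d‖ₑ ^ 2 * (ENNReal.ofReal (1 - wd d.re (d * om).re) *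
    ENNReal.ofReal (1 - wd d.im (d * om).im))
  have hF : Measurable F := by unfold F wd; fun_prop
  have h1 : ∫⁻ d, F d ≤ c (Sq 0 1) om := by
    rw [c, Measure.volume_eq_prod, lintegral_prod_symm _ (meas_ind (meas_Sq 0 1) om).aemeasurable]
    refine lintegral_mono fun d => ?_
    obtain ⟨u, v, h1, h2⟩ := width d.re (d * om).re
    obtain ⟨u', v', h1', h2'⟩ := width d.im (d * om).im
    have hm : MeasurableSet {z : ℂ | z.re ∈ Icc u v ∧ z.im ∈ Icc u' v'} :=
      (Complex.measurable_re measurableSet_Icc).inter (Complex.measurable_im measurableSet_Icc)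
    refine le_trans ?_ (lintegral_mono (f := {z : ℂ | z.re ∈ Icc u v ∧ z.im ∈ Icc u' v'}.indicator
      fun _ => ‖d‖ₑ ^ 2) fun x => ?_)
    · rw [lintegral_indicator_const hm, vol_prod _ _ measurableSet_Icc measurableSet_Icc,
        Real.volume_Icc, Real.volume_Icc]
      exact mul_le_mul_right (mul_le_mul' (ENNReal.ofReal_le_ofReal h1) (ENNReal.ofReal_le_ofReal h1')) _
    · by_cases hx : x ∈ {z : ℂ | z.re ∈ Icc u v ∧ z.im ∈ Icc u' v'}
      · obtain ⟨a1, a2, a3⟩ := h2 _ hx.1
        obtain ⟨b1, b2, b3⟩ := h2' _ hx.2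
        rw [indicator_of_mem hx, indicator_of_mem (show (x, d) ∈ T (Sq 0 1) om from
          ⟨⟨a1, b1⟩, ⟨a2, b2⟩, a3, b3⟩)]
      · rw [indicator_of_notMem hx]; exact zero_le
  refine le_trans ?_ h1
  rw [lint_polar hF, ← lint_Icc gam_cont (by linarith [Real.pi_pos]) fun x _ => gam_nonneg x,
    ← setLIntegral_congr Ioo_ae_eq_Ioc]
  refine setLIntegral_mono' measurableSet_Ioo fun θ _ => ?_
  rw [gam, ← lint_Icc (by fun_prop) (by norm_num) fun r hr => by have := hr.1.le; positivity]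
  refine le_trans (setLIntegral_mono' measurableSet_Ioc fun r hr => le_of_eq ?_)
    (lintegral_mono_set Ioc_subset_Ioi_self)
  have hr0 := hr.1
  obtain ⟨t1, t2, t3, t4⟩ := trig θ
  have e : ∀ p q : ℝ, wd (r * p) (r * q) = r * max |p| (max |q| |q - p|) := fun p q => by
    rw [wd, ← mul_sub, abs_mul, abs_mul, abs_mul, abs_of_pos hr0, mul_max_of_nonneg _ _ hr0.le,
      mul_max_of_nonneg _ _ hr0.le]
  have e1 : wd ((r : ℂ) * (cos θ + sin θ * Complex.I)).re
      ((r : ℂ) * (cos θ + sin θ * Complex.I) * om).re = r * wa θ := by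
    rw [wa, show cos (θ + 2 * π / 3) = cos (θ + π / 3) - cos θ by rw [t1, t3]; ring, ← e, t1]
    simp only [om, Complex.mul_re, Complex.mul_im, Complex.add_re, Complex.add_im, Complex.ofReal_re,
      Complex.ofReal_im, Complex.I_re, Complex.I_im]
    congr 1 <;> ring
  have e2 : wd ((r : ℂ) * (cos θ + sin θ * Complex.I)).im
      ((r : ℂ) * (cos θ + sin θ * Complex.I) * om).im = r * wb θ := by
    rw [wb, show sin (θ + 2 * π / 3) = sin (θ + π / 3) - sin θ by rw [t2, t4]; ring, ← e, t2]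
    simp only [om, Complex.mul_re, Complex.mul_im, Complex.add_re, Complex.add_im, Complex.ofReal_re,
      Complex.ofReal_im, Complex.I_re, Complex.I_im]
    congr 1 <;> ring
  simp only [F]
  rw [e1, e2, ← ofReal_norm, norm_polar r θ hr0, ENNReal.ofReal_mul (by positivity),
    ENNReal.ofReal_mul (le_max_right _ _), ENNReal.ofReal_max, ENNReal.ofReal_max,
    ENNReal.ofReal_pow hr0.le]
  simp only [ENNReal.ofReal_zero, zero_le, sup_of_le_left]
  ring

lemma gam_ge {θ : ℝ} (h : θ ∈ Icc (-(π / 12)) (π / 12)) :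
    (1 + tan θ ^ 2) * (3 - √3 - 2 / 25 - 25 / 8 * tan θ ^ 2) / 60 * (1 / cos θ ^ 2) ≤ gam θ := by
  have hπ := Real.pi_pos
  obtain ⟨t1, t2, t3, t4⟩ := trig θ
  have hs := s3
  have hs0 : 1 ≤ √3 := Real.one_le_sqrt.2 (by norm_num)
  have c1 : 0 ≤ cos (θ + π / 3) := cos_nonneg_of_mem_Icc ⟨by linarith [h.1], by linarith [h.2]⟩
  have c2 : cos (θ + 2 * π / 3) ≤ 0 :=
    cos_nonpos_of_pi_div_two_le_of_le (by linarith [h.1]) (by linarith [h.2])
  have c3 : 1 / 2 ≤ cos θ := by
    rw [← cos_pi_div_three, ← cos_abs θ]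
    exact cos_le_cos_of_nonneg_of_le_pi (abs_nonneg _) (by linarith)
      (abs_le.2 ⟨by linarith [h.1], by linarith [h.2]⟩)
  set A := cos θ with hA
  set t := tan θ with ht
  have hA0 : 0 < A := by linarith
  have hst : sin θ = A * t := by rw [ht, tan_eq_sin_div_cos, ← hA]; field_simp
  have hAt : A ^ 2 * (1 + t ^ 2) = 1 := by
    have := cos_sq_add_sin_sq θ
    rw [hst] at this
    linarith
  set β := (√3 + 25 / 8 * t ^ 2 + 2 / 25) / 2 with hβ
  have ha : wa θ ≤ A := max_le (abs_le.2 ⟨by linarith, le_rfl⟩)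
    (max_le (abs_le.2 ⟨by linarith, by linarith⟩) (abs_le.2 ⟨by linarith, by linarith⟩))
  have hb : wb θ ≤ A * β := by
    have q1 := mul_nonneg hA0.le (sq_nonneg (t - 4 / 25))
    have q2 := mul_nonneg hA0.le (sq_nonneg (t + 4 / 25))
    have q3 := mul_nonneg hA0.le (sq_nonneg t)
    have q4 := mul_nonneg hA0.le (sub_nonneg.2 hs0)
    have q5 := mul_nonneg hA0.le (sq_nonneg (t - 8 / 25))
    have q6 := mul_nonneg hA0.le (sq_nonneg (t + 8 / 25))
    unfold wb
    rw [t2, t4, hst, hβ]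
    refine max_le (abs_le.2 ⟨?_, ?_⟩) (max_le (abs_le.2 ⟨?_, ?_⟩) (abs_le.2 ⟨?_, ?_⟩)) <;> linarith
  have hρ : 1 / A ≤ 2 := by rw [div_le_iff₀ hA0]; linarith
  have h1 : ∫ r in (0 : ℝ)..1 / A, r ^ 3 * (max (1 - r * wa θ) 0 * max (1 - r * wb θ) 0) ≤ gam θ :=
    intervalIntegral.integral_mono_interval le_rfl (by positivity) hρ
      ((ae_restrict_iff' measurableSet_Ioc).2 (ae_of_all _ fun r hr => by
        have := hr.1.le
        show 0 ≤ _
        positivity))
      (Continuous.intervalIntegrable (by fun_prop) _ _)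
  refine le_trans ?_ (le_trans (intervalIntegral.integral_mono_on (by positivity)
    (f := fun r => r ^ 3 - (A + A * β) * r ^ 4 + A * (A * β) * r ^ 5)
    (Continuous.intervalIntegrable (by fun_prop) _ _) (Continuous.intervalIntegrable (by fun_prop) _ _)
    fun r hr => ?_) h1)
  · rw [intervalIntegral.integral_add (Continuous.intervalIntegrable (by fun_prop) _ _)
      (Continuous.intervalIntegrable (by fun_prop) _ _), intervalIntegral.integral_sub
      (Continuous.intervalIntegrable (by fun_prop) _ _) (Continuous.intervalIntegrable (by fun_prop) _ _),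
      intervalIntegral.integral_const_mul, intervalIntegral.integral_const_mul, integral_pow,
      integral_pow, integral_pow]
    have : 1 + t ^ 2 = 1 / A ^ 2 := by field_simp; linarith
    rw [this, hβ]
    refine le_of_eq ?_
    norm_num
    field_simp
    ring
  · have r0 := hr.1
    have r1 : r * A ≤ 1 := (le_div_iff₀ hA0).1 hr.2
    have m1 : 1 - r * A ≤ max (1 - r * wa θ) 0 :=
      le_trans (by linarith [mul_le_mul_of_nonneg_left ha r0]) (le_max_left _ _)
    have m2 : 1 - r * (A * β) ≤ max (1 - r * wb θ) 0 :=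
      le_trans (by linarith [mul_le_mul_of_nonneg_left hb r0]) (le_max_left _ _)
    rw [show r ^ 3 - (A + A * β) * r ^ 4 + A * (A * β) * r ^ 5 =
      r ^ 3 * ((1 - r * A) * (1 - r * (A * β))) by ring]
    refine mul_le_mul_of_nonneg_left ?_ (by positivity)
    exact (mul_le_mul_of_nonneg_left m2 (by linarith)).trans
      (mul_le_mul_of_nonneg_right m1 (le_max_right _ _))

lemma tan12 : tan (π / 12) = 2 - √3 := by
  have hs := s3
  have h2 : 0 < √2 := by positivity
  have h3 : 0 < √3 := by positivity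
  rw [show π / 12 = π / 3 - π / 4 by ring, tan_eq_sin_div_cos, sin_sub, cos_sub, cos_pi_div_three,
    sin_pi_div_three, cos_pi_div_four, sin_pi_div_four, div_eq_iff (by positivity)]
  linear_combination (√2 / 4) * hs

lemma s3_bd : 173205 / 100000 ≤ √3 ∧ √3 ≤ 173206 / 100000 :=
  ⟨Real.le_sqrt_of_sq_le (by norm_num), Real.sqrt_le_iff.2 ⟨by norm_num, by norm_num⟩⟩

lemma square : ENNReal.ofReal (1219 / 10000) ≤ c (Sq 0 1) om := by
  refine le_trans (ENNReal.ofReal_le_ofReal ?_) c_ge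
  have hπ := Real.pi_pos
  have h1 := gam_per.intervalIntegral_add_zsmul_eq 12 (-π) fun _ _ => gam_cont.intervalIntegrable _ _
  rw [gam_per.intervalIntegral_add_eq (-π) (-(π / 12)), show -π + (12 : ℤ) • (π / 6) = π by
    simp; ring, show -(π / 12) + π / 6 = π / 12 by ring] at h1
  have hc : ∀ θ ∈ uIcc (-(π / 12)) (π / 12), cos θ ≠ 0 := fun θ h => by
    rw [uIcc_of_le (by linarith)] at h
    exact (cos_pos_of_mem_Ioo ⟨by linarith [h.1], by linarith [h.2]⟩).ne'
  have hi : IntervalIntegrable (fun θ => (1 + tan θ ^ 2) * (3 - √3 - 2 / 25 - 25 / 8 * tan θ ^ 2) / 60 *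
      (1 / cos θ ^ 2)) volume (-(π / 12)) (π / 12) := by
    refine ContinuousOn.intervalIntegrable fun θ h => ContinuousAt.continuousWithinAt ?_
    have h1 := continuousAt_tan.2 (hc θ h)
    have h2 := hc θ h
    fun_prop (disch := positivity)
  have h2 := intervalIntegral.integral_mono_on (by linarith) hi (gam_cont.intervalIntegrable _ _)
    fun θ h => gam_ge h
  rw [intervalIntegral.integral_eq_sub_of_hasDerivAt (f := fun θ => ((3 - √3 - 2 / 25) *
    (tan θ + tan θ ^ 3 / 3) - 25 / 8 * (tan θ ^ 3 / 3 + tan θ ^ 5 / 5)) / 60) (fun θ h => by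
      have := hasDerivAt_tan (hc θ h)
      refine ((((this.add ((this.pow 3).div_const 3)).const_mul (3 - √3 - 2 / 25)).sub
        ((((this.pow 3).div_const 3).add ((this.pow 5).div_const 5)).const_mul
          (25 / 8))).div_const 60).congr_deriv ?_
      simp only [Nat.cast_ofNat, Nat.add_one_sub_one]
      ring) hi, tan_neg, tan12] at h2
  rw [h1, zsmul_eq_mul]
  obtain ⟨b1, b2⟩ := s3_bd
  have l1 : 26794 / 100000 ≤ 2 - √3 := by linarith
  have l2 : 2 - √3 ≤ 26795 / 100000 := by linarith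
  have p1 := pow_le_pow_left₀ (by norm_num) l1 3
  have p2 := pow_le_pow_left₀ (by linarith) l2 3
  have p3 := pow_le_pow_left₀ (by linarith) l2 5
  have p4 : 118794 / 100000 * (274351 / 1000000) ≤
      (3 - √3 - 2 / 25) * ((2 - √3) + (2 - √3) ^ 3 / 3) :=
    mul_le_mul (by linarith) (by norm_num at p1; linarith) (by norm_num) (by linarith)
  generalize 2 - √3 = t at *
  norm_num at p2 p3 p4
  push_cast
  linarith

end Pool.Agent.Lib.H29.Hall
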