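import Pool.Agent.Lib.helper29.IsoDefs

set_option autoImplicit false

namespace Pool.Agent.Lib.H29.Iso

open Set Filter Topology

/-! ### The t-norm -/

noncomputable def gen (t : ℝ) : ℝ := t * max (1 / 2) t
noncomputable def inv (s : ℝ) : ℝ := min (2 * s) √s
noncomputable def TT (p : ℝ × ℝ) : ℝ := inv (gen p.1 * gen p.2)

lemma gen_lo {t : ℝ} (h : t ≤ 1 / 2) : gen t = t / 2 := by rw [gen, max_eq_left h]; ring
lemma gen_hi {t : ℝ} (h : 1 / 2 ≤ t) : gen t = t ^ 2 := by rw [gen, max_eq_right h]; ring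

lemma inv_lo {s : ℝ} (h0 : 0 ≤ s) (h : s ≤ 1 / 4) : inv s = 2 * s := by
  rw [inv, min_eq_left]
  apply Real.le_sqrt_of_sq_le
  nlinarith

lemma inv_hi {s : ℝ} (h : 1 / 4 ≤ s) : inv s = √s := by
  rw [inv, min_eq_right]
  rw [Real.sqrt_le_left (by linarith)]
  nlinarith

lemma gen_mem {t : ℝ} (h : t ∈ Icc (0 : ℝ) 1) : gen t ∈ Icc (0 : ℝ) 1 := by
  obtain ⟨h0, h1⟩ := h
  rcases le_total t (1 / 2) with h | h
  · rw [gen_lo h]; constructor <;> linarith
  · rw [gen_hi h]; constructor <;> nlinarith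

lemma inv_mem {s : ℝ} (h : s ∈ Icc (0 : ℝ) 1) : inv s ∈ Icc (0 : ℝ) 1 :=
  ⟨le_min (by linarith [h.1]) (Real.sqrt_nonneg _),
    (min_le_right _ _).trans (Real.sqrt_le_one.2 h.2)⟩

lemma gen_inv {s : ℝ} (h0 : 0 ≤ s) : gen (inv s) = s := by
  rcases le_total s (1 / 4) with h | h
  · rw [inv_lo h0 h, gen_lo (by linarith)]; ring
  · rw [inv_hi h, gen_hi, Real.sq_sqrt h0]
    apply Real.le_sqrt_of_sq_le
    linarith

lemma inv_gen {t : ℝ} (h0 : 0 ≤ t) : inv (gen t) = t := by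
  rcases le_total t (1 / 2) with h | h
  · rw [gen_lo h, inv_lo (by linarith) (by linarith)]; ring
  · rw [gen_hi h, inv_hi (by nlinarith), Real.sqrt_sq h0]

lemma gen_mono {t t' : ℝ} (h0 : 0 ≤ t) (h : t ≤ t') : gen t ≤ gen t' :=
  mul_le_mul h (max_le_max le_rfl h) (le_trans (by norm_num) (le_max_left _ _)) (h0.trans h)

lemma inv_mono {s s' : ℝ} (h : s ≤ s') : inv s ≤ inv s' :=
  min_le_min (by linarith) (Real.sqrt_le_sqrt h)

theorem TT_tnorm : IsContTNorm TT where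
  maps x hx y hy := inv_mem ⟨mul_nonneg (gen_mem hx).1 (gen_mem hy).1,
    mul_le_one₀ (gen_mem hx).2 (gen_mem hy).1 (gen_mem hy).2⟩
  assoc x hx y hy z hz := by
    simp only [TT]
    rw [gen_inv (mul_nonneg (gen_mem hx).1 (gen_mem hy).1),
      gen_inv (mul_nonneg (gen_mem hy).1 (gen_mem hz).1), mul_assoc]
  comm x _ y _ := by simp only [TT, mul_comm]
  mono x hx x' hx' y hy y' _ h1 h2 := inv_mono
    (mul_le_mul (gen_mono hx.1 h1) (gen_mono hy.1 h2) (gen_mem hy).1 (gen_mem hx').1)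
  one x hx := by
    simp only [TT]
    rw [gen_hi (t := 1) (by norm_num), one_pow, mul_one, inv_gen hx.1]
  cont := by
    apply Continuous.continuousOn
    unfold TT inv gen
    fun_prop

def hh (p : ℝ × ℝ) : ℝ := p.1 ^ 2 * p.2

def UU : Set (ℝ × ℝ) := Ioo (1 / 2) 1 ×ˢ Ioo 0 (1 / 2)

lemma UU_open : IsOpen UU := isOpen_Ioo.prod isOpen_Ioo

lemma TT_eq {p : ℝ × ℝ} (h : p ∈ UU) : TT p = hh p := by
  obtain ⟨⟨a1, a2⟩, a3, a4⟩ := h
  have : p.1 ^ 2 ≤ 1 := by nlinarith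
  rw [TT, gen_hi a1.le, gen_lo a4.le, inv_lo (by positivity) (by nlinarith), hh]
  ring

lemma TT_ev {p : ℝ × ℝ} (h : p ∈ UU) : TT =ᶠ[𝓝 p] hh :=
  (UU_open.eventually_mem h).mono fun _ hq => TT_eq hq

lemma graph_ev {p : ℝ × ℝ} (h : p ∈ UU) : graph TT =ᶠ[𝓝 p] graph hh :=
  (TT_ev h).mono fun q hq => by simp only [graph, hq]

lemma normal_ev {p : ℝ × ℝ} (h : p ∈ UU) : normal TT =ᶠ[𝓝 p] normal hh :=
  (TT_ev h).fderiv (𝕜 := ℝ) |>.mono fun q hq => by simp only [normal, hq]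

/-! ### Derivatives for the surface `z = x² y` -/

lemma line {f : ℝ × ℝ → ℝ} {p : ℝ × ℝ} (hf : DifferentiableAt ℝ f p) (v : ℝ × ℝ) :
    HasDerivAt (fun t : ℝ => f (p + t • v)) (fderiv ℝ f p v) 0 :=
  hf.hasFDerivAt.hasLineDerivAt v

lemma fderiv_of_line {f : ℝ × ℝ → ℝ} {p v : ℝ × ℝ} (hf : DifferentiableAt ℝ f p) {c : ℝ}
    (h : HasDerivAt (fun t : ℝ => f (p + t • v)) c 0) : fderiv ℝ f p v = c :=
  (line hf v).unique h

lemma lx (p v : ℝ × ℝ) : HasDerivAt (fun t : ℝ => (p + t • v).1) v.1 0 := by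
  simpa using ((hasDerivAt_id (0 : ℝ)).mul_const v.1).const_add p.1

lemma ly (p v : ℝ × ℝ) : HasDerivAt (fun t : ℝ => (p + t • v).2) v.2 0 := by
  simpa using ((hasDerivAt_id (0 : ℝ)).mul_const v.2).const_add p.2

lemma hh_diff : Differentiable ℝ hh := by unfold hh; fun_prop

lemma fderiv_hh (p v : ℝ × ℝ) : fderiv ℝ hh p v = 2 * p.1 * p.2 * v.1 + p.1 ^ 2 * v.2 := by
  apply fderiv_of_line (hh_diff p)
  refine (((lx p v).fun_pow 2).fun_mul (ly p v)).congr_deriv ?_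
  simp; ring

lemma coord {F : ℝ × ℝ → EuclideanSpace ℝ (Fin 3)} {p : ℝ × ℝ} (hF : DifferentiableAt ℝ F p)
    (i : Fin 3) (v : ℝ × ℝ) : (fderiv ℝ F p v) i = fderiv ℝ (fun q => F q i) p v := by
  have := ((EuclideanSpace.proj i : EuclideanSpace ℝ (Fin 3) →L[ℝ] ℝ).hasFDerivAt.comp p
    hF.hasFDerivAt).fderiv
  have e : (fun q => F q i) =
    (EuclideanSpace.proj i : EuclideanSpace ℝ (Fin 3) →L[ℝ] ℝ) ∘ F := rfl
  rw [e, this]
  rfl

lemma graph_diff : Differentiable ℝ (graph hh) := by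
  intro p
  rw [differentiableAt_euclidean]
  intro i
  fin_cases i
  · exact differentiableAt_fst
  · exact differentiableAt_snd
  · exact hh_diff p

lemma fderiv_graph (p v : ℝ × ℝ) :
    fderiv ℝ (graph hh) p v = !₂[v.1, v.2, 2 * p.1 * p.2 * v.1 + p.1 ^ 2 * v.2] := by
  ext i
  rw [coord (graph_diff p)]
  fin_cases i
  · exact fderiv_of_line differentiableAt_fst (lx p v)
  · exact fderiv_of_line differentiableAt_snd (ly p v)
  · exact fderiv_hh p v

noncomputable def ss (p : ℝ × ℝ) : ℝ := (√(1 + (2 * p.1 * p.2) ^ 2 + (p.1 ^ 2) ^ 2))⁻¹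

lemma ss_pos (p : ℝ × ℝ) : 0 < ss p := by unfold ss; positivity

lemma ss_diff : Differentiable ℝ ss := by
  intro p
  unfold ss
  refine DifferentiableAt.fun_inv (DifferentiableAt.sqrt (by fun_prop) (by positivity)) ?_
  positivity

lemma normal_hh : normal hh = fun p => !₂[ss p * -(2 * p.1 * p.2), ss p * -(p.1 ^ 2), ss p] := by
  funext p
  ext i
  fin_cases i <;> simp [normal, fderiv_hh, ss]

lemma normal_diff : Differentiable ℝ (normal hh) := by
  intro p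
  rw [normal_hh, differentiableAt_euclidean]
  have := ss_diff p
  intro i
  fin_cases i
  · exact this.mul (by fun_prop)
  · exact this.mul (by fun_prop)
  · exact this

lemma rodrigues {p v : ℝ × ℝ} {k : ℝ}
    (h : fderiv ℝ (normal hh) p v = k • fderiv ℝ (graph hh) p v) :
    -ss p * (2 * p.2 * v.1 + 2 * p.1 * v.2) =
        k * (v.1 + 2 * p.1 * p.2 * (2 * p.1 * p.2 * v.1 + p.1 ^ 2 * v.2)) ∧
      -ss p * (2 * p.1 * v.1) = k * (v.2 + p.1 ^ 2 * (2 * p.1 * p.2 * v.1 + p.1 ^ 2 * v.2)) := by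
  have e0 := congrArg (fun z : EuclideanSpace ℝ (Fin 3) => z 0) h
  have e1 := congrArg (fun z : EuclideanSpace ℝ (Fin 3) => z 1) h
  have e2 := congrArg (fun z : EuclideanSpace ℝ (Fin 3) => z 2) h
  simp only [coord (normal_diff p), fderiv_graph] at e0 e1 e2
  have hs := line (ss_diff p) v
  have sd := ss_diff p
  have d0 : fderiv ℝ (fun q => normal hh q 0) p v =
      fderiv ℝ ss p v * -(2 * p.1 * p.2) + ss p * -(2 * p.2 * v.1 + 2 * p.1 * v.2) := by
    rw [normal_hh]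
    apply fderiv_of_line (f := fun q => ss q * -(2 * q.1 * q.2)) (by fun_prop)
    refine (hs.fun_mul (((lx p v).const_mul 2).fun_mul (ly p v)).fun_neg).congr_deriv ?_
    simp only [zero_smul, add_zero]; ring
  have d1 : fderiv ℝ (fun q => normal hh q 1) p v =
      fderiv ℝ ss p v * -(p.1 ^ 2) + ss p * -(2 * p.1 * v.1) := by
    rw [normal_hh]
    apply fderiv_of_line (f := fun q => ss q * -(q.1 ^ 2)) (by fun_prop)
    refine (hs.fun_mul ((lx p v).fun_pow 2).fun_neg).congr_deriv ?_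
    simp
  have d2 : fderiv ℝ (fun q => normal hh q 2) p v = fderiv ℝ ss p v := by
    rw [normal_hh]; rfl
  rw [d0] at e0
  rw [d1] at e1
  rw [d2] at e2
  simp at e0 e1 e2
  constructor
  · linear_combination e0 + 2 * p.1 * p.2 * e2
  · linear_combination e1 + p.1 ^ 2 * e2

theorem not_umbilic {p : ℝ × ℝ} (h : p ∈ UU) : ¬Umbilic TT p := by
  rintro ⟨k, hk⟩
  have := hk (0, 1)
  rw [(normal_ev h).fderiv_eq, (graph_ev h).fderiv_eq] at this
  obtain ⟨e1, e2⟩ := rodrigues this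
  simp only at e1 e2
  have k0 : k = 0 := by
    have : k * (1 + p.1 ^ 4) = 0 := by linear_combination -e2
    exact (mul_eq_zero.1 this).resolve_right (by positivity)
  have hx : 0 < p.1 := by linarith [h.1.1]
  have := mul_pos (ss_pos p) hx
  rw [k0] at e1
  linarith

end Pool.Agent.Lib.H29.Iso
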