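import Pool.Agent.Lib.helper29.Iso1

set_option autoImplicit false

namespace Pool.Agent.Lib.H29.Iso

open Set Filter Topology

/-- first fundamental form of `z = x² y` -/
def gg (x y a1 a2 b1 b2 : ℝ) : ℝ :=
  a1 * b1 + a2 * b2 + (2 * x * y * a1 + x ^ 2 * a2) * (2 * x * y * b1 + x ^ 2 * b2)

/-- trace-free part of the (rescaled) shape operator -/
def m1 (x y a1 a2 : ℝ) : ℝ := y * (1 + x ^ 4) * a1 + 2 * x * (1 + x ^ 4) * a2
def m2 (x y a1 a2 : ℝ) : ℝ := (2 * x + 4 * x ^ 3 * y ^ 2) * a1 - y * (1 + x ^ 4) * a2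

def QQ (x y : ℝ) : ℝ := y ^ 2 + 4 * x ^ 2 + 9 * x ^ 4 * y ^ 2

noncomputable def w1 (p : ℝ × ℝ) : ℝ :=
  (2 * p.1 + 18 * p.1 ^ 5 + 16 * p.1 ^ 3 * p.2 ^ 2 + 48 * p.1 ^ 7 * p.2 ^ 2) /
    ((1 + p.1 ^ 4) * QQ p.1 p.2)
noncomputable def w2 (p : ℝ × ℝ) : ℝ := p.2 * (15 * p.1 ^ 4 - 1) / QQ p.1 p.2

lemma QQ_pos {x : ℝ} (y : ℝ) (hx : 0 < x) : 0 < QQ x y := by unfold QQ; positivity

lemma det_ne {x y a1 a2 b1 b2 l : ℝ} (hl : 0 < l) (h1 : gg x y a1 a2 a1 a2 = l)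
    (h2 : gg x y b1 b2 b1 b2 = l) (h3 : gg x y a1 a2 b1 b2 = 0) : a1 * b2 - a2 * b1 ≠ 0 := by
  intro h
  have : gg x y a1 a2 a1 a2 * gg x y b1 b2 b1 b2 - gg x y a1 a2 b1 b2 ^ 2 =
      (1 + (2 * x * y) ^ 2 + x ^ 4) * (a1 * b2 - a2 * b1) ^ 2 := by unfold gg; ring
  rw [h1, h2, h3, h] at this
  have := mul_pos hl hl
  linarith

lemma eigen {x y a1 a2 b1 b2 l k : ℝ} (hl : 0 < l) (h1 : gg x y a1 a2 a1 a2 = l)
    (h2 : gg x y b1 b2 b1 b2 = l) (h3 : gg x y a1 a2 b1 b2 = 0)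
    (h4 : (2 * y * a1 + 2 * x * a2) * b1 + 2 * x * a1 * b2 = 0)
    (hk : k = (m1 x y a1 a2 * b2 - m2 x y a1 a2 * b1) / (a1 * b2 - a2 * b1)) :
    m1 x y a1 a2 = k * a1 ∧ m2 x y a1 a2 = k * a2 ∧ m1 x y b1 b2 = -k * b1 ∧
      m2 x y b1 b2 = -k * b2 ∧ k ^ 2 = (1 + x ^ 4) * QQ x y := by
  have hd := det_ne hl h1 h2 h3
  rw [eq_div_iff hd] at hk
  have ga : gg x y (m1 x y a1 a2) (m2 x y a1 a2) b1 b2 = 0 := by
    unfold gg m1 m2 at *
    linear_combination (1 + (2 * x * y) ^ 2 + x ^ 4) * h4 - (y - 3 * x ^ 4 * y) * h3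
  have gb : gg x y (m1 x y b1 b2) (m2 x y b1 b2) a1 a2 = 0 := by
    unfold gg m1 m2 at *
    linear_combination (1 + (2 * x * y) ^ 2 + x ^ 4) * h4 - (y - 3 * x ^ 4 * y) * h3
  have da : a1 * m2 x y a1 a2 - a2 * m1 x y a1 a2 = 0 := by
    apply mul_right_cancel₀ hl.ne'
    unfold gg at *
    linear_combination (a1 * b2 - a2 * b1) * ga - (m1 x y a1 a2 * b2 - m2 x y a1 a2 * b1) * h3
      - (a1 * m2 x y a1 a2 - a2 * m1 x y a1 a2) * h2
  have db : m1 x y b1 b2 * b2 - m2 x y b1 b2 * b1 = 0 := by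
    apply mul_right_cancel₀ hl.ne'
    unfold gg at *
    linear_combination (a1 * b2 - a2 * b1) * gb - (a1 * m2 x y b1 b2 - a2 * m1 x y b1 b2) * h3
      - (m1 x y b1 b2 * b2 - m2 x y b1 b2 * b1) * h1
  have tr : (m1 x y a1 a2 * b2 - m2 x y a1 a2 * b1) +
      (a1 * m2 x y b1 b2 - a2 * m1 x y b1 b2) = 0 := by unfold m1 m2; ring
  have e1 : m1 x y a1 a2 = k * a1 := by
    apply mul_right_cancel₀ hd
    linear_combination b1 * da - a1 * hk
  have e2 : m2 x y a1 a2 = k * a2 := by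
    apply mul_right_cancel₀ hd
    linear_combination b2 * da - a2 * hk
  have e3 : m1 x y b1 b2 = -k * b1 := by
    apply mul_right_cancel₀ hd
    linear_combination a1 * db + b1 * tr + b1 * hk
  have e4 : m2 x y b1 b2 = -k * b2 := by
    apply mul_right_cancel₀ hd
    linear_combination a2 * db + b2 * tr + b2 * hk
  refine ⟨e1, e2, e3, e4, ?_⟩
  apply mul_right_cancel₀ hd
  have : m1 x y a1 a2 * m2 x y b1 b2 - m2 x y a1 a2 * m1 x y b1 b2 =
      -((1 + x ^ 4) * QQ x y) * (a1 * b2 - a2 * b1) := by unfold m1 m2 QQ; ring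
  rw [e1, e2, e3, e4] at this
  linear_combination -this

/-- derivative of `m1`, `m2` along a curve -/
def dm1 (x y a1 a2 α β c1 c2 : ℝ) : ℝ :=
  (β * (1 + x ^ 4) + y * (4 * x ^ 3 * α)) * a1 + (2 * α + 10 * x ^ 4 * α) * a2 + m1 x y c1 c2
def dm2 (x y a1 a2 α β c1 c2 : ℝ) : ℝ :=
  (2 * α + 12 * x ^ 2 * y ^ 2 * α + 8 * x ^ 3 * y * β) * a1 -
    (β * (1 + x ^ 4) + y * (4 * x ^ 3 * α)) * a2 + m2 x y c1 c2
def dg (x y a1 a2 α β c1 c2 : ℝ) : ℝ :=
  2 * gg x y a1 a2 c1 c2 + 2 * (2 * x * y * a1 + x ^ 2 * a2) *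
    ((2 * y * a1 + 2 * x * a2) * α + 2 * x * a1 * β)

section
variable {X Y A B : ℝ → ℝ} {α β c1 c2 : ℝ}

lemma m1_deriv (hX : HasDerivAt X α 0) (hY : HasDerivAt Y β 0) (hA : HasDerivAt A c1 0)
    (hB : HasDerivAt B c2 0) : HasDerivAt (fun t => m1 (X t) (Y t) (A t) (B t))
      (dm1 (X 0) (Y 0) (A 0) (B 0) α β c1 c2) 0 := by
  refine (((hY.fun_mul ((hX.fun_pow 4).const_add 1)).fun_mul hA).fun_add
    (((hX.const_mul 2).fun_mul ((hX.fun_pow 4).const_add 1)).fun_mul hB)).congr_deriv ?_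
  simp only [dm1, m1]; push_cast; ring

lemma m2_deriv (hX : HasDerivAt X α 0) (hY : HasDerivAt Y β 0) (hA : HasDerivAt A c1 0)
    (hB : HasDerivAt B c2 0) : HasDerivAt (fun t => m2 (X t) (Y t) (A t) (B t))
      (dm2 (X 0) (Y 0) (A 0) (B 0) α β c1 c2) 0 := by
  refine ((((hX.const_mul 2).fun_add (((hX.fun_pow 3).const_mul 4).fun_mul
    (hY.fun_pow 2))).fun_mul hA).fun_sub
    ((hY.fun_mul ((hX.fun_pow 4).const_add 1)).fun_mul hB)).congr_deriv ?_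
  simp only [dm2, m2]; push_cast; ring

lemma g_deriv (hX : HasDerivAt X α 0) (hY : HasDerivAt Y β 0) (hA : HasDerivAt A c1 0)
    (hB : HasDerivAt B c2 0) : HasDerivAt (fun t => gg (X t) (Y t) (A t) (B t) (A t) (B t))
      (dg (X 0) (Y 0) (A 0) (B 0) α β c1 c2) 0 := by
  have h := (((hX.const_mul 2).fun_mul hY).fun_mul hA).fun_add ((hX.fun_pow 2).fun_mul hB)
  refine (((hA.fun_mul hA).fun_add (hB.fun_mul hB)).fun_add (h.fun_mul h)).congr_deriv ?_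
  simp only [dg, gg]; push_cast; ring

end

lemma alg {x y a1 a2 b1 b2 c1 c2 l k ku kv lu lv : ℝ} (hx : 0 < x) (hl : 0 < l)
    (h1 : gg x y a1 a2 a1 a2 = l)
    (h2 : gg x y b1 b2 b1 b2 = l) (h3 : gg x y a1 a2 b1 b2 = 0)
    (h4 : (2 * y * a1 + 2 * x * a2) * b1 + 2 * x * a1 * b2 = 0)
    (e1 : m1 x y a1 a2 = k * a1) (e2 : m2 x y a1 a2 = k * a2) (e3 : m1 x y b1 b2 = -k * b1)
    (e4 : m2 x y b1 b2 = -k * b2) (e5 : k ^ 2 = (1 + x ^ 4) * QQ x y)
    (d1 : dm1 x y a1 a2 b1 b2 c1 c2 = kv * a1 + k * c1)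
    (d2 : dm2 x y a1 a2 b1 b2 c1 c2 = kv * a2 + k * c2)
    (d3 : dm1 x y b1 b2 a1 a2 c1 c2 = -ku * b1 + -k * c1)
    (d4 : dm2 x y b1 b2 a1 a2 c1 c2 = -ku * b2 + -k * c2)
    (d5 : lv = dg x y a1 a2 b1 b2 c1 c2) (d6 : lu = dg x y b1 b2 a1 a2 c1 c2) :
    (ku * l + k * lu) / (k * l) = w1 (x, y) * a1 + w2 (x, y) * a2 ∧
    (kv * l + k * lv) / (k * l) = w1 (x, y) * b1 + w2 (x, y) * b2 := by
  have hd := det_ne hl h1 h2 h3
  have hQ := QQ_pos y hx
  have hk : k ≠ 0 := by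
    intro h
    rw [h] at e5
    have : 0 < (1 + x ^ 4) * QQ x y := by positivity
    linarith
  have v1 : -(a1 * b2 - a2 * b1) * (1 + 9 * x ^ 4) = kv * a1 + ku * b1 + 2 * k * c1 := by
    unfold dm1 at d1 d3
    linear_combination d1 - d3
  have v2 : -(a1 * b2 - a2 * b1) * (-12 * x ^ 3 * y) = kv * a2 + ku * b2 + 2 * k * c2 := by
    unfold dm2 at d2 d4
    linear_combination d2 - d4
  have l1 : lu * (a1 * b2 - a2 * b1) = 2 * l * (a1 * c2 - a2 * c1) := by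
    unfold dg gg at *
    linear_combination (a1 * b2 - a2 * b1) * d6 +
      2 * (a1 * b2 - a2 * b1) * (2 * x * y * b1 + x ^ 2 * b2) * h4 +
      2 * (c1 * b2 - c2 * b1) * h3 + 2 * (a1 * c2 - a2 * c1) * h2
  have l2 : lv * (a1 * b2 - a2 * b1) = 2 * l * (c1 * b2 - c2 * b1) := by
    unfold dg gg at *
    linear_combination (a1 * b2 - a2 * b1) * d5 +
      2 * (a1 * b2 - a2 * b1) * (2 * x * y * a1 + x ^ 2 * a2) * h4 +
      2 * (a1 * c2 - a2 * c1) * h3 + 2 * (c1 * b2 - c2 * b1) * h1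
  have u1 : ku * l + k * lu = l * ((1 + 9 * x ^ 4) * a2 + 12 * x ^ 3 * y * a1) := by
    apply mul_right_cancel₀ hd
    linear_combination k * l1 - l * a1 * v2 + l * a2 * v1
  have u2 : kv * l + k * lv = -l * ((1 + 9 * x ^ 4) * b2 + 12 * x ^ 3 * y * b1) := by
    apply mul_right_cancel₀ hd
    linear_combination k * l2 - l * b2 * v1 + l * b1 * v2
  have om : ∀ s t : ℝ, (w1 (x, y) * s + w2 (x, y) * t) * k ^ 2 =
      (1 + 9 * x ^ 4) * m2 x y s t + 12 * x ^ 3 * y * m1 x y s t := by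
    intro s t
    rw [e5]
    simp only [w1, w2, m1, m2]
    field_simp
    ring
  constructor
  · rw [div_eq_iff (mul_ne_zero hk hl.ne'), u1]
    apply mul_right_cancel₀ hk
    have := om a1 a2
    rw [e1, e2] at this
    linear_combination -l * this
  · rw [div_eq_iff (mul_ne_zero hk hl.ne'), u2]
    apply mul_right_cancel₀ hk
    have := om b1 b2
    rw [e3, e4] at this
    linear_combination -l * this

lemma w1_diff {p : ℝ × ℝ} (hx : 0 < p.1) : DifferentiableAt ℝ w1 p := by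
  have := QQ_pos p.2 hx
  have h : (1 + p.1 ^ 4) * QQ p.1 p.2 ≠ 0 := by positivity
  unfold w1
  unfold QQ at *
  fun_prop (disch := assumption)

lemma w2_diff {p : ℝ × ℝ} (hx : 0 < p.1) : DifferentiableAt ℝ w2 p := by
  have := (QQ_pos p.2 hx).ne'
  unfold w2
  unfold QQ at *
  fun_prop (disch := assumption)

lemma curl_pos {p : ℝ × ℝ} (hx : 0 < p.1) (hy : 0 < p.2) :
    fderiv ℝ w1 p (0, 1) < fderiv ℝ w2 p (1, 0) := by
  have hQ := QQ_pos p.2 hx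
  have q : ∀ v : ℝ × ℝ, HasDerivAt (fun t : ℝ => QQ (p + t • v).1 (p + t • v).2)
      (2 * p.2 * v.2 + 8 * p.1 * v.1 + 36 * p.1 ^ 3 * p.2 ^ 2 * v.1 + 18 * p.1 ^ 4 * p.2 * v.2)
      0 := by
    intro v
    refine ((((ly p v).fun_pow 2).fun_add (((lx p v).fun_pow 2).const_mul 4)).fun_add
      ((((lx p v).fun_pow 4).const_mul 9).fun_mul ((ly p v).fun_pow 2))).congr_deriv ?_
    simp only [zero_smul, add_zero]; push_cast; ring
  have X := lx p (0, 1)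
  have Y := ly p (0, 1)
  have a := fderiv_of_line (w1_diff hx) (((((X.const_mul 2).fun_add
    ((X.fun_pow 5).const_mul 18)).fun_add (((X.fun_pow 3).const_mul 16).fun_mul
    (Y.fun_pow 2))).fun_add (((X.fun_pow 7).const_mul 48).fun_mul (Y.fun_pow 2))).fun_div
    (((X.fun_pow 4).const_add 1).fun_mul (q (0, 1)))
    (by simp only [zero_smul, add_zero]; positivity))
  have X' := lx p (1, 0)
  have Y' := ly p (1, 0)
  have b := fderiv_of_line (w2_diff hx) ((Y'.fun_mul (((X'.fun_pow 4).const_mul 15).sub_const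
    1)).fun_div (q (1, 0)) (by simp only [zero_smul, add_zero]; exact hQ.ne'))
  rw [a, b, ← sub_pos]
  simp only [zero_smul, add_zero]
  have : 0 < p.2 * (12 * p.1 + 60 * p.1 ^ 5 + 96 * p.1 ^ 3 * p.2 ^ 2) / QQ p.1 p.2 ^ 2 := by
    positivity
  convert this using 1
  push_cast
  field_simp
  unfold QQ
  ring

theorem not_iso {p : ℝ × ℝ} (hp : p ∈ UU) : ¬IsothermalNear TT UU p := by
  rintro ⟨W, w0, φ, l, hW, hw0, rfl, hU, hφ, H⟩
  have ev : ∀ w ∈ W, ∀ᶠ q in 𝓝 w, q ∈ W := fun w hw => hW.mem_nhds hw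
  have c2 : ∀ w ∈ W, ContDiffAt ℝ 2 φ w := fun w hw => hφ.contDiffAt (hW.mem_nhds hw)
  have d1 : ∀ w ∈ W, DifferentiableAt ℝ φ w := fun w hw =>
    (c2 w hw).differentiableAt (by norm_num)
  have d2 : ∀ w ∈ W, DifferentiableAt ℝ (fderiv ℝ φ) w := fun w hw =>
    ((c2 w hw).fderiv_right (m := 1) (by norm_num)).differentiableAt (by norm_num)
  set x : ℝ × ℝ → ℝ := fun w => (φ w).1 with hx
  set y : ℝ × ℝ → ℝ := fun w => (φ w).2 with hy
  set P : ℝ × ℝ → ℝ × ℝ → ℝ := fun e w => (fderiv ℝ φ w e).1 with hP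
  set Q : ℝ × ℝ → ℝ × ℝ → ℝ := fun e w => (fderiv ℝ φ w e).2 with hQ
  have xpos : ∀ w ∈ W, 0 < x w := fun w hw => by linarith [(hU hw).1.1]
  have dx : ∀ w ∈ W, DifferentiableAt ℝ x w := fun w hw => (d1 w hw).fst
  have dy : ∀ w ∈ W, DifferentiableAt ℝ y w := fun w hw => (d1 w hw).snd
  have dP : ∀ e, ∀ w ∈ W, DifferentiableAt ℝ (P e) w := fun e w hw =>
    ((d2 w hw).clm_apply (differentiableAt_const e)).fst
  have dQ : ∀ e, ∀ w ∈ W, DifferentiableAt ℝ (Q e) w := fun e w hw =>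
    ((d2 w hw).clm_apply (differentiableAt_const e)).snd
  have Lφ : ∀ w ∈ W, ∀ e, HasDerivAt (fun t : ℝ => φ (w + t • e)) (fderiv ℝ φ w e) 0 :=
    fun w hw e => (d1 w hw).hasFDerivAt.hasLineDerivAt e
  have Lx : ∀ w ∈ W, ∀ e, HasDerivAt (fun t : ℝ => x (w + t • e)) (P e w) 0 :=
    fun w hw e => (Lφ w hw e).fst
  have Ly : ∀ w ∈ W, ∀ e, HasDerivAt (fun t : ℝ => y (w + t • e)) (Q e w) 0 :=
    fun w hw e => (Lφ w hw e).snd
  have LD : ∀ w ∈ W, ∀ e e', HasDerivAt (fun t : ℝ => fderiv ℝ φ (w + t • e') e)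
      (fderiv ℝ (fderiv ℝ φ) w e' e) 0 := by
    intro w hw e e'
    have := ((d2 w hw).hasFDerivAt.hasLineDerivAt e')
    simpa using HasDerivAt.clm_apply this (hasDerivAt_const (0 : ℝ) e)
  have sym : ∀ w ∈ W, fderiv ℝ (fderiv ℝ φ) w (1, 0) (0, 1) =
      fderiv ℝ (fderiv ℝ φ) w (0, 1) (1, 0) := fun w hw =>
    (c2 w hw).isSymmSndFDerivAt (by simp) _ _
  have lineW : ∀ w ∈ W, ∀ e : ℝ × ℝ, ∀ᶠ t in 𝓝 (0 : ℝ), w + t • e ∈ W := by
    intro w hw e
    have : Continuous fun t : ℝ => w + t • e := by fun_prop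
    exact this.continuousAt.eventually (by simpa using ev w hw)
  -- pointwise facts
  have met : ∀ w ∈ W, ∀ du dv : ℝ, gg (x w) (y w) (P (du, dv) w) (Q (du, dv) w) (P (du, dv) w)
      (Q (du, dv) w) = l w * (du ^ 2 + dv ^ 2) := by
    intro w hw du dv
    rw [← (H w hw).2.2.2 du dv]
    have e : graph TT ∘ φ =ᶠ[𝓝 w] graph hh ∘ φ :=
      (ev w hw).mono fun q hq => (graph_ev (hU hq)).eq_of_nhds
    rw [e.fderiv_eq, fderiv_comp w (graph_diff _) (d1 w hw), ContinuousLinearMap.comp_apply,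
      fderiv_graph, EuclideanSpace.real_norm_sq_eq, Fin.sum_univ_three]
    simp [gg, hx, hy, hP, hQ]
    ring
  have lin : ∀ w, P (1, 1) w = P (1, 0) w + P (0, 1) w ∧ Q (1, 1) w = Q (1, 0) w + Q (0, 1) w := by
    intro w
    have : fderiv ℝ φ w (1, 1) = fderiv ℝ φ w (1, 0) + fderiv ℝ φ w (0, 1) := by
      rw [← map_add]; simp
    simp only [hP, hQ, this, Prod.fst_add, Prod.snd_add, and_self]
  have g1 : ∀ w ∈ W, gg (x w) (y w) (P (1, 0) w) (Q (1, 0) w) (P (1, 0) w) (Q (1, 0) w) = l w :=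
    fun w hw => by rw [met w hw]; ring
  have g2 : ∀ w ∈ W, gg (x w) (y w) (P (0, 1) w) (Q (0, 1) w) (P (0, 1) w) (Q (0, 1) w) = l w :=
    fun w hw => by rw [met w hw]; ring
  have g3 : ∀ w ∈ W, gg (x w) (y w) (P (1, 0) w) (Q (1, 0) w) (P (0, 1) w) (Q (0, 1) w) = 0 := by
    intro w hw
    have a := met w hw 1 1
    have b := g1 w hw
    have c := g2 w hw
    rw [(lin w).1, (lin w).2] at a
    unfold gg at *
    linear_combination (a - b - c) / 2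
  have g4 : ∀ w ∈ W, (2 * y w * P (1, 0) w + 2 * x w * Q (1, 0) w) * P (0, 1) w +
      2 * x w * P (1, 0) w * Q (0, 1) w = 0 := by
    intro w hw
    obtain ⟨-, k, hk⟩ := (H w hw).2.1
    rw [(normal_ev (hU hw)).fderiv_eq, (graph_ev (hU hw)).fderiv_eq] at hk
    obtain ⟨a, b⟩ := rodrigues hk
    have c := g3 w hw
    apply mul_left_cancel₀ (ss_pos (φ w)).ne'
    unfold gg at c
    simp only [hx, hy, hP, hQ] at c ⊢
    linear_combination -(fderiv ℝ φ w (0, 1)).1 * a - (fderiv ℝ φ w (0, 1)).2 * b - k * c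
  set k : ℝ × ℝ → ℝ := fun w => (m1 (x w) (y w) (P (1, 0) w) (Q (1, 0) w) * Q (0, 1) w -
    m2 (x w) (y w) (P (1, 0) w) (Q (1, 0) w) * P (0, 1) w) /
      (P (1, 0) w * Q (0, 1) w - Q (1, 0) w * P (0, 1) w) with hk
  have eig := fun w hw => eigen (k := k w) (H w hw).1 (g1 w hw) (g2 w hw) (g3 w hw) (g4 w hw) rfl
  have dk : ∀ w ∈ W, DifferentiableAt ℝ k w := by
    intro w hw
    have := det_ne (H w hw).1 (g1 w hw) (g2 w hw) (g3 w hw)
    have := dx w hw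
    have := dy w hw
    have := dP (1, 0) w hw
    have := dP (0, 1) w hw
    have := dQ (1, 0) w hw
    have := dQ (0, 1) w hw
    rw [hk]
    unfold m1 m2
    fun_prop (disch := assumption)
  have dl : ∀ w ∈ W, DifferentiableAt ℝ l w := by
    intro w hw
    have := dx w hw
    have := dy w hw
    have := dP (1, 0) w hw
    have := dQ (1, 0) w hw
    refine DifferentiableAt.congr_of_eventuallyEq (f := fun w =>
      gg (x w) (y w) (P (1, 0) w) (Q (1, 0) w) (P (1, 0) w) (Q (1, 0) w)) ?_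
      ((ev w hw).mono fun q hq => (g1 q hq).symm)
    unfold gg
    fun_prop
  have kne : ∀ w ∈ W, k w * l w ≠ 0 := by
    intro w hw
    refine mul_ne_zero (fun h => ?_) (H w hw).1.ne'
    have a := (eig w hw).2.2.2.2
    have b := QQ_pos (y w) (xpos w hw)
    rw [h] at a
    have : 0 < (1 + x w ^ 4) * QQ (x w) (y w) := by positivity
    linarith
  have key : ∀ w ∈ W, HasFDerivAt (fun q => Real.log (k q * l q))
      (w1 (φ w) • (ContinuousLinearMap.fst ℝ ℝ ℝ ∘L fderiv ℝ φ w) +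
        w2 (φ w) • (ContinuousLinearMap.snd ℝ ℝ ℝ ∘L fderiv ℝ φ w)) w := by
    intro w hw
    have dL : DifferentiableAt ℝ (fun q => Real.log (k q * l q)) w :=
      ((dk w hw).fun_mul (dl w hw)).log (kne w hw)
    have Xu := Lx w hw (1, 0)
    have Yu := Ly w hw (1, 0)
    have Xv := Lx w hw (0, 1)
    have Yv := Ly w hw (0, 1)
    have Av := (LD w hw (1, 0) (0, 1)).fst
    have Bv := (LD w hw (1, 0) (0, 1)).snd
    have Au := (LD w hw (0, 1) (1, 0)).fst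
    have Bu := (LD w hw (0, 1) (1, 0)).snd
    rw [sym w hw] at Au Bu
    have Ku := line (dk w hw) (1, 0)
    have Kv := line (dk w hw) (0, 1)
    have Lu := line (dl w hw) (1, 0)
    have Lv := line (dl w hw) (0, 1)
    have s1 := (m1_deriv Xv Yv Av Bv).unique ((Kv.fun_mul Av).congr_of_eventuallyEq
      ((lineW w hw (0, 1)).mono fun t ht => (eig _ ht).1))
    have s2 := (m2_deriv Xv Yv Av Bv).unique ((Kv.fun_mul Bv).congr_of_eventuallyEq
      ((lineW w hw (0, 1)).mono fun t ht => (eig _ ht).2.1))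
    have s3 := (m1_deriv Xu Yu Au Bu).unique ((Ku.fun_neg.fun_mul Au).congr_of_eventuallyEq
      ((lineW w hw (1, 0)).mono fun t ht => (eig _ ht).2.2.1))
    have s4 := (m2_deriv Xu Yu Au Bu).unique ((Ku.fun_neg.fun_mul Bu).congr_of_eventuallyEq
      ((lineW w hw (1, 0)).mono fun t ht => (eig _ ht).2.2.2.1))
    have s5 := Lv.unique ((g_deriv Xv Yv Av Bv).congr_of_eventuallyEq
      ((lineW w hw (0, 1)).mono fun t ht => (g1 _ ht).symm))
    have s6 := Lu.unique ((g_deriv Xu Yu Au Bu).congr_of_eventuallyEq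
      ((lineW w hw (1, 0)).mono fun t ht => (g2 _ ht).symm))
    simp only [zero_smul, add_zero] at s1 s2 s3 s4 s5 s6
    obtain ⟨e1, e2, e3, e4, e5⟩ := eig w hw
    obtain ⟨r1, r2⟩ := alg (xpos w hw) (H w hw).1 (g1 w hw) (g2 w hw) (g3 w hw) (g4 w hw)
      e1 e2 e3 e4 e5 s1 s2 s3 s4 s5 s6
    have t1 := fderiv_of_line dL ((Ku.fun_mul Lu).log (by simpa using kne w hw))
    have t2 := fderiv_of_line dL ((Kv.fun_mul Lv).log (by simpa using kne w hw))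
    simp only [zero_smul, add_zero] at t1 t2
    rw [r1] at t1
    rw [r2] at t2
    convert dL.hasFDerivAt using 1
    apply ContinuousLinearMap.prod_ext
    · apply ContinuousLinearMap.ext_ring
      exact t1.symm
    · apply ContinuousLinearMap.ext_ring
      exact t2.symm
  have hx0 := xpos w0 hw0
  have D1 := (w1_diff hx0).comp w0 (d1 w0 hw0)
  have D2 := (w2_diff hx0).comp w0 (d1 w0 hw0)
  have dF : DifferentiableAt ℝ (fun w =>
      w1 (φ w) • (ContinuousLinearMap.fst ℝ ℝ ℝ ∘L fderiv ℝ φ w) +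
        w2 (φ w) • (ContinuousLinearMap.snd ℝ ℝ ℝ ∘L fderiv ℝ φ w)) w0 :=
    (D1.fun_smul ((differentiableAt_const _).clm_comp (d2 w0 hw0))).fun_add
      (D2.fun_smul ((differentiableAt_const _).clm_comp (d2 w0 hw0)))
  have S := second_derivative_symmetric_of_eventually ((ev w0 hw0).mono key) dF.hasFDerivAt
    (1, 0) (0, 1)
  have LF : ∀ e e' : ℝ × ℝ, fderiv ℝ (fun w =>
      w1 (φ w) • (ContinuousLinearMap.fst ℝ ℝ ℝ ∘L fderiv ℝ φ w) +
        w2 (φ w) • (ContinuousLinearMap.snd ℝ ℝ ℝ ∘L fderiv ℝ φ w)) w0 e' e =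
      fderiv ℝ w1 (φ w0) (fderiv ℝ φ w0 e') * P e w0 +
        w1 (φ w0) * (fderiv ℝ (fderiv ℝ φ) w0 e' e).1 +
      (fderiv ℝ w2 (φ w0) (fderiv ℝ φ w0 e') * Q e w0 +
        w2 (φ w0) * (fderiv ℝ (fderiv ℝ φ) w0 e' e).2) := by
    intro e e'
    have a := HasDerivAt.clm_apply (dF.hasFDerivAt.hasLineDerivAt e')
      (hasDerivAt_const (0 : ℝ) e)
    rw [map_zero, add_zero] at a
    have b1 := line D1 e'
    have b2 := line D2 e'
    rw [fderiv_comp w0 (w1_diff hx0) (d1 w0 hw0)] at b1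
    rw [fderiv_comp w0 (w2_diff hx0) (d1 w0 hw0)] at b2
    have b := a.unique ((b1.fun_mul (LD w0 hw0 e e').fst).fun_add
      (b2.fun_mul (LD w0 hw0 e e').snd))
    simp only [zero_smul, add_zero] at b
    exact b
  rw [LF, LF, sym w0 hw0] at S
  have dec : ∀ (f : ℝ × ℝ →L[ℝ] ℝ) (v : ℝ × ℝ), f v = v.1 * f (1, 0) + v.2 * f (0, 1) := by
    intro f v
    rw [← smul_eq_mul, ← smul_eq_mul, ← map_smul, ← map_smul, ← map_add]
    simp
  rw [dec (fderiv ℝ w1 (φ w0)), dec (fderiv ℝ w1 (φ w0)) (fderiv ℝ φ w0 (0, 1)),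
    dec (fderiv ℝ w2 (φ w0)), dec (fderiv ℝ w2 (φ w0)) (fderiv ℝ φ w0 (0, 1))] at S
  have cp := curl_pos hx0 hp.2.1
  have dn := det_ne (H w0 hw0).1 (g1 w0 hw0) (g2 w0 hw0) (g3 w0 hw0)
  apply mul_ne_zero (sub_pos.2 cp).ne' dn
  simp only [hP, hQ] at S ⊢
  linear_combination S

end Pool.Agent.Lib.H29.Iso
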