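import Mathlib

set_option autoImplicit false

namespace Pool.Agent.Lib.H29.Iso

open Set

/-- `T`, read on the unit square, is a continuous t-norm. -/
structure IsContTNorm (T : ℝ × ℝ → ℝ) : Prop where
  maps : ∀ x ∈ Icc (0 : ℝ) 1, ∀ y ∈ Icc (0 : ℝ) 1, T (x, y) ∈ Icc (0 : ℝ) 1
  assoc : ∀ x ∈ Icc (0 : ℝ) 1, ∀ y ∈ Icc (0 : ℝ) 1, ∀ z ∈ Icc (0 : ℝ) 1,
    T (T (x, y), z) = T (x, T (y, z))
  comm : ∀ x ∈ Icc (0 : ℝ) 1, ∀ y ∈ Icc (0 : ℝ) 1, T (x, y) = T (y, x)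
  mono : ∀ x ∈ Icc (0 : ℝ) 1, ∀ x' ∈ Icc (0 : ℝ) 1, ∀ y ∈ Icc (0 : ℝ) 1,
    ∀ y' ∈ Icc (0 : ℝ) 1, x ≤ x' → y ≤ y' → T (x, y) ≤ T (x', y')
  one : ∀ x ∈ Icc (0 : ℝ) 1, T (x, 1) = x
  cont : ContinuousOn T (Icc 0 1 ×ˢ Icc 0 1)

/-- The graph surface `(x, y, T(x, y))` in Euclidean 3-space. -/
def graph (T : ℝ × ℝ → ℝ) (p : ℝ × ℝ) : EuclideanSpace ℝ (Fin 3) := !₂[p.1, p.2, T p]

/-- The unit normal `(-T_x, -T_y, 1) / √(1 + T_x² + T_y²)` of the graph. -/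
noncomputable def normal (T : ℝ × ℝ → ℝ) (p : ℝ × ℝ) : EuclideanSpace ℝ (Fin 3) :=
  (√(1 + fderiv ℝ T p (1, 0) ^ 2 + fderiv ℝ T p (0, 1) ^ 2))⁻¹ •
    !₂[-fderiv ℝ T p (1, 0), -fderiv ℝ T p (0, 1), 1]

/-- `v` is a principal direction of the graph at `p` (Rodrigues: `dN(v)` is parallel to `dX(v)`). -/
def Principal (T : ℝ × ℝ → ℝ) (p v : ℝ × ℝ) : Prop :=
  v ≠ 0 ∧ ∃ k : ℝ, fderiv ℝ (normal T) p v = k • fderiv ℝ (graph T) p v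

/-- The point of the graph over `p` is umbilic: the shape operator is a scalar. -/
def Umbilic (T : ℝ × ℝ → ℝ) (p : ℝ × ℝ) : Prop :=
  ∃ k : ℝ, ∀ v, fderiv ℝ (normal T) p v = k • fderiv ℝ (graph T) p v

/-- The graph over `U` is isothermal near the point over `p`: there are `C²` local parameters
`(u, v) ↦ φ(u, v)` around `p` whose coordinate curves are lines of curvature and in which
`ds² = l (du² + dv²)` with `l > 0`. -/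
def IsothermalNear (T : ℝ × ℝ → ℝ) (U : Set (ℝ × ℝ)) (p : ℝ × ℝ) : Prop :=
  ∃ (W : Set (ℝ × ℝ)) (w₀ : ℝ × ℝ) (φ : ℝ × ℝ → ℝ × ℝ) (l : ℝ × ℝ → ℝ),
    IsOpen W ∧ w₀ ∈ W ∧ φ w₀ = p ∧ MapsTo φ W U ∧ ContDiffOn ℝ 2 φ W ∧
    ∀ w ∈ W, 0 < l w ∧ Principal T (φ w) (fderiv ℝ φ w (1, 0)) ∧
      Principal T (φ w) (fderiv ℝ φ w (0, 1)) ∧
      ∀ du dv : ℝ, ‖fderiv ℝ (graph T ∘ φ) w (du, dv)‖ ^ 2 = l w * (du ^ 2 + dv ^ 2)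

end Pool.Agent.Lib.H29.Iso
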