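import Mathlib

namespace Pool.Agent.Lib.H29.Isoclinic

open Finset
open scoped RealInnerProductSpace

variable {E : Type*} [NormedAddCommGroup E] [InnerProductSpace ℝ E] [FiniteDimensional ℝ E]

lemma inner_proj_self (V : Submodule ℝ E) (x : E) :
    ⟪x, V.starProjection x⟫ = ‖V.starProjection x‖ ^ 2 := by
  have h := V.starProjection_inner_eq_zero x (V.starProjection x) (V.starProjection_apply_mem x)
  rw [inner_sub_left, real_inner_self_eq_norm_sq] at h
  linarith

lemma trace_eq {d : ℕ} (b : OrthonormalBasis (Fin d) ℝ E) (U V : Submodule ℝ E) :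
    ∑ l, ⟪U.starProjection (b l), V.starProjection (b l)⟫ =
      ∑ a, ‖V.starProjection ((stdOrthonormalBasis ℝ U a : U) : E)‖ ^ 2 := by
  have h1 : ∀ x : E, U.starProjection x =
      ∑ a, ⟪((stdOrthonormalBasis ℝ U a : U) : E), x⟫ • ((stdOrthonormalBasis ℝ U a : U) : E) := by
    intro x
    rw [Submodule.starProjection_apply,
      (stdOrthonormalBasis ℝ U).orthogonalProjectionOnto_apply_eq_sum]
    push_cast
    rfl
  simp only [h1 (b _), sum_inner, real_inner_smul_left]
  rw [Finset.sum_comm]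
  refine sum_congr rfl (fun a _ => ?_)
  rw [← inner_proj_self, ← b.sum_inner_mul_inner]
  refine sum_congr rfl (fun l _ => ?_)
  rw [← V.inner_starProjection_left_eq_right, real_inner_comm (b l) (V.starProjection _)]

lemma scale (U V : Submodule ℝ E) (α : ℝ)
    (h : ∀ u ∈ U, ‖u‖ = 1 → ‖V.starProjection u‖ = α) (u : E) (hu : u ∈ U) :
    ‖V.starProjection u‖ = α * ‖u‖ := by
  by_cases h0 : u = 0
  · simp [h0]
  have hn : 0 < ‖u‖ := norm_pos_iff.2 h0
  have := h (‖u‖⁻¹ • u) (U.smul_mem _ hu) (by rw [norm_smul, norm_inv, norm_norm]; field_simp)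
  rw [map_smul, norm_smul, norm_inv, norm_norm] at this
  rw [← this]; field_simp

lemma main_bound {d : ℕ} (b : OrthonormalBasis (Fin d) ℝ E) (k : ℕ) (α : ℝ) (hα : 0 ≤ α)
    (hα1 : α ≤ 1) (T : Finset (Submodule ℝ E)) (hk : ∀ U ∈ T, Module.finrank ℝ U = k)
    (hT : ∀ U ∈ T, ∀ V ∈ T, U ≠ V → ∀ u ∈ U, ‖u‖ = 1 → ‖V.starProjection u‖ = α)
    (u : E) (hu : ‖u‖ = 1) (huT : ∀ V ∈ T, ‖V.starProjection u‖ = α) :
    (T.card : ℝ) * (α ^ 2 * (1 - α)) ≤ d * k + 1 := by
  classical
  rcases T.eq_empty_or_nonempty with rfl | hne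
  · simp; positivity
  have hn : (0 : ℝ) < T.card := by exact_mod_cast hne.card_pos
  have hα2 : α ^ 2 ≤ 1 := by nlinarith
  have hG : ∀ U ∈ T, ∀ V ∈ T, ∑ l, ⟪U.starProjection (b l), V.starProjection (b l)⟫ =
      k * α ^ 2 + if U = V then k * (1 - α ^ 2) else 0 := by
    intro U hU V hV
    rw [trace_eq]
    split_ifs with h
    · subst h
      have : ∀ a, ‖U.starProjection ((stdOrthonormalBasis ℝ U a : U) : E)‖ ^ 2 = 1 := by
        intro a
        rw [Submodule.norm_starProjection_apply _ (SetLike.coe_mem _), ← Submodule.coe_norm,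
          (stdOrthonormalBasis ℝ U).orthonormal.1 a]
        norm_num
      simp only [this, sum_const, card_univ, Fintype.card_fin, hk U hU, nsmul_eq_mul]
      ring
    · have : ∀ a, ‖V.starProjection ((stdOrthonormalBasis ℝ U a : U) : E)‖ ^ 2 = α ^ 2 := by
        intro a
        rw [hT U hU V hV h _ (SetLike.coe_mem _)]
        rw [← Submodule.coe_norm, (stdOrthonormalBasis ℝ U).orthonormal.1 a]
      simp only [this, sum_const, card_univ, Fintype.card_fin, hk U hU, nsmul_eq_mul]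
      ring
  have hHS : ∀ c : Submodule ℝ E → ℝ, ∑ U ∈ T, c U = 0 →
      ∑ l, ‖∑ U ∈ T, c U • U.starProjection (b l)‖ ^ 2 = k * (1 - α ^ 2) * ∑ U ∈ T, c U ^ 2 := by
    intro c hc
    have e1 : ∀ l, ‖∑ U ∈ T, c U • U.starProjection (b l)‖ ^ 2 =
        ∑ U ∈ T, ∑ V ∈ T, c U * c V * ⟪U.starProjection (b l), V.starProjection (b l)⟫ := by
      intro l
      rw [← real_inner_self_eq_norm_sq, sum_inner]
      refine sum_congr rfl (fun U _ => ?_)
      rw [inner_sum]
      refine sum_congr rfl (fun V _ => ?_)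
      rw [real_inner_smul_left, real_inner_smul_right]; ring
    simp only [e1]
    rw [Finset.sum_comm]
    have e2 : ∀ U ∈ T, ∑ l, ∑ V ∈ T, c U * c V * ⟪U.starProjection (b l), V.starProjection (b l)⟫
        = k * (1 - α ^ 2) * c U ^ 2 := by
      intro U hU
      rw [Finset.sum_comm]
      have e3 : ∀ V ∈ T, ∑ l, c U * c V * ⟪U.starProjection (b l), V.starProjection (b l)⟫ =
          c U * (k * α ^ 2) * c V + if U = V then c U * c V * (k * (1 - α ^ 2)) else 0 := by
        intro V hV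
        rw [← mul_sum, hG U hU V hV]
        split_ifs <;> ring
      rw [sum_congr rfl e3, sum_add_distrib, ← mul_sum, hc, sum_ite_eq, if_pos hU]
      ring
    rw [sum_congr rfl e2, ← mul_sum]
  have hl : ∀ l, ∑ U ∈ T, ⟪U.starProjection u, b l⟫ ^ 2 -
      (∑ U ∈ T, ⟪U.starProjection u, b l⟫) ^ 2 / T.card ≤ k := by
    intro l
    set A : ℝ := ∑ U ∈ T, ⟪U.starProjection u, b l⟫ with hA
    set c : Submodule ℝ E → ℝ := fun U => ⟪U.starProjection u, b l⟫ - A / T.card with hc
    have c0 : ∑ U ∈ T, c U = 0 := by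
      simp only [hc]
      rw [sum_sub_distrib, sum_const, nsmul_eq_mul, ← hA]
      field_simp
      ring
    have c1 : ∑ U ∈ T, c U ^ 2 = ∑ U ∈ T, c U * ⟪U.starProjection u, b l⟫ := by
      have : ∀ U ∈ T, c U ^ 2 = c U * ⟪U.starProjection u, b l⟫ - A / T.card * c U := by
        intro U _; simp only [hc]; ring
      rw [sum_congr rfl this, sum_sub_distrib, ← mul_sum, c0]; ring
    have c2 : ∑ U ∈ T, c U * ⟪U.starProjection u, b l⟫ =
        ∑ U ∈ T, ⟪U.starProjection u, b l⟫ ^ 2 - A ^ 2 / T.card := by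
      have : ∀ U ∈ T, c U * ⟪U.starProjection u, b l⟫ =
          ⟪U.starProjection u, b l⟫ ^ 2 - A / T.card * ⟪U.starProjection u, b l⟫ := by
        intro U _; simp only [hc]; ring
      rw [sum_congr rfl this, sum_sub_distrib, ← mul_sum, ← hA]; ring
    have c3 : ∑ U ∈ T, c U * ⟪U.starProjection u, b l⟫ =
        ⟪u, ∑ U ∈ T, c U • U.starProjection (b l)⟫ := by
      rw [inner_sum]
      refine sum_congr rfl (fun U _ => ?_)
      rw [real_inner_smul_right, U.inner_starProjection_left_eq_right]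
    have c4 : ⟪u, ∑ U ∈ T, c U • U.starProjection (b l)⟫ ≤
        ‖∑ U ∈ T, c U • U.starProjection (b l)‖ := by
      have := real_inner_le_norm u (∑ U ∈ T, c U • U.starProjection (b l))
      rwa [hu, one_mul] at this
    have c5 : ‖∑ U ∈ T, c U • U.starProjection (b l)‖ ^ 2 ≤
        k * (1 - α ^ 2) * ∑ U ∈ T, c U ^ 2 := by
      rw [← hHS c c0]
      exact single_le_sum (f := fun l => ‖∑ U ∈ T, c U • U.starProjection (b l)‖ ^ 2)
        (fun _ _ => by positivity) (mem_univ l)
    rw [← c2, ← c1]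
    have c6 : 0 ≤ ∑ U ∈ T, c U ^ 2 := sum_nonneg (fun _ _ => sq_nonneg _)
    have c7 : ∑ U ∈ T, c U ^ 2 ≤ ‖∑ U ∈ T, c U • U.starProjection (b l)‖ := by
      rw [c1, c3]; exact c4
    have c8 := pow_le_pow_left₀ c6 c7 2
    generalize ∑ U ∈ T, c U ^ 2 = s at *
    have hk0 : (0 : ℝ) ≤ k := Nat.cast_nonneg _
    by_contra hlt
    push Not at hlt
    have c9 : k * (1 - α ^ 2) * s ≤ k * s := by
      have : k * (α ^ 2) * s ≥ 0 := by positivity
      nlinarith
    nlinarith
  have hsum := sum_le_sum (fun l (_ : l ∈ (univ : Finset (Fin d))) => hl l)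
  rw [sum_sub_distrib, Finset.sum_comm, ← sum_div] at hsum
  simp only [← sum_inner, b.sum_sq_inner_left, sum_const, card_univ, Fintype.card_fin,
    nsmul_eq_mul] at hsum
  have h1 : ∑ U ∈ T, ‖U.starProjection u‖ ^ 2 = T.card * α ^ 2 := by
    rw [sum_congr rfl (fun U hU => by rw [huT U hU]), sum_const, nsmul_eq_mul]
  have h2 : ‖∑ U ∈ T, U.starProjection u‖ ^ 2 ≤ T.card * (T.card * α ^ 3 + α ^ 2) := by
    rw [← real_inner_self_eq_norm_sq, sum_inner, ← nsmul_eq_mul, ← sum_const]
    refine sum_le_sum (fun U hU => ?_)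
    rw [inner_sum]
    have : ∀ V ∈ T, ⟪U.starProjection u, V.starProjection u⟫ ≤
        α ^ 3 + if U = V then α ^ 2 else 0 := by
      intro V hV
      split_ifs with h
      · subst h
        rw [real_inner_self_eq_norm_sq, huT U hU]
        have : 0 ≤ α ^ 3 := by positivity
        linarith
      · have e1 : ⟪U.starProjection u, V.starProjection u⟫ =
            ⟪V.starProjection (U.starProjection u), V.starProjection u⟫ := by
          rw [V.inner_starProjection_left_eq_right,
            Submodule.starProjection_eq_self_iff.2 (V.starProjection_apply_mem u)]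
        have e2 := real_inner_le_norm (V.starProjection (U.starProjection u)) (V.starProjection u)
        rw [scale U V α (hT U hU V hV h) _ (U.starProjection_apply_mem u), huT U hU,
          huT V hV] at e2
        rw [e1]; linarith
    refine (sum_le_sum this).trans ?_
    rw [sum_add_distrib, sum_const, nsmul_eq_mul, sum_ite_eq, if_pos hU]
  have h3 : ‖∑ U ∈ T, U.starProjection u‖ ^ 2 / T.card ≤ T.card * α ^ 3 + α ^ 2 := by
    rw [div_le_iff₀ hn]; linarith
  rw [h1] at hsum
  linarith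

lemma exists_unit (U : Submodule ℝ E) (h : 1 ≤ Module.finrank ℝ U) : ∃ u ∈ U, ‖u‖ = 1 := by
  refine ⟨((stdOrthonormalBasis ℝ U ⟨0, h⟩ : U) : E), SetLike.coe_mem _, ?_⟩
  rw [← Submodule.coe_norm, (stdOrthonormalBasis ℝ U).orthonormal.1]

lemma zero_case (T : Finset (Submodule ℝ E)) (hk : ∀ U ∈ T, 1 ≤ Module.finrank ℝ U)
    (hT : ∀ U ∈ T, ∀ V ∈ T, U ≠ V → ∀ u ∈ U, ‖u‖ = 1 → ‖V.starProjection u‖ = 0) :
    T.card ≤ Module.finrank ℝ E := by
  choose v hv hv1 using fun U : T => exists_unit U.1 (hk U.1 U.2)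
  have ho : Orthonormal ℝ v := by
    refine ⟨hv1, fun U V hUV => ?_⟩
    have h1 := hT U.1 U.2 V.1 V.2 (fun h => hUV (Subtype.ext h)) _ (hv U) (hv1 U)
    rw [norm_eq_zero, Submodule.starProjection_apply_eq_zero_iff] at h1
    exact Submodule.inner_left_of_mem_orthogonal (hv V) h1
  simpa using ho.linearIndependent.fintype_card_le_finrank

lemma one_case (T : Finset (Submodule ℝ E)) (k : ℕ) (hk : ∀ U ∈ T, Module.finrank ℝ U = k)
    (hT : ∀ U ∈ T, ∀ V ∈ T, U ≠ V → ∀ u ∈ U, ‖u‖ = 1 → ‖V.starProjection u‖ = 1) :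
    T.card ≤ 1 := by
  refine card_le_one.2 (fun U hU V hV => ?_)
  by_contra hne
  refine hne (Submodule.eq_of_le_of_finrank_eq (fun u hu => ?_) (by rw [hk U hU, hk V hV]))
  rw [V.mem_iff_norm_starProjection, scale U V 1 (hT U hU V hV hne) u hu, one_mul]

end Pool.Agent.Lib.H29.Isoclinic
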