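import Mathlib

set_option autoImplicit false

namespace Pool.Agent.Lib.H29.Krein

open scoped InnerProductSpace ComplexConjugate Topology
open Set Filter MeasureTheory

variable {H : Type} [NormedAddCommGroup H] [InnerProductSpace ℂ H] [CompleteSpace H]

lemma weak_lim {ι : Type} (𝒰 : Ultrafilter ι) (x : ι → H) (C : ℝ) (hx : ∀ i, ‖x i‖ ≤ C) :
    ∃ y : H, ∀ w, Tendsto (fun i => ⟪x i, w⟫_ℂ) 𝒰 (𝓝 ⟪y, w⟫_ℂ) := by
  let φ : ι → WeakDual ℂ H := fun i => StrongDual.toWeakDual (InnerProductSpace.toDual ℂ H (x i))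
  obtain ⟨L, -, hL⟩ := (WeakDual.isCompact_closedBall (𝕜 := ℂ) (E := H) 0 C).ultrafilter_le_nhds
    (𝒰.map φ) (by
      rw [Ultrafilter.coe_map, le_principal_iff, mem_map]
      refine Eventually.of_forall fun i => ?_
      simp only [mem_preimage, mem_closedBall_zero_iff, φ]
      simpa using hx i)
  refine ⟨(InnerProductSpace.toDual ℂ H).symm (WeakDual.toStrongDual L), fun w => ?_⟩
  rw [InnerProductSpace.toDual_symm_apply]
  exact ((WeakDual.eval_continuous w).tendsto L).comp hL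

/-- a unitary representation of the discrete group of reals -/
structure Rep (H : Type) [NormedAddCommGroup H] [InnerProductSpace ℂ H] where
  U : ℝ → H →L[ℂ] H
  add : ∀ a b x, U (a + b) x = U a (U b x)
  zero : ∀ x, U 0 x = x
  adj : ∀ a x y, ⟪U a x, y⟫_ℂ = ⟪x, U (-a) y⟫_ℂ

omit [CompleteSpace H] in
lemma Rep.norm (R : Rep H) (a : ℝ) (x : H) : ‖R.U a x‖ = ‖x‖ := by
  rw [@norm_eq_sqrt_re_inner ℂ, R.adj, ← R.add, neg_add_cancel, R.zero, ← @norm_eq_sqrt_re_inner ℂ]

/-- null vectors -/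
def Rep.N (R : Rep H) : Submodule ℂ H where
  carrier := {u | ∀ w, ∀ᵐ s : ℝ, ⟪u, R.U s w⟫_ℂ = 0}
  add_mem' := fun {a b} ha hb w => by
    filter_upwards [ha w, hb w] with s h1 h2
    rw [inner_add_left, h1, h2, add_zero]
  zero_mem' := fun w => Eventually.of_forall fun s => inner_zero_left _
  smul_mem' := fun c a ha w => by
    filter_upwards [ha w] with s h1
    rw [inner_smul_left, h1, mul_zero]

omit [CompleteSpace H] in
lemma Rep.N_closed (R : Rep H) : IsClosed (R.N : Set H) := by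
  refine isClosed_of_closure_subset fun u hu => ?_
  obtain ⟨x, hx, hlim⟩ := mem_closure_iff_seq_limit.1 hu
  intro w
  filter_upwards [ae_all_iff.2 fun n => hx n w] with s hs
  have h1 : Tendsto (fun n => ⟪x n, R.U s w⟫_ℂ) atTop (𝓝 ⟪u, R.U s w⟫_ℂ) :=
    hlim.inner tendsto_const_nhds
  simp only [hs] at h1
  exact (tendsto_nhds_unique tendsto_const_nhds h1).symm

omit [CompleteSpace H] in
lemma Rep.N_inv (R : Rep H) {u : H} (hu : u ∈ R.N) (t : ℝ) : R.U t u ∈ R.N := fun w => by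
  filter_upwards [hu (R.U (-t) w)] with s hs
  rw [R.adj, ← R.add, add_comm, R.add, hs]

lemma Rep.step2 (R : Rep H) {I : Set ℝ} (hI : IsOpen I) (Ω v : H)
    (hv : ∀ u ∈ R.N, ⟪u, v⟫_ℂ = 0) (h0 : ∀ᵐ l : ℝ, l ∈ I → ⟪v, R.U l Ω⟫_ℂ = 0) :
    ∀ l ∈ I, ⟪v, R.U l Ω⟫_ℂ = 0 := by
  let Z : Submodule ℂ H := (Submodule.span ℂ ((fun l => R.U l Ω) '' I))ᗮ
  have hZ : ∀ z, z ∈ Z ↔ ∀ l ∈ I, ⟪z, R.U l Ω⟫_ℂ = 0 := fun z => by
    rw [Submodule.mem_orthogonal']
    constructor
    · intro h l hl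
      exact h _ (Submodule.subset_span ⟨l, hl, rfl⟩)
    · intro h u hu
      induction hu using Submodule.span_induction with
      | mem x hx => obtain ⟨l, hl, rfl⟩ := hx; exact h l hl
      | zero => simp
      | add x y _ _ hx hy => rw [inner_add_right, hx, hy, add_zero]
      | smul c x _ hx => rw [inner_smul_right, hx, mul_zero]
  obtain ⟨z, hz, hu⟩ := Submodule.HasOrthogonalProjection.exists_orthogonal (K := Z) v
  set u := v - z with hudef
  have hu0 : ∀ᵐ l : ℝ, l ∈ I → ⟪u, R.U l Ω⟫_ℂ = 0 := by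
    filter_upwards [h0] with l hl hlI
    rw [hudef, inner_sub_left, hl hlI, (hZ z).1 hz l hlI, sub_zero]
  have huN : u ∈ R.N := by
    intro w
    have key : ∀ n : ℕ, ∀ᵐ s : ℝ, s ∈ Icc (-(n : ℝ)) n → ‖⟪u, R.U s w⟫_ℂ‖ < 1 / ((n : ℝ) + 1) := by
      intro n
      by_contra hc
      have hne : (ae volume ⊓ 𝓟 {s : ℝ | s ∈ Icc (-(n : ℝ)) n ∧
          1 / ((n : ℝ) + 1) ≤ ‖⟪u, R.U s w⟫_ℂ‖}).NeBot := by
        rw [← frequently_iff_neBot]
        rw [not_eventually] at hc
        refine hc.mono fun s hs => ?_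
        push Not at hs
        exact hs
      obtain ⟨𝒰, h𝒰⟩ := Ultrafilter.exists_le (ae volume ⊓ 𝓟 {s : ℝ | s ∈ Icc (-(n : ℝ)) n ∧
          1 / ((n : ℝ) + 1) ≤ ‖⟪u, R.U s w⟫_ℂ‖})
      have hae : (𝒰 : Filter ℝ) ≤ ae volume := h𝒰.trans inf_le_left
      have hE : ∀ᶠ s in (𝒰 : Filter ℝ), s ∈ Icc (-(n : ℝ)) n ∧
          1 / ((n : ℝ) + 1) ≤ ‖⟪u, R.U s w⟫_ℂ‖ := le_principal_iff.1 (h𝒰.trans inf_le_right)
      obtain ⟨s0, -, hs0⟩ := (isCompact_Icc (a := -(n : ℝ)) (b := n)).ultrafilter_le_nhds 𝒰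
        (le_principal_iff.2 (hE.mono fun s hs => hs.1))
      obtain ⟨y, hy⟩ := weak_lim 𝒰 (fun s => R.U (-(s - s0)) u) ‖u‖ fun s => (R.norm _ _).le
      obtain ⟨y', hy'⟩ := weak_lim 𝒰 (fun s => R.U (s - s0) y) ‖y‖ fun s => (R.norm _ _).le
      have hyZ : ∀ l ∈ I, ⟪y, R.U l Ω⟫_ℂ = 0 := by
        intro l hl
        refine tendsto_nhds_unique (hy _) (tendsto_const_nhds.congr' ?_)
        have e1 : ∀ᶠ s in (𝒰 : Filter ℝ), s + (l - s0) ∈ I := by
          have : Tendsto (fun s => s + (l - s0)) 𝒰 (𝓝 (s0 + (l - s0))) :=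
            ((continuous_add_const _).tendsto s0).mono_left hs0
          rw [add_sub_cancel] at this
          exact this (hI.mem_nhds hl)
        have e2 := (measurePreserving_add_right volume (l - s0)).quasiMeasurePreserving.ae hu0
        filter_upwards [e1, hae e2] with s h1 h2
        rw [R.adj, ← R.add, neg_neg, show s - s0 + l = s + (l - s0) by ring, h2 h1]
      have hy'Z : y' ∈ Z := by
        refine (hZ _).2 fun l hl => ?_
        refine tendsto_nhds_unique (hy' _) (tendsto_const_nhds.congr' ?_)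
        have e1 : ∀ᶠ s in (𝒰 : Filter ℝ), -(s - s0) + l ∈ I := by
          have : Tendsto (fun s => -(s - s0) + l) 𝒰 (𝓝 (-(s0 - s0) + l)) :=
            ((by fun_prop : Continuous fun s : ℝ => -(s - s0) + l).tendsto s0).mono_left hs0
          rw [sub_self, neg_zero, zero_add] at this
          exact this (hI.mem_nhds hl)
        filter_upwards [e1] with s h1
        rw [R.adj, ← R.add, hyZ _ h1]
      have hy0 : y = 0 := by
        rw [← inner_self_eq_zero (𝕜 := ℂ)]
        have e1 := hy y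
        have e2 := (Complex.continuous_conj.tendsto _).comp (hy' u)
        rw [hu y' hy'Z, map_zero] at e2
        refine tendsto_nhds_unique e1 (e2.congr fun s => ?_)
        simp only [Function.comp, inner_conj_symm]
        rw [R.adj (-(s - s0)), neg_neg]
      have e3 := (hy (R.U s0 w)).norm
      rw [hy0, inner_zero_left, norm_zero] at e3
      have e4 := e3.eventually (gt_mem_nhds (show (0 : ℝ) < 1 / ((n : ℝ) + 1) by positivity))
      obtain ⟨s, h1, h2⟩ := (e4.and hE).exists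
      rw [R.adj, ← R.add, neg_neg, sub_add_cancel] at h1
      linarith [h2.2]
    filter_upwards [ae_all_iff.2 key] with s hs
    rw [← norm_le_zero_iff]
    refine ge_of_tendsto tendsto_one_div_add_atTop_nhds_zero_nat ?_
    obtain ⟨m, hm⟩ := exists_nat_ge |s|
    filter_upwards [eventually_ge_atTop m] with n hn
    have : |s| ≤ n := hm.trans (by exact_mod_cast hn)
    exact (hs n (abs_le.1 this)).le
  have hu00 : u = 0 := by
    rw [← inner_self_eq_zero (𝕜 := ℂ)]
    conv_lhs => rw [hudef, inner_sub_right, ← hudef]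
    rw [hv u huN, ← inner_conj_symm, hu z hz]; simp
  rw [sub_eq_zero.1 hu00]
  exact (hZ z).1 hz

lemma subseq_ae {G : ℝ → ℂ} {I : Set ℝ} (hI : IsOpen I) (hG : AEMeasurable G (volume.restrict I))
    {C : ℝ} (hC : ∀ x, ‖G x‖ ≤ C) {s : ℕ → ℝ} (hs : Tendsto s atTop (𝓝 0)) :
    ∃ ns : ℕ → ℕ, StrictMono ns ∧
      ∀ᵐ l : ℝ, l ∈ I → Tendsto (fun n => G (s (ns n) + l)) atTop (𝓝 (G l)) := by
  let ρ : ℝ → ℂ := fun x => ((1 + x ^ 2)⁻¹ : ℝ)
  have hρ0 : ∀ x, ρ x ≠ 0 := fun x => by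
    simp only [ρ, ne_eq, Complex.ofReal_eq_zero]; positivity
  have hρc : Continuous ρ := Complex.continuous_ofReal.comp
    (Continuous.inv₀ (by fun_prop) fun x => by positivity)
  let K : ℝ → ℂ := fun x => ρ x * I.indicator G x
  have hK : Integrable K := by
    refine Integrable.mul_bdd (c := max C 0) integrable_inv_one_add_sq.ofReal
      ((aemeasurable_indicator_iff hI.measurableSet).2 hG).aestronglyMeasurable
      (Eventually.of_forall fun x => ?_)
    by_cases hx : x ∈ I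
    · rw [indicator_of_mem hx]; exact (hC x).trans (le_max_left _ _)
    · rw [indicator_of_notMem hx, norm_zero]; exact le_max_right _ _
  let g : ℝ → C(ℝ, ℝ) := fun t => ⟨fun x => t + x, by fun_prop⟩
  have hg : Continuous g := ContinuousMap.continuous_of_continuous_uncurry g
    (by show Continuous fun p : ℝ × ℝ => p.1 + p.2; fun_prop)
  have hgm : ∀ t, MeasurePreserving (g t) volume volume := fun t =>
    measurePreserving_add_left volume t
  let K1 : Lp ℂ 1 (volume : Measure ℝ) := (memLp_one_iff_integrable.2 hK).toLp K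
  have hK1 : K1 =ᵐ[volume] K := MemLp.coeFn_toLp _
  have hc : Continuous fun t => Lp.compMeasurePreserving (g t) (hgm t) K1 :=
    continuous_const.compMeasurePreservingLp hg hgm (by simp)
  have hae : ∀ t, Lp.compMeasurePreserving (g t) (hgm t) K1 =ᵐ[volume] fun x => K (t + x) :=
    fun t => (Lp.coeFn_compMeasurePreserving K1 (hgm t)).trans
      ((hgm t).quasiMeasurePreserving.ae_eq_comp hK1)
  obtain ⟨ns, hns, h⟩ := (tendstoInMeasure_of_tendsto_Lp ((hc.tendsto 0).comp hs)).exists_seq_tendsto_ae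
  refine ⟨ns, hns, ?_⟩
  filter_upwards [h, ae_all_iff.2 fun n => hae (s n), hae 0] with l h1 h2 h3 hl
  simp only [Function.comp, h2, h3, zero_add] at h1
  have hs' : Tendsto (fun n => s (ns n) + l) atTop (𝓝 l) := by
    simpa using (hs.comp hns.tendsto_atTop).add_const l
  have h4 := h1.div ((hρc.tendsto l).comp hs') (hρ0 l)
  simp only [K, indicator_of_mem hl, mul_div_cancel_left₀ _ (hρ0 l)] at h4
  refine h4.congr' ?_
  filter_upwards [hs' (hI.mem_nhds hl)] with n hn
  simp only [Pi.div_apply, Function.comp, mul_div_cancel_left₀ _ (hρ0 _)]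
  exact indicator_of_mem (show s (ns n) + l ∈ I from hn) G

theorem Rep.split (R : Rep H) {I : Set ℝ} (hI : IsOpen I) (Ω h : H)
    (hh : ∀ z, (∀ l ∈ I, ⟪z, R.U l Ω⟫_ℂ = 0) → ⟪z, h⟫_ℂ = 0)
    (hm : AEMeasurable (fun l => ⟪h, R.U l Ω⟫_ℂ) (volume.restrict I)) :
    ∃ h0 h1 : H, h = h0 + h1 ∧ (∀ w, ∀ᵐ s : ℝ, ⟪h0, R.U s w⟫_ℂ = 0) ∧
      Continuous fun s => R.U s h1 := by
  have : CompleteSpace R.N := R.N_closed.completeSpace_coe
  obtain ⟨h0, hh0, hh1⟩ := Submodule.HasOrthogonalProjection.exists_orthogonal (K := R.N) h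
  set h1 := h - h0 with hdef
  refine ⟨h0, h1, by rw [hdef]; abel, hh0, ?_⟩
  have hG : AEMeasurable (fun l => ⟪h1, R.U l Ω⟫_ℂ) (volume.restrict I) := by
    refine hm.congr (ae_restrict_of_ae ?_)
    filter_upwards [hh0 Ω] with l hl
    rw [hdef, inner_sub_left, hl, sub_zero]
  have key : Tendsto (fun s => R.U s h1) (𝓝 0) (𝓝 h1) := by
    refine tendsto_of_subseq_tendsto fun s hs => ?_
    obtain ⟨ns, -, hns⟩ := subseq_ae hI hG (C := ‖h1‖ * ‖Ω‖)
      (fun x => (norm_inner_le_norm _ _).trans (by rw [R.norm])) hs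
    refine ⟨ns, ?_⟩
    have e1 : Tendsto (fun n => ⟪R.U (-s (ns n)) h1, h1⟫_ℂ) atTop (𝓝 ⟪h1, h1⟫_ℂ) := by
      rw [tendsto_iff_ultrafilter]
      intro 𝒰 h𝒰
      obtain ⟨y, hy⟩ := weak_lim 𝒰 (fun n => R.U (-s (ns n)) h1) ‖h1‖ fun n => (R.norm _ _).le
      have hyN : ∀ u ∈ R.N, ⟪u, h1 - y⟫_ℂ = 0 := by
        intro u hu
        have e2 : ⟪y, u⟫_ℂ = 0 := by
          refine tendsto_nhds_unique (hy u) (tendsto_const_nhds.congr fun n => ?_)
          rw [R.adj, ← inner_conj_symm, hh1 _ (R.N_inv hu _), map_zero]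
        rw [inner_sub_right, hh1 u hu, ← inner_conj_symm, e2]; simp
      have e3 := R.step2 hI Ω (h1 - y) hyN (by
        filter_upwards [hns] with l hl hlI
        rw [inner_sub_left, sub_eq_zero]
        refine tendsto_nhds_unique ((hl hlI).mono_left h𝒰) ((hy _).congr fun n => ?_)
        rw [R.adj, ← R.add, neg_neg])
      have e4 := hh _ e3
      have e5 : ⟪h1 - y, h1⟫_ℂ = 0 := by
        conv_lhs => rw [hdef, inner_sub_right, ← hdef]
        rw [e4, ← inner_conj_symm, hyN h0 hh0]; simp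
      rw [inner_sub_left, sub_eq_zero] at e5
      rw [e5]; exact hy h1
    rw [tendsto_iff_norm_sub_tendsto_zero]
    have e6 : Tendsto (fun n => ‖R.U (s (ns n)) h1 - h1‖ ^ 2) atTop (𝓝 0) := by
      have e7 := ((Complex.continuous_re.tendsto _).comp e1).const_mul 2
      have e8 := e7.const_sub (2 * ‖h1‖ ^ 2)
      have e9 : (⟪h1, h1⟫_ℂ).re = ‖h1‖ ^ 2 := by simpa using inner_self_eq_norm_sq (𝕜 := ℂ) h1
      rw [e9, sub_self] at e8
      refine e8.congr fun n => ?_
      rw [norm_sub_rev (R.U _ _) h1, @norm_sub_sq ℂ _ _ _ _ h1 (R.U _ _), R.norm]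
      simp only [Function.comp, R.adj, neg_neg, RCLike.re_to_complex]
      ring
    have := (Real.continuous_sqrt.tendsto 0).comp e6
    rw [Real.sqrt_zero] at this
    exact this.congr fun n => Real.sqrt_sq (norm_nonneg _)
  refine continuous_iff_continuousAt.2 fun s0 => ?_
  have e1 : Tendsto (fun s => s - s0) (𝓝 s0) (𝓝 0) := by
    simpa using (continuous_sub_right s0).tendsto s0
  have := ((R.U s0).continuous.tendsto h1).comp (key.comp e1)
  refine this.congr fun s => ?_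
  simp only [Function.comp]
  rw [← R.add, add_sub_cancel]

end Pool.Agent.Lib.H29.Krein
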