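import Mathlib
import Pool.Agent.Lib.helper29.Krein1

set_option autoImplicit false

namespace Pool.Agent.Lib.H29.Krein

open scoped InnerProductSpace ComplexConjugate Topology BoundedContinuousFunction
open Set Filter MeasureTheory

abbrev B := ℝ →ᵇ ℂ

/-- the functional `u ↦ Φ (p u)` -/
noncomputable def tw (Φ : B →L[ℂ] ℂ) (p : B) : B →L[ℂ] ℂ := Φ.comp (ContinuousLinearMap.mul ℂ B p)

@[simp] lemma tw_apply (Φ : B →L[ℂ] ℂ) (p u : B) : tw Φ p u = Φ (p * u) := rfl

lemma re_le (Φ : B →L[ℂ] ℂ) {N : ℝ} (hN : ‖Φ‖ ≤ N) (w : B) {M : ℝ} (hM : 0 ≤ M)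
    (h : ∀ t, ‖w t‖ ≤ M) : ‖Φ w‖ ≤ N * M :=
  (Φ.le_opNorm w).trans (mul_le_mul hN ((BoundedContinuousFunction.norm_le hM).2 h)
    (norm_nonneg _) ((norm_nonneg _).trans hN))

lemma pt {u : B} {M : ℝ} (h : ‖u‖ ≤ M) (t : ℝ) : ‖u t‖ ≤ M := (u.norm_coe_le_norm t).trans h

lemma L2' (Φ : B →L[ℂ] ℂ) {N : ℝ} (hN : ‖Φ‖ ≤ N) {p q u : B} (hp : ‖p‖ ≤ 1) (hq : ‖q‖ ≤ 1)
    (hu : ‖u‖ ≤ 1) {ε : ℝ} (hε : 0 < ε) :
    ε * ‖Φ ((p - q) * u)‖ ≤ N * (2 + ε ^ 2) - (Φ p).re - (Φ q).re := by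
  obtain ⟨θ, h1, h2⟩ := RCLike.exists_norm_eq_mul_self (Φ ((p - q) * u))
  have h3 := re_le Φ hN (p + q + ((ε : ℂ) * θ) • ((p - q) * u)) (M := 2 + ε ^ 2) (by positivity)
    fun t => by
      have a1 := pt hp t
      have a2 := pt hq t
      have a3 := pt hu t
      have a4 := parallelogram_law_with_norm ℂ (p t) (q t)
      simp only [BoundedContinuousFunction.add_apply, BoundedContinuousFunction.smul_apply,
        BoundedContinuousFunction.mul_apply, BoundedContinuousFunction.sub_apply]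
      refine (norm_add_le _ _).trans ?_
      rw [norm_smul, norm_mul, norm_mul, h1, Complex.norm_real, Real.norm_eq_abs, abs_of_pos hε]
      have a5 : ‖p t - q t‖ * ‖u t‖ ≤ ‖p t - q t‖ := mul_le_of_le_one_right (norm_nonneg _) a3
      have a6 : ‖p t‖ * ‖p t‖ ≤ 1 := by nlinarith [norm_nonneg (p t)]
      have a7 : ‖q t‖ * ‖q t‖ ≤ 1 := by nlinarith [norm_nonneg (q t)]
      nlinarith [sq_nonneg (‖p t + q t‖ - 2), sq_nonneg (‖p t - q t‖ - 2 * ε),
        mul_le_mul_of_nonneg_left a5 hε.le]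
  have h4 := (Complex.re_le_norm _).trans h3
  rw [map_add, map_add, map_smul, smul_eq_mul, mul_assoc, ← h2] at h4
  simp only [Complex.add_re, Complex.mul_re, Complex.ofReal_re, Complex.ofReal_im,
    RCLike.ofReal_eq_complex_ofReal] at h4
  linarith

lemma L3 (Φ : B →L[ℂ] ℂ) {N : ℝ} (hN : ‖Φ‖ ≤ N) {ι : Type} {l : Filter ι} {p q : ι → B}
    (hp : ∀ i, ‖p i‖ ≤ 1) (hq : ∀ i, ‖q i‖ ≤ 1) (hp' : Tendsto (fun i => (Φ (p i)).re) l (𝓝 N))
    (hq' : Tendsto (fun i => (Φ (q i)).re) l (𝓝 N)) :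
    Tendsto (fun i => ‖tw Φ (p i) - tw Φ (q i)‖) l (𝓝 0) := by
  have hN0 : 0 ≤ N := (norm_nonneg _).trans hN
  rw [Metric.tendsto_nhds]
  intro δ hδ
  set ε := δ / (4 * (N + 1)) with hε
  have hε0 : 0 < ε := by positivity
  have hε1 : ε * (4 * (N + 1)) = δ := div_mul_cancel₀ _ (by positivity)
  filter_upwards [hp'.eventually (lt_mem_nhds (show N - ε * δ / 8 < N by
      have : 0 < ε * δ / 8 := by positivity
      linarith)), hq'.eventually (lt_mem_nhds (show N - ε * δ / 8 < N by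
      have : 0 < ε * δ / 8 := by positivity
      linarith))] with i h1 h2
  rw [Real.dist_eq, sub_zero, abs_norm]
  refine lt_of_le_of_lt (ContinuousLinearMap.opNorm_le_of_unit_norm (C := δ / 2) (by positivity)
    fun u hu => ?_) (by linarith)
  have := L2' Φ hN (hp i) (hq i) hu.le hε0
  rw [sub_apply, tw_apply, tw_apply, ← map_sub, ← sub_mul]
  refine le_of_mul_le_mul_left ?_ hε0
  nlinarith

lemma L1 (Φ : B →L[ℂ] ℂ) {N : ℝ} (hN : ‖Φ‖ ≤ N) {p : B} (hp : ‖p‖ ≤ 1) :
    ‖tw Φ (1 - p * star p)‖ ≤ 2 * (N - (Φ p).re) := by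
  have h0 : (Φ p).re ≤ N := by
    have := (Complex.re_le_norm _).trans (re_le Φ hN p zero_le_one (pt hp))
    linarith
  refine ContinuousLinearMap.opNorm_le_of_unit_norm (by linarith) fun u hu => ?_
  rw [tw_apply]
  obtain ⟨θ, h1, h2⟩ := RCLike.exists_norm_eq_mul_self (Φ ((1 - p * star p) * u))
  have h3 := re_le Φ hN (p + (((1 / 2 : ℝ) : ℂ) * θ) • ((1 - p * star p) * u)) (M := 1) zero_le_one
    fun t => by
      have a1 := pt hp t
      have a3 := pt hu.le t
      simp only [BoundedContinuousFunction.add_apply, BoundedContinuousFunction.smul_apply,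
        BoundedContinuousFunction.mul_apply, BoundedContinuousFunction.sub_apply,
        BoundedContinuousFunction.star_apply, BoundedContinuousFunction.coe_one, Pi.one_apply]
      refine (norm_add_le _ _).trans ?_
      have a4 : (1 : ℂ) - p t * star (p t) = ((1 - ‖p t‖ ^ 2 : ℝ) : ℂ) := by
        rw [Complex.star_def, Complex.mul_conj, Complex.normSq_eq_norm_sq]; push_cast; ring
      have a5 : 0 ≤ 1 - ‖p t‖ ^ 2 := by nlinarith [norm_nonneg (p t)]
      rw [norm_smul, norm_mul, norm_mul, h1, a4, Complex.norm_real, Complex.norm_real,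
        Real.norm_eq_abs, Real.norm_eq_abs, abs_of_nonneg a5, abs_of_pos (by norm_num)]
      nlinarith [mul_le_of_le_one_right a5 a3, sq_nonneg (‖p t‖ - 1)]
  have h4 := (Complex.re_le_norm _).trans h3
  rw [map_add, map_smul, smul_eq_mul, mul_assoc, ← h2] at h4
  simp only [Complex.add_re, Complex.mul_re, Complex.ofReal_re, Complex.ofReal_im,
    RCLike.ofReal_eq_complex_ofReal] at h4
  linarith

lemma real_of_norm (Ψ : B →L[ℂ] ℂ) {N : ℝ} (hN : ‖Ψ‖ ≤ N) (h1 : Ψ 1 = N) {u : B}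
    (hu : ∀ t, (u t).im = 0) : (Ψ u).im = 0 := by
  have hN0 : 0 ≤ N := (norm_nonneg _).trans hN
  have key : ∀ s : ℝ, ((Ψ u).im + s * N) ^ 2 ≤ N ^ 2 * (‖u‖ ^ 2 + s ^ 2) := by
    intro s
    have h2 := re_le Ψ hN (u + ((s : ℂ) * Complex.I) • (1 : B)) (M := √(‖u‖ ^ 2 + s ^ 2))
      (Real.sqrt_nonneg _) fun t => by
        refine Real.le_sqrt_of_sq_le ?_
        have a1 := (abs_le.1 ((Complex.abs_re_le_norm (u t)).trans (u.norm_coe_le_norm t)))
        rw [Complex.sq_norm, Complex.normSq_apply]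
        simp [hu t]
        nlinarith [a1.1, a1.2]
    have h3 := (Complex.abs_im_le_norm _).trans h2
    rw [map_add, map_smul, h1] at h3
    simp only [smul_eq_mul, Complex.add_im, Complex.mul_im, Complex.mul_re, Complex.ofReal_re,
      Complex.I_re, Complex.ofReal_im, Complex.I_im] at h3
    have h4 := pow_le_pow_left₀ (abs_nonneg _) h3 2
    rw [sq_abs, mul_pow, Real.sq_sqrt (by positivity)] at h4
    simp only [mul_zero, sub_zero, zero_add, mul_one, add_zero] at h4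
    exact h4
  by_contra hy
  rcases hN0.eq_or_lt with h | h
  · have := key 0
    rw [← h] at this
    simp [hy] at this
  · have := key ((N ^ 2 * ‖u‖ ^ 2 + 1) / (2 * N * (Ψ u).im))
    have e1 : (N ^ 2 * ‖u‖ ^ 2 + 1) / (2 * N * (Ψ u).im) * (2 * N * (Ψ u).im) =
      N ^ 2 * ‖u‖ ^ 2 + 1 := div_mul_cancel₀ _ (mul_ne_zero (by positivity) hy)
    nlinarith [sq_nonneg (Ψ u).im]

lemma pos_of_norm (Ψ : B →L[ℂ] ℂ) {N : ℝ} (hN : ‖Ψ‖ ≤ N) (h1 : Ψ 1 = N) {u : B}
    (hu : ∀ t, (u t).im = 0 ∧ 0 ≤ (u t).re) : 0 ≤ (Ψ u).re := by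
  have h2 := re_le Ψ hN (((‖u‖ : ℝ) : ℂ) • (1 : B) - u) (M := ‖u‖) (norm_nonneg _) fun t => by
    have a1 := (Complex.re_le_norm (u t)).trans (u.norm_coe_le_norm t)
    have a2 : (((‖u‖ : ℝ) : ℂ) • (1 : B) - u) t = ((‖u‖ - (u t).re : ℝ) : ℂ) := by
      apply Complex.ext <;> simp [(hu t).1]
    rw [a2, Complex.norm_real, Real.norm_eq_abs, abs_le]
    constructor <;> linarith [(hu t).2]
  have h3 := (Complex.re_le_norm _).trans h2
  rw [map_sub, map_smul, h1] at h3
  simp only [smul_eq_mul, Complex.sub_re, Complex.mul_re, Complex.ofReal_re, Complex.ofReal_im] at h3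
  linarith

open scoped ComplexOrder in
lemma gns (Ψ : B →L[ℂ] ℂ) (hpos : ∀ u, 0 ≤ Ψ (star u * u)) :
    ∃ (H : Type) (_ : NormedAddCommGroup H) (_ : InnerProductSpace ℂ H) (_ : CompleteSpace H)
      (π : B →⋆ₐ[ℂ] (H →L[ℂ] H)) (Ω : H), ∀ u, ⟪Ω, π u Ω⟫_ℂ = Ψ u := by
  let _ := CStarAlgebra.spectralOrder B
  have _ := CStarAlgebra.spectralOrderedRing B
  let f : B →ₚ[ℂ] ℂ := PositiveLinearMap.mk₀ Ψ.toLinearMap fun x hx => by
    rw [StarOrderedRing.nonneg_iff] at hx
    induction hx using AddSubmonoid.closure_induction with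
    | mem x hx => obtain ⟨s, rfl⟩ := hx; exact hpos s
    | zero => simp
    | add x y _ _ hx hy => rw [map_add]; exact add_nonneg hx hy
  refine ⟨f.GNS, inferInstance, inferInstance, inferInstance, f.gnsStarAlgHom,
    (f.toPreGNS 1 : f.PreGNS), fun u => ?_⟩
  have : f.gnsStarAlgHom u (f.toPreGNS 1 : f.PreGNS) = (f.toPreGNS u : f.PreGNS) := by
    have := PositiveLinearMap.gnsNonUnitalStarAlgHom_apply_coe f (a := u) (b := f.toPreGNS 1)
    refine this.trans ?_
    congr 1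
    simp
  rw [this, UniformSpace.Completion.inner_coe, PositiveLinearMap.preGNS_inner_def]
  simp only [PositiveLinearMap.ofPreGNS_toPreGNS, star_one, one_mul]
  rfl

/-- the exponentials -/
noncomputable def e (x : ℝ) : B := BoundedContinuousFunction.ofNormedAddCommGroup
  (fun t : ℝ => Complex.exp (Complex.I * (x : ℂ) * (t : ℂ))) (by fun_prop) 1 fun t => by
    rw [show Complex.I * (x : ℂ) * (t : ℂ) = ((x * t : ℝ) : ℂ) * Complex.I by push_cast; ring,
      Complex.norm_exp_ofReal_mul_I]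

@[simp] lemma e_apply (x t : ℝ) : e x t = Complex.exp (Complex.I * (x : ℂ) * (t : ℂ)) := rfl

lemma e_add (x y : ℝ) : e (x + y) = e x * e y := by
  ext t; simp [← Complex.exp_add]; congr 1; ring
lemma e_zero : e 0 = 1 := by ext t; simp
lemma e_neg (x : ℝ) : e (-x) = star (e x) := by
  ext t; simp [← Complex.exp_conj]

theorem polar (Φ : B →L[ℂ] ℂ) {N : ℝ} (hN : ‖Φ‖ ≤ N) {I : Set ℝ} (hI : IsOpen I) {p : ℕ → B}
    (hpV : ∀ n, p n ∈ Submodule.span ℂ (e '' I)) (hp : ∀ n, ‖p n‖ ≤ 1)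
    (hp' : Tendsto (fun n => (Φ (p n)).re) atTop (𝓝 N))
    (hm : AEMeasurable (fun x => Φ (e x)) (volume.restrict I)) :
    ∃ Ψ Φc : B →L[ℂ] ℂ, Tendsto (fun n => tw Φ (p n)) atTop (𝓝 Ψ) ∧ Ψ 1 = N ∧
      (∀ u : B, (∀ t, (u t).im = 0 ∧ 0 ≤ (u t).re) → (Ψ u).im = 0 ∧ |(Φ u).re| ≤ (Ψ u).re) ∧
      AEMeasurable (fun x => Ψ (e x)) ∧ (Continuous fun x => Φc (e x)) ∧
      ∀ᵐ x : ℝ, Φ (e x) = Φc (e x) := by
  have hN0 : 0 ≤ N := (norm_nonneg _).trans hN
  have hcs : CauchySeq fun n => tw Φ (p n) := by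
    rw [cauchySeq_iff_tendsto_dist_atTop_0]
    simp only [dist_eq_norm]
    refine L3 Φ hN (fun i => hp _) (fun i => hp _) (hp'.comp ?_) (hp'.comp ?_)
    · rw [← prod_atTop_atTop_eq]; exact tendsto_fst
    · rw [← prod_atTop_atTop_eq]; exact tendsto_snd
  obtain ⟨Ψ, hΨ⟩ := cauchySeq_tendsto_of_complete hcs
  have hΨu : ∀ u, Tendsto (fun n => Φ (p n * u)) atTop (𝓝 (Ψ u)) := fun u =>
    ((ContinuousLinearMap.apply ℂ ℂ u).continuous.tendsto Ψ).comp hΨ
  have hΨN : ‖Ψ‖ ≤ N := by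
    refine le_of_tendsto' hΨ.norm fun n => ?_
    refine ContinuousLinearMap.opNorm_le_of_unit_norm hN0 fun u hu => ?_
    have := re_le Φ hN (p n * u) zero_le_one
      (pt ((norm_mul_le _ _).trans (by rw [hu, mul_one]; exact hp n)))
    rwa [mul_one] at this
  have hΨ1 : Ψ 1 = N := by
    have h1 := (Complex.continuous_re.tendsto _).comp (hΨu 1)
    simp only [mul_one] at h1
    have h2 : (Ψ 1).re = N := tendsto_nhds_unique h1 hp'
    have h3 := re_le Ψ hΨN 1 zero_le_one (fun t => by simp)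
    have h4 := Complex.sq_norm (Ψ 1)
    rw [Complex.normSq_apply, h2] at h4
    apply Complex.ext
    · simpa using h2
    · have : ‖Ψ 1‖ ^ 2 ≤ N ^ 2 := pow_le_pow_left₀ (norm_nonneg _) (by linarith) 2
      simp only [Complex.ofReal_im]
      nlinarith [sq_nonneg (Ψ 1).im]
  have hΦu : ∀ u, Tendsto (fun n => Ψ (star (p n) * u)) atTop (𝓝 (Φ u)) := by
    intro u
    rw [tendsto_iff_norm_sub_tendsto_zero]
    have h1 : Tendsto (fun n => 2 * (N - (Φ (p n)).re) * ‖u‖ + ‖tw Φ (p n) - Ψ‖ * ‖u‖) atTop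
        (𝓝 (2 * (N - N) * ‖u‖ + 0 * ‖u‖)) :=
      (((hp'.const_sub N).const_mul 2).mul_const _).add
        ((tendsto_iff_norm_sub_tendsto_zero.1 hΨ).mul_const _)
    simp only [sub_self, mul_zero, zero_mul, add_zero] at h1
    refine squeeze_zero (fun n => norm_nonneg _) (fun n => ?_) h1
    have e1 : Ψ (star (p n) * u) - Φ u =
        -(tw Φ (1 - p n * star (p n)) u) - (tw Φ (p n) - Ψ) (star (p n) * u) := by
      simp only [tw_apply, sub_apply, sub_mul, one_mul, map_sub, mul_assoc]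
      ring
    rw [e1]
    refine (norm_sub_le _ _).trans (add_le_add ?_ ?_)
    · rw [norm_neg]
      exact (ContinuousLinearMap.le_opNorm _ _).trans
        (mul_le_mul_of_nonneg_right (L1 Φ hN (hp n)) (norm_nonneg _))
    · refine (ContinuousLinearMap.le_opNorm _ _).trans
        (mul_le_mul_of_nonneg_left ((norm_mul_le _ _).trans ?_) (norm_nonneg _))
      rw [norm_star]
      exact mul_le_of_le_one_left (norm_nonneg _) (hp n)
  obtain ⟨H, _, _, _, π, Ω, hπ⟩ := gns Ψ fun u => by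
    have h1 : ∀ t, ((star u * u) t).im = 0 ∧ 0 ≤ ((star u * u) t).re := fun t => by
      have : (star u * u) t = (Complex.normSq (u t) : ℝ) := by
        simp [Complex.normSq_eq_conj_mul_self]
      rw [this]
      exact ⟨Complex.ofReal_im _, by simpa using Complex.normSq_nonneg _⟩
    exact Complex.nonneg_iff.2 ⟨pos_of_norm Ψ hΨN hΨ1 h1,
      (real_of_norm Ψ hΨN hΨ1 fun t => (h1 t).1).symm⟩
  have hadj : ∀ (u : B) (x y : H), ⟪π u x, y⟫_ℂ = ⟪x, π (star u) y⟫_ℂ := fun u x y => by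
    rw [map_star, ContinuousLinearMap.star_eq_adjoint, ContinuousLinearMap.adjoint_inner_right]
  have hmul : ∀ (u v : B) (x : H), π (u * v) x = π u (π v x) := fun u v x => by
    rw [map_mul]; rfl
  have hnorm : ∀ (u : B) (x : H), ‖π u x‖ ≤ ‖u‖ * ‖x‖ := fun u x =>
    ((π u).le_opNorm x).trans
      (mul_le_mul_of_nonneg_right (NonUnitalStarAlgHom.norm_apply_le π u) (norm_nonneg _))
  let R : Rep H :=
    { U := fun x => π (e x)
      add := fun a b x => by rw [e_add, hmul]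
      zero := fun x => by rw [e_zero, map_one]; rfl
      adj := fun a x y => by rw [hadj, e_neg] }
  obtain ⟨h, hh⟩ := weak_lim (hyperfilter ℕ) (fun n => π (p n) Ω) ‖Ω‖ fun n =>
    (hnorm _ _).trans (mul_le_of_le_one_left (norm_nonneg _) (hp n))
  have hle : ((hyperfilter ℕ : Ultrafilter ℕ) : Filter ℕ) ≤ atTop := by
    rw [← Nat.cofinite_eq_atTop]; exact hyperfilter_le_cofinite
  have h1 : ∀ u, ⟪h, π u Ω⟫_ℂ = Φ u := fun u => by
    refine tendsto_nhds_unique (hh _) (((hΦu u).mono_left hle).congr fun n => ?_)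
    rw [hadj, ← hmul, hπ]
  have h2 : ∀ u, ⟪h, π u h⟫_ℂ = Ψ u := fun u => by
    have e1 := (Complex.continuous_conj.tendsto _).comp (hh (π (star u) h))
    rw [inner_conj_symm, hadj, star_star] at e1
    refine tendsto_nhds_unique e1 (((hΨu u).mono_left hle).congr fun n => ?_)
    simp only [Function.comp, inner_conj_symm]
    rw [hadj, star_star, ← hmul, h1, mul_comm]
  obtain ⟨h0, h1', hsum, hnull, hcont⟩ := R.split hI Ω h (fun z hz => by
    have e1 : ∀ v ∈ Submodule.span ℂ (e '' I), ⟪z, π v Ω⟫_ℂ = 0 := by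
      intro v hv
      induction hv using Submodule.span_induction with
      | mem x hx => obtain ⟨l, hl, rfl⟩ := hx; exact hz l hl
      | zero => simp
      | add x y _ _ hx hy => rw [map_add, add_apply, inner_add_right, hx, hy, add_zero]
      | smul c x _ hx => rw [map_smul, smul_apply, inner_smul_right, hx, mul_zero]
    have e2 := (Complex.continuous_conj.tendsto _).comp (hh z)
    rw [inner_conj_symm] at e2
    refine tendsto_nhds_unique e2 (tendsto_const_nhds.congr fun n => ?_)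
    simp only [Function.comp, inner_conj_symm]
    exact (e1 _ (hpV n)).symm) (by
      refine hm.congr (Eventually.of_forall fun x => ?_)
      exact (h1 (e x)).symm)
  have hc : ∀ w : H, Continuous fun x : ℝ => ⟪h1', π (e x) w⟫_ℂ := fun w => by
    have : Continuous fun x : ℝ => ⟪R.U (-x) h1', w⟫_ℂ :=
      (hcont.comp continuous_neg).inner continuous_const
    refine this.congr fun x => ?_
    rw [R.adj, neg_neg]
  let Φ0 : B →ₗ[ℂ] ℂ :=
    { toFun := fun u => ⟪h1', π u Ω⟫_ℂ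
      map_add' := fun u v => by rw [map_add, add_apply, inner_add_right]
      map_smul' := fun c u => by
        rw [map_smul, smul_apply, inner_smul_right]; rfl }
  let Φc : B →L[ℂ] ℂ := Φ0.mkContinuous (‖h1'‖ * ‖Ω‖) fun u =>
    (norm_inner_le_norm _ _).trans (by nlinarith [hnorm u Ω, norm_nonneg h1'])
  refine ⟨Ψ, Φc, hΨ, hΨ1, fun u hu => ⟨real_of_norm Ψ hΨN hΨ1 fun t => (hu t).1, ?_⟩, ?_, hc Ω, ?_⟩
  · refine le_of_tendsto' ((Complex.continuous_re.tendsto _).comp (hΦu u)).abs fun n => ?_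
    set v := star (p n) * u with hv
    have hvt : ∀ t, ‖v t‖ ≤ (u t).re := fun t => by
      have e1 : u t = ((u t).re : ℂ) := Complex.ext (by simp) (by simp [(hu t).1])
      rw [hv, BoundedContinuousFunction.mul_apply, norm_mul, BoundedContinuousFunction.star_apply,
        norm_star, e1, Complex.norm_real, Complex.ofReal_re, Real.norm_eq_abs,
        abs_of_nonneg (hu t).2]
      exact mul_le_of_le_one_left (hu t).2 (pt (hp n) t)
    let a : B := (1 / 2 : ℂ) • (v + star v)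
    let b : B := (-Complex.I / 2) • (v - star v)
    have ha : ∀ t, a t = ((v t).re : ℂ) := fun t => by
      apply Complex.ext <;> simp [a]
      ring
    have hb : ∀ t, (b t).im = 0 := fun t => by simp [b]
    have hab : v = a + Complex.I • b := by
      ext t; apply Complex.ext <;> simp [a, b] <;> ring
    have e1 : (Ψ v).re = (Ψ a).re := by
      rw [hab, map_add, map_smul]
      simp [real_of_norm Ψ hΨN hΨ1 hb]
    have e2 := pos_of_norm Ψ hΨN hΨ1 (u := u - a) fun t => by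
      have := (abs_le.1 ((Complex.abs_re_le_norm (v t)).trans (hvt t))).2
      simp [ha, (hu t).1, this]
    have e3 := pos_of_norm Ψ hΨN hΨ1 (u := u + a) fun t => by
      have := (abs_le.1 ((Complex.abs_re_le_norm (v t)).trans (hvt t))).1
      simp only [BoundedContinuousFunction.add_apply, ha, Complex.add_im, (hu t).1,
        Complex.ofReal_im, add_zero, Complex.add_re, Complex.ofReal_re, true_and]
      linarith
    rw [map_sub, Complex.sub_re] at e2
    rw [map_add, Complex.add_re] at e3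
    simp only [Function.comp]
    rw [e1, abs_le]
    constructor <;> linarith
  · refine (hc h).aemeasurable.congr ?_
    filter_upwards [hnull h] with x hx
    rw [← h2]
    conv_rhs => rw [show ⟪h, π (e x) h⟫_ℂ = ⟪h0 + h1', π (e x) h⟫_ℂ by rw [← hsum]]
    rw [inner_add_left, show ⟪h0, π (e x) h⟫_ℂ = 0 from hx, zero_add]
  · filter_upwards [hnull Ω] with x hx
    rw [← h1, hsum, inner_add_left, show ⟪h0, π (e x) Ω⟫_ℂ = 0 from hx, zero_add]
    rfl

end Pool.Agent.Lib.H29.Krein
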