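import Mathlib

set_option autoImplicit false

namespace Pool.Agent.Lib.H29.Krein

/-- The interval `(-A, A)` for `A ∈ (0, ∞]`. -/
def Itv (A : ENNReal) : Set ℝ := {x | ENNReal.ofReal |x| < A}

/-- The almost periodic polynomial `∑_{x ∈ s} c_x e^{i x t}`. -/
noncomputable def expSum (s : Finset ℝ) (c : ℝ → ℂ) (t : ℝ) : ℂ :=
  ∑ x ∈ s, c x * Complex.exp (Complex.I * (x : ℂ) * (t : ℂ))

/-- The functional `Φ_f` on polynomials with exponents in `I` satisfies `|Φ_f p| ≤ C sup |p|`. -/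
def Bdd (I : Set ℝ) (f : ℝ → ℂ) (C : ℝ) : Prop :=
  ∀ s : Finset ℝ, (∀ x ∈ s, x ∈ I) → ∀ (c : ℝ → ℂ) (M : ℝ), (∀ t, ‖expSum s c t‖ ≤ M) →
    ‖∑ x ∈ s, c x * f x‖ ≤ C * M

/-- `Φ_f` is bounded. -/
def InR (I : Set ℝ) (f : ℝ → ℂ) : Prop := ∃ C : ℝ, Bdd I f C

/-- The operator norm of `Φ_f`. -/
noncomputable def nrm (I : Set ℝ) (f : ℝ → ℂ) : ℝ := sInf {C : ℝ | 0 ≤ C ∧ Bdd I f C}

/-- `f` is Hermitian on `I`. -/
def Herm (I : Set ℝ) (f : ℝ → ℂ) : Prop := ∀ x ∈ I, f (-x) = (starRingEnd ℂ) (f x)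

/-- `Φ_f` is bounded and is nonnegative on nonnegative polynomials with exponents in `I`. -/
def InP (I : Set ℝ) (f : ℝ → ℂ) : Prop :=
  InR I f ∧ ∀ s : Finset ℝ, (∀ x ∈ s, x ∈ I) → ∀ c : ℝ → ℂ,
    (∀ t, (expSum s c t).im = 0 ∧ 0 ≤ (expSum s c t).re) →
    (∑ x ∈ s, c x * f x).im = 0 ∧ 0 ≤ (∑ x ∈ s, c x * f x).re

end Pool.Agent.Lib.H29.Krein
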