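import Mathlib
import Pool.Agent.Lib.helper29.Krein2
import Pool.Agent.Lib.helper29.KreinDefs

set_option autoImplicit false

namespace Pool.Agent.Lib.H29.Krein

open scoped ComplexConjugate Topology BoundedContinuousFunction
open Set Filter MeasureTheory

lemma sum_apply (s : Finset ℝ) (c : ℝ → ℂ) (t : ℝ) : (∑ x ∈ s, c x • e x) t = expSum s c t := by
  simp [expSum]

lemma map_poly (Φ : B →L[ℂ] ℂ) (s : Finset ℝ) (c : ℝ → ℂ) :
    Φ (∑ x ∈ s, c x • e x) = ∑ x ∈ s, c x * Φ (e x) := by simp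

lemma bdd_of_clm (Φ : B →L[ℂ] ℂ) {N : ℝ} (hN : ‖Φ‖ ≤ N) (J : Set ℝ) {f : ℝ → ℂ}
    (hf : ∀ x ∈ J, Φ (e x) = f x) : Bdd J f N := by
  intro s hs c M hM
  rw [← Finset.sum_congr rfl fun x hx => congrArg (c x * ·) (hf x (hs x hx)), ← map_poly]
  exact re_le Φ hN _ ((norm_nonneg _).trans (hM 0)) fun t => by rw [sum_apply]; exact hM t

lemma bdd_max {I : Set ℝ} {f : ℝ → ℂ} (h : InR I f) : ∃ C, 0 ≤ C ∧ Bdd I f C := by
  obtain ⟨C, hC⟩ := h
  refine ⟨max C 0, le_max_right _ _, fun s hs c M hM => (hC s hs c M hM).trans ?_⟩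
  exact mul_le_mul_of_nonneg_right (le_max_left _ _) ((norm_nonneg _).trans (hM 0))

lemma span_rep {M : Type} [AddCommGroup M] [Module ℂ M] (v : ℝ → M) {I : Set ℝ} {u : M}
    (hu : u ∈ Submodule.span ℂ (v '' I)) :
    ∃ (s : Finset ℝ) (c : ℝ → ℂ), (∀ x ∈ s, x ∈ I) ∧ ∑ x ∈ s, c x • v x = u := by
  obtain ⟨l, hl, hx⟩ := (Finsupp.mem_span_image_iff_linearCombination ℂ).mp hu
  exact ⟨l.support, l, fun x hx => hl hx, hx⟩

lemma extend {I : Set ℝ} {f : ℝ → ℂ} (h : InR I f) :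
    ∃ Φ : B →L[ℂ] ℂ, (∀ x ∈ I, Φ (e x) = f x) ∧ ‖Φ‖ = nrm I f ∧
      ∃ p : ℕ → B, (∀ n, p n ∈ Submodule.span ℂ (e '' I)) ∧ (∀ n, ‖p n‖ ≤ 1) ∧
        Tendsto (fun n => (Φ (p n)).re) atTop (𝓝 ‖Φ‖) := by
  let G : Submodule ℂ (B × ℂ) := Submodule.span ℂ ((fun x => (e x, f x)) '' I)
  have hG : ∀ C, Bdd I f C → ∀ y ∈ G, ‖y.2‖ ≤ C * ‖y.1‖ := by
    intro C hC y hy
    obtain ⟨s, c, hs, rfl⟩ := span_rep _ hy
    simp only [Prod.fst_sum, Prod.snd_sum, Prod.smul_mk, smul_eq_mul]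
    exact hC s hs c _ fun t => by rw [← sum_apply]; exact BoundedContinuousFunction.norm_coe_le_norm _ t
  obtain ⟨C0, hC0, hC0'⟩ := bdd_max h
  have hg : ∀ y ∈ G, y.1 = 0 → y.2 = 0 := fun y hy h0 => by
    have := hG C0 hC0' y hy
    rwa [h0, norm_zero, mul_zero, norm_le_zero_iff] at this
  let V := G.map (LinearMap.fst ℂ B ℂ)
  have hV : V = Submodule.span ℂ (e '' I) := by
    simp only [V, G, Submodule.map_span, image_image, LinearMap.fst_apply]
  let φ0 : V →ₗ[ℂ] ℂ := G.toLinearPMap.toFun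
  have hφ0 : ∀ x : V, (x.1, φ0 x) ∈ G := fun x => G.mem_graph_toLinearPMap hg x
  let φ : V →L[ℂ] ℂ := φ0.mkContinuous C0 fun x => hG C0 hC0' _ (hφ0 x)
  obtain ⟨Φ, hΦ, hn⟩ := exists_extension_norm_eq V φ
  have hf : ∀ x ∈ I, Φ (e x) = f x := by
    intro x hx
    have h1 : (e x, f x) ∈ G := Submodule.subset_span ⟨x, hx, rfl⟩
    have h2 := hΦ ⟨e x, ⟨_, h1, rfl⟩⟩
    have h3 := hg _ (G.sub_mem (hφ0 ⟨e x, ⟨_, h1, rfl⟩⟩) h1) (by simp)
    exact h2.trans (sub_eq_zero.1 h3)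
  refine ⟨Φ, hf, ?_, ?_⟩
  · refine (IsLeast.csInf_eq (s := {C : ℝ | 0 ≤ C ∧ Bdd I f C})
      ⟨⟨norm_nonneg _, bdd_of_clm Φ le_rfl I hf⟩, ?_⟩).symm
    rintro C ⟨hC, hC'⟩
    rw [hn]
    exact φ.opNorm_le_bound hC fun x => hG C hC' _ (hφ0 x)
  · have : ∀ n : ℕ, ∃ u : B, u ∈ Submodule.span ℂ (e '' I) ∧ ‖u‖ ≤ 1 ∧
        ‖Φ‖ - 1 / ((n : ℝ) + 1) < (Φ u).re := by
      intro n
      obtain ⟨x, hx, hx'⟩ := φ.exists_lt_apply_of_lt_opNorm (r := ‖Φ‖ - 1 / ((n : ℝ) + 1))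
        (by rw [hn]; have : (0 : ℝ) < 1 / ((n : ℝ) + 1) := by positivity
            linarith)
      obtain ⟨θ, h1, h2⟩ := RCLike.exists_norm_eq_mul_self (φ x)
      refine ⟨θ • x.1, Submodule.smul_mem _ _ (hV ▸ x.2), ?_, ?_⟩
      · rw [norm_smul, h1, one_mul]; exact hx.le
      · rw [map_smul, hΦ, smul_eq_mul, ← h2]
        simpa using hx'
    choose p h1 h2 h3 using this
    refine ⟨p, h1, h2, ?_⟩
    have h4 : Tendsto (fun n : ℕ => ‖Φ‖ - 1 / ((n : ℝ) + 1)) atTop (𝓝 (‖Φ‖ - 0)) :=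
      tendsto_one_div_add_atTop_nhds_zero_nat.const_sub _
    rw [sub_zero] at h4
    refine tendsto_of_tendsto_of_tendsto_of_le_of_le h4 tendsto_const_nhds (fun n => (h3 n).le)
      fun n => ?_
    have := (Complex.re_le_norm _).trans (re_le Φ le_rfl (p n) zero_le_one (pt (h2 n)))
    simpa using this

lemma meas_of {Φ : B →L[ℂ] ℂ} {I : Set ℝ} (hI : IsOpen I) {f : ℝ → ℂ}
    (hf : ∀ x ∈ I, Φ (e x) = f x) (hm : AEMeasurable f (volume.restrict I)) :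
    AEMeasurable (fun x => Φ (e x)) (volume.restrict I) :=
  hm.congr ((ae_restrict_mem hI.measurableSet).mono fun x hx => (hf x hx).symm)

/-- norm preserving measurable extension -/
theorem ext_meas {I : Set ℝ} (hI : IsOpen I) {f : ℝ → ℂ} (h : InR I f)
    (hm : AEMeasurable f (volume.restrict I)) :
    ∃ g : ℝ → ℂ, (∀ x ∈ I, g x = f x) ∧ AEMeasurable g ∧ InR univ g ∧ nrm univ g = nrm I f := by
  obtain ⟨Φ, hf, hn, p, h1, h2, h3⟩ := extend h
  obtain ⟨Ψ, Φc, -, -, -, -, hc, hae⟩ := polar Φ le_rfl hI h1 h2 h3 (meas_of hI hf hm)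
  have hb : Bdd univ (fun x => Φ (e x)) ‖Φ‖ := bdd_of_clm Φ le_rfl univ fun _ _ => rfl
  refine ⟨fun x => Φ (e x), hf, hc.aemeasurable.congr (hae.mono fun x hx => hx.symm), ⟨_, hb⟩, ?_⟩
  rw [← hn]
  refine IsLeast.csInf_eq ⟨⟨norm_nonneg _, hb⟩, ?_⟩
  rintro C ⟨hC, hC'⟩
  rw [hn]
  refine csInf_le ⟨0, fun _ h => h.1⟩ ⟨hC, fun s hs c M hM => ?_⟩
  rw [← Finset.sum_congr rfl fun x hx => congrArg (c x * ·) (hf x (hs x hx))]
  exact hC' s (fun _ _ => mem_univ _) c M hM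

/-- continuous plus null -/
theorem cont_null {I : Set ℝ} (hI : IsOpen I) {f : ℝ → ℂ} (h : InR I f)
    (hm : AEMeasurable f (volume.restrict I)) :
    ∃ fc fm : ℝ → ℂ, (∀ x ∈ I, f x = fc x + fm x) ∧ InR I fc ∧ ContinuousOn fc I ∧ InR I fm ∧
      AEMeasurable fm (volume.restrict I) ∧ ∀ᵐ x ∂(volume.restrict I), fm x = 0 := by
  obtain ⟨Φ, hf, hn, p, h1, h2, h3⟩ := extend h
  obtain ⟨Ψ, Φc, -, -, -, -, hc, hae⟩ := polar Φ le_rfl hI h1 h2 h3 (meas_of hI hf hm)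
  have h0 : ∀ᵐ x ∂(volume.restrict I), (Φ - Φc) (e x) = 0 :=
    ae_restrict_of_ae (hae.mono fun x hx => by rw [sub_apply, hx, sub_self])
  refine ⟨fun x => Φc (e x), fun x => (Φ - Φc) (e x), fun x hx => by rw [← hf x hx]; simp,
    ⟨_, bdd_of_clm Φc le_rfl I fun _ _ => rfl⟩, hc.continuousOn,
    ⟨_, bdd_of_clm (Φ - Φc) le_rfl I fun _ _ => rfl⟩,
    aemeasurable_const.congr (h0.mono fun x hx => hx.symm), h0⟩

lemma herm_real {Φ : B →L[ℂ] ℂ} {I : Set ℝ} (hs : ∀ x ∈ I, -x ∈ I) {f : ℝ → ℂ}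
    (hf : ∀ x ∈ I, Φ (e x) = f x) (hH : Herm I f) {u : B} (hu : u ∈ Submodule.span ℂ (e '' I))
    (hr : ∀ t, (u t).im = 0) : (Φ u).im = 0 := by
  have key : ∀ v ∈ Submodule.span ℂ (e '' I), Φ (star v) = conj (Φ v) := by
    intro v hv
    induction hv using Submodule.span_induction with
    | mem x hx =>
      obtain ⟨l, hl, rfl⟩ := hx
      rw [← e_neg, hf _ (hs l hl), hf _ hl, hH l hl]
    | zero => simp
    | add x y _ _ hx hy => rw [star_add, map_add, map_add, map_add, hx, hy]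
    | smul c x _ hx => rw [star_smul, map_smul, map_smul, hx]; simp
  have h1 : star u = u := by
    ext t; apply Complex.ext <;> simp [hr t]
  have := key u hu
  rw [h1] at this
  exact Complex.conj_eq_iff_im.1 this.symm

lemma poly_mem {I : Set ℝ} {s : Finset ℝ} (hs : ∀ x ∈ s, x ∈ I) (c : ℝ → ℂ) :
    ∑ x ∈ s, c x • e x ∈ Submodule.span ℂ (e '' I) :=
  Submodule.sum_mem _ fun x hx => Submodule.smul_mem _ _ (Submodule.subset_span ⟨x, hs x hx, rfl⟩)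

lemma inP_of {I : Set ℝ} (Θ : B →L[ℂ] ℂ) (h : ∀ u ∈ Submodule.span ℂ (e '' I),
    (∀ t, (u t).im = 0 ∧ 0 ≤ (u t).re) → (Θ u).im = 0 ∧ 0 ≤ (Θ u).re) : InP I fun x => Θ (e x) := by
  refine ⟨⟨_, bdd_of_clm Θ le_rfl I fun _ _ => rfl⟩, fun s hs c hc => ?_⟩
  rw [← map_poly]
  exact h _ (poly_mem hs c) fun t => by rw [sum_apply]; exact hc t

/-- measurable Jordan decomposition -/
theorem jordan {I : Set ℝ} (hI : IsOpen I) (hs : ∀ x ∈ I, -x ∈ I) {f : ℝ → ℂ} (h : InR I f)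
    (hH : Herm I f) (hm : AEMeasurable f (volume.restrict I)) :
    ∃ fp fn : ℝ → ℂ, (∀ x ∈ I, f x = fp x - fn x) ∧ InP I fp ∧ InP I fn ∧
      AEMeasurable fp (volume.restrict I) ∧ AEMeasurable fn (volume.restrict I) ∧
      fp 0 + fn 0 = nrm I f := by
  obtain ⟨Φ, hf, hn, p, h1, h2, h3⟩ := extend h
  have hm' := meas_of hI hf hm
  obtain ⟨Ψ, Φc, -, hΨ1, hpos, hΨ, -, -⟩ := polar Φ le_rfl hI h1 h2 h3 hm'
  refine ⟨fun x => ((1 / 2 : ℂ) • (Ψ + Φ)) (e x), fun x => ((1 / 2 : ℂ) • (Ψ - Φ)) (e x),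
    fun x hx => ?_, inP_of _ fun u hu hu' => ?_, inP_of _ fun u hu hu' => ?_, ?_, ?_, ?_⟩
  · rw [← hf x hx]; simp; ring
  · have a1 := herm_real hs hf hH hu fun t => (hu' t).1
    obtain ⟨a2, a3⟩ := hpos u hu'
    simp [a1, a2]
    linarith [(abs_le.1 a3).1]
  · have a1 := herm_real hs hf hH hu fun t => (hu' t).1
    obtain ⟨a2, a3⟩ := hpos u hu'
    simp [a1, a2]
    linarith [(abs_le.1 a3).2]
  · exact (hΨ.restrict.add hm').const_smul (1 / 2 : ℂ)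
  · exact (hΨ.restrict.sub hm').const_smul (1 / 2 : ℂ)
  · rw [← hn, ← hΨ1]; simp [e_zero]; ring

lemma norm_pos {I : Set ℝ} (h0 : (0 : ℝ) ∈ I) (hs : ∀ x ∈ I, -x ∈ I) {f : ℝ → ℂ} (h : InP I f) :
    0 ≤ (f 0).re ∧ nrm I f ≤ (f 0).re := by
  obtain ⟨Φ, hf, -, -⟩ := extend h.1
  have hpos : ∀ u ∈ Submodule.span ℂ (e '' I), (∀ t, (u t).im = 0 ∧ 0 ≤ (u t).re) →
      (Φ u).im = 0 ∧ 0 ≤ (Φ u).re := by
    intro u hu hu'
    obtain ⟨s, c, hs, rfl⟩ := span_rep _ hu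
    rw [map_poly, Finset.sum_congr rfl fun x hx => congrArg (c x * ·) (hf x (hs x hx))]
    exact h.2 s hs c fun t => by rw [← sum_apply]; exact hu' t
  have h1V : (1 : B) ∈ Submodule.span ℂ (e '' I) := Submodule.subset_span ⟨0, h0, e_zero⟩
  have h1 : Φ 1 = f 0 := by rw [← e_zero, hf 0 h0]
  have h2 := hpos 1 h1V (by simp)
  rw [h1] at h2
  have hstar : ∀ v ∈ Submodule.span ℂ (e '' I), star v ∈ Submodule.span ℂ (e '' I) := by
    intro v hv
    induction hv using Submodule.span_induction with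
    | mem x hx =>
      obtain ⟨l, hl, rfl⟩ := hx
      exact Submodule.subset_span ⟨-l, hs l hl, e_neg l⟩
    | zero => simp
    | add x y _ _ hx hy => rw [star_add]; exact Submodule.add_mem _ hx hy
    | smul c x _ hx => rw [star_smul]; exact Submodule.smul_mem _ _ hx
  have hreal : ∀ u ∈ Submodule.span ℂ (e '' I), ∀ M : ℝ, (∀ t, (u t).im = 0 ∧ (u t).re ≤ M) →
      (Φ u).im = 0 ∧ (Φ u).re ≤ (f 0).re * M := by
    intro u hu M hM
    have := hpos ((M : ℂ) • (1 : B) - u) (Submodule.sub_mem _ (Submodule.smul_mem _ _ h1V) hu)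
      fun t => by simp [(hM t).1, (hM t).2]
    rw [map_sub, map_smul, h1] at this
    simp [h2.1] at this
    exact ⟨this.1, by linarith [this.2]⟩
  refine ⟨h2.2, csInf_le ⟨0, fun _ h => h.1⟩ ⟨h2.2, fun s hs' c M hM => ?_⟩⟩
  rw [← Finset.sum_congr rfl fun x hx => congrArg (c x * ·) (hf x (hs' x hx)), ← map_poly]
  set u := ∑ x ∈ s, c x • e x with hu
  have huV : u ∈ Submodule.span ℂ (e '' I) := poly_mem hs' c
  obtain ⟨θ, hθ, hθ'⟩ := RCLike.exists_norm_eq_mul_self (Φ u)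
  set v := θ • u with hv
  have hvV : v ∈ Submodule.span ℂ (e '' I) := Submodule.smul_mem _ _ huV
  have hvt : ∀ t, ‖v t‖ ≤ M := fun t => by
    rw [hv, BoundedContinuousFunction.smul_apply, norm_smul, hθ, one_mul, hu, sum_apply]
    exact hM t
  let a : B := (1 / 2 : ℂ) • (v + star v)
  let b : B := (-Complex.I / 2) • (v - star v)
  have ha : ∀ t, a t = ((v t).re : ℂ) := fun t => by
    apply Complex.ext <;> simp [a]
    ring
  have hab : v = a + Complex.I • b := by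
    ext t; apply Complex.ext <;> simp [a, b] <;> ring
  have e1 := hreal a (Submodule.smul_mem _ _ (Submodule.add_mem _ hvV (hstar v hvV))) M fun t => by
    rw [ha]; exact ⟨Complex.ofReal_im _, (Complex.re_le_norm (v t)).trans (hvt t)⟩
  have e2 := hreal b (Submodule.smul_mem _ _ (Submodule.sub_mem _ hvV (hstar v hvV))) ‖b‖ fun t =>
    ⟨by simp [b], (Complex.re_le_norm _).trans (b.norm_coe_le_norm t)⟩
  have e3 : (Φ v).re = (Φ a).re := by
    rw [hab, map_add, map_smul]; simp [e2.1]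
  have e4 : (Φ v).re = ‖Φ u‖ := by
    rw [hv, map_smul, smul_eq_mul, ← hθ']; simp
  linarith [e1.2]

/-- every minimal decomposition is measurable -/
theorem minimal {I : Set ℝ} (hI : IsOpen I) (h0 : (0 : ℝ) ∈ I) (hs : ∀ x ∈ I, -x ∈ I)
    {f fp fn : ℝ → ℂ} (h : InR I f) (hm : AEMeasurable f (volume.restrict I))
    (hd : ∀ x ∈ I, f x = fp x - fn x) (hp : InP I fp) (hn : InP I fn)
    (hmin : fp 0 + fn 0 = nrm I f) :
    AEMeasurable fp (volume.restrict I) ∧ AEMeasurable fn (volume.restrict I) := by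
  obtain ⟨Φ, hf, hN, p, h1, h2, h3⟩ := extend h
  obtain ⟨Φp, hfp, hNp, -⟩ := extend hp.1
  obtain ⟨Φn, hfn, hNn, -⟩ := extend hn.1
  have a1 := (norm_pos h0 hs hp).2
  have a2 := (norm_pos h0 hs hn).2
  have a3 : (fp 0).re + (fn 0).re = ‖Φ‖ := by
    rw [hN]; simpa using congrArg Complex.re hmin
  rw [← hNp] at a1
  rw [← hNn] at a2
  have hf' : ∀ x ∈ I, (Φp - Φn) (e x) = f x := fun x hx => by
    rw [sub_apply, hfp x hx, hfn x hx, hd x hx]
  have heq : ∀ v ∈ Submodule.span ℂ (e '' I), (Φp - Φn) v = Φ v := by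
    intro v hv
    induction hv using Submodule.span_induction with
    | mem x hx => obtain ⟨l, hl, rfl⟩ := hx; rw [hf' l hl, hf l hl]
    | zero => simp
    | add x y _ _ hx hy => rw [map_add, map_add, hx, hy]
    | smul c x _ hx => rw [map_smul, map_smul, hx]
  have h3' : Tendsto (fun n => ((Φp - Φn) (p n)).re) atTop (𝓝 ‖Φ‖) :=
    h3.congr fun n => by rw [heq _ (h1 n)]
  have hm' := meas_of hI hf' hm
  obtain ⟨Ψ, -, hΨ, -, -, hΨm, -, -⟩ := polar (Φp - Φn) (N := ‖Φ‖)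
    ((norm_sub_le _ _).trans (by linarith)) hI h1 h2 h3' hm'
  have b1 : ∀ n, (Φp (p n)).re ≤ (fp 0).re := fun n => by
    have := (Complex.re_le_norm _).trans (re_le Φp a1 (p n) zero_le_one (pt (h2 n)))
    linarith
  have b2 : ∀ n, (Φn (-p n)).re ≤ (fn 0).re := fun n => by
    have := (Complex.re_le_norm _).trans (re_le Φn a2 (-p n) zero_le_one
      (pt (by rw [norm_neg]; exact h2 n)))
    linarith
  have b3 : ∀ n, ((Φp - Φn) (p n)).re = (Φp (p n)).re + (Φn (-p n)).re := fun n => by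
    simp; ring
  have c1 : Tendsto (fun n => (Φp (p n)).re) atTop (𝓝 (fp 0).re) := by
    have := h3'.sub_const (fn 0).re
    rw [show ‖Φ‖ - (fn 0).re = (fp 0).re by linarith] at this
    exact tendsto_of_tendsto_of_tendsto_of_le_of_le this tendsto_const_nhds
      (fun n => by dsimp only; linarith [b3 n, b2 n]) b1
  have c2 : Tendsto (fun n => (Φn (-p n)).re) atTop (𝓝 (fn 0).re) := by
    have := h3'.sub_const (fp 0).re
    rw [show ‖Φ‖ - (fp 0).re = (fn 0).re by linarith] at this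
    exact tendsto_of_tendsto_of_tendsto_of_le_of_le this tendsto_const_nhds
      (fun n => by dsimp only; linarith [b3 n, b1 n]) b2
  have d1 := L3 Φp a1 (l := atTop) (p := p) (q := fun _ => 1) h2 (fun _ => norm_one.le) c1
    (by rw [← e_zero, hfp 0 h0]; exact tendsto_const_nhds)
  have d2 := L3 Φn a2 (l := atTop) (p := fun n => -p n) (q := fun _ => 1)
    (fun n => by rw [norm_neg]; exact h2 n) (fun _ => norm_one.le) c2
    (by rw [← e_zero, hfn 0 h0]; exact tendsto_const_nhds)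
  have d3 : Tendsto (fun n => tw Φp (p n) + tw Φn (-p n)) atTop (𝓝 (tw Φp 1 + tw Φn 1)) :=
    (tendsto_iff_norm_sub_tendsto_zero.2 d1).add (tendsto_iff_norm_sub_tendsto_zero.2 d2)
  have d4 : Ψ = tw Φp 1 + tw Φn 1 := tendsto_nhds_unique hΨ (d3.congr fun n => by
    ext u; simp; ring)
  constructor
  · refine ((hΨm.restrict.add hm').const_smul (1 / 2 : ℂ)).congr
      ((ae_restrict_mem hI.measurableSet).mono fun x hx => ?_)
    simp [d4, hfp x hx]; ring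
  · refine ((hΨm.restrict.sub hm').const_smul (1 / 2 : ℂ)).congr
      ((ae_restrict_mem hI.measurableSet).mono fun x hx => ?_)
    simp [d4, hfn x hx]; ring

lemma itv_open (A : ENNReal) : IsOpen (Itv A) :=
  isOpen_lt (ENNReal.continuous_ofReal.comp continuous_abs) continuous_const

lemma itv_zero {A : ENNReal} (hA : 0 < A) : (0 : ℝ) ∈ Itv A := by simpa [Itv] using hA

lemma itv_neg (A : ENNReal) : ∀ x ∈ Itv A, -x ∈ Itv A := fun x hx => by simpa [Itv] using hx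

end Pool.Agent.Lib.H29.Krein
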