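import Mathlib

open Matrix
open scoped Kronecker InnerProductSpace

namespace Pool.Agent.Lib.H29.KyF

/-- The singular values `σ_1 ≥ σ_2 ≥ …` of a square matrix, indexed from `0`. -/
noncomputable def sv {n : ℕ} (M : Matrix (Fin n) (Fin n) ℂ) (i : ℕ) : ℝ :=
  (Matrix.toEuclideanLin M).singularValues i

/-- The Ky Fan `k`-norm. -/
noncomputable def kyFan {n : ℕ} (k : ℕ) (M : Matrix (Fin n) (Fin n) ℂ) : ℝ :=
  ∑ i ∈ Finset.range k, sv M i

/-- Partial trace over the first tensor factor. -/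
def tr1 {n : ℕ} (X : Matrix (Fin n × Fin n) (Fin n × Fin n) ℂ) : Matrix (Fin n) (Fin n) ℂ :=
  Matrix.of fun j l => ∑ i, X (i, j) (i, l)

/-- `S_A = A ⊗ I + I ⊗ A`. -/
def SS {n : ℕ} (A : Matrix (Fin n) (Fin n) ℂ) : Matrix (Fin n × Fin n) (Fin n × Fin n) ℂ :=
  A ⊗ₖ (1 : Matrix (Fin n) (Fin n) ℂ) + (1 : Matrix (Fin n) (Fin n) ℂ) ⊗ₖ A

/-- `D_B = B ⊗ I - I ⊗ B`. -/
def DD {n : ℕ} (B : Matrix (Fin n) (Fin n) ℂ) : Matrix (Fin n × Fin n) (Fin n × Fin n) ℂ :=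
  B ⊗ₖ (1 : Matrix (Fin n) (Fin n) ℂ) - (1 : Matrix (Fin n) (Fin n) ℂ) ⊗ₖ B

/-- `L(A,B) = Tr_1(S_A D_B)`. -/
def LL {n : ℕ} (A B : Matrix (Fin n) (Fin n) ℂ) : Matrix (Fin n) (Fin n) ℂ := tr1 (SS A * DD B)

/-- `R(B) = Tr_1(D_B)`. -/
def RR {n : ℕ} (B : Matrix (Fin n) (Fin n) ℂ) : Matrix (Fin n) (Fin n) ℂ := tr1 (DD B)

lemma tr1_kron {n : ℕ} (X Y : Matrix (Fin n) (Fin n) ℂ) : tr1 (X ⊗ₖ Y) = X.trace • Y := by
  ext j l
  simp [tr1, Matrix.trace, Finset.sum_mul]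

lemma tr1_add {n : ℕ} (X Y : Matrix (Fin n × Fin n) (Fin n × Fin n) ℂ) :
    tr1 (X + Y) = tr1 X + tr1 Y := by
  ext j l
  simp [tr1, Finset.sum_add_distrib]

lemma tr1_sub {n : ℕ} (X Y : Matrix (Fin n × Fin n) (Fin n × Fin n) ℂ) :
    tr1 (X - Y) = tr1 X - tr1 Y := by
  ext j l
  simp [tr1, Finset.sum_sub_distrib]

lemma LL_eq {n : ℕ} (A B : Matrix (Fin n) (Fin n) ℂ) :
    LL A B = (A * B).trace • (1 : Matrix (Fin n) (Fin n) ℂ) - A.trace • B + B.trace • A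
      - (n : ℂ) • (A * B) := by
  unfold LL SS DD
  simp only [add_mul, mul_sub, ← mul_kronecker_mul, tr1_add, tr1_sub, tr1_kron, mul_one, one_mul,
    trace_one, Fintype.card_fin]
  abel

lemma RR_eq {n : ℕ} (B : Matrix (Fin n) (Fin n) ℂ) :
    RR B = B.trace • (1 : Matrix (Fin n) (Fin n) ℂ) - (n : ℂ) • B := by
  unfold RR DD
  simp only [tr1_sub, tr1_kron, trace_one, Fintype.card_fin]

lemma exists_basis {n : ℕ} (M : Matrix (Fin n) (Fin n) ℂ) :
    ∃ b : OrthonormalBasis (Fin n) ℂ (EuclideanSpace ℂ (Fin n)), ∀ i : Fin n,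
      toEuclideanLin (Mᴴ * M) (b i) = ((sv M i ^ 2 : ℝ) : ℂ) • b i := by
  have hn : Module.finrank ℂ (EuclideanSpace ℂ (Fin n)) = n := by simp
  refine ⟨(toEuclideanLin M).isSymmetric_adjoint_comp_self.eigenvectorBasis hn, fun i => ?_⟩
  have := (toEuclideanLin M).isSymmetric_adjoint_comp_self.apply_eigenvectorBasis hn i
  rw [sv, LinearMap.sq_singularValues_fin _ hn, toLpLin_mul_same,
    Matrix.toEuclideanLin_conjTranspose_eq_adjoint]
  exact this

lemma normsq {n : ℕ} (M : Matrix (Fin n) (Fin n) ℂ) (v : EuclideanSpace ℂ (Fin n)) :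
    ⟪v, toEuclideanLin (Mᴴ * M) v⟫_ℂ = ((‖toEuclideanLin M v‖ ^ 2 : ℝ) : ℂ) := by
  rw [toLpLin_mul_same, Matrix.toEuclideanLin_conjTranspose_eq_adjoint, LinearMap.comp_apply,
    LinearMap.adjoint_inner_right, inner_self_eq_norm_sq_to_K]
  simp

lemma trace_eq {n : ℕ} (M : Matrix (Fin n) (Fin n) ℂ)
    (b : OrthonormalBasis (Fin n) ℂ (EuclideanSpace ℂ (Fin n))) :
    M.trace = ∑ i, ⟪b i, toEuclideanLin M (b i)⟫_ℂ := by
  rw [← LinearMap.trace_eq_sum_inner, Matrix.toEuclideanLin_eq_toLin_orthonormal,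
    Matrix.trace_toLin_eq]

lemma sv_nonneg {n : ℕ} (M : Matrix (Fin n) (Fin n) ℂ) (i : ℕ) : 0 ≤ sv M i :=
  LinearMap.singularValues_nonneg _ _

lemma re_trace_le {n : ℕ} (W M : Matrix (Fin n) (Fin n) ℂ) (hW : Wᴴ * W = 1) :
    (W * M).trace.re ≤ kyFan n M := by
  obtain ⟨b, hb⟩ := exists_basis M
  rw [trace_eq _ b, kyFan, Finset.sum_range, Complex.re_sum]
  refine Finset.sum_le_sum fun i _ => ?_
  have h1 : ‖toEuclideanLin M (b i)‖ = sv M i := by
    have := normsq M (b i)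
    rw [hb, inner_smul_right, inner_self_eq_norm_sq_to_K, b.orthonormal.1] at this
    simp only [RCLike.ofReal_one, one_pow, mul_one, Complex.ofReal_inj] at this
    exact ((pow_left_inj₀ (sv_nonneg M i) (norm_nonneg _) two_ne_zero).mp this).symm
  have h2 : ∀ v, ‖toEuclideanLin W v‖ = ‖v‖ := by
    intro v
    have := normsq W v
    rw [hW, toLpLin_one, LinearMap.id_apply, inner_self_eq_norm_sq_to_K] at this
    have h3 : ‖v‖ ^ 2 = ‖toEuclideanLin W v‖ ^ 2 := by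
      apply Complex.ofReal_injective
      rw [← this]
      simp
    exact ((pow_left_inj₀ (norm_nonneg _) (norm_nonneg _) two_ne_zero).mp h3).symm
  refine (Complex.re_le_norm _).trans ((norm_inner_le_norm _ _).trans ?_)
  rw [b.orthonormal.1, one_mul, toLpLin_mul_same, LinearMap.comp_apply, h2, h1]

lemma sv_one {n : ℕ} (M : Matrix (Fin n) (Fin n) ℂ) (hM : Mᴴ * M = 1) {i : ℕ} (hi : i < n) :
    sv M i = 1 := by
  obtain ⟨b, hb⟩ := exists_basis M
  have := hb ⟨i, hi⟩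
  rw [hM, toLpLin_one, LinearMap.id_apply] at this
  have h1 := congrArg norm this
  rw [norm_smul, b.orthonormal.1, mul_one, Complex.norm_real,
    Real.norm_of_nonneg (by positivity)] at h1
  exact (pow_eq_one_iff_of_nonneg (sv_nonneg M i) two_ne_zero).mp h1.symm

lemma kyFan_proj {n : ℕ} (M : Matrix (Fin n) (Fin n) ℂ) {c : ℝ} (hc : 0 < c)
    (hM : (Mᴴ * M) * (Mᴴ * M) = ((c ^ 2 : ℝ) : ℂ) • (Mᴴ * M)) :
    c * kyFan n M = (Mᴴ * M).trace.re := by
  obtain ⟨b, hb⟩ := exists_basis M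
  rw [trace_eq _ b, kyFan, Finset.sum_range, Complex.re_sum, Finset.mul_sum]
  refine Finset.sum_congr rfl fun i _ => ?_
  have h1 := congrArg (fun X => toEuclideanLin X (b i)) hM
  generalize Mᴴ * M = N at hb h1 ⊢
  simp only [toLpLin_mul_same, LinearMap.comp_apply, map_smul, LinearMap.smul_apply,
    hb, smul_smul] at h1
  have h2 := congrArg norm h1
  rw [norm_smul, norm_smul, b.orthonormal.1, mul_one, mul_one, norm_mul, norm_mul,
    Complex.norm_real, Complex.norm_real, Real.norm_of_nonneg (by positivity),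
    Real.norm_of_nonneg (by positivity)] at h2
  rw [hb, inner_smul_right, inner_self_eq_norm_sq_to_K, b.orthonormal.1]
  simp only [RCLike.ofReal_one, one_pow, mul_one, Complex.ofReal_re]
  have h0 := sv_nonneg M i
  rcases h0.eq_or_lt with h | h
  · rw [← h]
    ring
  · have h3 : sv M i ^ 2 = c ^ 2 := mul_right_cancel₀ (by positivity) h2
    rw [(pow_left_inj₀ h0 hc.le two_ne_zero).mp h3]
    ring

/-- matrix unit -/
def ee (i j : Fin 20) : Matrix (Fin 20) (Fin 20) ℂ := Matrix.single i j 1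

lemma ee_mul (i j k l : Fin 20) : ee i j * ee k l = if j = k then ee i l else 0 := by
  unfold ee
  split_ifs with h
  · subst h
    simp
  · exact single_mul_single_of_ne _ _ _ _ h _

lemma ee_tr (i j : Fin 20) : (ee i j).trace = if i = j then 1 else 0 := by
  unfold ee
  split_ifs with h
  · subst h
    simp
  · exact trace_single_eq_of_ne _ _ _ h

lemma ee_ct (i j : Fin 20) : (ee i j)ᴴ = ee j i := by simp [ee, conjTranspose_single]

/-- the reflection -/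
noncomputable def A0 : Matrix (Fin 20) (Fin 20) ℂ := 1 - (2 : ℂ) • ee 0 0

/-- the traceless rank-two matrix -/
noncomputable def B0 : Matrix (Fin 20) (Fin 20) ℂ :=
  (16 / 25 : ℂ) • ee 0 0 + (12 / 25 : ℂ) • ee 0 1 + (12 / 25 : ℂ) • ee 1 0 + (9 / 25 : ℂ) • ee 1 1
    - ee 2 2

/-- the test unitary -/
noncomputable def W0 : Matrix (Fin 20) (Fin 20) ℂ :=
  -1 + (2 / 5 : ℂ) • ee 0 0 - (4 / 5 : ℂ) • ee 0 1 + (4 / 5 : ℂ) • ee 1 0 + (2 / 5 : ℂ) • ee 1 1
    + (2 : ℂ) • ee 2 2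

lemma A0_h : A0ᴴ = A0 := by simp [A0, ee_ct]

lemma B0_h : B0ᴴ = B0 := by
  simp [B0, ee_ct]
  abel

lemma A0_sq : A0ᴴ * A0 = 1 := by
  rw [A0_h]
  simp only [A0, mul_sub, sub_mul, one_mul, mul_one, smul_mul_assoc, mul_smul_comm, ee_mul, if_true]
  module

lemma W0_u : W0ᴴ * W0 = 1 := by
  simp [W0, ee_ct, mul_sub, sub_mul, mul_add, add_mul, ee_mul]
  module

lemma B0_tr : B0.trace = 0 := by
  simp [B0, ee_tr]
  norm_num

lemma B0_sq : B0 * B0 = B0 + (2 : ℂ) • ee 2 2 := by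
  simp [B0, mul_sub, sub_mul, mul_add, add_mul, ee_mul]
  module

lemma B0_four : (B0 * B0) * (B0 * B0) = B0 * B0 := by
  rw [B0_sq]
  simp only [mul_add, add_mul, B0_sq]
  simp [B0, mul_sub, sub_mul, mul_add, add_mul, ee_mul]
  module

lemma R0 : kyFan 20 (RR B0) = 40 := by
  have e : (RR B0)ᴴ * RR B0 = (400 : ℂ) • (B0 * B0) := by
    rw [RR_eq, B0_tr]
    simp [B0_h, smul_smul]
    norm_num
  have := kyFan_proj (RR B0) (c := 20) (by norm_num) (by
    rw [e]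
    simp only [smul_mul_assoc, mul_smul_comm, B0_four]
    norm_num)
  rw [e, B0_sq] at this
  simp [B0_tr, ee_tr] at this
  linarith

lemma L0 : 80 < kyFan 20 (LL A0 B0) := by
  refine lt_of_lt_of_le ?_ (re_trace_le W0 _ W0_u)
  have h1 : A0 * B0 = B0 - (32 / 25 : ℂ) • ee 0 0 - (24 / 25 : ℂ) • ee 0 1 := by
    simp [A0, B0, mul_sub, sub_mul, mul_add, ee_mul]
    module
  have h2 : (A0 * B0).trace = -32 / 25 := by
    rw [h1]
    simp [B0_tr, ee_tr]
    norm_num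
  have h3 : A0.trace = 18 := by
    simp [A0, ee_tr]
    norm_num
  have h4 : (W0 * LL A0 B0).trace = 10352 / 125 := by
    rw [LL_eq, h2, h3, B0_tr, h1]
    simp [W0, B0, mul_sub, sub_mul, mul_add, add_mul, ee_mul, ee_tr]
    norm_num
  rw [h4]
  norm_num

end Pool.Agent.Lib.H29.KyF
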