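import Mathlib

set_option autoImplicit false

namespace Pool.Agent.Lib.H29.MaxVar

open MeasureTheory

/-- The maximal operator of convolution type: `M φ f x = sup_{t>0} (φ_t * |f|)(x)`,
with `φ_t(y) = t⁻¹ φ(y/t)`. -/
noncomputable def maxOp (φ f : ℝ → ℝ) (x : ℝ) : ℝ :=
  ⨆ t : Set.Ioi (0 : ℝ), ∫ y, (t : ℝ)⁻¹ * φ (y / t) * |f (x - y)|

end Pool.Agent.Lib.H29.MaxVar
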