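import Mathlib
import Pool.Agent.Lib.helper29.MaxVarDefs

set_option autoImplicit false

namespace Pool.Agent.Lib.H29.MaxVar

open MeasureTheory Set Filter

/-- centres of the bumps of the test function -/
def P (N B : ℕ) : Finset ℤ :=
  (Finset.range N).image (fun i : ℕ => -2 * (B : ℤ) + 2 * i * N) ∪
    (Finset.range N).image (fun j : ℕ => 2 * (B : ℤ) + 2 * j)

lemma P_card (N B : ℕ) : (P N B).card ≤ 2 * N := by
  unfold P
  refine (Finset.card_union_le _ _).trans ?_
  have h1 := Finset.card_image_le (s := Finset.range N) (f := fun i : ℕ => -2 * (B : ℤ) + 2 * i * N)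
  have h2 := Finset.card_image_le (s := Finset.range N) (f := fun j : ℕ => 2 * (B : ℤ) + 2 * j)
  rw [Finset.card_range] at h1 h2
  omega

lemma P_prop {N B : ℕ} {p : ℤ} (hp : p ∈ P N B) :
    Even p ∧ |p| ≤ 2 * B + 2 * N ^ 2 ∧ (p ≤ -2 * B + 2 * N ^ 2 ∨ 2 * B ≤ p) := by
  unfold P at hp
  rcases Finset.mem_union.1 hp with h | h
  · obtain ⟨i, hi, rfl⟩ := Finset.mem_image.1 h
    have hi' : (i : ℤ) < N := by exact_mod_cast Finset.mem_range.1 hi
    have h0 : (0 : ℤ) ≤ i := Int.natCast_nonneg i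
    have hB : (0 : ℤ) ≤ B := Int.natCast_nonneg B
    have h1 : (i : ℤ) * N ≤ N ^ 2 := by nlinarith
    have h2 : (0 : ℤ) ≤ (i : ℤ) * N := by nlinarith
    refine ⟨⟨-B + i * N, by ring⟩, abs_le.2 ⟨by nlinarith, by nlinarith⟩, Or.inl (by nlinarith)⟩
  · obtain ⟨j, hj, rfl⟩ := Finset.mem_image.1 h
    have hj' : (j : ℤ) < N := by exact_mod_cast Finset.mem_range.1 hj
    have h0 : (0 : ℤ) ≤ j := Int.natCast_nonneg j
    have hB : (0 : ℤ) ≤ B := Int.natCast_nonneg B
    have h1 : (j : ℤ) ≤ N ^ 2 := by nlinarith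
    refine ⟨⟨B + j, by ring⟩, abs_le.2 ⟨by nlinarith, by nlinarith⟩, Or.inr (by nlinarith)⟩

noncomputable def up (a : ℝ) (x : ℝ) : ℝ := (Ici a).indicator (fun _ => (1 : ℝ)) x
noncomputable def dn (a : ℝ) (x : ℝ) : ℝ := (Ioi a).indicator (fun _ => (1 : ℝ)) x
noncomputable def bump (p : ℤ) (x : ℝ) : ℝ :=
  (Icc ((p : ℝ) - 1 / 8) (p + 1 / 8)).indicator (fun _ => (1 : ℝ)) x

lemma bump_eq (p : ℤ) (x : ℝ) : bump p x = up (p - 1 / 8) x - dn (p + 1 / 8) x := by
  unfold bump up dn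
  simp only [indicator, mem_Icc, mem_Ici, mem_Ioi]
  split_ifs with h1 h2 h3 h4 h5 h6 h7 <;> first | (simp; done) | (exfalso; grind)

lemma up_mono (a : ℝ) : Monotone (up a) := by
  intro x y hxy
  unfold up
  simp only [indicator, mem_Ici]
  split_ifs with h1 h2 <;> first | simp | (exfalso; push Not at *; linarith)

lemma dn_mono (a : ℝ) : Monotone (dn a) := by
  intro x y hxy
  unfold dn
  simp only [indicator, mem_Ioi]
  split_ifs with h1 h2 <;> first | simp | (exfalso; push Not at *; linarith)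

lemma up_bd (a x : ℝ) : 0 ≤ up a x ∧ up a x ≤ 1 := by
  unfold up; simp only [indicator]; split_ifs <;> simp
lemma dn_bd (a x : ℝ) : 0 ≤ dn a x ∧ dn a x ≤ 1 := by
  unfold dn; simp only [indicator]; split_ifs <;> simp
lemma bump_nonneg (p : ℤ) (x : ℝ) : 0 ≤ bump p x := by
  unfold bump; simp only [indicator]; split_ifs <;> simp

noncomputable def g (N B : ℕ) (x : ℝ) : ℝ := ∑ p ∈ P N B, bump p x
noncomputable def ff (N B : ℕ) (x : ℝ) : ℝ := min 1 (g N B x)

lemma g_nonneg (N B : ℕ) (x : ℝ) : 0 ≤ g N B x := Finset.sum_nonneg fun p _ => bump_nonneg p x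
lemma ff_nonneg (N B : ℕ) (x : ℝ) : 0 ≤ ff N B x := le_min zero_le_one (g_nonneg N B x)
lemma ff_le_one (N B : ℕ) (x : ℝ) : ff N B x ≤ 1 := min_le_left _ _
lemma ff_le_g (N B : ℕ) (x : ℝ) : ff N B x ≤ g N B x := min_le_right _ _

lemma bump_meas (p : ℤ) : Measurable (bump p) :=
  measurable_const.indicator measurableSet_Icc
lemma g_meas (N B : ℕ) : Measurable (g N B) :=
  Finset.measurable_sum _ fun p _ => bump_meas p
lemma ff_meas (N B : ℕ) : Measurable (ff N B) := measurable_const.min (g_meas N B)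

lemma ff_eq_one {N B : ℕ} {p : ℤ} (hp : p ∈ P N B) {x : ℝ} (hx : |x - p| ≤ 1 / 8) : ff N B x = 1 := by
  refine min_eq_left ?_
  have h1 : bump p x = 1 := by
    unfold bump
    rw [indicator_of_mem]
    rw [abs_le] at hx
    exact ⟨by linarith, by linarith⟩
  rw [← h1]
  exact Finset.single_le_sum (f := fun p => bump p x) (fun p _ => bump_nonneg p x) hp

lemma ff_ne_zero {N B : ℕ} {x : ℝ} (hx : ff N B x ≠ 0) : ∃ p ∈ P N B, |x - p| ≤ 1 / 8 := by
  by_contra h
  push Not at h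
  apply hx
  have : g N B x = 0 := by
    refine Finset.sum_eq_zero fun p hp => ?_
    unfold bump
    rw [indicator_of_notMem]
    intro hm
    have := h p hp
    rw [lt_abs] at this
    rcases this with h1 | h1
    · linarith [hm.2]
    · linarith [hm.1]
  unfold ff
  rw [this]; simp

lemma bump_int (p : ℤ) : Integrable (bump p) ∧ ∫ x, bump p x = 1 / 4 := by
  constructor
  · exact (integrable_indicator_iff measurableSet_Icc).2 (integrableOn_const (by simp))
  · unfold bump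
    rw [integral_indicator measurableSet_Icc]
    simp only [integral_const, MeasurableSet.univ, measureReal_restrict_apply, univ_inter,
      Real.volume_real_Icc, smul_eq_mul, mul_one]
    rw [max_eq_left] <;> linarith

lemma g_int (N B : ℕ) : Integrable (g N B) ∧ ∫ x, g N B x ≤ N / 2 := by
  constructor
  · exact integrable_finsetSum _ fun p _ => (bump_int p).1
  · unfold g
    rw [integral_finsetSum _ fun p _ => (bump_int p).1]
    simp only [(bump_int _).2, Finset.sum_const, nsmul_eq_mul]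
    have : ((P N B).card : ℝ) ≤ 2 * N := by exact_mod_cast P_card N B
    linarith

lemma ff_var (N B : ℕ) : eVariationOn (ff N B) univ ≤ ENNReal.ofReal (4 * N) := by
  let F : ℝ → ℝ := fun x => ∑ p ∈ P N B, (up (p - 1 / 8) x + dn (p + 1 / 8) x)
  have hF : ∀ x y, x ≤ y → |ff N B y - ff N B x| ≤ F y - F x := by
    intro x y hxy
    have h1 := abs_min_sub_min_le_max (1 : ℝ) (g N B y) 1 (g N B x)
    simp only [sub_self, abs_zero] at h1
    refine h1.trans ?_
    rw [max_eq_right (abs_nonneg _)]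
    unfold g
    rw [← Finset.sum_sub_distrib, ← Finset.sum_sub_distrib]
    refine (Finset.abs_sum_le_sum_abs _ _).trans (Finset.sum_le_sum fun p _ => ?_)
    rw [bump_eq, bump_eq]
    have a1 := up_mono (p - 1 / 8) hxy
    have a2 := dn_mono (p + 1 / 8) hxy
    rw [abs_le]; constructor <;> linarith
  have hFb : ∀ x, 0 ≤ F x ∧ F x ≤ 4 * N := by
    intro x
    constructor
    · exact Finset.sum_nonneg fun p _ => add_nonneg (up_bd _ _).1 (dn_bd _ _).1
    · have : F x ≤ ∑ _p ∈ P N B, (2 : ℝ) :=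
        Finset.sum_le_sum fun p _ => by linarith [(up_bd (p - 1 / 8) x).2, (dn_bd (p + 1 / 8) x).2]
      simp only [Finset.sum_const, nsmul_eq_mul] at this
      have h2 : ((P N B).card : ℝ) ≤ 2 * N := by exact_mod_cast P_card N B
      linarith
  unfold eVariationOn
  refine iSup_le fun p => ?_
  obtain ⟨n, u, hu, -⟩ := p
  dsimp only
  have : ∀ i, edist (ff N B (u (i + 1))) (ff N B (u i)) ≤ ENNReal.ofReal (F (u (i + 1)) - F (u i)) := by
    intro i
    rw [edist_dist, Real.dist_eq]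
    exact ENNReal.ofReal_le_ofReal (hF _ _ (hu (Nat.le_succ i)))
  refine (Finset.sum_le_sum fun i _ => this i).trans ?_
  rw [← ENNReal.ofReal_sum_of_nonneg fun i _ => (abs_nonneg _).trans (hF _ _ (hu (Nat.le_succ i))),
    Finset.sum_range_sub (fun i => F (u i))]
  exact ENNReal.ofReal_le_ofReal (by linarith [(hFb (u n)).2, (hFb (u 0)).1])

/-- at an integer point both sides see a bump -/
lemma hit {N B : ℕ} (hB : N ^ 2 < B) {lam : ℝ} (hlam : 16 * (B + N ^ 2) + 8 ≤ lam) {m : ℕ}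
    (hm : m < N ^ 2) : ∃ t : ℝ, 0 < t ∧ ∀ u : ℝ, (|u - lam| ≤ 1 ∨ |u + lam| ≤ 1) →
      ff N B (m - t * u) = 1 := by
  have hN : 0 < N := by
    rcases Nat.eq_zero_or_pos N with h | h
    · subst h; simp at hm
    · exact h
  obtain ⟨i, j, hi, hj, hm'⟩ : ∃ i j : ℕ, i < N ∧ j < N ∧ m = i * N + j := by
    refine ⟨m / N, m % N, ?_, Nat.mod_lt _ hN, ?_⟩
    · rw [Nat.div_lt_iff_lt_mul hN]; nlinarith
    · rw [mul_comm]; exact (Nat.div_add_mod m N).symm
  have hBr : ((N : ℝ)) ^ 2 < B := by exact_mod_cast hB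
  have hmr : (m : ℝ) = i * N + j := by exact_mod_cast hm'
  have hmr' : (m : ℝ) < N ^ 2 := by exact_mod_cast hm
  have hjr : (j : ℝ) < N := by exact_mod_cast hj
  have hj0 : (0 : ℝ) ≤ j := Nat.cast_nonneg j
  have hm0 : (0 : ℝ) ≤ m := Nat.cast_nonneg m
  have hN1 : (1 : ℝ) ≤ N := by exact_mod_cast hN
  have hNN : (N : ℝ) ≤ N ^ 2 := by nlinarith
  have hB0 : (0 : ℝ) ≤ B := Nat.cast_nonneg B
  have hl0 : 0 < lam := by nlinarith
  set d : ℝ := 2 * B + 2 * j - m with hd
  have hd0 : 0 < d := by rw [hd]; linarith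
  have ht : d / lam ≤ 1 / 8 := by
    rw [div_le_iff₀ hl0]; rw [hd]; linarith
  have ht0 : 0 < d / lam := div_pos hd0 hl0
  have htl : d / lam * lam = d := div_mul_cancel₀ d hl0.ne'
  refine ⟨d / lam, ht0, fun u hu => ?_⟩
  rcases hu with hu | hu
  · refine ff_eq_one (p := -2 * (B : ℤ) + 2 * i * N) ?_ ?_
    · exact Finset.mem_union_left _ (Finset.mem_image.2 ⟨i, Finset.mem_range.2 hi, rfl⟩)
    · have : (m : ℝ) - d / lam * u - ((-2 * (B : ℤ) + 2 * i * N : ℤ) : ℝ) = -(d / lam * (u - lam)) := by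
        push_cast
        rw [mul_sub, htl, hd, hmr]; ring
      rw [this, abs_neg, abs_mul, abs_of_pos ht0]
      nlinarith [abs_nonneg (u - lam)]
  · refine ff_eq_one (p := 2 * (B : ℤ) + 2 * j) ?_ ?_
    · exact Finset.mem_union_right _ (Finset.mem_image.2 ⟨j, Finset.mem_range.2 hj, rfl⟩)
    · have : (m : ℝ) - d / lam * u - ((2 * (B : ℤ) + 2 * j : ℤ) : ℝ) = -(d / lam * (u + lam)) := by
        push_cast
        rw [mul_add, htl, hd]; ring
      rw [this, abs_neg, abs_mul, abs_of_pos ht0]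
      nlinarith [abs_nonneg (u + lam)]

/-- at a half-integer point at most one side sees a bump -/
lemma miss {N B : ℕ} {lam : ℝ} (hlam : 16 * (B + N ^ 2) + 8 ≤ lam) {m : ℕ}
    (hm : m < N ^ 2) {t : ℝ} (ht : 0 < t) :
    (∀ u : ℝ, |u - lam| ≤ 1 → ff N B (m + 1 / 2 - t * u) = 0) ∨
      (∀ u : ℝ, |u + lam| ≤ 1 → ff N B (m + 1 / 2 - t * u) = 0) := by
  by_contra h
  push Not at h
  obtain ⟨⟨u, hu, h1⟩, ⟨v, hv, h2⟩⟩ := h
  obtain ⟨p, hp, hp'⟩ := ff_ne_zero h1
  obtain ⟨q, hq, hq'⟩ := ff_ne_zero h2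
  obtain ⟨⟨a, ha⟩, hp2, -⟩ := P_prop hp
  obtain ⟨⟨b, hb⟩, -, -⟩ := P_prop hq
  have hodd : (1 : ℝ) ≤ |(p : ℝ) + q - (2 * m + 1)| := by
    have : (1 : ℤ) ≤ |p + q - (2 * m + 1)| := by
      rw [ha, hb]
      rcases le_or_gt (a + b) m with h | h
      · rw [le_abs]; right; omega
      · rw [le_abs]; left; omega
    exact_mod_cast this
  rw [abs_le] at hu hv hp' hq'
  have ht1 : 3 / 8 ≤ t := by
    by_contra hc
    push Not at hc
    have e1 : t * (u + v) ≤ 2 * t := by nlinarith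
    have e2 : -(2 * t) ≤ t * (u + v) := by nlinarith
    rw [le_abs] at hodd
    rcases hodd with h | h <;> nlinarith
  have hp3 : |(p : ℝ)| ≤ 2 * B + 2 * N ^ 2 := by exact_mod_cast hp2
  rw [abs_le] at hp3
  have hmr' : (m : ℝ) + 1 ≤ N ^ 2 := by exact_mod_cast hm
  have hB0 : (0 : ℝ) ≤ B := Nat.cast_nonneg B
  have hN0 : (0 : ℝ) ≤ (N : ℝ) ^ 2 := by positivity
  have e3 : 3 / 8 * (lam - 1) ≤ t * u := by nlinarith
  nlinarith

/-- the part of the kernel near the origin sees little -/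
lemma near {N B : ℕ} (hB : 2 * N ^ 2 < B) {R : ℝ} (hR : 0 < R) {m : ℕ}
    (hm : m < N ^ 2) {t : ℝ} (ht : 0 < t) :
    ∫ u, (Icc (-R) R).indicator (fun _ => (1 : ℝ)) u * ff N B (m + 1 / 2 - t * u) ≤ N * R / B := by
  have hBr : 2 * ((N : ℝ)) ^ 2 + 1 ≤ B := by exact_mod_cast hB
  have hN0 : (0 : ℝ) ≤ (N : ℝ) ^ 2 := by positivity
  have hB0 : (0 : ℝ) < B := by linarith
  have hmr' : (m : ℝ) + 1 ≤ N ^ 2 := by exact_mod_cast hm
  have hm0 : (0 : ℝ) ≤ m := Nat.cast_nonneg m
  by_cases hc : t * R < B / 2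
  · have : ∀ u, (Icc (-R) R).indicator (fun _ => (1 : ℝ)) u * ff N B (m + 1 / 2 - t * u) = 0 := by
      intro u
      by_cases hu : u ∈ Icc (-R) R
      · by_contra h
        have h1 := (mul_ne_zero_iff.1 h).2
        obtain ⟨p, hp, hp'⟩ := ff_ne_zero h1
        obtain ⟨-, -, hp2⟩ := P_prop hp
        rw [abs_le] at hp'
        have e1 : t * u ≤ t * R := by nlinarith [hu.2]
        have e2 : -(t * R) ≤ t * u := by nlinarith [hu.1]
        rcases hp2 with h | h
        · have : (p : ℝ) ≤ -2 * B + 2 * N ^ 2 := by exact_mod_cast h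
          linarith
        · have : 2 * (B : ℝ) ≤ p := by exact_mod_cast h
          linarith
      · rw [indicator_of_notMem hu, zero_mul]
    simp only [this, integral_zero]
    positivity
  · push Not at hc
    have hi : Integrable (fun u => g N B (m + 1 / 2 - t * u)) :=
      ((g_int N B).1.comp_sub_left (m + 1 / 2)).comp_mul_left' ht.ne'
    have h1 : ∫ u, (Icc (-R) R).indicator (fun _ => (1 : ℝ)) u * ff N B (m + 1 / 2 - t * u) ≤
        ∫ u, g N B (m + 1 / 2 - t * u) := by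
      refine integral_mono_of_nonneg (Eventually.of_forall fun u => ?_) hi
        (Eventually.of_forall fun u => ?_)
      · exact mul_nonneg (indicator_nonneg (fun _ _ => zero_le_one) _) (ff_nonneg _ _ _)
      · dsimp only
        by_cases hu : u ∈ Icc (-R) R
        · rw [indicator_of_mem hu, one_mul]; exact ff_le_g _ _ _
        · rw [indicator_of_notMem hu, zero_mul]; exact g_nonneg _ _ _
    refine h1.trans ?_
    rw [Measure.integral_comp_mul_left (fun y => g N B (m + 1 / 2 - y)) t,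
      integral_sub_left_eq_self (g N B) volume, abs_of_pos (inv_pos.2 ht), smul_eq_mul]
    have h2 := (g_int N B).2
    have h3 : t⁻¹ ≤ 2 * R / B := by
      rw [inv_eq_one_div, div_le_div_iff₀ ht hB0]; linarith
    calc t⁻¹ * ∫ x, g N B x ≤ t⁻¹ * (N / 2) := by gcongr
      _ ≤ 2 * R / B * (N / 2) := by gcongr
      _ = N * R / B := by ring

end Pool.Agent.Lib.H29.MaxVar
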