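import Mathlib
import Pool.Agent.Lib.helper29.MaxVar1

set_option autoImplicit false

namespace Pool.Agent.Lib.H29.MaxVar

open MeasureTheory Set Filter

noncomputable def b0 : ContDiffBump (0 : ℝ) := ⟨1 / 2, 1, by norm_num, by norm_num⟩
noncomputable def bb : ℝ → ℝ := b0.normed volume

lemma bb_nonneg (x : ℝ) : 0 ≤ bb x := b0.nonneg_normed x
lemma bb_le (x : ℝ) : bb x ≤ 1 := by
  have := b0.normed_le_div_measure_closedBall_rIn volume x
  have h : b0.rIn = 1 / 2 := rfl
  rw [h, Real.volume_real_closedBall (by norm_num)] at this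
  norm_num at this
  exact this
lemma bb_zero {x : ℝ} (hx : 1 < |x|) : bb x = 0 := by
  by_contra h
  have : x ∈ Function.support (b0.normed volume) := h
  rw [b0.support_normed_eq] at this
  have h2 : b0.rOut = 1 := rfl
  rw [h2, mem_ball_zero_iff, Real.norm_eq_abs] at this
  linarith
lemma bb_int : Integrable bb := b0.integrable_normed
lemma bb_integral : ∫ x, bb x = 1 := b0.integral_normed
lemma bb_neg (x : ℝ) : bb (-x) = bb x := b0.normed_neg x
lemma bb_smooth : ContDiff ℝ (⊤ : ℕ∞) bb := b0.contDiff_normed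

/-- weights -/
noncomputable def cc (k : ℕ) : ℝ := 8 / 9 * (1 / 9) ^ k
/-- number of bumps at stage `k` -/
def NN (k : ℕ) : ℕ := 20 * (k + 1) * 9 ^ k
/-- distance of the bumps at stage `k`, given the size of the earlier part of the kernel -/
def BB (k R : ℕ) : ℕ := 2 * NN k ^ 2 + 1 + 9 * 9 ^ k * NN k * R
/-- bound for the support of the first `k` pieces -/
def RR : ℕ → ℕ
  | 0 => 1
  | k + 1 => 16 * (BB k (RR k) + NN k ^ 2) + 8 + RR k + 1
/-- position of the `k`-th piece -/
def lam (k : ℕ) : ℕ := 16 * (BB k (RR k) + NN k ^ 2) + 8 + RR k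

lemma RR_succ (k : ℕ) : RR (k + 1) = lam k + 1 := rfl
lemma RR_strict : StrictMono RR := strictMono_nat_of_lt_succ fun k => by
  rw [RR]; omega
lemma lam_ge (k : ℕ) : k + 8 ≤ lam k := by
  have := RR_strict.le_apply (x := k)
  unfold lam; omega
lemma RR_pos (k : ℕ) : 0 < RR k := by
  cases k with
  | zero => simp [RR]
  | succ k => rw [RR]; omega

noncomputable def psi (k : ℕ) (u : ℝ) : ℝ := (bb (u - lam k) + bb (u + lam k)) / 2
noncomputable def phi (u : ℝ) : ℝ := ∑' k, cc k * psi k u

lemma cc_pos (k : ℕ) : 0 < cc k := by unfold cc; positivity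
lemma cc_hasSum : HasSum cc 1 := by
  have := (hasSum_geometric_of_lt_one (r := (1 / 9 : ℝ)) (by norm_num) (by norm_num)).mul_left (8 / 9)
  rw [show (8 / 9 : ℝ) * (1 - 1 / 9)⁻¹ = 1 by norm_num] at this
  exact this
lemma cc_sum (k : ℕ) : ∑ j ∈ Finset.range k, cc j = 1 - (1 / 9) ^ k := by
  induction k with
  | zero => simp
  | succ k ih => rw [Finset.sum_range_succ, ih, cc]; ring

lemma psi_nonneg (k : ℕ) (u : ℝ) : 0 ≤ psi k u := by
  unfold psi; linarith [bb_nonneg (u - lam k), bb_nonneg (u + lam k)]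
lemma psi_le (k : ℕ) (u : ℝ) : psi k u ≤ 1 := by
  unfold psi; linarith [bb_le (u - lam k), bb_le (u + lam k)]
lemma psi_int (k : ℕ) : Integrable (psi k) :=
  ((bb_int.comp_sub_right _).add (bb_int.comp_add_right _)).div_const 2
lemma psi_integral (k : ℕ) : ∫ u, psi k u = 1 := by
  unfold psi
  rw [integral_div, integral_add (bb_int.comp_sub_right _) (bb_int.comp_add_right _),
    integral_sub_right_eq_self bb, integral_add_right_eq_self bb, bb_integral]
  norm_num
lemma psi_zero {k : ℕ} {u : ℝ} (h1 : ¬ |u - lam k| ≤ 1) (h2 : ¬ |u + lam k| ≤ 1) : psi k u = 0 := by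
  unfold psi
  rw [bb_zero (not_le.1 h1), bb_zero (not_le.1 h2)]; simp
lemma psi_smooth (k : ℕ) : ContDiff ℝ (⊤ : ℕ∞) (psi k) := by
  unfold psi
  exact ((bb_smooth.comp (contDiff_id.sub contDiff_const)).add
    (bb_smooth.comp (contDiff_id.add contDiff_const))).div_const 2

lemma phi_summable (u : ℝ) : Summable fun k => cc k * psi k u :=
  Summable.of_nonneg_of_le (fun k => mul_nonneg (cc_pos k).le (psi_nonneg k u))
    (fun k => mul_le_of_le_one_right (cc_pos k).le (psi_le k u)) cc_hasSum.summable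

lemma phi_nonneg (u : ℝ) : 0 ≤ phi u :=
  tsum_nonneg fun k => mul_nonneg (cc_pos k).le (psi_nonneg k u)
lemma phi_le (u : ℝ) : phi u ≤ 1 := by
  rw [← cc_hasSum.tsum_eq]
  exact (phi_summable u).tsum_le_tsum
    (fun k => mul_le_of_le_one_right (cc_pos k).le (psi_le k u)) cc_hasSum.summable
lemma phi_neg (u : ℝ) : phi (-u) = phi u := by
  unfold phi
  refine tsum_congr fun k => ?_
  unfold psi
  rw [← bb_neg (-u - lam k), ← bb_neg (-u + lam k)]
  congr 2
  rw [add_comm]
  congr 2 <;> ring

lemma phi_integral : ∫ u, phi u = 1 := by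
  have h := hasSum_integral_of_summable_integral_norm (μ := volume)
    (F := fun k u => cc k * psi k u) (fun k => (psi_int k).const_mul _) (by
      have : ∀ k, ∫ u, ‖cc k * psi k u‖ = cc k := by
        intro k
        simp only [Real.norm_eq_abs, abs_of_nonneg (mul_nonneg (cc_pos k).le (psi_nonneg k _))]
        rw [integral_const_mul, psi_integral, mul_one]
      simp only [this]
      exact cc_hasSum.summable)
  simp only [integral_const_mul, psi_integral, mul_one] at h
  exact h.unique cc_hasSum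

lemma phi_int : Integrable phi := Integrable.of_integral_ne_zero (by rw [phi_integral]; norm_num)

lemma phi_smooth : ContDiff ℝ (⊤ : ℕ∞) phi := by
  rw [contDiff_iff_contDiffAt]
  intro x
  obtain ⟨K, hK⟩ := exists_nat_ge |x|
  have h1 : ContDiff ℝ (⊤ : ℕ∞) (fun u => ∑ k ∈ Finset.range K, cc k * psi k u) :=
    ContDiff.sum fun k _ => contDiff_const.mul (psi_smooth k)
  refine h1.contDiffAt.congr_of_eventuallyEq ?_
  filter_upwards [Metric.ball_mem_nhds x zero_lt_one] with u hu
  refine tsum_eq_sum fun k hk => ?_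
  rw [Finset.mem_range, not_lt] at hk
  have h2 : (K : ℝ) + 8 ≤ lam k := by exact_mod_cast (by have := lam_ge k; omega : K + 8 ≤ lam k)
  rw [mem_ball_iff_norm, Real.norm_eq_abs, abs_lt] at hu
  rw [abs_le] at hK
  rw [psi_zero, mul_zero] <;> rw [abs_le] <;> intro h <;> linarith [h.1, h.2]

lemma conv_eq {t : ℝ} (ht : 0 < t) (f : ℝ → ℝ) (x : ℝ) :
    ∫ y, t⁻¹ * phi (y / t) * |f (x - y)| = ∫ u, phi u * |f (x - t * u)| := by
  have := Measure.integral_comp_mul_left (fun y => t⁻¹ * phi (y / t) * |f (x - y)|) t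
  simp only [mul_div_cancel_left₀ _ ht.ne', mul_assoc, integral_const_mul, abs_of_pos (inv_pos.2 ht),
    smul_eq_mul] at this ⊢
  rw [← mul_left_cancel₀ (inv_pos.2 ht).ne' this]

lemma int_mul {h : ℝ → ℝ} (hh : Integrable h) (N B : ℕ) (x t : ℝ) :
    Integrable fun u => h u * ff N B (x - t * u) := by
  refine hh.mul_bdd (c := 1) ?_ (Eventually.of_forall fun u => ?_)
  · exact ((ff_meas N B).comp (by fun_prop)).aestronglyMeasurable
  · rw [Real.norm_eq_abs, abs_of_nonneg (ff_nonneg _ _ _)]; exact ff_le_one _ _ _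

lemma maxOp_eq (N B : ℕ) (x : ℝ) :
    maxOp phi (ff N B) x = ⨆ t : Ioi (0 : ℝ), ∫ u, phi u * ff N B (x - t * u) := by
  unfold maxOp
  refine iSup_congr fun t => ?_
  rw [conv_eq t.2]
  simp only [abs_of_nonneg (ff_nonneg _ _ _)]

lemma bdd (N B : ℕ) (x : ℝ) :
    BddAbove (range fun t : Ioi (0 : ℝ) => ∫ u, phi u * ff N B (x - t * u)) := by
  refine ⟨1, ?_⟩
  rintro _ ⟨t, rfl⟩
  rw [← phi_integral]
  exact integral_mono (int_mul phi_int _ _ _ _) phi_int fun u =>
    mul_le_of_le_one_right (phi_nonneg u) (ff_le_one _ _ _)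

lemma lam_big (k : ℕ) : 16 * ((BB k (RR k) : ℝ) + (NN k : ℝ) ^ 2) + 8 ≤ lam k := by
  have : 16 * (BB k (RR k) + NN k ^ 2) + 8 ≤ lam k := by unfold lam; omega
  exact_mod_cast this

lemma lower (k : ℕ) {m : ℕ} (hm : m < NN k ^ 2) :
    cc k ≤ maxOp phi (ff (NN k) (BB k (RR k))) m := by
  obtain ⟨t, ht, h⟩ := hit (N := NN k) (B := BB k (RR k)) (by unfold BB; omega) (lam_big k) hm
  rw [maxOp_eq]
  refine le_trans ?_ (le_ciSup (bdd _ _ _) ⟨t, ht⟩)
  have h1 : ∫ u, cc k * psi k u = cc k := by rw [integral_const_mul, psi_integral, mul_one]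
  rw [← h1]
  refine integral_mono ((psi_int k).const_mul _) (int_mul phi_int _ _ _ _) fun u => ?_
  dsimp only
  by_cases hu : |u - lam k| ≤ 1 ∨ |u + lam k| ≤ 1
  · rw [h u hu, mul_one]
    exact (phi_summable u).le_tsum k fun j _ => mul_nonneg (cc_pos j).le (psi_nonneg j u)
  · push Not at hu
    rw [psi_zero (not_le.2 hu.1) (not_le.2 hu.2), mul_zero]
    exact mul_nonneg (phi_nonneg u) (ff_nonneg _ _ _)

lemma head_le (k : ℕ) (u : ℝ) : ∑ j ∈ Finset.range k, cc j * psi j u ≤
    (Icc (-(RR k : ℝ)) (RR k)).indicator (fun _ => (1 : ℝ)) u := by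
  by_cases hu : u ∈ Icc (-(RR k : ℝ)) (RR k)
  · rw [indicator_of_mem hu]
    refine le_trans ?_ (phi_le u)
    exact (phi_summable u).sum_le_tsum _ fun j _ => mul_nonneg (cc_pos j).le (psi_nonneg j u)
  · rw [indicator_of_notMem hu]
    refine (Finset.sum_eq_zero fun j hj => ?_).le
    have h1 : lam j + 1 ≤ RR k := by
      rw [← RR_succ]; exact RR_strict.monotone (Finset.mem_range.1 hj)
    have h2 : (lam j : ℝ) + 1 ≤ RR k := by exact_mod_cast h1
    have h3 : (0 : ℝ) ≤ lam j := Nat.cast_nonneg _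
    rw [psi_zero, mul_zero] <;> rw [abs_le] <;> intro h <;> apply hu <;>
      constructor <;> linarith [h.1, h.2]

lemma upper (k : ℕ) {m : ℕ} (hm : m < NN k ^ 2) :
    maxOp phi (ff (NN k) (BB k (RR k))) (m + 1 / 2) ≤ 3 / 4 * cc k := by
  rw [maxOp_eq]
  refine ciSup_le fun t => ?_
  have ht : (0 : ℝ) < t := t.2
  set N := NN k with hN
  set B := BB k (RR k) with hB
  set x : ℝ := m + 1 / 2 with hx
  let tl : ℝ → ℝ := fun u => phi u - ∑ j ∈ Finset.range (k + 1), cc j * psi j u
  have hfin : Integrable fun u => ∑ j ∈ Finset.range (k + 1), cc j * psi j u :=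
    integrable_finsetSum _ fun j _ => (psi_int j).const_mul _
  have htl : Integrable tl := phi_int.sub hfin
  have htl0 : ∀ u, 0 ≤ tl u := fun u => sub_nonneg.2
    ((phi_summable u).sum_le_tsum _ fun j _ => mul_nonneg (cc_pos j).le (psi_nonneg j u))
  have htlI : ∫ u, tl u = cc k / 8 := by
    rw [integral_sub phi_int hfin, integral_finsetSum _ fun j _ => (psi_int j).const_mul _]
    simp only [integral_const_mul, psi_integral, mul_one]
    rw [phi_integral, cc_sum, cc]; ring
  have hind : Integrable ((Icc (-(RR k : ℝ)) (RR k)).indicator (fun _ => (1 : ℝ))) :=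
    (integrable_indicator_iff measurableSet_Icc).2 (integrableOn_const (by simp))
  have hR : (0 : ℝ) < RR k := by exact_mod_cast RR_pos k
  have hn := near (N := N) (B := B) (by rw [hB, hN]; unfold BB; omega) hR hm ht
  have hn2 : (N : ℝ) * RR k / B ≤ cc k / 8 := by
    have h1 : 9 * 9 ^ k * N * RR k ≤ B := by rw [hB, hN]; unfold BB; omega
    have h2 : (9 : ℝ) * 9 ^ k * N * RR k ≤ B := by exact_mod_cast h1
    have hB0 : (0 : ℝ) < B := by
      have : 0 < B := by rw [hB]; unfold BB; omega
      exact_mod_cast this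
    rw [div_le_iff₀ hB0, cc, one_div, inv_pow]
    have h9 : (0 : ℝ) < 9 ^ k := by positivity
    calc (N : ℝ) * RR k = 8 / 9 * (9 ^ k)⁻¹ / 8 * (9 * 9 ^ k * N * RR k) := by field_simp
      _ ≤ _ := by gcongr
  have hmid : ∫ u, psi k u * ff N B (x - t * u) ≤ 1 / 2 := by
    have e1 : ∫ u, bb (u - lam k) / 2 = 1 / 2 := by
      rw [integral_div, integral_sub_right_eq_self bb, bb_integral]
    have e2 : ∫ u, bb (u + lam k) / 2 = 1 / 2 := by
      rw [integral_div, integral_add_right_eq_self bb, bb_integral]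
    rcases miss (N := N) (B := B) (lam_big k) hm ht with h | h
    · rw [← e2]
      refine integral_mono (int_mul (psi_int k) _ _ _ _) ((bb_int.comp_add_right _).div_const 2)
        fun u => ?_
      dsimp only
      by_cases hu : |u - lam k| ≤ 1
      · rw [h u hu, mul_zero]; linarith [bb_nonneg (u + lam k)]
      · unfold psi
        rw [bb_zero (not_le.1 hu), zero_add]
        exact mul_le_of_le_one_right (by linarith [bb_nonneg (u + lam k)]) (ff_le_one _ _ _)
    · rw [← e1]
      refine integral_mono (int_mul (psi_int k) _ _ _ _) ((bb_int.comp_sub_right _).div_const 2)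
        fun u => ?_
      dsimp only
      by_cases hu : |u + lam k| ≤ 1
      · rw [h u hu, mul_zero]; linarith [bb_nonneg (u - lam k)]
      · unfold psi
        rw [bb_zero (not_le.1 hu), add_zero]
        exact mul_le_of_le_one_right (by linarith [bb_nonneg (u - lam k)]) (ff_le_one _ _ _)
  have i1 := int_mul hind N B x t
  have i2 := (int_mul (psi_int k) N B x t).const_mul (cc k)
  have hle : ∫ u, phi u * ff N B (x - t * u) ≤
      ∫ u, ((Icc (-(RR k : ℝ)) (RR k)).indicator (fun _ => (1 : ℝ)) u * ff N B (x - t * u) +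
        cc k * (psi k u * ff N B (x - t * u))) + tl u := by
    refine integral_mono (int_mul phi_int _ _ _ _) ((i1.add i2).add htl) fun u => ?_
    dsimp only
    have a1 := head_le k u
    have a2 := htl0 u
    have a3 := ff_nonneg N B (x - t * u)
    have a4 := ff_le_one N B (x - t * u)
    have a5 : phi u = ∑ j ∈ Finset.range k, cc j * psi j u + cc k * psi k u + tl u := by
      simp only [tl, Finset.sum_range_succ]; ring
    rw [a5]
    nlinarith [mul_le_mul_of_nonneg_right a1 a3, mul_le_of_le_one_right a2 a4]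
  have i3 : Integrable fun u =>
      ((Icc (-(RR k : ℝ)) (RR k)).indicator (fun _ => (1 : ℝ)) u * ff N B (x - t * u) +
        cc k * (psi k u * ff N B (x - t * u))) := i1.add i2
  rw [integral_add i3 htl, integral_add i1 i2, integral_const_mul, htlI] at hle
  have := mul_le_mul_of_nonneg_left hmid (cc_pos k).le
  linarith

lemma var_lower (k : ℕ) : ENNReal.ofReal (NN k ^ 2 * (cc k / 4)) ≤
    eVariationOn (maxOp phi (ff (NN k) (BB k (RR k)))) univ := by
  set F := maxOp phi (ff (NN k) (BB k (RR k)))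
  have hu : Monotone fun i : ℕ => (i : ℝ) / 2 := fun i j hij => by
    dsimp only; gcongr
  refine le_trans ?_ (eVariationOn.sum_le (n := 2 * NN k ^ 2) hu fun _ => mem_univ _)
  have key : ∀ n, n ≤ NN k ^ 2 → ENNReal.ofReal (n * (cc k / 4)) ≤
      ∑ i ∈ Finset.range (2 * n), edist (F (((i + 1 : ℕ) : ℝ) / 2)) (F ((i : ℝ) / 2)) := by
    intro n
    induction n with
    | zero => simp
    | succ n ih =>
      intro hn
      have hc := cc_pos k
      rw [show 2 * (n + 1) = 2 * n + 1 + 1 by ring, Finset.sum_range_succ, Finset.sum_range_succ,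
        Nat.cast_succ n, add_mul, one_mul, ENNReal.ofReal_add (by positivity) (by positivity)]
      refine le_trans (add_le_add (ih (by omega)) ?_) le_self_add
      rw [edist_dist, Real.dist_eq]
      refine ENNReal.ofReal_le_ofReal ?_
      have e1 : (((2 * n + 1 : ℕ) : ℝ) / 2) = n + 1 / 2 := by push_cast; ring
      have e2 : (((2 * n : ℕ) : ℝ) / 2) = n := by push_cast; ring
      rw [e1, e2, abs_sub_comm, le_abs]
      left
      have := lower k (m := n) (by omega)
      have := upper k (m := n) (by omega)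
      linarith
  have := key _ le_rfl
  push_cast at this ⊢
  exact this

theorem main (C : NNReal) : ∃ f : ℝ → ℝ, BoundedVariationOn f univ ∧
    C * eVariationOn f univ < eVariationOn (maxOp phi f) univ := by
  obtain ⟨k, hk⟩ := exists_nat_ge (C : ℝ)
  refine ⟨ff (NN k) (BB k (RR k)), ne_top_of_le_ne_top ENNReal.ofReal_ne_top (ff_var _ _), ?_⟩
  refine lt_of_lt_of_le ?_ (var_lower k)
  refine lt_of_le_of_lt (mul_le_mul_right (ff_var _ _) _) ?_
  rw [← ENNReal.ofReal_coe_nnreal, ← ENNReal.ofReal_mul (NNReal.coe_nonneg C)]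
  have hN : (0 : ℝ) < NN k := by unfold NN; positivity
  have hc := cc_pos k
  rw [ENNReal.ofReal_lt_ofReal_iff (by positivity)]
  have h1 : (NN k : ℝ) * cc k = 160 / 9 * (k + 1) := by
    unfold NN cc
    push_cast
    rw [one_div, inv_pow]
    field_simp
    ring
  have h2 : (NN k : ℝ) ^ 2 * (cc k / 4) = NN k * (40 / 9 * (k + 1)) := by
    calc (NN k : ℝ) ^ 2 * (cc k / 4) = NN k * (NN k * cc k) / 4 := by ring
      _ = _ := by rw [h1]; ring
  rw [h2]
  have h3 : (0 : ℝ) ≤ k := Nat.cast_nonneg k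
  nlinarith

end Pool.Agent.Lib.H29.MaxVar
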