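import Pool.Agent.Lib.helper29.Pick2

open Filter Topology Finset
open scoped ComplexOrder ComplexConjugate InnerProductSpace

namespace Pool.Agent.Lib.H29.MinCert

open Pool.Agent.Lib.H29.Pick

def H0 {X : Type} (_k : X → X → ℂ) : Type := X →₀ ℂ

noncomputable instance {X : Type} (k : X → X → ℂ) : AddCommGroup (H0 k) :=
  inferInstanceAs (AddCommGroup (X →₀ ℂ))

noncomputable instance {X : Type} (k : X → X → ℂ) : Module ℂ (H0 k) :=
  inferInstanceAs (Module ℂ (X →₀ ℂ))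

lemma kolm {X : Type} {k : X → X → ℂ} (hk : IsKernel k) : ∃ (H : Type)
    (_ : NormedAddCommGroup H) (_ : InnerProductSpace ℂ H) (φ : X → H),
    ∀ x y, k x y = ⟪φ x, φ y⟫_ℂ := by
  let c : PreInnerProductSpace.Core ℂ (X →₀ ℂ) :=
    { inner f g := f.sum fun i a => g.sum fun j b => star a * k i j * b
      conj_inner_symm f g := by
        rw [Finsupp.sum_comm]
        simp only [map_finsuppSum]
        congr! 6 with i a j b
        have : conj (k j i) = k i j := hk.1.apply i j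
        simp [this]; ring
      add_left _ _ _ := by
        rw [Finsupp.sum_add_index'] <;> simp [← Finsupp.sum_add, add_mul]
      smul_left _ _ _ := by
        rw [Finsupp.sum_smul_index] <;> simp [Finsupp.mul_sum, ← mul_assoc]
      re_inner_nonneg f := (Complex.le_def.1 (hk.2 f)).1 }
  let c' : PreInnerProductSpace.Core ℂ (H0 k) := c
  let : SeminormedAddCommGroup (H0 k) := InnerProductSpace.Core.toSeminormedAddCommGroup (𝕜 := ℂ)
  let : InnerProductSpace ℂ (H0 k) := .ofCore _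
  let φ : X → H0 k := fun x => Finsupp.single x 1
  refine ⟨UniformSpace.Completion (H0 k), inferInstance, inferInstance, fun x => φ x,
    fun x y => ?_⟩
  rw [UniformSpace.Completion.inner_coe]
  show _ = (Finsupp.single x (1 : ℂ)).sum fun i a => (Finsupp.single y (1 : ℂ)).sum
    fun j b => star a * k i j * b
  simp

variable {X H K : Type} [NormedAddCommGroup H] [InnerProductSpace ℂ H]
  [NormedAddCommGroup K] [InnerProductSpace ℂ K]

lemma gramK (v : X → H) : IsKernel fun x y => ⟪v x, v y⟫_ℂ :=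
  psd_of_fin _ fun S => Matrix.posSemidef_gram ℂ fun i : S => v i

lemma gramCS (v : X → H) (e : H) {κ : ℝ} (h : ‖e‖ ^ 2 ≤ κ) :
    IsKernel fun x y => (κ : ℂ) * ⟪v x, v y⟫_ℂ - ⟪v x, e⟫_ℂ * conj ⟪v y, e⟫_ℂ := by
  have h1 : IsKernel _ := Matrix.posSemidef_opNorm_smul_gram_sub_gram v (innerSL ℂ e)
  refine (h1.add' ((gramK v).smul' (sub_nonneg.2 h))).congr' fun x y => ?_
  simp [innerSL_apply_norm]
  ring

lemma normalize {h : X → X → ℂ} (hk : IsKernel h) (o : X) {a : ℝ} (ha : 0 < a)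
    (ho : 1 - h o o = a) (hz : ∀ z, 1 - h z o ≠ 0) :
    IsKernel fun z w => 1 - (1 - h z w) * (1 - h o o) / ((1 - h z o) * (1 - h o w)) := by
  have hc : ∀ z, conj (h z o) = h o z := fun z => hk.1.apply o z
  have hz' : ∀ z, 1 - h o z ≠ 0 := fun z e => hz z (by
    simpa [← hc] using congrArg conj e)
  obtain ⟨H, _, _, v, hv⟩ := kolm hk
  refine ((((gramK fun z => v z - v o).smul' ha.le).add' (rank1 fun z => h z o - h o o)).mul'
    (rank1 fun z => (1 - h z o)⁻¹)).congr' fun z w => ?_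
  have h1 := hz z
  have h2 := hz' w
  simp only [inner_sub_left, inner_sub_right, ← hv, ← ho, RCLike.star_def, map_sub, map_inv₀,
    map_one, hc]
  field_simp
  ring

noncomputable def tau (N : ℕ) : ℝ := 8 * (N + 1) * (1 / 2) ^ N

lemma trunc {t : ℂ} (ht : ‖t‖ ≤ 1 / 2) (N : ℕ) :
    ‖((1 - t) ^ 2)⁻¹ - ∑ n ∈ range N, ((n : ℂ) + 1) * t ^ n‖ ≤ tau N := by
  have h0 : 1 / 2 ≤ ‖1 - t‖ := by
    have := norm_sub_norm_le 1 t
    rw [norm_one] at this; linarith
  have h1 : 1 - t ≠ 0 := norm_pos_iff.1 (by linarith)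
  have h2 : ((1 - t) ^ 2)⁻¹ - ∑ n ∈ range N, ((n : ℂ) + 1) * t ^ n
      = t ^ N * ((N + 1 : ℕ) - N * t) / (1 - t) ^ 2 := by
    induction N with
    | zero => simp
    | succ N ih => rw [sum_range_succ, ← sub_sub, ih]; push_cast; field_simp; ring
  have h3 : ‖((N + 1 : ℕ) : ℂ) - N * t‖ ≤ 2 * (N + 1) := by
    refine (norm_sub_le _ _).trans ?_
    rw [norm_mul, Complex.norm_natCast, Complex.norm_natCast]
    push_cast
    nlinarith [(Nat.cast_nonneg N : (0 : ℝ) ≤ N)]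
  rw [h2, norm_div, norm_mul, norm_pow, norm_pow, div_le_iff₀ (by positivity), tau]
  calc _ ≤ (1 / 2) ^ N * (2 * (N + 1 : ℝ)) := by gcongr
    _ = 8 * (N + 1) * (1 / 2) ^ N * (1 / 2) ^ 2 := by ring
    _ ≤ _ := by gcongr

lemma tau_lim : Tendsto tau atTop (𝓝 0) := by
  have h1 := tendsto_self_mul_const_pow_of_lt_one (r := 1 / 2) (by norm_num) (by norm_num)
  have h2 := tendsto_pow_atTop_nhds_zero_of_lt_one (r := (1 / 2 : ℝ)) (by norm_num) (by norm_num)
  have := (h1.add h2).const_mul 8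
  rw [add_zero, mul_zero] at this
  exact this.congr fun N => by rw [tau]; ring

lemma sum4 (N : ℕ) : ∑ n ∈ range N, ((n : ℝ) + 1) * (1 / 2) ^ n ≤ 4 := by
  have : ∑ n ∈ range N, ((n : ℝ) + 1) * (1 / 2) ^ n = 4 - (2 * N + 4) * (1 / 2) ^ N := by
    induction N with
    | zero => norm_num
    | succ N ih => rw [sum_range_succ, ih]; push_cast; ring
  rw [this]; exact sub_le_self _ (by positivity)

lemma small {N : ℕ} {t : ℂ} (ht : ‖t‖ ≤ 1 / 2) {s : ℝ} (hs : 0 ≤ s) (g : ℕ → ℂ) (S : Finset ℕ)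
    (hS : S ⊆ range N) (hg : ∀ n ∈ S, ‖g n‖ ≤ s) :
    ‖∑ n ∈ S, ((n : ℂ) + 1) * t ^ n * g n‖ ≤ 4 * s := by
  refine (norm_sum_le _ _).trans (le_trans ?_ (mul_le_mul_of_nonneg_right (sum4 N) hs))
  rw [sum_mul]
  refine (sum_le_sum fun n hn => ?_).trans
    (sum_le_sum_of_subset_of_nonneg hS fun _ _ _ => by positivity)
  have e : ‖(n : ℂ) + 1‖ = n + 1 := by exact_mod_cast Complex.norm_natCast (n + 1)
  rw [norm_mul, norm_mul, norm_pow, e]
  gcongr
  exact hg n hn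

lemma coef {x : ℝ} (h0 : 0 ≤ x) (hx : x ≤ 1 / 2) (n : ℕ) :
    ((n : ℝ) + 1) * x ^ n ≤ 1 ∧ (2 ≤ n → ((n : ℝ) + 1) * x ^ n ≤ 3 / 4) := by
  have h1 : ((n : ℝ) + 1) * x ^ n ≤ (n + 1) * (1 / 2) ^ n := by gcongr
  have h2 : ∀ n : ℕ, 2 ≤ n → ((n : ℝ) + 1) * (1 / 2) ^ n ≤ 3 / 4 := fun n hn => by
    induction n, hn using Nat.le_induction with
    | base => norm_num
    | succ n _ ih =>
      have : (0 : ℝ) ≤ n * (1 / 2) ^ n := by positivity
      push_cast; rw [pow_succ]; nlinarith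
  refine ⟨h1.trans ?_, fun hn => h1.trans (h2 n hn)⟩
  rcases n with _ | _ | n
  · norm_num
  · norm_num
  · exact (h2 _ (by omega)).trans (by norm_num)

variable {N : ℕ} [NeZero N]

noncomputable abbrev χ : AddChar (ZMod N) ℂ := ZMod.stdAddChar

/-- Discrete Fourier mode. -/
noncomputable def A {E : Type} [AddCommGroup E] [Module ℂ E] (m : ZMod N) (v : ZMod N → E) : E :=
  (N : ℂ)⁻¹ • ∑ j, χ (j * m) • v j

lemma A_one (m : ZMod N) : A m (fun _ => (1 : ℂ)) = if m = 0 then 1 else 0 := by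
  simp only [A, smul_eq_mul, mul_one]
  rw [AddChar.sum_mulShift m (ZMod.isPrimitive_stdAddChar N)]
  split_ifs <;> simp [NeZero.ne]

lemma A_norm {E : Type} [SeminormedAddCommGroup E] [NormedSpace ℂ E] (m : ZMod N)
    (v : ZMod N → E) {c : ℝ} (h : ∀ j, ‖v j‖ ≤ c) : ‖A m v‖ ≤ c := by
  have hN : (0 : ℝ) < N := Nat.cast_pos.2 (NeZero.pos N)
  rw [A, norm_smul, norm_inv, Complex.norm_natCast, inv_mul_le_iff₀ hN]
  refine (norm_sum_le _ _).trans ((sum_le_sum fun j _ => (?_ : _ ≤ c)).trans (by simp))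
  rw [norm_smul, AddChar.norm_apply, one_mul]; exact h j

lemma inner_A (u : H) (m : ZMod N) (v : ZMod N → H) :
    ⟪u, A m v⟫_ℂ = A m fun j => ⟪u, v j⟫_ℂ := by
  simp only [A, inner_smul_right, inner_sum, smul_eq_mul]

lemma A_inner (u : H) (m : ZMod N) (v : ZMod N → H) :
    ⟪A m v, u⟫_ℂ = A (-m) fun j => ⟪v j, u⟫_ℂ := by
  simp only [A, inner_smul_left, sum_inner, smul_eq_mul, mul_neg, AddChar.map_neg_eq_conj,
    map_inv₀, map_natCast]

lemma A_shift (m n : ZMod N) (c : ℂ) (g : ZMod N → ℂ) :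
    A m (fun j => c * χ (j * n) * g j) = c * A (m + n) g := by
  simp only [A, smul_eq_mul, mul_add, AddChar.map_add_eq_mul, mul_sum]
  exact sum_congr rfl fun j _ => by ring

lemma A_sum {ι : Type} (S : Finset ι) (m : ZMod N) (g : ι → ZMod N → ℂ) :
    A m (fun j => ∑ i ∈ S, g i j) = ∑ i ∈ S, A m (g i) := by
  simp only [A, smul_eq_mul, mul_sum]
  exact sum_comm

lemma A_add (m : ZMod N) (f g : ZMod N → ℂ) : A m (fun j => f j + g j) = A m f + A m g := by
  simp only [A, smul_eq_mul, mul_add, sum_add_distrib]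

lemma parseval (v : ZMod N → H) (h : ∀ j, ‖v j‖ ≤ 1) : ∑ m, ‖A m v‖ ^ 2 ≤ 1 := by
  have hN : (N : ℂ) ≠ 0 := NeZero.ne _
  have h1 : ∀ j, ∑ m, χ (j * -m) * ⟪v j, A m v⟫_ℂ = ⟪v j, v j⟫_ℂ := fun j => by
    have h2 : ∀ l : ZMod N, ∑ m, χ (m * (l - j)) = if l = j then (N : ℂ) else 0 := fun l => by
      rw [AddChar.sum_mulShift _ (ZMod.isPrimitive_stdAddChar N)]
      simp [sub_eq_zero]
    calc _ = (N : ℂ)⁻¹ * ∑ l, (∑ m, χ (m * (l - j))) * ⟪v j, v l⟫_ℂ := by
          simp only [inner_A]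
          simp only [A, smul_eq_mul, mul_sum, sum_mul]
          rw [sum_comm]
          refine sum_congr rfl fun l _ => sum_congr rfl fun m _ => ?_
          rw [show m * (l - j) = j * -m + l * m by ring, AddChar.map_add_eq_mul]; ring
      _ = _ := by simp [h2, hN]
  have h3 : ∑ m, ⟪A m v, A m v⟫_ℂ = A 0 fun j => ⟪v j, v j⟫_ℂ := by
    simp only [A_inner, ← h1]
    simp only [A, smul_eq_mul, mul_sum, mul_zero, AddChar.map_zero_eq_one, one_mul]
    exact sum_comm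
  have h4 : ((∑ m, ‖A m v‖ ^ 2 : ℝ) : ℂ) = A 0 fun j => ⟪v j, v j⟫_ℂ := by
    rw [← h3]; simp [inner_self_eq_norm_sq_to_K]
  refine (le_abs_self _).trans ?_
  rw [← Real.norm_eq_abs, ← Complex.norm_real, h4]
  refine A_norm _ _ fun j => (norm_inner_le_norm _ _).trans ?_
  exact mul_le_one₀ (h j) (norm_nonneg _) (h j)

end Pool.Agent.Lib.H29.MinCert
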