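import Pool.Agent.Lib.helper29.MinCert1

open Filter Topology Finset
open scoped ComplexOrder ComplexConjugate InnerProductSpace

namespace Pool.Agent.Lib.H29.MinCert

open Pool.Agent.Lib.H29.Pick

/-- The disc of radius `1/√2`. -/
abbrev X := {z : ℂ // ‖z‖ < 1 / √2}

lemma X_lt (z w : X) : ‖(z : ℂ) * conj (w : ℂ)‖ < 1 / 2 := by
  rw [norm_mul, Complex.norm_conj]
  refine (mul_lt_mul'' z.2 w.2 (norm_nonneg _) (norm_nonneg _)).trans_eq ?_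
  rw [div_mul_div_comm, Real.mul_self_sqrt (by norm_num), one_mul]

variable {H K : Type} [NormedAddCommGroup H] [InnerProductSpace ℂ H]
  [NormedAddCommGroup K] [InnerProductSpace ℂ K]

lemma A_ite {N : ℕ} [NeZero N] (hN : 3 ≤ N) (c : ℕ → ℂ) :
    ∑ n ∈ range N, c n * A (1 - n : ZMod N) (fun _ => (1 : ℂ)) = c 1 := by
  rw [sum_eq_single 1]
  · simp [A_one]
  · intro n hn h1
    rw [A_one, if_neg, mul_zero]
    intro e
    have : ((1 : ℕ) : ZMod N) = n := by simpa [sub_eq_zero] using e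
    rw [ZMod.natCast_eq_natCast_iff', Nat.mod_eq_of_lt (by omega),
      Nat.mod_eq_of_lt (mem_range.1 hn)] at this
    exact h1 this.symm
  · intro h; exact (h (mem_range.2 (by omega))).elim

lemma approx (φ : X → H) (η : X → K) (hφ : ∀ z, ‖φ z‖ < 1)
    (hη : ∀ z w, ⟪η z, η w⟫_ℂ = 1 - ((1 - (z : ℂ) * conj (w : ℂ)) ^ 2)⁻¹ * (1 - ⟪φ z, φ w⟫_ℂ))
    {N : ℕ} (hN : 3 ≤ N) {r : ℝ} (hr0 : 0 ≤ r) (hr : r < 1 / √2) :
    ∃ e0 e1 : H, ‖e0‖ ^ 2 + ‖e1‖ ^ 2 ≤ 1 ∧ ∀ z : X,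
      ‖⟪φ z - e0, e1⟫_ℂ - 2 * (z * r) * (1 - ⟪φ z, e0⟫_ℂ)‖
        ≤ 18 * √(1 - 2 * r ^ 2 + 2 * tau N) + 4 * tau N := by
  have : NeZero N := ⟨by omega⟩
  have : Fact (1 < N) := ⟨by omega⟩
  let w : ZMod N → X := fun j => ⟨r * χ j, by
    rwa [norm_mul, AddChar.norm_apply, mul_one, Complex.norm_real, Real.norm_of_nonneg hr0]⟩
  let ρ : X := ⟨r, by rwa [Complex.norm_real, Real.norm_of_nonneg hr0]⟩
  have hx : r ^ 2 ≤ 1 / 2 := by
    have := (X_lt ρ ρ).le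
    simpa [ρ, abs_of_nonneg hr0, ← sq] using this
  have hzr : ∀ z : X, ‖(z : ℂ) * r‖ ≤ 1 / 2 := fun z => by simpa [ρ] using (X_lt z ρ).le
  set E : ZMod N → H := fun m => A m fun j => φ (w j) with hE
  set Y : ZMod N → K := fun m => A m fun j => η (w j) with hY
  have hη1 : ∀ z, ‖η z‖ ≤ 1 := fun z => by
    have h1 := hη z z
    rw [inner_self_eq_norm_sq_to_K, inner_self_eq_norm_sq_to_K, Complex.mul_conj'] at h1
    have h2 : ‖η z‖ ^ 2 = 1 - ((1 - ‖(z : ℂ)‖ ^ 2) ^ 2)⁻¹ * (1 - ‖φ z‖ ^ 2) := by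
      apply Complex.ofReal_injective
      push_cast; exact h1
    have h3 : 0 ≤ 1 - ‖φ z‖ ^ 2 := by nlinarith [hφ z, norm_nonneg (φ z)]
    have h4 : 0 ≤ ((1 - ‖(z : ℂ)‖ ^ 2) ^ 2)⁻¹ * (1 - ‖φ z‖ ^ 2) := by positivity
    nlinarith [norm_nonneg (η z)]
  have hE1 : ∀ m, ‖E m‖ ≤ 1 := fun m => A_norm _ _ fun j => (hφ _).le
  have star : ∀ z : X, ∃ e : ℂ, ‖e‖ ≤ 2 * tau N ∧ ⟪η z, Y 1⟫_ℂ = -(2 * (z * r)) +
      ∑ n ∈ range N, ((n : ℂ) + 1) * (z * r) ^ n * ⟪φ z, E (1 - n)⟫_ℂ + e := fun z => by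
    refine ⟨A 1 fun l => -((((1 - (z : ℂ) * conj (w l : ℂ)) ^ 2)⁻¹ -
      ∑ n ∈ range N, ((n : ℂ) + 1) * (z * conj (w l : ℂ)) ^ n) * (1 - ⟪φ z, φ (w l)⟫_ℂ)),
      A_norm _ _ fun l => ?_, ?_⟩
    · rw [norm_neg, norm_mul, mul_comm]
      refine mul_le_mul ((norm_sub_le _ _).trans ?_) (trunc (X_lt _ _).le N) (norm_nonneg _)
        (by norm_num)
      have := norm_inner_le_norm (𝕜 := ℂ) (φ z) (φ (w l))
      rw [norm_one]
      nlinarith [hφ z, hφ (w l), norm_nonneg (φ z), norm_nonneg (φ (w l))]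
    have e1 : ∀ l : ZMod N, ∀ n : ℕ, ((z : ℂ) * conj (w l : ℂ)) ^ n = (z * r) ^ n * χ (l * -(n : ZMod N)) :=
      fun l n => by
        rw [show l * -(n : ZMod N) = n • -l by simp [mul_comm], AddChar.map_nsmul_eq_pow,
          AddChar.map_neg_eq_conj, ← mul_pow]
        simp [w, mul_assoc]
    have e2 : ∀ l, ⟪η z, η (w l)⟫_ℂ = 1 + ∑ n ∈ range N, -(((n : ℂ) + 1) * (z * r) ^ n)
        * χ (l * -(n : ZMod N)) * 1 + ∑ n ∈ range N, ((n : ℂ) + 1) * (z * r) ^ n * χ (l * -(n : ZMod N))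
        * ⟪φ z, φ (w l)⟫_ℂ + -((((1 - (z : ℂ) * conj (w l : ℂ)) ^ 2)⁻¹ -
        ∑ n ∈ range N, ((n : ℂ) + 1) * (z * conj (w l : ℂ)) ^ n) * (1 - ⟪φ z, φ (w l)⟫_ℂ)) := by
      intro l
      simp only [hη, e1, neg_mul, mul_one, sum_neg_distrib, ← sum_mul, ← mul_assoc]
      ring
    rw [hY, inner_A]
    simp only [e2, A_add, A_sum, A_shift]
    simp only [← sub_eq_add_neg]
    rw [A_ite hN, A_one, if_neg one_ne_zero]
    simp only [hE, inner_A]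
    push_cast
    ring
  choose e he hs using star
  have avg : ∀ m : ZMod N, ∃ e : ℂ, ‖e‖ ≤ 2 * tau N ∧ ⟪Y m, Y 1⟫_ℂ =
      -(2 * r ^ 2) * (if -m + 1 = 0 then 1 else 0) +
      ∑ n ∈ range N, ((n : ℂ) + 1) * (r ^ 2) ^ n * ⟪E (m - n), E (1 - n)⟫_ℂ + e := fun m => by
    refine ⟨A (-m) fun j => e (w j), A_norm _ _ fun j => he _, ?_⟩
    have e1 : ∀ j : ZMod N, ⟪η (w j), Y 1⟫_ℂ = -(2 * r ^ 2) * χ (j * (1 : ZMod N)) * 1 + ∑ n ∈ range N,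
        ((n : ℂ) + 1) * (r ^ 2) ^ n * χ (j * (n : ZMod N)) * ⟪φ (w j), E (1 - n)⟫_ℂ + e (w j) := fun j => by
      rw [hs]
      congr 2
      · simp [w]; ring
      · refine sum_congr rfl fun n _ => ?_
        rw [show j * (n : ZMod N) = n • j by simp [mul_comm], AddChar.map_nsmul_eq_pow]
        simp only [w]; ring
    rw [show Y m = A m fun j => η (w j) from rfl, A_inner]
    simp only [e1, A_add, A_sum, A_shift, A_one]
    congr 2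
    refine sum_congr rfl fun n _ => ?_
    rw [show E (m - n) = A (m - n : ZMod N) fun j => φ (w j) from rfl, A_inner, neg_sub, neg_add_eq_sub]
  have par : ∑ n ∈ range N, ‖E (1 - n)‖ ^ 2 ≤ 1 := by
    refine le_trans ?_ (parseval (fun j => φ (w j)) fun j => (hφ _).le)
    rw [← sum_image (s := range N) (g := fun n : ℕ => (1 - n : ZMod N))
      (f := fun m => ‖E m‖ ^ 2) fun a ha b hb h => ?_]
    · exact sum_le_univ_sum_of_nonneg fun _ => by positivity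
    · have := sub_right_injective h
      rwa [ZMod.natCast_eq_natCast_iff', Nat.mod_eq_of_lt (mem_range.1 ha),
        Nat.mod_eq_of_lt (mem_range.1 hb)] at this
  set s := √(1 - 2 * r ^ 2 + 2 * tau N) with hsd
  have hs0 : 0 ≤ s := Real.sqrt_nonneg _
  have key : ∀ n ∈ range N, 2 ≤ n → ‖Y 1‖ ≤ s ∧ ‖E (1 - n)‖ ≤ 2 * s := fun n hn h2 => by
    obtain ⟨e, he, h⟩ := avg 1
    simp only [inner_self_eq_norm_sq_to_K, neg_add_cancel, if_true] at h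
    have h1 : ‖Y 1‖ ^ 2 = -(2 * r ^ 2) +
        ∑ n ∈ range N, ((n : ℝ) + 1) * (r ^ 2) ^ n * ‖E (1 - n)‖ ^ 2 + e.re := by
      have h' : (((‖Y 1‖ ^ 2 : ℝ)) : ℂ) = ((-(2 * r ^ 2) +
        ∑ n ∈ range N, ((n : ℝ) + 1) * (r ^ 2) ^ n * ‖E (1 - n)‖ ^ 2 : ℝ) : ℂ) + e := by
        push_cast; simpa using h
      simpa only [Complex.ofReal_re, Complex.add_re] using congrArg Complex.re h'
    rw [← add_sum_erase _ _ hn] at h1 par
    have h3 : ∑ n ∈ (range N).erase n, ((n : ℝ) + 1) * (r ^ 2) ^ n * ‖E (1 - n)‖ ^ 2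
        ≤ ∑ n ∈ (range N).erase n, ‖E (1 - n)‖ ^ 2 := sum_le_sum fun i _ =>
      mul_le_of_le_one_left (by positivity) (coef (by positivity) hx i).1
    have h4 := mul_le_mul_of_nonneg_right ((coef (by positivity) hx n).2 h2)
      (sq_nonneg ‖E (1 - n)‖)
    have h5 := (Complex.re_le_norm e).trans he
    have h6 : ‖Y 1‖ ^ 2 + ‖E (1 - n)‖ ^ 2 / 4 ≤ 1 - 2 * r ^ 2 + 2 * tau N := by linarith
    refine ⟨Real.le_sqrt_of_sq_le (by nlinarith [sq_nonneg ‖E (1 - n)‖]), ?_⟩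
    have : ‖E (1 - n)‖ / 2 ≤ s := Real.le_sqrt_of_sq_le (by nlinarith [sq_nonneg ‖Y 1‖])
    linarith
  have hY1 := (key 2 (mem_range.2 (by omega)) le_rfl).1
  have inn : ∀ {a b : H}, ‖a‖ ≤ 1 → ‖b‖ ≤ 2 * s → ‖⟪a, b⟫_ℂ‖ ≤ 2 * s := fun ha hb =>
    (norm_inner_le_norm _ _).trans ((mul_le_of_le_one_left (norm_nonneg _) ha).trans hb)
  have inn' : ∀ {a : K}, ‖a‖ ≤ 1 → ‖⟪a, Y 1⟫_ℂ‖ ≤ s := fun ha =>
    (norm_inner_le_norm _ _).trans ((mul_le_of_le_one_left (norm_nonneg _) ha).trans hY1)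
  have m0 : 0 ∈ range N := mem_range.2 (by omega)
  have m1 : 1 ∈ (range N).erase 0 := mem_erase.2 ⟨one_ne_zero, mem_range.2 (by omega)⟩
  refine ⟨E 0, E 1, ?_, fun z => ?_⟩
  · rw [← add_sum_erase _ _ m0, ← add_sum_erase _ _ m1] at par
    have : 0 ≤ ∑ n ∈ ((range N).erase 0).erase 1, ‖E (1 - n)‖ ^ 2 := by positivity
    simp only [Nat.cast_zero, sub_zero, Nat.cast_one, sub_self] at par
    linarith
  obtain ⟨e', he', h0⟩ := avg 0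
  have h1 := hs z
  rw [← add_sum_erase _ _ m0] at h0 h1
  rw [← add_sum_erase _ _ m1] at h1
  have b0 := small (t := (r : ℂ) ^ 2) (by simpa [abs_of_nonneg hr0] using hx)
    (by positivity : 0 ≤ 2 * s) (fun n => ⟪E (0 - n), E (1 - n)⟫_ℂ) _ (erase_subset 0 (range N))
    fun n hn => by
      obtain ⟨h3, h4⟩ := mem_erase.1 hn
      by_cases h5 : n = 1
      · subst h5
        rw [norm_inner_symm]
        refine inn (hE1 _) ?_
        convert (key 2 (mem_range.2 (by omega)) le_rfl).2 using 3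
        push_cast; ring
      · exact inn (hE1 _) (key n h4 (by omega)).2
  have b1 := small (hzr z) (by positivity : 0 ≤ 2 * s) (fun n => ⟪φ z, E (1 - n)⟫_ℂ) _
    ((erase_subset 1 _).trans (erase_subset 0 (range N))) fun n hn => by
      obtain ⟨h3, h4⟩ := mem_erase.1 hn
      obtain ⟨h5, h6⟩ := mem_erase.1 h4
      exact inn (hφ z).le (key n h6 (by omega)).2
  have b2 := inn' (hη1 z)
  have b3 : ‖⟪Y 0, Y 1⟫_ℂ‖ ≤ s := inn' (A_norm _ _ fun j => hη1 _)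
  have b4 := he z
  generalize Finset.sum (M := ℂ) (((range N).erase 0).erase 1) _ = S1 at h1 b1
  generalize Finset.sum (M := ℂ) ((range N).erase 0) _ = S0 at h0 b0
  have e3 : ⟪φ z - E 0, E 1⟫_ℂ - 2 * (z * r) * (1 - ⟪φ z, E 0⟫_ℂ)
      = ⟪η z, Y 1⟫_ℂ - S1 - e z - (⟪Y 0, Y 1⟫_ℂ - S0 - e') := by
    rw [h0, h1, inner_sub_left]
    simp
    ring
  rw [e3]
  linarith [norm_sub_le (⟪η z, Y 1⟫_ℂ - S1 - e z) (⟪Y 0, Y 1⟫_ℂ - S0 - e'),
    norm_sub_le (⟪η z, Y 1⟫_ℂ - S1) (e z), norm_sub_le ⟪η z, Y 1⟫_ℂ S1,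
    norm_sub_le (⟪Y 0, Y 1⟫_ℂ - S0) e', norm_sub_le ⟪Y 0, Y 1⟫_ℂ S0]

end Pool.Agent.Lib.H29.MinCert
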