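import Mathlib

set_option autoImplicit false

namespace Pool.Agent.Lib.H29.Moran

open Filter Topology

/-- `E` is a set of uniqueness: a real trigonometric series whose partial sums tend to zero at
every point of `[0,1]` outside `E` has all its coefficients zero (the coefficient `b 0` multiplies
the zero function and is left out). -/
def IsUniqueness (E : Set ℝ) : Prop :=
  ∀ a b : ℕ → ℝ,
    (∀ x ∈ Set.Icc (0 : ℝ) 1 \ E, Tendsto (fun N => ∑ n ∈ Finset.range N,
      (a n * Real.cos (2 * Real.pi * n * x) + b n * Real.sin (2 * Real.pi * n * x))) atTop (𝓝 0)) →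
    (∀ n, a n = 0) ∧ ∀ n, 1 ≤ n → b n = 0

/-- The Moran set with bases `M 0, M 1, ...` and digit sets `D 0, D 1, ...`. -/
def moran (M : ℕ → ℕ) (D : ℕ → Finset ℕ) : Set ℝ :=
  {x | ∃ d : ℕ → ℕ, (∀ n, d n ∈ D n) ∧
    HasSum (fun n => (d n : ℝ) / ∏ j ∈ Finset.range (n + 1), (M j : ℝ)) x}

end Pool.Agent.Lib.H29.Moran
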