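import Mathlib
import Pool.Agent.Lib.helper29.MoranDefs

set_option autoImplicit false

namespace Pool.Agent.Lib.H29.Moran

open Filter Topology MeasureTheory

/-- bases -/
def MM (n : ℕ) : ℕ := n + 3
/-- digit sets -/
def DD (n : ℕ) : Finset ℕ := if n = 0 then {1} else Finset.range (n + 2)
/-- partial products -/
noncomputable def q (n : ℕ) : ℝ := ∏ j ∈ Finset.range n, (MM j : ℝ)

lemma q_succ (n : ℕ) : q (n + 1) = q n * (n + 3) := by
  rw [q, Finset.prod_range_succ, ← q, MM]; push_cast; ring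

lemma q_ge (n : ℕ) : (n : ℝ) + 1 ≤ q n := by
  induction n with
  | zero => simp [q]
  | succ n ih =>
    rw [q_succ]; push_cast
    have : (0 : ℝ) ≤ n := Nat.cast_nonneg n
    nlinarith

lemma q_pos (n : ℕ) : 0 < q n := lt_of_lt_of_le (by positivity) (q_ge n)

lemma q_mono : Monotone q := monotone_nat_of_le_succ fun n => by
  rw [q_succ]
  have := q_pos n
  have : (0 : ℝ) ≤ n := Nat.cast_nonneg n
  nlinarith

lemma DD_le {n d : ℕ} (h : d ∈ DD n) : d ≤ n + 2 := by
  unfold DD at h
  split_ifs at h with h0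
  · rw [Finset.mem_singleton] at h; omega
  · rw [Finset.mem_range] at h; omega

lemma tele (n : ℕ) : HasSum (fun j : ℕ => (((j + n : ℕ) : ℝ) + 2) / q (j + n + 1)) (1 / q n) := by
  have e : ∀ k : ℕ, ((k : ℝ) + 2) / q (k + 1) = 1 / q k - 1 / q (k + 1) := fun k => by
    have := q_pos k
    rw [q_succ]; field_simp; ring
  rw [hasSum_iff_tendsto_nat_of_nonneg fun j => div_nonneg (by positivity) (q_pos _).le]
  have e2 : ∀ N, ∑ j ∈ Finset.range N, (((j + n : ℕ) : ℝ) + 2) / q (j + n + 1) =
      1 / q n - 1 / q (N + n) := fun N => by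
    simp only [e]
    have := Finset.sum_range_sub' (fun j => 1 / q (j + n)) N
    simp only [zero_add] at this
    rw [← this]
    refine Finset.sum_congr rfl fun j _ => ?_
    rw [show j + 1 + n = j + n + 1 by ring]
  simp only [e2]
  have h0 : Tendsto (fun N : ℕ => 1 / q (N + n)) atTop (𝓝 0) := by
    refine squeeze_zero (fun N => (one_div_pos.2 (q_pos _)).le) (fun N => ?_)
      tendsto_one_div_add_atTop_nhds_zero_nat
    refine one_div_le_one_div_of_le (by positivity) (le_trans ?_ (q_ge _))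
    push_cast
    have : (0 : ℝ) ≤ n := Nat.cast_nonneg n
    linarith
  simpa using tendsto_const_nhds.sub h0

lemma term_le {d : ℕ → ℕ} (hd : ∀ n, d n ∈ DD n) (j : ℕ) :
    (d j : ℝ) / q (j + 1) ≤ ((j : ℝ) + 2) / q (j + 1) := by
  refine div_le_div_of_nonneg_right ?_ (q_pos _).le
  exact_mod_cast DD_le (hd j)

lemma approx {d : ℕ → ℕ} (hd : ∀ n, d n ∈ DD n) {x : ℝ}
    (hx : HasSum (fun n => (d n : ℝ) / q (n + 1)) x) (n : ℕ) :
    ∑ j ∈ Finset.range n, (d j : ℝ) / q (j + 1) ≤ x ∧
      x ≤ ∑ j ∈ Finset.range n, (d j : ℝ) / q (j + 1) + 1 / q n := by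
  have h := (hasSum_nat_add_iff' n).2 hx
  have h1 := h.nonneg fun j => div_nonneg (Nat.cast_nonneg _) (q_pos _).le
  have h2 := hasSum_le (fun j => term_le hd (j + n)) h (tele n)
  constructor <;> linarith

lemma K_sub {x : ℝ} (hx : x ∈ moran MM DD) : 1 / 3 ≤ x ∧ x ≤ 2 / 3 := by
  obtain ⟨d, hd, hx⟩ := hx
  have h := approx hd hx 1
  have h0 : d 0 = 1 := by simpa [DD] using hd 0
  have h1 : q 1 = 3 := by rw [q_succ]; simp [q]
  simp only [Finset.range_one, Finset.sum_singleton, zero_add, h0, h1, Nat.cast_one] at h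
  constructor <;> linarith [h.1, h.2]

lemma K_compact : IsCompact (moran MM DD) := by
  have h1 : IsCompact (Set.univ.pi fun n => (DD n : Set ℕ)) :=
    isCompact_univ_pi fun n => (DD n).finite_toSet.isCompact
  have hs : Summable fun j : ℕ => ((j : ℝ) + 2) / q (j + 1) := by simpa using (tele 0).summable
  have h2 : ContinuousOn (fun d : ℕ → ℕ => ∑' n, (d n : ℝ) / q (n + 1))
      (Set.univ.pi fun n => (DD n : Set ℕ)) := by
    refine continuousOn_tsum (fun n => Continuous.continuousOn ?_) hs fun n d hd => ?_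
    · exact (continuous_of_discreteTopology (f := fun k : ℕ => (k : ℝ) / q (n + 1))).comp
        (continuous_apply n)
    · rw [Real.norm_of_nonneg (div_nonneg (Nat.cast_nonneg _) (q_pos _).le)]
      exact term_le (fun n => hd n (Set.mem_univ _)) n
  convert h1.image_of_continuousOn h2 using 1
  ext x
  constructor
  · rintro ⟨d, hd, hx⟩
    exact ⟨d, fun n _ => hd n, hx.tsum_eq⟩
  · rintro ⟨d, hd, rfl⟩
    have hd' : ∀ n, d n ∈ DD n := fun n => hd n (Set.mem_univ _)
    exact ⟨d, hd', (hs.of_nonneg_of_le (fun j => div_nonneg (Nat.cast_nonneg _) (q_pos _).le)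
      (term_le hd')).hasSum⟩

/-- words -/
def W (n : ℕ) : Finset (Fin n → ℕ) := Fintype.piFinset fun j : Fin n => DD j
/-- points -/
noncomputable def pt (n : ℕ) (d : Fin n → ℕ) : ℝ := ∑ j : Fin n, (d j : ℝ) / q (j + 1)

lemma card_W (n : ℕ) : (W n).card = ∏ j ∈ Finset.range n, (DD j).card := by
  rw [W, Fintype.card_piFinset, Finset.prod_range]

lemma card_W' (k : ℕ) : ((W (k + 1)).card : ℝ) * (k + 3) = q (k + 1) := by
  rw [card_W]
  induction k with
  | zero => rw [q_succ]; simp [DD, q]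
  | succ k ih =>
    rw [Finset.prod_range_succ, q_succ, ← ih]
    simp only [DD, Nat.add_eq_zero_iff, one_ne_zero, and_false, if_false, Finset.card_range]
    push_cast
    ring

lemma card_pos (k : ℕ) : (0 : ℝ) < (W (k + 1)).card := by
  have := card_W' k
  have h := q_pos (k + 1)
  by_contra h0
  have : ((W (k + 1)).card : ℝ) = 0 := le_antisymm (not_lt.1 h0) (Nat.cast_nonneg _)
  simp_all

lemma K_null : volume (moran MM DD) = 0 := by
  have h : ∀ k : ℕ, volume (moran MM DD) ≤ ENNReal.ofReal (1 / ((k : ℝ) + 1)) := fun k => by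
    have hs : moran MM DD ⊆ ⋃ d ∈ W (k + 1), Set.Icc (pt _ d) (pt _ d + 1 / q (k + 1)) := by
      rintro x ⟨d, hd, hx⟩
      have := approx hd hx (k + 1)
      rw [Finset.sum_range] at this
      exact Set.mem_biUnion (x := fun j : Fin (k + 1) => d j)
        (Fintype.mem_piFinset.2 fun j => hd j) this
    refine (measure_mono hs).trans ((measure_biUnion_finset_le _ _).trans ?_)
    simp only [Real.volume_Icc, add_sub_cancel_left, Finset.sum_const, nsmul_eq_mul]
    rw [← ENNReal.ofReal_natCast, ← ENNReal.ofReal_mul (Nat.cast_nonneg _)]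
    refine ENNReal.ofReal_le_ofReal ?_
    have := card_pos k
    rw [← card_W', mul_one_div, div_le_div_iff₀ (by positivity) (by positivity)]
    nlinarith
  have h0 := ENNReal.tendsto_ofReal (tendsto_one_div_add_atTop_nhds_zero_nat (𝕜 := ℝ))
  rw [ENNReal.ofReal_zero] at h0
  exact le_antisymm (ge_of_tendsto' h0 h) bot_le

lemma pt_mem {k : ℕ} {d : Fin (k + 1) → ℕ} (hd : d ∈ W (k + 1)) : pt _ d ∈ moran MM DD := by
  refine ⟨fun j => if h : j < k + 1 then d ⟨j, h⟩ else 0, fun j => ?_, ?_⟩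
  · simp only
    split_ifs with h
    · exact Fintype.mem_piFinset.1 hd ⟨j, h⟩
    · rw [DD, if_neg (by omega)]; simp
  · have := hasSum_sum_of_ne_finset_zero (L := SummationFilter.unconditional ℕ)
      (f := fun j => ((if h : j < k + 1 then d ⟨j, h⟩ else 0 : ℕ) : ℝ) / q (j + 1))
      (s := Finset.range (k + 1)) fun j hj => by
        rw [Finset.mem_range] at hj
        simp [hj]
    rw [Finset.sum_range] at this
    simp only [Fin.is_lt, dif_pos, Fin.eta] at this
    exact this

/-- finite averages -/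
noncomputable def A (k : ℕ) (φ : ℝ → ℝ) : ℝ := (∑ d ∈ W (k + 1), φ (pt _ d)) / (W (k + 1)).card

lemma A_le (k : ℕ) {φ : ℝ → ℝ} {C : ℝ} (h : ∀ y ∈ moran MM DD, |φ y| ≤ C) : |A k φ| ≤ C := by
  rw [A, abs_div, abs_of_pos (card_pos k), div_le_iff₀ (card_pos k)]
  refine (Finset.abs_sum_le_sum_abs _ _).trans ?_
  refine (Finset.sum_le_sum fun d hd => h _ (pt_mem hd)).trans ?_
  rw [Finset.sum_const, nsmul_eq_mul, mul_comm]

/-- the limiting functional -/
noncomputable def L (φ : ℝ → ℝ) : ℝ := limUnder (hyperfilter ℕ : Filter ℕ) fun k => A k φ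

lemma L_tendsto {φ : ℝ → ℝ} (h : Continuous φ) :
    Tendsto (fun k => A k φ) (hyperfilter ℕ : Filter ℕ) (𝓝 (L φ)) := by
  obtain ⟨C, hC⟩ := K_compact.exists_bound_of_continuousOn h.continuousOn
  obtain ⟨x, -, hx⟩ := (isCompact_Icc (a := -C) (b := C)).ultrafilter_le_nhds
    ((hyperfilter ℕ).map fun k => A k φ) (by
      rw [le_principal_iff, Ultrafilter.coe_map, mem_map]
      exact univ_mem' fun k => abs_le.1 (A_le k hC))
  exact tendsto_nhds_limUnder ⟨x, hx⟩

lemma L_le {φ : ℝ → ℝ} (h : Continuous φ) {C : ℝ} (hC : ∀ᶠ k in atTop, |A k φ| ≤ C) :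
    |L φ| ≤ C :=
  le_of_tendsto (L_tendsto h).abs (hC.filter_mono Nat.hyperfilter_le_atTop)

lemma L_add {φ ψ : ℝ → ℝ} (h : Continuous φ) (h' : Continuous ψ) :
    L (fun y => φ y + ψ y) = L φ + L ψ := by
  refine tendsto_nhds_unique (L_tendsto (h.add h')) ?_
  convert (L_tendsto h).add (L_tendsto h') using 2 with k
  simp only [A, Finset.sum_add_distrib, add_div]

lemma L_mul (c : ℝ) {φ : ℝ → ℝ} (h : Continuous φ) : L (fun y => c * φ y) = c * L φ := by
  refine tendsto_nhds_unique (L_tendsto (continuous_const.mul h)) ?_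
  convert (L_tendsto h).const_mul c using 2 with k
  simp only [A, ← Finset.mul_sum, mul_div_assoc]

lemma L_sum {φ : ℕ → ℝ → ℝ} (h : ∀ n, Continuous (φ n)) (N : ℕ) :
    L (fun y => ∑ n ∈ Finset.range N, φ n y) = ∑ n ∈ Finset.range N, L (φ n) := by
  induction N with
  | zero => simpa using L_mul 0 (φ := fun _ => 0) continuous_const
  | succ N ih =>
    simp only [Finset.sum_range_succ]
    rw [L_add (continuous_finsetSum _ fun n _ => h n) (h N), ih]

lemma L_one : L (fun _ => 1) = 1 := by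
  refine tendsto_nhds_unique (L_tendsto continuous_const) ?_
  have : ∀ k, A k (fun _ => 1) = 1 := fun k => by
    simp only [A, Finset.sum_const, nsmul_eq_mul, mul_one]
    exact div_self (card_pos k).ne'
  simp only [this]
  exact tendsto_const_nhds

end Pool.Agent.Lib.H29.Moran
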