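import Mathlib
import Pool.Agent.Lib.helper29.Moran1

set_option autoImplicit false

namespace Pool.Agent.Lib.H29.Moran

open Filter Topology MeasureTheory

/-- exponential -/
noncomputable def ee (t : ℝ) : ℂ := Complex.exp (Complex.I * ((2 * Real.pi * t : ℝ) : ℂ))

lemma ee_add (s t : ℝ) : ee (s + t) = ee s * ee t := by
  rw [ee, ee, ee, ← Complex.exp_add]; congr 1; push_cast; ring

lemma norm_ee (t : ℝ) : ‖ee t‖ = 1 := by
  rw [ee, mul_comm]; exact Complex.norm_exp_ofReal_mul_I _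

lemma ee_nat (n : ℕ) (t : ℝ) : ee (n * t) = ee t ^ n := by
  rw [ee, ee, ← Complex.exp_nat_mul]; congr 1; push_cast; ring

lemma ee_sum {n : ℕ} (f : Fin n → ℝ) : ee (∑ j, f j) = ∏ j, ee (f j) := by
  simp only [ee, ← Complex.exp_sum, ← Finset.mul_sum, ← Complex.ofReal_sum]

lemma re_ee (t : ℝ) : (ee t).re = Real.cos (2 * Real.pi * t) := by
  rw [ee, mul_comm]; exact Complex.exp_ofReal_mul_I_re _

lemma ee_sub_one {t : ℝ} (h : |t| ≤ 1 / 2) : 4 * |t| ≤ ‖ee t - 1‖ := by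
  have hp := Real.pi_pos
  rw [ee, Complex.norm_exp_I_mul_ofReal_sub_one, Real.norm_eq_abs, abs_mul, abs_two,
    show 2 * Real.pi * t / 2 = Real.pi * t by ring]
  have := Real.mul_abs_le_abs_sin (x := Real.pi * t) (by
    rw [abs_mul, abs_of_pos hp]; nlinarith)
  rw [abs_mul, abs_of_pos hp, ← mul_assoc, div_mul_cancel₀ _ hp.ne'] at this
  linarith

/-- digit sums -/
noncomputable def F (ξ : ℝ) (j : ℕ) : ℂ := ∑ d ∈ DD j, ee (d * (ξ / q (j + 1)))
/-- full digit sums -/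
noncomputable def G (ξ : ℝ) (j : ℕ) : ℂ := ∑ d ∈ Finset.range (j + 3), ee (ξ / q (j + 1)) ^ d

lemma F_le (ξ : ℝ) (j : ℕ) : ‖F ξ j‖ ≤ (DD j).card := by
  refine (norm_sum_le _ _).trans ?_
  simp [norm_ee]

lemma G_le (ξ : ℝ) (j : ℕ) : ‖G ξ j‖ ≤ j + 3 := by
  refine (norm_sum_le _ _).trans ?_
  simp [norm_ee]

lemma F_le_G (ξ : ℝ) (j : ℕ) (hj : j ≠ 0) : ‖F ξ j‖ ≤ ‖G ξ j‖ + 1 := by
  have : F ξ j = G ξ j - ee (ξ / q (j + 1)) ^ (j + 2) := by
    rw [F, G, DD, if_neg hj, Finset.sum_range_succ _ (j + 2)]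
    simp [ee_nat]
  rw [this]
  refine (norm_sub_le _ _).trans ?_
  rw [norm_pow, norm_ee, one_pow]

lemma G_mul (ξ : ℝ) (j : ℕ) : G ξ j * (ee (ξ / q (j + 1)) - 1) = ee (ξ / q j) - 1 := by
  rw [G, geom_sum_mul, ← ee_nat, q_succ]
  have := q_pos j
  congr 2
  push_cast
  field_simp

lemma FF_le (ξ : ℝ) (m : ℕ) (hm : m ≠ 0) (h1 : q (m + 1) ≤ 2 * |ξ|) (h2 : 2 * |ξ| < q (m + 2)) :
    ‖F ξ m‖ * ‖F ξ (m + 1)‖ ≤ 4 * (m + 3) := by
  have hq := q_pos (m + 2)
  have hq1 := q_pos (m + 1)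
  have hm0 : (0 : ℝ) ≤ m := Nat.cast_nonneg m
  have ht : |ξ / q (m + 2)| = |ξ| / q (m + 2) := by rw [abs_div, abs_of_pos hq]
  have a := ee_sub_one (t := ξ / q (m + 2)) (by rw [ht, div_le_iff₀ hq]; linarith)
  have b : 2 / ((m : ℝ) + 4) ≤ 4 * |ξ / q (m + 2)| := by
    rw [ht, q_succ (m + 1), ← mul_div_assoc, div_le_div_iff₀ (by positivity) (by positivity)]
    push_cast
    nlinarith
  have c : G ξ m * G ξ (m + 1) * (ee (ξ / q (m + 2)) - 1) = ee (ξ / q m) - 1 := by
    rw [mul_assoc, G_mul, G_mul]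
  have d : ‖ee (ξ / q m) - 1‖ ≤ 2 := by
    refine (norm_sub_le _ _).trans ?_
    rw [norm_ee, norm_one]; norm_num
  rw [← c, norm_mul, norm_mul] at d
  have e : ‖G ξ m‖ * ‖G ξ (m + 1)‖ ≤ m + 4 := by
    have : ‖G ξ m‖ * ‖G ξ (m + 1)‖ * (2 / ((m : ℝ) + 4)) ≤ 2 :=
      (mul_le_mul_of_nonneg_left (b.trans a) (by positivity)).trans d
    rw [← mul_div_assoc, div_le_iff₀ (by positivity)] at this
    linarith
  have f1 := F_le_G ξ m hm
  have f2 := F_le_G ξ (m + 1) (by omega)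
  have g1 := G_le ξ m
  have g2 := G_le ξ (m + 1)
  push_cast at g2
  calc _ ≤ (‖G ξ m‖ + 1) * (‖G ξ (m + 1)‖ + 1) := by gcongr
    _ ≤ _ := by nlinarith

lemma A_cos (ξ x : ℝ) (m k : ℕ) (hm : m ≠ 0) (hk : m + 1 ≤ k) (h1 : q (m + 1) ≤ 2 * |ξ|)
    (h2 : 2 * |ξ| < q (m + 2)) :
    |A k fun y => Real.cos (2 * Real.pi * ξ * (x - y))| ≤ 4 / (m + 2) := by
  have e1 : ∑ d ∈ W (k + 1), Real.cos (2 * Real.pi * ξ * (x - pt _ d)) =
      (ee (-(ξ * x)) * ∏ j ∈ Finset.range (k + 1), F ξ j).re := by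
    rw [Finset.prod_range]
    simp only [F]
    rw [Finset.prod_univ_sum, Finset.mul_sum, Complex.re_sum]
    refine Finset.sum_congr rfl fun d _ => ?_
    rw [← ee_sum, ← ee_add, re_ee, ← Real.cos_neg]
    congr 1
    have : ∑ j : Fin (k + 1), (d j : ℝ) * (ξ / q (j + 1)) = ξ * pt _ d := by
      rw [pt, Finset.mul_sum]
      exact Finset.sum_congr rfl fun j _ => by ring
    rw [this]; ring
  rw [A, e1, abs_div, abs_of_pos (card_pos k), div_le_iff₀ (card_pos k)]
  refine (Complex.abs_re_le_norm _).trans ?_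
  rw [norm_mul, norm_ee, one_mul, norm_prod, card_W, Nat.cast_prod]
  have hs : ({m, m + 1} : Finset ℕ) ⊆ Finset.range (k + 1) := by
    intro j hj
    simp only [Finset.mem_insert, Finset.mem_singleton, Finset.mem_range] at hj ⊢
    omega
  rw [← Finset.prod_sdiff hs, ← Finset.prod_sdiff hs, Finset.prod_pair (by omega),
    Finset.prod_pair (by omega), mul_left_comm (4 / ((m : ℝ) + 2))]
  refine mul_le_mul (Finset.prod_le_prod (fun _ _ => norm_nonneg _) fun j _ => F_le ξ j) ?_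
    (by positivity) (by positivity)
  refine (FF_le ξ m hm h1 h2).trans (le_of_eq ?_)
  simp only [DD, hm, Nat.add_eq_zero_iff, one_ne_zero, and_false, if_false, Finset.card_range]
  push_cast
  field_simp
  ring

lemma rajchman (x : ℝ) :
    Tendsto (fun ξ : ℝ => L fun y => Real.cos (2 * Real.pi * ξ * (x - y))) atTop (𝓝 0) := by
  rw [Metric.tendsto_atTop]
  intro ε hε
  obtain ⟨m0, hm0⟩ := exists_nat_gt (4 / ε)
  refine ⟨q (m0 + 2), fun ξ hξ => ?_⟩
  have hξ0 : 0 < ξ := lt_of_lt_of_le (q_pos _) hξ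
  have hex : ∃ k, 2 * |ξ| < q k := by
    obtain ⟨k, hk⟩ := exists_nat_gt (2 * |ξ|)
    exact ⟨k, by linarith [q_ge k]⟩
  have h1 := Nat.find_spec hex
  have h2 : m0 + 2 < Nat.find hex := by
    by_contra h
    have := q_mono (not_lt.1 h)
    linarith [abs_of_pos hξ0]
  obtain ⟨m, hm⟩ : ∃ m, Nat.find hex = m + 2 := ⟨Nat.find hex - 2, by omega⟩
  have h3 := Nat.find_min hex (show m + 1 < Nat.find hex by omega)
  rw [hm] at h1 h2
  rw [Real.dist_eq, sub_zero]
  refine lt_of_le_of_lt (L_le (by fun_prop) (eventually_atTop.2 ⟨m + 1, fun k hk =>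
    A_cos ξ x m k (by omega) hk (not_lt.1 h3) h1⟩)) ?_
  have : (m0 : ℝ) < m := by exact_mod_cast (by omega : m0 < m)
  rw [div_lt_iff₀ (by positivity)]
  rw [div_lt_iff₀ hε] at hm0
  nlinarith

lemma rajchman' (x : ℝ) (k : ℕ) : Tendsto (fun ξ : ℝ => L fun y =>
    Real.cos (2 * Real.pi * ξ * (x - y)) * (Real.cos (Real.pi * (x - y)) ^ 2) ^ k) atTop (𝓝 0) := by
  induction k with
  | zero => simpa using rajchman x
  | succ k ih =>
    have h1 := ih.comp (tendsto_atTop_add_const_right atTop 1 tendsto_id)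
    have h2 := ih.comp (tendsto_atTop_add_const_right atTop (-1) tendsto_id)
    have h := ((ih.const_mul (1 / 2)).add (h1.const_mul (1 / 4))).add (h2.const_mul (1 / 4))
    simp only [mul_zero, add_zero] at h
    refine h.congr fun ξ => ?_
    simp only [Function.comp, id]
    rw [← L_mul _ (by fun_prop), ← L_mul _ (by fun_prop), ← L_mul _ (by fun_prop),
      ← L_add (by fun_prop) (by fun_prop), ← L_add (by fun_prop) (by fun_prop)]
    congr 1
    funext y
    rw [pow_succ _ k, Real.cos_sq (Real.pi * (x - y)),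
      show 2 * Real.pi * (ξ + 1) * (x - y) = 2 * Real.pi * ξ * (x - y) + 2 * (Real.pi * (x - y)) by ring,
      show 2 * Real.pi * (ξ + -1) * (x - y) = 2 * Real.pi * ξ * (x - y) - 2 * (Real.pi * (x - y)) by
        ring, Real.cos_add, Real.cos_sub]
    ring

/-- weights -/
def wt (n : ℕ) : ℝ := if n = 0 then 1 else 2
/-- Dirichlet kernel -/
noncomputable def Dk (N : ℕ) (t : ℝ) : ℝ :=
  ∑ n ∈ Finset.range N, wt n * Real.cos (2 * Real.pi * n * t)

lemma Dk_mul (N : ℕ) (t : ℝ) : Dk (N + 1) t * (1 - Real.cos (Real.pi * t) ^ 2) =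
    (Real.cos (2 * Real.pi * N * t) - Real.cos (2 * Real.pi * (N + 1) * t)) / 2 := by
  induction N with
  | zero => simp [Dk, wt, Real.cos_sq, mul_assoc]; ring
  | succ N ih =>
    rw [Dk, Finset.sum_range_succ, ← Dk, add_mul, ih, wt, if_neg (by omega), Real.cos_sq]
    push_cast
    rw [show 2 * Real.pi * (N + 1 + 1) * t = 2 * Real.pi * (N + 1) * t + 2 * (Real.pi * t) by ring,
      show 2 * Real.pi * N * t = 2 * Real.pi * (N + 1) * t - 2 * (Real.pi * t) by ring,
      Real.cos_add, Real.cos_sub]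
    ring

lemma local_conv {x : ℝ} (hx : x ∈ Set.Icc (0 : ℝ) 1 \ moran MM DD) :
    Tendsto (fun N : ℕ => L fun y => Dk N (x - y)) atTop (𝓝 0) := by
  have hne : (moran MM DD).Nonempty := by
    obtain ⟨d, hd⟩ := Finset.card_pos.1 (Nat.cast_pos.1 (card_pos 0))
    exact ⟨_, pt_mem hd⟩
  obtain ⟨y0, hy0, hmax⟩ := K_compact.exists_isMaxOn hne
    (f := fun y => Real.cos (Real.pi * (x - y)) ^ 2) (Continuous.continuousOn (by fun_prop))
  set ρ := Real.cos (Real.pi * (x - y0)) ^ 2 with hρ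
  have hρ0 : 0 ≤ ρ := sq_nonneg _
  have hρ1 : ρ < 1 := by
    have hp := Real.pi_pos
    have h1 := K_sub hy0
    have h2 : x - y0 ≠ 0 := fun h => hx.2 (by rwa [sub_eq_zero.1 h])
    have h3 : Real.sin (Real.pi * (x - y0)) ≠ 0 := by
      rw [Ne, Real.sin_eq_zero_iff_of_lt_of_lt (by nlinarith [hx.1.1]) (by nlinarith [hx.1.2])]
      exact mul_ne_zero hp.ne' h2
    have := Real.sin_sq_add_cos_sq (Real.pi * (x - y0))
    have := pow_pos (abs_pos.2 h3) 2
    rw [sq_abs] at this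
    linarith
  have cD : ∀ N, Continuous fun y => Dk N (x - y) := fun N => by unfold Dk; fun_prop
  rw [← tendsto_add_atTop_iff_nat 1, Metric.tendsto_atTop]
  intro ε hε
  obtain ⟨K, hK⟩ := exists_pow_lt_of_lt_one (show 0 < ε / 2 * (1 - ρ) by nlinarith) hρ1
  set J : ℕ → ℝ → ℝ := fun k ξ => L fun y =>
    Real.cos (2 * Real.pi * ξ * (x - y)) * (Real.cos (Real.pi * (x - y)) ^ 2) ^ k with hJ
  have hT : Tendsto (fun N : ℕ => ∑ k ∈ Finset.range K, (1 / 2 * J k N + -1 / 2 * J k (N + 1)))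
      atTop (𝓝 0) := by
    have := tendsto_finsetSum (Finset.range K) fun k _ =>
      (((rajchman' x k).comp tendsto_natCast_atTop_atTop).const_mul (1 / 2)).add
      (((rajchman' x k).comp (tendsto_atTop_add_const_right atTop 1
        tendsto_natCast_atTop_atTop)).const_mul (-1 / 2))
    simpa using this
  obtain ⟨N0, hN0⟩ := Metric.tendsto_atTop.1 hT (ε / 2) (by positivity)
  refine ⟨N0, fun N hN => ?_⟩
  have h1 := hN0 N hN
  have e : (L fun y => Dk (N + 1) (x - y)) =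
      (L fun y => Dk (N + 1) (x - y) * (Real.cos (Real.pi * (x - y)) ^ 2) ^ K) +
        ∑ k ∈ Finset.range K, (1 / 2 * J k N + -1 / 2 * J k (N + 1)) := by
    have : ∀ k, 1 / 2 * J k N + -1 / 2 * J k (N + 1) = L fun y =>
        Dk (N + 1) (x - y) * (1 - Real.cos (Real.pi * (x - y)) ^ 2) *
          (Real.cos (Real.pi * (x - y)) ^ 2) ^ k := fun k => by
      simp only [hJ]
      rw [← L_mul _ (by fun_prop), ← L_mul _ (by fun_prop), ← L_add (by fun_prop) (by fun_prop)]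
      congr 1
      funext y
      rw [Dk_mul]
      ring
    simp only [this]
    have := cD (N + 1)
    rw [← L_sum (fun k => by fun_prop), ← L_add (by fun_prop) (by fun_prop)]
    congr 1
    funext y
    rw [← Finset.mul_sum, mul_assoc, mul_neg_geom_sum]
    ring
  have h2 : |L fun y => Dk (N + 1) (x - y) * (Real.cos (Real.pi * (x - y)) ^ 2) ^ K| ≤ ε / 2 := by
    have := cD (N + 1)
    refine L_le (by fun_prop) (Eventually.of_forall fun k => A_le k fun y hy => ?_)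
    have hu : Real.cos (Real.pi * (x - y)) ^ 2 ≤ ρ := hmax hy
    have hd : |Dk (N + 1) (x - y)| * (1 - ρ) ≤ 1 := by
      have a := congrArg abs (Dk_mul N (x - y))
      rw [abs_mul, abs_of_pos (by linarith : 0 < 1 - Real.cos (Real.pi * (x - y)) ^ 2)] at a
      have b : |(Real.cos (2 * Real.pi * N * (x - y)) -
          Real.cos (2 * Real.pi * (N + 1) * (x - y))) / 2| ≤ 1 := by
        rw [abs_le]
        constructor <;> linarith [Real.cos_le_one (2 * Real.pi * N * (x - y)),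
          Real.neg_one_le_cos (2 * Real.pi * N * (x - y)),
          Real.cos_le_one (2 * Real.pi * (N + 1) * (x - y)),
          Real.neg_one_le_cos (2 * Real.pi * (N + 1) * (x - y))]
      nlinarith [abs_nonneg (Dk (N + 1) (x - y))]
    rw [abs_mul, abs_of_nonneg (by positivity : 0 ≤ (Real.cos (Real.pi * (x - y)) ^ 2) ^ K)]
    have hp : (Real.cos (Real.pi * (x - y)) ^ 2) ^ K ≤ ε / 2 * (1 - ρ) :=
      (pow_le_pow_left₀ (sq_nonneg _) hu K).trans hK.le
    calc _ ≤ |Dk (N + 1) (x - y)| * (ε / 2 * (1 - ρ)) := by gcongr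
      _ ≤ _ := by nlinarith
  rw [Real.dist_eq, sub_zero] at h1 ⊢
  rw [e]
  exact lt_of_le_of_lt (abs_add_le _ _) (by linarith)

theorem not_unique : ¬ IsUniqueness (moran MM DD) := by
  intro h
  have := (h (fun n => wt n * L fun y => Real.cos (2 * Real.pi * n * y))
    (fun n => wt n * L fun y => Real.sin (2 * Real.pi * n * y)) fun x hx => ?_).1 0
  · simp [wt, L_one] at this
  · refine (local_conv hx).congr fun N => ?_
    unfold Dk
    rw [L_sum (φ := fun n y => wt n * Real.cos (2 * Real.pi * n * (x - y))) fun n => by fun_prop]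
    refine Finset.sum_congr rfl fun n _ => ?_
    rw [mul_right_comm (wt n) (L _), mul_right_comm (wt n) (L _), ← L_mul _ (by fun_prop),
      ← L_mul _ (by fun_prop), ← L_add (by fun_prop) (by fun_prop)]
    congr 1
    funext y
    rw [mul_sub, Real.cos_sub]
    ring

end Pool.Agent.Lib.H29.Moran
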