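import Mathlib

namespace Pool.Agent.Lib.H29.NearInt

open Finset

/-- digit sum in base b -/
def S (b : ℤ) (f : ℕ → ℤ) (L : ℕ) : ℤ := ∑ i ∈ range L, f i * b ^ i

lemma S_succ (b : ℤ) (f : ℕ → ℤ) (L : ℕ) : S b f (L + 1) = S b f L + f L * b ^ L :=
  sum_range_succ _ _

lemma S_sub (b : ℤ) (f g : ℕ → ℤ) (L : ℕ) : S b f L - S b g L = S b (fun i => f i - g i) L := by
  unfold S
  rw [← sum_sub_distrib]
  exact sum_congr rfl (fun i _ => by ring)

lemma S_abs (b : ℤ) (hb : 1 ≤ b) (f : ℕ → ℤ) (hf : ∀ i, |f i| ≤ 1) (L : ℕ) :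
    (b - 1) * |S b f L| ≤ b ^ L - 1 := by
  induction L with
  | zero => simp [S]
  | succ L ih =>
    rw [S_succ]
    have hp : 0 < b ^ L := by positivity
    have h1 : |S b f L + f L * b ^ L| ≤ |S b f L| + b ^ L := by
      refine (abs_add_le _ _).trans ?_
      rw [abs_mul, abs_of_pos hp]
      have := mul_le_mul_of_nonneg_right (hf L) hp.le
      linarith
    have h2 := mul_le_mul_of_nonneg_left h1 (sub_nonneg.2 hb)
    rw [pow_succ]
    nlinarith

lemma S_cmp (f : ℕ → ℤ) (hf : ∀ i, |f i| ≤ 1) (L : ℕ) :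
    2 * |S 9 f L| ≤ 9 * (S 3 f L) ^ 2 ∧ 7 * (S 3 f L) ^ 2 ≤ 18 * |S 9 f L| ∧
      (S 9 f L = 0 → ∀ i < L, f i = 0) := by
  induction L with
  | zero => simp [S]
  | succ L ih =>
    by_cases h : f L = 0
    · rw [S_succ, S_succ, h, zero_mul, zero_mul, add_zero, add_zero]
      refine ⟨ih.1, ih.2.1, fun h0 i hi => ?_⟩
      rcases Nat.lt_succ_iff_lt_or_eq.1 hi with h1 | rfl
      · exact ih.2.2 h0 i h1
      · exact h
    · have a9 := S_abs 9 (by norm_num) f hf L
      have a3 := S_abs 3 (by norm_num) f hf L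
      have e9 : (9 : ℤ) ^ L = (3 ^ L) ^ 2 := by
        rw [← pow_mul, mul_comm, pow_mul]; norm_num
      rw [e9] at a9
      rw [S_succ, S_succ, e9]
      clear ih e9
      have hT : (0 : ℤ) < 3 ^ L := by positivity
      generalize (3 : ℤ) ^ L = T at *
      generalize S 9 f L = x at *
      generalize S 3 f L = w at *
      have hfl := hf L
      have hx1 : 8 * x ≤ T ^ 2 := by linarith [le_abs_self x]
      have hx2 : - T ^ 2 ≤ 8 * x := by linarith [neg_abs_le x]
      have hw1 : 2 * w ≤ T := by linarith [le_abs_self w]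
      have hw2 : - T ≤ 2 * w := by linarith [neg_abs_le w]
      have hT2 : 0 < T ^ 2 := by positivity
      have hs : f L = 1 ∨ f L = -1 := by
        rw [abs_le] at hfl; omega
      rcases hs with hs | hs <;> rw [hs]
      · have p : 0 < x + 1 * T ^ 2 := by linarith
        rw [abs_of_pos p]
        have q1 : T ^ 2 ≤ (2 * (w + 1 * T)) ^ 2 := pow_le_pow_left₀ hT.le (by linarith) 2
        have q2 : (2 * (w + 1 * T)) ^ 2 ≤ (3 * T) ^ 2 :=
          pow_le_pow_left₀ (by linarith) (by linarith) 2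
        refine ⟨by nlinarith, by nlinarith, fun h0 => absurd h0 p.ne'⟩
      · have p : x + -1 * T ^ 2 < 0 := by linarith
        rw [abs_of_neg p]
        have q1 : T ^ 2 ≤ (-2 * (w + -1 * T)) ^ 2 := pow_le_pow_left₀ hT.le (by linarith) 2
        have q2 : (-2 * (w + -1 * T)) ^ 2 ≤ (3 * T) ^ 2 :=
          pow_le_pow_left₀ (by linarith) (by linarith) 2
        refine ⟨by nlinarith, by nlinarith, fun h0 => absurd h0 p.ne⟩

/-- binary digits -/
def dg {L : ℕ} (e : Fin L → Bool) (i : ℕ) : ℤ :=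
  if h : i < L then (if e ⟨i, h⟩ then 1 else 0) else 0

lemma dg_abs {L : ℕ} (e : Fin L → Bool) (i : ℕ) : |dg e i| ≤ 1 := by
  unfold dg; split_ifs <;> simp

lemma dg_sub_abs {L : ℕ} (e e' : Fin L → Bool) (i : ℕ) : |dg e i - dg e' i| ≤ 1 := by
  unfold dg; split_ifs <;> simp

lemma dg_inj {L : ℕ} (e e' : Fin L → Bool) (h : ∀ i < L, dg e i - dg e' i = 0) : e = e' := by
  funext i
  have := h i i.isLt
  unfold dg at this
  simp only [i.isLt, dif_pos, Fin.eta] at this
  cases h1 : e i <;> cases h2 : e' i <;> simp_all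

/-- the normed space -/
abbrev E := WithLp 2 ((Fin 4 → ℝ) × (Fin 4 → ℝ))

/-- the points -/
noncomputable def q {L : ℕ} (e : Fin 4 → Fin L → Bool) : E :=
  WithLp.toLp 2 (fun j => (S 9 (dg (e j)) L : ℝ), fun j => (S 3 (dg (e j)) L : ℝ) / 2)

lemma q_norm {L : ℕ} (e : Fin 4 → Fin L → Bool) : ‖q e‖ ≤ 9 ^ L := by
  have hp : (0 : ℝ) < 9 ^ L := by positivity
  rw [WithLp.prod_norm_eq_of_L2, Real.sqrt_le_left hp.le]
  have h1 : ‖(q e).fst‖ ≤ 9 ^ L / 2 := by
    refine (pi_norm_le_iff_of_nonneg (by positivity)).2 (fun j => ?_)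
    have := S_abs 9 (by norm_num) _ (dg_abs (e j)) L
    have h2 : ((9 : ℝ) - 1) * |(S 9 (dg (e j)) L : ℝ)| ≤ 9 ^ L - 1 := by exact_mod_cast this
    change |(S 9 (dg (e j)) L : ℝ)| ≤ _
    linarith
  have h2 : ‖(q e).snd‖ ≤ 9 ^ L / 2 := by
    refine (pi_norm_le_iff_of_nonneg (by positivity)).2 (fun j => ?_)
    have := S_abs 3 (by norm_num) _ (dg_abs (e j)) L
    have h2 : ((3 : ℝ) - 1) * |(S 3 (dg (e j)) L : ℝ)| ≤ 3 ^ L - 1 := by exact_mod_cast this
    have h3 : (3 : ℝ) ^ L ≤ 9 ^ L := pow_le_pow_left₀ (by norm_num) (by norm_num) L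
    change |(S 3 (dg (e j)) L : ℝ) / 2| ≤ _
    rw [abs_div, abs_two]
    linarith [abs_nonneg (S 3 (dg (e j)) L : ℝ)]
  have h3 := pow_le_pow_left₀ (norm_nonneg _) h1 2
  have h4 := pow_le_pow_left₀ (norm_nonneg _) h2 2
  nlinarith

lemma q_dist {L : ℕ} (e e' : Fin 4 → Fin L → Bool) (hne : e ≠ e') (z : ℤ) :
    1 / 54 ≤ |‖q e - q e'‖ - z| := by
  set x : Fin 4 → ℤ := fun j => S 9 (fun i => dg (e j) i - dg (e' j) i) L with hx
  set w : Fin 4 → ℤ := fun j => S 3 (fun i => dg (e j) i - dg (e' j) i) L with hw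
  have hc : ∀ j, 2 * |x j| ≤ 9 * (w j) ^ 2 ∧ 7 * (w j) ^ 2 ≤ 18 * |x j| ∧
      (x j = 0 → e j = e' j) := by
    intro j
    have := S_cmp _ (dg_sub_abs (e j) (e' j)) L
    exact ⟨this.1, this.2.1, fun h => dg_inj _ _ (this.2.2 h)⟩
  have hfst : ∀ j, (q e - q e').fst j = (x j : ℝ) := by
    intro j
    simp only [hx, ← S_sub]
    push_cast
    rfl
  have hsnd : ∀ j, (q e - q e').snd j = (w j : ℝ) / 2 := by
    intro j
    simp only [hw, ← S_sub]
    push_cast
    rw [sub_div]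
    rfl
  obtain ⟨j0, -, hj0⟩ := Finset.exists_max_image univ (fun j => |x j|) univ_nonempty
  have hM1 : 1 ≤ |x j0| := by
    by_contra hlt
    apply hne
    funext j
    refine (hc j).2.2 ?_
    have := hj0 j (mem_univ _)
    have h2 := abs_nonneg (x j)
    exact abs_eq_zero.1 (by omega)
  set M : ℤ := |x j0| with hM
  have hM1' : (1 : ℝ) ≤ M := by exact_mod_cast hM1
  have n1 : ‖(q e - q e').fst‖ = M := by
    apply le_antisymm
    · refine (pi_norm_le_iff_of_nonneg (by linarith)).2 (fun j => ?_)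
      rw [hfst, Real.norm_eq_abs]
      exact_mod_cast hj0 j (mem_univ _)
    · have := norm_le_pi_norm (q e - q e').fst j0
      rw [hfst, Real.norm_eq_abs] at this
      rw [hM]
      exact_mod_cast this
  have n2 : (M : ℝ) / 18 ≤ ‖(q e - q e').snd‖ ^ 2 := by
    have := norm_le_pi_norm (q e - q e').snd j0
    rw [hsnd, Real.norm_eq_abs] at this
    have h2 := pow_le_pow_left₀ (abs_nonneg _) this 2
    rw [sq_abs] at h2
    have h3 : (2 : ℝ) * M ≤ 9 * (w j0 : ℝ) ^ 2 := by exact_mod_cast (hc j0).1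
    nlinarith
  have n3 : ‖(q e - q e').snd‖ ^ 2 ≤ M := by
    have : ‖(q e - q e').snd‖ ≤ √(M : ℝ) := by
      refine (pi_norm_le_iff_of_nonneg (Real.sqrt_nonneg _)).2 (fun j => ?_)
      rw [hsnd, Real.norm_eq_abs]
      refine Real.abs_le_sqrt ?_
      have h3 : (7 : ℝ) * (w j : ℝ) ^ 2 ≤ 18 * ((|x j| : ℤ) : ℝ) := by exact_mod_cast (hc j).2.1
      have h4 : ((|x j| : ℤ) : ℝ) ≤ M := by exact_mod_cast hj0 j (mem_univ _)
      nlinarith
    have h2 := pow_le_pow_left₀ (norm_nonneg _) this 2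
    rwa [Real.sq_sqrt (by linarith)] at h2
  have lo : (M : ℝ) + 1 / 54 ≤ ‖q e - q e'‖ := by
    rw [WithLp.prod_norm_eq_of_L2, n1]
    refine Real.le_sqrt_of_sq_le ?_
    nlinarith
  have hi : ‖q e - q e'‖ ≤ (M : ℝ) + 1 - 1 / 54 := by
    rw [WithLp.prod_norm_eq_of_L2, n1, Real.sqrt_le_left (by linarith)]
    nlinarith
  rcases le_or_gt z M with h | h
  · have : (z : ℝ) ≤ M := by exact_mod_cast h
    exact le_trans (by linarith) (le_abs_self _)
  · have : (M : ℝ) + 1 ≤ z := by exact_mod_cast h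
    exact le_trans (by linarith) (neg_le_abs _)

lemma packing {F : Type*} [NormedAddCommGroup F] [ProperSpace F] (X δ : ℝ) (hδ : 0 < δ) :
    ∃ K : ℕ, ∀ (n : ℕ) (p : Fin n → F), (∀ i, ‖p i‖ ≤ X) → (∀ i j, i ≠ j → δ ≤ ‖p i - p j‖) →
      n ≤ K := by
  classical
  obtain ⟨t, ht, hcov⟩ := Metric.totallyBounded_iff.1
    (isCompact_closedBall (0 : F) X).totallyBounded (δ / 2) (by positivity)
  refine ⟨ht.toFinset.card, fun n p hp hsep => ?_⟩
  have : ∀ i, ∃ y ∈ t, p i ∈ Metric.ball y (δ / 2) := by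
    intro i
    have := hcov (mem_closedBall_zero_iff.2 (hp i))
    simpa only [Set.mem_iUnion, exists_prop] using this
  choose y hy hy' using this
  have hinj : Function.Injective y := by
    intro i j hij
    by_contra hne
    have h1 := hsep i j hne
    have h2 := Metric.mem_ball.1 (hy' i)
    have h3 := Metric.mem_ball.1 (hy' j)
    rw [hij] at h2
    have h4 := dist_triangle_right (p i) (p j) (y j)
    rw [dist_eq_norm] at h4
    linarith
  have := Finset.card_le_card_of_injOn (s := univ) (t := ht.toFinset) y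
    (fun i _ => by simpa using hy i) hinj.injOn
  simpa using this

end Pool.Agent.Lib.H29.NearInt
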