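import Mathlib
import Pool.Agent.Lib.helper29.PolyDefs
import Pool.Agent.Lib.helper29.Rigid21

set_option autoImplicit false

namespace Pool.Agent.Lib.H29.New21

open Set Complex Pool.Agent.Lib.H29.Astral Pool.Agent.Lib.H29.Conf

/-- collinearity -/
def col (i i' : Fin 21) : Prop := i ≠ i' ∧ ∃ j, inc i j ∧ inc i' j
instance (i i' : Fin 21) : Decidable (col i i') := by unfold col; infer_instance

/-- table of collinearity -/
def colT : Fin 21 → Fin 21 → Bool := ![![false, false, false, false, false, true, true, true, true, true, true, true, true, true, true, true, true, false, false, false, false],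
  ![false, false, false, true, true, true, false, true, true, false, true, true, true, true, false, true, false, false, true, true, false],
  ![false, false, false, true, true, false, true, true, true, false, true, true, true, false, true, true, false, true, false, false, true],
  ![false, true, true, false, false, true, true, true, false, true, false, true, false, true, true, false, true, true, false, true, false],
  ![false, true, true, false, false, true, true, false, true, true, false, false, true, true, true, false, true, false, true, false, true],
  ![true, true, false, true, true, false, true, false, false, true, false, true, false, true, false, false, true, false, true, true, true],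
  ![true, false, true, true, true, true, false, false, false, true, false, false, true, false, true, false, true, true, false, true, true],
  ![true, true, true, true, false, false, false, false, true, false, true, true, false, false, true, true, false, true, true, true, false],
  ![true, true, true, false, true, false, false, true, false, false, true, false, true, true, false, true, false, true, true, false, true],
  ![true, false, false, true, true, true, true, false, false, false, true, false, false, true, true, true, true, true, true, false, false],
  ![true, true, true, false, false, false, false, true, true, true, false, true, true, false, false, true, true, false, false, true, true],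
  ![true, true, true, true, false, true, false, true, false, false, true, false, true, false, false, true, false, true, false, true, true],
  ![true, true, true, false, true, false, true, false, true, false, true, true, false, false, false, true, false, false, true, true, true],
  ![true, true, false, true, true, true, false, false, true, true, false, false, false, false, true, false, true, true, true, true, false],
  ![true, false, true, true, true, false, true, true, false, true, false, false, false, true, false, false, true, true, true, false, true],
  ![true, true, true, false, false, false, false, true, true, true, true, true, true, false, false, false, true, true, true, false, false],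
  ![true, false, false, true, true, true, true, false, false, true, true, false, false, true, true, true, false, false, false, true, true],
  ![false, false, true, true, false, false, true, true, true, true, false, true, false, true, true, true, false, false, false, true, true],
  ![false, true, false, false, true, true, false, true, true, true, false, false, true, true, true, true, false, false, false, true, true],
  ![false, true, false, true, false, true, true, true, false, false, true, true, true, true, false, false, true, true, true, false, false],
  ![false, false, true, false, true, true, true, false, true, false, true, true, true, false, true, false, true, true, true, false, false]]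

lemma col_iff : ∀ i i', col i i' ↔ colT i i' = true := by decide +kernel

/-- number of triangles -/
def tri (i : Fin 21) : ℕ :=
  (Finset.univ.filter fun x : Fin 21 × Fin 21 =>
    colT i x.1 = true ∧ colT i x.2 = true ∧ colT x.1 x.2 = true).card

lemma tri_unique : ∀ i, tri i = tri 0 → i = 0 := by decide +kernel

lemma fix0 (σ τ : Fin 21 → Fin 21) (hσ : Function.Injective σ) (hτ : Function.Injective τ)
    (h : ∀ i j, inc (σ i) (τ j) ↔ inc i j) : σ 0 = 0 := by
  have sτ := Finite.injective_iff_surjective.1 hτ
  have hc : ∀ i i', colT (σ i) (σ i') = true ↔ colT i i' = true := by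
    intro i i'
    rw [← col_iff, ← col_iff]
    unfold col
    refine and_congr hσ.ne_iff ⟨fun ⟨j, hj⟩ => ?_, fun ⟨j, hj⟩ => ⟨τ j, by simpa only [h] using hj⟩⟩
    obtain ⟨j', rfl⟩ := sτ j
    exact ⟨j', by simpa only [h] using hj⟩
  apply tri_unique
  let e := Equiv.ofBijective σ (Finite.injective_iff_bijective.1 hσ)
  symm
  apply Finset.card_equiv (e.prodCongr e)
  intro x
  simp only [Finset.mem_filter, Finset.mem_univ, true_and]
  change _ ↔ colT (σ 0) (σ x.1) = true ∧ colT (σ 0) (σ x.2) = true ∧ colT (σ x.1) (σ x.2) = true
  rw [hc, hc, hc]

theorem not_poly (P : Fin 21 → ℂ) (L : Fin 21 → Set ℂ) (h : EuRealizes inc P L) :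
    ¬ Polycyclic P L := by
  rintro ⟨m, c, hm, h1, h2, h3, -⟩
  obtain ⟨pi, li, -, hI⟩ := h
  have hinj : Function.Injective (rot m c) := by
    intro x y hxy
    have := mul_left_cancel₀ (Complex.exp_ne_zero _) (add_left_cancel hxy)
    exact sub_left_injective this
  have a1 : ∀ i, ∃ i', P i' = rot m c (P i) := fun i => by
    have : rot m c (P i) ∈ range P := h1 ▸ mem_image_of_mem _ (mem_range_self i)
    exact this
  have a2 : ∀ j, ∃ j', L j' = rot m c '' L j := fun j => by
    have : rot m c '' L j ∈ range L := h2 ▸ mem_image_of_mem (fun l => rot m c '' l) (mem_range_self j)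
    exact this
  choose σ hσ using a1
  choose τ hτ using a2
  have h0 := fix0 σ τ (fun a b hab => pi (hinj (by rw [← hσ, ← hσ, hab])))
    (fun a b hab => li (hinj.image_injective (by rw [← hτ, ← hτ, hab])))
    (fun i j => by rw [← hI, ← hI, hσ, hτ, hinj.mem_set_image])
  have hf : rot m c (P 0) = P 0 := by rw [← hσ, h0]
  have : (range fun r : ℕ => (rot m c)^[r] (P 0)) = {P 0} := by
    ext z
    simp only [Function.iterate_fixed hf, mem_range, mem_singleton_iff, exists_const, eq_comm]
  have h4 := h3 0
  rw [this, ncard_singleton] at h4
  omega

/-- Euclidean points -/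
def EP : Fin 21 → ℤ × ℤ := ![(0, 105), (-140, 140), (84, 84), (-84, 84), (140, 140), (-210, 210), (70, 70), (-168, 84), (280, 140), (210, 0), (-840, 0), (-70, 70), (210, 210), (-280, 140), (168, 84), (-210, 0), (840, 0), (0, 60), (0, 420), (-315, 105), (315, 105)]
/-- Euclidean lines -/
def EL : Fin 21 → ℤ × ℤ × ℤ := ![(0, 1, 0), (0, 3, 420), (0, 5, 420), (1, -1, 0), (1, 1, 0), (1, -8, -840), (2, 4, 420), (1, 8, 840), (2, -4, -420), (1, -11, -840), (1, -5, -840), (2, 1, 420), (2, 7, 420), (1, -7, -420), (1, -1, -420), (1, 1, 420), (1, 7, 420), (1, 5, 840), (1, 11, 840), (2, -7, -420), (2, -1, -420)]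
/-- mirror on points -/
def sp : Fin 21 → Fin 21 := ![0, 4, 3, 2, 1, 12, 11, 14, 13, 15, 16, 6, 5, 8, 7, 9, 10, 17, 18, 20, 19]
/-- mirror on lines -/
def sl : Fin 21 → Fin 21 := ![0, 1, 2, 4, 3, 7, 8, 5, 6, 18, 17, 20, 19, 16, 15, 14, 13, 10, 9, 12, 11]
/-- points -/
def PE (i : Fin 21) : ℂ := ⟨(EP i).1, (EP i).2⟩
/-- lines -/
def LE (j : Fin 21) : Set ℂ := {z | ((EL j).1 : ℝ) * z.re + ((EL j).2.1 : ℝ) * z.im = (EL j).2.2}

lemma mem_LE (i j : Fin 21) : PE i ∈ LE j ↔ inc i j := by
  have : ∀ i j, (EL j).1 * (EP i).1 + (EL j).2.1 * (EP i).2 = (EL j).2.2 ↔ inc i j := by
    decide +kernel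
  rw [← this]
  simp only [PE, LE, mem_ofPred_eq]
  norm_cast

theorem euReal : EuRealizes inc PE LE := by
  refine ⟨fun i i' h => ?_, fun j j' h => ?_, fun j => ⟨_, _, _, ?_, rfl⟩, mem_LE⟩
  · by_contra hne
    obtain ⟨k, k1, k2⟩ := sepP i i' hne
    rw [← mem_LE, h, mem_LE] at k1
    exact k2 k1
  · by_contra hne
    obtain ⟨k, k1, k2⟩ := sepL j j' hne
    rw [← mem_LE, h, mem_LE] at k1
    exact k2 k1
  · have : ∀ j, (EL j).1 ≠ 0 ∨ (EL j).2.1 ≠ 0 := by decide +kernel
    simpa using this j

theorem mirror : ∃ f : ℂ ≃ᵢ ℂ, f ≠ IsometryEquiv.refl ℂ ∧ IsSym PE LE f := by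
  let f : ℂ ≃ᵢ ℂ := (conjLIE.trans (LinearIsometryEquiv.neg ℝ)).toIsometryEquiv
  have hf : ∀ z, f z = -(starRingEnd ℂ) z := fun _ => rfl
  have s1 : Function.Surjective sp := by decide +kernel
  have s2 : Function.Surjective sl := by decide +kernel
  have c : ∀ i, f (PE i) = PE (sp i) := by
    intro i
    have : ∀ i, EP (sp i) = (-(EP i).1, (EP i).2) := by decide +kernel
    rw [hf]
    apply Complex.ext <;> simp [PE, this]
  have key : ∀ j z, f z ∈ LE (sl j) ↔ z ∈ LE j := by
    intro j z
    have : ∀ j, EL (sl j) = (-(EL j).1, (EL j).2.1, (EL j).2.2) ∨
      EL (sl j) = ((EL j).1, -(EL j).2.1, -(EL j).2.2) := by decide +kernel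
    rcases this j with h | h <;> simp only [LE, mem_ofPred_eq, hf, h, neg_re, neg_im, conj_re,
      conj_im] <;> push_cast <;> constructor <;> intro h <;> linarith
  have d : ∀ j, f '' LE j = LE (sl j) := by
    intro j
    ext w
    constructor
    · rintro ⟨z, hz, rfl⟩
      exact (key j z).2 hz
    · intro hw
      exact ⟨f.symm w, (key j _).1 (by rwa [f.apply_symm_apply]), f.apply_symm_apply w⟩
  refine ⟨f, fun h => ?_, ?_, ?_⟩
  · have := hf 1
    rw [h] at this
    change (1 : ℂ) = -(starRingEnd ℂ) 1 at this
    rw [map_one] at this
    norm_num at this
  · rw [← range_comp, show (f ∘ PE) = PE ∘ sp from funext c, s1.range_comp]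
  · rw [← range_comp, show ((fun l => f '' l) ∘ LE) = LE ∘ sl from funext d, s2.range_comp]

end Pool.Agent.Lib.H29.New21
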