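import Mathlib

set_option autoImplicit false

namespace Pool.Agent.Lib.H29.Orbit

open MeasureTheory

/-- A frame for a Hilbert space. -/
def IsFrame {ι H : Type} [NormedAddCommGroup H] [InnerProductSpace ℂ H] (v : ι → H) : Prop :=
  ∃ A B : ℝ, 0 < A ∧ 0 < B ∧ ∀ f : H, Summable (fun i => ‖inner ℂ f (v i)‖ ^ 2) ∧
    A * ‖f‖ ^ 2 ≤ ∑' i, ‖inner ℂ f (v i)‖ ^ 2 ∧ ∑' i, ‖inner ℂ f (v i)‖ ^ 2 ≤ B * ‖f‖ ^ 2

/-- A Riesz basis: the image of an orthonormal (Hilbert) basis under a bounded invertible linear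
operator. -/
def IsRieszBasis {ι H : Type} [NormedAddCommGroup H] [InnerProductSpace ℂ H] (v : ι → H) : Prop :=
  ∃ (e : HilbertBasis ι ℂ H) (T : H ≃L[ℂ] H), ∀ i, v i = T (e i)

/-- `v (m, n) = E_{mb} T_{na} g`. -/
def IsGabor (a b : ℝ) (g : Lp ℂ 2 (volume : Measure ℝ))
    (v : ℤ × ℤ → Lp ℂ 2 (volume : Measure ℝ)) : Prop :=
  ∀ m n : ℤ, v (m, n) =ᵐ[volume] fun x : ℝ =>
    Complex.exp (2 * Real.pi * Complex.I * ((m * b * x : ℝ) : ℂ)) * g (x - n * a)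

/-- There is a bounded linear operator `T` on the span of the `f k` with `T (f k) = f (k + 1)`
for all `k`. -/
def BoundedRep {I H : Type} [Add I] [One I] [NormedAddCommGroup H] [InnerProductSpace ℂ H]
    (f : I → H) : Prop :=
  ∃ T : Submodule.span ℂ (Set.range f) →ₗ[ℂ] H,
    (∀ k, T ⟨f k, Submodule.subset_span ⟨k, rfl⟩⟩ = f (k + 1)) ∧ ∃ C : ℝ, ∀ x, ‖T x‖ ≤ C * ‖x‖

end Pool.Agent.Lib.H29.Orbit
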