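import Mathlib
import Pool.Agent.Lib.helper29.OrbitDefs

set_option autoImplicit false

namespace Pool.Agent.Lib.H29.Orbit

open scoped InnerProductSpace ComplexConjugate
open Set Filter

variable {ι H : Type} [NormedAddCommGroup H] [InnerProductSpace ℂ H] [CompleteSpace H]

lemma exists_iso (e : HilbertBasis ι ℂ H) {u : ι → H} (hu : Orthonormal ℂ u) :
    ∃ S : H →ₗᵢ[ℂ] H, ∀ i, S (e i) = u i := by
  classical
  refine ⟨hu.orthogonalFamily.linearIsometry.comp e.repr.toLinearIsometry, fun i => ?_⟩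
  simp only [LinearIsometry.coe_comp, Function.comp, LinearIsometryEquiv.coe_toLinearIsometry,
    e.repr_self]
  rw [OrthogonalFamily.linearIsometry_apply_single]
  simp

omit [CompleteSpace H] in
lemma dense_e (e : HilbertBasis ι ℂ H) : Dense (Submodule.span ℂ (range e) : Set H) := by
  rw [dense_iff_closure_eq, ← Submodule.topologicalClosure_coe, e.dense_span]; rfl

omit [CompleteSpace H] in
lemma le_of_span (e : HilbertBasis ι ℂ H) {A B : H → H} (hA : Continuous A) (hB : Continuous B)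
    (C : ℝ) (h : ∀ x ∈ Submodule.span ℂ (range e), ‖A x‖ ≤ C * ‖B x‖) (x : H) :
    ‖A x‖ ≤ C * ‖B x‖ :=
  (dense_e e).induction (P := fun x => ‖A x‖ ≤ C * ‖B x‖) h
    (isClosed_le (by fun_prop) (by fun_prop)) x

lemma iso_surj (e : HilbertBasis ι ℂ H) (S : H →ₗᵢ[ℂ] H) (h : ∀ j, ∃ x, S x = e j) :
    Function.Surjective S := by
  intro y
  have hc : IsClosed (range S) := S.isometry.isClosedEmbedding.isClosed_range
  refine (dense_e e).induction (P := fun y => y ∈ range S) (fun y hy => ?_) hc y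
  have : Submodule.span ℂ (range e) ≤ S.toLinearMap.range := by
    rw [Submodule.span_le]
    rintro _ ⟨j, rfl⟩
    exact h j
  exact this hy

omit [CompleteSpace H] in
lemma comm (N : Submodule ℂ H) [N.HasOrthogonalProjection] (W : H →ₗᵢ[ℂ] H)
    (h1 : ∀ x ∈ N, W x ∈ N) (h2 : ∀ y ∈ N, ∃ x ∈ N, W x = y) (x : H) :
    N.starProjection (W x) = W (N.starProjection x) := by
  refine Submodule.eq_starProjection_of_mem_of_inner_eq_zero
    (h1 _ (N.starProjection_apply_mem x)) fun y hy => ?_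
  obtain ⟨z, hz, rfl⟩ := h2 y hy
  rw [← W.map_sub, W.inner_map_map, Submodule.starProjection_inner_eq_zero x z hz]

omit [CompleteSpace H] in
lemma gram_inv (e : HilbertBasis ι ℂ H) (N : Submodule ℂ H) [N.HasOrthogonalProjection]
    (W : H →ₗᵢ[ℂ] H) (h1 : ∀ x ∈ N, W x ∈ N) (h2 : ∀ y ∈ N, ∃ x ∈ N, W x = y)
    (ρ : ι → ι) (c : ι → ℂ) (hc : ∀ i, ‖c i‖ = 1) (hW : ∀ i, W (e i) = c i • e (ρ i)) (j k : ι) :
    ‖⟪e (ρ j), N.starProjection (e (ρ k))⟫_ℂ‖ = ‖⟪e j, N.starProjection (e k)⟫_ℂ‖ := by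
  have := W.inner_map_map (e j) (N.starProjection (e k))
  rw [← comm N W h1 h2, hW, hW, map_smul, inner_smul_left, inner_smul_right] at this
  rw [← this]
  simp [hc]

/-- the synthesis operator of a frame -/
lemma synthesis (e : HilbertBasis ι ℂ H) {v : ι → H} (hv : IsFrame v) :
    ∃ U : H →L[ℂ] H, (∀ i, U (e i) = v i) ∧ (U.ker = ⊥ → IsRieszBasis v) := by
  obtain ⟨A, B, hA, hB, h⟩ := hv
  have hm : ∀ f : H, Memℓp (fun i => ⟪v i, f⟫_ℂ) 2 := fun f => memℓp_gen (by
    simpa [norm_inner_symm] using (h f).1)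
  let C0 : H →ₗ[ℂ] lp (fun _ : ι => ℂ) 2 :=
    { toFun := fun f => ⟨fun i => ⟪v i, f⟫_ℂ, hm f⟩
      map_add' := fun f g => by ext i; simp [inner_add_right]
      map_smul' := fun c f => by ext i; simp [inner_smul_right] }
  have hn : ∀ f, ‖C0 f‖ ^ 2 = ∑' i, ‖inner ℂ f (v i)‖ ^ 2 := fun f => by
    have := lp.norm_rpow_eq_tsum (p := 2) (by norm_num) (C0 f)
    simp only [ENNReal.toReal_ofNat, Real.rpow_ofNat] at this
    rw [this]
    exact tsum_congr fun i => by rw [norm_inner_symm]; rfl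
  let C1 : H →L[ℂ] lp (fun _ : ι => ℂ) 2 := C0.mkContinuous (√B) fun f => by
    rw [← sq_le_sq₀ (norm_nonneg _) (by positivity), mul_pow, Real.sq_sqrt hB.le, hn]
    exact (h f).2.2
  let C : H →L[ℂ] H := (e.repr.symm.toContinuousLinearEquiv : _ →L[ℂ] H).comp C1
  have hC : ∀ f, ‖C f‖ = ‖C0 f‖ := fun f => e.repr.symm.norm_map _
  have hCi : ∀ i f, ⟪e i, C f⟫_ℂ = ⟪v i, f⟫_ℂ := fun i f => by
    rw [← e.repr_apply_apply]
    show e.repr (e.repr.symm (C0 f)) i = _
    rw [LinearIsometryEquiv.apply_symm_apply]; rfl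
  have hU : ∀ i, ContinuousLinearMap.adjoint C (e i) = v i := fun i =>
    ext_inner_right ℂ fun f => by rw [ContinuousLinearMap.adjoint_inner_left, hCi]
  refine ⟨ContinuousLinearMap.adjoint C, hU, fun hk => ?_⟩
  have hanti : AntilipschitzWith (√A)⁻¹.toNNReal C := by
    refine C.antilipschitz_of_bound fun f => ?_
    have hs : 0 < √A := Real.sqrt_pos.2 hA
    rw [Real.coe_toNNReal _ (by positivity), inv_mul_eq_div, le_div_iff₀ hs,
      ← sq_le_sq₀ (by positivity) (norm_nonneg _), mul_pow, Real.sq_sqrt hA.le, hC, hn, mul_comm]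
    exact (h f).2.1
  have hcl : IsClosed (C.range : Set H) := hanti.isClosed_range C.uniformContinuous
  haveI : CompleteSpace C.range := hcl.completeSpace_coe
  have hr : C.range = ⊤ := by
    rw [← Submodule.orthogonal_eq_bot_iff, C.orthogonal_range, hk]
  have hu : IsUnit C := ContinuousLinearMap.isUnit_iff_bijective.2
    ⟨hanti.injective, LinearMap.range_eq_top.1 hr⟩
  obtain ⟨w, hw⟩ := hu.star
  refine ⟨e, ContinuousLinearEquiv.unitsEquiv ℂ H w, fun i => ?_⟩
  rw [ContinuousLinearEquiv.unitsEquiv_apply, hw, ContinuousLinearMap.star_eq_adjoint, hU]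

omit [CompleteSpace H] in
lemma parseval (e : HilbertBasis ι ℂ H) (w : H) : HasSum (fun i => ‖⟪w, e i⟫_ℂ‖ ^ 2) (‖w‖ ^ 2) := by
  have := Complex.reCLM.hasSum (e.hasSum_inner_mul_inner w w)
  simp only [Complex.reCLM_apply] at this
  have e1 : ∀ i, (⟪w, e i⟫_ℂ * ⟪e i, w⟫_ℂ).re = ‖⟪w, e i⟫_ℂ‖ ^ 2 := fun i => by
    rw [← inner_conj_symm (e i) w, Complex.mul_conj, Complex.ofReal_re, Complex.normSq_eq_norm_sq]
  have e2 : (⟪w, w⟫_ℂ).re = ‖w‖ ^ 2 := by simpa using inner_self_eq_norm_sq (𝕜 := ℂ) w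
  simpa only [e1, e2] using this

/-- wandering vector argument -/
lemma wander (e : HilbertBasis ι ℂ H) (U : H →L[ℂ] H) (S : H →ₗᵢ[ℂ] H) (s : ι → ι)
    (hS : ∀ i, S (e i) = e (s i)) (hN : ∀ x ∈ U.ker, S x ∈ U.ker) {γ : ℝ} (hγ : 0 < γ)
    (hU : ∀ i, γ ≤ ‖U (e i)‖)
    (hs : ∀ F : Finset ι, ∃ (k : ι) (n : ι → ℕ), InjOn n F ∧ ∀ j ∈ F, s^[n j] j = k) :
    ∀ y ∈ U.ker, ∃ x ∈ U.ker, S x = y := by
  by_contra hc
  push Not at hc
  obtain ⟨y, hy, hy'⟩ := hc
  set N := U.ker with hNdef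
  have hNc : IsClosed (N : Set H) := U.isClosed_ker
  haveI : CompleteSpace N := hNc.completeSpace_coe
  let M := N.map S.toLinearMap
  have hMc : IsClosed (M : Set H) := S.isometry.isClosedEmbedding.isClosedMap _ hNc
  haveI : CompleteSpace M := hMc.completeSpace_coe
  have hMN : M ≤ N := by
    rintro _ ⟨x, hx, rfl⟩
    exact hN x hx
  set w0 := y - M.starProjection y with hw0
  have hw0N : w0 ∈ N := N.sub_mem hy (hMN (M.starProjection_apply_mem y))
  have hw0M : ∀ z ∈ M, ⟪w0, z⟫_ℂ = 0 := fun z hz => Submodule.starProjection_inner_eq_zero y z hz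
  have hw00 : w0 ≠ 0 := by
    intro h
    have : y ∈ M := by
      rw [hw0, sub_eq_zero] at h
      rw [h]; exact M.starProjection_apply_mem y
    obtain ⟨x, hx, hx'⟩ := this
    exact hy' x hx hx'
  have hn0 : ‖w0‖ ≠ 0 := norm_ne_zero_iff.2 hw00
  set w := ((‖w0‖⁻¹ : ℝ) : ℂ) • w0 with hw
  have hwN : w ∈ N := N.smul_mem _ hw0N
  have hwM : ∀ z ∈ M, ⟪w, z⟫_ℂ = 0 := fun z hz => by rw [hw, inner_smul_left, hw0M z hz, mul_zero]
  have hw1 : ‖w‖ = 1 := by
    rw [hw, norm_smul, Complex.norm_real, norm_inv, norm_norm, inv_mul_cancel₀ hn0]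
  have hit : ∀ n, S^[n] w ∈ N := fun n => by
    induction n with
    | zero => exact hwN
    | succ n ih => rw [Function.iterate_succ_apply']; exact hN _ ih
  have hin : ∀ (n : ℕ) (a b : H), ⟪S^[n] a, S^[n] b⟫_ℂ = ⟪a, b⟫_ℂ := fun n a b => by
    induction n with
    | zero => rfl
    | succ n ih => rw [Function.iterate_succ_apply', Function.iterate_succ_apply', S.inner_map_map, ih]
  have hie : ∀ (n : ℕ) (j : ι), S^[n] (e j) = e (s^[n] j) := fun n j => by
    induction n with
    | zero => rfl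
    | succ n ih => rw [Function.iterate_succ_apply', Function.iterate_succ_apply', ih, hS]
  have hlt : ∀ m n : ℕ, m < n → ⟪S^[m] w, S^[n] w⟫_ℂ = 0 := fun m n h => by
    obtain ⟨d, rfl⟩ := Nat.exists_eq_add_of_lt h
    rw [add_assoc, Function.iterate_add_apply, hin, Function.iterate_succ_apply']
    exact hwM _ ⟨_, hit d, rfl⟩
  have ho : Orthonormal ℂ fun n : ℕ => S^[n] w := by
    constructor
    · intro n
      have := hin n w w
      rw [inner_self_eq_norm_sq_to_K, inner_self_eq_norm_sq_to_K, hw1] at this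
      have h2 : ‖S^[n] w‖ ^ 2 = 1 ^ 2 := by exact_mod_cast this
      exact (pow_left_inj₀ (norm_nonneg _) zero_le_one two_ne_zero).1 h2
    · intro m n h
      rcases lt_or_gt_of_ne h with h | h
      · exact hlt m n h
      · rw [← inner_conj_symm, hlt n m h, map_zero]
  have hUpos : 0 < ‖U‖ + 1 := by positivity
  set ε := (γ / (‖U‖ + 1)) ^ 2 with hε
  have hε0 : 0 < ε := by positivity
  have hp := parseval e w
  rw [hw1, one_pow] at hp
  obtain ⟨F, hF⟩ := (hp.eventually (lt_mem_nhds (show 1 - ε < 1 by linarith))).exists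
  obtain ⟨k, n, hn, hk⟩ := hs F
  have ho' : Orthonormal ℂ fun j : F => S^[n j] w :=
    ho.comp (fun j : F => n j) fun a b h => Subtype.ext (hn a.2 b.2 h)
  have hb := ho'.sum_inner_products_le (N.starProjection (e k)) (s := Finset.univ)
  have e1 : ∀ j : F, ⟪S^[n j] w, N.starProjection (e k)⟫_ℂ = ⟪w, e j⟫_ℂ := fun j => by
    rw [← Submodule.inner_starProjection_left_eq_right,
      (Submodule.starProjection_eq_self_iff).2 (hit _), ← hk j j.2, ← hie, hin]
  simp only [e1] at hb
  rw [Finset.sum_coe_sort F (fun j => ‖⟪w, e j⟫_ℂ‖ ^ 2)] at hb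
  have hpy := Submodule.norm_sq_eq_add_norm_sq_starProjection (e k) N
  rw [e.orthonormal.1 k, Submodule.starProjection_orthogonal_val] at hpy
  have h3 : ‖e k - N.starProjection (e k)‖ < γ / (‖U‖ + 1) := by
    rw [← sq_lt_sq₀ (norm_nonneg _) (by positivity)]
    linarith
  have h4 : U (e k) = U (e k - N.starProjection (e k)) := by
    rw [map_sub, show U (N.starProjection (e k)) = 0 from N.starProjection_apply_mem (e k), sub_zero]
  have h5 := hU k
  rw [h4] at h5
  have h6 := U.le_opNorm (e k - N.starProjection (e k))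
  rw [lt_div_iff₀ hUpos] at h3
  nlinarith [norm_nonneg (e k - N.starProjection (e k))]

/-- growth argument -/
lemma growth (σ : ℤ ≃ ℤ × ℤ) (α : ℤ × ℤ → ℝ) (β : ℤ → ℝ)
    (h : ∀ j k, α (σ j - σ k) = β (j - k)) {ε : ℝ} (hf : {d | ε ≤ β d}.Finite) {d0 : ℤ}
    (hd0 : d0 ≠ 0) (hd : ε ≤ β d0) : False := by
  obtain ⟨R, hR⟩ : ∃ R : ℕ, ∀ d, ε ≤ β d → |d| ≤ R := by
    obtain ⟨R, hR⟩ := (hf.image fun d => d.natAbs).bddAbove
    exact ⟨R, fun d hd => by
      have := hR ⟨d, hd, rfl⟩
      rw [Int.abs_eq_natAbs]; exact_mod_cast this⟩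
  by_cases hc : ∃ u v : ℤ × ℤ, ε ≤ α u ∧ ε ≤ α v ∧ u.1 * v.2 - u.2 * v.1 ≠ 0
  · obtain ⟨u, v, hu, hv, huv⟩ := hc
    let φ : ℕ × ℕ → ℤ := fun p => σ.symm ((p.1 : ℤ) • u + (p.2 : ℤ) • v)
    have h1 : ∀ i j : ℕ, |φ (i + 1, j) - φ (i, j)| ≤ R := fun i j => hR _ (by
      rw [← h]
      simp only [φ, Equiv.apply_symm_apply]
      convert hu using 2
      push_cast; module)
    have h2 : ∀ i j : ℕ, |φ (i, j + 1) - φ (i, j)| ≤ R := fun i j => hR _ (by
      rw [← h]
      simp only [φ, Equiv.apply_symm_apply]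
      convert hv using 2
      push_cast; module)
    have h3 : ∀ i j : ℕ, |φ (i, j) - φ (0, 0)| ≤ (i + j) * R := by
      intro i j
      induction i with
      | zero =>
        induction j with
        | zero => simp
        | succ j ih =>
          have := h2 0 j
          rw [abs_le] at *
          push_cast at *
          constructor <;> nlinarith
      | succ i ih =>
        have := h1 i j
        rw [abs_le] at *
        push_cast at *
        constructor <;> nlinarith
    have hinj : Function.Injective φ := by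
      rintro ⟨i, j⟩ ⟨i', j'⟩ hh
      have := σ.symm.injective hh
      have a1 := congrArg Prod.fst this
      have a2 := congrArg Prod.snd this
      simp only [Prod.fst_add, Prod.smul_fst, smul_eq_mul, Prod.snd_add, Prod.smul_snd] at a1 a2
      have b1 : ((i : ℤ) - i') * (u.1 * v.2 - u.2 * v.1) = 0 := by
        linear_combination v.2 * a1 - v.1 * a2
      have b2 : ((j : ℤ) - j') * (u.1 * v.2 - u.2 * v.1) = 0 := by
        linear_combination u.1 * a2 - u.2 * a1
      have c1 := (mul_eq_zero.1 b1).resolve_right huv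
      have c2 := (mul_eq_zero.1 b2).resolve_right huv
      ext <;> simp only <;> omega
    set n := 4 * R + 2 with hn
    have hcard := Finset.card_le_card_of_injOn φ (s := Finset.range n ×ˢ Finset.range n)
      (t := Finset.Icc (φ (0, 0) - 2 * n * R) (φ (0, 0) + 2 * n * R)) (fun p hp => by
        obtain ⟨i, j⟩ := p
        simp only [Finset.coe_product, Finset.coe_range, mem_prod, mem_Iio] at hp
        have := h3 i j
        have hi : (i : ℤ) ≤ n := by exact_mod_cast hp.1.le
        have hj : (j : ℤ) ≤ n := by exact_mod_cast hp.2.le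
        have hR0 : (0 : ℤ) ≤ R := Int.natCast_nonneg R
        rw [abs_le] at this
        simp only [Finset.coe_Icc, mem_Icc]
        constructor <;> nlinarith) hinj.injOn
    rw [Finset.card_product, Finset.card_range, Int.card_Icc] at hcard
    have : ((n * n : ℕ) : ℤ) ≤ 4 * n * R + 1 := by
      have h4 : φ (0, 0) + 2 * n * R + 1 - (φ (0, 0) - 2 * n * R) = ((4 * n * R + 1 : ℕ) : ℤ) := by
        push_cast; ring
      rw [h4, Int.toNat_natCast] at hcard
      exact_mod_cast hcard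
    rw [hn] at this
    push_cast at this
    nlinarith [Int.natCast_nonneg R]
  · push Not at hc
    set u := σ d0 - σ 0 with hu
    have hu1 : ε ≤ α u := by rw [hu, h, sub_zero]; exact hd
    have hu0 : u ≠ 0 := fun h0 => hd0 (σ.injective (sub_eq_zero.1 h0))
    let ℓ : ℤ → ℤ := fun j => u.1 * (σ j).2 - u.2 * (σ j).1
    have hper : Function.Periodic ℓ d0 := fun j => by
      have := hc u (σ (j + d0) - σ j) hu1 (by rw [h, add_sub_cancel_left]; exact hd)
      simp only [Prod.snd_sub, Prod.fst_sub] at this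
      simp only [ℓ]
      linear_combination this
    have hfin : (range ℓ).Finite := by
      refine ((Set.finite_Ico 0 |d0|).image ℓ).subset ?_
      rintro _ ⟨j, rfl⟩
      refine ⟨j % d0, ⟨Int.emod_nonneg _ hd0, Int.emod_lt_abs _ hd0⟩, ?_⟩
      have := hper.int_mul (j / d0) (j % d0)
      rw [← this]
      congr 1
      simp only [Int.cast_id]
      rw [mul_comm]; exact Int.emod_add_mul_ediv j d0
    have hq : u.1 ^ 2 + u.2 ^ 2 ≠ 0 := by
      intro h0
      apply hu0
      ext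
      · simp only [Prod.fst_zero]; nlinarith [sq_nonneg u.1, sq_nonneg u.2]
      · simp only [Prod.snd_zero]; nlinarith [sq_nonneg u.1, sq_nonneg u.2]
    refine Set.infinite_range_of_injective (f := fun t : ℤ => t * (u.1 ^ 2 + u.2 ^ 2))
      (fun a b hab => mul_right_cancel₀ hq hab) (hfin.subset ?_)
    rintro _ ⟨t, rfl⟩
    refine ⟨σ.symm (-(t * u.2), t * u.1), ?_⟩
    simp only [ℓ, Equiv.apply_symm_apply]
    ring

end Pool.Agent.Lib.H29.Orbit
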