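import Mathlib
import Pool.Agent.Lib.helper29.Orbit1

set_option autoImplicit false

namespace Pool.Agent.Lib.H29.Orbit

open scoped InnerProductSpace ComplexConjugate
open Set Filter MeasureTheory

variable {ι H : Type} [NormedAddCommGroup H] [InnerProductSpace ℂ H] [CompleteSpace H]

lemma exists_basis [TopologicalSpace.SeparableSpace H] [Countable ι] [Infinite ι] {v : ι → H}
    (hv : IsFrame v) {γ : ℝ} (hγ : 0 < γ) (h : ∀ i, γ ≤ ‖v i‖) : Nonempty (HilbertBasis ι ℂ H) := by
  obtain ⟨w, b, -⟩ := exists_hilbertBasis ℂ H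
  have hc : Countable w := by
    refine Pairwise.countable_of_isOpen_disjoint (s := fun i : w => Metric.ball (b i) (1 / 2))
      (fun i j hij => Metric.ball_disjoint_ball ?_) (fun _ => Metric.isOpen_ball)
      (fun i => ⟨b i, Metric.mem_ball_self (by norm_num)⟩)
    rw [dist_eq_norm]
    have h1 := norm_sub_sq (𝕜 := ℂ) (b i) (b j)
    rw [b.orthonormal.1 i, b.orthonormal.1 j, b.orthonormal.2 hij] at h1
    simp only [map_zero] at h1
    nlinarith [norm_nonneg (b i - b j)]
  have hi : Infinite w := by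
    by_contra hf
    rw [not_infinite_iff_finite] at hf
    have := Fintype.ofFinite w
    obtain ⟨A, B, -, -, hh⟩ := hv
    have hs : Summable fun i => ∑ j : w, ‖⟪b j, v i⟫_ℂ‖ ^ 2 :=
      summable_sum fun j _ => (hh (b j)).1
    have e1 : ∀ i, ∑ j : w, ‖⟪b j, v i⟫_ℂ‖ ^ 2 = ‖v i‖ ^ 2 := fun i => by
      have := b.toOrthonormalBasis.sum_sq_norm_inner_right (v i)
      simpa using this
    simp only [e1] at hs
    have := hs.tendsto_cofinite_zero.eventually (gt_mem_nhds (show (0 : ℝ) < γ ^ 2 by positivity))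
    obtain ⟨i, hi⟩ := this.exists
    have := h i
    nlinarith
  obtain ⟨σ⟩ : Nonempty (ι ≃ w) := nonempty_equiv_of_countable
  exact ⟨HilbertBasis.mk (b.orthonormal.comp σ σ.injective)
    (by rw [σ.surjective.range_comp]; exact b.dense_span.ge)⟩

omit [CompleteSpace H] in
lemma shift_ker (e : HilbertBasis ι ℂ H) (U : H →L[ℂ] H) {v : ι → H} (hU : ∀ i, U (e i) = v i)
    {I : Type} [Add I] [One I] (σ : I ≃ ι) (hT : BoundedRep (v ∘ σ)) (S : H →ₗᵢ[ℂ] H)
    (hS : ∀ i, S (e i) = e (σ (σ.symm i + 1))) : ∀ x ∈ U.ker, S x ∈ U.ker := by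
  obtain ⟨T, hT, C, hC⟩ := hT
  have key : ∀ x ∈ Submodule.span ℂ (range e), ∃ h : U x ∈ Submodule.span ℂ (range (v ∘ σ)),
      T ⟨U x, h⟩ = U (S x) := by
    intro x hx
    induction hx using Submodule.span_induction with
    | mem x hx =>
      obtain ⟨i, rfl⟩ := hx
      have e1 : U (e i) = (v ∘ σ) (σ.symm i) := by simp [hU]
      refine ⟨e1 ▸ Submodule.subset_span ⟨_, rfl⟩, ?_⟩
      rw [hS, hU (σ (σ.symm i + 1))]
      exact (congrArg T (Subtype.ext e1)).trans (hT (σ.symm i))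
    | zero =>
      refine ⟨by simp, ?_⟩
      have : (⟨U 0, by simp⟩ : Submodule.span ℂ (range (v ∘ σ))) = 0 := Subtype.ext (by simp)
      rw [this]; simp
    | add x y _ _ hx hy =>
      obtain ⟨h1, h2⟩ := hx
      obtain ⟨h3, h4⟩ := hy
      refine ⟨by rw [map_add]; exact Submodule.add_mem _ h1 h3, ?_⟩
      rw [map_add S, map_add U (S x), ← h2, ← h4, ← map_add T]
      exact congrArg T (Subtype.ext (map_add U x y))
    | smul c x _ hx =>
      obtain ⟨h1, h2⟩ := hx
      refine ⟨by rw [map_smul]; exact Submodule.smul_mem _ _ h1, ?_⟩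
      rw [map_smul S, map_smul U c (S x), ← h2, ← map_smul T]
      exact congrArg T (Subtype.ext (map_smul U c x))
  intro x hx
  have := le_of_span e (A := fun x => U (S x)) (B := U) (U.continuous.comp S.continuous)
    U.continuous C (fun x hx => by
      obtain ⟨h1, h2⟩ := key x hx
      rw [← h2]; exact hC _) x
  rw [show U x = 0 from hx, norm_zero, mul_zero] at this
  exact norm_le_zero_iff.1 this

lemma twist (e : HilbertBasis ι ℂ H) (U : H →L[ℂ] H) {v : ι → H} (hU : ∀ i, U (e i) = v i)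
    (ρ : ι ≃ ι) (c : ι → ℂ) (hc : ∀ i, ‖c i‖ = 1)
    (hG : ∀ i j, ⟪c i • v (ρ i), c j • v (ρ j)⟫_ℂ = ⟪v i, v j⟫_ℂ) (j k : ι) :
    ‖⟪e (ρ j), U.ker.starProjection (e (ρ k))⟫_ℂ‖ = ‖⟪e j, U.ker.starProjection (e k)⟫_ℂ‖ := by
  have ho : Orthonormal ℂ fun i => c i • e (ρ i) := by
    constructor
    · intro i; rw [norm_smul, hc, e.orthonormal.1, one_mul]
    · intro i j hij
      rw [inner_smul_left, inner_smul_right, e.orthonormal.2 (ρ.injective.ne hij)]; simp
  obtain ⟨W, hW⟩ := exists_iso e ho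
  have hc0 : ∀ i, c i ≠ 0 := fun i h => by simpa [h] using hc i
  have hsurj := iso_surj e W fun j => ⟨(c (ρ.symm j))⁻¹ • e (ρ.symm j), by
    rw [map_smul, hW, smul_smul, inv_mul_cancel₀ (hc0 _), one_smul, Equiv.apply_symm_apply]⟩
  have key : ∀ x ∈ Submodule.span ℂ (range e), ∀ y ∈ Submodule.span ℂ (range e),
      ⟪U (W x), U (W y)⟫_ℂ = ⟪U x, U y⟫_ℂ := by
    intro x hx y hy
    induction hx, hy using Submodule.span_induction₂ with
    | mem_mem x y hx hy =>
      obtain ⟨i, rfl⟩ := hx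
      obtain ⟨j, rfl⟩ := hy
      rw [hW, hW, map_smul, map_smul, hU, hU, hU, hU, hG]
    | zero_left y _ => simp
    | zero_right x _ => simp
    | add_left x y z _ _ _ h1 h2 => simp only [map_add, inner_add_left, h1, h2]
    | add_right x y z _ _ _ h1 h2 => simp only [map_add, inner_add_right, h1, h2]
    | smul_left r x y _ _ h1 => simp only [map_smul, inner_smul_left, h1]
    | smul_right r x y _ _ h1 => simp only [map_smul, inner_smul_right, h1]
  have key2 : ∀ x ∈ Submodule.span ℂ (range e), ‖U (W x)‖ = ‖U x‖ := fun x hx => by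
    rw [@norm_eq_sqrt_re_inner ℂ, @norm_eq_sqrt_re_inner ℂ _ _ _ _ (U x), key x hx x hx]
  have h1 := le_of_span e (A := fun x => U (W x)) (B := U) (U.continuous.comp W.continuous)
    U.continuous 1 (fun x hx => by rw [key2 x hx, one_mul])
  have h2 := le_of_span e (A := U) (B := fun x => U (W x)) U.continuous
    (U.continuous.comp W.continuous) 1 (fun x hx => by rw [key2 x hx, one_mul])
  refine gram_inv e U.ker W (fun x hx => ?_) (fun y hy => ?_) ρ c hc hW j k
  · have := h1 x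
    rw [show U x = 0 from hx, norm_zero, mul_zero] at this
    exact norm_le_zero_iff.1 this
  · obtain ⟨x, rfl⟩ := hsurj y
    refine ⟨x, ?_, rfl⟩
    have := h2 x
    rw [show U (W x) = 0 from hy, norm_zero, mul_zero] at this
    exact norm_le_zero_iff.1 this

theorem abstract_nat (e : HilbertBasis ι ℂ H) {v : ι → H} (hv : IsFrame v) {γ : ℝ} (hγ : 0 < γ)
    (h : ∀ i, γ ≤ ‖v i‖) (σ : ℕ ≃ ι) (hT : BoundedRep (v ∘ σ)) : IsRieszBasis v := by
  obtain ⟨U, hU, hR⟩ := synthesis e hv
  let s : ι → ι := fun i => σ (σ.symm i + 1)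
  have hs : Function.Injective s := fun i j hij => σ.symm.injective (by simpa [s] using hij)
  obtain ⟨S, hS⟩ := exists_iso e (e.orthonormal.comp s hs)
  have hN := shift_ker e U hU σ hT S hS
  have hit : ∀ n j, s^[n] (σ j) = σ (j + n) := fun n j => by
    induction n with
    | zero => rfl
    | succ n ih => rw [Function.iterate_succ_apply', ih]; simp [s, add_assoc]
  have hw := wander e U S s hS hN hγ (fun i => by rw [hU]; exact h i) (fun F => by
    refine ⟨σ (F.sup σ.symm), fun j => F.sup σ.symm - σ.symm j, fun a ha b hb hab => ?_,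
      fun j hj => ?_⟩
    · have h1 := Finset.le_sup (f := σ.symm) ha
      have h2 := Finset.le_sup (f := σ.symm) hb
      dsimp only at hab
      exact σ.symm.injective (by omega)
    · have h1 := Finset.le_sup (f := σ.symm) hj
      conv_lhs => rw [← σ.apply_symm_apply j]
      rw [hit]
      congr 1
      simp only [Equiv.symm_apply_apply]
      omega)
  refine hR ((Submodule.eq_bot_iff _).2 fun y hy => ?_)
  have key : ∀ n : ℕ, ∀ y ∈ U.ker, ⟪e (σ n), y⟫_ℂ = 0 := by
    intro n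
    induction n with
    | zero =>
      intro y hy
      obtain ⟨x, -, rfl⟩ := hw y hy
      have : ∀ x ∈ Submodule.span ℂ (range e), ‖⟪e (σ 0), S x⟫_ℂ • e (σ 0)‖ ≤ 0 * ‖x‖ := by
        intro x hx
        rw [zero_mul, norm_le_zero_iff]
        induction hx using Submodule.span_induction with
        | mem x hx =>
          obtain ⟨i, rfl⟩ := hx
          rw [hS, Function.comp, e.orthonormal.2, zero_smul]
          intro h0
          simp [s] at h0
        | zero => simp
        | add x y _ _ hx hy => rw [map_add, inner_add_right, add_smul, hx, hy, add_zero]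
        | smul c x _ hx => rw [map_smul, inner_smul_right, mul_smul, hx, smul_zero]
      have h2 := le_of_span e (A := fun x => ⟪e (σ 0), S x⟫_ℂ • e (σ 0)) (B := id)
        (by have := S.continuous; fun_prop) continuous_id 0 this x
      rw [zero_mul, norm_le_zero_iff, smul_eq_zero] at h2
      exact h2.resolve_right (e.orthonormal.ne_zero _)
    | succ n ih =>
      intro y hy
      obtain ⟨x, hx, rfl⟩ := hw y hy
      have : e (σ (n + 1)) = S (e (σ n)) := by rw [hS]; simp [s]
      rw [this, S.inner_map_map, ih x hx]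
  apply e.repr.injective
  ext i
  rw [e.repr_apply_apply, ← σ.apply_symm_apply i, key _ y hy]; simp

theorem abstract_int (e : HilbertBasis (ℤ × ℤ) ℂ H) {v : ℤ × ℤ → H} (hv : IsFrame v) {γ : ℝ}
    (hγ : 0 < γ) (h : ∀ i, γ ≤ ‖v i‖)
    (hG : ∀ μ : ℤ × ℤ, ∃ c : ℤ × ℤ → ℂ, (∀ i, ‖c i‖ = 1) ∧
      ∀ i j, ⟪c i • v (i + μ), c j • v (j + μ)⟫_ℂ = ⟪v i, v j⟫_ℂ)
    (σ : ℤ ≃ ℤ × ℤ) (hT : BoundedRep (v ∘ σ)) : IsRieszBasis v := by
  obtain ⟨U, hU, hR⟩ := synthesis e hv
  let s : ℤ × ℤ → ℤ × ℤ := fun i => σ (σ.symm i + 1)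
  have hs : Function.Injective s := fun i j hij => σ.symm.injective (by simpa [s] using hij)
  obtain ⟨S, hS⟩ := exists_iso e (e.orthonormal.comp s hs)
  have hN := shift_ker e U hU σ hT S hS
  have hit : ∀ (n : ℕ) j, s^[n] (σ j) = σ (j + n) := fun n j => by
    induction n with
    | zero => simp
    | succ n ih => rw [Function.iterate_succ_apply', ih]; simp [s, add_assoc]
  have hw := wander e U S s hS hN hγ (fun i => by rw [hU]; exact h i) (fun F => by
    obtain ⟨K, hK⟩ := (F.finite_toSet.image σ.symm).bddAbove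
    refine ⟨σ K, fun j => (K - σ.symm j).toNat, fun a ha b hb hab => ?_, fun j hj => ?_⟩
    · have h1 := hK ⟨a, ha, rfl⟩
      have h2 := hK ⟨b, hb, rfl⟩
      dsimp only at hab
      exact σ.symm.injective (by omega)
    · have h1 := hK ⟨j, hj, rfl⟩
      conv_lhs => rw [← σ.apply_symm_apply j]
      rw [hit]
      congr 1
      simp only [Equiv.symm_apply_apply]
      omega)
  set P := U.ker.starProjection with hP
  let G : ℤ × ℤ → ℤ × ℤ → ℝ := fun j k => ‖⟪e j, P (e k)⟫_ℂ‖
  have g1 : ∀ j k, G (s j) (s k) = G j k :=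
    gram_inv e U.ker S hN hw s (fun _ => 1) (by simp) (fun i => by rw [hS]; simp)
  have g1' : ∀ (t j k : ℤ), G (σ (j + t)) (σ (k + t)) = G (σ j) (σ k) := by
    intro t
    induction t using Int.induction_on with
    | zero => simp
    | succ t ih =>
      intro j k
      rw [← ih j k, ← g1 (σ (j + t))]; simp [s, add_assoc]
    | pred t ih =>
      intro j k
      rw [← ih j k, ← g1 (σ (j + (-t - 1)))]; simp [s, add_assoc]
  have g2 : ∀ μ j k, G (j + μ) (k + μ) = G j k := fun μ j k => by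
    obtain ⟨c, hc, hc'⟩ := hG μ
    exact twist e U hU (Equiv.addRight μ) c hc hc' j k
  have hoff : ∀ j k, j ≠ k → G j k = 0 := by
    intro j k hjk
    by_contra h0
    have hpos : 0 < G j k := lt_of_le_of_ne (norm_nonneg _) (Ne.symm h0)
    have hh : ∀ j k : ℤ, G (σ j - σ k) 0 = G (σ (j - k)) (σ 0) := fun j k => by
      rw [← g2 (σ k), ← g1' k (j - k) 0]; simp
    refine growth σ (fun l => G l 0) (fun d => G (σ d) (σ 0)) hh (ε := G j k) ?_
      (d0 := σ.symm j - σ.symm k) (fun h0 => hjk (σ.symm.injective (sub_eq_zero.1 h0))) ?_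
    · have hs := (e.orthonormal.comp σ σ.injective).inner_products_summable (P (e (σ 0)))
      have := hs.tendsto_cofinite_zero.eventually
        (gt_mem_nhds (show (0 : ℝ) < G j k ^ 2 by positivity))
      refine (eventually_cofinite.1 this).subset fun d hd => ?_
      simp only [mem_ofPred_eq, not_lt] at hd ⊢
      exact pow_le_pow_left₀ hpos.le hd 2
    · rw [← hh, ← g2 k (σ (σ.symm j) - σ (σ.symm k)) 0]; simp
  have hP0 : ∀ k, P (e k) = 0 := fun k => by
    have e1 : P (e k) = ⟪e k, P (e k)⟫_ℂ • e k := by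
      refine (e.hasSum_repr (P (e k))).unique ?_
      rw [← e.repr_apply_apply]
      refine hasSum_single k fun j hj => ?_
      rw [e.repr_apply_apply, norm_eq_zero.1 (hoff j k hj), zero_smul]
    have e2 : U (P (e k)) = 0 := U.ker.starProjection_apply_mem (e k)
    rw [e1, map_smul, hU, smul_eq_zero] at e2
    rcases e2 with e2 | e2
    · rw [e1, e2, zero_smul]
    · have := h k
      rw [e2, norm_zero] at this
      linarith
  have hP1 : P = 0 := ContinuousLinearMap.ext_on (dense_e e) (by rintro _ ⟨k, rfl⟩; exact hP0 k)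
  refine hR ((Submodule.eq_bot_iff _).2 fun y hy => ?_)
  rw [← (Submodule.starProjection_eq_self_iff).2 hy, ← hP, hP1]; rfl

noncomputable def ex (t : ℝ) : ℂ := Complex.exp (2 * Real.pi * Complex.I * (t : ℂ))

lemma ex_add (s t : ℝ) : ex (s + t) = ex s * ex t := by
  unfold ex; rw [← Complex.exp_add]; congr 1; push_cast; ring

lemma norm_ex (t : ℝ) : ‖ex t‖ = 1 := by
  rw [ex, show 2 * (Real.pi : ℂ) * Complex.I * (t : ℂ) = ((2 * Real.pi * t : ℝ) : ℂ) * Complex.I by
    push_cast; ring]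
  exact Complex.norm_exp_ofReal_mul_I _

lemma conj_ex (t : ℝ) : conj (ex t) = ex (-t) := by
  unfold ex; rw [← Complex.exp_conj]; congr 1; simp [map_ofNat]

lemma gabor_inner {a b : ℝ} {g : Lp ℂ 2 (volume : Measure ℝ)}
    {v : ℤ × ℤ → Lp ℂ 2 (volume : Measure ℝ)} (hv : IsGabor a b g v) (i j : ℤ × ℤ) :
    ⟪v i, v j⟫_ℂ = ∫ x : ℝ, ex ((j.1 - i.1) * b * x) * (g (x - j.2 * a) * conj (g (x - i.2 * a))) := by
  rw [L2.inner_def]
  refine integral_congr_ae ?_
  filter_upwards [hv i.1 i.2, hv j.1 j.2] with x h1 h2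
  rw [RCLike.inner_apply, show v i x = _ from h1, show v j x = _ from h2, map_mul]
  have e1 : ex ((j.1 - i.1) * b * x) = ex (j.1 * b * x) * conj (ex (i.1 * b * x)) := by
    rw [conj_ex, ← ex_add]; congr 1; ring
  rw [e1]
  unfold ex
  ring

lemma gabor_cov {a b : ℝ} {g : Lp ℂ 2 (volume : Measure ℝ)}
    {v : ℤ × ℤ → Lp ℂ 2 (volume : Measure ℝ)} (hv : IsGabor a b g v) (μ : ℤ × ℤ) :
    ∃ c : ℤ × ℤ → ℂ, (∀ i, ‖c i‖ = 1) ∧
      ∀ i j, ⟪c i • v (i + μ), c j • v (j + μ)⟫_ℂ = ⟪v i, v j⟫_ℂ := by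
  refine ⟨fun i => ex (-(i.1 * b * (μ.2 * a))), fun i => norm_ex _, fun i j => ?_⟩
  rw [inner_smul_left, inner_smul_right, gabor_inner hv, gabor_inner hv,
    ← integral_add_right_eq_self _ (μ.2 * a), ← integral_const_mul, ← integral_const_mul]
  refine integral_congr_ae (Eventually.of_forall fun x => ?_)
  simp only [Prod.fst_add, Prod.snd_add, Int.cast_add]
  rw [show x + μ.2 * a - (j.2 + μ.2) * a = x - j.2 * a by ring,
    show x + μ.2 * a - (i.2 + μ.2) * a = x - i.2 * a by ring, conj_ex, ← mul_assoc, ← mul_assoc,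
    ← ex_add, ← ex_add]
  congr 2
  ring

lemma gabor_norm {a b : ℝ} {g : Lp ℂ 2 (volume : Measure ℝ)}
    {v : ℤ × ℤ → Lp ℂ 2 (volume : Measure ℝ)} (hv : IsGabor a b g v) (hf : IsFrame v) :
    0 < ‖v 0‖ ∧ ∀ i, ‖v 0‖ ≤ ‖v i‖ := by
  have h1 : ∀ i, ‖v i‖ = ‖v 0‖ := fun i => by
    obtain ⟨c, hc, h⟩ := gabor_cov hv i
    have := h 0 0
    rw [zero_add] at this
    rw [@norm_eq_sqrt_re_inner ℂ _ _ _ _ (v 0), ← this, ← @norm_eq_sqrt_re_inner ℂ, norm_smul, hc,
      one_mul]
  refine ⟨?_, fun i => (h1 i).ge⟩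
  by_contra h0
  have h2 : ∀ i, v i = 0 := fun i => by
    rw [← norm_le_zero_iff, h1]; exact not_lt.1 h0
  obtain ⟨A, B, hA, -, h⟩ := hf
  have := (h (indicatorConstLp 2 (measurableSet_Icc (a := (0 : ℝ)) (b := 1)) (by simp) (1 : ℂ))).2.1
  rw [norm_indicatorConstLp (by norm_num) (by norm_num)] at this
  simp [h2] at this
  linarith

end Pool.Agent.Lib.H29.Orbit
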