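import Mathlib

open Matrix Filter Topology
open scoped ComplexOrder

namespace Pool.Agent.Lib.H29.Pick

universe u

variable {X : Type*}

/-- A kernel on `X`: a positive semidefinite function (Mathlib's notion for an arbitrary index
type: Hermitian and nonnegative on all finitely supported vectors). -/
def IsKernel (k : X → X → ℂ) : Prop := (Matrix.of k).PosSemidef

/-- The block matrix `[ℓ(z i, z j) I - k(z i, z j) W i (W j)^*]`. -/
def pick {ι : Type*} {N : ℕ} (k l : X → X → ℂ) (z : ι → X) (W : ι → Matrix (Fin N) (Fin N) ℂ) :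
    Matrix (ι × Fin N) (ι × Fin N) ℂ :=
  Matrix.of fun p q => l (z p.1) (z q.1) * (1 : Matrix (Fin N) (Fin N) ℂ) p.2 q.2
    - k (z p.1) (z q.1) * (W p.1 * (W q.1)ᴴ) p.2 q.2

/-- `Φ` is a contractive multiplier: `ℓ(z,w) I - k(z,w) Φ(z) Φ(w)^*` is a positive kernel on `X`. -/
def IsContr {N : ℕ} (k l : X → X → ℂ) (Φ : X → Matrix (Fin N) (Fin N) ℂ) : Prop :=
  (pick k l id Φ).PosSemidef

/-- Complete Pick pair. -/
def IsCPPair (k l : X → X → ℂ) : Prop :=
  ∀ n N : ℕ, 1 ≤ n → 1 ≤ N → ∀ (z : Fin n → X) (W : Fin n → Matrix (Fin N) (Fin N) ℂ),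
    (pick k l z W).PosSemidef → ∃ Φ : X → Matrix (Fin N) (Fin N) ℂ,
      IsContr k l Φ ∧ ∀ i, Φ (z i) = W i

open Classical in
/-- The kernel `k^z`. -/
noncomputable def schur (k : X → X → ℂ) (z : X) (x y : X) : ℂ :=
  if k z z = 0 then k x y else k x y - k x z * k z y / k z z

/-- A Shimorin certificate: kernels `p[z]` with `ℓ^z ⪰ p[z] ℓ` and `k^z ⪯ p[z] k`. -/
def HasCertificate (k l : X → X → ℂ) : Prop :=
  ∃ p : X → X → X → ℂ, ∀ z, IsKernel (p z) ∧
    IsKernel (fun x y => schur l z x y - p z x y * l x y) ∧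
    IsKernel (fun x y => p z x y * k x y - schur k z x y)

def T {I D : Type*} [Fintype D] (k l : X → X → ℂ) (x : I → X) (α β : Matrix I D ℂ) :
    Matrix I I ℂ :=
  Matrix.of fun a b => l (x a) (x b) * (α * αᴴ) a b - k (x a) (x b) * (β * βᴴ) a b

lemma gram {I D : Type*} [Fintype D] (α : Matrix I D ℂ) (a b : I) :
    (α * αᴴ) a b = α a ⬝ᵥ star (α b) := rfl

lemma compress {I : Type*} [Fintype I] {N : ℕ} {k l : X → X → ℂ}
    {Φ : X → Matrix (Fin N) (Fin N) ℂ} (h : IsContr k l Φ) (x : I → X) (α : Matrix I (Fin N) ℂ) :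
    (T k l x α (Matrix.of fun a => α a ᵥ* Φ (x a))).PosSemidef := by
  classical
  have h1 := (h.submatrix (fun p : I × Fin N => (x p.1, p.2))).mul_mul_conjTranspose_same
    (Matrix.of fun (a : I) (p : I × Fin N) => if a = p.1 then α a p.2 else 0)
  convert h1 using 1
  ext a b
  have e1 : (T k l x α (Matrix.of fun a => α a ᵥ* Φ (x a))) a b = (α a ᵥ* (l (x a) (x b) •
      (1 : Matrix (Fin N) (Fin N) ℂ) - k (x a) (x b) • (Φ (x a) * (Φ (x b))ᴴ))) ⬝ᵥ star (α b) := by
    simp only [T, of_apply, gram]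
    rw [vecMul_sub, vecMul_smul, vecMul_smul, vecMul_one, sub_dotProduct, smul_dotProduct,
      smul_dotProduct, ← vecMul_vecMul, ← dotProduct_mulVec (α a ᵥ* Φ (x a)), ← star_vecMul]
    rfl
  rw [e1]
  simp [mul_apply, Fintype.sum_prod_type, vecMul, dotProduct, pick, apply_ite (starRingEnd ℂ)]

lemma range_ex {I D J : Type*} [Fintype I] [Fintype D] [Fintype J] (A : Matrix I J ℂ)
    (B : Matrix D J ℂ) : ∃ C : Matrix I D ℂ, A * Bᴴ = A * Aᴴ * C := by
  classical
  have h : LinearMap.range (A * Aᴴ).mulVecLin = LinearMap.range A.mulVecLin := by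
    apply Submodule.eq_of_le_of_finrank_eq
    · rw [mulVecLin_mul]; exact LinearMap.range_comp_le_range _ _
    · exact rank_self_mul_conjTranspose A
  have h2 : ∀ d : D, ∃ c : I → ℂ, (A * Aᴴ) *ᵥ c = A *ᵥ (fun j => Bᴴ j d) := by
    intro d
    have : A *ᵥ (fun j => Bᴴ j d) ∈ LinearMap.range (A * Aᴴ).mulVecLin := by
      rw [h]; exact ⟨_, rfl⟩
    exact this
  choose c hc using h2
  refine ⟨Matrix.of fun i d => c d i, ?_⟩
  ext i d
  exact (congrFun (hc d) i).symm

open MatrixOrder in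
lemma factor {J : Type*} [Fintype J] {M : Matrix J J ℂ} (h : M.PosSemidef) :
    ∃ B : Matrix J J ℂ, M = B * Bᴴ := by
  classical
  obtain ⟨B, rfl⟩ := CStarAlgebra.nonneg_iff_eq_mul_star_self.mp h.nonneg
  exact ⟨B, rfl⟩

lemma parrott {I D E : Type*} [Fintype I] [Fintype D] [Fintype E]
    (M : Matrix (I ⊕ D) (I ⊕ D) ℂ) (hM : M.PosSemidef) (Γ : Matrix I E ℂ)
    (h : (M.submatrix Sum.inl Sum.inl - Γ * Γᴴ).PosSemidef) :
    ∃ Γ' : Matrix D E ℂ, (M - fromRows Γ Γ' * (fromRows Γ Γ')ᴴ).PosSemidef := by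
  classical
  obtain ⟨N, rfl⟩ := factor hM
  set A := N.toRows₁
  set B := N.toRows₂
  have hN : N = fromRows A B := (fromRows_toRows N).symm
  obtain ⟨C, hC⟩ := range_ex A B
  have hA : (N * Nᴴ).submatrix Sum.inl Sum.inl = A * Aᴴ := by
    ext i j; rfl
  rw [hA] at h
  refine ⟨Cᴴ * Γ, ?_⟩
  set P : Matrix (I ⊕ D) I ℂ := fromRows (1 : Matrix I I ℂ) Cᴴ with hP
  set R : Matrix (I ⊕ D) (I ⊕ D) ℂ := fromRows (0 : Matrix I (I ⊕ D) ℂ) (B - Cᴴ * A) with hR
  have h1 := h.mul_mul_conjTranspose_same P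
  have h2 := posSemidef_self_mul_conjTranspose R
  have e1 : fromRows Γ (Cᴴ * Γ) = P * Γ := by rw [hP, fromRows_mul, Matrix.one_mul]
  have e2 : N = P * A + R := by
    rw [hN, hP, hR, fromRows_mul, Matrix.one_mul]
    ext (i | i) j <;> simp
  have e3 : A * Rᴴ = 0 := by
    rw [hR, conjTranspose_fromRows_eq_fromCols_conjTranspose, mul_fromCols, conjTranspose_sub,
      conjTranspose_mul, conjTranspose_conjTranspose, Matrix.mul_sub, hC, Matrix.mul_assoc]
    simp
  have e4 : R * Aᴴ = 0 := by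
    have := congrArg conjTranspose e3
    simpa [conjTranspose_mul] using this
  convert h1.add h2 using 1
  rw [e1, e2]
  simp only [conjTranspose_add, conjTranspose_mul, Matrix.add_mul, Matrix.mul_add, Matrix.mul_sub,
    Matrix.sub_mul, Matrix.mul_assoc, e3, Matrix.mul_zero]
  rw [← Matrix.mul_assoc R, e4, Matrix.zero_mul]
  abel

lemma gram2 {ι : Type*} {M : Matrix ι ι ℂ} (h : M.PosSemidef) (i j : ι) :
    ∃ u v : Fin 2 → ℂ, M i i = u ⬝ᵥ star u ∧ M j j = v ⬝ᵥ star v ∧ M i j = u ⬝ᵥ star v := by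
  obtain ⟨B, hB⟩ := factor (h.submatrix ![i, j])
  exact ⟨B 0, B 1, congrFun (congrFun hB 0) 0, congrFun (congrFun hB 1) 1,
    congrFun (congrFun hB 0) 1⟩

lemma row_zero {ι : Type*} {M : Matrix ι ι ℂ} (h : M.PosSemidef) {i : ι} (h0 : M i i = 0)
    (j : ι) : M i j = 0 ∧ M j i = 0 := by
  obtain ⟨u, v, h1, -, h3⟩ := gram2 h i j
  have hu : u = 0 := dotProduct_self_star_eq_zero.1 (h1.symm.trans h0)
  have h4 : M i j = 0 := by rw [h3, hu, zero_dotProduct]
  exact ⟨h4, by rw [← h.1.apply j i, h4, star_zero]⟩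

lemma swap {J D : Type*} [Fintype D] (k l : X → X → ℂ) (bad : X → Prop) (g : X → ℂ)
    (hg : ∀ y y', bad y ∨ bad y' → k y y' = g y * star (g y')) (x : J → X)
    (α β γ : Matrix J D ℂ) (h : ∀ a, ¬ bad (x a) → β a = γ a) :
    T k l x α β + (Matrix.of fun a t => g (x a) * β a t) * (Matrix.of fun a t => g (x a) * β a t)ᴴ
      - (Matrix.of fun a t => g (x a) * γ a t) * (Matrix.of fun a t => g (x a) * γ a t)ᴴ
      = T k l x α γ := by
  have e : ∀ (δ : Matrix J D ℂ) (a b : J), ((Matrix.of fun a t => g (x a) * δ a t)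
      * (Matrix.of fun a t => g (x a) * δ a t)ᴴ : Matrix J J ℂ) a b
      = g (x a) * star (g (x b)) * (δ * δᴴ) a b := by
    intro δ a b
    simp only [mul_apply, of_apply, conjTranspose_apply, star_mul', Finset.mul_sum]
    exact Finset.sum_congr rfl fun t _ => by ring
  ext a b
  rw [Matrix.sub_apply, Matrix.add_apply, e, e]
  simp only [T, of_apply]
  by_cases hab : bad (x a) ∨ bad (x b)
  · rw [hg _ _ hab]; ring
  · push Not at hab
    rw [gram β, gram γ, h a hab.1, h b hab.2]; ring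

lemma ex_g {k : X → X → ℂ} (hk : IsKernel k) (w : X) : ∃ g : X → ℂ, (g w = 0 → ∀ y, g y = 0) ∧
    (∀ y y', schur k w y y' = k y y' - g y * star (g y')) ∧
    ∀ y y', (y = w ∨ k y y = 0) ∨ (y' = w ∨ k y' y' = 0) → k y y' = g y * star (g y') := by
  have hz : ∀ y, k y y = 0 → ∀ y', k y y' = 0 ∧ k y' y = 0 := fun y h y' => row_zero hk h y'
  by_cases hw : k w w = 0
  · refine ⟨fun _ => 0, fun _ _ => rfl, fun y y' => by simp [schur, hw], fun y y' h => ?_⟩
    rw [zero_mul]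
    rcases h with (rfl | h) | (rfl | h)
    exacts [(hz _ hw _).1, (hz _ h _).1, (hz _ hw _).2, (hz _ h _).2]
  have h0 : 0 ≤ k w w := hk.diag_nonneg (i := w)
  obtain ⟨r, hr, hr'⟩ : ∃ r : ℝ, 0 ≤ r ∧ k w w = r := by
    obtain ⟨h1, h2⟩ := Complex.le_def.1 h0
    exact ⟨(k w w).re, h1, Complex.ext rfl (by simpa using h2.symm)⟩
  have hs : ((√r : ℝ) : ℂ) * (√r : ℝ) = k w w := by
    rw [hr']; exact_mod_cast Real.mul_self_sqrt hr
  have hs0 : ((√r : ℝ) : ℂ) ≠ 0 := fun e => hw (by rw [← hs, e, zero_mul])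
  have hH : ∀ y y', star (k y y') = k y' y := fun y y' => hk.1.apply y' y
  have hst : star ((√r : ℝ) : ℂ) = (√r : ℝ) := Complex.conj_ofReal _
  refine ⟨fun y => k y w / (√r : ℝ), fun h => (div_ne_zero hw hs0 h).elim, fun y y' => ?_,
    fun y y' h => ?_⟩
  · simp only [star_div₀, hH, hst, schur, if_neg hw]
    rw [← hs]; field_simp
  · simp only [star_div₀, hH, hst]
    rcases h with (rfl | h) | (rfl | h)
    · rw [← hs]; field_simp
    · rw [(hz _ h _).1, (hz _ h _).1]; simp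
    · rw [← hs]; field_simp
    · rw [(hz _ h _).2, (hz _ h _).2]; simp

lemma step {I : Type*} [Fintype I] {N : ℕ} {k l : X → X → ℂ} (hk : IsKernel k) (w : X)
    (x : I → X) (α β : Matrix I (Fin N) ℂ) (h : (T k l x α β).PosSemidef)
    {Φ : X → Matrix (Fin N) (Fin N) ℂ} (hΦ : IsContr k l Φ)
    (hm : ∀ a, x a ≠ w → k (x a) (x a) ≠ 0 → α a ᵥ* Φ (x a) = β a) :
    ∃ V : Matrix (Fin N) (Fin N) ℂ, (T k l (Sum.elim x fun _ => w)
      (fromRows α (1 : Matrix (Fin N) (Fin N) ℂ)) (fromRows β V)).PosSemidef := by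
  obtain ⟨g, hg0, -, hg⟩ := ex_g hk w
  set x' : I ⊕ Fin N → X := Sum.elim x fun _ => w with hx'
  set α' := fromRows α (1 : Matrix (Fin N) (Fin N) ℂ) with hα'
  set β' : Matrix (I ⊕ Fin N) (Fin N) ℂ := Matrix.of fun a => α' a ᵥ* Φ (x' a) with hβ'
  have hs : ∀ V : Matrix (Fin N) (Fin N) ℂ, ∀ a, ¬ (x' a = w ∨ k (x' a) (x' a) = 0) →
      β' a = fromRows β V a := by
    rintro V (a | a) ha
    · exact hm a (fun h => ha (Or.inl h)) (fun h => ha (Or.inr h))
    · exact (ha (Or.inl rfl)).elim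
  by_cases hw : g w = 0
  · refine ⟨0, ?_⟩
    rw [← swap k l (fun y => y = w ∨ k y y = 0) g hg x' α' β' _ (hs 0)]
    have e : ∀ δ : Matrix (I ⊕ Fin N) (Fin N) ℂ, (Matrix.of fun a t => g (x' a) * δ a t) = 0 := by
      intro δ; ext a t; simp [hg0 hw]
    rw [e, e, add_sub_cancel_right]
    exact compress hΦ x' α'
  have h1 := (compress hΦ x' α').add
    (posSemidef_self_mul_conjTranspose (Matrix.of fun a t => g (x' a) * β' a t))
  obtain ⟨Γ, hΓ⟩ := parrott _ h1 (Matrix.of fun a t => g (x a) * β a t) (by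
    have := swap k l (fun y => y = w ∨ k y y = 0) g hg x α (Matrix.of fun a => α a ᵥ* Φ (x a)) β
      fun a ha => hm a (fun h => ha (Or.inl h)) (fun h => ha (Or.inr h))
    rw [← this] at h
    exact h)
  refine ⟨(g w)⁻¹ • Γ, ?_⟩
  rw [← swap k l (fun y => y = w ∨ k y y = 0) g hg x' α' β' _ (hs ((g w)⁻¹ • Γ))]
  have : (Matrix.of fun a t => g (x' a) * fromRows β ((g w)⁻¹ • Γ) a t)
      = fromRows (Matrix.of fun a t => g (x a) * β a t) Γ := by
    ext (a | a) t <;> simp [hx', hw]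
  rw [this]
  exact hΓ

lemma consist {I : Type*} {N : ℕ} {k l : X → X → ℂ} (hk : IsKernel k)
    (x : I → X) (α β : Matrix I (Fin N) ℂ) (h : (T k l x α β).PosSemidef) (a : I)
    (ha : k (x a) (x a) ≠ 0)
    (b : Fin N → I) (hb : ∀ r, x (b r) = x a ∧ α (b r) = (1 : Matrix (Fin N) (Fin N) ℂ) r) :
    α a ᵥ* (Matrix.of fun r => β (b r)) = β a := by
  let e : Unit ⊕ Fin N → I := Sum.elim (fun _ => a) b
  have hx : ∀ j, x (e j) = x a := by
    rintro (j | j)
    exacts [rfl, (hb j).1]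
  have h1 : (T k l x α β).submatrix e e = l (x a) (x a) • (α.submatrix e id * (α.submatrix e id)ᴴ)
      - k (x a) (x a) • (β.submatrix e id * (β.submatrix e id)ᴴ) := by
    ext i j
    simp only [submatrix_apply, T, of_apply, hx]
    rfl
  let c : Matrix Unit (Unit ⊕ Fin N) ℂ := Matrix.of fun _ => Sum.elim (fun _ => -1) (α a)
  have h2 := (h.submatrix e).mul_mul_conjTranspose_same c
  have h3 : c * α.submatrix e id = 0 := by
    ext i t
    simp [mul_apply, c, e, (hb _).2, one_apply]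
  have h4 : ∀ t, (c * β.submatrix e id) () t = (α a ᵥ* (Matrix.of fun r => β (b r)) - β a) t := by
    intro t
    simp [mul_apply, c, e, vecMul, dotProduct]
    ring
  rw [h1, Matrix.mul_sub, Matrix.mul_smul, Matrix.mul_smul, ← Matrix.mul_assoc, h3,
    Matrix.zero_mul, smul_zero, zero_sub, Matrix.neg_mul, Matrix.smul_mul, ← Matrix.mul_assoc,
    Matrix.mul_assoc _ _ cᴴ, ← conjTranspose_mul] at h2
  have h5 := h2.diag_nonneg (i := ())
  rw [Matrix.neg_apply, Matrix.smul_apply, gram, funext h4, smul_eq_mul] at h5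
  have h0 : 0 < k (x a) (x a) := lt_of_le_of_ne (hk.diag_nonneg (i := x a)) ha.symm
  have h6 := dotProduct_self_star_nonneg (α a ᵥ* (Matrix.of fun r => β (b r)) - β a)
  have h7 := le_antisymm (neg_nonneg.1 h5) (mul_nonneg h0.le h6)
  exact sub_eq_zero.1 (dotProduct_self_star_eq_zero.1 ((mul_eq_zero.1 h7).resolve_left h0.ne'))

lemma zero_contr {N : ℕ} {k l : X → X → ℂ} (hl : IsKernel l) :
    IsContr k l (fun _ => (0 : Matrix (Fin N) (Fin N) ℂ)) := by
  have := (PosSemidef.submatrix hl (Prod.fst : X × Fin N → X)).hadamard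
    ((PosSemidef.one : (1 : Matrix (Fin N) (Fin N) ℂ).PosSemidef).submatrix Prod.snd)
  have e : pick k l id (fun _ => (0 : Matrix (Fin N) (Fin N) ℂ))
      = (Matrix.of l).submatrix Prod.fst Prod.fst ⊙
        (1 : Matrix (Fin N) (Fin N) ℂ).submatrix Prod.snd Prod.snd := by
    ext p q
    simp [pick]
  unfold IsContr
  rw [e]
  exact this

lemma tang {N : ℕ} (hN : 1 ≤ N) {k l : X → X → ℂ} (hk : IsKernel k) (hl : IsKernel l)
    (hcp : IsCPPair k l) (F : Finset X) : ∀ (I : Type u) [Fintype I] (x : I → X)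
    (α β : Matrix I (Fin N) ℂ), (T k l x α β).PosSemidef →
    (∀ a, x a ∈ F ∨ ∀ r, ∃ b, x b = x a ∧ α b = (1 : Matrix (Fin N) (Fin N) ℂ) r) →
    ∃ Φ, IsContr k l Φ ∧ ∀ a, k (x a) (x a) ≠ 0 → α a ᵥ* Φ (x a) = β a := by
  classical
  induction F using Finset.induction_on with
  | empty =>
    intro I _ x α β h hf
    rcases isEmpty_or_nonempty I with hI | hI
    · exact ⟨_, zero_contr hl, fun a => hI.elim a⟩
    have hf' : ∀ a r, ∃ b, x b = x a ∧ α b = (1 : Matrix (Fin N) (Fin N) ℂ) r :=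
      fun a => (hf a).resolve_left (by simp)
    choose b hb using hf'
    let e := (Fintype.equivFin I).symm
    obtain ⟨Φ, h1, h2⟩ := hcp _ N Fintype.card_pos hN (fun i => x (e i))
      (fun i => Matrix.of fun r => β (b (e i) r)) (by
        convert h.submatrix (fun p : Fin (Fintype.card I) × Fin N => b (e p.1) p.2) using 1
        ext p q
        have e1 : (α * αᴴ) (b (e p.1) p.2) (b (e q.1) q.2)
            = (1 : Matrix (Fin N) (Fin N) ℂ) p.2 q.2 := by
          rw [gram, (hb _ _).2, (hb _ _).2, ← gram, conjTranspose_one, Matrix.mul_one]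
        simp only [pick, T, of_apply, submatrix_apply, (hb _ _).1, e1]
        rfl)
    refine ⟨Φ, h1, fun a ha => ?_⟩
    obtain ⟨i, rfl⟩ := e.surjective a
    rw [h2 i]
    exact consist hk x α β h _ ha _ (hb _)
  | insert w F _ ih =>
    intro I _ x α β h hf
    obtain ⟨Φ, h1, h2⟩ := ih {a // x a ≠ w} (fun a => x a) (α.submatrix (↑) id)
      (β.submatrix (↑) id) (h.submatrix (Subtype.val : {a // x a ≠ w} → I)) (by
        rintro ⟨a, ha⟩
        rcases hf a with h3 | h3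
        · exact Or.inl ((Finset.mem_insert.1 h3).resolve_left ha)
        · refine Or.inr fun r => ?_
          obtain ⟨b, hb, hb'⟩ := h3 r
          exact ⟨⟨b, hb ▸ ha⟩, hb, hb'⟩)
    obtain ⟨V, hV⟩ := step hk w x α β h h1 fun a ha => h2 ⟨a, ha⟩
    obtain ⟨Ψ, h3, h4⟩ := ih _ _ _ _ hV (by
      have hw : ∀ a : I ⊕ Fin N, Sum.elim x (fun _ => w) a = w → ∀ r, ∃ b : I ⊕ Fin N,
          Sum.elim x (fun _ => w) b = Sum.elim x (fun _ => w) a ∧
          fromRows α (1 : Matrix (Fin N) (Fin N) ℂ) b = (1 : Matrix (Fin N) (Fin N) ℂ) r :=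
        fun a ha r => ⟨Sum.inr r, ha.symm, rfl⟩
      rintro (a | a)
      · rcases hf a with h3 | h3
        · rcases Finset.mem_insert.1 h3 with h4 | h4
          · exact Or.inr (hw _ h4)
          · exact Or.inl h4
        · refine Or.inr fun r => ?_
          obtain ⟨b, hb, hb'⟩ := h3 r
          exact ⟨Sum.inl b, hb, hb'⟩
      · exact Or.inr (hw _ rfl))
    exact ⟨Ψ, h3, fun a => h4 (Sum.inl a)⟩

lemma psd_of_fin {ι : Type*} (M : Matrix ι ι ℂ)
    (h : ∀ S : Finset ι, (M.submatrix (↑) (↑) : Matrix S S ℂ).PosSemidef) : M.PosSemidef := by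
  classical
  refine ⟨IsHermitian.ext fun i j => (h {i, j}).1.apply ⟨i, by simp⟩ ⟨j, by simp⟩, fun x => ?_⟩
  simpa [Finsupp.sum, ← Finset.sum_attach x.support, ← Finset.subtype_mem_eq_attach,
    ← Finsupp.subtypeDomain_apply, ← Finsupp.support_subtypeDomain] using (h x.support).2 _

lemma psd_lim {ι κ : Type*} [Fintype ι] (U : Filter κ) [U.NeBot] (M : κ → Matrix ι ι ℂ)
    (L : Matrix ι ι ℂ) (h : ∀ i j, Tendsto (fun y => M y i j) U (𝓝 (L i j)))
    (hp : ∀ᶠ y in U, (M y).PosSemidef) : L.PosSemidef := by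
  refine .of_dotProduct_mulVec_nonneg (IsHermitian.ext fun i j => ?_) fun x => ?_
  · refine tendsto_nhds_unique_of_eventuallyEq (h j i).star (h i j) ?_
    filter_upwards [hp] with y hy using hy.1.apply i j
  · refine ge_of_tendsto (f := fun y => star x ⬝ᵥ (M y *ᵥ x)) (x := U) ?_ ?_
    · simp only [dotProduct, mulVec]
      exact tendsto_finsetSum _ fun i _ => tendsto_const_nhds.mul
        (tendsto_finsetSum _ fun j _ => (h i j).mul tendsto_const_nhds)
    · filter_upwards [hp] with y hy using hy.dotProduct_mulVec_nonneg x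

end Pool.Agent.Lib.H29.Pick
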