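import Pool.Agent.Lib.helper29.Pick1

open Matrix Filter Topology
open scoped ComplexOrder

namespace Pool.Agent.Lib.H29.Pick

variable {X : Type*}

lemma IsKernel.add' {a b : X → X → ℂ} (ha : IsKernel a) (hb : IsKernel b) :
    IsKernel fun x y => a x y + b x y := PosSemidef.add ha hb

lemma IsKernel.mul' {a b : X → X → ℂ} (ha : IsKernel a) (hb : IsKernel b) :
    IsKernel fun x y => a x y * b x y := PosSemidef.hadamard ha hb

lemma IsKernel.smul' {a : X → X → ℂ} (ha : IsKernel a) {c : ℝ} (hc : 0 ≤ c) :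
    IsKernel fun x y => (c : ℂ) * a x y :=
  PosSemidef.smul (a := (c : ℂ)) ha (by exact_mod_cast hc)

lemma IsKernel.congr' {a b : X → X → ℂ} (ha : IsKernel a) (h : ∀ x y, b x y = a x y) :
    IsKernel b := by
  have : b = a := by funext x y; exact h x y
  rwa [this]

lemma rank1 (g : X → ℂ) : IsKernel fun x y => g x * star (g y) := by
  refine psd_of_fin _ fun S => ?_
  have := posSemidef_self_mul_conjTranspose (Matrix.of fun (i : S) (_ : Unit) => g i)
  convert this using 1
  ext i j
  simp [mul_apply]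

lemma one_kernel : IsKernel fun _ _ : X => (1 : ℂ) :=
  (rank1 fun _ : X => (1 : ℂ)).congr' fun _ _ => by simp

lemma IsKernel.pow' {a : X → X → ℂ} (ha : IsKernel a) (n : ℕ) :
    IsKernel fun x y => a x y ^ n := by
  induction n with
  | zero => exact one_kernel.congr' fun _ _ => by simp
  | succ n ih => exact (ih.mul' ha).congr' fun _ _ => pow_succ _ _

lemma kernel_lim {κ : Type*} (U : Filter κ) [U.NeBot] (M : κ → X → X → ℂ) (L : X → X → ℂ)
    (h : ∀ i j, Tendsto (fun y => M y i j) U (𝓝 (L i j))) (hp : ∀ᶠ y in U, IsKernel (M y)) :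
    IsKernel L := by
  refine psd_of_fin _ fun S => psd_lim U
    (fun y => (Matrix.of (M y)).submatrix (Subtype.val : S → X) Subtype.val) _
    (fun i j => h i j) ?_
  filter_upwards [hp] with y hy using PosSemidef.submatrix hy _

lemma kernel_sum {ι : Type*} (S : Finset ι) (M : ι → X → X → ℂ) (hp : ∀ n ∈ S, IsKernel (M n)) :
    IsKernel fun x y => ∑ n ∈ S, M n x y := by
  classical
  induction S using Finset.induction_on with
  | empty => exact IsKernel.congr' (a := fun _ _ : X => (0 : ℂ)) PosSemidef.zero fun _ _ => by simp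
  | insert a S ha ih =>
    exact ((hp a (by simp)).add' (ih fun n hn => hp n (by simp [hn]))).congr' fun _ _ => by
      rw [Finset.sum_insert ha]

lemma kernel_hasSum {ι : Type*} (M : ι → X → X → ℂ) (L : X → X → ℂ)
    (h : ∀ i j, HasSum (fun n => M n i j) (L i j)) (hp : ∀ n, IsKernel (M n)) : IsKernel L :=
  kernel_lim atTop (fun S : Finset ι => fun x y => ∑ n ∈ S, M n x y) L h
    (.of_forall fun S => kernel_sum S M fun n _ => hp n)

lemma IsKernel.geom {a : X → X → ℂ} (ha : IsKernel a) (h : ∀ x y, ‖a x y‖ < 1) :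
    IsKernel fun x y => (1 - a x y)⁻¹ :=
  kernel_hasSum (fun n x y => a x y ^ n) _ (fun x y => hasSum_geometric_of_norm_lt_one (h x y))
    ha.pow'

end Pool.Agent.Lib.H29.Pick
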