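import Mathlib
import Pool.Agent.Lib.helper29.PolyDefs
import Pool.Agent.Lib.helper29.DimDefs

set_option autoImplicit false

namespace Pool.Agent.Lib.H29.Astral

open Set

/-- The incidence relation `I` has a selfduality `δ` with `δ ∘ δ = id`: `δ` sends the point `i` to
the line `d i` and the line `j` to the point `d.symm j`. -/
def HasInvolutiveDuality {n : ℕ} (I : Fin n → Fin n → Prop) : Prop :=
  ∃ d : Fin n ≃ Fin n, ∀ i j, I i j ↔ I (d.symm j) (d i)

/-- The polar line of the point `p` in the circle with centre `c` and radius `r`. -/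
def polar (c : ℂ) (r : ℝ) (p : ℂ) : Set ℂ :=
  {z | (z - c).re * (p - c).re + (z - c).im * (p - c).im = r ^ 2}

/-- The polar of `(P, L)` in the circle with centre `c` and radius `r` is defined, and some isometry
of the plane maps the points of `(P, L)` onto the poles of the lines `L j` and the lines of `(P, L)`
onto the polars of the points `P i`. -/
def CongruentToPolar {n : ℕ} (P : Fin n → ℂ) (L : Fin n → Set ℂ) (c : ℂ) (r : ℝ) : Prop :=
  (∀ i, P i ≠ c) ∧ (∀ j, c ∉ L j) ∧ ∃ g : ℂ ≃ᵢ ℂ,
    g '' range P = {q | q ≠ c ∧ polar c r q ∈ range L} ∧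
    (fun l => g '' l) '' range L = polar c r '' range P

end Pool.Agent.Lib.H29.Astral
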