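import Mathlib
import Pool.Agent.Lib.helper29.PolarDefs

set_option autoImplicit false

namespace Pool.Agent.Lib.H29.Polar14

open Set Complex Pool.Agent.Lib.H29.Astral Pool.Agent.Lib.H29.ConfDim

/-- lines -/
def NN : Fin 14 → List ℕ := ![[1, 2, 3], [0, 1, 10], [0, 2, 4], [0, 3, 6], [2, 7, 13], [8, 10, 12], [3, 8, 13], [4, 9, 12], [5, 6, 11], [7, 11, 12], [1, 5, 13], [8, 9, 11], [5, 7, 9], [4, 6, 10]]
/-- incidence -/
def II (i j : Fin 14) : Prop := i.val ∈ NN j
instance (i j : Fin 14) : Decidable (II i j) := by unfold II; infer_instance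

lemma symm : ∀ i j, II i j ↔ II j i := by decide +kernel
lemma sepP : ∀ i i', i ≠ i' → ∃ j, II i j ∧ ¬ II i' j := by decide +kernel
lemma sepL : ∀ j j', j ≠ j' → ∃ i, II i j ∧ ¬ II i j' := by decide +kernel

lemma ncard_eq (q : Fin 14 → Prop) [DecidablePred q] :
    {i | q i}.ncard = (Finset.univ.filter q).card := by
  rw [← Set.ncard_coe_finset]; congr 1; ext; simp

lemma balanced : IsBalanced 3 II := by
  have h1 : ∀ i, (Finset.univ.filter fun j => II i j).card = 3 := by decide +kernel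
  have h2 : ∀ j, (Finset.univ.filter fun i => II i j).card = 3 := by decide +kernel
  have h3 : ∀ j j', j ≠ j' → ∀ i, II i j → II i j' → ∀ i', II i' j → II i' j' → i = i' := by
    decide +kernel
  refine ⟨fun i => by rw [ncard_eq]; exact h1 i, fun j => by rw [ncard_eq]; exact h2 j, ?_⟩
  intro i i' j j' hne a b c d
  by_contra h
  exact hne (h3 j j' h i a c i' b d)

lemma duality : HasInvolutiveDuality II := ⟨Equiv.refl _, symm⟩

/-- points -/
def EP : Fin 14 → ℤ × ℤ := ![(0, -45), (90, 120), (90, 0), (90, 90), (-10, -50), (-36, -90), (-30, -90), (-36, -378), (-90, -270), (-36, 54), (-90, -210), (-60, -90), (-90, 270), (180, 270)]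
/-- lines -/
def EL : Fin 14 → ℤ × ℤ × ℤ := ![(1, 0, 90), (-11, 6, -270), (-1, 2, -90), (-3, 2, -90), (3, -1, 270), (-1, 0, 90), (2, -1, 90), (-4, -1, 90), (0, 1, -90), (-12, -1, 810), (5, -3, 90), (-6, 1, 270), (1, 0, -36), (2, -1, 30)]
/-- points -/
def PE (i : Fin 14) : ℂ := ⟨(EP i).1, (EP i).2⟩
/-- lines -/
def LE (j : Fin 14) : Set ℂ := {z | ((EL j).1 : ℝ) * z.re + ((EL j).2.1 : ℝ) * z.im = (EL j).2.2}

lemma mem_LE (i j : Fin 14) : PE i ∈ LE j ↔ II i j := by
  have : ∀ i j, (EL j).1 * (EP i).1 + (EL j).2.1 * (EP i).2 = (EL j).2.2 ↔ II i j := by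
    decide +kernel
  rw [← this]
  simp only [PE, LE, mem_ofPred_eq]
  norm_cast

theorem euReal : EuRealizes II PE LE := by
  refine ⟨fun i i' h => ?_, fun j j' h => ?_, fun j => ⟨_, _, _, ?_, rfl⟩, mem_LE⟩
  · by_contra hne
    obtain ⟨k, k1, k2⟩ := sepP i i' hne
    rw [← mem_LE, h, mem_LE] at k1
    exact k2 k1
  · by_contra hne
    obtain ⟨k, k1, k2⟩ := sepL j j' hne
    rw [← mem_LE, h, mem_LE] at k1
    exact k2 k1
  · have : ∀ j, (EL j).1 ≠ 0 ∨ (EL j).2.1 ≠ 0 := by decide +kernel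
    simpa using this j

/-- collinearity -/
def col (i i' : Fin 14) : Prop := i ≠ i' ∧ ∃ j, II i j ∧ II i' j
instance (i i' : Fin 14) : Decidable (col i i') := by unfold col; infer_instance

/-- number of triangles -/
def tri (i : Fin 14) : ℕ :=
  (Finset.univ.filter fun x : Fin 14 × Fin 14 => col i x.1 ∧ col i x.2 ∧ col x.1 x.2).card

lemma tri_inv (σ τ : Fin 14 → Fin 14) (hσ : Function.Injective σ) (hτ : Function.Injective τ)
    (h : ∀ i j, II (σ i) (τ j) ↔ II i j) (i : Fin 14) : tri (σ i) = tri i := by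
  have sτ := Finite.injective_iff_surjective.1 hτ
  have hc : ∀ i i', col (σ i) (σ i') ↔ col i i' := by
    intro i i'
    unfold col
    refine and_congr hσ.ne_iff ⟨fun ⟨j, hj⟩ => ?_, fun ⟨j, hj⟩ => ⟨τ j, by simpa only [h] using hj⟩⟩
    obtain ⟨j', rfl⟩ := sτ j
    exact ⟨j', by simpa only [h] using hj⟩
  let e := Equiv.ofBijective σ (Finite.injective_iff_bijective.1 hσ)
  symm
  apply Finset.card_equiv (e.prodCongr e)
  intro x
  simp only [Finset.mem_filter, Finset.mem_univ, true_and]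
  change _ ↔ col (σ i) (σ x.1) ∧ col (σ i) (σ x.2) ∧ col (σ x.1) (σ x.2)
  rw [hc, hc, hc]

/-- refinement -/
def ref (f : Fin 14 → ℕ) (i : Fin 14) : ℕ := f i * 1000 + ∑ j, if II i j then f j ^ 2 else 0

lemma ref_inv (σ τ : Fin 14 → Fin 14) (hτ : Function.Injective τ)
    (h : ∀ i j, II (σ i) (τ j) ↔ II i j) (f : Fin 14 → ℕ) (h1 : ∀ i, f (σ i) = f i)
    (h2 : ∀ i, f (τ i) = f i) (i : Fin 14) : ref f (σ i) = ref f i := by
  unfold ref
  rw [h1, ← (Finite.injective_iff_bijective.1 hτ).sum_comp]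
  simp only [h, h2]

lemma rigid (σ τ : Fin 14 → Fin 14) (hσ : Function.Injective σ) (hτ : Function.Injective τ)
    (h : ∀ i j, II (σ i) (τ j) ↔ II i j) : (∀ i, σ i = i) ∧ ∀ i, τ i = i := by
  have h' : ∀ i j, II (τ i) (σ j) ↔ II i j := fun i j => by rw [symm, h, symm]
  have e0 : tri = ![18, 14, 14, 14, 12, 12, 10, 14, 10, 16, 12, 16, 16, 14] := by decide +kernel
  have e1 : ref tri = ![18588, 14664, 14664, 14620, 12588, 12500, 10492, 14656, 10500, 16708,
      12536, 16612, 16596, 14388] := by rw [e0]; decide +kernel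
  have e2 : Function.Injective (ref (ref tri)) := by rw [e1]; decide +kernel
  have a0 := tri_inv σ τ hσ hτ h
  have b0 := tri_inv τ σ hτ hσ h'
  have a1 := ref_inv σ τ hτ h _ a0 b0
  have b1 := ref_inv τ σ hσ h' _ b0 a0
  exact ⟨fun i => e2 (ref_inv σ τ hτ h _ a1 b1 i), fun i => e2 (ref_inv τ σ hσ h' _ b1 a1 i)⟩

lemma prop_aff {α₁ α₂ α₃ β₁ β₂ β₃ : ℝ} {a b : ℂ} (hab : a ≠ b)
    (h1 : α₁ * a.re + α₂ * a.im + α₃ = 0) (h2 : α₁ * b.re + α₂ * b.im + α₃ = 0)
    (h3 : β₁ * a.re + β₂ * a.im + β₃ = 0) (h4 : β₁ * b.re + β₂ * b.im + β₃ = 0) (y w : ℂ) :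
    (β₁ * y.re + β₂ * y.im + β₃) * (α₁ * w.re + α₂ * w.im + α₃) =
      (α₁ * y.re + α₂ * y.im + α₃) * (β₁ * w.re + β₂ * w.im + β₃) := by
  have hx : α₁ * β₂ - α₂ * β₁ = 0 := by
    by_contra hne
    apply hab
    apply Complex.ext
    · have : (α₁ * β₂ - α₂ * β₁) * (a.re - b.re) = 0 := by
        linear_combination β₂ * h1 - β₂ * h2 - α₂ * h3 + α₂ * h4
      exact sub_eq_zero.1 ((mul_eq_zero.1 this).resolve_left hne)
    · have : (α₁ * β₂ - α₂ * β₁) * (a.im - b.im) = 0 := by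
        linear_combination -β₁ * h1 + β₁ * h2 + α₁ * h3 - α₁ * h4
      exact sub_eq_zero.1 ((mul_eq_zero.1 this).resolve_left hne)
  have e1 : α₃ = -(α₁ * a.re + α₂ * a.im) := by linarith
  have e2 : β₃ = -(β₁ * a.re + β₂ * a.im) := by linarith
  rw [e1, e2]
  linear_combination ((y.im - a.im) * (w.re - a.re) - (y.re - a.re) * (w.im - a.im)) * hx

theorem not_polar (P : Fin 14 → ℂ) (L : Fin 14 → Set ℂ) (h : EuRealizes II P L) (c : ℂ) (r : ℝ) :
    ¬ CongruentToPolar P L c r := by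
  rintro ⟨-, -, g, h1, h2⟩
  obtain ⟨pi, -, hl, hI⟩ := h
  have a1 : ∀ i, ∃ j, L j = polar c r (g (P i)) := fun i => by
    have : g (P i) ∈ {q | q ≠ c ∧ polar c r q ∈ range L} :=
      h1 ▸ mem_image_of_mem _ (mem_range_self i)
    exact this.2
  have a2 : ∀ j, ∃ i, polar c r (P i) = g '' L j := fun j => by
    have : g '' L j ∈ polar c r '' range P :=
      h2 ▸ mem_image_of_mem (fun l => g '' l) (mem_range_self j)
    obtain ⟨_, ⟨i, rfl⟩, hi⟩ := this
    exact ⟨i, hi⟩
  choose σ hσ using a1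
  choose τ hτ using a2
  have sw : ∀ x y, x ∈ polar c r y ↔ y ∈ polar c r x := fun x y => by
    simp only [polar, mem_ofPred_eq]
    constructor <;> intro h <;> linarith
  have hst : ∀ i j, II (σ i) (τ j) ↔ II i j := fun i j => by
    rw [symm, ← hI, ← hI, hσ, sw, hτ, g.injective.mem_set_image]
  have iσ : Function.Injective σ := fun a b hab => by
    by_contra hne
    obtain ⟨k, k1, k2⟩ := sepP a b hne
    rw [← hst, hab, hst] at k1
    exact k2 k1
  have iτ : Function.Injective τ := fun a b hab => by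
    by_contra hne
    obtain ⟨k, k1, k2⟩ := sepL a b hne
    rw [← hst, hab, hst] at k1
    exact k2 k1
  obtain ⟨s1, -⟩ := rigid σ τ iσ iτ hst
  simp only [s1] at hσ
  obtain ⟨e, u, v, hg⟩ : ∃ e u v : ℂ, ∀ z, g z = e + z.re * u + z.im * v := by
    refine ⟨g 0, g.toRealLinearIsometryEquiv 1, g.toRealLinearIsometryEquiv I, fun z => ?_⟩
    have e1 := g.toRealLinearIsometryEquiv_apply z
    have e2 : z = z.re • (1 : ℂ) + z.im • I := by simp
    conv_lhs at e1 => rw [e2, map_add, map_smul, map_smul]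
    simp only [real_smul] at e1
    linear_combination -e1
  set B : ℂ → ℂ → ℝ := fun x y =>
    (y - c).re * (g x - c).re + (y - c).im * (g x - c).im - r ^ 2 with hB
  have hM : ∀ i j, B (P i) (P j) = 0 ↔ II i j := fun i j => by
    rw [symm, ← hI, hσ]
    simp only [hB, polar, mem_ofPred_eq, sub_eq_zero]
  have f1 : ∀ x y, B x y = (g x - c).re * y.re + (g x - c).im * y.im +
      (-c.re * (g x - c).re - c.im * (g x - c).im - r ^ 2) := fun x y => by
    simp only [hB, sub_re, sub_im]; ring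
  have f2 : ∀ x y, B x y = ((y - c).re * u.re + (y - c).im * u.im) * x.re +
      ((y - c).re * v.re + (y - c).im * v.im) * x.im +
      ((y - c).re * (e - c).re + (y - c).im * (e - c).im - r ^ 2) := fun x y => by
    simp only [hB, hg, sub_re, sub_im, add_re, add_im, re_ofReal_mul, im_ofReal_mul]; ring
  have key : ∀ i j k, B (P j) (P i) * B (P i) (P k) = B (P i) (P j) * B (P k) (P i) := by
    intro i j k
    have : ∀ i : Fin 14, ∃ a b, a ≠ b ∧ II i a ∧ II i b := by decide +kernel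
    obtain ⟨a, b, hab, ha, hb⟩ := this i
    rw [f2 (P j), f2 (P k), f1 _ (P j), f1 _ (P k)]
    refine prop_aff (pi.ne hab) ?_ ?_ ?_ ?_ _ _
    · rw [← f1, hM]; exact ha
    · rw [← f1, hM]; exact hb
    · rw [← f2, hM, symm]; exact ha
    · rw [← f2, hM, symm]; exact hb
  have k1 := key 4 1 4
  have k2 := key 1 2 4
  have n1 := mt (hM 4 4).1 (by decide)
  have n2 := mt (hM 1 4).1 (by decide)
  have n3 := mt (hM 1 2).1 (by decide)
  rw [← mul_right_cancel₀ n1 k1] at k2
  have k3 := mul_right_cancel₀ n2 k2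
  have m1 := (hM 1 1).2 (by decide)
  have m2 := (hM 2 2).2 (by decide)
  have m3 := (hM 3 3).2 (by decide)
  obtain ⟨a, b, d, hab, hL⟩ := hl 0
  have l1 := (hI 1 0).2 (by decide)
  have l2 := (hI 2 0).2 (by decide)
  have l3 := (hI 3 0).2 (by decide)
  simp only [hL, mem_ofPred_eq] at l1 l2 l3
  have d12 : P 1 ≠ P 2 := pi.ne (by decide)
  have d13 : P 3 ≠ P 1 := pi.ne (by decide)
  have d23 : P 3 ≠ P 2 := pi.ne (by decide)
  have hcr : ((P 3).re - (P 1).re) * ((P 2).im - (P 1).im) =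
      ((P 3).im - (P 1).im) * ((P 2).re - (P 1).re) := by
    rcases hab with h | h
    · apply mul_left_cancel₀ h
      linear_combination ((P 2).im - (P 1).im) * (l3 - l1) - ((P 3).im - (P 1).im) * (l2 - l1)
    · apply mul_left_cancel₀ h
      linear_combination -((P 2).re - (P 1).re) * (l3 - l1) + ((P 3).re - (P 1).re) * (l2 - l1)
  obtain ⟨t, ht1, ht2⟩ : ∃ t : ℝ, (P 3).re = (P 1).re + t * ((P 2).re - (P 1).re) ∧
      (P 3).im = (P 1).im + t * ((P 2).im - (P 1).im) := by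
    by_cases hre : (P 2).re - (P 1).re = 0
    · have him : (P 2).im - (P 1).im ≠ 0 := fun h =>
        d12 (Complex.ext (by linarith) (by linarith))
      refine ⟨((P 3).im - (P 1).im) / ((P 2).im - (P 1).im), ?_, by field_simp; ring⟩
      rw [hre, mul_zero] at hcr
      rw [hre, mul_zero, add_zero]
      exact sub_eq_zero.1 ((mul_eq_zero.1 hcr).resolve_right him)
    · refine ⟨((P 3).re - (P 1).re) / ((P 2).re - (P 1).re), by field_simp; ring, ?_⟩
      field_simp
      linarith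
  have t0 : t ≠ 0 := fun h => d13 (Complex.ext (by rw [ht1, h]; ring) (by rw [ht2, h]; ring))
  have t1 : 1 - t ≠ 0 := fun h => by
    have : t = 1 := by linarith
    exact d23 (Complex.ext (by rw [ht1, this]; ring) (by rw [ht2, this]; ring))
  have fin : B (P 3) (P 3) = (1 - t) ^ 2 * B (P 1) (P 1) +
      t * (1 - t) * (B (P 1) (P 2) + B (P 2) (P 1)) + t ^ 2 * B (P 2) (P 2) := by
    simp only [f2, sub_re, sub_im, ht1, ht2]
    ring
  rw [m1, m2, m3, k3] at fin
  have : t * (1 - t) * B (P 1) (P 2) = 0 := by linarith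
  exact mul_ne_zero (mul_ne_zero t0 t1) n3 this

end Pool.Agent.Lib.H29.Polar14
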