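import Mathlib

namespace Pool.Agent.Lib.H29.Quintic

/-- standard form of a rational point on a curve with a rational 2-torsion point -/
lemma std (a b : ℤ) (x z : ℚ) (hx : x ≠ 0) (h : x ^ 2 + a * x + b = z ^ 2 * x) :
    ∃ d1 d2 m n : ℤ, d1 * d2 = b ∧ IsCoprime m n ∧ IsCoprime m d2 ∧ IsCoprime n d1 ∧
      (m * n) ^ 2 = (z.den : ℤ) ^ 2 ∧
      z.num ^ 2 = d1 * m ^ 4 + a * m ^ 2 * n ^ 2 + d2 * n ^ 4 := by
  have hp : x.num ≠ 0 := Rat.num_ne_zero.2 hx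
  have hg : 0 < Int.gcd x.num b := Int.gcd_pos_of_ne_zero_left _ hp
  obtain ⟨g, p1, b1, hg0, hcop, hp1, hb1⟩ := Int.exists_gcd_one' hg
  have hpq : IsCoprime x.num (x.den : ℤ) := Int.isCoprime_iff_gcd_eq_one.2 x.reduced
  have huv : IsCoprime z.num (z.den : ℤ) := Int.isCoprime_iff_gcd_eq_one.2 z.reduced
  have hpb : IsCoprime p1 b1 := Int.isCoprime_iff_gcd_eq_one.2 hcop
  have hq0 : (0 : ℤ) < x.den := by exact_mod_cast x.den_pos
  have hv0 : (0 : ℤ) < z.den := by exact_mod_cast z.den_pos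
  have hg0' : (0 : ℤ) < g := by exact_mod_cast hg0
  have e1 : (x.num ^ 2 + a * x.num * x.den + b * (x.den : ℤ) ^ 2) * (z.den : ℤ) ^ 2 =
      z.num ^ 2 * x.num * x.den := by
    have h1 : (x.num : ℚ) = x * x.den := (Rat.mul_den_eq_num x).symm
    have h2 : (z.num : ℚ) = z * z.den := (Rat.mul_den_eq_num z).symm
    have : ((x.num : ℚ) ^ 2 + a * x.num * x.den + b * (x.den : ℚ) ^ 2) * (z.den : ℚ) ^ 2 =
      (z.num : ℚ) ^ 2 * x.num * x.den := by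
      rw [h1, h2]
      linear_combination ((x.den : ℚ) ^ 2 * (z.den : ℚ) ^ 2) * h
    exact_mod_cast this
  generalize x.num = p at *
  generalize (x.den : ℤ) = q at *
  generalize z.num = u at *
  generalize (z.den : ℤ) = v at *
  subst hp1 hb1
  have hp1q : IsCoprime p1 q := hpq.of_mul_left_left
  have hgq : IsCoprime (g : ℤ) q := hpq.of_mul_left_right
  have e2 : (g * p1 ^ 2 + a * p1 * q + b1 * q ^ 2) * v ^ 2 = u ^ 2 * (p1 * q) := by
    apply mul_left_cancel₀ hg0'.ne'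
    linear_combination e1
  have c1 : IsCoprime p1 (g * p1 ^ 2 + a * p1 * q + b1 * q ^ 2) := by
    have : (g * p1 ^ 2 + a * p1 * q + b1 * q ^ 2 : ℤ) = b1 * q ^ 2 + p1 * (g * p1 + a * q) := by
      ring
    rw [this]
    exact (hpb.mul_right hp1q.pow_right).add_mul_left_right _
  have c2 : IsCoprime q (g * p1 ^ 2 + a * p1 * q + b1 * q ^ 2) := by
    have : (g * p1 ^ 2 + a * p1 * q + b1 * q ^ 2 : ℤ) = g * p1 ^ 2 + q * (a * p1 + b1 * q) := by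
      ring
    rw [this]
    exact (hgq.symm.mul_right hp1q.symm.pow_right).add_mul_left_right _
  have d1 : p1 * q ∣ v ^ 2 :=
    (c1.mul_left c2).dvd_of_dvd_mul_left ⟨u ^ 2, by linear_combination e2⟩
  have d2 : v ^ 2 ∣ p1 * q :=
    (huv.symm.pow (m := 2) (n := 2)).dvd_of_dvd_mul_left
      ⟨g * p1 ^ 2 + a * p1 * q + b1 * q ^ 2, by linear_combination -e2⟩
  have hv2 : v ^ 2 ≠ 0 := by positivity
  rcases Int.associated_iff.1 (associated_of_dvd_dvd d1 d2) with h3 | h3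
  · obtain ⟨n, hn⟩ := Int.sq_of_isCoprime hp1q.symm (by rw [mul_comm]; exact h3)
    have hn' : q = n ^ 2 := by
      rcases hn with hn | hn
      · exact hn
      · nlinarith [sq_nonneg n]
    obtain ⟨m, hm⟩ := Int.sq_of_isCoprime hp1q h3
    have hm' : p1 = m ^ 2 := by
      rcases hm with hm | hm
      · exact hm
      · have : 0 < v ^ 2 := by positivity
        nlinarith [sq_nonneg m]
    subst hn' hm'
    refine ⟨g, b1, m, n, by ring, ?_, ?_, ?_, by linear_combination h3, ?_⟩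
    · exact (IsCoprime.pow_iff (by norm_num) (by norm_num)).1 hp1q
    · exact (IsCoprime.pow_left_iff (by norm_num)).1 hpb
    · exact (IsCoprime.pow_left_iff (by norm_num)).1 hgq.symm
    · apply mul_left_cancel₀ hv2
      linear_combination -e2 - u ^ 2 * h3
  · have h4 : -p1 * q = v ^ 2 := by linear_combination -h3
    obtain ⟨n, hn⟩ := Int.sq_of_isCoprime hp1q.neg_left.symm (by rw [mul_comm]; exact h4)
    have hn' : q = n ^ 2 := by
      rcases hn with hn | hn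
      · exact hn
      · nlinarith [sq_nonneg n]
    obtain ⟨m, hm⟩ := Int.sq_of_isCoprime hp1q.neg_left h4
    have hm' : p1 = - m ^ 2 := by
      rcases hm with hm | hm
      · linarith
      · have : 0 < v ^ 2 := by positivity
        nlinarith [sq_nonneg m]
    subst hn' hm'
    refine ⟨-g, -b1, m, n, by ring, ?_, ?_, ?_, by linear_combination h4, ?_⟩
    · exact (IsCoprime.pow_iff two_pos two_pos).1 ((IsCoprime.neg_left_iff _ _).1 hp1q)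
    · exact ((IsCoprime.pow_left_iff two_pos).1 ((IsCoprime.neg_left_iff _ _).1 hpb)).neg_right
    · exact ((IsCoprime.pow_left_iff (by norm_num)).1 hgq.symm).neg_right
    · apply mul_left_cancel₀ hv2
      linear_combination e2 - u ^ 2 * h4

lemma not_dvd_of_cop {p m d : ℤ} (hp : 1 < p) (h : IsCoprime m d) (hd : p ∣ d) : ¬ p ∣ m := by
  intro hm
  have := h.isUnit_of_dvd' hm hd
  rcases Int.isUnit_iff.1 this with h1 | h1 <;> omega

lemma loc3 (a' b' d1 d2 m n N : ℤ) (ha : a' % 3 = 2) (hb : b' % 3 = 2) (hd : d1 * d2 = 9 * b')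
    (c1 : IsCoprime m d2) (c2 : IsCoprime n d1)
    (h : N ^ 2 = d1 * m ^ 4 + 3 * a' * m ^ 2 * n ^ 2 + d2 * n ^ 4) : ¬ (3 ∣ d1 ∧ 3 ∣ d2) := by
  rintro ⟨h1, h2⟩
  have hm := not_dvd_of_cop (by norm_num) c1 h2
  have hn := not_dvd_of_cop (by norm_num) c2 h1
  obtain ⟨u, rfl⟩ := h1
  obtain ⟨v, rfl⟩ := h2
  have huv : u * v = b' := by linarith
  have h3 : (3 : ℤ) ∣ N := Int.prime_three.dvd_of_dvd_pow
    (n := 2) ⟨u * m ^ 4 + a' * m ^ 2 * n ^ 2 + v * n ^ 4, by linear_combination h⟩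
  obtain ⟨N', rfl⟩ := h3
  have h4 : u * m ^ 4 + a' * m ^ 2 * n ^ 2 + v * n ^ 4 = 3 * N' ^ 2 := by linarith
  have key : ∀ u v m n : ZMod 3, u * v = 2 → m ≠ 0 → n ≠ 0 →
      u * m ^ 4 + 2 * m ^ 2 * n ^ 2 + v * n ^ 4 ≠ 0 := by decide
  have ha' : (a' : ZMod 3) = 2 := by
    rw [← ZMod.intCast_mod a' 3]; push_cast; rw [ha]; rfl
  have hb' : (b' : ZMod 3) = 2 := by
    rw [← ZMod.intCast_mod b' 3]; push_cast; rw [hb]; rfl
  refine key u v m n (by rw [← hb', ← huv]; push_cast; rfl)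
    (fun h0 => hm ((ZMod.intCast_zmod_eq_zero_iff_dvd m 3).1 h0))
    (fun h0 => hn ((ZMod.intCast_zmod_eq_zero_iff_dvd n 3).1 h0)) ?_
  have h5 := congrArg (Int.cast : ℤ → ZMod 3) h4
  push_cast at h5
  rw [ha'] at h5
  rw [h5]
  have : (3 : ZMod 3) = 0 := rfl
  rw [this, zero_mul]

lemma locE (d1 d2 m n N : ℤ) (hd : d1 * d2 = 1125000000) (hm0 : m ≠ 0)
    (c1 : IsCoprime m d2) (c2 : IsCoprime n d1)
    (h : N ^ 2 = d1 * m ^ 4 + -72579 * m ^ 2 * n ^ 2 + d2 * n ^ 4) :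
    ∃ c : ℤ, d1 = c ^ 2 ∨ d2 = c ^ 2 := by
  have hpos : 0 < d1 := by
    by_contra hneg
    have h1 : d1 < 0 := by
      rcases (not_lt.1 hneg).eq_or_lt with h0 | h0
      · rw [h0] at hd; norm_num at hd
      · exact h0
    have h2 : d2 < 0 := by nlinarith
    have a1 : 0 < m ^ 4 := by positivity
    have a2 : 0 ≤ n ^ 4 := by positivity
    have a3 : 0 ≤ m ^ 2 * n ^ 2 := by positivity
    nlinarith [sq_nonneg N]
  have h3 := loc3 (-24193) 125000000 d1 d2 m n N (by norm_num) (by norm_num) (by linarith) c1 c2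
    (by linarith)
  have h2 : 2 ∣ d1 → 2 ∣ d2 → (d1 + d2 + 5) % 8 = 0 ∨ (d1 + d2 + 5) % 8 = 1 ∨
      (d1 + d2 + 5) % 8 = 4 := by
    intro h1 h2
    have hm := not_dvd_of_cop (by norm_num) c1 h2
    have hn := not_dvd_of_cop (by norm_num) c2 h1
    obtain ⟨s, hs⟩ : 8 ∣ m ^ 2 - 1 := 
      Int.eight_dvd_sq_sub_one_of_odd (Int.odd_iff.2 (by omega : m % 2 = 1))
    obtain ⟨r, hr⟩ : 8 ∣ n ^ 2 - 1 := 
      Int.eight_dvd_sq_sub_one_of_odd (Int.odd_iff.2 (by omega : n % 2 = 1))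
    have e1 : m ^ 2 = 8 * s + 1 := by linarith
    have e2 : n ^ 2 = 8 * r + 1 := by linarith
    have e3 : m ^ 4 = (8 * s + 1) ^ 2 := by rw [← e1]; ring
    have e4 : n ^ 4 = (8 * r + 1) ^ 2 := by rw [← e2]; ring
    have e5 : N ^ 2 = d1 + d2 + 5 + 8 * (d1 * (8 * s ^ 2 + 2 * s) + d2 * (8 * r ^ 2 + 2 * r)
        - 72579 * (8 * s * r + s + r) - 9073) := by
      rw [h, e3, e4, mul_assoc, e1, e2]; ring
    have e6 : N ^ 2 % 8 = 0 ∨ N ^ 2 % 8 = 1 ∨ N ^ 2 % 8 = 4 := by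
      have : N % 8 = 0 ∨ N % 8 = 1 ∨ N % 8 = 2 ∨ N % 8 = 3 ∨ N % 8 = 4 ∨ N % 8 = 5 ∨ N % 8 = 6 ∨
        N % 8 = 7 := by omega
      rcases this with h | h | h | h | h | h | h | h <;> simp [pow_two, Int.mul_emod, h]
    omega
  have hdvd : d1.natAbs ∣ 2 ^ 6 * 3 ^ 2 * 5 ^ 9 := by
    have : d1 ∣ ((2 ^ 6 * 3 ^ 2 * 5 ^ 9 : ℕ) : ℤ) := ⟨d2, by rw [hd]; norm_num⟩
    exact Int.natAbs_dvd_natAbs.2 this
  obtain ⟨y, y5, hy, hy5, e1⟩ := (Nat.dvd_mul).1 hdvd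
  obtain ⟨y2, y3, hy2, hy3, e2⟩ := (Nat.dvd_mul).1 hy
  obtain ⟨i, hi, rfl⟩ := (Nat.dvd_prime_pow Nat.prime_two).1 hy2
  obtain ⟨j, hj, rfl⟩ := (Nat.dvd_prime_pow Nat.prime_three).1 hy3
  obtain ⟨k, hk, rfl⟩ := (Nat.dvd_prime_pow Nat.prime_five).1 hy5
  have e3 : d1 = 2 ^ i * 3 ^ j * 5 ^ k := by
    have : (d1.natAbs : ℤ) = d1 := Int.natAbs_of_nonneg hpos.le
    rw [← this, ← e1, ← e2]; push_cast; rfl
  have : d1 = (2 ^ (i / 2) * 3 ^ (j / 2) * 5 ^ (k / 2)) ^ 2 ∨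
      d2 = (2 ^ ((6 - i) / 2) * 3 ^ ((2 - j) / 2) * 5 ^ ((9 - k) / 2)) ^ 2 := by
    clear e1 e2 hy hy2 hy3 hy5 hdvd h c1 c2 hpos
    interval_cases i <;> interval_cases j <;> interval_cases k <;>
      simp only [Nat.reduceDiv, Nat.reduceSub, Int.reducePow, Int.reduceMul] at e3 ⊢ <;>
      subst e3 <;> omega
  rcases this with h | h
  · exact ⟨_, Or.inl h⟩
  · exact ⟨_, Or.inr h⟩

lemma locE' (d1 d2 m n N : ℤ) (hd : d1 * d2 = 767711241) (c0 : IsCoprime m n)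
    (c1 : IsCoprime m d2) (c2 : IsCoprime n d1)
    (h : N ^ 2 = d1 * m ^ 4 + 145158 * m ^ 2 * n ^ 2 + d2 * n ^ 4) :
    ∃ c ∈ ([1, 3, 11, 33, 89, 267, 979, 2937] : List ℤ), d1 = c ^ 2 ∨ d2 = c ^ 2 := by
  have h3 := loc3 48386 85301249 d1 d2 m n N (by norm_num) (by norm_num) (by linarith) c1 c2
    (by linarith)
  have h11 : ¬ (11 ∣ d1 ∧ 11 ∣ d2) := by
    rintro ⟨h1, h2⟩
    have hm := not_dvd_of_cop (by norm_num) c1 h2
    have hn := not_dvd_of_cop (by norm_num) c2 h1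
    have key : ∀ m n N : ZMod 11, m ≠ 0 → n ≠ 0 → N ^ 2 ≠ 145158 * m ^ 2 * n ^ 2 := by
      decide +kernel
    refine key m n N (fun h0 => hm ((ZMod.intCast_zmod_eq_zero_iff_dvd m 11).1 h0))
      (fun h0 => hn ((ZMod.intCast_zmod_eq_zero_iff_dvd n 11).1 h0)) ?_
    have h5 := congrArg (Int.cast : ℤ → ZMod 11) h
    push_cast at h5
    rw [h5, (ZMod.intCast_zmod_eq_zero_iff_dvd d1 11).2 h1,
      (ZMod.intCast_zmod_eq_zero_iff_dvd d2 11).2 h2]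
    ring
  have h16 : ¬ ((d1 % 16 = 7 ∧ d2 % 16 = 15) ∨ (d1 % 16 = 15 ∧ d2 % 16 = 7)) := by
    intro hh
    obtain ⟨s, r, hsr⟩ := c0
    have key : ∀ m n N : ZMod 16, (8 * m ≠ 0 ∨ 8 * n ≠ 0) →
        N ^ 2 ≠ 7 * m ^ 4 + 145158 * m ^ 2 * n ^ 2 + 15 * n ^ 4 ∧
        N ^ 2 ≠ 15 * m ^ 4 + 145158 * m ^ 2 * n ^ 2 + 7 * n ^ 4 := by
      decide +kernel
    have hmn : 8 * (m : ZMod 16) ≠ 0 ∨ 8 * (n : ZMod 16) ≠ 0 := by
      by_contra hc
      push Not at hc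
      have h5 := congrArg (Int.cast : ℤ → ZMod 16) hsr
      push_cast at h5
      have : (8 : ZMod 16) = 0 := by linear_combination -8 * h5 + s * hc.1 + r * hc.2
      exact absurd this (by decide)
    have h5 := congrArg (Int.cast : ℤ → ZMod 16) h
    push_cast at h5
    have k1 := key m n N hmn
    rcases hh with ⟨a1, a2⟩ | ⟨a1, a2⟩
    · have b1 : (d1 : ZMod 16) = 7 := by
        rw [← ZMod.intCast_mod d1 16]; push_cast; rw [a1]; rfl
      have b2 : (d2 : ZMod 16) = 15 := by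
        rw [← ZMod.intCast_mod d2 16]; push_cast; rw [a2]; rfl
      rw [b1, b2] at h5
      exact k1.1 h5
    · have b1 : (d1 : ZMod 16) = 15 := by
        rw [← ZMod.intCast_mod d1 16]; push_cast; rw [a1]; rfl
      have b2 : (d2 : ZMod 16) = 7 := by
        rw [← ZMod.intCast_mod d2 16]; push_cast; rw [a2]; rfl
      rw [b1, b2] at h5
      exact k1.2 h5
  have hdvd : d1.natAbs ∣ 3 ^ 2 * 11 ^ 2 * 89 ^ 3 := by
    have : d1 ∣ ((3 ^ 2 * 11 ^ 2 * 89 ^ 3 : ℕ) : ℤ) := ⟨d2, by rw [hd]; norm_num⟩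
    exact Int.natAbs_dvd_natAbs.2 this
  obtain ⟨y, y5, hy, hy5, e1⟩ := (Nat.dvd_mul).1 hdvd
  obtain ⟨y2, y3, hy2, hy3, e2⟩ := (Nat.dvd_mul).1 hy
  obtain ⟨i, hi, rfl⟩ := (Nat.dvd_prime_pow Nat.prime_three).1 hy2
  obtain ⟨j, hj, rfl⟩ := (Nat.dvd_prime_pow (by norm_num : Nat.Prime 11)).1 hy3
  obtain ⟨k, hk, rfl⟩ := (Nat.dvd_prime_pow (by norm_num : Nat.Prime 89)).1 hy5
  have e3 : d1 = 3 ^ i * 11 ^ j * 89 ^ k ∨ d1 = - (3 ^ i * 11 ^ j * 89 ^ k) := by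
    have := Int.natAbs_eq d1
    rw [← e1, ← e2] at this
    push_cast at this
    exact this
  clear e1 e2 hy hy2 hy3 hy5 hdvd h c1 c2 c0
  simp only [List.mem_cons, List.not_mem_nil, or_false, exists_eq_or_imp, exists_eq_left]
  rcases e3 with e3 | e3 <;>
    interval_cases i <;> interval_cases j <;> interval_cases k <;>
      simp only [Int.reducePow, Int.reduceMul, Int.reduceNeg] at e3 ⊢ <;>
      subst e3 <;> omega

lemma den_dvd' (K e : ℤ) : (((K : ℚ) / (e : ℚ)).den : ℤ) ∣ e := by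
  have := Rat.den_dvd K e
  rwa [Rat.divInt_eq_div] at this

/-- first half of the descent step -/
lemma step1 (c d2 m n N : ℤ) (hd : c ^ 2 * d2 = 1125000000) (hn : n ≠ 0)
    (h : N ^ 2 = c ^ 2 * m ^ 4 + -72579 * m ^ 2 * n ^ 2 + d2 * n ^ 4) :
    ∃ x : ℚ, x ≠ 0 ∧ x ^ 2 + ((145158 : ℤ) : ℚ) * x + ((767711241 : ℤ) : ℚ) =
      (((2 * c * m : ℤ) : ℚ) / (n : ℚ)) ^ 2 * x := by
  have hn' : (n : ℚ) ≠ 0 := by exact_mod_cast hn
  have huv : (2 * c ^ 2 * m ^ 2 - 72579 * n ^ 2 - 2 * c * N) *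
      (2 * c ^ 2 * m ^ 2 - 72579 * n ^ 2 + 2 * c * N) = 767711241 * n ^ 4 := by
    linear_combination (-4 * c ^ 2) * h - 4 * n ^ 4 * hd
  have hU : (2 * c ^ 2 * m ^ 2 - 72579 * n ^ 2 - 2 * c * N) ≠ 0 := by
    intro h0
    rw [h0, zero_mul] at huv
    have : 0 < n ^ 4 := by positivity
    omega
  refine ⟨((2 * c ^ 2 * m ^ 2 - 72579 * n ^ 2 - 2 * c * N : ℤ) : ℚ) / (n : ℚ) ^ 2,
    div_ne_zero (by exact_mod_cast hU) (by positivity), ?_⟩
  have huv' := congrArg (Int.cast : ℤ → ℚ) huv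
  push_cast at huv' ⊢
  field_simp
  linear_combination -huv'

/-- second half of the descent step -/
lemma step2 (c d2 m n N : ℤ) (hd : c ^ 2 * d2 = 767711241) (hn : n ≠ 0)
    (h : N ^ 2 = c ^ 2 * m ^ 4 + 145158 * m ^ 2 * n ^ 2 + d2 * n ^ 4) :
    ∃ x : ℚ, x ≠ 0 ∧ x ^ 2 + ((-72579 : ℤ) : ℚ) * x + ((1125000000 : ℤ) : ℚ) =
      (((c * m : ℤ) : ℚ) / (n : ℚ)) ^ 2 * x := by
  have hn' : (n : ℚ) ≠ 0 := by exact_mod_cast hn
  have huv : (c ^ 2 * m ^ 2 + 72579 * n ^ 2 - c * N) *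
      (c ^ 2 * m ^ 2 + 72579 * n ^ 2 + c * N) = 4500000000 * n ^ 4 := by
    linear_combination (- c ^ 2) * h - n ^ 4 * hd
  have hU : (c ^ 2 * m ^ 2 + 72579 * n ^ 2 - c * N) ≠ 0 := by
    intro h0
    rw [h0, zero_mul] at huv
    have : 0 < n ^ 4 := by positivity
    omega
  refine ⟨((c ^ 2 * m ^ 2 + 72579 * n ^ 2 - c * N : ℤ) : ℚ) / (2 * (n : ℚ) ^ 2),
    div_ne_zero (by exact_mod_cast hU) (by positivity), ?_⟩
  have huv' := congrArg (Int.cast : ℤ → ℚ) huv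
  push_cast at huv' ⊢
  field_simp
  linear_combination -huv'

lemma stdE (x z : ℚ) (hx : x ≠ 0)
    (h : x ^ 2 + ((-72579 : ℤ) : ℚ) * x + ((1125000000 : ℤ) : ℚ) = z ^ 2 * x) :
    ∃ c d2 m n : ℤ, c ^ 2 * d2 = 1125000000 ∧ (m * n) ^ 2 = (z.den : ℤ) ^ 2 ∧
      z.num ^ 2 = c ^ 2 * m ^ 4 + -72579 * m ^ 2 * n ^ 2 + d2 * n ^ 4 := by
  obtain ⟨d1, d2, m, n, hd, c0, c1, c2, hmn, hN⟩ := std _ _ x z hx h
  have hm0 : m ≠ 0 := by
    rintro rfl
    have : (0 : ℤ) < (z.den : ℤ) ^ 2 := by have := z.den_pos; positivity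
    simp at hmn
    omega
  obtain ⟨c, hc | hc⟩ := locE d1 d2 m n _ hd hm0 c1 c2 hN
  · exact ⟨c, d2, m, n, by rw [← hc]; exact hd, hmn, by rw [← hc]; exact hN⟩
  · exact ⟨c, d1, n, m, by rw [← hc]; linarith, by linarith, by rw [← hc]; linarith⟩

lemma stdE' (x z : ℚ) (hx : x ≠ 0)
    (h : x ^ 2 + ((145158 : ℤ) : ℚ) * x + ((767711241 : ℤ) : ℚ) = z ^ 2 * x) :
    ∃ c ∈ ([1, 3, 11, 33, 89, 267, 979, 2937] : List ℤ), ∃ d2 m n : ℤ,
      c ^ 2 * d2 = 767711241 ∧ (m * n) ^ 2 = (z.den : ℤ) ^ 2 ∧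
      z.num ^ 2 = c ^ 2 * m ^ 4 + 145158 * m ^ 2 * n ^ 2 + d2 * n ^ 4 := by
  obtain ⟨d1, d2, m, n, hd, c0, c1, c2, hmn, hN⟩ := std _ _ x z hx h
  obtain ⟨c, hcl, hc | hc⟩ := locE' d1 d2 m n _ hd c0 c1 c2 hN
  · exact ⟨c, hcl, d2, m, n, by rw [← hc]; exact hd, hmn, by rw [← hc]; exact hN⟩
  · exact ⟨c, hcl, d1, n, m, by rw [← hc]; linarith, by linarith, by rw [← hc]; linarith⟩

lemma finite_check : ∀ c ∈ ([1, 3, 11, 33, 89, 267, 979, 2937] : List ℤ), ∀ k : Fin 180,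
    (4500000000 : ℤ) % (c ^ 2 + 145158 * (k : ℤ) ^ 2 + 767711241 / c ^ 2 * (k : ℤ) ^ 4) = 0 →
      (k : ℤ) = 0 ∨ c = 89 * (k : ℤ) := by
  decide +kernel

lemma back (z : ℚ) (c d2 m n b a : ℤ) (w : ℚ) (hd : c ^ 2 * d2 = b)
    (hmn : (m * n) ^ 2 = (z.den : ℤ) ^ 2)
    (hN : z.num ^ 2 = c ^ 2 * m ^ 4 + a * m ^ 2 * n ^ 2 + d2 * n ^ 4) (hw : w ≠ 0)
    (hX : (((c * m : ℤ) : ℚ) / (n : ℚ)) ^ 2 = w) : z ^ 2 = w + a + b / w := by
  have hv0 : (0 : ℤ) < z.den := by exact_mod_cast z.den_pos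
  have hn : n ≠ 0 := by
    rintro rfl
    have : (0 : ℤ) < (z.den : ℤ) ^ 2 := by positivity
    simp at hmn
    omega
  have hm : m ≠ 0 := by
    rintro rfl
    have : (0 : ℤ) < (z.den : ℤ) ^ 2 := by positivity
    simp at hmn
    omega
  have hn' : (n : ℚ) ≠ 0 := by exact_mod_cast hn
  have hm' : (m : ℚ) ≠ 0 := by exact_mod_cast hm
  have hc' : (c : ℚ) ≠ 0 := by
    intro h0
    apply hw
    rw [← hX]; push_cast; rw [h0]; simp
  have h2 : (z.num : ℚ) = z * z.den := (Rat.mul_den_eq_num z).symm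
  have hN' := congrArg (Int.cast : ℤ → ℚ) hN
  have hmn' := congrArg (Int.cast : ℤ → ℚ) hmn
  have hd' := congrArg (Int.cast : ℤ → ℚ) hd
  push_cast at hN' hmn' hd' hX
  rw [h2] at hN'
  rw [← hX, ← hd']
  field_simp
  linear_combination hN' + z ^ 2 * hmn'

lemma descent (k : ℕ) : ∀ x z : ℚ, z.den = k → x ≠ 0 →
    x ^ 2 + ((-72579 : ℤ) : ℚ) * x + ((1125000000 : ℤ) : ℚ) = z ^ 2 * x → z ^ 2 = 7921 := by
  induction k using Nat.strong_induction_on with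
  | _ k ih =>
  intro x z hk hx h
  obtain ⟨c, d2, m, n, hd, hmn, hN⟩ := stdE x z hx h
  have hk0 : (0 : ℤ) < k := by rw [← hk]; exact_mod_cast z.den_pos
  have hmn0 : m * n ≠ 0 := by
    intro h0
    rw [h0, hk] at hmn
    have : (0 : ℤ) < (k : ℤ) ^ 2 := by positivity
    omega
  have hn : n ≠ 0 := right_ne_zero_of_mul hmn0
  have hm : m ≠ 0 := left_ne_zero_of_mul hmn0
  obtain ⟨x', hx', h'⟩ := step1 c d2 m n _ hd hn hN
  have hdvd' := den_dvd' (2 * c * m) n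
  set z' : ℚ := ((2 * c * m : ℤ) : ℚ) / (n : ℚ) with hz'
  obtain ⟨c', hcl, d2', m', n', hd', hmn', hN'⟩ := stdE' x' z' hx' h'
  have hk0' : (0 : ℤ) < z'.den := by exact_mod_cast z'.den_pos
  have hmn0' : m' * n' ≠ 0 := by
    intro h0
    rw [h0] at hmn'
    have : (0 : ℤ) < (z'.den : ℤ) ^ 2 := by positivity
    omega
  have hn' : n' ≠ 0 := right_ne_zero_of_mul hmn0'
  have hm' : m' ≠ 0 := left_ne_zero_of_mul hmn0'
  obtain ⟨x'', hx'', h''⟩ := step2 c' d2' m' n' _ hd' hn' hN'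
  have hdvd'' := den_dvd' (c' * m') n'
  set z'' : ℚ := ((c' * m' : ℤ) : ℚ) / (n' : ℚ) with hz''
  have a1 : |m| * |n| = k := by
    rw [← abs_mul, ← hk]
    exact (sq_eq_sq_iff_abs_eq_abs _ _).1 hmn |>.trans (abs_of_nonneg (by positivity))
  have a2 : |m'| * |n'| = z'.den := by
    rw [← abs_mul]
    exact (sq_eq_sq_iff_abs_eq_abs _ _).1 hmn' |>.trans (abs_of_nonneg (by positivity))
  have a3 : (z'.den : ℤ) ≤ |n| := Int.le_of_dvd (abs_pos.2 hn) ((dvd_abs _ _).2 hdvd')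
  have a4 : (z''.den : ℤ) ≤ |n'| := Int.le_of_dvd (abs_pos.2 hn') ((dvd_abs _ _).2 hdvd'')
  have b1 : 1 ≤ |m| := Int.one_le_abs hm
  have b2 : 1 ≤ |m'| := Int.one_le_abs hm'
  have b3 : 1 ≤ |n| := Int.one_le_abs hn
  have b4 : 1 ≤ |n'| := Int.one_le_abs hn'
  have a5 : |n| ≤ k := by nlinarith
  have a6 : |n'| ≤ z'.den := by nlinarith
  have key : z'' ^ 2 = 7921 := by
    by_cases hlt : z''.den < k
    · exact ih _ hlt x'' z'' rfl hx'' h''
    have hge : (k : ℤ) ≤ z''.den := by exact_mod_cast not_lt.1 hlt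
    have e1 : |n| = k := by omega
    have e2 : |n'| = k := by omega
    have e3 : (z'.den : ℤ) = k := by omega
    have e4 : |m| = 1 := by
      rw [e1] at a1
      exact mul_right_cancel₀ hk0.ne' (by rw [a1, one_mul])
    have e5 : |m'| = 1 := by
      rw [e2, e3] at a2
      exact mul_right_cancel₀ hk0.ne' (by rw [a2, one_mul])
    have f1 : m ^ 2 = 1 := by rw [← sq_abs, e4]; norm_num
    have f2 : m' ^ 2 = 1 := by rw [← sq_abs, e5]; norm_num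
    have f3 : n ^ 2 = (k : ℤ) ^ 2 := by rw [← sq_abs, e1]
    have f4 : n' ^ 2 = (k : ℤ) ^ 2 := by rw [← sq_abs, e2]
    have f5 : z'.num * n = 2 * c * m * z'.den := by
      have h2 : (z'.num : ℚ) = z' * z'.den := (Rat.mul_den_eq_num z').symm
      have hnq : (n : ℚ) ≠ 0 := by exact_mod_cast hn
      have : (z'.num : ℚ) * n = ((2 * c * m : ℤ) : ℚ) * z'.den := by
        rw [h2]
        have : z' * n = ((2 * c * m : ℤ) : ℚ) := by rw [hz']; field_simp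
        rw [← this]; ring
      exact_mod_cast this
    have f6 : z'.num ^ 2 = 4 * c ^ 2 := by
      apply mul_right_cancel₀ (pow_ne_zero 2 hk0.ne')
      have := congrArg (· ^ 2) f5
      simp only [mul_pow, f1, f3, e3] at this
      linear_combination this
    have f7 : c' ^ 2 + 145158 * (k : ℤ) ^ 2 + d2' * (k : ℤ) ^ 4 = 4 * c ^ 2 := by
      have g1 : m' ^ 4 = 1 := by rw [show m' ^ 4 = (m' ^ 2) ^ 2 by ring, f2]; norm_num
      have g2 : n' ^ 4 = (k : ℤ) ^ 4 := by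
        rw [show n' ^ 4 = (n' ^ 2) ^ 2 by ring, f4]; ring
      rw [← f6, hN', g1, g2, f2, f4]; ring
    have hc0 : c' ≠ 0 := by rintro rfl; norm_num at hd'
    have hc2 : 0 < c' ^ 2 := by positivity
    have f8 : d2' = 767711241 / c' ^ 2 := by
      rw [← hd', Int.mul_ediv_cancel_left _ hc2.ne']
    have f9 : 0 < d2' := by
      by_contra hneg
      nlinarith
    have hdd : 0 < d2 := by
      by_contra hneg
      nlinarith [sq_nonneg c]
    have f10 : c ^ 2 ≤ 1125000000 := by nlinarith [sq_nonneg c]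
    have f11 : k < 180 := by
      by_contra hge
      have : (180 : ℤ) ≤ k := by exact_mod_cast not_lt.1 hge
      have : 0 < d2' * (k : ℤ) ^ 4 := by positivity
      nlinarith
    have f12 := finite_check c' hcl ⟨k, f11⟩ (by
      simp only
      rw [← f8, f7]
      exact Int.emod_eq_zero_of_dvd ⟨d2, by linarith⟩)
    simp only at f12
    rcases f12 with f12 | f12
    · omega
    · have hnq : (n' : ℚ) ≠ 0 := by exact_mod_cast hn'
      have : (c' * m') ^ 2 = 7921 * n' ^ 2 := by rw [mul_pow, f2, f4, f12]; ring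
      have h3 := congrArg (Int.cast : ℤ → ℚ) this
      rw [hz'']
      push_cast at h3 ⊢
      field_simp
      linear_combination h3
  have k2 := back z' c' d2' m' n' _ _ 7921 hd' hmn' hN' (by norm_num) key
  have k3 : (((c * m : ℤ) : ℚ) / (n : ℚ)) ^ 2 = 62500 := by
    have : (((c * m : ℤ) : ℚ) / (n : ℚ)) = z' / 2 := by
      rw [hz']; push_cast; ring
    rw [this, div_pow, k2]; norm_num
  have k4 := back z c d2 m n _ _ 62500 hd hmn hN (by norm_num) k3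
  rw [k4]; norm_num

lemma disc_sq (r : Fin 5 → ℚ) (hr : Function.Injective r) (t : ℚ)
    (h : ∀ i, r i ^ 5 - 13 * r i ^ 3 + 36 * r i = t) :
    ∃ w : ℚ, w ^ 2 = 3125 * t ^ 4 - 2612844 * t ^ 2 + 466560000 := by
  have G2 : ∀ i j, i ≠ j → r i ^ 4 + r i ^ 3 * r j + r i ^ 2 * r j ^ 2 + r i * r j ^ 3 + r j ^ 4
      - 13 * (r i ^ 2 + r i * r j + r j ^ 2) + 36 = 0 := by
    intro i j hij
    apply mul_left_cancel₀ (sub_ne_zero.2 (hr.ne hij))
    linear_combination h i - h j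
  have G3 : ∀ i j k, i ≠ j → i ≠ k → j ≠ k → r i ^ 3 + r i ^ 2 * r j + r i ^ 2 * r k +
      r i * r j ^ 2 + r i * r j * r k + r i * r k ^ 2 + r j ^ 3 + r j ^ 2 * r k + r j * r k ^ 2 +
      r k ^ 3 - 13 * (r i + r j + r k) = 0 := by
    intro i j k hij hik hjk
    apply mul_left_cancel₀ (sub_ne_zero.2 (hr.ne hjk))
    linear_combination G2 i j hij - G2 i k hik
  have G4 : ∀ l, (0 : Fin 5) ≠ l → 1 ≠ l → 2 ≠ l → r 0 ^ 2 + r 0 * r 1 + r 0 * r 2 + r 0 * r l +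
      r 1 ^ 2 + r 1 * r 2 + r 1 * r l + r 2 ^ 2 + r 2 * r l + r l ^ 2 - 13 = 0 := by
    intro l h0 h1 h2
    apply mul_left_cancel₀ (sub_ne_zero.2 (hr.ne h2))
    linear_combination G3 0 1 2 (by decide) (by decide) (by decide) - G3 0 1 l (by decide) h0 h1
  have g5 : r 0 + r 1 + r 2 + r 3 + r 4 = 0 := by
    apply mul_left_cancel₀ (sub_ne_zero.2 (hr.ne (by decide : (3 : Fin 5) ≠ 4)))
    linear_combination G4 3 (by decide) (by decide) (by decide) -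
      G4 4 (by decide) (by decide) (by decide)
  have g4 := G4 3 (by decide) (by decide) (by decide)
  have g3 := G3 0 1 2 (by decide) (by decide) (by decide)
  have g2 := G2 0 1 (by decide)
  have h0 := h 0
  have h1 := h 1
  have h2 := h 2
  have h3 := h 3
  have h4 := h 4
  have hV : (Matrix.vandermonde r).transpose * Matrix.vandermonde r =
      !![5, 0, 26, 0, 194; 0, 26, 0, 194, 5 * t; 26, 0, 194, 5 * t, 1586;
        0, 194, 5 * t, 1586, 91 * t; 194, 5 * t, 1586, 91 * t, 13634] := by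
    have pe : ∀ i j : Fin 5, ((Matrix.vandermonde r).transpose * Matrix.vandermonde r) i j =
        r 0 ^ (i.1 + j.1) + r 1 ^ (i.1 + j.1) + r 2 ^ (i.1 + j.1) + r 3 ^ (i.1 + j.1) +
          r 4 ^ (i.1 + j.1) := by
      intro i j
      simp only [Matrix.mul_apply, Matrix.transpose_apply, Matrix.vandermonde_apply,
        Fin.sum_univ_five, pow_add]
    generalize r 0 = a at *
    generalize r 1 = b at *
    generalize r 2 = c at *
    generalize r 3 = d at *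
    generalize r 4 = e at *
    have p2 : a ^ 2 + b ^ 2 + c ^ 2 + d ^ 2 + e ^ 2 = 26 := by
      linear_combination ((-1)*a + (-1)*b + (-1)*c + (-1)*d + e) * g5 + (2) * g4
    have p3 : a ^ 3 + b ^ 3 + c ^ 3 + d ^ 3 + e ^ 3 = 0 := by
      linear_combination (a^2 + 2*a*b + 2*a*c + 2*a*d + (-1)*a*e + b^2 + 2*b*c + 2*b*d +
        (-1)*b*e + c^2 + 2*c*d + (-1)*c*e + d^2 + (-1)*d*e + e^2) * g5 +
        ((-3)*a + (-3)*b + (-3)*c) * g4 + (3) * g3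
    have p4 : a ^ 4 + b ^ 4 + c ^ 4 + d ^ 4 + e ^ 4 = 194 := by
      linear_combination ((-1)*a^3 + (-3)*a^2*b + (-3)*a^2*c + (-3)*a^2*d + a^2*e + (-3)*a*b^2 +
        (-6)*a*b*c + (-6)*a*b*d + 2*a*b*e + (-3)*a*c^2 + (-6)*a*c*d + 2*a*c*e + (-3)*a*d^2 +
        2*a*d*e + (-1)*a*e^2 + (-1)*b^3 + (-3)*b^2*c + (-3)*b^2*d + b^2*e + (-3)*b*c^2 +
        (-6)*b*c*d + 2*b*c*e + (-3)*b*d^2 + 2*b*d*e + (-1)*b*e^2 + (-1)*c^3 + (-3)*c^2*d +
        c^2*e + (-3)*c*d^2 + 2*c*d*e + (-1)*c*e^2 + (-1)*d^3 + d^2*e + (-1)*d*e^2 + e^3) * g5 +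
        (2*a^2 + 6*a*b + 6*a*c + 2*a*d + 2*b^2 + 6*b*c + 2*b*d + 2*c^2 + 2*c*d + 2*d^2 + 26) * g4
        + ((-4)*a + (-4)*b) * g3 + (4) * g2
    have p5 : a ^ 5 + b ^ 5 + c ^ 5 + d ^ 5 + e ^ 5 = 5 * t := by
      linear_combination h0 + h1 + h2 + h3 + h4 + 13 * p3 - 36 * g5
    have p6 : a ^ 6 + b ^ 6 + c ^ 6 + d ^ 6 + e ^ 6 = 1586 := by
      linear_combination a * h0 + b * h1 + c * h2 + d * h3 + e * h4 + 13 * p4 - 36 * p2 + t * g5
    have p7 : a ^ 7 + b ^ 7 + c ^ 7 + d ^ 7 + e ^ 7 = 91 * t := by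
      linear_combination a ^ 2 * h0 + b ^ 2 * h1 + c ^ 2 * h2 + d ^ 2 * h3 + e ^ 2 * h4 +
        13 * p5 - 36 * p3 + t * p2
    have p8 : a ^ 8 + b ^ 8 + c ^ 8 + d ^ 8 + e ^ 8 = 13634 := by
      linear_combination a ^ 3 * h0 + b ^ 3 * h1 + c ^ 3 * h2 + d ^ 3 * h3 + e ^ 3 * h4 +
        13 * p6 - 36 * p4 + t * p3
    have p1 : a ^ 1 + b ^ 1 + c ^ 1 + d ^ 1 + e ^ 1 = 0 := by linear_combination g5
    have p0 : a ^ 0 + b ^ 0 + c ^ 0 + d ^ 0 + e ^ 0 = 5 := by norm_num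
    ext i j
    rw [pe]
    fin_cases i <;> fin_cases j <;> assumption
  refine ⟨(Matrix.vandermonde r).det, ?_⟩
  have := congrArg Matrix.det hV
  rw [Matrix.det_mul, Matrix.det_transpose] at this
  rw [sq, this]
  simp [Matrix.det_succ_row_zero, Fin.sum_univ_succ, Fin.succAbove]
  ring

lemma no_root (q : ℚ) (s : ℚ) (hs : s ^ 2 = (72 / 5) ^ 2) : q ^ 5 - 13 * q ^ 3 + 36 * q ≠ s := by
  intro h
  have h1 : (q.num : ℚ) = q * q.den := (Rat.mul_den_eq_num q).symm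
  have hc : IsCoprime q.num (q.den : ℤ) := Int.isCoprime_iff_gcd_eq_one.2 q.reduced
  obtain ⟨σ, hσ⟩ : ∃ σ : ℤ, (σ = 72 ∨ σ = -72) ∧ 5 * s = σ := by
    rcases sq_eq_sq_iff_eq_or_eq_neg.1 hs with h2 | h2
    · exact ⟨72, Or.inl rfl, by rw [h2]; norm_num⟩
    · exact ⟨-72, Or.inr rfl, by rw [h2]; norm_num⟩
  have e : 5 * (q.num ^ 5 - 13 * q.num ^ 3 * (q.den : ℤ) ^ 2 + 36 * q.num * (q.den : ℤ) ^ 4) =
      σ * (q.den : ℤ) ^ 5 := by
    have : 5 * ((q.num : ℚ) ^ 5 - 13 * (q.num : ℚ) ^ 3 * (q.den : ℚ) ^ 2 +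
        36 * q.num * (q.den : ℚ) ^ 4) = σ * (q.den : ℚ) ^ 5 := by
      rw [h1, ← hσ.2, ← h]; ring
    exact_mod_cast this
  generalize q.num = u at *
  generalize (q.den : ℤ) = v at *
  have p5 : Prime (5 : ℤ) := Int.prime_iff_natAbs_prime.2 Nat.prime_five
  have d1 : (5 : ℤ) ∣ σ * v ^ 5 := ⟨_, e.symm⟩
  have d2 : (5 : ℤ) ∣ v := by
    rcases p5.dvd_or_dvd d1 with h3 | h3
    · rcases hσ.1 with h4 | h4 <;> omega
    · exact p5.dvd_of_dvd_pow h3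
  obtain ⟨v', rfl⟩ := d2
  have d3 : (5 : ℤ) ∣ u ^ 5 :=
    ⟨65 * u ^ 3 * v' ^ 2 - 4500 * u * v' ^ 4 + 125 * σ * v' ^ 5, by linarith⟩
  exact not_dvd_of_cop (by norm_num) hc (dvd_mul_right 5 v') (p5.dvd_of_dvd_pow d3)

theorem rigid (r : Fin 5 → ℚ) (hr : Function.Injective r) (t : ℚ)
    (h : ∀ i, r i ^ 5 - 13 * r i ^ 3 + 36 * r i = t) : t = 0 := by
  by_contra ht
  obtain ⟨w, hw⟩ := disc_sq r hr t h
  have hz := descent _ (3125 * t ^ 2 / 36) (w / (6 * t)) rfl (by positivity) (by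
    push_cast
    field_simp
    linear_combination (-1 : ℚ) * 112500 * hw)
  have e1 : w ^ 2 = 7921 * 36 * t ^ 2 := by
    rw [← hz]; field_simp; ring
  have e2 : (t ^ 2 - 720) * (t ^ 2 - (72 / 5) ^ 2) = 0 := by
    linear_combination (1 / 3125 : ℚ) * e1 - (1 / 3125 : ℚ) * hw
  rcases mul_eq_zero.1 e2 with h1 | h1
  · have h2 : (t / 12) ^ 2 = 5 := by linear_combination (1 / 144 : ℚ) * h1
    have h3 : IsSquare (5 : ℚ) := ⟨t / 12, by rw [← h2]; ring⟩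
    have h4 : IsSquare (5 : ℕ) := by exact_mod_cast (Rat.isSquare_natCast_iff (n := 5)).1 h3
    exact absurd h4 (by decide +kernel)
  · exact no_root (r 0) t (by linarith) (h 0)

end Pool.Agent.Lib.H29.Quintic
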