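import Mathlib

set_option autoImplicit false

namespace Pool.Agent.Lib.H29.Riesz

open MeasureTheory

/-- A Riesz basis: the image of an orthonormal (Hilbert) basis under a bounded invertible linear
operator. -/
def IsRieszBasis {ι H : Type} [NormedAddCommGroup H] [InnerProductSpace ℂ H] (v : ι → H) : Prop :=
  ∃ (e : HilbertBasis ι ℂ H) (T : H ≃L[ℂ] H), ∀ i, v i = T (e i)

/-- The Gabor system of the indicator function of `Ω` with time shifts in `ℤ` and frequency shifts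
in `Γ` is a Riesz basis of `L²(ℝ)`. -/
def GaborRiesz (Ω Γ : Set ℝ) : Prop :=
  ∃ v : ℤ × Γ → Lp ℂ 2 (volume : Measure ℝ),
    (∀ p, v p =ᵐ[volume] fun x => Complex.exp (2 * Real.pi * Complex.I * (((p.2 : ℝ) * x : ℝ) : ℂ)) *
      Ω.indicator (fun _ => (1 : ℂ)) (x - p.1)) ∧ IsRieszBasis v

/-- `Ω` is measurable, of positive finite measure, and multi-tiles `ℝ` by the lattice `ℤ` at
level `k`. -/
def MultiTiles (Ω : Set ℝ) (k : ℕ) : Prop :=
  MeasurableSet Ω ∧ 0 < volume Ω ∧ volume Ω < ⊤ ∧ ∀ᵐ x : ℝ, {n : ℤ | x - n ∈ Ω}.encard = k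

end Pool.Agent.Lib.H29.Riesz
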