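import Mathlib

set_option autoImplicit false
open Polynomial Complex Set Filter Topology Real

namespace Pool.Agent.Lib.H29.SelfInv

lemma re_div_sub (z a : ℂ) (h : z ≠ a) :
    (z * (1 / (z - a))).re = 1 / 2 + (‖z‖ ^ 2 - ‖a‖ ^ 2) / (2 * ‖z - a‖ ^ 2) := by
  have h1 : z - a ≠ 0 := sub_ne_zero.mpr h
  have h2 : normSq (z - a) ≠ 0 := by simpa using h1
  rw [mul_one_div, Complex.div_re, Complex.sq_norm, Complex.sq_norm, Complex.sq_norm]
  field_simp
  simp [normSq_apply]
  ring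

lemma logderiv_re (p : ℂ[X]) {z : ℂ} (hz : p.eval z ≠ 0) :
    (z * (p.derivative.eval z / p.eval z)).re = p.natDegree / 2 +
      (p.roots.map fun a => (‖z‖ ^ 2 - ‖a‖ ^ 2) / (2 * ‖z - a‖ ^ 2)).sum := by
  have hp : p ≠ 0 := by rintro rfl; simp at hz
  rw [(IsAlgClosed.splits p).eval_derivative_div_eval_of_ne_zero hz,
    (IsAlgClosed.splits p).natDegree_eq_card_roots, ← Multiset.sum_map_mul_left]
  have h : ∀ a ∈ p.roots, z ≠ a := by
    intro a ha e
    exact hz (e ▸ (mem_roots hp).mp ha)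
  generalize p.roots = s at h
  induction s using Multiset.induction_on with
  | empty => simp
  | cons a s ih =>
    simp only [Multiset.map_cons, Multiset.sum_cons, Complex.add_re, Multiset.card_cons]
    rw [ih (fun b hb => h b (Multiset.mem_cons_of_mem hb)),
      re_div_sub z a (h a (Multiset.mem_cons_self a s))]
    push_cast
    ring

lemma logderiv_le (p : ℂ[X]) {z : ℂ} (hz : p.eval z ≠ 0) (h : ∀ a ∈ p.roots, ‖z‖ ≤ ‖a‖) :
    (z * (p.derivative.eval z / p.eval z)).re ≤ p.natDegree / 2 := by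
  rw [logderiv_re p hz]
  have : (p.roots.map fun a => (‖z‖ ^ 2 - ‖a‖ ^ 2) / (2 * ‖z - a‖ ^ 2)).sum ≤ 0 := by
    refine le_trans (Multiset.sum_map_le_sum_map _ (fun _ => (0 : ℝ)) ?_) (by simp)
    intro a ha
    apply div_nonpos_of_nonpos_of_nonneg _ (by positivity)
    nlinarith [h a ha, norm_nonneg z]
  linarith

lemma logderiv_ge (p : ℂ[X]) {z : ℂ} (hz : p.eval z ≠ 0) (h : ∀ a ∈ p.roots, ‖a‖ ≤ ‖z‖) :
    (p.natDegree : ℝ) / 2 ≤ (z * (p.derivative.eval z / p.eval z)).re := by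
  rw [logderiv_re p hz]
  have : 0 ≤ (p.roots.map fun a => (‖z‖ ^ 2 - ‖a‖ ^ 2) / (2 * ‖z - a‖ ^ 2)).sum := by
    apply Multiset.sum_nonneg
    intro x hx
    obtain ⟨a, ha, rfl⟩ := Multiset.mem_map.mp hx
    apply div_nonneg _ (by positivity)
    nlinarith [h a ha, norm_nonneg a]
  linarith

lemma logderiv_lt (p : ℂ[X]) (hn : 1 ≤ p.natDegree) {z : ℂ} (h : ∀ a ∈ p.roots, ‖z‖ < ‖a‖) :
    p.eval z ≠ 0 ∧ (z * (p.derivative.eval z / p.eval z)).re < p.natDegree / 2 := by
  have hp : p ≠ 0 := by rintro rfl; simp at hn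
  have hz : p.eval z ≠ 0 := fun e => lt_irrefl _ (h z ((mem_roots hp).mpr e))
  refine ⟨hz, ?_⟩
  rw [logderiv_re p hz]
  have hne : p.roots ≠ 0 := by
    intro e
    rw [(IsAlgClosed.splits p).natDegree_eq_card_roots, e] at hn
    simp at hn
  have : (p.roots.map fun a => (‖z‖ ^ 2 - ‖a‖ ^ 2) / (2 * ‖z - a‖ ^ 2)).sum
      < (p.roots.map fun _ => (0 : ℝ)).sum := by
    apply Multiset.sum_lt_sum_of_nonempty hne
    intro a ha
    have h1 := h a ha
    have h2 : z - a ≠ 0 := by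
      intro e; rw [sub_eq_zero.mp e] at h1; exact lt_irrefl _ h1
    apply div_neg_of_neg_of_pos _ (by positivity)
    nlinarith [norm_nonneg z]
  simp at this
  linarith

/-- local behaviour of a solution of `S w = x w ^ m` inside the disc -/
lemma local_root (S : ℂ[X]) (m : ℕ) (hm : 1 ≤ m) (hd : S.natDegree = 2 * m)
    (hr : ∀ a ∈ S.roots, ‖a‖ = 1) {w : ℂ} (hw : ‖w‖ < 1) {x : ℝ} (hx : 0 < x)
    (he : S.eval w = x * w ^ m) :
    w ≠ 0 ∧ ∃ κ : ℂ, κ.re < 0 ∧ S.derivative.eval w - x * m * w ^ (m - 1) = x * κ * w ^ (m - 1) ∧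
      HasStrictDerivAt (fun z => S.eval z / z ^ m) (x * κ / w) w := by
  obtain ⟨h1, h2⟩ := logderiv_lt S (by omega) (z := w) (fun a ha => by rw [hr a ha]; exact hw)
  have hw0 : w ≠ 0 := by
    rintro rfl
    apply h1
    rw [he, zero_pow (by omega), mul_zero]
  have hx0 : (x : ℂ) ≠ 0 := by exact_mod_cast hx.ne'
  obtain ⟨k, rfl⟩ : ∃ k, m = k + 1 := ⟨m - 1, by omega⟩
  refine ⟨hw0, w * (S.derivative.eval w / S.eval w) - (k + 1 : ℕ), ?_, ?_, ?_⟩
  · rw [hd] at h2
    simp only [sub_re, natCast_re]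
    push_cast at h2 ⊢
    linarith
  · rw [he]
    simp only [Nat.add_sub_cancel]
    field_simp
    ring
  · have a1 := (S.hasStrictDerivAt w).fun_div (hasStrictDerivAt_pow (k + 1) w) (pow_ne_zero _ hw0)
    have e : (eval w (derivative S) * w ^ (k + 1) - eval w S * (↑(k + 1) * w ^ (k + 1 - 1))) /
        (w ^ (k + 1)) ^ 2 = x * (w * (S.derivative.eval w / S.eval w) - (k + 1 : ℕ)) / w := by
      rw [he]
      simp only [Nat.add_sub_cancel]
      field_simp
      ring
    rw [← e]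
    exact a1

lemma track (S : ℂ[X]) (m : ℕ) (hm : 1 ≤ m) (hd : S.natDegree = 2 * m)
    (hr : ∀ a ∈ S.roots, ‖a‖ = 1) {x y : ℝ} (hx : 0 < x) (hxy : x ≤ y) (Z : Finset ℂ)
    (hZ : ∀ z ∈ Z, ‖z‖ < 1 ∧ S.eval z = x * z ^ m) :
    ∃ f : Z → ℂ, Function.Injective f ∧ ∀ z : Z, S.eval (f z) = y * f z ^ m ∧ ‖f z‖ ≤ ‖(z : ℂ)‖ := by
  set A : Set ℝ := {t | ∃ f : Z → ℂ, Function.Injective f ∧
    ∀ z : Z, S.eval (f z) = t * f z ^ m ∧ ‖f z‖ ≤ ‖(z : ℂ)‖} with hA
  have key : Icc x y ⊆ A := by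
    apply IsClosed.Icc_subset_of_forall_exists_gt
    · apply IsSeqClosed.isClosed
      intro u t hu hut
      have htI : t ∈ Icc x y := isClosed_Icc.mem_of_tendsto hut (Eventually.of_forall fun n => (hu n).2)
      refine ⟨?_, htI⟩
      choose F hF1 hF2 using fun n => (hu n).1
      have hK : IsCompact (Set.pi univ fun z : Z => Metric.closedBall (0 : ℂ) ‖(z : ℂ)‖) :=
        isCompact_univ_pi fun z => isCompact_closedBall _ _
      obtain ⟨f, hf, φ, hφ, hlim⟩ := hK.tendsto_subseq (x := F)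
        (fun n z _ => by simpa using (hF2 n z).2)
      have hlz : ∀ z : Z, Tendsto (fun n => F (φ n) z) atTop (𝓝 (f z)) :=
        fun z => (tendsto_pi_nhds.mp hlim) z
      have hut' : Tendsto (fun n => ((u (φ n) : ℝ) : ℂ)) atTop (𝓝 (t : ℂ)) :=
        (Complex.continuous_ofReal.tendsto t).comp (hut.comp hφ.tendsto_atTop)
      have hroot : ∀ z : Z, S.eval (f z) = t * f z ^ m := by
        intro z
        have a1 : Tendsto (fun n => S.eval (F (φ n) z)) atTop (𝓝 (S.eval (f z))) :=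
          (S.continuous.tendsto _).comp (hlz z)
        have a2 : Tendsto (fun n => ((u (φ n) : ℝ) : ℂ) * F (φ n) z ^ m) atTop (𝓝 (t * f z ^ m)) :=
          hut'.mul ((hlz z).pow m)
        exact tendsto_nhds_unique (a1.congr fun n => (hF2 (φ n) z).1) a2
      have hnorm : ∀ z : Z, ‖f z‖ ≤ ‖(z : ℂ)‖ := fun z => by simpa using hf z trivial
      refine ⟨f, ?_, fun z => ⟨hroot z, hnorm z⟩⟩
      intro z z' e
      obtain ⟨hw0, κ, hκ, -, hD⟩ := local_root S m hm hd hr
        (lt_of_le_of_lt (hnorm z) (hZ z z.2).1) (lt_of_lt_of_le hx htI.1) (hroot z)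
      have hne : (t : ℂ) * κ / f z ≠ 0 := by
        have : κ ≠ 0 := by rintro rfl; simp at hκ
        have ht : (t : ℂ) ≠ 0 := by exact_mod_cast (lt_of_lt_of_le hx htI.1).ne'
        positivity
      have hL := hD.eventually_left_inverse hne
      have h0 : ∀ᶠ v in 𝓝 (f z), v ≠ 0 := isOpen_ne.mem_nhds hw0
      have b1 := (hlz z).eventually (hL.and h0)
      have b2 := (e ▸ hlz z').eventually (hL.and h0)
      obtain ⟨n, c1, c2⟩ := (b1.and b2).exists
      apply hF1 (φ n)
      rw [← c1.1, ← c2.1, (hF2 (φ n) z).1, (hF2 (φ n) z').1,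
        mul_div_cancel_right₀ _ (pow_ne_zero _ c1.2), mul_div_cancel_right₀ _ (pow_ne_zero _ c2.2)]
    · exact ⟨fun z => z, Subtype.val_injective, fun z => ⟨(hZ z z.2).2, le_rfl⟩⟩
    · rintro t ⟨⟨f, hf1, hf2⟩, htI⟩ s hs
      have ht : 0 < t := lt_of_lt_of_le hx htI.1
      have loc : ∀ z : Z, ∃ g : ℝ → ℂ, Tendsto g (𝓝 t) (𝓝 (f z)) ∧
          ∀ᶠ v in 𝓝[>] t, S.eval (g v) = v * g v ^ m ∧ ‖g v‖ ≤ ‖(z : ℂ)‖ := by
        intro z
        obtain ⟨hw0, κ, hκ, -, hD⟩ := local_root S m hm hd hr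
          (lt_of_le_of_lt (hf2 z).2 (hZ z z.2).1) ht (hf2 z).1
        have hκ0 : κ ≠ 0 := by rintro rfl; simp at hκ
        have ht' : (t : ℂ) ≠ 0 := by exact_mod_cast ht.ne'
        have hne : (t : ℂ) * κ / f z ≠ 0 := by positivity
        have hval : S.eval (f z) / f z ^ m = t := by
          rw [(hf2 z).1, mul_div_cancel_right₀ _ (pow_ne_zero _ hw0)]
        have hR := hD.eventually_right_inverse hne
        have hI := (hD.to_localInverse hne).hasDerivAt
        have hL := (hD.eventually_left_inverse hne).self_of_nhds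
        simp only [hval] at hR hI hL
        set G := HasStrictDerivAt.localInverse (fun z => S.eval z / z ^ m) (t * κ / f z) (f z) hD hne
        have hg : HasDerivAt (fun v : ℝ => G v) ((t : ℂ) * κ / f z)⁻¹ t := hI.comp_ofReal
        have hgt : Tendsto (fun v : ℝ => G v) (𝓝 t) (𝓝 (f z)) := by
          have := hg.continuousAt.tendsto
          simpa only [hL] using this
        refine ⟨fun v => G v, hgt, ?_⟩
        have hN := hg.norm_sq
        have hneg : 2 * inner ℝ (G t) ((t : ℂ) * κ / f z)⁻¹ < 0 := by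
          rw [hL, Complex.inner]
          have : ((t : ℂ) * κ / f z)⁻¹ * (starRingEnd ℂ) (f z)
              = ((normSq (f z) / (t * normSq κ) : ℝ) : ℂ) * (starRingEnd ℂ) κ := by
            have hc : (starRingEnd ℂ) κ ≠ 0 := by simpa using hκ0
            push_cast
            rw [← mul_conj, ← mul_conj]
            field_simp
          rw [this, re_ofReal_mul, conj_re]
          have p1 : 0 < normSq (f z) := normSq_pos.mpr hw0
          have p2 : 0 < normSq κ := normSq_pos.mpr hκ0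
          have p3 : 0 < normSq (f z) / (t * normSq κ) := by positivity
          nlinarith
        have hsl := (hasDerivAt_iff_tendsto_slope.mp hN).eventually (gt_mem_nhds hneg)
        have hsl' : ∀ᶠ v in 𝓝[>] t, slope (fun v : ℝ => ‖G v‖ ^ 2) t v < 0 :=
          hsl.filter_mono (nhdsWithin_mono _ fun v hv => ne_of_gt hv)
        have hR' : ∀ᶠ v : ℝ in 𝓝 t, S.eval (G v) / G v ^ m = v :=
          (Complex.continuous_ofReal.tendsto t).eventually hR
        have h0 : ∀ᶠ v : ℝ in 𝓝 t, G v ≠ 0 := hgt.eventually (isOpen_ne.mem_nhds hw0)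
        filter_upwards [hsl', nhdsWithin_le_nhds hR', nhdsWithin_le_nhds h0, self_mem_nhdsWithin]
          with v h1 h2 h3 h4
        refine ⟨(div_eq_iff (pow_ne_zero _ h3)).mp h2, ?_⟩
        rw [slope_def_field, hL, div_neg_iff] at h1
        have h5 : 0 < v - t := sub_pos.mpr h4
        have h6 : ‖G v‖ ^ 2 ≤ ‖f z‖ ^ 2 := by
          rcases h1 with h1 | h1
          · linarith [h1.2]
          · linarith [h1.1]
        exact le_trans (le_of_sq_le_sq h6 (norm_nonneg _)) (hf2 z).2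
      choose g hg1 hg2 using loc
      have e1 : ∀ᶠ v in 𝓝[>] t, ∀ z : Z, S.eval (g z v) = v * g z v ^ m ∧ ‖g z v‖ ≤ ‖(z : ℂ)‖ :=
        eventually_all.mpr hg2
      have e2 : ∀ᶠ v in 𝓝 t, ∀ z : Z, ∀ z' : Z, z ≠ z' → g z v ≠ g z' v := by
        refine eventually_all.mpr fun z => eventually_all.mpr fun z' => ?_
        by_cases h : z = z'
        · simp [h]
        · have : f z - f z' ≠ 0 := sub_ne_zero.mpr fun e => h (hf1 e)
          filter_upwards [((hg1 z).sub (hg1 z')).eventually (isOpen_ne.mem_nhds this)] with v hv _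
          exact sub_ne_zero.mp hv
      obtain ⟨v, c1, c2, c3⟩ := (e1.and ((e2.filter_mono nhdsWithin_le_nhds).and
        (Ioc_mem_nhdsGT hs))).exists
      exact ⟨v, ⟨fun z => g z v, fun z z' e => by_contra fun h => c2 z z' h e, c1⟩, c3⟩
  exact key ⟨hxy, le_rfl⟩

lemma logMahler_inside (p : ℂ[X]) (h0 : p.eval 0 ≠ 0) :
    p.logMahlerMeasure = Real.log ‖p.eval 0‖ + (p.roots.map fun a => log⁺ ‖a‖⁻¹).sum := by
  have hp : p ≠ 0 := by rintro rfl; simp at h0
  have hl : p.leadingCoeff ≠ 0 := leadingCoeff_ne_zero.mpr hp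
  have hne : ∀ a ∈ p.roots, a ≠ 0 := by
    rintro a ha rfl
    exact h0 ((mem_roots hp).mp ha)
  rw [logMahlerMeasure_eq_log_leadingCoeff_add_sum_log_roots,
    (IsAlgClosed.splits p).eval_eq_prod_roots]
  generalize p.leadingCoeff = c at hl
  generalize p.roots = s at hne
  induction s using Multiset.induction_on generalizing c with
  | empty => simp
  | cons a s ih =>
    have ha := hne a (Multiset.mem_cons_self a s)
    have := ih (c * (0 - a)) (by simp [hl, ha]) (fun b hb => hne b (Multiset.mem_cons_of_mem hb))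
    simp only [Multiset.map_cons, Multiset.sum_cons, Multiset.prod_cons]
    rw [← mul_assoc]
    rw [norm_mul c, Real.log_mul (by simpa using hl) (by simpa using ha)] at this
    have h2 := Real.posLog_sub_posLog_inv (x := ‖a‖)
    simp only [zero_sub, norm_neg] at this ⊢
    linarith

theorem logMahler_mono (S : ℂ[X]) (m : ℕ) (hm : 1 ≤ m) (hd : S.natDegree = 2 * m)
    (hr : ∀ a ∈ S.roots, ‖a‖ = 1) {x y : ℝ} (hx : 0 < x) (hxy : x ≤ y) :
    (S - C (x : ℂ) * X ^ m).logMahlerMeasure ≤ (S - C (y : ℂ) * X ^ m).logMahlerMeasure := by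
  classical
  have hS0 : S.eval 0 ≠ 0 := (logderiv_lt S (by omega) (z := 0)
    (fun a ha => by rw [hr a ha]; simp)).1
  have ev0 : ∀ t : ℝ, (S - C (t : ℂ) * X ^ m).eval 0 = S.eval 0 := by
    intro t; simp [zero_pow (show m ≠ 0 by omega)]
  have ne0 : ∀ t : ℝ, (S - C (t : ℂ) * X ^ m) ≠ 0 := by
    intro t e
    apply hS0; rw [← ev0 t, e]; simp
  rw [logMahler_inside _ (by rw [ev0]; exact hS0), logMahler_inside _ (by rw [ev0]; exact hS0),
    ev0, ev0]
  set Z := (S - C (x : ℂ) * X ^ m).roots.toFinset.filter (fun a => ‖a‖ < 1) with hZ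
  have hZ' : ∀ z ∈ Z, ‖z‖ < 1 ∧ S.eval z = x * z ^ m := by
    intro z hz
    rw [hZ, Finset.mem_filter, Multiset.mem_toFinset, mem_roots (ne0 x)] at hz
    refine ⟨hz.2, ?_⟩
    have := hz.1
    simpa [sub_eq_zero] using this
  obtain ⟨f, hf1, hf2⟩ := track S m hm hd hr hx hxy Z hZ'
  have s1 : ((S - C (x : ℂ) * X ^ m).roots.map fun a => log⁺ ‖a‖⁻¹).sum
      = ∑ z ∈ Z, log⁺ ‖z‖⁻¹ := by
    rw [Finset.sum_multiset_map_count, hZ, Finset.sum_filter]
    apply Finset.sum_congr rfl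
    intro a ha
    split_ifs with h
    · have hmem : a ∈ Z := by rw [hZ, Finset.mem_filter]; exact ⟨ha, h⟩
      obtain ⟨hw0, κ, hκ, hder, -⟩ := local_root S m hm hd hr h hx (hZ' a hmem).2
      have c1 : (S - C (x : ℂ) * X ^ m).roots.count a = 1 := by
        have d1 : 0 < (S - C (x : ℂ) * X ^ m).roots.count a :=
          Multiset.count_pos.mpr (Multiset.mem_toFinset.mp ha)
        have d2 : ¬ 1 < (S - C (x : ℂ) * X ^ m).roots.count a := by
          rw [count_roots, one_lt_rootMultiplicity_iff_isRoot (ne0 x)]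
          rintro ⟨-, h2⟩
          have hκ0 : κ ≠ 0 := by rintro rfl; simp at hκ
          have hx' : (x : ℂ) ≠ 0 := by exact_mod_cast hx.ne'
          have : (x : ℂ) * κ * a ^ (m - 1) ≠ 0 := by positivity
          apply this
          rw [← hder]
          simp [IsRoot, derivative_X_pow] at h2
          linear_combination h2
        omega
      rw [c1, one_smul]
    · have : log⁺ ‖a‖⁻¹ = 0 := by
        rw [Real.posLog_eq_zero_iff, abs_of_nonneg (by positivity)]
        exact inv_le_one_of_one_le₀ (not_lt.mp h)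
      rw [this, smul_zero]
  have hroot : ∀ z : Z, f z ∈ (S - C (y : ℂ) * X ^ m).roots := by
    intro z
    rw [mem_roots (ne0 y)]
    simp [IsRoot, (hf2 z).1]
  have s2 : ∑ z : Z, log⁺ ‖f z‖⁻¹
      ≤ ((S - C (y : ℂ) * X ^ m).roots.map fun a => log⁺ ‖a‖⁻¹).sum := by
    rw [Finset.sum_multiset_map_count,
      ← Finset.sum_image (s := Finset.univ) (g := f) (f := fun a => log⁺ ‖a‖⁻¹) (hf1.injOn)]
    refine le_trans (Finset.sum_le_sum_of_subset_of_nonneg (t := (S - C (y : ℂ) * X ^ m).roots.toFinset)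
      ?_ (fun _ _ _ => Real.posLog_nonneg)) (Finset.sum_le_sum fun a ha => ?_)
    · intro a ha
      obtain ⟨z, -, rfl⟩ := Finset.mem_image.mp ha
      exact Multiset.mem_toFinset.mpr (hroot z)
    · have d1 : 1 ≤ (S - C (y : ℂ) * X ^ m).roots.count a :=
        Multiset.count_pos.mpr (Multiset.mem_toFinset.mp ha)
      rw [nsmul_eq_mul]
      have d2 : (1 : ℝ) ≤ (S - C (y : ℂ) * X ^ m).roots.count a := by exact_mod_cast d1
      nlinarith [Real.posLog_nonneg (x := ‖a‖⁻¹)]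
  have s3 : ∑ z ∈ Z, log⁺ ‖z‖⁻¹ ≤ ∑ z : Z, log⁺ ‖f z‖⁻¹ := by
    rw [← Finset.sum_coe_sort Z]
    apply Finset.sum_le_sum
    intro z _
    have hf0 : f z ≠ 0 := by
      intro e
      have := (mem_roots (ne0 y)).mp (hroot z)
      rw [IsRoot, e, ev0] at this
      exact hS0 this
    apply Real.posLog_le_posLog (by positivity)
    exact inv_anti₀ (norm_pos_iff.mpr hf0) (hf2 z).2
  rw [s1]
  linarith

end Pool.Agent.Lib.H29.SelfInv
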