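import Pool.Agent.Lib.helper29.SelfInv1

set_option autoImplicit false
open Set Filter Topology Real MeasureTheory

namespace Pool.Agent.Lib.H29.SelfInv

noncomputable def L (θ : ℝ) : ℝ := Real.log (Real.sin (θ / 2))

lemma L_int (a b : ℝ) : IntervalIntegrable L volume a b := by
  have := (intervalIntegrable_log_sin (a := a / 2) (b := b / 2)).comp_mul_left (c := 1 / 2)
  have e : (fun x : ℝ => (Real.log ∘ Real.sin) (1 / 2 * x)) = L := by
    ext x; simp only [L, Function.comp]; ring_nf
  rw [e] at this
  convert this using 1 <;> ring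

lemma L_shift_int (α a b : ℝ) : IntervalIntegrable (fun β => L (β + α)) volume a b := by
  have := (L_int (a + α) (b + α)).comp_add_right α
  simpa using this

lemma L_per : Function.Periodic L (2 * π) := by
  intro x
  unfold L
  rw [show (x + 2 * π) / 2 = x / 2 + π by ring, Real.sin_add_pi, Real.log_neg_eq_log]

lemma L_cos : ∫ θ in (0 : ℝ)..2 * π, Real.cos θ * L θ = -π := by
  have hF : ∫ θ in (0 : ℝ)..2 * π, Real.cos θ * L θ =
      (fun θ : ℝ => 2 * Real.cos (θ / 2) * (Real.sin (θ / 2) * Real.log (Real.sin (θ / 2)))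
        - (θ + Real.sin θ) / 2) (2 * π) -
      (fun θ : ℝ => 2 * Real.cos (θ / 2) * (Real.sin (θ / 2) * Real.log (Real.sin (θ / 2)))
        - (θ + Real.sin θ) / 2) 0 := by
    refine intervalIntegral.integral_eq_sub_of_hasDerivAt_of_le
      (f := fun θ : ℝ => 2 * Real.cos (θ / 2) * (Real.sin (θ / 2) * Real.log (Real.sin (θ / 2)))
        - (θ + Real.sin θ) / 2) (by positivity) ?_ ?_ ?_
    · apply Continuous.continuousOn
      have h1 : Continuous fun θ : ℝ => Real.sin (θ / 2) * Real.log (Real.sin (θ / 2)) :=
        Real.continuous_mul_log.comp (by fun_prop : Continuous fun θ : ℝ => Real.sin (θ / 2))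
      fun_prop
    · intro θ hθ
      have hs : 0 < Real.sin (θ / 2) :=
        Real.sin_pos_of_pos_of_lt_pi (by linarith [hθ.1]) (by linarith [hθ.2])
      have a0 : HasDerivAt (fun θ : ℝ => θ / 2) (1 / 2) θ := (hasDerivAt_id θ).div_const 2
      have a1 := a0.sin
      have a2 := a0.cos
      have a3 := ((a2.const_mul 2).fun_mul (a1.fun_mul (a1.log hs.ne'))).fun_sub
        (((hasDerivAt_id' θ).fun_add (Real.hasDerivAt_sin θ)).div_const 2)
      refine a3.congr_deriv ?_
      have c2 : Real.cos θ = 2 * Real.cos (θ / 2) ^ 2 - 1 := by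
        rw [← Real.cos_two_mul]; ring_nf
      have c3 := Real.sin_sq_add_cos_sq (θ / 2)
      unfold L
      rw [c2]
      field_simp
      linear_combination (-2 * Real.log (Real.sin (θ / 2))) * c3
    · exact (L_int _ _).continuousOn_mul (by fun_prop)
  rw [hF]
  simp

lemma L_cos_shift (α : ℝ) : ∫ β in (0 : ℝ)..2 * π, Real.cos β * L (β + α)
    = -π * Real.cos α + Real.sin α * ∫ θ in (0 : ℝ)..2 * π, Real.sin θ * L θ := by
  have h1 := intervalIntegral.integral_comp_add_right (a := 0) (b := 2 * π)
    (fun θ => Real.cos (θ - α) * L θ) α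
  simp only [add_sub_cancel_right] at h1
  have hp : Function.Periodic (fun θ => Real.cos (θ - α) * L θ) (2 * π) := by
    intro x
    simp only
    rw [L_per x, show x + 2 * π - α = x - α + 2 * π by ring, Real.cos_add_two_pi]
  have h2 := hp.intervalIntegral_add_eq α 0
  rw [h1, zero_add, add_comm (2 * π), h2, zero_add]
  have h3 : (fun θ => Real.cos (θ - α) * L θ) =
      fun θ => Real.cos α * (Real.cos θ * L θ) + Real.sin α * (Real.sin θ * L θ) := by
    ext θ; rw [Real.cos_sub]; ring
  rw [h3, intervalIntegral.integral_add, intervalIntegral.integral_const_mul,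
    intervalIntegral.integral_const_mul, L_cos]
  · ring
  · exact ((L_int _ _).continuousOn_mul (by fun_prop)).const_mul _
  · exact ((L_int _ _).continuousOn_mul (by fun_prop)).const_mul _

lemma L_abs_shift (α : ℝ) : ∫ β in (0 : ℝ)..2 * π, |L (β + α)| = ∫ β in (0 : ℝ)..2 * π, |L β| := by
  have h1 := intervalIntegral.integral_comp_add_right (a := 0) (b := 2 * π) (fun θ => |L θ|) α
  have hp : Function.Periodic (fun θ => |L θ|) (2 * π) := by
    intro x
    simp only
    rw [L_per x]
  have h2 := hp.intervalIntegral_add_eq α 0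
  rw [h1, zero_add, add_comm (2 * π), h2, zero_add]

lemma ae_cos_ne (c : ℝ) : ∀ᵐ β : ℝ, Real.cos β ≠ c := by
  by_cases h : ∃ α, Real.cos α = c
  · obtain ⟨α, rfl⟩ := h
    have hc : ({β : ℝ | Real.cos β = Real.cos α}).Countable := by
      refine ((countable_range fun k : ℤ => 2 * k * π + α).union
        (countable_range fun k : ℤ => 2 * k * π - α)).mono ?_
      intro β hβ
      obtain ⟨k, hk⟩ := Real.cos_eq_cos_iff.mp (Eq.symm hβ)
      rcases hk with hk | hk
      · exact Or.inl ⟨k, hk.symm⟩
      · exact Or.inr ⟨k, hk.symm⟩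
    exact hc.ae_notMem volume
  · push Not at h
    exact Eventually.of_forall h

lemma ker_cos (α : ℝ) : ∀ᵐ β : ℝ,
    Real.log (Real.cos α - Real.cos β) = Real.log 2 + L (β + α) + L (β + -α) := by
  filter_upwards [ae_cos_ne (Real.cos α)] with β hβ
  have e : Real.cos α - Real.cos β = 2 * Real.sin ((β + α) / 2) * Real.sin ((β + -α) / 2) := by
    rw [Real.cos_sub_cos, show (α - β) / 2 = -((β + -α) / 2) by ring, Real.sin_neg, add_comm α β]
    ring
  have h0 : 2 * Real.sin ((β + α) / 2) * Real.sin ((β + -α) / 2) ≠ 0 := by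
    rw [← e]; exact sub_ne_zero.mpr hβ.symm
  rw [e, Real.log_mul (left_ne_zero_of_mul h0) (right_ne_zero_of_mul h0),
    Real.log_mul two_ne_zero (right_ne_zero_of_mul (left_ne_zero_of_mul h0))]
  rfl

lemma ker_in (α : ℝ) :
    IntervalIntegrable (fun β => Real.log (Real.cos α - Real.cos β)) volume 0 (2 * π) ∧
    ∫ β in (0 : ℝ)..2 * π, |Real.log (Real.cos α - Real.cos β)|
      ≤ 2 * π * Real.log 2 + 2 * ∫ β in (0 : ℝ)..2 * π, |L β| ∧
    ∫ β in (0 : ℝ)..2 * π, Real.cos β * Real.log (Real.cos α - Real.cos β)
      = -(2 * π) * Real.cos α := by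
  have hI : IntervalIntegrable (fun β => Real.log 2 + L (β + α) + L (β + -α)) volume 0 (2 * π) :=
    (intervalIntegrable_const.add (L_shift_int _ _ _)).add (L_shift_int _ _ _)
  have h1 : IntervalIntegrable (fun β => Real.log (Real.cos α - Real.cos β)) volume 0 (2 * π) :=
    hI.congr_ae (ae_restrict_of_ae ((ker_cos α).mono fun β h => h.symm))
  refine ⟨h1, ?_, ?_⟩
  · have : ∫ β in (0 : ℝ)..2 * π, |Real.log (Real.cos α - Real.cos β)|
        ≤ ∫ β in (0 : ℝ)..2 * π, (Real.log 2 + |L (β + α)| + |L (β + -α)|) := by
      apply intervalIntegral.integral_mono_ae (by positivity) h1.abs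
        ((intervalIntegrable_const.add (L_shift_int _ _ _).abs).add (L_shift_int _ _ _).abs)
      filter_upwards [ker_cos α] with β hβ
      rw [hβ]
      have := abs_add_three (Real.log 2) (L (β + α)) (L (β + -α))
      rwa [abs_of_pos (Real.log_pos one_lt_two)] at this
    rw [intervalIntegral.integral_add (intervalIntegrable_const.add (L_shift_int _ _ _).abs)
      (L_shift_int _ _ _).abs, intervalIntegral.integral_add intervalIntegrable_const
      (L_shift_int _ _ _).abs, L_abs_shift, L_abs_shift] at this
    simp only [intervalIntegral.integral_const, smul_eq_mul, sub_zero] at this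
    linarith
  · rw [intervalIntegral.integral_congr_ae (g := fun β => Real.log 2 * Real.cos β
        + Real.cos β * L (β + α) + Real.cos β * L (β + -α))]
    · have i1 : IntervalIntegrable (fun β => Real.log 2 * Real.cos β) volume 0 (2 * π) :=
        Continuous.intervalIntegrable (by fun_prop) _ _
      have i2 : ∀ γ, IntervalIntegrable (fun β => Real.cos β * L (β + γ)) volume 0 (2 * π) :=
        fun γ => (L_shift_int _ _ _).continuousOn_mul (by fun_prop)
      rw [intervalIntegral.integral_add (i1.add (i2 _)) (i2 _),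
        intervalIntegral.integral_add i1 (i2 _), L_cos_shift, L_cos_shift,
        intervalIntegral.integral_const_mul]
      simp
      ring
    · filter_upwards [ker_cos α] with β hβ _
      rw [hβ]; ring

noncomputable def Bd : ℝ := 2 * π * Real.log 2 + 2 * (∫ β in (0 : ℝ)..2 * π, |L β|) + 2 * π * Real.log 4

lemma ker (U : ℝ) (h1 : -3 ≤ U) (h2 : U ≤ 1) :
    IntervalIntegrable (fun β => Real.log (U - Real.cos β)) volume 0 (2 * π) ∧
    ∫ β in (0 : ℝ)..2 * π, |Real.log (U - Real.cos β)| ≤ Bd ∧
    ∫ β in (0 : ℝ)..2 * π, Real.cos β * Real.log (U - Real.cos β) ≤ -(2 * π) * U := by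
  have l4 : 0 < Real.log 4 := Real.log_pos (by norm_num)
  by_cases h : -1 ≤ U
  · have := ker_in (Real.arccos U)
    rw [Real.cos_arccos h h2] at this
    refine ⟨this.1, le_trans this.2.1 ?_, this.2.2.le⟩
    unfold Bd
    have : 0 ≤ 2 * π * Real.log 4 := by positivity
    linarith
  · push Not at h
    obtain ⟨k1, k2, k3⟩ := ker_in π
    rw [Real.cos_pi] at k1 k2 k3
    have hc : Continuous fun β => Real.log (U - Real.cos β) := by
      apply Continuous.log (by fun_prop)
      intro β
      linarith [Real.neg_one_le_cos β]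
    refine ⟨hc.intervalIntegrable _ _, ?_, ?_⟩
    · have : ∫ β in (0 : ℝ)..2 * π, |Real.log (U - Real.cos β)|
          ≤ ∫ β in (0 : ℝ)..2 * π, (|Real.log (-1 - Real.cos β)| + Real.log 4) := by
        apply intervalIntegral.integral_mono_ae (by positivity) (hc.abs.intervalIntegrable _ _)
          (k1.abs.add intervalIntegrable_const)
        filter_upwards [ae_cos_ne (-1)] with β hβ
        have c1 : -1 < Real.cos β := lt_of_le_of_ne (Real.neg_one_le_cos β) hβ.symm
        have c2 := Real.cos_le_one β
        rw [← Real.log_neg_eq_log (U - _), ← Real.log_neg_eq_log (-1 - _)]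
        have d1 : Real.log (-(-1 - Real.cos β)) ≤ Real.log (-(U - Real.cos β)) :=
          Real.log_le_log (by linarith) (by linarith)
        have d2 : Real.log (-(U - Real.cos β)) ≤ Real.log 4 :=
          Real.log_le_log (by linarith) (by linarith)
        rw [abs_le]
        constructor
        · linarith [neg_abs_le (Real.log (-(-1 - Real.cos β)))]
        · linarith [abs_nonneg (Real.log (-(-1 - Real.cos β)))]
      rw [intervalIntegral.integral_add k1.abs intervalIntegrable_const] at this
      simp only [intervalIntegral.integral_const, smul_eq_mul, sub_zero] at this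
      unfold Bd
      linarith
    · have : ∫ β in (0 : ℝ)..2 * π, Real.cos β * Real.log (U - Real.cos β)
          ≤ ∫ β in (0 : ℝ)..2 * π, (Real.cos β * Real.log (-1 - Real.cos β)
            + Real.log (-U) * Real.cos β) := by
        apply intervalIntegral.integral_mono_ae (by positivity)
          (Continuous.intervalIntegrable (by fun_prop) _ _)
          ((k1.continuousOn_mul (by fun_prop)).add (Continuous.intervalIntegrable (by fun_prop) _ _))
        filter_upwards [ae_cos_ne (-1)] with β hβ
        have c1 : -1 < Real.cos β := lt_of_le_of_ne (Real.neg_one_le_cos β) hβ.symm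
        rw [← Real.log_neg_eq_log (U - _), ← Real.log_neg_eq_log (-1 - _)]
        have e : Real.log (-(-1 - Real.cos β)) + Real.log (-U)
            = Real.log ((-(-1 - Real.cos β)) * (-U)) :=
          (Real.log_mul (by linarith) (by linarith)).symm
        have p1 : 0 < -(U - Real.cos β) := by linarith
        have p2 : 0 < (-(-1 - Real.cos β)) * (-U) := mul_pos (by linarith) (by linarith)
        rcases le_total 0 (Real.cos β) with c | c
        · have : Real.log (-(U - Real.cos β)) ≤ Real.log ((-(-1 - Real.cos β)) * (-U)) :=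
            Real.log_le_log p1 (by nlinarith)
          nlinarith
        · have : Real.log ((-(-1 - Real.cos β)) * (-U)) ≤ Real.log (-(U - Real.cos β)) :=
            Real.log_le_log p2 (by nlinarith)
          nlinarith
      rw [intervalIntegral.integral_add (k1.continuousOn_mul (by fun_prop))
        (Continuous.intervalIntegrable (by fun_prop) _ _), k3,
        intervalIntegral.integral_const_mul] at this
      simp only [integral_cos, Real.sin_two_pi, Real.sin_zero, sub_zero, mul_zero, add_zero] at this
      nlinarith [Real.pi_pos]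

theorem mean_le (τ : ℝ → ℝ) (hτ : Continuous τ) (hb : ∀ t, |τ t| ≤ 2)
    (hmono : ∀ x y : ℝ, 0 < x → x ≤ y →
      ∫ t in (0 : ℝ)..2 * π, Real.log (τ t - x) ≤ ∫ t in (0 : ℝ)..2 * π, Real.log (τ t - y)) :
    ∫ t in (0 : ℝ)..2 * π, τ t ≤ 2 * π := by
  have h2π : (0 : ℝ) ≤ 2 * π := by positivity
  set μ : Measure ℝ := volume.restrict (Ioc 0 (2 * π)) with hμ
  have hk := fun t => ker (τ t - 1) (by linarith [(abs_le.mp (hb t)).1])
    (by linarith [(abs_le.mp (hb t)).2])
  set f : ℝ → ℝ → ℝ := fun t β => Real.cos β * Real.log (τ t - 1 - Real.cos β) with hf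
  have hmeas : AEStronglyMeasurable (Function.uncurry f) (μ.prod μ) := by
    apply Measurable.aestronglyMeasurable
    exact (by fun_prop : Continuous fun p : ℝ × ℝ => Real.cos p.2).measurable.mul
      (Real.measurable_log.comp
        (by fun_prop : Continuous fun p : ℝ × ℝ => τ p.1 - 1 - Real.cos p.2).measurable)
  have hI : ∀ t, Integrable (f t) μ := fun t =>
    ((hk t).1.continuousOn_mul (g := fun β => Real.cos β) (by fun_prop)).1
  have hint : Integrable (Function.uncurry f) (μ.prod μ) := by
    rw [integrable_prod_iff hmeas]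
    refine ⟨Eventually.of_forall hI, ?_⟩
    refine Integrable.mono' (integrable_const Bd) hmeas.norm.integral_prod_right' ?_
    refine Eventually.of_forall fun t => ?_
    rw [Real.norm_of_nonneg (integral_nonneg fun _ => norm_nonneg _)]
    refine le_trans ?_ (hk t).2.1
    rw [intervalIntegral.integral_of_le h2π]
    apply integral_mono (hI t).norm (hk t).1.abs.1
    intro β
    simp only [hf, norm_mul, Real.norm_eq_abs]
    exact mul_le_of_le_one_left (abs_nonneg _) (Real.abs_cos_le_one β)
  have hswap := integral_integral_swap hint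
  have hA : ∫ t, ∫ β, f t β ∂μ ∂μ ≤ ∫ t, -(2 * π) * (τ t - 1) ∂μ := by
    apply integral_mono hint.integral_prod_left
      (Continuous.intervalIntegrable (μ := volume) (by fun_prop) 0 (2 * π)).1
    intro t
    have := (hk t).2.2
    rwa [intervalIntegral.integral_of_le h2π] at this
  have hB : ∫ β, Real.cos β * (∫ t in (0 : ℝ)..2 * π, Real.log (τ t - 1)) ∂μ
      ≤ ∫ β, ∫ t, f t β ∂μ ∂μ := by
    apply integral_mono_ae
      (Continuous.intervalIntegrable (μ := volume) (by fun_prop) 0 (2 * π)).1
      hint.integral_prod_right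
    filter_upwards [ae_restrict_of_ae (ae_cos_ne (-1))] with β hβ
    have c1 : -1 < Real.cos β := lt_of_le_of_ne (Real.neg_one_le_cos β) hβ.symm
    simp only [hf, Function.uncurry]
    rw [integral_const_mul, hμ, ← intervalIntegral.integral_of_le h2π]
    simp only [sub_sub]
    rcases le_total 0 (Real.cos β) with c | c
    · exact mul_le_mul_of_nonneg_left (hmono _ _ one_pos (by linarith)) c
    · exact mul_le_mul_of_nonpos_left (hmono _ _ (by linarith) (by linarith)) c
  rw [integral_mul_const, hμ, ← intervalIntegral.integral_of_le h2π] at hB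
  simp only [integral_cos, Real.sin_two_pi, Real.sin_zero, sub_zero, zero_mul] at hB
  rw [hμ, ← intervalIntegral.integral_of_le h2π (f := fun t => -(2 * π) * (τ t - 1)),
    intervalIntegral.integral_const_mul, intervalIntegral.integral_sub
      (hτ.intervalIntegrable _ _) intervalIntegrable_const] at hA
  simp only [intervalIntegral.integral_const, smul_eq_mul, sub_zero, mul_one] at hA
  rw [hμ] at hswap
  nlinarith [Real.pi_pos]

end Pool.Agent.Lib.H29.SelfInv
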