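import Pool.Agent.Lib.helper29.SelfInv2

set_option autoImplicit false
open Polynomial Complex Set Filter Topology Real MeasureTheory
open scoped ComplexConjugate

namespace Pool.Agent.Lib.H29.SelfInv

lemma mean_value {f : ℂ → ℂ} {r : ℝ} (hr : 0 < r) (hf : DiffContOnCl ℂ f (Metric.ball 0 r)) :
    ∫ θ in (0 : ℝ)..2 * π, f (circleMap 0 r θ) = 2 * π * f 0 := by
  have h := DiffContOnCl.circleAverage (f := f) (c := 0) (R := r) (by rwa [abs_of_pos hr])
  rw [circleAverage_def] at h
  rw [← h, Complex.real_smul]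
  have : (π : ℂ) ≠ 0 := by exact_mod_cast Real.pi_ne_zero
  push_cast
  field_simp

lemma conj_mul_circle (r θ : ℝ) : conj (circleMap 0 r θ) * circleMap 0 r θ = (r : ℂ) ^ 2 := by
  rw [mul_comm, mul_conj, Complex.normSq_eq_norm_sq, norm_circleMap_zero, sq_abs]
  push_cast; ring

lemma mean_pow {r : ℝ} (hr : 0 < r) (d : ℕ) :
    ∫ θ in (0 : ℝ)..2 * π, circleMap 0 r θ ^ d = if d = 0 then 2 * π else 0 := by
  rw [mean_value (f := fun z => z ^ d) hr (Differentiable.diffContOnCl (by fun_prop))]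
  split_ifs with h
  · simp [h]
  · simp [h]

lemma mean_mono {r : ℝ} (hr : 0 < r) (j i : ℕ) :
    ∫ θ in (0 : ℝ)..2 * π, conj (circleMap 0 r θ) ^ j * circleMap 0 r θ ^ i
      = if i = j then 2 * π * (r : ℂ) ^ (2 * j) else 0 := by
  rcases le_total j i with h | h
  · obtain ⟨d, rfl⟩ := Nat.exists_eq_add_of_le h
    have : ∀ θ, conj (circleMap 0 r θ) ^ j * circleMap 0 r θ ^ (j + d)
        = (r : ℂ) ^ (2 * j) * circleMap 0 r θ ^ d := by
      intro θ; rw [pow_mul, ← conj_mul_circle r θ]; ring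
    simp only [this]
    rw [intervalIntegral.integral_const_mul, mean_pow hr]
    by_cases hd : d = 0
    · simp [hd, mul_comm]
    · simp [hd]
  · obtain ⟨d, rfl⟩ := Nat.exists_eq_add_of_le h
    have : ∀ θ, conj (circleMap 0 r θ) ^ (i + d) * circleMap 0 r θ ^ i
        = (r : ℂ) ^ (2 * i) * conj (circleMap 0 r θ ^ d) := by
      intro θ; rw [pow_mul, ← conj_mul_circle r θ, map_pow]; ring
    simp only [this]
    rw [intervalIntegral.integral_const_mul, intervalIntegral.integral_of_le (by positivity),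
      integral_conj, ← intervalIntegral.integral_of_le (by positivity), mean_pow hr]
    by_cases hd : d = 0
    · simp [hd, map_ofNat, mul_comm]
    · simp [hd]

lemma mean_coeff {r : ℝ} (hr : 0 < r) (j : ℕ) (y : ℂ[X]) :
    ∫ θ in (0 : ℝ)..2 * π, conj (circleMap 0 r θ) ^ j * y.eval (circleMap 0 r θ)
      = 2 * π * (r : ℂ) ^ (2 * j) * y.coeff j := by
  induction y using Polynomial.induction_on' with
  | add p q hp hq =>
    simp only [eval_add, mul_add, coeff_add]
    rw [intervalIntegral.integral_add, hp, hq]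
    · exact Continuous.intervalIntegrable (by fun_prop) _ _
    · exact Continuous.intervalIntegrable (by fun_prop) _ _
  | monomial i a =>
    simp only [eval_monomial, coeff_monomial]
    have : ∀ θ, conj (circleMap 0 r θ) ^ j * (a * circleMap 0 r θ ^ i)
        = a * (conj (circleMap 0 r θ) ^ j * circleMap 0 r θ ^ i) := fun θ => by ring
    simp only [this]
    rw [intervalIntegral.integral_const_mul, mean_mono hr]
    split_ifs <;> ring

lemma mean_tail {r : ℝ} (hr : 0 < r) {j k : ℕ} (hj : j ≤ k) {ψ : ℂ → ℂ}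
    (hψ : DiffContOnCl ℂ ψ (Metric.ball 0 r)) :
    ∫ θ in (0 : ℝ)..2 * π, conj (circleMap 0 r θ) ^ j *
      (circleMap 0 r θ ^ (k + 1) * ψ (circleMap 0 r θ)) = 0 := by
  obtain ⟨d, rfl⟩ := Nat.exists_eq_add_of_le hj
  have : ∀ θ, conj (circleMap 0 r θ) ^ j * (circleMap 0 r θ ^ (j + d + 1) * ψ (circleMap 0 r θ))
      = (r : ℂ) ^ (2 * j) * (circleMap 0 r θ ^ (d + 1) * ψ (circleMap 0 r θ)) := by
    intro θ; rw [pow_mul, ← conj_mul_circle r θ]; ring
  simp only [this]
  rw [intervalIntegral.integral_const_mul, mean_value (f := fun z => z ^ (d + 1) * ψ z) hr]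
  · simp
  · exact ⟨(differentiableOn_id.pow _).mul hψ.1, (continuousOn_id.pow _).mul hψ.2⟩

/-- Toeplitz positivity for the quotient `N / D` with nonnegative real part in the disc -/
theorem toeplitz (N D v y W : ℂ[X]) (k : ℕ) (hv : v.natDegree ≤ k)
    (hW : N * v - D * y = X ^ (k + 1) * W) (hD : ∀ z : ℂ, ‖z‖ < 1 → D.eval z ≠ 0)
    (hpos : ∀ z : ℂ, ‖z‖ < 1 → 0 ≤ (N.eval z / D.eval z).re) :
    0 ≤ (∑ j ∈ Finset.range (k + 1), conj (v.coeff j) * y.coeff j).re := by
  have hr : ∀ r : ℝ, 0 < r → r < 1 →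
      0 ≤ (∑ j ∈ Finset.range (k + 1), (r : ℂ) ^ (2 * j) * (conj (v.coeff j) * y.coeff j)).re := by
    intro r h0 h1
    have hz : ∀ θ, ‖circleMap 0 r θ‖ < 1 := fun θ => by
      rw [norm_circleMap_zero, abs_of_pos h0]; exact h1
    have hψ : DiffContOnCl ℂ (fun z => W.eval z / D.eval z) (Metric.ball 0 r) := by
      apply DifferentiableOn.diffContOnCl
      apply DifferentiableOn.div W.differentiable.differentiableOn D.differentiable.differentiableOn
      intro z hz
      rw [closure_ball _ h0.ne', mem_closedBall_zero_iff] at hz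
      exact hD z (lt_of_le_of_lt hz h1)
    have hc : Continuous fun θ => W.eval (circleMap 0 r θ) / D.eval (circleMap 0 r θ) :=
      Continuous.div (by fun_prop) (by fun_prop) fun θ => hD _ (hz θ)
    have e : ∀ θ, conj (v.eval (circleMap 0 r θ)) * (N.eval (circleMap 0 r θ) / D.eval (circleMap 0 r θ)
        * v.eval (circleMap 0 r θ)) = ∑ j ∈ Finset.range (k + 1), conj (v.coeff j) *
          (conj (circleMap 0 r θ) ^ j * y.eval (circleMap 0 r θ) + conj (circleMap 0 r θ) ^ j *
            (circleMap 0 r θ ^ (k + 1) * (W.eval (circleMap 0 r θ) / D.eval (circleMap 0 r θ)))) := by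
      intro θ
      have e1 := congrArg (eval (circleMap 0 r θ)) hW
      simp only [eval_sub, eval_mul, eval_pow, eval_X] at e1
      have e2 : N.eval (circleMap 0 r θ) / D.eval (circleMap 0 r θ) * v.eval (circleMap 0 r θ)
          = y.eval (circleMap 0 r θ) + circleMap 0 r θ ^ (k + 1) *
            (W.eval (circleMap 0 r θ) / D.eval (circleMap 0 r θ)) := by
        have := hD _ (hz θ)
        field_simp
        linear_combination e1
      rw [e2]
      conv_lhs => rw [eval_eq_sum_range' (Nat.lt_succ_of_le hv)]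
      rw [map_sum, Finset.sum_mul]
      apply Finset.sum_congr rfl
      intro j _
      rw [map_mul, map_pow]; ring
    have i1 : ∫ θ in (0 : ℝ)..2 * π, conj (v.eval (circleMap 0 r θ)) *
        (N.eval (circleMap 0 r θ) / D.eval (circleMap 0 r θ) * v.eval (circleMap 0 r θ))
        = 2 * π * ∑ j ∈ Finset.range (k + 1), (r : ℂ) ^ (2 * j) * (conj (v.coeff j) * y.coeff j) := by
      simp only [e]
      rw [intervalIntegral.integral_finsetSum, Finset.mul_sum]
      · apply Finset.sum_congr rfl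
        intro j hj
        rw [intervalIntegral.integral_const_mul, intervalIntegral.integral_add, mean_coeff h0,
          mean_tail h0 (Nat.lt_succ_iff.mp (Finset.mem_range.mp hj)) hψ]
        · ring
        · exact Continuous.intervalIntegrable (by fun_prop) _ _
        · exact Continuous.intervalIntegrable (by fun_prop) _ _
      · intro j _
        exact Continuous.intervalIntegrable (by fun_prop) _ _
    have hcN : Continuous fun θ => N.eval (circleMap 0 r θ) / D.eval (circleMap 0 r θ) :=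
      Continuous.div (by fun_prop) (by fun_prop) fun θ => hD _ (hz θ)
    have i2 : 0 ≤ (∫ θ in (0 : ℝ)..2 * π, conj (v.eval (circleMap 0 r θ)) *
        (N.eval (circleMap 0 r θ) / D.eval (circleMap 0 r θ) * v.eval (circleMap 0 r θ))).re := by
      rw [← Complex.reCLM_apply, ← ContinuousLinearMap.intervalIntegral_comp_comm _
        (Continuous.intervalIntegrable (by fun_prop) _ _)]
      apply intervalIntegral.integral_nonneg (by positivity)
      intro θ _
      rw [Complex.reCLM_apply, mul_left_comm, mul_comm (conj _), mul_conj, re_mul_ofReal]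
      exact mul_nonneg (hpos _ (hz θ)) (normSq_nonneg _)
    rw [i1, show (2 * (π : ℂ)) = ((2 * π : ℝ) : ℂ) by push_cast; ring, re_ofReal_mul] at i2
    exact nonneg_of_mul_nonneg_right i2 (by positivity) |> fun h => h
  have hc : Continuous fun r : ℝ =>
      (∑ j ∈ Finset.range (k + 1), (r : ℂ) ^ (2 * j) * (conj (v.coeff j) * y.coeff j)).re := by
    fun_prop
  have ht := (hc.tendsto 1).mono_left (nhdsWithin_le_nhds (s := Iio 1))
  simp only [ofReal_one, one_pow, one_mul] at ht
  apply ge_of_tendsto ht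
  filter_upwards [Ioo_mem_nhdsLT (show (0 : ℝ) < 1 by norm_num)] with r hr'
  exact hr r hr'.1 hr'.2

/-- polynomials with all zeros on the unit circle are conjugate self-inversive on the circle -/
lemma circle_sym (Q : ℂ[X]) (hr : ∀ a ∈ Q.roots, ‖a‖ = 1) (hQ : Q ≠ 0) :
    ∃ u : ℂ, ‖u‖ = 1 ∧ ∀ z : ℂ, ‖z‖ = 1 → conj (Q.eval z) * z ^ Q.natDegree = u * Q.eval z := by
  have hl : Q.leadingCoeff ≠ 0 := leadingCoeff_ne_zero.mpr hQ
  have key : ∀ s : Multiset ℂ, (∀ a ∈ s, ‖a‖ = 1) → ∃ u : ℂ, ‖u‖ = 1 ∧ ∀ z : ℂ, ‖z‖ = 1 →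
      conj (s.map (z - ·)).prod * z ^ s.card = u * (s.map (z - ·)).prod := by
    intro s
    induction s using Multiset.induction_on with
    | empty => intro _; exact ⟨1, by simp, by simp⟩
    | cons a s ih =>
      intro h
      obtain ⟨u, hu1, hu2⟩ := ih (fun b hb => h b (Multiset.mem_cons_of_mem hb))
      have ha := h a (Multiset.mem_cons_self a s)
      refine ⟨-conj a * u, by simp [ha, hu1], fun z hz => ?_⟩
      have e1 : conj z * z = 1 := by rw [mul_comm, mul_conj, Complex.normSq_eq_norm_sq, hz]; simp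
      have e2 : conj a * a = 1 := by rw [mul_comm, mul_conj, Complex.normSq_eq_norm_sq, ha]; simp
      simp only [Multiset.map_cons, Multiset.prod_cons, Multiset.card_cons, map_mul, map_sub]
      have := hu2 z hz
      linear_combination (conj z - conj a) * z * this + u * (s.map (z - ·)).prod * (e1 - e2)
  obtain ⟨u, hu1, hu2⟩ := key Q.roots hr
  refine ⟨conj Q.leadingCoeff / Q.leadingCoeff * u, by simp [hu1, hl], fun z hz => ?_⟩
  rw [(IsAlgClosed.splits Q).eval_eq_prod_roots, (IsAlgClosed.splits Q).natDegree_eq_card_roots,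
    map_mul, mul_assoc, hu2 z hz]
  field_simp

lemma circle_coeff (Q : ℂ[X]) (hr : ∀ a ∈ Q.roots, ‖a‖ = 1) (hQ : Q ≠ 0) {k : ℕ}
    (hk : k ≤ Q.natDegree) : ‖Q.coeff (Q.natDegree - k)‖ = ‖Q.coeff k‖ := by
  obtain ⟨u, hu1, hu2⟩ := circle_sym Q hr hQ
  have h1 := mean_coeff one_pos k Q
  have h2 := mean_coeff one_pos (Q.natDegree - k) Q
  have h3 : ∀ θ, conj (circleMap 0 1 θ) ^ (Q.natDegree - k) * Q.eval (circleMap 0 1 θ)
      = conj (u * (conj (circleMap 0 1 θ) ^ k * Q.eval (circleMap 0 1 θ))) := by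
    intro θ
    have hz : ‖circleMap 0 1 θ‖ = 1 := by simp
    have e1 := conj_mul_circle 1 θ
    rw [mul_left_comm, ← hu2 _ hz]
    obtain ⟨d, hd⟩ := Nat.exists_eq_add_of_le hk
    rw [hd, Nat.add_sub_cancel_left]
    simp only [map_mul, map_pow, conj_conj]
    have e2 : (conj (circleMap 0 1 θ) * circleMap 0 1 θ) ^ k = 1 := by rw [e1]; simp
    rw [mul_pow] at e2
    linear_combination (-(conj (circleMap 0 1 θ) ^ d * Q.eval (circleMap 0 1 θ))) * e2
  simp only [h3] at h2
  rw [intervalIntegral.integral_of_le (by positivity), integral_conj,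
    ← intervalIntegral.integral_of_le (by positivity), intervalIntegral.integral_const_mul, h1] at h2
  have h4 := congrArg norm h2
  simp only [RCLike.norm_conj, norm_mul, hu1, one_mul] at h4
  have : ‖(2 : ℂ)‖ * ‖(π : ℂ)‖ * ‖((1 : ℝ) : ℂ) ^ (2 * k)‖
      = ‖(2 : ℂ)‖ * ‖(π : ℂ)‖ * ‖((1 : ℝ) : ℂ) ^ (2 * (Q.natDegree - k))‖ := by simp
  rw [this] at h4
  refine (mul_left_cancel₀ ?_ h4).symm
  simp [Real.pi_ne_zero]

lemma middle_real (S : ℂ[X]) (m : ℕ) (hm : 1 ≤ m) (hd : S.natDegree = 2 * m)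
    (hr : ∀ a ∈ S.roots, ‖a‖ = 1)
    (hreal : ∀ z : ℂ, ‖z‖ = 1 → conj (S.eval z) * z ^ (2 * m) = S.eval z)
    (hb : ∀ z : ℂ, ‖z‖ = 1 → ‖S.eval z‖ ≤ 2) : (S.coeff m).re ≤ 1 ∧ (S.coeff m).im = 0 := by
  set τ : ℝ → ℝ := fun θ => (conj (circleMap 0 1 θ) ^ m * S.eval (circleMap 0 1 θ)).re with hτ
  have hz : ∀ θ, ‖circleMap 0 1 θ‖ = 1 := fun θ => by simp
  have e2 : ∀ θ, conj (circleMap 0 1 θ) ^ m * circleMap 0 1 θ ^ m = 1 := fun θ => by
    rw [← mul_pow, conj_mul_circle]; simp
  have hτ1 : ∀ θ, conj (circleMap 0 1 θ) ^ m * S.eval (circleMap 0 1 θ) = τ θ := by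
    intro θ
    symm
    apply conj_eq_iff_re.mp
    simp only [map_mul, map_pow, conj_conj]
    have := hreal _ (hz θ)
    have e3 := e2 θ
    linear_combination (conj (circleMap 0 1 θ) ^ m) * this
      - (circleMap 0 1 θ ^ m * conj (S.eval (circleMap 0 1 θ))) * e3
  have hc : Continuous τ := by rw [hτ]; fun_prop
  have hmean := mean_coeff one_pos m S
  simp only [hτ1] at hmean
  rw [intervalIntegral.integral_ofReal] at hmean
  have hN : ∀ x : ℝ, ∫ t in (0 : ℝ)..2 * π, Real.log (τ t - x)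
      = 2 * π * (S - C (x : ℂ) * X ^ m).logMahlerMeasure := by
    intro x
    rw [logMahlerMeasure_def, circleAverage_def, smul_eq_mul, ← mul_assoc,
      mul_inv_cancel₀ (by positivity), one_mul]
    congr 1
    ext θ
    have : (S - C (x : ℂ) * X ^ m).eval (circleMap 0 1 θ)
        = circleMap 0 1 θ ^ m * ((τ θ - x : ℝ) : ℂ) := by
      simp only [eval_sub, eval_mul, eval_C, eval_pow, eval_X]
      push_cast
      rw [← hτ1]
      linear_combination (-S.eval (circleMap 0 1 θ)) * e2 θ
    rw [this, norm_mul, norm_pow, hz, one_pow, one_mul, Complex.norm_real, Real.norm_eq_abs,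
      Real.log_abs]
  have := mean_le τ hc (fun t => by
      have h1 := congrArg norm (hτ1 t)
      rw [norm_mul, norm_pow, RCLike.norm_conj, hz, one_pow, one_mul, Complex.norm_real] at h1
      rw [← Real.norm_eq_abs, ← h1]
      exact hb _ (hz t))
    (fun x y hx hxy => by
      rw [hN, hN]
      exact mul_le_mul_of_nonneg_left (logMahler_mono S m hm hd hr hx hxy) (by positivity))
  have h5 := congrArg Complex.re hmean
  have h6 := congrArg Complex.im hmean
  rw [show 2 * (π : ℂ) * ((1 : ℝ) : ℂ) ^ (2 * m) = ((2 * π : ℝ) : ℂ) by simp] at h5 h6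
  rw [re_ofReal_mul, ofReal_re] at h5
  rw [im_ofReal_mul, ofReal_im] at h6
  constructor
  · nlinarith [Real.pi_pos]
  · rcases mul_eq_zero.mp h6.symm with h | h
    · exact absurd h (by positivity)
    · exact h

theorem middle (S : ℂ[X]) (m : ℕ) (hm : 1 ≤ m) (hd : S.natDegree = 2 * m)
    (hr : ∀ a ∈ S.roots, ‖a‖ = 1) {M : ℝ} (hM : 0 < M)
    (hb : ∀ z : ℂ, ‖z‖ = 1 → ‖S.eval z‖ ≤ M) : ‖S.coeff m‖ ≤ M / 2 := by
  have hS : S ≠ 0 := by rintro rfl; simp at hd; omega
  obtain ⟨u, hu1, hu2⟩ := circle_sym S hr hS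
  obtain ⟨l, hl⟩ := IsAlgClosed.exists_eq_mul_self u
  have hl1 : ‖l‖ = 1 := by
    have := congrArg norm hl
    rw [hu1, norm_mul] at this
    nlinarith [norm_nonneg l]
  have hll : conj l * l = 1 := by rw [mul_comm, mul_conj, Complex.normSq_eq_norm_sq, hl1]; simp
  have main : ∀ s : ℝ, |s| = 1 → ((s * (2 / M) : ℝ) * l * S.coeff m).re ≤ 1 ∧
      ((s * (2 / M) : ℝ) * l * S.coeff m).im = 0 := by
    intro s hs
    have hc : ((s * (2 / M) : ℝ) : ℂ) * l ≠ 0 := by
      have : s ≠ 0 := by rintro rfl; simp at hs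
      have h2 : l ≠ 0 := by rintro rfl; simp at hl1
      have h3 : ((s * (2 / M) : ℝ) : ℂ) ≠ 0 := by
        rw [ofReal_ne_zero]; positivity
      exact mul_ne_zero h3 h2
    have := middle_real (C (((s * (2 / M) : ℝ) : ℂ) * l) * S) m hm
      (by rw [natDegree_C_mul hc, hd]) (by rw [roots_C_mul _ hc]; exact hr)
      (fun z hz => by
        have := hu2 z hz
        rw [hd, hl] at this
        simp only [eval_mul, eval_C, map_mul, conj_ofReal]
        linear_combination ((s * (2 / M) : ℝ) : ℂ) * conj l * this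
          + ((s * (2 / M) : ℝ) : ℂ) * l * S.eval z * hll)
      (fun z hz => by
        simp only [eval_mul, eval_C, norm_mul, hl1, Complex.norm_real, Real.norm_eq_abs, hs,
          one_mul, mul_one]
        rw [abs_of_pos (by positivity), div_mul_eq_mul_div, div_le_iff₀ hM]
        linarith [hb z hz])
    rwa [coeff_C_mul] at this
  obtain ⟨a1, a2⟩ := main 1 (by simp)
  obtain ⟨a3, -⟩ := main (-1) (by simp)
  rw [mul_assoc, re_ofReal_mul] at a1 a3
  rw [mul_assoc, im_ofReal_mul] at a2
  have b2 : (l * S.coeff m).im = 0 := by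
    rcases mul_eq_zero.mp a2 with h | h
    · exact absurd h (by positivity)
    · exact h
  have : ‖S.coeff m‖ = |(l * S.coeff m).re| := by
    rw [Complex.abs_re_eq_norm.mpr b2, norm_mul, hl1, one_mul]
  rw [this, abs_le]
  have p : 2 / M * M = 2 := by field_simp
  constructor <;> nlinarith [div_pos two_pos hM]

end Pool.Agent.Lib.H29.SelfInv
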