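import Pool.Agent.Lib.helper29.SelfInv3

set_option autoImplicit false
open Polynomial Complex Set Filter Topology Real MeasureTheory
open scoped ComplexConjugate

namespace Pool.Agent.Lib.H29.SelfInv

lemma coeff_le_low (Q : ℂ[X]) (hr : ∀ a ∈ Q.roots, ‖a‖ = 1) {k : ℕ} (hk0 : 0 < k)
    (hk : 2 * k ≤ Q.natDegree) {M : ℝ} (hM : 0 < M) (hb : ∀ z : ℂ, ‖z‖ = 1 → ‖Q.eval z‖ ≤ M) :
    ‖Q.coeff k‖ ≤ M / 2 := by
  have hQ : Q ≠ 0 := by rintro rfl; simp at hk; omega
  rcases hk.eq_or_lt with h | h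
  · exact middle Q k hk0 h.symm hr hM hb
  by_cases h0 : Q.coeff k = 0
  · rw [h0, norm_zero]; positivity
  have hs := circle_coeff Q hr hQ (k := k) (by omega)
  obtain ⟨d, hd⟩ : ∃ d, Q.natDegree = 2 * k + (d + 1) := ⟨Q.natDegree - 2 * k - 1, by omega⟩
  set u := Q.coeff (Q.natDegree - k) / Q.coeff k with hu
  have hu1 : ‖u‖ = 1 := by rw [hu, norm_div, hs, div_self (norm_ne_zero_iff.mpr h0)]
  have hu0 : u ≠ 0 := by rintro e; simp [e] at hu1
  have hdeg : (C u * X ^ (d + 1) + 1 : ℂ[X]).natDegree = d + 1 := by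
    rw [← C_1, natDegree_add_C, natDegree_C_mul_X_pow _ _ hu0]
  have hne : (C u * X ^ (d + 1) + 1 : ℂ[X]) ≠ 0 := by
    intro e; rw [e] at hdeg; simp at hdeg
  have := middle (Q * (C u * X ^ (d + 1) + 1)) (k + d + 1) (by omega)
    (by rw [natDegree_mul hQ hne, hdeg, hd]; ring)
    (by
      intro a ha
      rw [roots_mul (mul_ne_zero hQ hne), Multiset.mem_add] at ha
      rcases ha with ha | ha
      · exact hr a ha
      · have h1 := (mem_roots hne).mp ha
        simp only [IsRoot, eval_add, eval_mul, eval_C, eval_pow, eval_X, eval_one] at h1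
        have h2 := congrArg norm (eq_neg_of_add_eq_zero_left h1)
        rw [norm_mul, hu1, one_mul, norm_pow, norm_neg, norm_one] at h2
        exact (pow_eq_one_iff_of_nonneg (norm_nonneg _) (by omega)).mp h2)
    (M := 2 * M) (by positivity)
    (by
      intro z hz
      rw [eval_mul, norm_mul]
      have h1 : ‖(C u * X ^ (d + 1) + 1 : ℂ[X]).eval z‖ ≤ 2 := by
        simp only [eval_add, eval_mul, eval_C, eval_pow, eval_X, eval_one]
        refine le_trans (norm_add_le _ _) ?_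
        rw [norm_mul, hu1, norm_pow, hz]; norm_num
      nlinarith [hb z hz, norm_nonneg (Q.eval z), norm_nonneg ((C u * X ^ (d + 1) + 1 : ℂ[X]).eval z)])
  have e : (Q * (C u * X ^ (d + 1) + 1)).coeff (k + d + 1) = 2 * Q.coeff (Q.natDegree - k) := by
    rw [mul_add, mul_one, coeff_add, mul_left_comm, coeff_C_mul, add_assoc, coeff_mul_X_pow,
      hu, div_mul_cancel₀ _ h0, show k + (d + 1) = Q.natDegree - k by omega]
    ring
  rw [e, norm_mul, hs] at this
  simp at this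
  linarith

lemma coeff_le (Q : ℂ[X]) (hr : ∀ a ∈ Q.roots, ‖a‖ = 1) {k : ℕ} (hk0 : 0 < k)
    (hk : k < Q.natDegree) {M : ℝ} (hM : 0 < M) (hb : ∀ z : ℂ, ‖z‖ = 1 → ‖Q.eval z‖ ≤ M) :
    ‖Q.coeff k‖ ≤ M / 2 := by
  have hQ : Q ≠ 0 := by rintro rfl; simp at hk
  rcases le_total (2 * k) Q.natDegree with h | h
  · exact coeff_le_low Q hr hk0 h hM hb
  · rw [← circle_coeff Q hr hQ hk.le]
    exact coeff_le_low Q hr (by omega) (by omega) hM hb

lemma roots_of_omit (P : ℂ[X]) {w : ℂ}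
    (h : ∀ z : ℂ, ‖z‖ < 1 → P.eval z ≠ w) : ∀ a ∈ (P - C w).roots, 1 ≤ ‖a‖ := by
  intro a ha
  by_contra hlt
  have := isRoot_of_mem_roots ha
  simp only [IsRoot, eval_sub, eval_C, sub_eq_zero] at this
  exact h a (not_le.mp hlt) this

/-- the disc of de Bruijn -/
lemma deBruijn (P : ℂ[X]) (hn : 1 ≤ P.natDegree) {z : ℂ} (hz : ‖z‖ = 1) {w : ℂ}
    (h : ∀ y : ℂ, ‖y‖ < 1 → P.eval y ≠ w) :
    ‖P.derivative.eval z‖ / P.natDegree
      ≤ ‖w - (P.eval z - z * P.derivative.eval z / P.natDegree)‖ := by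
  have hn' : (0 : ℝ) < P.natDegree := by exact_mod_cast hn
  set b := z * P.derivative.eval z / P.natDegree with hb
  have hb1 : ‖b‖ = ‖P.derivative.eval z‖ / P.natDegree := by
    rw [hb, norm_div, norm_mul, hz, one_mul]; simp
  rw [← hb1]
  by_cases h0 : P.eval z = w
  · rw [h0]; simp
  have h1 : (P - C w).eval z ≠ 0 := by simpa [sub_eq_zero] using h0
  have h2 := logderiv_le (P - C w) h1 (fun a ha => by rw [hz]; exact roots_of_omit P h a ha)
  rw [natDegree_sub_C] at h2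
  simp only [derivative_sub, derivative_C, sub_zero, eval_sub, eval_C] at h1 h2
  set q := P.eval z - w with hq
  have e1 : w - (P.eval z - b) = b - q := by rw [hq]; ring
  have e2 : z * (P.derivative.eval z / q) = (P.natDegree : ℝ) * (b / q) := by
    rw [hb]
    have : (P.natDegree : ℂ) ≠ 0 := by exact_mod_cast hn'.ne'
    push_cast
    field_simp
  rw [e2, re_ofReal_mul] at h2
  have h3 : (b / q).re ≤ 1 / 2 := by
    by_contra hc
    push Not at hc
    nlinarith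
  have e3 : b - q = q * (b / q - 1) := by field_simp
  have e4 : b = q * (b / q) := by field_simp
  rw [e1, e3]
  conv_lhs => rw [e4]
  rw [norm_mul, norm_mul]
  apply mul_le_mul_of_nonneg_left _ (norm_nonneg _)
  apply le_of_sq_le_sq _ (norm_nonneg _)
  rw [Complex.sq_norm, Complex.sq_norm, normSq_apply, normSq_apply]
  simp only [sub_re, one_re, sub_im, one_im]
  nlinarith

theorem core (Q : ℂ[X]) (hr : ∀ a ∈ Q.roots, ‖a‖ = 1) {k : ℕ} (hk0 : 0 < k)
    (hk : k < Q.natDegree) :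
    ∃ c : ℂ, ∀ w : ℂ, (∀ y : ℂ, ‖y‖ < 1 → Q.eval y ≠ w) → ‖Q.coeff k‖ ≤ ‖w - c‖ := by
  have hQ : Q ≠ 0 := by rintro rfl; simp at hk
  obtain ⟨z, hz, hmax⟩ := (isCompact_sphere (0 : ℂ) 1).exists_isMaxOn
    ⟨1, by simp⟩ (f := fun z => ‖Q.eval z‖) (by fun_prop)
  have hz1 : ‖z‖ = 1 := by simpa using hz
  have hb : ∀ y : ℂ, ‖y‖ = 1 → ‖Q.eval y‖ ≤ ‖Q.eval z‖ := fun y hy => hmax (by simpa using hy)
  by_cases h0 : Q.eval z = 0
  · have h1 := mean_coeff one_pos Q.natDegree Q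
    have h2 : ∀ θ, Q.eval (circleMap 0 1 θ) = 0 := fun θ => by
      have := hb (circleMap 0 1 θ) (by simp)
      rw [h0, norm_zero] at this
      exact norm_le_zero_iff.mp this
    simp [h2, Real.pi_ne_zero, hQ] at h1
  refine ⟨_, fun w hw => le_trans ?_ (deBruijn Q (by omega) hz1 hw)⟩
  have hM : 0 < ‖Q.eval z‖ := norm_pos_iff.mpr h0
  refine le_trans (coeff_le Q hr hk0 hk hM hb) ?_
  have h1 := logderiv_ge Q h0 (fun a ha => by rw [hr a ha, hz1])
  have h2 := le_trans h1 (Complex.re_le_norm _)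
  rw [norm_mul, hz1, one_mul, norm_div, le_div_iff₀ hM] at h2
  have hn' : (0 : ℝ) < Q.natDegree := by exact_mod_cast (show 0 < Q.natDegree by omega)
  rw [le_div_iff₀ hn']
  linarith

lemma factor_sq (z a : ℂ) : ‖z - a‖ ^ 2 - ‖1 - conj a * z‖ ^ 2 = (‖a‖ ^ 2 - 1) * (1 - ‖z‖ ^ 2) := by
  simp only [Complex.sq_norm, normSq_apply]
  simp
  ring

lemma prod_le {z : ℂ} (hz : ‖z‖ < 1) (s : Multiset ℂ) (h : ∀ a ∈ s, 1 ≤ ‖a‖) :
    ‖(s.map fun a => 1 - conj a * z).prod‖ ≤ ‖(s.map (z - ·)).prod‖ ∧ 0 < ‖(s.map (z - ·)).prod‖ := by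
  induction s using Multiset.induction_on with
  | empty => simp
  | cons a s ih =>
    obtain ⟨i1, i2⟩ := ih (fun b hb => h b (Multiset.mem_cons_of_mem hb))
    have ha := h a (Multiset.mem_cons_self a s)
    simp only [Multiset.map_cons, Multiset.prod_cons, norm_mul]
    have h1 : ‖1 - conj a * z‖ ≤ ‖z - a‖ := by
      apply le_of_sq_le_sq _ (norm_nonneg _)
      have := factor_sq z a
      have p1 : 0 ≤ ‖a‖ ^ 2 - 1 := by nlinarith
      have p2 : 0 ≤ 1 - ‖z‖ ^ 2 := by nlinarith [norm_nonneg z]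
      nlinarith [mul_nonneg p1 p2]
    refine ⟨mul_le_mul h1 i1 (norm_nonneg _) (norm_nonneg _), mul_pos ?_ i2⟩
    rw [norm_pos_iff, sub_ne_zero]
    rintro rfl
    linarith

lemma sharp_lt (Q R : ℂ[X]) (hQ : Q ≠ 0) (hr : ∀ a ∈ Q.roots, 1 ≤ ‖a‖) (hex : ∃ a ∈ Q.roots, 1 < ‖a‖)
    {e : ℂ} (he : ‖e‖ = 1)
    (hR : ∀ z : ℂ, z ≠ 0 → R.eval z = e * z ^ Q.natDegree * conj (Q.eval (conj z)⁻¹))
    {z : ℂ} (hz : ‖z‖ < 1) : ‖R.eval z‖ < ‖Q.eval z‖ := by
  have hl : Q.leadingCoeff ≠ 0 := leadingCoeff_ne_zero.mpr hQ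
  have h1 : (fun z => R.eval z)
      = fun z => e * conj Q.leadingCoeff * (Q.roots.map fun a => 1 - conj a * z).prod := by
    apply Continuous.ext_on (dense_compl_singleton (0 : ℂ)) R.continuous
      (continuous_const.mul (continuous_multiset_prod _ fun a _ => by fun_prop))
    intro y hy
    have hy0 : y ≠ 0 := hy
    simp only [Pi.mul_apply]
    rw [hR y hy0, (IsAlgClosed.splits Q).eval_eq_prod_roots,
      (IsAlgClosed.splits Q).natDegree_eq_card_roots]
    generalize Q.roots = s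
    induction s using Multiset.induction_on with
    | empty => simp
    | cons a s ih =>
      simp only [Multiset.map_cons, Multiset.prod_cons, Multiset.card_cons, map_mul, map_sub,
        map_inv₀, conj_conj] at ih ⊢
      have e1 : y * y⁻¹ = 1 := mul_inv_cancel₀ hy0
      linear_combination (1 - conj a * y) * ih + e * y ^ s.card * conj Q.leadingCoeff *
        conj (s.map fun x => (conj y)⁻¹ - x).prod * e1
  rw [congrFun h1 z, (IsAlgClosed.splits Q).eval_eq_prod_roots]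
  obtain ⟨a, ha, ha1⟩ := hex
  obtain ⟨s, hs⟩ := Multiset.exists_cons_of_mem ha
  rw [hs] at hr ⊢
  obtain ⟨i1, i2⟩ := prod_le hz s (fun b hb => hr b (Multiset.mem_cons_of_mem hb))
  simp only [Multiset.map_cons, Multiset.prod_cons, norm_mul, he, one_mul, RCLike.norm_conj]
  apply mul_lt_mul_of_pos_left _ (norm_pos_iff.mpr hl)
  have h2 : ‖1 - conj a * z‖ < ‖z - a‖ := by
    apply lt_of_pow_lt_pow_left₀ 2 (norm_nonneg _)
    have := factor_sq z a
    have p1 : 0 < ‖a‖ ^ 2 - 1 := by nlinarith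
    have p2 : 0 < 1 - ‖z‖ ^ 2 := by nlinarith [norm_nonneg z]
    nlinarith [mul_pos p1 p2]
  calc _ ≤ ‖1 - conj a * z‖ * ‖(s.map (z - ·)).prod‖ :=
        mul_le_mul_of_nonneg_left i1 (norm_nonneg _)
    _ < _ := mul_lt_mul_of_pos_right h2 i2

lemma cayley {a b : ℂ} (h : ‖b‖ < ‖a‖) : a + b ≠ 0 ∧ 0 ≤ ((a - b) / (a + b)).re := by
  have h1 : a + b ≠ 0 := by
    intro e
    rw [eq_neg_of_add_eq_zero_left e, norm_neg] at h
    exact lt_irrefl _ h
  refine ⟨h1, ?_⟩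
  have h2 : ‖b‖ ^ 2 ≤ ‖a‖ ^ 2 := by nlinarith [norm_nonneg b]
  rw [Complex.sq_norm, Complex.sq_norm, normSq_apply, normSq_apply] at h2
  rw [Complex.div_re, ← add_div]
  apply div_nonneg _ (normSq_nonneg _)
  simp only [sub_re, add_re, sub_im, add_im]
  nlinarith

noncomputable def trunc (k : ℕ) (p : ℂ[X]) : ℂ[X] :=
  ∑ j ∈ Finset.range (k + 1), monomial j (p.coeff j)

lemma trunc_coeff (k : ℕ) (p : ℂ[X]) (j : ℕ) :
    (trunc k p).coeff j = if j ≤ k then p.coeff j else 0 := by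
  simp only [trunc, finsetSum_coeff, coeff_monomial, Finset.sum_ite_eq', Finset.mem_range,
    Nat.lt_succ_iff]

lemma trunc_deg (k : ℕ) (p : ℂ[X]) : (trunc k p).natDegree ≤ k := by
  rw [natDegree_le_iff_coeff_eq_zero]
  intro j hj
  rw [trunc_coeff, if_neg (by omega)]

lemma trunc_dvd (k : ℕ) (p : ℂ[X]) : ∃ q, p = trunc k p + X ^ (k + 1) * q := by
  have : X ^ (k + 1) ∣ p - trunc k p := by
    rw [X_pow_dvd_iff]
    intro d hd
    rw [coeff_sub, trunc_coeff, if_pos (by omega), sub_self]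
  obtain ⟨q, hq⟩ := this
  exact ⟨q, by rw [← hq]; ring⟩

lemma add_deg (k : ℕ) (p : ℂ[X]) (l : ℂ) : (trunc k p + C l * X ^ k).natDegree ≤ k :=
  le_trans (natDegree_add_le _ _) (max_le (trunc_deg k p) (natDegree_C_mul_X_pow_le l k))

lemma add_coeff (k : ℕ) (p : ℂ[X]) (l : ℂ) (j : ℕ) (hj : j ≤ k) :
    (trunc k p + C l * X ^ k).coeff j = p.coeff j + if j = k then l else 0 := by
  rw [coeff_add, trunc_coeff, if_pos hj, coeff_C_mul_X_pow]

/-- quadratic form of Toeplitz positivity -/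
lemma toeplitz2 (N D G E : ℂ[X]) (k : ℕ) (g l : ℂ)
    (h1 : X ^ (k + 1) ∣ N * G - D * E) (h2 : N.coeff 0 = g * D.coeff 0)
    (hD : ∀ z : ℂ, ‖z‖ < 1 → D.eval z ≠ 0)
    (hpos : ∀ z : ℂ, ‖z‖ < 1 → 0 ≤ (N.eval z / D.eval z).re) :
    0 ≤ (∑ j ∈ Finset.range k, conj (G.coeff j) * E.coeff j).re
      + (conj (G.coeff k + l) * (E.coeff k + l * g)).re := by
  obtain ⟨G', hG⟩ := trunc_dvd k G
  obtain ⟨E', hE⟩ := trunc_dvd k E
  obtain ⟨W1, hW1⟩ := h1
  obtain ⟨W2, hW2⟩ : X ∣ N - C g * D := by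
    rw [X_dvd_iff, coeff_sub, coeff_C_mul, h2, sub_self]
  have := toeplitz N D (trunc k G + C l * X ^ k) (trunc k E + C (l * g) * X ^ k)
    (W1 - N * G' + D * E' + C l * W2) k (add_deg k G l)
    (by
      rw [C_mul]
      linear_combination hW1 - N * hG + D * hE + C l * X ^ k * hW2) hD hpos
  rw [Finset.sum_range_succ, add_re, add_coeff _ _ _ _ le_rfl, add_coeff _ _ _ _ le_rfl,
    if_pos rfl, if_pos rfl] at this
  convert this using 3
  apply Finset.sum_congr rfl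
  intro j hj
  have hj' := Finset.mem_range.mp hj
  rw [add_coeff _ _ _ _ hj'.le, add_coeff _ _ _ _ hj'.le, if_neg hj'.ne, if_neg hj'.ne, add_zero,
    add_zero]

end Pool.Agent.Lib.H29.SelfInv
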