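import Pool.Agent.Lib.helper29.SelfInv4

set_option autoImplicit false
open Polynomial Complex Set Filter Topology Real MeasureTheory
open scoped ComplexConjugate

namespace Pool.Agent.Lib.H29.SelfInv

lemma eval_map_conj (P : ℂ[X]) (z : ℂ) : (P.map (starRingEnd ℂ)).eval z = conj (P.eval (conj z)) := by
  have := eval_map_apply (p := P) (f := starRingEnd ℂ) (conj z)
  rwa [conj_conj] at this

/-- the reciprocal case, omitted value `1` -/
lemma recip_one (P : ℂ[X]) {e : ℂ} (he : ‖e‖ = 1)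
    (hP : ∀ z : ℂ, z ≠ 0 → P.eval z = e * z ^ P.natDegree * P.eval z⁻¹)
    (hom : ∀ z : ℂ, ‖z‖ < 1 → P.eval z ≠ 1) (hex : ∃ a ∈ (P - C 1).roots, 1 < ‖a‖)
    {k : ℕ} (hk0 : 0 < k) (hk : k < P.natDegree) :
    ‖P.coeff k‖ ^ 2
      ≤ ‖conj (P.coeff k) - (P.coeff 0 * conj (P.coeff k) + conj (P.coeff 0) * P.coeff k)‖ := by
  set n := P.natDegree with hn
  set Pb := P.map (starRingEnd ℂ) with hPb
  have hQd : (P - C 1).natDegree = n := natDegree_sub_C
  have hQ : P - C 1 ≠ 0 := by intro h; rw [h] at hQd; simp at hQd; omega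
  have hlt : ∀ z : ℂ, ‖z‖ < 1 → ‖(Pb - C (conj e) * X ^ n).eval z‖ < ‖(P - C 1).eval z‖ := by
    intro z hz
    apply sharp_lt _ _ hQ (roots_of_omit P hom) hex (e := conj e) (by simpa using he) _ hz
    intro y hy
    simp only [eval_sub, eval_mul, eval_C, eval_pow, eval_X, hPb, eval_map_conj, hQd]
    rw [hP (conj y) (by simpa using hy)]
    simp only [map_mul, map_pow, conj_conj, map_sub, map_one]
    ring
  set N := (P - C 1) - (Pb - C (conj e) * X ^ n) with hN
  set D := (P - C 1) + (Pb - C (conj e) * X ^ n) with hD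
  have hD0 : ∀ z : ℂ, ‖z‖ < 1 → D.eval z ≠ 0 := fun z hz => by
    rw [hD, eval_add]; exact (cayley (hlt z hz)).1
  have hpos : ∀ z : ℂ, ‖z‖ < 1 → 0 ≤ (N.eval z / D.eval z).re := fun z hz => by
    rw [hD, hN, eval_add, eval_sub]; exact (cayley (hlt z hz)).2
  set x := (P.coeff 0).re with hx
  set y := (P.coeff 0).im with hy
  set p := (P.coeff k).re with hp
  set q := (P.coeff k).im with hq
  have cN : N.coeff 0 = -(1 - 2 * y * I) := by
    rw [hN]
    simp only [coeff_sub, coeff_C_zero, hPb, coeff_map, coeff_C_mul_X_pow,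
      if_neg (show ¬ 0 = n by omega)]
    apply Complex.ext <;> simp [hy] <;> ring
  have cD : D.coeff 0 = -((1 - 2 * x : ℝ) : ℂ) := by
    rw [hD]
    simp only [coeff_add, coeff_sub, coeff_C_zero, hPb, coeff_map, coeff_C_mul_X_pow,
      if_neg (show ¬ 0 = n by omega)]
    apply Complex.ext <;> simp [hx] <;> ring
  set γ := 1 - 2 * x with hγ
  have hγ0 : γ ≠ 0 := by
    have := hD0 0 (by simp)
    rw [← coeff_zero_eq_eval_zero, cD] at this
    simpa using this
  have hγp : 0 < γ := by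
    have := hpos 0 (by simp)
    rw [← coeff_zero_eq_eval_zero, ← coeff_zero_eq_eval_zero, cD, cN, neg_div_neg_eq,
      div_ofReal_re] at this
    simp at this
    exact lt_of_le_of_ne this hγ0.symm
  have hγc : (γ : ℂ) ≠ 0 := ofReal_ne_zero.mpr hγ0
  have cG : ∀ j, (1 - P - Pb).coeff j = (((if j = 0 then 1 else 0) - 2 * (P.coeff j).re : ℝ) : ℂ) := by
    intro j
    simp only [coeff_sub, coeff_one, hPb, coeff_map]
    split_ifs <;> apply Complex.ext <;> simp <;> ring
  have cE : ∀ j, (1 - P + Pb).coeff j = (if j = 0 then 1 else 0) - 2 * (P.coeff j).im * I := by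
    intro j
    simp only [coeff_add, coeff_sub, coeff_one, hPb, coeff_map]
    split_ifs <;> apply Complex.ext <;> simp <;> ring
  have T := fun l => toeplitz2 N D (1 - P - Pb) (1 - P + Pb) k ((1 - 2 * y * I) / γ) l
    (by
      obtain ⟨d, hd⟩ : ∃ d, n = k + 1 + d := ⟨n - (k + 1), by omega⟩
      refine ⟨X ^ d * C (conj e) * (2 - 2 * P), ?_⟩
      rw [hN, hD, hd, C_1]
      ring)
    (by rw [cN, cD]; field_simp) hD0 hpos
  have s0 : (∑ j ∈ Finset.range k, conj ((1 - P - Pb).coeff j) * (1 - P + Pb).coeff j).re = γ := by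
    rw [re_sum, Finset.sum_eq_single 0]
    · rw [cG, cE, conj_ofReal, re_ofReal_mul]; simp [hγ, hx]
    · intro j _ hj
      rw [cG, cE, conj_ofReal, re_ofReal_mul]; simp [hj]
    · intro h; exact absurd (Finset.mem_range.mpr hk0) h
  have T2 := T ⟨p, 2 * p * y + γ * q⟩
  rw [s0, cG, cE, if_neg hk0.ne', if_neg hk0.ne', ← hp, ← hq] at T2
  have star : p ^ 2 + (γ * q + 2 * p * y) ^ 2 ≤ γ ^ 2 := by
    have e1 : (conj (((0 - 2 * p : ℝ) : ℂ) + ⟨p, 2 * p * y + γ * q⟩) *
        (0 - 2 * q * I + ⟨p, 2 * p * y + γ * q⟩ * ((1 - 2 * y * I) / γ))).re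
        = -(p ^ 2 + (γ * q + 2 * p * y) ^ 2) / γ := by
      simp [Complex.div_ofReal_re, Complex.div_ofReal_im]
      field_simp
      ring
    rw [e1] at T2
    have e2 : γ + -(p ^ 2 + (γ * q + 2 * p * y) ^ 2) / γ
        = (γ ^ 2 - (p ^ 2 + (γ * q + 2 * p * y) ^ 2)) / γ := by field_simp; ring
    rw [e2, le_div_iff₀ hγp] at T2
    linarith
  apply le_of_sq_le_sq _ (norm_nonneg _)
  rw [Complex.sq_norm, Complex.sq_norm, normSq_apply, normSq_apply]
  have r1 : (conj (P.coeff k) - (P.coeff 0 * conj (P.coeff k) + conj (P.coeff 0) * P.coeff k)).re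
      = γ * p - 2 * y * q := by simp [hγ, hx, hy, hp, hq]; ring
  have r2 : (conj (P.coeff k) - (P.coeff 0 * conj (P.coeff k) + conj (P.coeff 0) * P.coeff k)).im
      = -q := by simp [hq]; ring
  rw [r1, r2, ← hp, ← hq]
  have cs : (γ * (p * p + q * q)) ^ 2 ≤ (p ^ 2 + (γ * q + 2 * p * y) ^ 2) *
      ((γ * p - 2 * y * q) * (γ * p - 2 * y * q) + -q * -q) := by
    nlinarith [sq_nonneg (p * q - (γ * q + 2 * p * y) * (γ * p - 2 * y * q))]
  have nn : 0 ≤ (γ * p - 2 * y * q) * (γ * p - 2 * y * q) + -q * -q :=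
    add_nonneg (mul_self_nonneg _) (mul_self_nonneg _)
  have c2 := le_trans cs (mul_le_mul_of_nonneg_right star nn)
  rw [mul_pow] at c2
  exact le_of_mul_le_mul_left c2 (by positivity)

/-- the conjugate case, omitted value `1` -/
lemma conj_one (P : ℂ[X]) {e : ℂ} (he : ‖e‖ = 1)
    (hP : ∀ z : ℂ, z ≠ 0 → P.eval z = e * z ^ P.natDegree * conj (P.eval (conj z)⁻¹))
    (hom : ∀ z : ℂ, ‖z‖ < 1 → P.eval z ≠ 1) (hex : ∃ a ∈ (P - C 1).roots, 1 < ‖a‖)
    {k : ℕ} (hk0 : 0 < k) (hk : k < P.natDegree) :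
    ‖P.coeff k‖ ≤ ‖1 - 2 * P.coeff 0‖ := by
  set n := P.natDegree with hn
  have hQd : (P - C 1).natDegree = n := natDegree_sub_C
  have hQ : P - C 1 ≠ 0 := by intro h; rw [h] at hQd; simp at hQd; omega
  have hlt : ∀ z : ℂ, ‖z‖ < 1 → ‖(P - C e * X ^ n).eval z‖ < ‖(P - C 1).eval z‖ := by
    intro z hz
    apply sharp_lt _ _ hQ (roots_of_omit P hom) hex he _ hz
    intro y hy
    simp only [eval_sub, eval_mul, eval_C, eval_pow, eval_X, hQd]
    rw [hP y hy]
    simp only [map_sub, map_one]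
    ring
  set N := (P - C 1) + (P - C e * X ^ n) with hN
  set D := (P - C 1) - (P - C e * X ^ n) with hD
  have hc : ∀ z : ℂ, ‖z‖ < 1 → D.eval z ≠ 0 ∧ 0 ≤ (N.eval z / D.eval z).re := fun z hz => by
    have := cayley (a := (P - C 1).eval z) (b := -(P - C e * X ^ n).eval z) (by rw [norm_neg]; exact hlt z hz)
    rw [hD, hN, eval_add, eval_sub (P - C 1)]
    simpa only [sub_neg_eq_add, ← sub_eq_add_neg] using this
  by_cases h0 : P.coeff k = 0
  · rw [h0, norm_zero]; exact norm_nonneg _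
  have hpos : 0 < ‖P.coeff k‖ := norm_pos_iff.mpr h0
  have T := toeplitz2 N D 1 (1 - 2 * P) k (1 - 2 * P.coeff 0) (P.coeff k / (‖P.coeff k‖ : ℝ))
    (by
      obtain ⟨d, hd⟩ : ∃ d, n = k + 1 + d := ⟨n - (k + 1), by omega⟩
      refine ⟨X ^ d * C e * (2 * P - 2), ?_⟩
      rw [hN, hD, hd, C_1]
      ring)
    (by
      rw [hN, hD]
      simp only [coeff_add, coeff_sub, coeff_C_zero, coeff_C_mul_X_pow,
        if_neg (show ¬ 0 = n by omega)]
      ring) (fun z hz => (hc z hz).1) (fun z hz => (hc z hz).2)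
  have cE : ∀ j, (1 - 2 * P).coeff j = (if j = 0 then 1 else 0) - 2 * P.coeff j := by
    intro j
    rw [coeff_sub, coeff_one, two_mul, coeff_add, two_mul]
  have s0 : (∑ j ∈ Finset.range k, conj ((1 : ℂ[X]).coeff j) * (1 - 2 * P).coeff j)
      = 1 - 2 * P.coeff 0 := by
    rw [Finset.sum_eq_single 0]
    · rw [cE]; simp
    · intro j _ hj
      simp [coeff_one, hj]
    · intro h; exact absurd (Finset.mem_range.mpr hk0) h
  rw [s0, cE, coeff_one, if_neg hk0.ne'] at T
  have hr : ((‖P.coeff k‖ : ℝ) : ℂ) ≠ 0 := ofReal_ne_zero.mpr hpos.ne'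
  have e1 : conj (0 + P.coeff k / (‖P.coeff k‖ : ℝ)) *
      (0 - 2 * P.coeff k + P.coeff k / (‖P.coeff k‖ : ℝ) * (1 - 2 * P.coeff 0))
      = ((-2 * ‖P.coeff k‖ : ℝ) : ℂ) + (1 - 2 * P.coeff 0) := by
    have h1 : P.coeff k * conj (P.coeff k) = ((‖P.coeff k‖ : ℝ) : ℂ) ^ 2 := by
      rw [mul_conj, Complex.normSq_eq_norm_sq]; push_cast; ring
    simp only [zero_add, map_div₀, conj_ofReal]
    push_cast
    field_simp
    linear_combination (-2 * ((‖P.coeff k‖ : ℝ) : ℂ) + 1 - 2 * P.coeff 0) * h1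
  rw [e1, add_re, ofReal_re] at T
  have h2 : (1 - 2 * P.coeff 0).re ≤ ‖1 - 2 * P.coeff 0‖ := Complex.re_le_norm _
  linarith

lemma roots_scale (P : ℂ[X]) {w : ℂ} (hw : w ≠ 0) : (C w⁻¹ * P - C 1).roots = (P - C w).roots := by
  rw [← roots_C_mul (P - C w) (inv_ne_zero hw), mul_sub, ← C_mul, inv_mul_cancel₀ hw]

lemma lead_disc (P : ℂ[X]) (hn : 1 ≤ P.natDegree) {w : ℂ}
    (h : ∀ z : ℂ, ‖z‖ < 1 → P.eval z ≠ w) : ‖P.leadingCoeff‖ ≤ ‖w - P.coeff 0‖ := by
  have h1 := (prod_le (z := 0) (by simp) _ (roots_of_omit P h)).1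
  have h2 := (IsAlgClosed.splits (P - C w)).eval_eq_prod_roots 0
  have h3 : (P - C w).leadingCoeff = P.leadingCoeff := by
    rw [leadingCoeff, natDegree_sub_C, coeff_sub, coeff_C, if_neg (by omega), sub_zero, leadingCoeff]
  rw [h3, eval_sub, eval_C, ← coeff_zero_eq_eval_zero] at h2
  rw [norm_sub_rev, h2, norm_mul]
  simp only [mul_zero, sub_zero, Multiset.map_const', Multiset.prod_replicate, one_pow,
    norm_one] at h1
  nlinarith [norm_nonneg P.leadingCoeff]

/-- reduction of the disc statement to the omitted values off the degenerate case -/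
lemma assemble (P : ℂ[X]) (hn : 1 ≤ P.natDegree) (h0 : ‖P.coeff 0‖ = ‖P.leadingCoeff‖)
    (hmid : ∀ k, 0 < k → k < P.natDegree → ∃ c : ℂ, ∀ w : ℂ,
      (∀ z : ℂ, ‖z‖ < 1 → P.eval z ≠ w) → (∃ a ∈ (P - C w).roots, 1 < ‖a‖) →
        ‖P.coeff k‖ ≤ ‖w - c‖) (k : ℕ) (hk : k ≤ P.natDegree) :
    ∃ c : ℂ, Metric.ball c ‖P.coeff k‖ ⊆ (fun z => P.eval z) '' Metric.ball 0 1 := by
  have red : ∀ (c : ℂ) (r : ℝ), (∀ w : ℂ, (∀ z : ℂ, ‖z‖ < 1 → P.eval z ≠ w) → r ≤ ‖w - c‖) →
      Metric.ball c r ⊆ (fun z => P.eval z) '' Metric.ball 0 1 := by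
    intro c r h w hw
    by_contra hc
    rw [mem_ball_iff_norm] at hw
    refine absurd hw (not_lt.mpr (h w fun z hz e => hc ⟨z, by simpa using hz, e⟩))
  rcases Nat.eq_zero_or_pos k with rfl | hk0
  · exact ⟨_, red _ _ fun w hw => h0 ▸ lead_disc P hn hw⟩
  rcases hk.eq_or_lt with rfl | hk1
  · exact ⟨_, red _ _ fun w hw => lead_disc P hn hw⟩
  by_cases hdeg : ∃ w0 : ℂ, ∀ a ∈ (P - C w0).roots, ‖a‖ = 1
  · obtain ⟨w0, hw0⟩ := hdeg
    obtain ⟨c, hc⟩ := core (P - C w0) hw0 hk0 (by rwa [natDegree_sub_C])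
    refine ⟨c + w0, red _ _ fun w hw => ?_⟩
    have := hc (w - w0) (fun y hy e => hw y hy (by simpa using e))
    rw [coeff_sub, coeff_C, if_neg hk0.ne', sub_zero] at this
    rwa [show w - (c + w0) = w - w0 - c by ring]
  · push Not at hdeg
    obtain ⟨c, hc⟩ := hmid k hk0 hk1
    refine ⟨c, red _ _ fun w hw => hc w hw ?_⟩
    obtain ⟨a, ha, ha1⟩ := hdeg w
    exact ⟨a, ha, lt_of_le_of_ne (roots_of_omit P hw a ha) ha1.symm⟩

lemma roots_invol (P : ℂ[X]) (hP : P ≠ 0) (σ : ℂ → ℂ) (hσ : Function.Involutive σ)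
    (h : ∀ ζ : ℂ, P.IsRoot ζ → P.rootMultiplicity (σ ζ) = P.rootMultiplicity ζ) :
    P.roots.map σ = P.roots := by
  classical
  ext ζ
  conv_lhs => rw [← hσ ζ]
  rw [Multiset.count_map_eq_count' σ _ hσ.injective, count_roots, count_roots]
  by_cases h1 : P.IsRoot ζ
  · exact h ζ h1
  · by_cases h2 : P.IsRoot (σ ζ)
    · have := h _ h2
      rw [hσ ζ] at this
      exact this.symm
    · rw [rootMultiplicity_eq_zero h1, rootMultiplicity_eq_zero h2]

lemma norm_prod_one (s : Multiset ℂ) (h0 : ∀ a ∈ s, a ≠ 0) (σ : ℂ → ℂ) (hσ : ∀ a, ‖σ a‖ = ‖a‖⁻¹)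
    (h : s.map σ = s) : (s.map norm).prod = 1 := by
  have h1 : (s.map norm).prod = ((s.map norm).prod)⁻¹ := by
    conv_lhs => rw [← h]
    rw [Multiset.map_map, ← Multiset.prod_map_inv]
    congr 1
    exact Multiset.map_congr rfl fun a _ => hσ a
  have h2 : 0 < (s.map norm).prod := by
    apply Multiset.prod_pos
    intro x hx
    obtain ⟨a, ha, rfl⟩ := Multiset.mem_map.mp hx
    exact norm_pos_iff.mpr (h0 a ha)
  have h3 : (s.map norm).prod * (s.map norm).prod = 1 := by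
    nth_rewrite 1 [h1]
    exact inv_mul_cancel₀ h2.ne'
  nlinarith

lemma norm_mprod (s : Multiset ℂ) (f : ℂ → ℂ) (hf : ∀ a, ‖f a‖ = ‖a‖) :
    ‖(s.map f).prod‖ = (s.map norm).prod := by
  induction s using Multiset.induction_on with
  | empty => simp
  | cons a s ih => simp [ih, hf]

theorem recip_main (P : ℂ[X]) (hn : 1 ≤ P.natDegree) (h0 : P.eval 0 ≠ 0)
    (h : ∀ ζ : ℂ, P.IsRoot ζ → P.rootMultiplicity ζ⁻¹ = P.rootMultiplicity ζ)
    (k : ℕ) (hk : k ≤ P.natDegree) :
    ∃ c : ℂ, Metric.ball c ‖P.coeff k‖ ⊆ (fun z => P.eval z) '' Metric.ball 0 1 := by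
  have hP : P ≠ 0 := by rintro rfl; simp at h0
  have hne : ∀ a ∈ P.roots, a ≠ 0 := by
    rintro a ha rfl
    exact h0 ((mem_roots hP).mp ha)
  have hs := roots_invol P hP (fun z => z⁻¹) inv_inv h
  have hp1 := norm_prod_one P.roots hne _ (fun a => norm_inv a) hs
  have he : ‖(P.roots.map fun a => -a).prod‖ = 1 := by rw [norm_mprod _ _ norm_neg, hp1]
  have hF : ∀ z : ℂ, z ≠ 0 →
      P.eval z = (P.roots.map fun a => -a).prod * z ^ P.natDegree * P.eval z⁻¹ := by
    intro z hz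
    rw [(IsAlgClosed.splits P).eval_eq_prod_roots z⁻¹, (IsAlgClosed.splits P).eval_eq_prod_roots z,
      (IsAlgClosed.splits P).natDegree_eq_card_roots]
    conv_rhs => enter [2, 2]; rw [← hs]
    clear hs hp1 he
    generalize P.roots = s at hne
    induction s using Multiset.induction_on with
    | empty => simp
    | cons a s ih =>
      have ha := hne a (Multiset.mem_cons_self a s)
      have := ih (fun b hb => hne b (Multiset.mem_cons_of_mem hb))
      simp only [Multiset.map_cons, Multiset.prod_cons, Multiset.card_cons] at this ⊢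
      have e1 : z - a = -a * z * (z⁻¹ - a⁻¹) := by field_simp; ring
      rw [mul_left_comm, this, e1]
      ring
  apply assemble P hn _ _ k hk
  · rw [coeff_zero_eq_eval_zero, (IsAlgClosed.splits P).eval_eq_prod_roots, norm_mul,
      norm_mprod _ _ (fun a => by simp), hp1, mul_one]
  · intro k hk0 hk1
    refine ⟨P.coeff 0 + conj (P.coeff 0) * P.coeff k / conj (P.coeff k), fun w hw hex => ?_⟩
    by_cases hk2 : P.coeff k = 0
    · rw [hk2, norm_zero]; exact norm_nonneg _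
    have hw0 : w ≠ 0 := by
      rintro rfl
      obtain ⟨a, ha, ha1⟩ := hex
      rw [C_0, sub_zero] at ha
      have : a⁻¹ ∈ P.roots := by rw [← hs]; exact Multiset.mem_map_of_mem _ ha
      refine hw a⁻¹ ?_ ((mem_roots hP).mp this)
      rw [norm_inv]; exact inv_lt_one_of_one_lt₀ ha1
    have hd : (C w⁻¹ * P).natDegree = P.natDegree := natDegree_C_mul (inv_ne_zero hw0)
    have := recip_one (C w⁻¹ * P) he
      (fun z hz => by rw [hd, eval_mul, eval_mul, eval_C, eval_C, hF z hz]; ring)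
      (fun z hz e => hw z hz (by
        rw [eval_mul, eval_C] at e
        field_simp at e
        exact e))
      (by rw [roots_scale P hw0]; exact hex) hk0 (by rwa [hd])
    simp only [coeff_C_mul] at this
    have hc : conj (P.coeff k) ≠ 0 := by simpa using hk2
    have hcw : conj w ≠ 0 := by simpa using hw0
    have e1 : conj (w⁻¹ * P.coeff k) - (w⁻¹ * P.coeff 0 * conj (w⁻¹ * P.coeff k) +
        conj (w⁻¹ * P.coeff 0) * (w⁻¹ * P.coeff k)) = conj (w⁻¹ * P.coeff k) * w⁻¹ *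
          (w - (P.coeff 0 + conj (P.coeff 0) * P.coeff k / conj (P.coeff k))) := by
      simp only [map_mul, map_inv₀]
      field_simp
    rw [e1] at this
    simp only [norm_mul, RCLike.norm_conj] at this
    have p1 : 0 < ‖w⁻¹‖ := norm_pos_iff.mpr (inv_ne_zero hw0)
    have p2 : 0 < ‖P.coeff k‖ := norm_pos_iff.mpr hk2
    have p3 : 0 < ‖w⁻¹‖ * ‖P.coeff k‖ * ‖w⁻¹‖ := by positivity
    apply le_of_mul_le_mul_left _ p3
    nlinarith

theorem conj_main (P : ℂ[X]) (hn : 1 ≤ P.natDegree) (h0 : P.eval 0 ≠ 0)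
    (h : ∀ ζ : ℂ, P.IsRoot ζ → P.rootMultiplicity (conj ζ)⁻¹ = P.rootMultiplicity ζ)
    (k : ℕ) (hk : k ≤ P.natDegree) :
    ∃ c : ℂ, Metric.ball c ‖P.coeff k‖ ⊆ (fun z => P.eval z) '' Metric.ball 0 1 := by
  have hP : P ≠ 0 := by rintro rfl; simp at h0
  have hl : P.leadingCoeff ≠ 0 := leadingCoeff_ne_zero.mpr hP
  have hne : ∀ a ∈ P.roots, a ≠ 0 := by
    rintro a ha rfl
    exact h0 ((mem_roots hP).mp ha)
  have hs := roots_invol P hP (fun z => (conj z)⁻¹) (fun z => by simp) h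
  have hp1 := norm_prod_one P.roots hne _ (fun a => by simp) hs
  have he : ‖P.leadingCoeff / conj P.leadingCoeff * (P.roots.map fun a => -a).prod‖ = 1 := by
    rw [norm_mul, norm_mprod _ _ norm_neg, hp1, norm_div, RCLike.norm_conj,
      div_self (norm_ne_zero_iff.mpr hl), mul_one]
  have hF : ∀ z : ℂ, z ≠ 0 →
      P.eval z = P.leadingCoeff / conj P.leadingCoeff * (P.roots.map fun a => -a).prod
        * z ^ P.natDegree * conj (P.eval (conj z)⁻¹) := by
    intro z hz
    rw [(IsAlgClosed.splits P).eval_eq_prod_roots (conj z)⁻¹,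
      (IsAlgClosed.splits P).eval_eq_prod_roots z,
      (IsAlgClosed.splits P).natDegree_eq_card_roots]
    conv_rhs => enter [2, 2, 2]; rw [← hs]
    clear hs hp1 he
    generalize P.roots = s at hne
    have hc : conj P.leadingCoeff ≠ 0 := by simpa using hl
    induction s using Multiset.induction_on with
    | empty => simp [hc]
    | cons a s ih =>
      have ha := hne a (Multiset.mem_cons_self a s)
      have := ih (fun b hb => hne b (Multiset.mem_cons_of_mem hb))
      simp only [Multiset.map_cons, Multiset.prod_cons, Multiset.card_cons, map_mul, map_sub,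
        map_inv₀, conj_conj] at this ⊢
      have e1 : z - a = -a * z * (z⁻¹ - a⁻¹) := by field_simp; ring
      rw [mul_left_comm, this, e1]
      ring
  apply assemble P hn _ _ k hk
  · rw [coeff_zero_eq_eval_zero, (IsAlgClosed.splits P).eval_eq_prod_roots, norm_mul,
      norm_mprod _ _ (fun a => by simp), hp1, mul_one]
  · intro k hk0 hk1
    refine ⟨2 * P.coeff 0, fun w hw hex => ?_⟩
    have hw0 : w ≠ 0 := by
      rintro rfl
      obtain ⟨a, ha, ha1⟩ := hex
      rw [C_0, sub_zero] at ha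
      have : (conj a)⁻¹ ∈ P.roots := by rw [← hs]; exact Multiset.mem_map_of_mem _ ha
      refine hw (conj a)⁻¹ ?_ ((mem_roots hP).mp this)
      rw [norm_inv, RCLike.norm_conj]; exact inv_lt_one_of_one_lt₀ ha1
    have hcw : conj w ≠ 0 := by simpa using hw0
    have hd : (C w⁻¹ * P).natDegree = P.natDegree := natDegree_C_mul (inv_ne_zero hw0)
    have := conj_one (C w⁻¹ * P) (e := conj w / w * (P.leadingCoeff / conj P.leadingCoeff *
        (P.roots.map fun a => -a).prod))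
      (by rw [norm_mul, he, norm_div, RCLike.norm_conj, div_self (norm_ne_zero_iff.mpr hw0), mul_one])
      (fun z hz => by
        rw [hd, eval_mul, eval_mul, eval_C, eval_C, hF z hz, map_mul, map_inv₀ (starRingEnd ℂ) w]
        field_simp)
      (fun z hz e => hw z hz (by
        rw [eval_mul, eval_C] at e
        field_simp at e
        exact e))
      (by rw [roots_scale P hw0]; exact hex) hk0 (by rwa [hd])
    simp only [coeff_C_mul] at this
    have e1 : 1 - 2 * (w⁻¹ * P.coeff 0) = w⁻¹ * (w - 2 * P.coeff 0) := by field_simp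
    rw [e1, norm_mul, norm_mul] at this
    exact le_of_mul_le_mul_left this (norm_pos_iff.mpr (inv_ne_zero hw0))

end Pool.Agent.Lib.H29.SelfInv
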