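import Mathlib

set_option autoImplicit false

namespace Pool.Agent.Lib.H29.Shrink

/-- The family `(p i)`, `i ∈ I`, admits a continuous shrinking onto `(q i)`, `i ∈ I`: continuous
paths on the unit interval from `p i` to `q i` along which all mutual distances are
nonincreasing. -/
def Shrinks {ι E : Type} [MetricSpace E] (p q : ι → E) (I : Finset ι) : Prop :=
  ∃ x : ι → unitInterval → E,
    (∀ i ∈ I, Continuous (x i) ∧ x i 0 = p i ∧ x i 1 = q i) ∧
    ∀ i ∈ I, ∀ j ∈ I, Antitone fun t => dist (x i t) (x j t)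

/-- `m` is a Helly number for shrinking in dimension `d`. -/
def IsHellyNumber (d m : ℕ) : Prop :=
  ∀ (n : ℕ) (p q : Fin n → EuclideanSpace ℝ (Fin d)),
    (∀ I : Finset (Fin n), I.card ≤ m → Shrinks p q I) → Shrinks p q Finset.univ

end Pool.Agent.Lib.H29.Shrink
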