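import Mathlib
import Pool.Agent.Lib.helper29.ShrinkDefs

set_option autoImplicit false

namespace Pool.Agent.Lib.H29.Shrink

open scoped RealInnerProductSpace ComplexConjugate
open Sum

variable {E : Type} [NormedAddCommGroup E] [InnerProductSpace ℝ E] {n : ℕ}

/-- inner product of the components orthogonal to the frame -/
noncomputable def gf (e : Fin n → E) (w w' : E) : ℝ := ⟪w, w'⟫ - ∑ k, ⟪w, e k⟫ * ⟪e k, w'⟫

/-- area form on the orthogonal complement of the frame -/
noncomputable def om (b : OrthonormalBasis (Fin 2 ⊕ Fin n) ℝ E) (e : Fin n → E) (w w' : E) : ℝ :=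
  b.toBasis.det (Sum.elim ![w, w'] e)

lemma gf_eq (c : OrthonormalBasis (Fin 2 ⊕ Fin n) ℝ E) (w w' : E) :
    gf (fun k => c (inr k)) w w' =
      ⟪c (inl 0), w⟫ * ⟪c (inl 0), w'⟫ + ⟪c (inl 1), w⟫ * ⟪c (inl 1), w'⟫ := by
  unfold gf
  rw [← c.sum_inner_mul_inner w w', Fintype.sum_sum_type, Fin.sum_univ_two,
    real_inner_comm w (c (inl 0)), real_inner_comm w (c (inl 1))]
  ring

lemma om_eq (b c : OrthonormalBasis (Fin 2 ⊕ Fin n) ℝ E) (w w' : E) :
    om b (fun k => c (inr k)) w w' = b.toBasis.det c *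
      (⟪c (inl 0), w⟫ * ⟪c (inl 1), w'⟫ - ⟪c (inl 1), w⟫ * ⟪c (inl 0), w'⟫) := by
  unfold om
  conv_lhs => rw [AlternatingMap.eq_smul_basis_det c.toBasis b.toBasis.det]
  simp only [AlternatingMap.smul_apply, smul_eq_mul, OrthonormalBasis.coe_toBasis]
  congr 1
  rw [Module.Basis.det_apply]
  have : c.toBasis.toMatrix (Sum.elim ![w, w'] fun k => c (inr k)) =
      Matrix.fromBlocks !![⟪c (inl 0), w⟫, ⟪c (inl 0), w'⟫; ⟪c (inl 1), w⟫, ⟪c (inl 1), w'⟫] 0
        (Matrix.of fun k j => ⟪c (inr k), ![w, w'] j⟫) 1 := by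
    ext i j
    rw [Module.Basis.toMatrix_apply, OrthonormalBasis.coe_toBasis_repr_apply,
      OrthonormalBasis.repr_apply_apply]
    have ho := orthonormal_iff_ite.1 c.orthonormal
    rcases i with i | i <;> rcases j with j | j
    · fin_cases i <;> fin_cases j <;> simp
    · simp [ho]
    · simp
    · simp [ho, Matrix.one_apply]
  rw [this, Matrix.det_fromBlocks_zero₁₂, Matrix.det_one, Matrix.det_fin_two_of]
  ring

lemma phi_exists (b : OrthonormalBasis (Fin 2 ⊕ Fin n) ℝ E) (e : Fin n → E)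
    (he : Orthonormal ℝ e) :
    ∃ φ : E → ℂ, ∀ w w', φ w' * conj (φ w) = ⟨gf e w w', om b e w w'⟩ := by
  have : FiniteDimensional ℝ E := Module.Finite.of_basis b.toBasis
  have hv : Orthonormal ℝ ((Set.range (inr : Fin n → Fin 2 ⊕ Fin n)).domRestrict
      (Sum.elim (fun _ => (0 : E)) e)) := by
    rw [orthonormal_iff_ite] at he ⊢
    rintro ⟨_, i, rfl⟩ ⟨_, j, rfl⟩
    simp [he]
  obtain ⟨c, hc⟩ := hv.exists_orthonormalBasis_extension_of_card_eq
    (Module.finrank_eq_card_basis b.toBasis)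
  have hce : e = fun k => c (inr k) := funext fun k => (hc _ ⟨k, rfl⟩).symm
  subst hce
  refine ⟨fun w => ⟨⟪c (inl 0), w⟫, b.toBasis.det c * ⟪c (inl 1), w⟫⟩, fun w w' => ?_⟩
  rw [gf_eq, om_eq]
  rcases b.det_to_matrix_orthonormalBasis_real c with h | h <;> rw [h] <;>
    apply Complex.ext <;> simp <;> ring

lemma gf_polar (e : Fin n → E) (w w' : E) :
    2 * gf e w w' = gf e w w + gf e w' w' - gf e (w - w') (w - w') := by
  unfold gf
  simp only [inner_sub_left, inner_sub_right, real_inner_comm w w', real_inner_comm w (e _),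
    real_inner_comm w' (e _)]
  have : ∑ k, (⟪w, e k⟫ - ⟪w', e k⟫) * (⟪w, e k⟫ - ⟪w', e k⟫) =
      ∑ k, ⟪w, e k⟫ * ⟪w, e k⟫ + ∑ k, ⟪w', e k⟫ * ⟪w', e k⟫ - 2 * ∑ k, ⟪w, e k⟫ * ⟪w', e k⟫ := by
    rw [Finset.mul_sum, ← Finset.sum_add_distrib, ← Finset.sum_sub_distrib]
    exact Finset.sum_congr rfl fun k _ => by ring
  rw [this]
  ring

lemma gf_le (e : Fin n → E) (w : E) : gf e w w ≤ ‖w‖ ^ 2 := by
  unfold gf
  rw [real_inner_self_eq_norm_sq]
  have : 0 ≤ ∑ k, ⟪w, e k⟫ * ⟪e k, w⟫ :=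
    Finset.sum_nonneg fun k _ => by rw [real_inner_comm]; exact mul_self_nonneg _
  linarith

lemma gf_ge (e : Fin n → E) (w : E) (hw : 1 ≤ ‖w‖) (h : ∀ k, |⟪w, e k⟫| ≤ 1 / (2 * (n + 1))) :
    3 / 4 ≤ gf e w w := by
  unfold gf
  rw [real_inner_self_eq_norm_sq]
  have h1 : ∑ k, ⟪w, e k⟫ * ⟪e k, w⟫ ≤ ∑ _k : Fin n, (1 / (2 * ((n : ℝ) + 1))) ^ 2 :=
    Finset.sum_le_sum fun k _ => by
      rw [real_inner_comm w (e k), ← sq, ← sq_abs]
      exact pow_le_pow_left₀ (abs_nonneg _) (h k) 2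
  rw [Finset.sum_const, Finset.card_univ, Fintype.card_fin, nsmul_eq_mul] at h1
  have h2 : (n : ℝ) * (1 / (2 * ((n : ℝ) + 1))) ^ 2 ≤ 1 / 4 := by
    have hn : (0 : ℝ) ≤ n := Nat.cast_nonneg n
    rw [div_pow, one_pow, mul_one_div, div_le_div_iff₀ (by positivity) (by positivity)]
    nlinarith
  nlinarith

lemma cont_gf {T : Type} [TopologicalSpace T] {e : T → Fin n → E} {w w' : T → E}
    (he : ∀ k, Continuous fun t => e t k) (hw : Continuous w) (hw' : Continuous w') :
    Continuous fun t => gf (e t) (w t) (w' t) := by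
  unfold gf
  refine (hw.inner hw').sub (continuous_finsetSum _ fun k _ => ?_)
  exact (hw.inner (he k)).mul ((he k).inner hw')

lemma cont_om (b : OrthonormalBasis (Fin 2 ⊕ Fin n) ℝ E) {T : Type} [TopologicalSpace T]
    {e : T → Fin n → E} {w w' : T → E}
    (he : ∀ k, Continuous fun t => e t k) (hw : Continuous w) (hw' : Continuous w') :
    Continuous fun t => om b (e t) (w t) (w' t) := by
  unfold om
  simp only [Module.Basis.det_apply]
  refine Continuous.matrix_det (continuous_matrix fun i j => ?_)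
  simp only [Module.Basis.toMatrix_apply, OrthonormalBasis.coe_toBasis_repr_apply,
      OrthonormalBasis.repr_apply_apply]
  refine continuous_const.inner ?_
  rcases j with j | j
  · fin_cases j
    · simpa using hw
    · simpa using hw'
  · simpa using he j

/-- winding obstruction -/
lemma winding (b : OrthonormalBasis (Fin 2 ⊕ Fin n) ℝ E) {N : ℕ} [NeZero N]
    (e : unitInterval → Fin n → E) (w : ZMod N → unitInterval → E)
    (he : ∀ k, Continuous fun t => e t k) (hw : ∀ c, Continuous (w c))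
    (ho : ∀ t, Orthonormal ℝ (e t)) (hpos : ∀ t c, 0 < gf (e t) (w c t) (w (c + 1) t))
    (h0 : ∀ c, Complex.arg ⟨gf (e 0) (w c 0) (w (c + 1) 0), om b (e 0) (w c 0) (w (c + 1) 0)⟩ =
      2 * Real.pi / N)
    (h1 : ∀ c, Complex.arg ⟨gf (e 1) (w c 1) (w (c + 1) 1), om b (e 1) (w c 1) (w (c + 1) 1)⟩ =
      0) : False := by
  set z : ZMod N → unitInterval → ℂ := fun c t =>
    ⟨gf (e t) (w c t) (w (c + 1) t), om b (e t) (w c t) (w (c + 1) t)⟩ with hz
  have hzc : ∀ c, Continuous (z c) := fun c => by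
    have : z c = fun t => (gf (e t) (w c t) (w (c + 1) t) : ℂ) +
        (om b (e t) (w c t) (w (c + 1) t) : ℂ) * Complex.I := by
      funext t; apply Complex.ext <;> simp [hz]
    rw [this]
    exact (Complex.continuous_ofReal.comp (cont_gf he (hw c) (hw (c + 1)))).add
      ((Complex.continuous_ofReal.comp (cont_om b he (hw c) (hw (c + 1)))).mul continuous_const)
  have hF : Continuous fun t => ∑ c, Complex.arg (z c t) := by
    refine continuous_finsetSum _ fun c _ => continuous_iff_continuousAt.2 fun t => ?_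
    exact (Complex.continuousAt_arg (Or.inl (hpos t c))).comp (hzc c).continuousAt
  have hN : (N : ℝ) ≠ 0 := Nat.cast_ne_zero.2 (NeZero.ne N)
  have F0 : ∑ c, Complex.arg (z c 0) = 2 * Real.pi := by
    rw [Finset.sum_congr rfl fun c _ => h0 c, Finset.sum_const, Finset.card_univ, ZMod.card,
      nsmul_eq_mul]
    field_simp
  have F1 : ∑ c, Complex.arg (z c 1) = 0 := by
    rw [Finset.sum_congr rfl fun c _ => h1 c, Finset.sum_const, smul_zero]
  obtain ⟨t, ht⟩ := intermediate_value_univ 1 0 hF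
    (show Real.pi ∈ Set.Icc _ _ by
      rw [F0, F1]; constructor <;> linarith [Real.pi_pos])
  simp only at ht
  obtain ⟨φ, hφ⟩ := phi_exists b (e t) (ho t)
  have e1 : ∏ c, z c t = ((∏ c, Complex.normSq (φ (w c t)) : ℝ) : ℂ) := by
    have : ∀ c, z c t = φ (w (c + 1) t) * conj (φ (w c t)) := fun c => (hφ _ _).symm
    simp only [this]
    have h2 : ∏ c, φ (w (c + 1) t) = ∏ c, φ (w c t) :=
      Equiv.prod_comp (Equiv.addRight (1 : ZMod N)) (fun c => φ (w c t))
    rw [Finset.prod_mul_distrib, h2, ← Finset.prod_mul_distrib, Complex.ofReal_prod]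
    exact Finset.prod_congr rfl fun c _ => Complex.mul_conj _
  have e2 : ∏ c, z c t = -((∏ c, ‖z c t‖ : ℝ) : ℂ) := by
    rw [Finset.prod_congr rfl fun c _ => (Complex.norm_mul_exp_arg_mul_I (z c t)).symm,
      Finset.prod_mul_distrib, ← Complex.exp_sum, ← Finset.sum_mul, ← Complex.ofReal_sum, ht,
      Complex.exp_pi_mul_I]
    simp
  have p1 : 0 ≤ ∏ c, Complex.normSq (φ (w c t)) :=
    Finset.prod_nonneg fun c _ => Complex.normSq_nonneg _
  have p2 : 0 < ∏ c, ‖z c t‖ := Finset.prod_pos fun c _ => norm_pos_iff.2 fun h => by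
    have := hpos t c
    have h' := congrArg Complex.re h
    simp only [hz, Complex.zero_re] at h'
    linarith
  rw [e1, ← Complex.ofReal_neg, Complex.ofReal_inj] at e2
  linarith

end Pool.Agent.Lib.H29.Shrink
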