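import Mathlib
import Pool.Agent.Lib.helper29.Shrink1

set_option autoImplicit false

namespace Pool.Agent.Lib.H29.Shrink

open scoped RealInnerProductSpace ComplexConjugate
open Sum

variable {E : Type} [NormedAddCommGroup E] [InnerProductSpace ℝ E] {n : ℕ}

/-- the coordinate plane -/
noncomputable def J (b : OrthonormalBasis (Fin 2 ⊕ Fin n) ℝ E) (z : ℂ) : E :=
  z.re • b (inl 0) + z.im • b (inl 1)

section
variable (b : OrthonormalBasis (Fin 2 ⊕ Fin n) ℝ E)

lemma J_sub (z w : ℂ) : J b z - J b w = J b (z - w) := by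
  simp only [J, Complex.sub_re, Complex.sub_im, sub_smul]; abel

lemma inner_J0 (z : ℂ) : ⟪b (inl 0), J b z⟫ = z.re := by
  have ho := orthonormal_iff_ite.1 b.orthonormal
  simp [J, inner_add_right, inner_smul_right, ho]

lemma inner_J1 (z : ℂ) : ⟪b (inl 1), J b z⟫ = z.im := by
  have ho := orthonormal_iff_ite.1 b.orthonormal
  simp [J, inner_add_right, inner_smul_right, ho]

lemma inner_Jr (k : Fin n) (z : ℂ) : ⟪b (inr k), J b z⟫ = 0 := by
  have ho := orthonormal_iff_ite.1 b.orthonormal
  simp [J, inner_add_right, inner_smul_right, ho]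

lemma norm_J (z : ℂ) : ‖J b z‖ = ‖z‖ := by
  have h : ‖J b z‖ ^ 2 = ‖z‖ ^ 2 := by
    rw [← real_inner_self_eq_norm_sq, Complex.sq_norm, Complex.normSq_apply]
    conv_lhs => rw [show ⟪J b z, J b z⟫ = ⟪z.re • b (inl 0) + z.im • b (inl 1), J b z⟫ from rfl]
    rw [inner_add_left, real_inner_smul_left, real_inner_smul_left, inner_J0, inner_J1]
  exact (pow_left_inj₀ (norm_nonneg _) (norm_nonneg _) two_ne_zero).1 h

lemma dist_J (z w : ℂ) : dist (J b z) (J b w) = ‖z - w‖ := by
  rw [dist_eq_norm, J_sub, norm_J]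

lemma dist_J0 (z : ℂ) : dist (J b z) 0 = ‖z‖ := by
  rw [dist_zero_right, norm_J]

lemma dist_Jr (L : ℝ) (k : Fin n) (z : ℂ) :
    dist (J b z) (L • b (inr k)) = √(‖z‖ ^ 2 + L ^ 2) := by
  rw [dist_eq_norm, ← Real.sqrt_sq (norm_nonneg _), norm_sub_sq_real, norm_J,
    real_inner_smul_right, real_inner_comm, inner_Jr, norm_smul, b.orthonormal.1]
  simp

lemma cont_J : Continuous (J b) := by
  unfold J
  fun_prop

lemma z_J (z w : ℂ) : (⟨gf (fun k => b (inr k)) (J b z) (J b w),
    om b (fun k => b (inr k)) (J b z) (J b w)⟩ : ℂ) = w * conj z := by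
  rw [gf_eq, om_eq, inner_J0, inner_J0, inner_J1, inner_J1]
  have : b.toBasis.det b = 1 := by
    rw [← OrthonormalBasis.coe_toBasis]; exact Module.Basis.det_self _
  rw [this]
  apply Complex.ext <;> simp <;> ring

end

/-- configuration: centre, frame points and points of the coordinate plane -/
noncomputable def cfg (b : OrthonormalBasis (Fin 2 ⊕ Fin n) ℝ E) {N : ℕ} (L : ℝ)
    (Z : ZMod N → ℂ) : Option (Fin n ⊕ ZMod N) → E
  | none => 0
  | some (inl k) => L • b (inr k)
  | some (inr c) => J b (Z c)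

lemma not_shrinks (b : OrthonormalBasis (Fin 2 ⊕ Fin n) ℝ E) {N : ℕ} [NeZero N] (R : ℝ)
    (hR : 1 ≤ R) (hN : 4 * Real.pi * R < N) :
    ¬ Shrinks (cfg b ((n + 1) * R ^ 2) fun c : ZMod N => R * (ZMod.toCircle c : ℂ))
      (cfg b ((n + 1) * R ^ 2) fun _ => 1) Finset.univ := by
  rintro ⟨x, hx, hd⟩
  set L : ℝ := (n + 1) * R ^ 2 with hL
  have hn0 : (0 : ℝ) ≤ n := Nat.cast_nonneg n
  have hLpos : 0 < L := by positivity
  have hc : ∀ i, Continuous (x i) := fun i => (hx i (Finset.mem_univ _)).1
  have h0 := fun i => (hx i (Finset.mem_univ _)).2.1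
  have h1 := fun i => (hx i (Finset.mem_univ _)).2.2
  have up : ∀ i j t, dist (x i t) (x j t) ≤ dist (x i 0) (x j 0) := fun i j t =>
    hd i (Finset.mem_univ _) j (Finset.mem_univ _) (unitInterval.nonneg' : 0 ≤ t)
  have lo : ∀ i j t, dist (x i 1) (x j 1) ≤ dist (x i t) (x j t) := fun i j t =>
    hd i (Finset.mem_univ _) j (Finset.mem_univ _) (unitInterval.le_one' : t ≤ 1)
  simp only [h0, h1] at up lo
  have nR : ∀ c : ZMod N, ‖(R : ℂ) * (ZMod.toCircle c : ℂ)‖ = R := fun c => by
    rw [norm_mul, Circle.norm_coe, mul_one, Complex.norm_real, Real.norm_of_nonneg (by linarith)]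
  have hNpos : (0 : ℝ) < N := Nat.cast_pos.2 (Nat.pos_of_ne_zero (NeZero.ne N))
  have t1 : (ZMod.toCircle (1 : ZMod N) : ℂ) =
      Complex.exp (Complex.I * ((2 * Real.pi / N : ℝ) : ℂ)) := by
    have := ZMod.toCircle_intCast (N := N) 1
    rw [Int.cast_one] at this
    rw [this]; congr 1; push_cast; ring
  have nk : ∀ k t, ‖x (some (inl k)) t - x none t‖ = L := fun k t => by
    have a := up (some (inl k)) none t
    have a' := lo (some (inl k)) none t
    simp only [cfg, dist_zero_right, norm_smul, b.orthonormal.1, mul_one,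
      Real.norm_of_nonneg hLpos.le] at a a'
    rw [← dist_eq_norm]; linarith
  refine winding b (N := N) (fun t k => L⁻¹ • (x (some (inl k)) t - x none t))
    (fun c t => x (some (inr c)) t - x none t)
    (fun k => ((hc _).sub (hc _)).const_smul _) (fun c => (hc _).sub (hc _)) (fun t => ?_)
    (fun t c => ?_) (fun c => ?_) (fun c => ?_)
  · refine ⟨fun k => ?_, fun k l hkl => ?_⟩
    · rw [norm_smul, nk, Real.norm_of_nonneg (inv_pos.2 hLpos).le, inv_mul_cancel₀ hLpos.ne']
    · have a := up (some (inl k)) (some (inl l)) t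
      have a' := lo (some (inl k)) (some (inl l)) t
      have e : dist (x (some (inl k)) t) (x (some (inl l)) t) =
          dist (L • b (inr k)) (L • b (inr l)) := le_antisymm a a'
      rw [dist_eq_norm, dist_eq_norm, show x (some (inl k)) t - x (some (inl l)) t =
        (x (some (inl k)) t - x none t) - (x (some (inl l)) t - x none t) by abel] at e
      have e2 := congrArg (· ^ 2) e
      simp only [norm_sub_sq_real (x (some (inl k)) t - x none t), nk,
        norm_sub_sq_real (L • b (inr k)), norm_smul, b.orthonormal.1, mul_one,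
        Real.norm_of_nonneg hLpos.le, real_inner_smul_left, real_inner_smul_right,
        b.orthonormal.2 (show (inr k : Fin 2 ⊕ Fin n) ≠ inr l by simpa using hkl)] at e2
      simp only [real_inner_smul_left, real_inner_smul_right]
      have : ⟪x (some (inl k)) t - x none t, x (some (inl l)) t - x none t⟫ = 0 := by linarith
      rw [this]; simp
  · have g : ∀ c : ZMod N, 3 / 4 ≤ gf (fun k => L⁻¹ • (x (some (inl k)) t - x none t))
        (x (some (inr c)) t - x none t) (x (some (inr c)) t - x none t) := fun c => by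
      have a := up (some (inr c)) none t
      have a' := lo (some (inr c)) none t
      simp only [cfg, dist_J0, nR, norm_one] at a a'
      rw [dist_eq_norm] at a a'
      refine gf_ge _ _ a' fun k => ?_
      have d := up (some (inr c)) (some (inl k)) t
      have d' := lo (some (inr c)) (some (inl k)) t
      simp only [cfg, dist_Jr, nR, norm_one] at d d'
      rw [dist_eq_norm, show x (some (inr c)) t - x (some (inl k)) t =
        (x (some (inr c)) t - x none t) - (x (some (inl k)) t - x none t) by abel] at d d'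
      have d2 := pow_le_pow_left₀ (norm_nonneg _) d 2
      have d2' := pow_le_pow_left₀ (Real.sqrt_nonneg _) d' 2
      rw [Real.sq_sqrt (by positivity), norm_sub_sq_real, nk] at d2 d2'
      have a2 := pow_le_pow_left₀ (norm_nonneg _) a 2
      have a2' := pow_le_pow_left₀ zero_le_one a' 2
      rw [real_inner_smul_right, abs_mul, abs_of_pos (inv_pos.2 hLpos), inv_mul_le_iff₀ hLpos]
      have : L * (1 / (2 * ((n : ℝ) + 1))) = R ^ 2 / 2 := by rw [hL]; field_simp
      rw [this, abs_le]
      constructor <;> linarith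
    have p := gf_polar (fun k => L⁻¹ • (x (some (inl k)) t - x none t))
      (x (some (inr c)) t - x none t) (x (some (inr (c + 1))) t - x none t)
    have q := gf_le (fun k => L⁻¹ • (x (some (inl k)) t - x none t))
      ((x (some (inr c)) t - x none t) - (x (some (inr (c + 1))) t - x none t))
    have d := up (some (inr c)) (some (inr (c + 1))) t
    simp only [cfg, dist_J] at d
    have e : ‖(R : ℂ) * (ZMod.toCircle c : ℂ) - R * (ZMod.toCircle (c + 1) : ℂ)‖ ≤ 1 / 2 := by
      rw [AddChar.map_add_eq_mul, Circle.coe_mul, show (R : ℂ) * (ZMod.toCircle c : ℂ) -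
        R * ((ZMod.toCircle c : ℂ) * (ZMod.toCircle (1 : ZMod N) : ℂ)) =
        -(R * (ZMod.toCircle c : ℂ)) * ((ZMod.toCircle (1 : ZMod N) : ℂ) - 1) by ring,
        norm_mul, norm_neg, nR, t1]
      have := Real.norm_exp_I_mul_ofReal_sub_one_le (x := 2 * Real.pi / N)
      rw [Real.norm_of_nonneg (by positivity)] at this
      calc _ ≤ R * (2 * Real.pi / N) := by gcongr
        _ ≤ 1 / 2 := by
          rw [← mul_div_assoc, div_le_div_iff₀ hNpos two_pos]; linarith
    rw [dist_eq_norm, show x (some (inr c)) t - x (some (inr (c + 1))) t =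
      (x (some (inr c)) t - x none t) - (x (some (inr (c + 1))) t - x none t) by abel] at d
    have d2 := pow_le_pow_left₀ (norm_nonneg _) (d.trans e) 2
    have g1 := g c
    have g2 := g (c + 1)
    linarith
  · simp only [h0, cfg, sub_zero, smul_smul, inv_mul_cancel₀ hLpos.ne', one_smul, z_J]
    have : (R : ℂ) * (ZMod.toCircle (c + 1) : ℂ) * conj ((R : ℂ) * (ZMod.toCircle c : ℂ)) =
        ((R ^ 2 : ℝ) : ℂ) * Complex.exp (((2 * Real.pi / N : ℝ) : ℂ) * Complex.I) := by
      rw [AddChar.map_add_eq_mul, Circle.coe_mul, t1, mul_comm Complex.I,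
        show ∀ u v : ℂ, (R : ℂ) * (u * v) * conj ((R : ℂ) * u) =
          ((R : ℂ) * u * conj ((R : ℂ) * u)) * v from fun u v => by ring, Complex.mul_conj,
        Complex.normSq_eq_norm_sq, nR]
    rw [this, Complex.arg_real_mul _ (by positivity), Complex.arg_exp_mul_I, toIocMod_eq_self]
    have hp := Real.pi_pos
    have h3 := Real.pi_gt_three
    constructor
    · have : 0 < 2 * Real.pi / N := by positivity
      linarith
    · rw [div_le_iff₀ hNpos]; nlinarith
  · simp only [h1, cfg, sub_zero, smul_smul, inv_mul_cancel₀ hLpos.ne', one_smul, z_J]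
    simp

end Pool.Agent.Lib.H29.Shrink
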