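import Mathlib
import Pool.Agent.Lib.helper29.Shrink2

set_option autoImplicit false

namespace Pool.Agent.Lib.H29.Shrink

open scoped RealInnerProductSpace ComplexConjugate
open Sum

variable {E : Type} [NormedAddCommGroup E] [InnerProductSpace ℝ E] {n : ℕ}

lemma mono_sin (g a M : ℝ) (hg : 0 < g) (hg' : g ≤ Real.pi / 2) (ha : 0 ≤ a)
    (ha' : a ≤ Real.pi - g) (hM : Real.pi ≤ M * Real.sin g) :
    MonotoneOn (fun s => Real.exp (M * s) * Real.sin (a * s)) (Set.Icc 0 1) := by
  have hp := Real.pi_pos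
  have hs : 0 < Real.sin g := Real.sin_pos_of_pos_of_lt_pi hg (by linarith)
  have hM0 : 0 < M := by by_contra h; nlinarith
  have hd : ∀ s, HasDerivAt (fun s => Real.exp (M * s) * Real.sin (a * s))
      (Real.exp (M * s) * (M * Real.sin (a * s) + a * Real.cos (a * s))) s := fun s => by
    have h1 : HasDerivAt (fun s => M * s) M s := by simpa using (hasDerivAt_id s).const_mul M
    have h2 : HasDerivAt (fun s => a * s) a s := by simpa using (hasDerivAt_id s).const_mul a
    exact (h1.exp.mul h2.sin).congr_deriv (by ring)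
  refine monotoneOn_of_deriv_nonneg (convex_Icc 0 1)
    (fun s _ => (hd s).continuousAt.continuousWithinAt)
    (fun s _ => (hd s).differentiableAt.differentiableWithinAt) fun s hs' => ?_
  rw [interior_Icc] at hs'
  rw [(hd s).deriv]
  refine mul_nonneg (Real.exp_pos _).le ?_
  have h1 : 0 ≤ a * s := mul_nonneg ha hs'.1.le
  have h2 : a * s ≤ a := by nlinarith [hs'.2]
  have h3 : 0 ≤ Real.sin (a * s) := Real.sin_nonneg_of_nonneg_of_le_pi h1 (by linarith)
  by_cases h : a * s ≤ Real.pi / 2
  · have := Real.cos_nonneg_of_neg_pi_div_two_le_of_le (x := a * s) (by linarith) h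
    positivity
  · have h4 : Real.sin g ≤ Real.sin (a * s) := by
      rw [← Real.sin_pi_sub (a * s)]
      exact Real.sin_le_sin_of_le_of_le_pi_div_two (by linarith) (by linarith) (by linarith)
    have h5 := Real.neg_one_le_cos (a * s)
    nlinarith

/-- spiral motion -/
noncomputable def spiral (M θ s : ℝ) : ℂ :=
  (Real.exp (M * s) : ℂ) * Complex.exp (Complex.I * ((θ * s : ℝ) : ℂ))

lemma norm_spiral (M θ s : ℝ) : ‖spiral M θ s‖ = Real.exp (M * s) := by
  rw [spiral, norm_mul, mul_comm Complex.I, Complex.norm_exp_ofReal_mul_I, mul_one,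
    Complex.norm_real, Real.norm_of_nonneg (Real.exp_pos _).le]

lemma dist_spiral (M θ θ' s : ℝ) (hs : s ∈ Set.Icc (0 : ℝ) 1) (h : |θ - θ'| / 2 ≤ Real.pi) :
    ‖spiral M θ s - spiral M θ' s‖ = 2 * (Real.exp (M * s) * Real.sin (|θ - θ'| / 2 * s)) := by
  have e : spiral M θ s - spiral M θ' s =
      spiral M θ' s * (Complex.exp (Complex.I * (((θ - θ') * s : ℝ) : ℂ)) - 1) := by
    unfold spiral
    rw [mul_sub, mul_one, mul_assoc, ← Complex.exp_add]
    congr 3; push_cast; ring
  rw [e, norm_mul, norm_spiral, Complex.norm_exp_I_mul_ofReal_sub_one, Real.norm_eq_abs, abs_mul,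
    abs_two]
  have h0 : 0 ≤ |θ - θ'| / 2 * s := mul_nonneg (by positivity) hs.1
  have h1 : |θ - θ'| / 2 * s ≤ Real.pi := by nlinarith [hs.2, abs_nonneg (θ - θ')]
  have h2 := Real.sin_nonneg_of_nonneg_of_le_pi h0 h1
  have : |Real.sin ((θ - θ') * s / 2)| = Real.sin (|θ - θ'| / 2 * s) := by
    rcases abs_cases (θ - θ') with ⟨h3, -⟩ | ⟨h3, -⟩
    · rw [h3] at h2 ⊢
      rw [show (θ - θ') * s / 2 = (θ - θ') / 2 * s by ring, abs_of_nonneg h2]
    · rw [h3] at h2 ⊢
      rw [show (θ - θ') * s / 2 = -(-(θ - θ') / 2 * s) by ring, Real.sin_neg, abs_neg,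
        abs_of_nonneg h2]
  rw [this]; ring

lemma lift_exists (m K : ℕ) (hK : 0 < K) [NeZero ((m + 2) * K)] (S : Finset (ZMod ((m + 2) * K)))
    (hS : S.card ≤ m) : ∃ l : ZMod ((m + 2) * K) → ℤ, (∀ c, (l c : ZMod ((m + 2) * K)) = c) ∧
      ∀ c ∈ S, ∀ c' ∈ S, |l c - l c'| ≤ (m + 1) * K := by
  obtain ⟨j, hj, hj'⟩ : ∃ j ∈ Finset.range (m + 2), j ∉ S.image fun c => c.val / K := by
    refine Finset.exists_mem_notMem_of_card_lt_card ?_
    rw [Finset.card_range]
    exact lt_of_le_of_lt (Finset.card_image_le.trans hS) (by omega)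
  rw [Finset.mem_range] at hj
  refine ⟨fun c => if c.val / K < j then ((c.val + (m + 2) * K : ℕ) : ℤ) else (c.val : ℕ),
    fun c => ?_, fun c hc c' hc' => ?_⟩
  · simp only
    split_ifs
    · rw [Int.cast_natCast, Nat.cast_add, ZMod.natCast_self, add_zero, ZMod.natCast_zmod_val]
    · rw [Int.cast_natCast, ZMod.natCast_zmod_val]
  · have key : ∀ c ∈ S, ((j + 1) * K : ℤ) ≤
        (if c.val / K < j then ((c.val + (m + 2) * K : ℕ) : ℤ) else (c.val : ℕ)) ∧
        (if c.val / K < j then ((c.val + (m + 2) * K : ℕ) : ℤ) else (c.val : ℕ)) ≤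
          (m + 2 + j) * K := fun c hc => by
      have hne : c.val / K ≠ j := fun h => hj' (Finset.mem_image.2 ⟨c, hc, h⟩)
      have hlt : c.val < (m + 2) * K := ZMod.val_lt c
      have hK' : (0 : ℤ) < K := by exact_mod_cast hK
      have hj2 : (j : ℤ) < m + 2 := by exact_mod_cast hj
      split_ifs with h
      · have h1 := (Nat.div_lt_iff_lt_mul hK).1 h
        have h2 : (c.val : ℤ) < j * K := by exact_mod_cast h1
        have h3 : (0 : ℤ) ≤ c.val := Int.natCast_nonneg _
        rw [Nat.cast_add, Nat.cast_mul, Nat.cast_add, Nat.cast_ofNat]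
        constructor <;> nlinarith
      · have h1 : j + 1 ≤ c.val / K := by omega
        have h2 := (Nat.le_div_iff_mul_le hK).1 h1
        have h3 : ((j + 1) * K : ℤ) ≤ c.val := by exact_mod_cast h2
        have h4 : (c.val : ℤ) < (m + 2) * K := by exact_mod_cast hlt
        have h5 : (0 : ℤ) ≤ j * K := by positivity
        constructor <;> nlinarith
    have k1 := key c hc
    have k2 := key c' hc'
    simp only
    rw [abs_le]
    constructor <;> nlinarith

lemma sub_shrinks (b : OrthonormalBasis (Fin 2 ⊕ Fin n) ℝ E) (m K : ℕ) (hK : 0 < K)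
    [NeZero ((m + 2) * K)] (L M : ℝ) (hM : Real.pi ≤ M * Real.sin (Real.pi / (m + 2)))
    (I : Finset (Option (Fin n ⊕ ZMod ((m + 2) * K)))) (hI : I.card ≤ m) :
    Shrinks (cfg b L fun c : ZMod ((m + 2) * K) => (Real.exp M : ℂ) * (ZMod.toCircle c : ℂ))
      (cfg b L fun _ => 1) I := by
  classical
  have hp := Real.pi_pos
  have hm : (0 : ℝ) ≤ m := Nat.cast_nonneg m
  have hK' : (0 : ℝ) < K := Nat.cast_pos.2 hK
  have hg : 0 < Real.pi / (m + 2) := by positivity
  have hg' : Real.pi / (m + 2) ≤ Real.pi / 2 := by gcongr; linarith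
  have hs : 0 < Real.sin (Real.pi / (m + 2)) := Real.sin_pos_of_pos_of_lt_pi hg (by linarith)
  have hM0 : 0 < M := by by_contra h; nlinarith
  obtain ⟨l, hl, hl'⟩ := lift_exists m K hK (Finset.univ.filter fun c => some (inr c) ∈ I) (by
    refine le_trans (Finset.card_le_card_of_injOn (fun c => some (inr c)) ?_ ?_) hI
    · intro c hc; simpa using hc
    · intro c _ c' _ h; simpa using h)
  set θ : ZMod ((m + 2) * K) → ℝ := fun c => 2 * Real.pi * l c / ((m + 2) * K) with hθ
  have an : Antitone fun t : unitInterval => Real.exp (M * (1 - t)) := fun s t h => by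
    have : (s : ℝ) ≤ t := h
    simp only
    gcongr
  have an2 : Antitone fun t : unitInterval => √(Real.exp (M * (1 - t)) ^ 2 + L ^ 2) :=
    fun s t h => by
      have := an h
      simp only at this ⊢
      gcongr
  refine ⟨fun i t => cfg b L (fun c => spiral M (θ c) (1 - t)) i, fun i _ => ?_,
    fun i hi j hj => ?_⟩
  · rcases i with _ | k | c
    · exact ⟨continuous_const, rfl, rfl⟩
    · exact ⟨continuous_const, rfl, rfl⟩
    · refine ⟨(cont_J b).comp (by unfold spiral; fun_prop), ?_, ?_⟩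
      · simp only [cfg, spiral]
        congr 1
        rw [← hl c, ZMod.toCircle_intCast, hl c]
        simp only [Set.Icc.coe_zero, sub_zero, mul_one, hθ]
        congr 2; push_cast; ring
      · simp [cfg, spiral]
  · rcases i with _ | k | c <;> rcases j with _ | k' | c'
    · exact fun _ _ _ => le_rfl
    · exact fun _ _ _ => le_rfl
    · simp only [cfg, dist_comm (0 : E), dist_J0, norm_spiral]; exact an
    · exact fun _ _ _ => le_rfl
    · exact fun _ _ _ => le_rfl
    · simp only [cfg, dist_comm (L • b (inr k)), dist_Jr, norm_spiral]; exact an2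
    · simp only [cfg, dist_J0, norm_spiral]; exact an
    · simp only [cfg, dist_Jr, norm_spiral]; exact an2
    · have h := hl' c (by simpa using hi) c' (by simpa using hj)
      have h' : |(l c : ℝ) - l c'| ≤ (m + 1) * K := by exact_mod_cast h
      have ha : |θ c - θ c'| / 2 ≤ Real.pi - Real.pi / (m + 2) := by
        have : θ c - θ c' = 2 * Real.pi / ((m + 2) * K) * (l c - l c') := by
          simp only [hθ]; ring
        rw [this, abs_mul, abs_of_pos (by positivity : 0 < 2 * Real.pi / ((m + 2) * K))]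
        calc _ ≤ 2 * Real.pi / ((m + 2) * K) * ((m + 1) * K) / 2 := by gcongr
          _ = _ := by field_simp; ring
      have mem : ∀ t : unitInterval, 1 - (t : ℝ) ∈ Set.Icc (0 : ℝ) 1 := fun t =>
        ⟨by linarith [t.2.2], by linarith [t.2.1]⟩
      intro s t hst
      have hst' : (s : ℝ) ≤ t := hst
      simp only [cfg, dist_J]
      rw [dist_spiral _ _ _ _ (mem s) (by linarith), dist_spiral _ _ _ _ (mem t) (by linarith)]
      have := mono_sin _ _ M hg hg' (by positivity) ha hM (mem t) (mem s) (by linarith)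
      simp only at this
      linarith

lemma shrinks_equiv {ι κ F : Type} [MetricSpace F] (e : ι ≃ κ) (p q : κ → F) (I : Finset ι)
    (h : Shrinks p q (I.map e.toEmbedding)) : Shrinks (p ∘ e) (q ∘ e) I := by
  obtain ⟨x, h1, h2⟩ := h
  exact ⟨fun i => x (e i), fun i hi => h1 _ (Finset.mem_map_of_mem _ hi),
    fun i hi j hj => h2 _ (Finset.mem_map_of_mem _ hi) _ (Finset.mem_map_of_mem _ hj)⟩

theorem no_helly (d : ℕ) (hd : 2 ≤ d) (m : ℕ) : ¬ IsHellyNumber d m := by
  intro H
  obtain ⟨n, rfl⟩ : ∃ n, d = 2 + n := ⟨d - 2, by omega⟩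
  let b : OrthonormalBasis (Fin 2 ⊕ Fin n) ℝ (EuclideanSpace ℝ (Fin (2 + n))) :=
    (EuclideanSpace.basisFun (Fin (2 + n)) ℝ).reindex finSumFinEquiv.symm
  have hp := Real.pi_pos
  have hm : (0 : ℝ) ≤ m := Nat.cast_nonneg m
  have hg : 0 < Real.pi / (m + 2) := by positivity
  have hg' : Real.pi / (m + 2) ≤ Real.pi / 2 := by gcongr; linarith
  have hs : 0 < Real.sin (Real.pi / (m + 2)) := Real.sin_pos_of_pos_of_lt_pi hg (by linarith)
  set M : ℝ := Real.pi / Real.sin (Real.pi / (m + 2)) with hM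
  have hM0 : 0 ≤ M := by positivity
  obtain ⟨K, hK⟩ := exists_nat_gt (4 * Real.pi * Real.exp M)
  have hKp : (0 : ℝ) < K := lt_trans (by positivity) hK
  have hK0 : 0 < K := Nat.cast_pos.1 hKp
  have : NeZero ((m + 2) * K) := ⟨by positivity⟩
  let e := (Fintype.equivFin (Option (Fin n ⊕ ZMod ((m + 2) * K)))).symm
  have h := H _ _ _ fun I hI => shrinks_equiv e _ _ I
    (sub_shrinks b m K hK0 ((n + 1) * Real.exp M ^ 2) M (by rw [hM, div_mul_cancel₀ _ hs.ne'])
      _ (by rwa [Finset.card_map]))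
  refine not_shrinks b (N := (m + 2) * K) (Real.exp M) (Real.one_le_exp hM0)
    (by push_cast; nlinarith) ?_
  have h2 := shrinks_equiv e.symm _ _ Finset.univ (by rw [Finset.map_univ_equiv]; exact h)
  simpa only [Function.comp_assoc, Equiv.self_comp_symm, Function.comp_id] using h2

end Pool.Agent.Lib.H29.Shrink
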