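import Pool.Agent.Lib.helper29.SigmaDefs

set_option autoImplicit false

namespace Pool.Agent.Lib.H29.Sig

open Complex Filter Topology Set

/-- `(z - s)² / (z - s w)` -/
noncomputable def ff (s w z : ℂ) : ℂ := (z - s) ^ 2 / (z - s * w)

lemma expands_of {Φ F : ℂ → ℂ} {r : ℝ} (hr : 0 < r) (hΦ : DifferentiableOn ℂ Φ (Metric.ball 0 r))
    (h0 : Φ 0 = 1) (hF : ∀ z : ℂ, r⁻¹ < ‖z‖ → F z = z * Φ z⁻¹) :
    Expands F r⁻¹ fun n => ((n + 1).factorial : ℂ)⁻¹ * iteratedDeriv (n + 1) Φ 0 := by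
  intro z hz
  have z0 : z ≠ 0 := by
    rintro rfl
    rw [norm_zero] at hz
    exact absurd hz (not_lt.2 (inv_pos.2 hr).le)
  have hm : z⁻¹ ∈ Metric.ball (0 : ℂ) r := by
    rw [mem_ball_zero_iff, norm_inv]
    exact (inv_lt_comm₀ hr (norm_pos_iff.2 z0)).1 hz
  have h := (hasSum_nat_add_iff' 1).2 (hasSum_taylorSeries_on_ball hΦ hm)
  have h2 := h.mul_left z
  rw [hF z hz]
  have e1 : z * (Φ z⁻¹ - ∑ i ∈ Finset.range 1, ((i.factorial : ℂ))⁻¹ • (z⁻¹ - 0) ^ i •
      iteratedDeriv i Φ 0) = z * Φ z⁻¹ - z := by simp [h0, mul_sub]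
  rw [e1] at h2
  refine h2.congr_fun fun n => ?_
  simp only [sub_zero, smul_eq_mul, pow_succ]
  field_simp

lemma expands_unique {F : ℂ → ℂ} {R R' : ℝ} {A B : ℕ → ℂ} (hA : Expands F R A)
    (hB : Expands F R' B) : A = B := by
  have key : ∀ {R : ℝ} {A : ℕ → ℂ}, Expands F R A → ∀ c, A 0 = c →
      HasFPowerSeriesAt (fun t : ℂ => if t = 0 then c else F t⁻¹ - t⁻¹)
        (FormalMultilinearSeries.ofScalars ℂ A) 0 := by
    intro R A hA c hc
    rw [hasFPowerSeriesAt_iff]
    have : ∀ᶠ t : ℂ in 𝓝 0, ‖t‖ < (|R| + 1)⁻¹ := by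
      have : Metric.ball (0 : ℂ) (|R| + 1)⁻¹ ∈ 𝓝 (0 : ℂ) := Metric.ball_mem_nhds _ (by positivity)
      filter_upwards [this] with t ht using mem_ball_zero_iff.1 ht
    filter_upwards [this] with t ht
    simp only [FormalMultilinearSeries.coeff_ofScalars, zero_add, smul_eq_mul]
    by_cases h0 : t = 0
    · subst h0
      have := hasSum_single (f := fun n => (0 : ℂ) ^ n * A n) 0 (fun n hn => by simp [hn])
      simpa [hc] using this
    · have := hA t⁻¹ (by
        rw [norm_inv]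
        have := (lt_inv_comm₀ (norm_pos_iff.2 h0) (by positivity)).1 ht
        linarith [le_abs_self R])
      simp only [inv_inv] at this
      simpa only [if_neg h0, mul_comm] using this
  have a := key hA _ rfl
  have b := key hB _ rfl
  have e0 : A 0 = B 0 := by
    have ta := a.continuousAt.tendsto.mono_left (nhdsWithin_le_nhds (s := {0}ᶜ))
    have tb := b.continuousAt.tendsto.mono_left (nhdsWithin_le_nhds (s := {0}ᶜ))
    simp only [if_true] at ta tb
    refine tendsto_nhds_unique ta (tb.congr' ?_)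
    filter_upwards [self_mem_nhdsWithin] with t ht
    simp only [if_neg (show t ≠ 0 from ht)]
  rw [← e0] at b
  exact FormalMultilinearSeries.ofScalars_series_injective ℂ ℂ (a.eq_formalMultilinearSeries b)

noncomputable def ww : ℂ := (1 + I) / 2

lemma ww_norm : ‖ww‖ < 1 := by
  have : ‖ww‖ ^ 2 = 1 / 2 := by
    rw [Complex.sq_norm, normSq_apply]; simp [ww]; norm_num
  nlinarith [norm_nonneg ww]

lemma ne_w {s z : ℂ} (hs : ‖s‖ = 1) (hz : 1 < ‖z‖) : z - s * ww ≠ 0 := by
  intro h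
  rw [sub_eq_zero.1 h, norm_mul, hs] at hz
  linarith [ww_norm]

lemma ff_ne {s z : ℂ} (hs : ‖s‖ = 1) (hz : 1 < ‖z‖) : ff s ww z ≠ 0 := by
  refine div_ne_zero (pow_ne_zero _ fun h => ?_) (ne_w hs hz)
  rw [sub_eq_zero.1 h] at hz
  linarith

lemma one_ne {s t : ℂ} (hs : ‖s‖ = 1) (ht : ‖t‖ < 1) : 1 - s * ww * t ≠ 0 := by
  intro h
  have := congrArg norm (sub_eq_zero.1 h)
  rw [norm_one, norm_mul, norm_mul, hs] at this
  nlinarith [ww_norm, norm_nonneg ww, norm_nonneg t]

lemma inj_aux {a b : ℂ} (ha : 1 < ‖a‖) (hb : 1 < ‖b‖) : (a - ww) * (b - ww) ≠ (1 - ww) ^ 2 := by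
  intro h
  have e : b * (a - ww) = ww * a - I := by
    have : 1 - 2 * ww = -I := by simp [ww]; ring
    linear_combination h + this
  have e2 := congrArg normSq e
  rw [normSq_mul] at e2
  have h1 : 1 < normSq a := by rw [← Complex.sq_norm]; nlinarith
  have h2 : 1 < normSq b := by rw [← Complex.sq_norm]; nlinarith
  have e3 : normSq (ww * a - I) = normSq (a - ww) + (1 - normSq a) / 2 := by
    simp [normSq_apply, ww]; ring
  nlinarith [normSq_nonneg (a - ww)]

lemma ff_sigma {s : ℂ} (hs : s = 1 ∨ s = -1) : InSigma (ff s ww) := by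
  have hn : ‖s‖ = 1 := by rcases hs with rfl | rfl <;> simp
  refine ⟨fun z hz => ?_, fun a ha b hb h => ?_, ?_⟩
  · have := ne_w hn hz
    unfold ff
    fun_prop (disch := assumption)
  · by_contra hne
    unfold ff at h
    rw [div_eq_div_iff (ne_w hn ha) (ne_w hn hb)] at h
    have e : (a - b) * ((a - s * ww) * (b - s * ww) - (s - s * ww) ^ 2) = 0 := by
      linear_combination h
    have e2 := sub_eq_zero.1 ((mul_eq_zero.1 e).resolve_left (sub_ne_zero.2 hne))
    rcases hs with rfl | rfl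
    · exact inj_aux ha hb (by simpa using e2)
    · exact inj_aux (a := -a) (b := -b) (by simpa using ha) (by simpa using hb)
        (by linear_combination e2)
  · have := expands_of (Φ := fun t => (1 - s * t) ^ 2 / (1 - s * ww * t)) (F := ff s ww) one_pos
      (fun t ht => by
        have := one_ne hn (mem_ball_zero_iff.1 ht)
        apply DifferentiableAt.differentiableWithinAt
        fun_prop (disch := assumption)) (by simp) (fun z hz => by
        rw [inv_one] at hz
        have z0 : z ≠ 0 := by rintro rfl; norm_num at hz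
        have := ne_w hn hz
        have e : 1 - s * ww * z⁻¹ = (z - s * ww) / z := by field_simp
        unfold ff
        rw [e]
        field_simp)
    rw [inv_one] at this
    exact ⟨_, this⟩

noncomputable def P (s t : ℂ) : ℂ := (1 - s * t) ^ 2 / (1 - s * ww * t)
noncomputable def hf : ℂ := ((1 / 2 : ℝ) : ℂ)
noncomputable def Φ (t : ℂ) : ℂ := P 1 t ^ hf * P (-1) t ^ hf
noncomputable def L (t : ℂ) : ℂ :=
  (-2 / (1 - t) + ww / (1 - ww * t) + 2 / (1 + t) - ww / (1 + ww * t)) / 2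

lemma P_ev (s : ℂ) : ∀ᶠ t in 𝓝 (0 : ℂ), P s t ∈ slitPlane := by
  have : ContinuousAt (P s) 0 := by
    unfold P
    fun_prop (disch := simp)
  exact this.eventually (isOpen_slitPlane.mem_nhds (by simp [P]))

lemma Φ_deriv : ∀ᶠ t in 𝓝 (0 : ℂ), HasDerivAt Φ (Φ t * L t) t := by
  have hb : ∀ᶠ t : ℂ in 𝓝 0, ‖t‖ < 1 := by
    filter_upwards [Metric.ball_mem_nhds (0 : ℂ) one_pos] with t ht using mem_ball_zero_iff.1 ht
  filter_upwards [P_ev 1, P_ev (-1), hb] with t h1 h2 ht
  have a1 := one_ne (s := 1) (by simp) ht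
  have a2 := one_ne (s := -1) (by simp) ht
  have dP : ∀ s, 1 - s * ww * t ≠ 0 → HasDerivAt (P s)
      ((2 * (1 - s * t) * (-s) * (1 - s * ww * t) - (1 - s * t) ^ 2 * (-(s * ww))) /
        (1 - s * ww * t) ^ 2) t := by
    intro s hs
    refine (((((hasDerivAt_id' t).const_mul s).const_sub 1).fun_pow 2).fun_div
      (((hasDerivAt_id' t).const_mul (s * ww)).const_sub 1) hs).congr_deriv ?_
    simp
  have n1 := slitPlane_ne_zero h1
  have n2 := slitPlane_ne_zero h2
  have b1 : 1 - t ≠ 0 := by intro h; apply n1; simp [P, h]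
  have b2 : 1 + t ≠ 0 := by intro h; apply n2; simp [P, h]
  refine (((dP 1 a1).cpow_const (c := hf) h1).fun_mul
    ((dP (-1) a2).cpow_const (c := hf) h2)).congr_deriv ?_
  rw [cpow_sub _ _ n1, cpow_sub _ _ n2, cpow_one, cpow_one]
  have e : hf = 1 / 2 := by simp [hf]
  simp only [Φ, L]
  generalize P 1 t ^ hf = X
  generalize P (-1) t ^ hf = Y
  rw [e]
  simp only [P, one_mul, neg_mul, sub_neg_eq_add] at a1 a2 ⊢
  have a3 : 1 - t * ww ≠ 0 := by rwa [mul_comm]
  have a4 : 1 + t * ww ≠ 0 := by rwa [mul_comm]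
  field_simp
  ring

lemma Φ_zero : Φ 0 = 1 := by simp [Φ, P]

lemma Φ_two : iteratedDeriv 2 Φ 0 = -2 + ww ^ 2 := by
  rw [iteratedDeriv_succ, iteratedDeriv_one]
  have e : deriv Φ =ᶠ[𝓝 0] fun t => Φ t * L t := Φ_deriv.mono fun t ht => ht.deriv
  rw [e.deriv_eq]
  have i := hasDerivAt_id' (0 : ℂ)
  have dL : HasDerivAt L (-2 + ww ^ 2) 0 := by
    refine ((((((hasDerivAt_const (0 : ℂ) (-2 : ℂ)).fun_div (i.const_sub 1) (by simp)).fun_add
      ((hasDerivAt_const (0 : ℂ) ww).fun_div ((i.const_mul ww).const_sub 1) (by simp))).fun_add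
      ((hasDerivAt_const (0 : ℂ) (2 : ℂ)).fun_div (i.const_add 1) (by simp))).fun_sub
      ((hasDerivAt_const (0 : ℂ) ww).fun_div ((i.const_mul ww).const_add 1)
        (by simp))).div_const 2).congr_deriv ?_
    simp; ring
  rw [(Φ_deriv.self_of_nhds.fun_mul dL).deriv, Φ_zero]
  simp [L]

theorem main : ∃ (R : ℝ) (A : ℕ → ℂ), Expands (geoMean (1 / 2) (ff 1 ww) (ff (-1) ww)) R A ∧
    A 1 = -1 + I / 4 := by
  obtain ⟨r, hr, h⟩ := Metric.eventually_nhds_iff_ball.1 Φ_deriv
  refine ⟨(min r 1)⁻¹, _, expands_of (Φ := Φ) (lt_min hr one_pos) (fun t ht =>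
    (h t (Metric.ball_subset_ball (min_le_left _ _) ht)).differentiableAt.differentiableWithinAt)
    Φ_zero fun z hz => ?_, ?_⟩
  · have h1 : 1 < ‖z‖ := lt_of_le_of_lt
      ((one_le_inv₀ (lt_min hr one_pos)).2 (min_le_right _ _)) hz
    have z0 : z ≠ 0 := by rintro rfl; norm_num at h1
    have e : ∀ s : ℂ, ‖s‖ = 1 → ff s ww z / z = P s z⁻¹ := by
      intro s hs
      have := ne_w hs h1
      have e : 1 - s * ww * z⁻¹ = (z - s * ww) / z := by field_simp
      unfold ff P
      rw [e]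
      field_simp
    rw [geoMean, e 1 (by simp), e (-1) (by simp), Φ, hf, mul_assoc]
    norm_num
  · rw [Φ_two]
    simp [ww, Nat.factorial]
    linear_combination (1 / 8) * I_mul_I

end Pool.Agent.Lib.H29.Sig
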