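import Mathlib

set_option autoImplicit false

namespace Pool.Agent.Lib.H29.Sig

/-- `F(z) = z + ∑ A n z^(-n)` for all `|z| > R`. -/
def Expands (F : ℂ → ℂ) (R : ℝ) (A : ℕ → ℂ) : Prop :=
  ∀ z : ℂ, R < ‖z‖ → HasSum (fun n => A n * (z⁻¹) ^ n) (F z - z)

/-- The class `Σ`: analytic and injective on `|z| > 1` with expansion `z + ∑ b n z^(-n)` there. -/
def InSigma (f : ℂ → ℂ) : Prop :=
  AnalyticOnNhd ℂ f {z | 1 < ‖z‖} ∧ Set.InjOn f {z | 1 < ‖z‖} ∧ ∃ b, Expands f 1 b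

/-- `z (f(z)/z)^(1-α) (g(z)/z)^α` with principal powers (the branches equal to `1` at infinity,
for large `|z|`). -/
noncomputable def geoMean (α : ℝ) (f g : ℂ → ℂ) (z : ℂ) : ℂ :=
  z * (f z / z) ^ ((1 - α : ℝ) : ℂ) * (g z / z) ^ (α : ℂ)

end Pool.Agent.Lib.H29.Sig
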