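import Mathlib

set_option autoImplicit false

namespace Pool.Agent.Lib.H29.Spin

open Complex Filter Topology Set
open scoped Real

lemma exists_log {E : Type} [NormedAddCommGroup E] [NormedSpace ℝ E] (H : E → ℂ)
    (hc : Continuous H) (h0 : ∀ x, H x ≠ 0) (a : E) (e : ℂ) (he : exp e = H a) :
    ∃ φ : E → ℂ, Continuous φ ∧ φ a = e ∧ ∀ x, exp (φ x) = H x := by
  obtain ⟨F, ⟨h1, h2⟩, -⟩ := Complex.isCoveringMapOn_exp.existsUnique_continuousMap_lifts
    (⟨H, hc⟩ : C(E, ℂ)) (a₀ := a) (e₀ := e) he (fun x => h0 x)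
  exact ⟨F, F.continuous, h1, fun x => congrFun h2 x⟩

lemma log_unique {X : Type} [TopologicalSpace X] {s : Set X} (hs : IsPreconnected s)
    {φ ψ : X → ℂ} (hφ : ContinuousOn φ s) (hψ : ContinuousOn ψ s)
    (h : ∀ x ∈ s, exp (φ x) = exp (ψ x)) :
    ∃ n : ℤ, ∀ x ∈ s, φ x = ψ x + n * (2 * π * I) := by
  rcases s.eq_empty_or_nonempty with rfl | ⟨a, ha⟩
  · exact ⟨0, by simp⟩
  obtain ⟨n, hn⟩ := exp_eq_exp_iff_exists_int.1 (h a ha)
  refine ⟨n, ?_⟩
  have := Complex.isCoveringMap_exp.eqOn_of_comp_eqOn hs hφ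
    (g₂ := fun x => ψ x + n * (2 * π * I)) (hψ.add continuousOn_const) ?_ ha hn
  · exact this
  · intro x hx
    simp only [Function.comp]
    apply Subtype.ext
    simp only
    rw [h x hx, exp_add, exp_int_mul_two_pi_mul_I, mul_one]

lemma log_unique' {X : Type} [TopologicalSpace X] [PreconnectedSpace X]
    {φ ψ : X → ℂ} (hφ : Continuous φ) (hψ : Continuous ψ)
    (h : ∀ x, exp (φ x) = exp (ψ x)) :
    ∃ n : ℤ, ∀ x, φ x = ψ x + n * (2 * π * I) := by
  obtain ⟨n, hn⟩ := log_unique isPreconnected_univ hφ.continuousOn hψ.continuousOn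
    (fun x _ => h x)
  exact ⟨n, fun x => hn x (mem_univ _)⟩

lemma tpi_ne : (2 * π * I : ℂ) ≠ 0 := two_pi_I_ne_zero

/-- A path going to infinity whose argument stays bounded. -/
def Tame (γ : ℝ → ℂ) : Prop :=
  Tendsto (fun t => ‖γ t‖) atTop atTop ∧
    ∃ (t0 C : ℝ) (φ : ℝ → ℂ), ContinuousOn φ (Ici t0) ∧
      ∀ t, t0 ≤ t → exp (φ t) = γ t ∧ |(φ t).im| ≤ C

lemma Tame.add {γ : ℝ → ℂ} (h : Tame γ) (c : ℂ) : Tame fun t => γ t + c := by
  obtain ⟨h1, t0, C, φ, hφ, h2⟩ := h
  refine ⟨?_, ?_⟩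
  · refine tendsto_atTop_mono (fun t => ?_) (tendsto_atTop_add_const_right _ (-‖c‖) h1)
    have := norm_sub_le (γ t + c) c
    rw [add_sub_cancel_right] at this
    linarith
  · obtain ⟨t1, ht1⟩ := eventually_atTop.1 (h1.eventually_gt_atTop ‖c‖)
    have hsl : ∀ t, max t0 t1 ≤ t → 1 + c * exp (-φ t) ∈ slitPlane := by
      intro t ht
      apply mem_slitPlane_of_norm_lt_one
      have e1 := (h2 t (le_trans (le_max_left _ _) ht)).1
      have e2 := ht1 t (le_trans (le_max_right _ _) ht)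
      rw [exp_neg, e1, norm_mul, norm_inv, ← div_eq_mul_inv, div_lt_one
        (lt_of_le_of_lt (norm_nonneg _) e2)]
      exact e2
    have hφ' : ContinuousOn φ (Ici (max t0 t1)) := hφ.mono (Ici_subset_Ici.2 (le_max_left _ _))
    refine ⟨max t0 t1, C + π, fun t => φ t + log (1 + c * exp (-φ t)), ?_, fun t ht => ⟨?_, ?_⟩⟩
    · refine hφ'.add (ContinuousOn.clog ?_ hsl)
      exact continuousOn_const.add (continuousOn_const.mul hφ'.neg.cexp)
    · have e1 := (h2 t (le_trans (le_max_left _ _) ht)).1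
      rw [exp_add, exp_log (slitPlane_ne_zero (hsl t ht)), mul_add, mul_one, mul_left_comm,
        ← exp_add, add_neg_cancel, exp_zero, mul_one, e1]
    · have e1 := (h2 t (le_trans (le_max_left _ _) ht)).2
      rw [add_im, log_im]
      exact (abs_add_le _ _).trans (add_le_add e1 (abs_arg_le_pi _))

lemma Tame.neg {γ : ℝ → ℂ} (h : Tame γ) : Tame fun t => -γ t := by
  obtain ⟨h1, t0, C, φ, hφ, h2⟩ := h
  refine ⟨by simpa using h1, t0, C + π, fun t => φ t + π * I, hφ.add continuousOn_const,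
    fun t ht => ⟨?_, ?_⟩⟩
  · rw [exp_add, exp_pi_mul_I, (h2 t ht).1]; ring
  · rw [add_im]
    refine (abs_add_le _ _).trans (add_le_add (h2 t ht).2 ?_)
    simp [abs_of_pos Real.pi_pos]

lemma tame_half {γ : ℝ → ℂ} (hc : Continuous γ) (h1 : Tendsto (fun t => ‖γ t‖) atTop atTop)
    {c : ℝ} (h : ∀ t, 0 ≤ t → c ≤ (γ t).re) : Tame γ := by
  have key : Tame fun t => γ t + ((1 - c : ℝ) : ℂ) := by
    have hsl : ∀ t, 0 ≤ t → γ t + ((1 - c : ℝ) : ℂ) ∈ slitPlane := by
      intro t ht
      left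
      have := h t ht
      rw [add_re, ofReal_re]
      linarith
    refine ⟨?_, 0, π, fun t => log (γ t + ((1 - c : ℝ) : ℂ)), ?_, fun t ht => ⟨?_, ?_⟩⟩
    · refine tendsto_atTop_mono (fun t => ?_)
        (tendsto_atTop_add_const_right _ (-‖((1 - c : ℝ) : ℂ)‖) h1)
      have := norm_sub_le (γ t + ((1 - c : ℝ) : ℂ)) ((1 - c : ℝ) : ℂ)
      rw [add_sub_cancel_right] at this
      linarith
    · exact ContinuousOn.clog (hc.add continuous_const).continuousOn hsl
    · exact exp_log (slitPlane_ne_zero (hsl t ht))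
    · rw [log_im]; exact abs_arg_le_pi _
  simpa only [add_neg_cancel_right] using key.add (-((1 - c : ℝ) : ℂ))

/-- The map preserves tame paths. -/
def Good (F : ℂ → ℂ) : Prop := ∀ γ, Tame γ → Tame fun t => F (γ t)

lemma shift_int {φ : ℂ → ℂ} {d : ℤ} (h : ∀ w, φ (w + 2 * π * I) = φ w + d * (2 * π * I))
    (k : ℤ) (w : ℂ) : φ (w + k * (2 * π * I)) = φ w + (d * k : ℤ) * (2 * π * I) := by
  induction k using Int.induction_on with
  | zero => simp
  | succ i hi =>
    have := h (w + (i : ℤ) * (2 * π * I))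
    rw [hi] at this
    push_cast at this ⊢
    rw [show w + ((i : ℂ) + 1) * (2 * π * I) = w + i * (2 * π * I) + 2 * π * I by ring, this]
    ring
  | pred i hi =>
    have := h (w + ((-(i : ℤ) - 1 : ℤ) : ℂ) * (2 * π * I))
    push_cast at this hi ⊢
    rw [show w + (-(i : ℂ) - 1) * (2 * π * I) + 2 * π * I = w + -(i : ℂ) * (2 * π * I) by ring,
      hi] at this
    linear_combination -this

lemma tendsto_norm_of_inv {F G : ℂ → ℂ} (hG : Continuous G) (hGF : ∀ z, G (F z) = z)
    {γ : ℝ → ℂ} (h : Tendsto (fun t => ‖γ t‖) atTop atTop) :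
    Tendsto (fun t => ‖F (γ t)‖) atTop atTop := by
  rw [tendsto_atTop]
  intro b
  obtain ⟨M, hM⟩ := (isCompact_closedBall (0 : ℂ) b).exists_bound_of_continuousOn
    hG.continuousOn
  filter_upwards [h.eventually_gt_atTop M] with t ht
  by_contra hb
  have := hM (F (γ t)) (by simpa using (not_le.1 hb).le)
  rw [hGF] at this
  linarith

theorem core {F G : ℂ → ℂ} (hF : Continuous F) (hG : Continuous G) (hGF : ∀ z, G (F z) = z)
    (hFG : ∀ z, F (G z) = z) (h0 : F 0 = 0) {u : ℂ} (hu : u ≠ 0)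
    (hray : Tame fun t : ℝ => F (t * u)) : Good F := by
  have hG0 : G 0 = 0 := by rw [← h0, hGF, h0]
  have nF : ∀ w, F (exp w) ≠ 0 := fun w hw => exp_ne_zero w (by rw [← hGF (exp w), hw, hG0])
  have nG : ∀ w, G (exp w) ≠ 0 := fun w hw => exp_ne_zero w (by rw [← hFG (exp w), hw, h0])
  obtain ⟨f, fc, -, hf⟩ := exists_log (fun w => F (exp w)) (hF.comp continuous_exp) nF 0
    (log (F (exp 0))) (exp_log (nF 0))
  obtain ⟨g, gc, g0, hg⟩ := exists_log (fun w => G (exp w)) (hG.comp continuous_exp) nG (f 0)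
    0 (by rw [hf, hGF])
  have gf : ∀ w, g (f w) = w := by
    obtain ⟨n, hn⟩ := log_unique' (φ := fun w => g (f w)) (ψ := fun w => w) (gc.comp fc)
      continuous_id (fun w => by rw [hg, hf, hGF])
    have := hn 0
    rw [g0, zero_add] at this
    intro w
    rw [hn w, ← this, add_zero]
  have fg : ∀ w, f (g w) = w := by
    obtain ⟨n, hn⟩ := log_unique' (φ := fun w => f (g w)) (ψ := fun w => w) (fc.comp gc)
      continuous_id (fun w => by rw [hf, hg, hFG])
    have := hn (f 0)
    rw [g0] at this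
    have e : (n : ℂ) * (2 * π * I) = 0 := by linear_combination -this
    intro w
    rw [hn w, e, add_zero]
  obtain ⟨d, hd⟩ := log_unique' (φ := fun w => f (w + 2 * π * I)) (ψ := f) (by fun_prop) fc
    (fun w => by rw [hf, hf, exp_add, exp_two_pi_mul_I, mul_one])
  obtain ⟨d', hd'⟩ := log_unique' (φ := fun w => g (w + 2 * π * I)) (ψ := g) (by fun_prop) gc
    (fun w => by rw [hg, hg, exp_add, exp_two_pi_mul_I, mul_one])
  have hdd : d * d' = 1 := by
    have e1 := fg (0 + 2 * π * I)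
    rw [hd', shift_int hd, fg] at e1
    have e2 : (((d * d' : ℤ) : ℂ) - 1) * (2 * π * I) = 0 := by linear_combination e1
    have e3 := (mul_eq_zero.1 e2).resolve_right tpi_ne
    exact_mod_cast sub_eq_zero.1 e3
  obtain ⟨-, t0, C, η, hη, hray⟩ := hray
  set w0 := log u with hw0
  have hu' : exp w0 = u := exp_log hu
  set x0 := Real.log (max t0 1) with hx0
  have hx : ∀ x, x0 ≤ x → t0 ≤ Real.exp x := by
    intro x hx
    have : Real.exp x0 = max t0 1 := Real.exp_log (lt_of_lt_of_le one_pos (le_max_right _ _))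
    exact (le_max_left _ _).trans (this ▸ Real.exp_le_exp.2 hx)
  have hfx : ∀ x : ℝ, exp (f (x + w0)) = F ((Real.exp x : ℝ) * u) := by
    intro x
    rw [hf, exp_add, hu', ofReal_exp]
  obtain ⟨n, hn⟩ := log_unique (s := Ici x0) isPreconnected_Ici
    (φ := fun x : ℝ => f (x + w0)) (ψ := fun x => η (Real.exp x)) (by fun_prop)
    (hη.comp Real.continuous_exp.continuousOn fun x h => hx x h)
    (fun x h => by rw [hfx, (hray _ (hx x h)).1])
  obtain ⟨B, hB⟩ := (isCompact_closedBall (0 : ℂ) (Real.exp x0 * ‖u‖)).exists_bound_of_continuousOn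
    hF.continuousOn
  have hpi := Real.pi_pos
  have claim : ∀ w, B < ‖F (exp w)‖ →
      |(f w).im| ≤ |w.im| + (|w0.im| + 4 * π + (C + |(n : ℝ) * (2 * π)|)) := by
    intro w hw
    have pc : Continuous fun s : ℝ => (g (f w + s * I)).im := by fun_prop
    have p0 : (g (f w + (0 : ℝ) * I)).im = w.im := by simp [gf]
    have p1 : (g (f w + (2 * π : ℝ) * I)).im = w.im + d' * (2 * π) := by
      push_cast
      rw [hd', gf]
      simp
    obtain ⟨k, hk⟩ : ∃ k : ℤ, w0.im + k * (2 * π) ∈ uIcc w.im (w.im + d' * (2 * π)) := by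
      rcases Int.eq_one_or_neg_one_of_mul_eq_one' hdd with ⟨-, e⟩ | ⟨-, e⟩
      · refine ⟨⌈(w.im - w0.im) / (2 * π)⌉, mem_uIcc.2 (Or.inl ⟨?_, ?_⟩)⟩
        · have := Int.le_ceil ((w.im - w0.im) / (2 * π))
          rw [div_le_iff₀ (by positivity)] at this
          linarith
        · have := Int.ceil_lt_add_one ((w.im - w0.im) / (2 * π))
          rw [← sub_lt_iff_lt_add, lt_div_iff₀ (by positivity)] at this
          rw [e]; push_cast; linarith
      · refine ⟨⌊(w.im - w0.im) / (2 * π)⌋, mem_uIcc.2 (Or.inr ⟨?_, ?_⟩)⟩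
        · have := Int.lt_floor_add_one ((w.im - w0.im) / (2 * π))
          rw [div_lt_iff₀ (by positivity)] at this
          rw [e]; push_cast; linarith
        · have := Int.floor_le ((w.im - w0.im) / (2 * π))
          rw [le_div_iff₀ (by positivity)] at this
          linarith
    have hk' : |(k : ℝ) * (2 * π)| ≤ |w.im| + |w0.im| + 2 * π := by
      have a1 := le_abs_self w.im
      have a2 := neg_abs_le w.im
      have a3 := le_abs_self w0.im
      have a4 := neg_abs_le w0.im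
      rcases Int.eq_one_or_neg_one_of_mul_eq_one' hdd with ⟨-, e⟩ | ⟨-, e⟩ <;>
      · rw [e] at hk
        push_cast at hk
        rcases mem_uIcc.1 hk with ⟨b1, b2⟩ | ⟨b1, b2⟩ <;> (rw [abs_le]; constructor <;> linarith)
    rw [← p1, ← p0] at hk
    obtain ⟨s, hs, hs'⟩ := intermediate_value_uIcc pc.continuousOn hk
    simp only at hs'
    rw [uIcc_of_le (by positivity)] at hs
    set v := g (f w + s * I) with hv
    set x := v.re - w0.re with hxdef
    have ev : v = x + w0 + k * (2 * π * I) := by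
      apply Complex.ext <;> simp [hxdef, hs']
    have e1 : f w + s * I = f (x + w0) + (d * k : ℤ) * (2 * π * I) := by
      rw [← shift_int hd, ← ev, hv, fg]
    have e2 : (f w).re = (f (x + w0)).re := by
      have := congrArg re e1
      simpa using this
    have e3 : (f w).im + s = (f (x + w0)).im + (d * k : ℤ) * (2 * π) := by
      have := congrArg im e1
      simpa using this
    have hxx : x0 ≤ x := by
      by_contra hlt
      have b1 := hB ((Real.exp x : ℝ) * u) (by
        rw [mem_closedBall_zero_iff, norm_mul, norm_real, Real.norm_eq_abs,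
          abs_of_pos (Real.exp_pos _)]
        exact mul_le_mul_of_nonneg_right (Real.exp_le_exp.2 (not_le.1 hlt).le) (norm_nonneg _))
      rw [← hfx, norm_exp, ← e2, ← norm_exp, hf] at b1
      linarith
    have e4 : (f (x + w0)).im = (η (Real.exp x)).im + n * (2 * π) := by
      have := congrArg im (hn x hxx)
      simpa using this
    have e5 := (hray _ (hx x hxx)).2
    have e6 : |((d * k : ℤ) : ℝ) * (2 * π)| = |(k : ℝ) * (2 * π)| := by
      rcases Int.eq_one_or_neg_one_of_mul_eq_one' hdd with ⟨e, -⟩ | ⟨e, -⟩ <;> simp [e]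
    have e7 : (f w).im = (η (Real.exp x)).im + n * (2 * π) + (d * k : ℤ) * (2 * π) - s := by
      linarith
    rw [e7]
    have a1 := abs_le.1 e5
    have a2 := abs_le.1 (e6.le.trans hk')
    have a3 := le_abs_self ((n : ℝ) * (2 * π))
    have a4 := neg_abs_le ((n : ℝ) * (2 * π))
    rw [abs_le]
    constructor <;> linarith [hs.1, hs.2]
  rintro γ ⟨h1, t1, C1, φ, hφ, h2⟩
  have h3 := tendsto_norm_of_inv hG hGF h1
  obtain ⟨t2, ht2⟩ := eventually_atTop.1 (h3.eventually_gt_atTop B)
  refine ⟨h3, max t1 t2, C1 + (|w0.im| + 4 * π + (C + |(n : ℝ) * (2 * π)|)), fun t => f (φ t),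
    fc.comp_continuousOn (hφ.mono (Ici_subset_Ici.2 (le_max_left _ _))), fun t ht => ?_⟩
  have e1 := h2 t (le_trans (le_max_left _ _) ht)
  refine ⟨by rw [hf, e1.1], (claim _ ?_).trans (by linarith [e1.2])⟩
  rw [e1.1]
  exact ht2 t (le_trans (le_max_right _ _) ht)

theorem core' {F G : ℂ → ℂ} (hF : Continuous F) (hG : Continuous G) (hGF : ∀ z, G (F z) = z)
    (hFG : ∀ z, F (G z) = z) (a : ℂ) {u : ℂ} (hu : u ≠ 0)
    (hray : Tame fun t : ℝ => F (a + t * u)) : Good F := by
  have := core (F := fun z => F (z + a) + -F a) (G := fun z => G (z + F a) - a) (by fun_prop)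
    (by fun_prop) (fun z => by simp [hGF]) (fun z => by simp [hFG]) (by simp) hu
    (by simpa [add_comm] using hray.add (-F a))
  intro γ hγ
  simpa using (this _ (hγ.add (-a))).add (F a)

end Pool.Agent.Lib.H29.Spin
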