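import Pool.Agent.Lib.helper29.Spin1

set_option autoImplicit false

namespace Pool.Agent.Lib.H29.Spin

open Complex Filter Topology Set
open scoped Real

/-- Preimages of bounded sets are bounded. -/
def Prp (F : ℂ → ℂ) : Prop := ∀ b : ℝ, ∃ M : ℝ, ∀ z, ‖F z‖ ≤ b → ‖z‖ ≤ M

theorem surj {F : ℂ → ℂ} (hF : Continuous F) (hi : Function.Injective F) (hp : Prp F) :
    Function.Surjective F := by
  intro q
  by_contra hq
  push Not at hq
  obtain ⟨M, hM⟩ := hp (‖q‖ + ‖F 0‖)
  set r : ℝ := |M| + 1 with hr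
  have r0 : 0 < r := by positivity
  set c : ℝ → ℝ := fun s => max 0 (min s 1) with hc
  have cc : Continuous c := by fun_prop
  have c0 : ∀ s, s ≤ 0 → c s = 0 := fun s hs => max_eq_left ((min_le_left _ _).trans hs)
  have c1 : ∀ s, 1 ≤ s → c s = 1 := fun s hs => by simp [hc, hs]
  have cl : ∀ s, 0 ≤ c s := fun s => le_max_left _ _
  have cu : ∀ s, c s ≤ 1 := fun s => max_le zero_le_one (min_le_right _ _)
  set H : ℝ × ℝ → ℂ := fun p => F (c p.2 * (r * exp (p.1 * I))) -
    (c (2 - p.2) * q + (1 - c (2 - p.2)) * F (-(c (p.2 - 2) * (r * exp (p.1 * I))))) with hH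
  have Hc : Continuous H := by
    have : Continuous fun s => (c s : ℂ) := continuous_ofReal.comp cc
    fun_prop
  have nz : ∀ θ : ℝ, ‖r * exp (θ * I)‖ = r := by
    intro θ
    rw [norm_mul, norm_exp_ofReal_mul_I, mul_one, norm_real, Real.norm_eq_abs, abs_of_pos r0]
  have H0 : ∀ p, H p ≠ 0 := by
    rintro ⟨θ, s⟩ h
    simp only [hH, sub_eq_zero] at h
    rcases le_total s 1 with h1 | h1
    · rw [c1 (2 - s) (by linarith)] at h
      exact hq _ (by simpa using h)
    rw [c1 s h1] at h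
    rcases le_total s 2 with h2 | h2
    · rw [c0 (s - 2) (by linarith)] at h
      simp only [ofReal_one, one_mul, ofReal_zero, zero_mul, neg_zero] at h
      have b : ‖F (r * exp (θ * I))‖ ≤ ‖q‖ + ‖F 0‖ := by
        rw [h]
        refine (norm_add_le _ _).trans (add_le_add ?_ ?_)
        · rw [norm_mul, norm_real, Real.norm_eq_abs, abs_of_nonneg (cl _)]
          exact mul_le_of_le_one_left (norm_nonneg _) (cu _)
        · rw [norm_mul, ← ofReal_one, ← ofReal_sub, norm_real, Real.norm_eq_abs,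
            abs_of_nonneg (sub_nonneg.2 (cu _))]
          exact mul_le_of_le_one_left (norm_nonneg _) (by linarith [cl (2 - s)])
      have := hM _ b
      rw [nz] at this
      linarith [le_abs_self M]
    · rw [c0 (2 - s) (by linarith)] at h
      simp only [ofReal_one, one_mul, ofReal_zero, zero_mul, zero_add, sub_zero] at h
      have e := hi h
      have e2 : ((1 + c (s - 2) : ℝ) : ℂ) * (r * exp (θ * I)) = 0 := by
        push_cast; linear_combination e
      rcases mul_eq_zero.1 e2 with e3 | e3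
      · have := ofReal_eq_zero.1 e3
        linarith [cl (s - 2)]
      · have := nz θ
        rw [e3, norm_zero] at this
        linarith
  obtain ⟨φ, φc, -, hφ⟩ := exists_log H Hc H0 0 (log (H 0)) (exp_log (H0 0))
  obtain ⟨d, hd⟩ := log_unique' (φ := fun p : ℝ × ℝ => φ (p.1 + 2 * π, p.2)) (ψ := φ)
    (by fun_prop) φc (fun p => by
      rw [hφ, hφ]
      simp only [hH]
      rw [show ((p.1 + 2 * π : ℝ) : ℂ) * I = p.1 * I + 2 * π * I by push_cast; ring, exp_add,
        exp_two_pi_mul_I, mul_one])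
  obtain ⟨n, hn⟩ := log_unique' (φ := fun θ : ℝ => φ (θ, 0)) (ψ := fun _ => φ (0, 0))
    (by fun_prop) continuous_const (fun θ => by
      rw [hφ, hφ]
      simp only [hH]
      rw [c0 0 le_rfl, c0 (0 - 2) (by norm_num)]
      simp)
  obtain ⟨j, hj⟩ := log_unique' (φ := fun θ : ℝ => φ (θ + π, 3))
    (ψ := fun θ => φ (θ, 3) + π * I) (by fun_prop) (by fun_prop) (fun θ => by
      rw [exp_add, hφ, hφ, exp_pi_mul_I]
      simp only [hH]
      rw [c1 3 (by norm_num), c0 (2 - 3) (by norm_num), c1 (3 - 2) (by norm_num),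
        show ((θ + π : ℝ) : ℂ) * I = θ * I + π * I by push_cast; ring, exp_add, exp_pi_mul_I]
      simp)
  have a1 := hd (0, 0)
  have a2 := hn (0 + 2 * π)
  have a3 := hn 0
  have a4 := hd (0, 3)
  have a5 := hj 0
  have a6 := hj (0 + π)
  simp only at a1 a2 a3 a4 a5 a6
  rw [show (0 : ℝ) + π + π = 0 + 2 * π by ring] at a6
  have e : ((2 * j + 1 : ℤ) : ℂ) * (2 * π * I) = 0 := by
    push_cast
    linear_combination -a6 - a5 + a4 - a1 + a2 - a3
  have e3 := (mul_eq_zero.1 e).resolve_right tpi_ne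
  have e4 : 2 * j + 1 = 0 := by exact_mod_cast e3
  omega

theorem exists_inv {F : ℂ → ℂ} (hF : Continuous F) (hi : Function.Injective F) (hp : Prp F) :
    ∃ G : ℂ → ℂ, Continuous G ∧ (∀ z, G (F z) = z) ∧ ∀ z, F (G z) = z := by
  have hpr : IsProperMap F := by
    rw [isProperMap_iff_isCompact_preimage]
    refine ⟨hF, fun K hK => ?_⟩
    obtain ⟨b, hb⟩ := hK.isBounded.exists_norm_le
    obtain ⟨M, hM⟩ := hp b
    exact Metric.isCompact_of_isClosed_isBounded (hK.isClosed.preimage hF)
      (isBounded_iff_forall_norm_le.2 ⟨M, fun z hz => hM z (hb _ hz)⟩)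
  let e := (Equiv.ofBijective F ⟨hi, surj hF hi hp⟩).toHomeomorphOfContinuousClosed hF
    hpr.isClosedMap
  exact ⟨e.symm, e.symm.continuous, e.symm_apply_apply, e.apply_symm_apply⟩

/-- Some ray is sent into a vertical half-plane. -/
def Ray (F : ℂ → ℂ) : Prop :=
  ∃ (a u : ℂ) (c : ℝ), u ≠ 0 ∧
    ((∀ t : ℝ, 0 ≤ t → c ≤ (F (a + t * u)).re) ∨ ∀ t : ℝ, 0 ≤ t → (F (a + t * u)).re ≤ c)

theorem good_of_ray {F : ℂ → ℂ} (hF : Continuous F) (hi : Function.Injective F) (hp : Prp F)
    (hr : Ray F) : Good F := by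
  obtain ⟨G, hG, hGF, hFG⟩ := exists_inv hF hi hp
  obtain ⟨a, u, c, hu, h⟩ := hr
  refine core' hF hG hGF hFG a hu ?_
  have t1 : Tendsto (fun t : ℝ => ‖a + t * u‖) atTop atTop := by
    have : Tendsto (fun t : ℝ => t * ‖u‖ + -‖a‖) atTop atTop :=
      tendsto_atTop_add_const_right _ _ (tendsto_id.atTop_mul_const (norm_pos_iff.2 hu))
    refine tendsto_atTop_mono (fun t => ?_) this
    have b := norm_sub_le (a + t * u) a
    rw [add_sub_cancel_left, norm_mul, norm_real, Real.norm_eq_abs] at b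
    have := mul_le_mul_of_nonneg_right (le_abs_self t) (norm_nonneg u)
    linarith
  have t2 := tendsto_norm_of_inv hG hGF t1
  rcases h with h | h
  · exact tame_half (by fun_prop) t2 h
  · have := tame_half (γ := fun t : ℝ => -F (a + t * u)) (by fun_prop) (by simpa using t2)
      (c := -c) (fun t ht => by simpa using h t ht)
    simpa using this.neg

theorem good_list (L : List (ℂ → ℂ)) (hL : ∀ S ∈ L, Continuous S ∧ Ray S) :
    Continuous (L.foldr (fun S R => S ∘ R) id) ∧
    (Function.Injective (L.foldr (fun S R => S ∘ R) id) → Prp (L.foldr (fun S R => S ∘ R) id) →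
      Good (L.foldr (fun S R => S ∘ R) id)) := by
  induction L with
  | nil => exact ⟨continuous_id, fun _ _ γ h => h⟩
  | cons S L ih =>
    obtain ⟨hc, ih⟩ := ih fun S' h => hL S' (List.mem_cons_of_mem _ h)
    obtain ⟨hS, hr⟩ := hL S List.mem_cons_self
    rw [List.foldr_cons]
    set R := L.foldr (fun S R => S ∘ R) id
    refine ⟨hS.comp hc, fun hi hp => ?_⟩
    have ri : Function.Injective R := hi.of_comp
    have bd : ∀ {K : ℂ → ℂ}, Continuous K → ∀ b : ℝ, ∃ M : ℝ, ∀ z, ‖z‖ ≤ b → ‖K z‖ ≤ M := by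
      intro K hK b
      obtain ⟨M, hM⟩ := (isCompact_closedBall (0 : ℂ) b).exists_bound_of_continuousOn
        hK.continuousOn
      exact ⟨M, fun z hz => hM z (by simpa using hz)⟩
    have rp : Prp R := by
      intro b
      obtain ⟨M, hM⟩ := bd hS b
      obtain ⟨M', hM'⟩ := hp M
      exact ⟨M', fun z hz => hM' z (hM _ hz)⟩
    have rs := surj hc ri rp
    have si : Function.Injective S := hi.of_comp_right rs
    have sp : Prp S := by
      intro b
      obtain ⟨M, hM⟩ := hp b
      obtain ⟨M', hM'⟩ := bd hc M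
      refine ⟨M', fun z hz => ?_⟩
      obtain ⟨w, rfl⟩ := rs z
      exact hM' w (hM w hz)
    exact fun γ h => good_of_ray hS si sp hr _ (ih ri rp γ h)

/-- The spiral homeomorphism. -/
noncomputable def spiral (z : ℂ) : ℂ := z * exp ((‖z‖ : ℝ) * I)

lemma norm_spiral (z : ℂ) : ‖spiral z‖ = ‖z‖ := by
  rw [spiral, norm_mul, norm_exp_ofReal_mul_I, mul_one]

lemma spiral_cont : Continuous spiral := by unfold spiral; fun_prop

lemma spiral_inj : Function.Injective spiral := by
  intro z w h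
  have e : ‖z‖ = ‖w‖ := by rw [← norm_spiral z, h, norm_spiral]
  unfold spiral at h
  rw [e] at h
  exact mul_right_cancel₀ (exp_ne_zero _) h

lemma spiral_prp : Prp spiral := fun b => ⟨b, fun z hz => by rwa [norm_spiral] at hz⟩

lemma spiral_bad : ¬Good spiral := by
  intro h
  have t0 : Tame fun t : ℝ => ((Real.exp t : ℝ) : ℂ) := by
    refine tame_half (by fun_prop) ?_ (c := 0) fun t _ => ?_
    · simpa only [norm_real, Real.norm_eq_abs, Real.abs_exp] using Real.tendsto_exp_atTop
    · rw [ofReal_re]; exact (Real.exp_pos t).le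
  obtain ⟨-, t0, C, φ, hφ, h2⟩ := h _ t0
  obtain ⟨n, hn⟩ := log_unique (s := Ici t0) isPreconnected_Ici hφ
    (ψ := fun t : ℝ => t + (Real.exp t : ℝ) * I) (by fun_prop) (fun t ht => by
      rw [(h2 t ht).1]
      simp only [spiral]
      rw [exp_add, norm_real, Real.norm_eq_abs, Real.abs_exp, ofReal_exp])
  obtain ⟨t, ht1, ht2⟩ := ((Real.tendsto_exp_atTop.eventually_gt_atTop
    (C - n * (2 * π))).and (eventually_ge_atTop t0)).exists
  have e : (φ t).im = Real.exp t + n * (2 * π) := by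
    have := congrArg im (hn t ht2)
    rw [this]
    simp [exp_ofReal_re]
  have := le_abs_self (φ t).im
  linarith [(h2 t ht2).2]

lemma side {k : ℝ → ℝ} (hk : Continuous k) {c : ℝ} (h : ∀ t, k t ≠ c) :
    (∀ t, c ≤ k t) ∨ ∀ t, k t ≤ c := by
  by_contra hn
  push Not at hn
  obtain ⟨⟨s, hs⟩, t, ht⟩ := hn
  obtain ⟨x, hx⟩ := intermediate_value_univ s t hk ⟨hs.le, ht.le⟩
  exact h x hx

theorem assoc_ray {f : ℝ × ℝ → ℝ} (hf : Continuous f)
    (ha : ∀ a b c, f (f (a, b), c) = f (a, f (b, c))) :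
    (∃ a c, (∀ t, 0 ≤ t → c ≤ f (a, t)) ∨ ∀ t, 0 ≤ t → f (a, t) ≤ c) ∨
      ∃ b c, (∀ t, 0 ≤ t → c ≤ f (t, b)) ∨ ∀ t, 0 ≤ t → f (t, b) ≤ c := by
  by_cases h1 : ∀ a c, ∃ t, f (a, t) = c
  · by_cases h2 : ∀ b c, ∃ t, f (t, b) = c
    · obtain ⟨e, he⟩ := h2 0 0
      have le : ∀ y, f (e, y) = y := by
        intro y
        obtain ⟨z, rfl⟩ := h1 0 y
        rw [← ha, he]
      obtain ⟨a', ha'⟩ := h2 0 e
      have inj : Function.Injective fun t => f (0, t) := by
        intro y z h
        simp only at h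
        rw [← le y, ← le z, ← ha', ha, ha, h]
      left
      rcases Continuous.strictMono_of_inj (by fun_prop) inj with h | h
      · exact ⟨0, f (0, 0), Or.inl fun t ht => h.monotone ht⟩
      · exact ⟨0, f (0, 0), Or.inr fun t ht => h.antitone ht⟩
    · push Not at h2
      obtain ⟨b, c, h⟩ := h2
      right
      rcases side (k := fun t => f (t, b)) (by fun_prop) h with h | h
      · exact ⟨b, c, Or.inl fun t _ => h t⟩
      · exact ⟨b, c, Or.inr fun t _ => h t⟩
  · push Not at h1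
    obtain ⟨a, c, h⟩ := h1
    left
    rcases side (k := fun t => f (a, t)) (by fun_prop) h with h | h
    · exact ⟨a, c, Or.inl fun t _ => h t⟩
    · exact ⟨a, c, Or.inr fun t _ => h t⟩

/-- Transfer of a plane map to the complex plane. -/
noncomputable def cx (S : ℝ × ℝ → ℝ × ℝ) (z : ℂ) : ℂ := equivRealProdCLM.symm (S (equivRealProdCLM z))

lemma cx_fold (L : List (ℝ × ℝ → ℝ × ℝ)) :
    cx (L.foldr (fun S R => S ∘ R) id) = (L.map cx).foldr (fun S R => S ∘ R) id := by
  induction L with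
  | nil => funext z; exact equivRealProdCLM.symm_apply_apply z
  | cons S L ih =>
    rw [List.map_cons, List.foldr_cons, List.foldr_cons, ← ih]
    funext z
    simp only [cx, Function.comp, ContinuousLinearEquiv.apply_symm_apply]

lemma cx_ray {S : ℝ × ℝ → ℝ × ℝ} (hS : Continuous S)
    (ha : ∀ a b c : ℝ, (S ((S (a, b)).1, c)).1 = (S (a, (S (b, c)).1)).1) : Ray (cx S) := by
  rcases assoc_ray (f := fun p => (S p).1) hS.fst ha with ⟨a, c, h⟩ | ⟨b, c, h⟩
  · refine ⟨a, I, c, I_ne_zero, ?_⟩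
    have : ∀ t : ℝ, (cx S (a + t * I)).re = (S (a, t)).1 := by
      intro t
      simp [cx, equivRealProdCLM_symm_apply]
    simpa only [this] using h
  · refine ⟨b * I, 1, c, one_ne_zero, ?_⟩
    have : ∀ t : ℝ, (cx S (b * I + t * 1)).re = (S (t, b)).1 := by
      intro t
      simp [cx, equivRealProdCLM_symm_apply]
    simpa only [this] using h

theorem main : ¬ (∀ T : ℝ × ℝ → ℝ × ℝ, Continuous T →
      ∃ L : List (ℝ × ℝ → ℝ × ℝ),
        (∀ S ∈ L, Continuous S ∧
          (∀ a b c : ℝ, (S ((S (a, b)).1, c)).1 = (S (a, (S (b, c)).1)).1)) ∧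
        T = L.foldr (fun S R => S ∘ R) id) := by
  intro h
  obtain ⟨L, hL, e⟩ := h (fun p => equivRealProdCLM (spiral (equivRealProdCLM.symm p)))
    (equivRealProdCLM.continuous.comp (spiral_cont.comp equivRealProdCLM.symm.continuous))
  have e2 : spiral = (L.map cx).foldr (fun S R => S ∘ R) id := by
    rw [← cx_fold, ← e]
    funext z
    simp only [cx, ContinuousLinearEquiv.symm_apply_apply]
  have := (good_list (L.map cx) ?_).2
  · rw [← e2] at this
    exact spiral_bad (this spiral_inj spiral_prp)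
  · intro S hS
    obtain ⟨S', h', rfl⟩ := List.mem_map.1 hS
    exact ⟨equivRealProdCLM.symm.continuous.comp ((hL S' h').1.comp equivRealProdCLM.continuous),
      cx_ray (hL S' h').1 (hL S' h').2⟩

end Pool.Agent.Lib.H29.Spin
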