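import Mathlib

set_option autoImplicit false

namespace Pool.Agent.Lib.H29.Tp

open Set Ordinal

variable {X Y : Type} [LinearOrder X] [LinearOrder Y]

lemma wo {S : Set X} (h : S.IsWF) : IsWellOrder S (· < ·) := { wf := h }

open Classical in
/-- order type of a well-founded subset -/
noncomputable def tp (S : Set X) : Ordinal.{0} :=
  if h : S.IsWF then @Ordinal.type S (· < ·) (wo h) else 0

lemma tp_eq {S : Set X} (h : S.IsWF) : tp S = @Ordinal.type S (· < ·) (wo h) := dif_pos h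

lemma wf_of_map {S : Set X} {S' : Set Y} (h : S'.IsWF) {f : X → Y} (hf : StrictMonoOn f S)
    (hm : MapsTo f S S') : S.IsWF := by
  rw [isWF_iff_no_descending_seq] at h ⊢
  intro g hg hS
  exact h (f ∘ g) (fun a b hab => hf (hS b) (hS a) (hg hab)) fun n => hm (hS n)

lemma tp_le_of_map {S : Set X} {S' : Set Y} (h : S'.IsWF) {f : X → Y} (hf : StrictMonoOn f S)
    (hm : MapsTo f S S') : tp S ≤ tp S' := by
  have h1 := wf_of_map h hf hm
  rw [tp_eq h, tp_eq h1]
  have := wo h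
  have := wo h1
  exact (RelEmbedding.ofMonotone (r := fun a b : S => a < b) (s := fun a b : S' => a < b)
    (fun a => ⟨f a, hm a.2⟩) fun a b hab => hf a.2 b.2 hab).ordinal_type_le

lemma tp_mono {S S' : Set X} (h : S'.IsWF) (hs : S ⊆ S') : tp S ≤ tp S' :=
  tp_le_of_map h (f := id) strictMonoOn_id hs

lemma wf_image {S : Set X} (h : S.IsWF) {f : X → Y} (hf : StrictMonoOn f S) : (f '' S).IsWF := by
  classical
  rcases S.eq_empty_or_nonempty with rfl | ⟨x, hx⟩
  · simp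
  have : Nonempty X := ⟨x⟩
  refine wf_of_map h (f := Function.invFunOn f S) ?_ ?_
  · rintro _ ⟨a, ha, rfl⟩ _ ⟨b, hb, rfl⟩ hab
    rw [hf.injOn.leftInvOn_invFunOn ha, hf.injOn.leftInvOn_invFunOn hb]
    exact (hf.lt_iff_lt ha hb).1 hab
  · rintro _ ⟨a, ha, rfl⟩
    rwa [hf.injOn.leftInvOn_invFunOn ha]

lemma tp_image {S : Set X} (h : S.IsWF) {f : X → Y} (hf : StrictMonoOn f S) :
    tp (f '' S) = tp S := by
  classical
  refine le_antisymm ?_ (tp_le_of_map (wf_image h hf) hf (mapsTo_image _ _))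
  rcases S.eq_empty_or_nonempty with rfl | ⟨x, hx⟩
  · rw [image_empty, tp_eq isWF_empty, Ordinal.type_eq_zero_of_empty]; exact zero_le
  have : Nonempty X := ⟨x⟩
  refine tp_le_of_map h (f := Function.invFunOn f S) ?_ ?_
  · rintro _ ⟨a, ha, rfl⟩ _ ⟨b, hb, rfl⟩ hab
    rw [hf.injOn.leftInvOn_invFunOn ha, hf.injOn.leftInvOn_invFunOn hb]
    exact (hf.lt_iff_lt ha hb).1 hab
  · rintro _ ⟨a, ha, rfl⟩
    rwa [hf.injOn.leftInvOn_invFunOn ha]

lemma tp_union {S S' : Set X} (h : S.IsWF) (h' : S'.IsWF) (hlt : ∀ x ∈ S, ∀ y ∈ S', x < y) :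
    tp (S ∪ S') = tp S + tp S' := by
  rw [tp_eq h, tp_eq h', tp_eq (h.union h')]
  have := wo h
  have := wo h'
  have := wo (h.union h')
  rw [← Ordinal.type_sum_lex]
  symm
  refine RelIso.ordinalType_congr (RelIso.ofSurjective (RelEmbedding.ofMonotone
    (s := fun a b : (S ∪ S' : Set X) => a < b)
    (Sum.elim (fun a : S => ⟨a, Or.inl a.2⟩) fun a : S' => ⟨a, Or.inr a.2⟩) ?_) ?_)
  · rintro (a | a) (b | b) hab
    · have := Sum.lex_inl_inl.1 hab
      exact this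
    · exact hlt _ a.2 _ b.2
    · exact absurd hab Sum.lex_inr_inl
    · have := Sum.lex_inr_inr.1 hab
      exact this
  · rintro ⟨x, hx | hx⟩
    · exact ⟨Sum.inl ⟨x, hx⟩, rfl⟩
    · exact ⟨Sum.inr ⟨x, hx⟩, rfl⟩

lemma tp_le_of_forall {S : Set X} (h : S.IsWF) {α : Ordinal}
    (H : ∀ x ∈ S, tp (S ∩ Iio x) < α) : tp S ≤ α := by
  by_contra hlt
  push Not at hlt
  rw [tp_eq h] at hlt
  have := wo h
  obtain ⟨x, hx⟩ := Ordinal.typein_surj _ hlt
  refine absurd (H x x.2) (not_lt.2 ?_)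
  have h1 : (S ∩ Iio (x : X)).IsWF := h.mono inter_subset_left
  rw [← hx, ← Ordinal.type_subrel, tp_eq h1]
  have := wo h1
  exact (RelEmbedding.ofMonotone (r := Subrel (fun a b : S => a < b) (· < x))
    (s := fun a b : (S ∩ Iio (x : X) : Set X) => a < b)
    (fun a : {a : S // a < x} => ⟨a.1.1, a.1.2, a.2⟩) fun a b hab => hab).ordinal_type_le

lemma card_tp {S : Set X} (h : S.IsWF) : (tp S).card = Cardinal.mk S := by
  rw [tp_eq h]; exact @Ordinal.card_type _ _ (wo h)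

lemma tp_lt_omega {S : Set X} (h : S.IsWF) : tp S < ω ↔ S.Finite := by
  rw [← Ordinal.card_lt_aleph0, card_tp h, Cardinal.lt_aleph0_iff_set_finite]

lemma tp_empty : tp (∅ : Set X) = 0 := by
  rw [tp_eq isWF_empty, Ordinal.type_eq_zero_of_empty]

lemma tp_eq_zero {S : Set X} (h : S.IsWF) : tp S = 0 ↔ S = ∅ := by
  rw [← Ordinal.card_eq_zero, card_tp h, Cardinal.mk_eq_zero_iff, isEmpty_coe_sort]

lemma tp_le_one {S : Set X} (h : S.Subsingleton) : tp S ≤ 1 := by
  have := card_tp h.isWF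
  have h2 : (tp S).card ≤ (1 : ℕ) := by
    rw [this]; exact_mod_cast Cardinal.mk_le_one_iff_set_subsingleton.2 h
  exact_mod_cast Ordinal.card_le_nat.1 h2

lemma one_le_tp {S : Set X} (h : S.IsWF) (hn : S.Nonempty) : 1 ≤ tp S :=
  Order.one_le_iff_ne_zero.2 fun h0 => hn.ne_empty ((tp_eq_zero h).1 h0)

lemma tp_split {S : Set X} (h : S.IsWF) (x : X) : tp S = tp (S ∩ Iio x) + tp (S ∩ Ici x) := by
  rw [← tp_union (S := S ∩ Iio x) (S' := S ∩ Ici x) (h.mono inter_subset_left)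
    (h.mono inter_subset_left) fun a ha b hb => lt_of_lt_of_le ha.2 hb.2, ← inter_union_distrib_left, Iio_union_Ici, inter_univ]

lemma union_step {θ : Ordinal} (hθ : 0 < θ)
    (U : ∀ S S' : Set X, S.IsWF → S'.IsWF → tp S < θ → tp S' < θ → tp (S ∪ S') < θ) (k : ℕ) :
    ∀ (n n' : ℕ) (S S' : Set X), n + n' = k → S.IsWF → S'.IsWF → tp S < θ * n → tp S' < θ * n' →
      ∃ N : ℕ, tp (S ∪ S') < θ * N := by
  induction k with
  | zero =>
    intro n n' S S' hk _ _ h1 _
    obtain rfl : n = 0 := by omega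
    simp at h1
  | succ k ih =>
    intro n n' S S' hk hS hS' h1 h2
    have hW := hS.union hS'
    have low : ∀ V : Set X, V ⊆ S ∪ S' →
        (∀ y ∈ V, tp (S ∩ Iio y) < θ ∧ tp (S' ∩ Iio y) < θ) → tp V ≤ θ := by
      intro V hV H
      refine tp_le_of_forall (hW.mono hV) fun y hy => ?_
      refine (tp_mono ((hS.mono inter_subset_left).union (hS'.mono inter_subset_left)) ?_).trans_lt
        (U _ _ (hS.mono inter_subset_left) (hS'.mono inter_subset_left) (H y hy).1 (H y hy).2)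
      rintro z ⟨hz, hzy⟩
      rcases hV hz with h | h
      · exact Or.inl ⟨h, hzy⟩
      · exact Or.inr ⟨h, hzy⟩
    by_cases hE : {y ∈ S ∪ S' | θ ≤ tp (S ∩ Iio y) ∨ θ ≤ tp (S' ∩ Iio y)}.Nonempty
    · have hEw : {y ∈ S ∪ S' | θ ≤ tp (S ∩ Iio y) ∨ θ ≤ tp (S' ∩ Iio y)}.IsWF :=
        hW.mono (sep_subset _ _)
      set x := hEw.min hE
      have hx := hEw.min_mem hE
      have h3 : tp ((S ∪ S') ∩ Iio x) ≤ θ := low _ inter_subset_left fun y hy => by
        by_contra hc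
        rw [not_and_or, not_lt, not_lt] at hc
        exact hEw.not_lt_min hE ⟨hy.1, hc⟩ hy.2
      have cut : ∀ (V : Set X) (m : ℕ), V.IsWF → tp V < θ * m → θ ≤ tp (V ∩ Iio x) →
          ∃ m' : ℕ, m = m' + 1 ∧ tp (V ∩ Ici x) < θ * m' := by
        intro V m hV hm hx
        rcases m with _ | m
        · simp at hm
        refine ⟨m, rfl, ?_⟩
        rw [tp_split hV x, add_comm m 1, Nat.cast_add, mul_add, Nat.cast_one, mul_one] at hm
        exact (add_lt_add_iff_left θ).1 ((add_le_add_left hx _).trans_lt hm)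
      have h4 : ∃ N : ℕ, tp (S ∩ Ici x ∪ S' ∩ Ici x) < θ * N := by
        rcases hx.2 with h | h
        · obtain ⟨m, rfl, hm⟩ := cut S n hS h1 h
          exact ih m n' _ _ (by omega) (hS.mono inter_subset_left) (hS'.mono inter_subset_left) hm
            ((tp_mono hS' inter_subset_left).trans_lt h2)
        · obtain ⟨m, rfl, hm⟩ := cut S' n' hS' h2 h
          exact ih n m _ _ (by omega) (hS.mono inter_subset_left) (hS'.mono inter_subset_left)
            ((tp_mono hS inter_subset_left).trans_lt h1) hm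
      obtain ⟨N, hN⟩ := h4
      refine ⟨1 + N, ?_⟩
      rw [tp_split hW x, union_inter_distrib_right S S' (Ici x), Nat.cast_add, mul_add,
        Nat.cast_one, mul_one]
      exact (add_le_add_left h3 _).trans_lt ((add_lt_add_iff_left θ).2 hN)
    · refine ⟨2, (low _ Subset.rfl fun y hy => ?_).trans_lt ?_⟩
      · by_contra hc
        rw [not_and_or, not_lt, not_lt] at hc
        exact hE ⟨y, hy, hc⟩
      · rw [Nat.cast_ofNat, Ordinal.mul_two]
        exact lt_add_of_pos_right _ hθ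

lemma union_small (η : Ordinal.{0}) : ∀ S S' : Set X, S.IsWF → S'.IsWF → tp S < ω ^ η →
    tp S' < ω ^ η → tp (S ∪ S') < ω ^ η := by
  induction η using WellFoundedLT.induction with
  | ind η ih =>
    intro S S' hS hS' h1 h2
    rcases eq_or_ne η 0 with rfl | h0
    · rw [opow_zero, Order.lt_one_iff] at *
      rw [(tp_eq_zero hS).1 h1, (tp_eq_zero hS').1 h2, union_empty, tp_empty]
    · obtain ⟨c, hc, n, hn⟩ := (lt_omega0_opow h0).1 h1
      obtain ⟨c', hc', n', hn'⟩ := (lt_omega0_opow h0).1 h2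
      obtain ⟨N, hN⟩ := union_step (opow_pos (max c c') omega0_pos) (ih _ (max_lt hc hc')) _ n n' S S'
        rfl hS hS' (hn.trans_le (mul_le_mul_left (opow_le_opow_right omega0_pos (le_max_left _ _)) _))
        (hn'.trans_le (mul_le_mul_left (opow_le_opow_right omega0_pos (le_max_right _ _)) _))
      exact hN.trans (opow_mul_lt_opow (natCast_lt_omega0 N) (max_lt hc hc'))

lemma wf_iUnion {S : ℕ → Set X} (h : ∀ n, (S n).IsWF)
    (hlt : ∀ n n', n < n' → ∀ x ∈ S n, ∀ y ∈ S n', x < y) : (⋃ n, S n).IsWF := by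
  rw [isWF_iff_no_descending_seq]
  intro g hg hS
  obtain ⟨n, hn⟩ := mem_iUnion.1 (hS 0)
  have : (⋃ i ∈ Finset.range (n + 1), S i).IsWF := (Finset.isWF_bUnion _).2 fun i _ => h i
  refine isWF_iff_no_descending_seq.1 this g hg fun j => ?_
  obtain ⟨i, hi⟩ := mem_iUnion.1 (hS j)
  refine mem_biUnion (x := i) (Finset.mem_coe.2 (Finset.mem_range.2 ?_)) hi
  by_contra hc
  exact absurd (hlt n i (by omega) _ hn _ hi) (not_lt.2 (hg.antitone (Nat.zero_le j)))

lemma fin_small {S : ℕ → Set X} (h : ∀ n, (S n).IsWF) {η : Ordinal}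
    (N : ℕ) (hs : ∀ n < N, tp (S n) < ω ^ η) :
    (⋃ n < N, S n).IsWF ∧ tp (⋃ n < N, S n) < ω ^ η := by
  induction N with
  | zero => simpa [tp_empty] using opow_pos η omega0_pos
  | succ N ih =>
    obtain ⟨h1, h2⟩ := ih fun n hn => hs n (by omega)
    rw [biUnion_lt_succ]
    exact ⟨h1.union (h N), union_small η _ _ h1 (h N) h2 (hs N (by omega))⟩

lemma iUnion_le {S : ℕ → Set X} (h : ∀ n, (S n).IsWF)
    (hlt : ∀ n n', n < n' → ∀ x ∈ S n, ∀ y ∈ S n', x < y) {η : Ordinal}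
    (hs : ∀ n, tp (S n) < ω ^ η) : tp (⋃ n, S n) ≤ ω ^ η := by
  refine tp_le_of_forall (wf_iUnion h hlt) fun x hx => ?_
  obtain ⟨n, hn⟩ := mem_iUnion.1 hx
  obtain ⟨h1, h2⟩ := fin_small h (n + 1) fun i _ => hs i
  refine (tp_mono h1 ?_).trans_lt h2
  rintro y ⟨hy, hyx⟩
  obtain ⟨i, hi⟩ := mem_iUnion.1 hy
  refine mem_biUnion (x := i) (show i < n + 1 from ?_) hi
  by_contra hc
  exact absurd (hlt n i (by omega) _ hn _ hi) (not_lt.2 hyx.le)

lemma mul_omega_le {W : Set X} (hW : W.IsWF) {S : ℕ → Set X} (hS : ∀ n, S n ⊆ W)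
    (hlt : ∀ n n', n < n' → ∀ x ∈ S n, ∀ y ∈ S n', x < y) {θ : Ordinal}
    (hs : ∀ N, ∃ n, N ≤ n ∧ θ ≤ tp (S n)) : θ * ω ≤ tp W := by
  have sub : ∀ N, (⋃ n < N, S n) ⊆ W := fun N => iUnion₂_subset fun n _ => hS n
  have key : ∀ j : ℕ, ∃ N, θ * j ≤ tp (⋃ n < N, S n) := by
    intro j
    induction j with
    | zero => exact ⟨0, by simp⟩
    | succ j ih =>
      obtain ⟨N, hN⟩ := ih
      obtain ⟨n, hn, h1⟩ := hs N
      refine ⟨n + 1, ?_⟩
      rw [biUnion_lt_succ, tp_union (hW.mono (sub n)) (hW.mono (hS n)), Nat.cast_succ, mul_add, mul_one]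
      · refine add_le_add (hN.trans (tp_mono (hW.mono (sub n)) ?_)) h1
        exact biUnion_subset_biUnion_left fun i (hi : i < N) => hi.trans_le hn
      · intro x hx y hy
        obtain ⟨i, hi, hx⟩ := mem_iUnion₂.1 hx
        exact hlt i n hi x hx y hy
  rw [← iSup_mul_natCast]
  refine Ordinal.iSup_le fun j => ?_
  obtain ⟨N, hN⟩ := key j
  exact hN.trans (tp_mono hW (sub N))

lemma iso_iff (S : Set X) (α : Ordinal.{0}) : Nonempty (S ≃o Iio α) ↔ S.IsWF ∧ tp S = α := by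
  constructor
  · rintro ⟨e⟩
    have h : S.IsWF := e.toOrderEmbedding.wellFounded wellFounded_lt
    refine ⟨h, ?_⟩
    have := wo h
    rw [tp_eq h, ← Ordinal.type_toType α]
    exact (e.trans Ordinal.ToType.mk).toRelIsoLT.ordinalType_congr
  · rintro ⟨h, rfl⟩
    have := wo h
    rw [tp_eq h]
    exact ⟨(OrderIso.ofRelIsoLT (Ordinal.enum (fun a b : S => a < b))).symm⟩

lemma tp_lt_omega_one {S : Set X} (h : S.IsWF) (hc : S.Countable) : tp S < ω₁ := by
  rw [← Cardinal.ord_aleph, Cardinal.lt_ord, card_tp h, ← Cardinal.succ_aleph0, Order.lt_succ_iff]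
  exact Cardinal.le_aleph0_iff_set_countable.2 hc

lemma opow_le_of_forall {τ θ : Ordinal.{0}} (h0 : τ ≠ 0) (h : ∀ β < τ, ω ^ β * ω ≤ θ) :
    ω ^ τ ≤ θ := by
  by_contra hc
  push Not at hc
  obtain ⟨c, h1, n, hn⟩ := (lt_omega0_opow h0).1 hc
  have := h c h1
  exact absurd (hn.trans_le (mul_le_mul_right (natCast_lt_omega0 n).le _)) (not_lt.2 this)

end Pool.Agent.Lib.H29.Tp
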