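import Mathlib

namespace Pool.Agent.Lib.H29.TypicalNorm

open Set Metric

/-- the space of norms -/
abbrev NS (d : ℕ) := {f : C(Fin d → ℝ, ℝ) //
  (∀ x, f x = 0 → x = 0) ∧ (∀ x y, f (x + y) ≤ f x + f y) ∧
    (∀ (c : ℝ) x, f (c • x) = |c| * f x)}

lemma semi_nonneg {d : ℕ} (f : (Fin d → ℝ) → ℝ) (h1 : ∀ x y, f (x + y) ≤ f x + f y)
    (h2 : ∀ (c : ℝ) x, f (c • x) = |c| * f x) (x : Fin d → ℝ) : 0 ≤ f x := by
  have a1 := h1 x ((-1 : ℝ) • x)
  have a2 := h2 0 x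
  have a3 := h2 (-1) x
  simp only [neg_smul, one_smul, add_neg_cancel, zero_smul, abs_zero, zero_mul, abs_neg,
    abs_one, one_mul] at a1 a2 a3
  linarith

lemma baire (d : ℕ) : BaireSpace (NS d) := by
  let S : Set C(Fin d → ℝ, ℝ) := {f | (∀ x y, f (x + y) ≤ f x + f y) ∧
    (∀ (c : ℝ) x, f (c • x) = |c| * f x)}
  let T : Set C(Fin d → ℝ, ℝ) := {f | (∀ x, f x = 0 → x = 0) ∧ (∀ x y, f (x + y) ≤ f x + f y) ∧
    (∀ (c : ℝ) x, f (c • x) = |c| * f x)}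
  have hS : IsClosed S := by
    have : S = (⋂ x, ⋂ y, {f : C(Fin d → ℝ, ℝ) | f (x + y) ≤ f x + f y}) ∩
        (⋂ c : ℝ, ⋂ x, {f : C(Fin d → ℝ, ℝ) | f (c • x) = |c| * f x}) := by
      ext f; simp [S]
    rw [this]
    refine IsClosed.inter (isClosed_iInter fun x => isClosed_iInter fun y => ?_)
      (isClosed_iInter fun c => isClosed_iInter fun x => ?_)
    · exact isClosed_le (by fun_prop) (by fun_prop)
    · exact isClosed_eq (by fun_prop) (by fun_prop)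
  have := hS.isCompletelyPseudoMetrizableSpace
  have hTS : T ⊆ S := fun f hf => hf.2
  have hO : IsOpen (Subtype.val ⁻¹' T : Set S) := by
    have : (Subtype.val ⁻¹' T : Set S) = Subtype.val ⁻¹'
        {f : C(Fin d → ℝ, ℝ) | MapsTo f (sphere 0 1) (Ioi 0)} := by
      ext ⟨f, hf⟩
      constructor
      · intro h x hx
        refine lt_of_le_of_ne (semi_nonneg f hf.1 hf.2 x) (fun h0 => ?_)
        have := h.1 x h0.symm
        simp [this] at hx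
      · intro h
        refine ⟨fun x hx => ?_, hf⟩
        by_contra hne
        have hn : 0 < ‖x‖ := norm_pos_iff.2 hne
        have h1 : ‖x‖⁻¹ • x ∈ sphere (0 : Fin d → ℝ) 1 := by
          simp [norm_smul, hn.ne']
        have h2 : 0 < f (‖x‖⁻¹ • x) := h h1
        rw [hf.2, hx] at h2
        simp at h2
    rw [this]
    exact (ContinuousMap.isOpen_setOfPred_mapsTo (isCompact_sphere 0 1) isOpen_Ioi).preimage
      continuous_subtype_val
  exact (Topology.IsOpenEmbedding.inclusion hTS hO).baireSpace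

lemma exists_near {d : ℕ} (A : Set (NS d)) (hA : A ∈ residual (NS d)) (N0 : NS d) (ε : ℝ)
    (hε : 0 < ε) : ∃ N ∈ A, ∀ y, |N.1 y - N0.1 y| ≤ ε * ‖y‖ := by
  have := baire d
  have hO : IsOpen {N : NS d | MapsTo (N.1 - N0.1) (sphere 0 1) (ball 0 ε)} :=
    (ContinuousMap.isOpen_setOfPred_mapsTo (isCompact_sphere 0 1) isOpen_ball).preimage
      (f := fun N : NS d => N.1 - N0.1) (by fun_prop)
  obtain ⟨N, hN, hNA⟩ := (dense_of_mem_residual hA).inter_open_nonempty _ hO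
    ⟨N0, fun x _ => by simpa using hε⟩
  refine ⟨N, hNA, fun y => ?_⟩
  by_cases hy : y = 0
  · have a1 := N.2.2.2 0 y
    have a2 := N0.2.2.2 0 y
    simp only [zero_smul, abs_zero, zero_mul] at a1 a2
    simp [hy, a1, a2]
  have hn : 0 < ‖y‖ := norm_pos_iff.2 hy
  have h1 : ‖y‖⁻¹ • y ∈ sphere (0 : Fin d → ℝ) 1 := by
    simp [norm_smul, hn.ne']
  have h2 := hN h1
  rw [mem_ball_zero_iff, ContinuousMap.sub_apply, N.2.2.2, N0.2.2.2, ← mul_sub, norm_mul,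
    Real.norm_eq_abs, abs_abs, abs_of_pos (inv_pos.2 hn), Real.norm_eq_abs,
    inv_mul_lt_iff₀ hn] at h2
  linarith

lemma robust {E : Type*} [NormedAddCommGroup E] [NormedSpace ℝ E] {ι : Type*} [Fintype ι]
    (D : ι → (ι → ℝ) →L[ℝ] E) (l : ι → E →L[ℝ] ℝ) (v : ι → E) (hD : ∀ k t, l k (D k t) = t k)
    (hv : ∀ k, l k (v k) = 1) (r : ℝ) (hr : 0 < r) :
    ∃ η > 0, ∀ N : E → ℝ, ConvexOn ℝ univ N →
      (∀ k y, dist y (v k) < 2 * r → |N y - l k y| ≤ η) → ∃ t, ∀ k, N (v k + D k t) = 1 := by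
  obtain ⟨K, hK0, hK⟩ : ∃ K : ℝ, 0 < K ∧ ∀ k, ‖D k‖ ≤ K :=
    ⟨∑ k, ‖D k‖ + 1, by positivity, fun k => by
      have := Finset.single_le_sum (f := fun k => ‖D k‖) (fun _ _ => norm_nonneg _)
        (Finset.mem_univ k)
      linarith⟩
  refine ⟨r / (4 * K), by positivity, fun N hN hη => ?_⟩
  set ρ := r / (2 * K) with hρ
  have hρ0 : 0 < ρ := by positivity
  let c : (ι → ℝ) → ι → ℝ := fun t k => max (-ρ) (min ρ (t k))
  have hc1 : ∀ t, ‖c t‖ ≤ ρ := fun t => (pi_norm_le_iff_of_nonneg hρ0.le).2 fun k => by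
    rw [Real.norm_eq_abs, abs_le]
    exact ⟨le_max_left _ _, max_le (by linarith) (min_le_left _ _)⟩
  have hc2 : ∀ t s, ‖c t - c s‖ ≤ ‖t - s‖ := fun t s =>
    (pi_norm_le_iff_of_nonneg (norm_nonneg _)).2 fun k => by
      have h1 := norm_le_pi_norm (t - s) k
      rw [Real.norm_eq_abs] at h1 ⊢
      refine le_trans ?_ h1
      simp only [c, Pi.sub_apply]
      refine (abs_max_sub_max_le_max _ _ _ _).trans ?_
      refine max_le (by simp) ((abs_min_sub_min_le_max _ _ _ _).trans (max_le (by simp) le_rfl))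
  have hin : ∀ k t, v k + D k (c t) ∈ ball (v k) r := by
    intro k t
    rw [mem_ball, dist_eq_norm, add_sub_cancel_left]
    have h1 := (D k).le_opNorm (c t)
    have h2 := mul_le_mul (hK k) (hc1 t) (norm_nonneg _) hK0.le
    have h3 : K * ρ = r / 2 := by rw [hρ]; field_simp
    linarith
  have hL : ∀ k, LipschitzOnWith (2 * (r / (4 * K)) / r).toNNReal (fun y => N y - l k y)
      (ball (v k) (2 * r - r)) := by
    intro k
    refine ConvexOn.lipschitzOnWith_of_abs_le ?_ hr (hη k)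
    exact (hN.subset (subset_univ _) (convex_ball _ _)).sub
      ((l k).toLinearMap.concaveOn (convex_ball _ _))
  let G : (ι → ℝ) → ι → ℝ := fun t k => -(N (v k + D k (c t)) - l k (v k + D k (c t)))
  have hG : ContractingWith (1 / 2) G := by
    refine ⟨by norm_num, LipschitzWith.of_dist_le_mul fun t s => ?_⟩
    rw [dist_eq_norm, dist_eq_norm]
    refine (pi_norm_le_iff_of_nonneg (by positivity)).2 fun k => ?_
    have e : 2 * r - r = r := by ring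
    have h1 := (hL k).dist_le_mul _ (by rw [e]; exact hin k t) _ (by rw [e]; exact hin k s)
    rw [Real.coe_toNNReal _ (by positivity), dist_eq_norm, dist_eq_norm, add_sub_add_left_eq_sub,
      ← map_sub] at h1
    have h2 := (D k).le_opNorm (c t - c s)
    have h3 := mul_le_mul (hK k) (hc2 t s) (norm_nonneg _) hK0.le
    have h4 : 2 * (r / (4 * K)) / r * (K * ‖t - s‖) = 1 / 2 * ‖t - s‖ := by field_simp; ring
    have h5 : 2 * (r / (4 * K)) / r * ‖D k (c t - c s)‖ ≤ 2 * (r / (4 * K)) / r * (K * ‖t - s‖) :=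
      mul_le_mul_of_nonneg_left (h2.trans h3) (by positivity)
    simp only [G, Pi.sub_apply]
    rw [neg_sub_neg, norm_sub_rev]
    push_cast
    linarith
  let t := ContractingWith.fixedPoint G hG
  have ht : G t = t := ContractingWith.fixedPoint_isFixedPt hG
  have hct : c t = t := by
    funext k
    have h1 := hη k _ (lt_trans (hin k t) (by linarith))
    have h2 : t k = -(N (v k + D k (c t)) - l k (v k + D k (c t))) := (congrFun ht k).symm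
    rw [← abs_neg, ← h2, abs_le] at h1
    have h3 : r / (4 * K) ≤ ρ := by
      rw [hρ]; exact div_le_div_of_nonneg_left hr.le (by positivity) (by linarith)
    simp only [c]
    rw [min_eq_right (by linarith), max_eq_right (by linarith)]
  refine ⟨t, fun k => ?_⟩
  have h2 : t k = -(N (v k + D k (c t)) - l k (v k + D k (c t))) := (congrFun ht k).symm
  rw [hct, map_add, hv, hD] at h2
  linarith

/-- the five base points -/
def pp : Fin 5 → Fin 3 → ℝ := ![![1, 0, 0], ![0, 1, 0], ![-1, -1, 0], ![0, 0, 1], ![0, 0, -1]]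

/-- first endpoints -/
def ea : Fin 10 → Fin 5 := ![0, 0, 0, 0, 1, 1, 1, 2, 2, 3]

/-- second endpoints -/
def eb : Fin 10 → Fin 5 := ![1, 2, 3, 4, 2, 3, 4, 3, 4, 4]

/-- normals -/
def nn : Fin 10 → Fin 3 → ℝ := ![![5, -5, -1], ![4, 2, 2], ![6, -3, -4], ![6, -3, 4], ![0, 5, 1], ![-3, 6, -4], ![-3, 6, 4], ![-3, -3, -4], ![-3, -3, 4], ![1, 1, 5]]

/-- functionals -/
noncomputable def ll (k : Fin 10) : (Fin 3 → ℝ) →L[ℝ] ℝ :=
  LinearMap.toContinuousLinearMap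
    { toFun := fun x => (nn k 0 * x 0 + nn k 1 * x 1 + nn k 2 * x 2) / 10
      map_add' := fun x y => by simp only [Pi.add_apply]; ring
      map_smul' := fun c x => by simp only [Pi.smul_apply, smul_eq_mul, RingHom.id_apply]; ring }

lemma ll_apply (k : Fin 10) (x : Fin 3 → ℝ) :
    ll k x = (nn k 0 * x 0 + nn k 1 * x 1 + nn k 2 * x 2) / 10 := rfl

/-- displacements -/
noncomputable def dfun (t : Fin 10 → ℝ) : Fin 5 → Fin 3 → ℝ :=
  ![![(70) * t 0 + (45) * t 1 + (-245/6) * t 2 + (-275/6) * t 3 + (70) * t 4 + (-245/6) * t 5 + (-455/6) * t 6 + (-50) * t 7 + (-10) * t 8 + (55/2) * t 9,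
      (-20) * t 0 + (-10) * t 1 + (35/3) * t 2 + (35/3) * t 3 + (-20) * t 4 + (35/3) * t 5 + (65/3) * t 6 + (35/3) * t 7 + (5/3) * t 8,
      (-120) * t 0 + (-75) * t 1 + (70) * t 2 + (80) * t 3 + (-120) * t 4 + (70) * t 5 + (130) * t 6 + (335/4) * t 7 + (65/4) * t 8 + (-165/4) * t 9],
    ![(112) * t 0 + (70) * t 1 + (-133/2) * t 2 + (-147/2) * t 3 + (116) * t 4 + (-133/2) * t 5 + (-247/2) * t 6 + (-236/3) * t 7 + (-44/3) * t 8 + (73/2) * t 9,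
      (-24) * t 0 + (-15) * t 1 + (57/4) * t 2 + (63/4) * t 3 + (-22) * t 4 + (57/4) * t 5 + (103/4) * t 6 + (33/2) * t 7 + (7/2) * t 8 + (-27/4) * t 9,
      (120) * t 0 + (75) * t 1 + (-285/4) * t 2 + (-315/4) * t 3 + (120) * t 4 + (-285/4) * t 5 + (-515/4) * t 6 + (-335/4) * t 7 + (-65/4) * t 8 + (75/2) * t 9],
    ![(-5/3) * t 7 + (-5/3) * t 8 + (5) * t 9,
      0,
      (-5/4) * t 7 + (5/4) * t 8 + (15/4) * t 9],
    ![(320/3) * t 0 + (200/3) * t 1 + (-190/3) * t 2 + (-70) * t 3 + (320/3) * t 4 + (-560/9) * t 5 + (-1040/9) * t 6 + (-670/9) * t 7 + (-130/9) * t 8 + (40) * t 9,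
      (-320/3) * t 0 + (-200/3) * t 1 + (190/3) * t 2 + (70) * t 3 + (-320/3) * t 4 + (560/9) * t 5 + (1040/9) * t 6 + (670/9) * t 7 + (130/9) * t 8 + (-30) * t 9,
      0],
    ![0,
      0,
      0]]

/-- displacements as linear maps -/
noncomputable def dd (i : Fin 5) : (Fin 10 → ℝ) →L[ℝ] (Fin 3 → ℝ) :=
  LinearMap.toContinuousLinearMap
    { toFun := fun t => dfun t i
      map_add' := fun x y => by
        funext j
        fin_cases i <;> fin_cases j <;> simp [dfun] <;> ring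
      map_smul' := fun c x => by
        funext j
        fin_cases i <;> fin_cases j <;> simp [dfun] <;> ring }

lemma dd_apply (i : Fin 5) (t : Fin 10 → ℝ) : dd i t = dfun t i := rfl

/-- the polyhedral norm -/
noncomputable def N0 : NS 3 :=
  ⟨⟨fun x => ‖ContinuousLinearMap.pi ll x‖, by fun_prop⟩, by
    intro x hx
    change ‖ContinuousLinearMap.pi ll x‖ = 0 at hx
    have h := norm_eq_zero.1 hx
    have h0 : ll 2 x = 0 := congrFun h 2
    have h1 : ll 3 x = 0 := congrFun h 3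
    have h2 : ll 5 x = 0 := congrFun h 5
    simp [ll_apply, nn] at h0 h1 h2
    funext j
    fin_cases j <;> simp <;> linarith, by
    intro x y
    simp only [ContinuousMap.coe_mk, map_add]
    exact norm_add_le _ _, by
    intro c x
    simp only [ContinuousMap.coe_mk, map_smul, norm_smul, Real.norm_eq_abs]⟩

lemma N0_local (k : Fin 10) (y : Fin 3 → ℝ) (hy : dist y (pp (ea k) - pp (eb k)) < 2 * (1 / 100)) :
    N0.1 y = ll k y ∧ ‖y‖ ≤ 3 := by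
  have h := (dist_pi_lt_iff (by norm_num)).1 hy
  have h0 := h 0
  have h1 := h 1
  have h2 := h 2
  rw [Real.dist_eq, abs_lt] at h0 h1 h2
  constructor
  · apply le_antisymm
    · change ‖ContinuousLinearMap.pi ll y‖ ≤ _
      refine (pi_norm_le_iff_of_nonneg ?_).2 fun j => ?_
      · fin_cases k <;> simp [ll_apply, nn, pp, ea, eb] at h0 h1 h2 ⊢ <;>
          linarith [h0.1, h0.2, h1.1, h1.2, h2.1, h2.2]
      · rw [ContinuousLinearMap.pi_apply, Real.norm_eq_abs, abs_le]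
        fin_cases k <;> simp [pp, ea, eb] at h0 h1 h2 <;> fin_cases j <;>
          simp only [ll_apply, nn] <;> simp <;>
          first
            | (constructor <;> linarith [h0.1, h0.2, h1.1, h1.2, h2.1, h2.2])
            | linarith [h0.1, h0.2, h1.1, h1.2, h2.1, h2.2]
    · exact (le_abs_self _).trans (norm_le_pi_norm (ContinuousLinearMap.pi ll y) k)
  · refine (pi_norm_le_iff_of_nonneg (by norm_num)).2 fun j => ?_
    rw [Real.norm_eq_abs, abs_le]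
    fin_cases k <;> simp [pp, ea, eb] at h0 h1 h2 <;> fin_cases j <;> simp <;>
      constructor <;> linarith [h0.1, h0.2, h1.1, h1.2, h2.1, h2.2]

lemma contains_K5 : ∃ ε > 0, ∀ N : NS 3, (∀ y, |N.1 y - N0.1 y| ≤ ε * ‖y‖) →
    ∃ φ : Fin 5 → (Fin 3 → ℝ), ∀ u v, u ≠ v → N.1 (φ u - φ v) = 1 := by
  obtain ⟨η, hη, h⟩ := robust (fun k => dd (ea k) - dd (eb k)) ll (fun k => pp (ea k) - pp (eb k))
    (by
      intro k t
      fin_cases k <;> simp [ll_apply, dd_apply, dfun, nn, ea, eb] <;> ring)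
    (by
      intro k
      fin_cases k <;> simp [ll_apply, pp, nn, ea, eb] <;> norm_num) (1 / 100) (by norm_num)
  refine ⟨η / 3, by positivity, fun N hN => ?_⟩
  obtain ⟨t, ht⟩ := h N.1 ⟨convex_univ, fun x _ y _ a b ha hb _ => by
      have := N.2.2.1 (a • x) (b • y)
      rwa [N.2.2.2, N.2.2.2, abs_of_nonneg ha, abs_of_nonneg hb] at this⟩
    (fun k y hy => by
      obtain ⟨e1, e2⟩ := N0_local k y hy
      rw [← e1]
      refine (hN y).trans ?_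
      nlinarith)
  refine ⟨fun i => pp i + dd i t, fun u v huv => ?_⟩
  have key : ∀ k, N.1 ((pp (ea k) + dd (ea k) t) - (pp (eb k) + dd (eb k) t)) = 1 := by
    intro k
    rw [← ht k]
    congr 1
    simp only [ContinuousLinearMap.sub_apply]
    abel
  have hk : ∀ u v : Fin 5, u ≠ v → ∃ k, (ea k = u ∧ eb k = v) ∨ (ea k = v ∧ eb k = u) := by
    decide
  obtain ⟨k, ⟨rfl, rfl⟩ | ⟨rfl, rfl⟩⟩ := hk u v huv
  · exact key k
  · rw [← neg_sub, ← neg_one_smul ℝ, N.2.2.2]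
    simp [key k]

/-- the Euclidean norm -/
noncomputable def N1 : NS 3 :=
  ⟨⟨fun x => ‖(WithLp.toLp 2 x : EuclideanSpace ℝ (Fin 3))‖, by fun_prop⟩, by
    intro x hx
    change ‖(WithLp.toLp 2 x : EuclideanSpace ℝ (Fin 3))‖ = 0 at hx
    simpa using norm_eq_zero.1 hx, by
    intro x y
    simp only [ContinuousMap.coe_mk, WithLp.toLp_add]
    exact norm_add_le _ _, by
    intro c x
    simp only [ContinuousMap.coe_mk, WithLp.toLp_smul, norm_smul, Real.norm_eq_abs]⟩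

lemma no_K5 (N : NS 3) (hN : ∀ y, |N.1 y - N1.1 y| ≤ 1 / 20 * ‖y‖) (φ : Fin 5 → (Fin 3 → ℝ))
    (h : ∀ u v, u ≠ v → N.1 (φ u - φ v) = 1) : False := by
  have hD : ∀ u v, u ≠ v → |(φ u 0 - φ v 0) ^ 2 + (φ u 1 - φ v 1) ^ 2 + (φ u 2 - φ v 2) ^ 2 - 1|
      ≤ 1 / 5 := by
    intro u v huv
    have h1 := hN (φ u - φ v)
    rw [h u v huv] at h1
    have h2 : ‖φ u - φ v‖ ≤ N1.1 (φ u - φ v) :=
      (pi_norm_le_iff_of_nonneg (norm_nonneg _)).2 fun j =>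
        PiLp.norm_apply_le (WithLp.toLp 2 (φ u - φ v) : EuclideanSpace ℝ (Fin 3)) j
    have h3 : N1.1 (φ u - φ v) ^ 2 =
        (φ u 0 - φ v 0) ^ 2 + (φ u 1 - φ v 1) ^ 2 + (φ u 2 - φ v 2) ^ 2 := by
      change ‖(WithLp.toLp 2 (φ u - φ v) : EuclideanSpace ℝ (Fin 3))‖ ^ 2 = _
      rw [EuclideanSpace.norm_sq_eq, Fin.sum_univ_three]
      simp
    rw [← h3]
    rw [abs_le] at h1 ⊢
    have h4 : 20 / 21 ≤ N1.1 (φ u - φ v) := by linarith [h1.2]
    have h5 : N1.1 (φ u - φ v) ≤ 20 / 19 := by linarith [h1.1]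
    constructor <;> nlinarith
  have hdep : ¬ LinearIndependent ℝ (fun i : Fin 5 => (![1, φ i 0, φ i 1, φ i 2] : Fin 4 → ℝ)) := by
    intro hl
    have := hl.fintype_card_le_finrank
    simp at this
  obtain ⟨c, hc, i, hi⟩ := Fintype.not_linearIndependent_iff.1 hdep
  have e0 := congrFun hc 0
  have e1 := congrFun hc 1
  have e2 := congrFun hc 2
  have e3 := congrFun hc 3
  simp [Fin.sum_univ_five] at e0 e1 e2 e3
  have pr : ∀ u v, u ≠ v → c u * c v *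
      ((φ u 0 - φ v 0) ^ 2 + (φ u 1 - φ v 1) ^ 2 + (φ u 2 - φ v 2) ^ 2 - 1) ≤
        1 / 10 * (c u ^ 2 + c v ^ 2) := by
    intro u v huv
    have := abs_le.1 (hD u v huv)
    nlinarith [mul_nonneg (sq_nonneg (c u + c v)) (sub_nonneg.2 this.2),
      mul_nonneg (sq_nonneg (c u - c v)) (sub_nonneg.2 this.1)]
  have hpos : 0 < c 0 ^ 2 + c 1 ^ 2 + c 2 ^ 2 + c 3 ^ 2 + c 4 ^ 2 := by
    have : 0 < c i ^ 2 := by positivity
    fin_cases i <;> simp only [Fin.zero_eta, Fin.mk_one, Fin.reduceFinMk] at this <;> positivity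
  have id : 2 * (c 0 * c 1 * ((φ 0 0 - φ 1 0) ^ 2 + (φ 0 1 - φ 1 1) ^ 2 + (φ 0 2 - φ 1 2) ^ 2 - 1) +
      c 0 * c 2 * ((φ 0 0 - φ 2 0) ^ 2 + (φ 0 1 - φ 2 1) ^ 2 + (φ 0 2 - φ 2 2) ^ 2 - 1) +
      c 0 * c 3 * ((φ 0 0 - φ 3 0) ^ 2 + (φ 0 1 - φ 3 1) ^ 2 + (φ 0 2 - φ 3 2) ^ 2 - 1) +
      c 0 * c 4 * ((φ 0 0 - φ 4 0) ^ 2 + (φ 0 1 - φ 4 1) ^ 2 + (φ 0 2 - φ 4 2) ^ 2 - 1) +
      c 1 * c 2 * ((φ 1 0 - φ 2 0) ^ 2 + (φ 1 1 - φ 2 1) ^ 2 + (φ 1 2 - φ 2 2) ^ 2 - 1) +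
      c 1 * c 3 * ((φ 1 0 - φ 3 0) ^ 2 + (φ 1 1 - φ 3 1) ^ 2 + (φ 1 2 - φ 3 2) ^ 2 - 1) +
      c 1 * c 4 * ((φ 1 0 - φ 4 0) ^ 2 + (φ 1 1 - φ 4 1) ^ 2 + (φ 1 2 - φ 4 2) ^ 2 - 1) +
      c 2 * c 3 * ((φ 2 0 - φ 3 0) ^ 2 + (φ 2 1 - φ 3 1) ^ 2 + (φ 2 2 - φ 3 2) ^ 2 - 1) +
      c 2 * c 4 * ((φ 2 0 - φ 4 0) ^ 2 + (φ 2 1 - φ 4 1) ^ 2 + (φ 2 2 - φ 4 2) ^ 2 - 1) +
      c 3 * c 4 * ((φ 3 0 - φ 4 0) ^ 2 + (φ 3 1 - φ 4 1) ^ 2 + (φ 3 2 - φ 4 2) ^ 2 - 1)) =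
      c 0 ^ 2 + c 1 ^ 2 + c 2 ^ 2 + c 3 ^ 2 + c 4 ^ 2 := by
    linear_combination (2 * (c 0 * (φ 0 0 ^ 2 + φ 0 1 ^ 2 + φ 0 2 ^ 2) + c 1 * (φ 1 0 ^ 2 + φ 1 1 ^ 2 + φ 1 2 ^ 2) + c 2 * (φ 2 0 ^ 2 + φ 2 1 ^ 2 + φ 2 2 ^ 2) + c 3 * (φ 3 0 ^ 2 + φ 3 1 ^ 2 + φ 3 2 ^ 2) + c 4 * (φ 4 0 ^ 2 + φ 4 1 ^ 2 + φ 4 2 ^ 2)) -
      (c 0 + c 1 + c 2 + c 3 + c 4)) * e0 -
      2 * (c 0 * φ 0 0 + c 1 * φ 1 0 + c 2 * φ 2 0 + c 3 * φ 3 0 + c 4 * φ 4 0) * e1 -
      2 * (c 0 * φ 0 1 + c 1 * φ 1 1 + c 2 * φ 2 1 + c 3 * φ 3 1 + c 4 * φ 4 1) * e2 -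
      2 * (c 0 * φ 0 2 + c 1 * φ 1 2 + c 2 * φ 2 2 + c 3 * φ 3 2 + c 4 * φ 4 2) * e3
  linarith [pr 0 1 (by decide), pr 0 2 (by decide), pr 0 3 (by decide), pr 0 4 (by decide), pr 1 2 (by decide), pr 1 3 (by decide), pr 1 4 (by decide), pr 2 3 (by decide), pr 2 4 (by decide), pr 3 4 (by decide)]

end Pool.Agent.Lib.H29.TypicalNorm
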