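import Mathlib
import Pool.Agent.Lib.helper29.Tp

set_option autoImplicit false

namespace Pool.Agent.Lib.H29.Shifts

open Set Ordinal Pool.Agent.Lib.H29.Tp

/-- binary words, ordered lexicographically -/
def Wd : Type := ℕ → Bool

noncomputable instance : LinearOrder Wd := inferInstanceAs (LinearOrder (Lex (ℕ → Bool)))

lemma lt_iff {x y : Wd} : x < y ↔ ∃ i, (∀ j < i, x j = y j) ∧ x i < y i := Iff.rfl

def sh (q : ℕ) (x : Wd) : Wd := fun i => x (i + q)

def Suf (b : Wd) : Set Wd := range fun i => sh i b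

def Ag (x y : Wd) (n : ℕ) : Prop := ∀ i < n, x i = y i

lemma sh_sh (p q : ℕ) (x : Wd) : sh p (sh q x) = sh (p + q) x := by
  funext i; simp [sh, add_assoc]

lemma sh_zero (x : Wd) : sh 0 x = x := rfl

lemma sh_mem {b x : Wd} (q : ℕ) (h : x ∈ Suf b) : sh q x ∈ Suf b := by
  obtain ⟨i, rfl⟩ := h
  exact ⟨q + i, (sh_sh _ _ _).symm⟩

lemma Ag.mono {x y : Wd} {n m : ℕ} (h : Ag x y n) (hm : m ≤ n) : Ag x y m :=
  fun i hi => h i (hi.trans_le hm)

lemma Ag.symm {x y : Wd} {n : ℕ} (h : Ag x y n) : Ag y x n := fun i hi => (h i hi).symm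

lemma Ag.trans {x y z : Wd} {n : ℕ} (h : Ag x y n) (h' : Ag y z n) : Ag x z n :=
  fun i hi => (h i hi).trans (h' i hi)

lemma Ag.sh {x y : Wd} {n q : ℕ} (h : Ag x y (n + q)) : Ag (sh q x) (sh q y) n :=
  fun i hi => h (i + q) (by omega)

lemma Ag.of_sh {x y : Wd} {n q : ℕ} (h0 : Ag x y q) (h : Ag (Shifts.sh q x) (Shifts.sh q y) n) :
    Ag x y (n + q) := fun i hi => by
  rcases lt_or_ge i q with h1 | h1
  · exact h0 i h1
  · have := h (i - q) (by omega)
    simpa [Shifts.sh, Nat.sub_add_cancel h1] using this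

lemma sh_lt {x y : Wd} {q : ℕ} (h : Ag x y q) (hlt : x < y) : sh q x < sh q y := by
  obtain ⟨i, h1, h2⟩ := lt_iff.1 hlt
  have hi : q ≤ i := by
    by_contra hc
    exact absurd (h i (by omega)) h2.ne
  refine lt_iff.2 ⟨i - q, fun j hj => h1 _ (by omega), ?_⟩
  simpa [sh, Nat.sub_add_cancel hi] using h2

lemma lt_of_ag {x y p : Wd} {n : ℕ} (h : x < p) (hn : ¬Ag x p n) (hy : Ag y p n) : x < y := by
  obtain ⟨i, h1, h2⟩ := lt_iff.1 h
  have hi : i < n := by
    by_contra hc
    exact hn fun j hj => h1 j (by omega)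
  exact lt_iff.2 ⟨i, fun j hj => (h1 j hj).trans (hy j (by omega)).symm, (hy i hi).symm ▸ h2⟩

lemma gt_of_ag {x y p : Wd} {n : ℕ} (h : p < x) (hn : ¬Ag x p n) (hy : Ag y p n) : y < x := by
  obtain ⟨i, h1, h2⟩ := lt_iff.1 h
  have hi : i < n := by
    by_contra hc
    exact hn fun j hj => (h1 j (by omega)).symm
  exact lt_iff.2 ⟨i, fun j hj => (hy j (by omega)).trans (h1 j hj), (hy i hi).symm ▸ h2⟩

lemma exists_not_ag {x y : Wd} (h : x ≠ y) : ∃ n, ¬Ag x y n := by
  by_contra hc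
  push Not at hc
  exact h (funext fun i => hc (i + 1) i (by omega))

lemma no_above {A : Set Wd} (hA : A.IsWF) (p : Wd) : ∃ n, ∀ y ∈ A, Ag y p n → y ≤ p := by
  rcases (A ∩ Ioi p).eq_empty_or_nonempty with h | h
  · refine ⟨0, fun y hy _ => ?_⟩
    by_contra hc
    exact absurd h (Nonempty.ne_empty ⟨y, hy, not_le.1 hc⟩)
  · have hw : (A ∩ Ioi p).IsWF := hA.mono inter_subset_left
    have hz := hw.min_mem h
    obtain ⟨n, hn⟩ := exists_not_ag hz.2.ne'
    refine ⟨n, fun y hy hag => ?_⟩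
    by_contra hc
    exact hw.not_lt_min h ⟨hy, not_le.1 hc⟩ (gt_of_ag hz.2 hn hag)

lemma konig {S : Set Wd} (hS : S.IsWF) {η : Ordinal} (h : ω ^ η ≤ tp S) :
    ∃ x : Wd, ∀ n, ω ^ η ≤ tp (S ∩ {y | Ag y x n}) := by
  by_contra hc
  push Not at hc
  have := (isCompact_univ (X := ℕ → Bool)).induction_on
    (p := fun U => tp (S ∩ (show Set Wd from U)) < ω ^ η)
    (by
      have : S ∩ (show Set Wd from (∅ : Set (ℕ → Bool))) = ∅ := inter_empty _
      simp only [this, tp_empty]
      exact opow_pos η omega0_pos)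
    (fun s t hst ht => (tp_mono (hS.mono inter_subset_left) (inter_subset_inter_right _ hst)).trans_lt ht)
    (fun s t hs ht => by
      have := union_small η _ _ (hS.mono inter_subset_left) (hS.mono inter_subset_left) hs ht
      rwa [← inter_union_distrib_left] at this)
    (fun x _ => by
      obtain ⟨n, hn⟩ := hc x
      exact ⟨PiNat.cylinder x n, mem_nhdsWithin_of_mem_nhds
        ((PiNat.isOpen_cylinder (fun _ => Bool) x n).mem_nhds (PiNat.self_mem_cylinder x n)), hn⟩)
  have h2 : S ∩ (show Set Wd from (univ : Set (ℕ → Bool))) = S := inter_univ _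
  simp only [h2] at this
  exact absurd h (not_le.2 this)

lemma sh_inj {b : Wd} (hi : (Suf b).Infinite) : Function.Injective fun i => sh i b := by
  have key : ∀ i j, i < j → sh i b ≠ sh j b := by
    intro i j hij h
    refine hi (((finite_Iio j).image fun i => sh i b).subset ?_)
    rintro _ ⟨n, rfl⟩
    induction n using Nat.strong_induction_on with
    | _ n ih =>
      rcases lt_or_ge n j with h1 | h1
      · exact ⟨n, h1, rfl⟩
      · have : sh n b = sh (n - j + i) b := by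
          rw [← sh_sh, h, sh_sh, Nat.sub_add_cancel h1]
        simp only [this]
        exact ih _ (by omega)
  intro i j h
  rcases lt_trichotomy i j with h1 | h1 | h1
  · exact absurd h (key i j h1)
  · exact h1
  · exact absurd h.symm (key j i h1)

theorem nec (b : Wd) (hw : (Suf b).IsWF) (hi : (Suf b).Infinite) :
    ∃ γ : Ordinal, 1 ≤ γ ∧ (tp (Suf b) = ω ^ (γ + 1) ∨
      (ω ^ (γ + 1) * 2 ≤ tp (Suf b) ∧ tp (Suf b) < ω ^ (γ + 2))) := by
  set A := Suf b with hA
  have hω : ω ≤ tp A := not_lt.1 fun h => hi ((tp_lt_omega hw).1 h)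
  have hα0 : tp A ≠ 0 := (omega0_pos.trans_le hω).ne'
  set η := log ω (tp A) with hη
  have h1 : ω ^ η ≤ tp A := opow_log_le_self ω hα0
  have h2 : tp A < ω ^ (η + 1) := lt_opow_succ_log_self one_lt_omega0 _
  have hη0 : η ≠ 0 := (log_pos one_lt_omega0 hα0 hω).ne'
  have hpos : 0 < ω ^ η := opow_pos η omega0_pos
  have inj := sh_inj hi
  have wf : ∀ U, (A ∩ U).IsWF := fun U => hw.mono inter_subset_left
  let F : Set Wd := {x | ∀ n, ω ^ η ≤ tp (A ∩ {y | Ag y x n})}
  have TF : ∀ q, ∀ x ∈ F, sh q x ∈ F := fun q x hx n =>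
    (hx (n + q)).trans (tp_le_of_map (wf _) (f := sh q)
      (fun y hy z hz h => sh_lt ((hy.2.trans hz.2.symm).mono (by omega)) h)
      fun y hy => ⟨sh_mem q hy.1, hy.2.sh⟩)
  have hstep : ∀ x ∈ F, ∀ x' < x, tp (A ∩ Iic x') + ω ^ η ≤ tp (A ∩ Iic x) := by
    intro x hx x' hx'
    obtain ⟨n, hn⟩ := no_above hw x
    obtain ⟨m, hm⟩ := exists_not_ag hx'.ne
    refine (add_le_add_right (hx (max n m)) _).trans ?_
    rw [← tp_union (wf (Iic x')) (wf {y | Ag y x (max n m)}) fun y hy z hz =>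
      lt_of_le_of_lt hy.2 (lt_of_ag hx' hm (Ag.mono hz.2 (le_max_right _ _)))]
    refine tp_mono (wf _) (union_subset (inter_subset_inter_right _ (Iic_subset_Iic.2 hx'.le)) ?_)
    exact fun z hz => ⟨hz.1, hn z hz.1 (Ag.mono hz.2 (le_max_left _ _))⟩
  have hbase : ∀ x ∈ F, ω ^ η ≤ tp (A ∩ Iic x) := by
    intro x hx
    obtain ⟨n, hn⟩ := no_above hw x
    exact (hx n).trans (tp_mono (wf _) fun z hz => ⟨hz.1, hn z hz.1 hz.2⟩)
  have hFfin : F.Finite := by
    obtain ⟨m, hm⟩ := lt_omega0.1 (div_opow_log_lt (tp A) one_lt_omega0)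
    have hsm : StrictMonoOn (fun x => tp (A ∩ Iic x) / ω ^ η) F := by
      intro x' _ x hx h
      refine Order.add_one_le_iff.1 ((Ordinal.mul_le_iff_le_div hpos.ne').1 (le_trans ?_ (hstep x hx x' h)))
      rw [mul_add, mul_one]
      exact add_le_add_left (Ordinal.mul_div_le _ _) _
    refine Finite.of_finite_image (((finite_Iic m).image (Nat.cast : ℕ → Ordinal)).subset ?_) hsm.injOn
    rintro _ ⟨x, -, rfl⟩
    have : tp (A ∩ Iic x) / ω ^ η ≤ m := hm ▸ Ordinal.div_le_left (tp_mono hw inter_subset_left) _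
    obtain ⟨k, hk⟩ := lt_omega0.1 (this.trans_lt (natCast_lt_omega0 m))
    exact ⟨k, by rw [hk] at this; exact_mod_cast this, hk.symm⟩
  obtain ⟨p, hp, q, hq, hpq⟩ : ∃ p ∈ F, ∃ q, 0 < q ∧ sh q p = p := by
    obtain ⟨x, hx⟩ := konig hw h1
    obtain ⟨i, j, hij, h⟩ := hFfin.exists_lt_map_eq_of_forall_mem (f := fun n => sh n x)
      fun n => TF n x hx
    exact ⟨sh i x, TF i x hx, j - i, by omega, by rw [sh_sh, Nat.sub_add_cancel hij.le]; exact h.symm⟩
  have hpA : p ∉ A := by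
    rintro ⟨i, rfl⟩
    rw [sh_sh] at hpq
    have := inj hpq
    omega
  obtain ⟨k0, hk0, hk1⟩ : ∃ k0, (∀ y ∈ A, Ag y p (k0 * q) → y < p) ∧
      ∀ x ∈ F, Ag x p (k0 * q) → x = p := by
    obtain ⟨n, hn⟩ := no_above hw p
    have : ∀ x : Wd, ∃ m, Ag x p m → x = p := fun x => by
      rcases eq_or_ne x p with h | h
      · exact ⟨0, fun _ => h⟩
      · obtain ⟨m, hm⟩ := exists_not_ag h
        exact ⟨m, fun h => absurd h hm⟩
    choose m hm using this
    obtain ⟨M, hM⟩ := (hFfin.image m).bddAbove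
    have hle : ∀ k, k ≤ k * q := fun k => Nat.le_mul_of_pos_right k hq
    refine ⟨max n M, fun y hy h => lt_of_le_of_ne (hn y hy (h.mono ((le_max_left _ _).trans (hle _))))
      (fun h => hpA (h ▸ hy)), fun x hx h => hm x (h.mono ?_)⟩
    exact (hM ⟨x, hx, rfl⟩).trans ((le_max_right _ _).trans (hle _))
  let S : ℕ → Set Wd := fun k => A ∩ {y | y < p ∧ Ag y p (k * q) ∧ ¬Ag y p ((k + 1) * q)}
  have small : ∀ k, (∀ x ∈ F, Ag x p (k * q) → x = p) → tp (S k) < ω ^ η := by
    intro k hk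
    by_contra hc
    obtain ⟨x, hx⟩ := konig (wf _) (not_lt.1 hc)
    have hxF : x ∈ F := fun n => (hx n).trans (tp_mono (wf _) fun y hy => ⟨hy.1.1, hy.2⟩)
    have hne : (S k ∩ {y | Ag y x ((k + 1) * q)}).Nonempty := by
      rw [nonempty_iff_ne_empty]
      intro h
      have := hx ((k + 1) * q)
      rw [show (A ∩ {y | y < p ∧ Ag y p (k * q) ∧ ¬Ag y p ((k + 1) * q)}) ∩
        {y | Ag y x ((k + 1) * q)} = ∅ from h, tp_empty] at this
      exact absurd hpos (not_lt.2 this)
    obtain ⟨y, hy, hyx⟩ := hne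
    have := hk x hxF ((Ag.mono hyx (by nlinarith)).symm.trans hy.2.2.1)
    exact hy.2.2.2 (this ▸ hyx)
  have ord : ∀ k k', k < k' → ∀ x ∈ S k, ∀ y ∈ S k', x < y := fun k k' h x hx y hy =>
    lt_of_ag hx.2.1 hx.2.2.2 (hy.2.2.1.mono (Nat.mul_le_mul_right q h))
  have hag : ∀ k, ∀ y ∈ S (k + 1), Ag y p q := fun k y hy => hy.2.2.1.mono (by nlinarith)
  have hmap : ∀ k, MapsTo (sh q) (S (k + 1)) (S k) := by
    intro k y hy
    refine ⟨sh_mem q hy.1, hpq ▸ sh_lt (hag k y hy) hy.2.1, ?_, fun h => hy.2.2.2 ?_⟩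
    · have := Ag.sh (n := k * q) (q := q) (by simpa [add_mul] using hy.2.2.1)
      rwa [hpq] at this
    · rw [add_mul (k + 1), one_mul]
      exact (hag k y hy).of_sh (by rwa [hpq])
  have cover : ∀ k, ∀ y ∈ A, y < p → Ag y p (k * q) → y ∈ ⋃ j, S (k + j) := by
    intro k y hy hyp h
    obtain ⟨n, hn⟩ := exists_not_ag hyp.ne
    have hex : ∃ j, ¬Ag y p ((k + j + 1) * q) := ⟨n, fun h => hn (h.mono (by nlinarith))⟩
    classical
    refine mem_iUnion.2 ⟨Nat.find hex, hy, hyp, ?_, Nat.find_spec hex⟩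
    rcases h0 : Nat.find hex with _ | j
    · exact h
    · exact not_not.1 (Nat.find_min hex (m := j) (by omega))
  have hle : ∀ j, tp (S (k0 + j)) ≤ tp (S k0) := by
    intro j
    induction j with
    | zero => exact le_rfl
    | succ j ih =>
      exact (tp_le_of_map (wf _) (fun y hy z hz h => sh_lt ((hag _ y hy).trans (hag _ z hz).symm) h)
        (hmap (k0 + j))).trans ih
  set ζ := log ω (tp (S k0)) with hζ
  have hβ : tp (S k0) < ω ^ (ζ + 1) := lt_opow_succ_log_self one_lt_omega0 _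
  have hwU : (⋃ j, S (k0 + j)).IsWF := hw.mono (iUnion_subset fun j => inter_subset_left)
  have hU : ω ^ η ≤ tp (⋃ j, S (k0 + j)) :=
    (hp (k0 * q)).trans (tp_mono hwU fun y hy => cover k0 y hy.1 (hk0 y hy.1 hy.2) hy.2)
  have e1 : η = ζ + 1 := by
    refine le_antisymm ((opow_le_opow_iff_right one_lt_omega0).1 (hU.trans ?_)) ?_
    · exact iUnion_le (fun j => wf _) (fun j j' h => ord _ _ (by omega)) fun j => (hle j).trans_lt hβ
    · exact Order.add_one_le_iff.2 (lt_log_of_lt_opow hη0 (small k0 hk1))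
  have e2 : 1 ≤ ζ := by
    rw [Order.one_le_iff_ne_zero]
    intro h0
    rw [h0, zero_add, opow_one] at hβ
    rw [e1, h0, zero_add, opow_one] at hU
    have hf := (tp_lt_omega (wf _)).1 hβ
    obtain ⟨N, hN⟩ := (hf.preimage inj.injOn).bddAbove
    refine absurd ((tp_lt_omega hwU).2 (((finite_Iic N).image fun i => sh i b).subset ?_)) (not_lt.2 hU)
    intro y hy
    obtain ⟨j, hj⟩ := mem_iUnion.1 hy
    obtain ⟨i, rfl⟩ := hj.1
    refine ⟨i, ?_, rfl⟩
    clear hy
    induction j generalizing i with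
    | zero => exact hN hj
    | succ j ih =>
      have := hmap (k0 + j) hj
      simp only [sh_sh] at this
      exact le_trans (Nat.le_add_left i q) (ih _ this)
  refine ⟨ζ, e2, ?_⟩
  rw [← e1, show ζ + 2 = η + 1 by rw [e1, add_assoc, one_add_one_eq_two]]
  rcases lt_or_ge (tp A) (ω ^ η * 2) with h3 | h3
  · left
    have uniq : ∀ x ∈ F, x = p := by
      have : ∀ x ∈ F, ∀ y ∈ F, ¬x < y := fun x hx y hy h => by
        have := (add_le_add_left (hbase x hx) _).trans ((hstep y hy x h).trans (tp_mono hw inter_subset_left))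
        rw [← Ordinal.mul_two] at this
        exact absurd h3 (not_lt.2 this)
      exact fun x hx => le_antisymm (not_lt.1 (this p hp x hx)) (not_lt.1 (this x hx p hp))
    have hc : ∀ i, p i = p 0 := by
      intro i
      induction i with
      | zero => rfl
      | succ i ih => exact (congrFun (uniq _ (TF 1 p hp)) i).trans ih
    have hp0 : p 0 = true := by
      have hne : (A ∩ {y | Ag y p (k0 * q)}).Nonempty := by
        rw [nonempty_iff_ne_empty]
        intro h
        have := hp (k0 * q)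
        rw [h, tp_empty] at this
        exact absurd hpos (not_lt.2 this)
      obtain ⟨y, hy, hyp⟩ := hne
      obtain ⟨i, -, h⟩ := lt_iff.1 (hk0 y hy hyp)
      rw [hc] at h
      revert h
      cases p 0 <;> cases y i <;> simp
    refine le_antisymm (le_trans (tp_mono (hw.mono (iUnion_subset fun j => inter_subset_left))
      fun y hy => cover 0 y hy ?_ (by simp [Ag])) ?_) h1
    · refine lt_of_le_of_ne (not_lt.1 fun h => ?_) fun h => hpA (h ▸ hy)
      obtain ⟨i, -, h⟩ := lt_iff.1 h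
      rw [hc, hp0] at h
      revert h
      cases y i <;> simp
    · exact iUnion_le (fun j => wf _) (fun j j' h => ord _ _ (by omega))
        fun j => small _ fun x hx _ => uniq x hx
  · exact Or.inr ⟨h3, h2⟩

end Pool.Agent.Lib.H29.Shifts
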