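import Mathlib
import Pool.Agent.Lib.helper29.Wd1

set_option autoImplicit false

namespace Pool.Agent.Lib.H29.Shifts

open Set Ordinal Pool.Agent.Lib.H29.Tp

def cons (c : Bool) (x : Wd) : Wd := fun n => match n with
  | 0 => c
  | n + 1 => x n

abbrev O : Wd → Wd := cons true
abbrev Z : Wd → Wd := cons false

lemma sh_cons (c : Bool) (x : Wd) : sh 1 (cons c x) = x := rfl

lemma cons_mono (c : Bool) : StrictMono (cons c) := by
  intro x y h
  obtain ⟨i, h1, h2⟩ := lt_iff.1 h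
  refine lt_iff.2 ⟨i + 1, fun j hj => ?_, h2⟩
  rcases j with _ | j
  · rfl
  · exact h1 j (by omega)

lemma Z_lt_O (x y : Wd) : Z x < O y := lt_iff.2 ⟨0, by simp, Bool.false_lt_true⟩

lemma ag_cons (c : Bool) {x y : Wd} {n : ℕ} (h : Ag x y n) : Ag (cons c x) (cons c y) (n + 1) := by
  intro i hi
  rcases i with _ | i
  · rfl
  · exact h i (by omega)

lemma tail_cons {b x : Wd} {c : Bool} (h : cons c x ∈ Suf b) : x ∈ Suf b := sh_mem 1 h

lemma tail_iter {b : Wd} {f : Wd → Wd} (hf : ∀ x, f x ∈ Suf b → x ∈ Suf b) {x : Wd} {i j : ℕ}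
    (hj : j ≤ i) (h : f^[i] x ∈ Suf b) : f^[j] x ∈ Suf b := by
  induction hj with
  | refl => exact h
  | step _ ih => rw [Function.iterate_succ_apply'] at h; exact ih (hf _ h)

lemma ag_iter {f : Wd → Wd} (hf : ∀ x y n, Ag x y n → Ag (f x) (f y) n) (j : ℕ) {x y : Wd} {n : ℕ}
    (h : Ag x y n) : Ag (f^[j] x) (f^[j] y) n := by
  induction j with
  | zero => exact h
  | succ j ih => simp only [Function.iterate_succ_apply']; exact hf _ _ _ ih

lemma ord_iter {U : Wd → Wd} (hm : StrictMono U) (hz : ∀ x y, Z x < U y) {n n' : ℕ} (h : n < n')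
    (x y : Wd) : U^[n] (Z x) < U^[n'] (Z y) := by
  obtain ⟨d, rfl⟩ := Nat.exists_eq_add_of_lt h
  rw [add_assoc, Function.iterate_add_apply, Function.iterate_succ_apply']
  exact hm.iterate n (hz _ _)

lemma suf_sub {b : Wd} {A : Set Wd} (hb : b ∈ A) (h : ∀ x ∈ A, sh 1 x ∈ A) : Suf b ⊆ A := by
  rintro _ ⟨i, rfl⟩
  induction i with
  | zero => exact hb
  | succ i ih => have := h _ ih; rwa [sh_sh, add_comm] at this

lemma exists_fix (φ : ℕ → Wd → Wd) (hφ : ∀ k x y n, Ag x y n → Ag (φ k x) (φ k y) (n + 1)) :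
    ∃ X : ℕ → Wd, ∀ k, X k = φ k (X (k + 1)) := by
  let app : ℕ → ℕ → Wd := fun n => Nat.rec (fun _ => fun _ => false) (fun _ a k => φ k (a (k + 1))) n
  have h1 : ∀ n n' k, n ≤ n' → Ag (app n k) (app n' k) n := by
    intro n
    induction n with
    | zero => intro n' k _ i hi; omega
    | succ n ih =>
      intro n' k h
      obtain ⟨m, rfl⟩ : ∃ m, n' = m + 1 := ⟨n' - 1, by omega⟩
      exact hφ k _ _ _ (ih m (k + 1) (by omega))
  refine ⟨fun k i => app (i + 1) k i, fun k => funext fun i => ?_⟩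
  refine hφ k (app i (k + 1)) _ i (fun j hj => ?_) i (by omega)
  exact (h1 (j + 1) i (k + 1) hj j (by omega)).symm

def Val (v : ℕ → Ordinal.{0}) : Ordinal.{0} → List ℕ → Prop
  | _, [] => True
  | τ, n :: r => 1 ≤ v n ∧ v n < τ ∧ Val v (v n) r

lemma Val.mono {v : ℕ → Ordinal.{0}} {τ τ' : Ordinal} (h : τ ≤ τ') : ∀ {r : List ℕ},
    Val v τ r → Val v τ' r
  | [], _ => trivial
  | _ :: _, h1 => ⟨h1.1, h1.2.1.trans_le h, h1.2.2⟩

lemma Val.suffix {v : ℕ → Ordinal.{0}} {t : List ℕ} : ∀ {τ : Ordinal} {r : List ℕ},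
    Val v τ t → r <:+ t → Val v τ r := by
  induction t with
  | nil => intro τ r h hr; rw [List.suffix_nil.1 hr]; trivial
  | cons n t ih =>
    intro τ r h hr
    rcases List.suffix_cons_iff.1 hr with rfl | hr
    · exact h
    · exact (ih h.2.2 hr).mono h.2.1.le

lemma exists_v {γ : Ordinal.{0}} (h1 : 1 ≤ γ) (hγ : γ < ω₁) :
    ∃ v : ℕ → Ordinal.{0}, ∀ β < γ, ∀ N, ∃ n, N ≤ n ∧ v n = β := by
  have : Countable γ.ToType := by
    rw [← Cardinal.mk_le_aleph0_iff, Cardinal.mk_toType, ← Order.lt_succ_iff, Cardinal.succ_aleph0,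
      ← Cardinal.lt_ord, Cardinal.ord_aleph]
    exact hγ
  have : Nonempty γ.ToType := ⟨Ordinal.ToType.mk ⟨0, zero_lt_one.trans_le h1⟩⟩
  obtain ⟨g, hg⟩ := exists_surjective_nat γ.ToType
  refine ⟨fun n => Ordinal.ToType.mk.symm (g n.unpair.1), fun β hβ N => ?_⟩
  obtain ⟨a, ha⟩ := hg (Ordinal.ToType.mk ⟨β, hβ⟩)
  exact ⟨Nat.pair a N, Nat.right_le_pair _ _, by simp [ha]⟩

lemma exists_enum {P : ℕ × List ℕ → Prop} (h0 : P (0, [])) :
    ∃ E : ℕ → ℕ × List ℕ, (∀ k, P (E k)) ∧ ∀ p, P p → ∀ N, ∃ k, N ≤ k ∧ E k = p := by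
  classical
  obtain ⟨g, hg⟩ := exists_surjective_nat (ℕ × List ℕ)
  refine ⟨fun k => if P (g k.unpair.1) then g k.unpair.1 else (0, []), fun k => ?_, fun p hp N => ?_⟩
  · dsimp only; split_ifs with h
    exacts [h, h0]
  · obtain ⟨a, rfl⟩ := hg p
    exact ⟨Nat.pair a N, Nat.right_le_pair _ _, by simp [hp]⟩

theorem core {U : Wd → Wd} (hm : StrictMono U) (hz : ∀ x y, Z x < U y)
    (hc : ∀ x y n, Ag x y n → Ag (U x) (U y) n) (ht : ∀ b x, U x ∈ Suf b → x ∈ Suf b)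
    {γ : Ordinal.{0}} (h1 : 1 ≤ γ) (hγ : γ < ω₁) (s : ℕ) (ξ : ℕ → Ordinal.{0}) (h0 : ξ 0 = γ)
    (anti : Antitone ξ) :
    ∃ (x0 : Wd) (C C0 : Set Wd) (B : ℕ → Set Wd), C.IsWF ∧ tp C ≤ ω ^ (γ + 1) ∧
      (∀ c ∈ C, (∃ i ≤ s, ∃ y ∈ B i, c = Z (O^[i] y)) ∨ ∃ c' ∈ C, c = U c') ∧
      (∀ c ∈ C, U c ∈ C) ∧ (∀ i, ∀ y ∈ B i, ∃ c ∈ C, y = U c) ∧ (∀ i, B (i + 1) ⊆ B i) ∧
      (∀ i, x0 ∈ B i) ∧ (∀ i ≤ s, (B i).IsWF ∧ tp (B i) = ω ^ ξ i) ∧ C0 ⊆ C ∧
      ω ^ (γ + 1) ≤ tp C0 ∧ (∀ c ∈ C0, U c ∈ Suf x0) ∧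
      ∀ i, ∀ y ∈ B (i + 1), y = x0 ∨ O^[i + 1] y ∈ Suf x0 := by
  obtain ⟨v, hv⟩ := exists_v h1 hγ
  obtain ⟨E, hE, hE'⟩ := exists_enum (P := fun p => p.1 ≤ s ∧ 1 ≤ ξ p.1 ∧ Val v (ξ p.1) p.2)
    ⟨Nat.zero_le _, h0 ▸ h1, trivial⟩
  let bl : ℕ → Wd → Wd := fun n x => U^[2 * n + 2] (Z x)
  have hZ : ∀ x y n, Ag x y n → Ag (Z x) (Z y) n := fun x y n h => (ag_cons _ h).mono (by omega)
  have hO : ∀ x y n, Ag x y n → Ag (O x) (O y) n := fun x y n h => (ag_cons _ h).mono (by omega)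
  obtain ⟨X, hX⟩ := exists_fix (fun k x => U^[2 * k + 1] (Z (O^[(E k).1] ((E k).2.foldr bl x))))
    fun k x y n h => ag_iter hc _ (ag_cons _ (ag_iter hO _ (by
      induction (E k).2 with
      | nil => exact h
      | cons a r ih => exact ag_iter hc _ (hZ _ _ _ ih))))
  let Y : ℕ → List ℕ → Wd := fun k r => r.foldr bl (X (k + 1))
  replace hX : ∀ k, X k = U^[2 * k + 1] (Z (O^[(E k).1] (Y k (E k).2))) := hX
  have hξ : ∀ i, ξ i ≤ γ := fun i => h0 ▸ anti (Nat.zero_le i)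
  let G : Ordinal → Set Wd := fun τ =>
    range X ∪ {y | ∃ k n r, n :: r <:+ (E k).2 ∧ v n < τ ∧ y = Y k (n :: r)}
  have memG : ∀ k r τ, r <:+ (E k).2 → Val v τ r → Y k r ∈ G τ := by
    intro k r τ hr hval
    rcases r with _ | ⟨n, r⟩
    · exact Or.inl ⟨k + 1, rfl⟩
    · exact Or.inr ⟨k, n, r, hr, hval.2.1, rfl⟩
  have mbl : ∀ j, StrictMono fun x => U^[j] (Z x) := fun j => (hm.iterate j).comp (cons_mono _)
  have Gup : ∀ τ, 1 ≤ τ → (G τ).IsWF ∧ tp (G τ) ≤ ω ^ τ := by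
    intro τ
    induction τ using WellFoundedLT.induction with
    | ind τ ih =>
      intro hτ
      let P : ℕ → Set Wd := fun j => {y | (∃ k, j = 2 * k + 1 ∧ y = X k) ∨
        ∃ k n r, j = 2 * n + 2 ∧ n :: r <:+ (E k).2 ∧ v n < τ ∧ y = Y k (n :: r)}
      have hP : G τ = ⋃ j, P j := by
        ext y
        simp only [mem_iUnion]
        constructor
        · rintro (⟨k, rfl⟩ | ⟨k, n, r, h⟩)
          · exact ⟨_, Or.inl ⟨k, rfl, rfl⟩⟩
          · exact ⟨_, Or.inr ⟨k, n, r, rfl, h⟩⟩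
        · rintro ⟨j, ⟨k, -, rfl⟩ | ⟨k, n, r, -, h⟩⟩
          · exact Or.inl ⟨k, rfl⟩
          · exact Or.inr ⟨k, n, r, h⟩
      have form : ∀ j, ∀ y ∈ P j, ∃ x, y = U^[j] (Z x) := by
        rintro j y (⟨k, rfl, rfl⟩ | ⟨k, n, r, rfl, -, -, rfl⟩)
        · exact ⟨_, hX k⟩
        · exact ⟨_, rfl⟩
      have ord : ∀ n n', n < n' → ∀ x ∈ P n, ∀ y ∈ P n', x < y := by
        intro n n' h x hx y hy
        obtain ⟨x, rfl⟩ := form n x hx
        obtain ⟨y, rfl⟩ := form n' y hy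
        exact ord_iter hm hz h x y
      have sm : ∀ j, (P j).IsWF ∧ tp (P j) < ω ^ τ := by
        intro j
        by_cases hj : ∃ n, j = 2 * n + 2 ∧ 1 ≤ v n ∧ v n < τ
        · obtain ⟨n, rfl, h2, h3⟩ := hj
          obtain ⟨w1, w2⟩ := ih _ h3 h2
          have sub : P (2 * n + 2) ⊆ bl n '' G (v n) := by
            rintro y (⟨k, hk, -⟩ | ⟨k, n', r, hn, h4, -, rfl⟩)
            · omega
            · obtain rfl : n = n' := by omega
              exact ⟨Y k r, memG k r _ ((List.suffix_cons _ _).trans h4)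
                ((hE k).2.2.suffix h4).2.2, rfl⟩
          have w3 := wf_image w1 ((mbl (2 * n + 2)).strictMonoOn _)
          refine ⟨w3.mono sub, (tp_mono w3 sub).trans_lt ?_⟩
          rw [tp_image w1 ((mbl (2 * n + 2)).strictMonoOn _)]
          exact w2.trans_lt ((opow_lt_opow_iff_right one_lt_omega0).2 h3)
        · have sub : (P j).Subsingleton := by
            have : ∀ y ∈ P j, y = X (j / 2) := by
              rintro y (⟨k, hk, rfl⟩ | ⟨k, n, r, hn, h4, h5, -⟩)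
              · congr 1; omega
              · exact absurd ⟨n, hn, ((hE k).2.2.suffix h4).1, h5⟩ hj
            exact fun a ha b hb => (this a ha).trans (this b hb).symm
          exact ⟨sub.isWF, (tp_le_one sub).trans_lt
            (one_lt_opow.2 ⟨one_lt_omega0, (zero_lt_one.trans_le hτ).ne'⟩)⟩
      rw [hP]
      exact ⟨wf_iUnion (fun j => (sm j).1) ord, iUnion_le (fun j => (sm j).1) ord fun j => (sm j).2⟩
  let D : ℕ → ℕ → List ℕ → Set Wd := fun k0 i pre =>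
    {y | ∃ k r, k0 ≤ k ∧ E k = (i, pre ++ r) ∧ y = Y k r}
  have hDG : ∀ k0 i pre, D k0 i pre ⊆ G γ := by
    rintro k0 i pre _ ⟨k, r, -, h, rfl⟩
    have hr : r <:+ (E k).2 := by rw [h]; exact List.suffix_append _ _
    exact memG k r γ hr (((hE k).2.2.suffix hr).mono (hξ _))
  have wG := (Gup γ h1).1
  have Dlow : ∀ k0 i, i ≤ s → 1 ≤ ξ i → ∀ τ, 1 ≤ τ → τ ≤ γ → ∀ pre,
      (∀ r, Val v τ r → Val v (ξ i) (pre ++ r)) → ω ^ τ ≤ tp (D k0 i pre) := by
    intro k0 i hi hi' τ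
    induction τ using WellFoundedLT.induction with
    | ind τ ih =>
      intro hτ hτγ pre hpre
      have wD := fun pre => wG.mono (hDG k0 i pre)
      refine opow_le_of_forall (zero_lt_one.trans_le hτ).ne' fun β hβ => ?_
      refine mul_omega_le (wD pre) (S := fun j => {y ∈ D k0 i pre | ∃ x, y = U^[j] (Z x)})
        (fun j => sep_subset _ _) ?_ fun N => ?_
      · rintro n n' h _ ⟨-, x, rfl⟩ _ ⟨-, y, rfl⟩
        exact ord_iter hm hz h x y
      · rcases eq_or_ne β 0 with rfl | hβ0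
        · obtain ⟨k, hk, h⟩ := hE' (i, pre ++ []) ⟨hi, hi', hpre [] trivial⟩ (max N k0)
          refine ⟨2 * (k + 1) + 1, by omega, ?_⟩
          rw [opow_zero]
          exact one_le_tp ((wD pre).mono (sep_subset _ _))
            ⟨X (k + 1), ⟨k, [], by omega, h, rfl⟩, _, hX _⟩
        · obtain ⟨n, hn, rfl⟩ := hv β (hβ.trans_le hτγ) N
          have h2 := Order.one_le_iff_ne_zero.2 hβ0
          refine ⟨2 * n + 2, by omega, (ih _ hβ h2 (hβ.le.trans hτγ) (pre ++ [n]) fun r hr => ?_).trans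
            (tp_le_of_map ((wD pre).mono (sep_subset _ _)) ((mbl (2 * n + 2)).strictMonoOn _) ?_)⟩
          · rw [List.append_assoc]
            exact hpre _ ⟨h2, hβ, hr⟩
          · rintro _ ⟨k, r, hk, h, rfl⟩
            exact ⟨⟨k, n :: r, hk, by simpa using h, rfl⟩, _, rfl⟩
  let B : ℕ → Set Wd := fun i => match i with
    | 0 => G γ
    | i + 1 => {X 0} ∪ {y | ∃ k, i + 1 ≤ (E k).1 ∧ y = Y k (E k).2}
  have hBG : ∀ i τ, ξ (i + 1) ≤ τ → B (i + 1) ⊆ G τ := by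
    rintro i τ h _ (rfl | ⟨k, hk, rfl⟩)
    · exact Or.inl ⟨0, rfl⟩
    · exact memG k _ τ List.suffix_rfl ((hE k).2.2.mono ((anti hk).trans h))
  have hBG' : ∀ i, B i ⊆ G γ := by
    rintro (_ | i)
    exacts [Subset.rfl, hBG i γ (hξ _)]
  have hYB : ∀ k, Y k (E k).2 ∈ B (E k).1 := by
    intro k
    rcases h : (E k).1 with _ | i
    · exact memG k _ γ List.suffix_rfl ((hE k).2.2.mono (hξ _))
    · exact Or.inr ⟨k, h.ge, rfl⟩
  let Z0 : Set Wd := ⋃ i < s + 1, O^[i] '' B i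
  have mO : ∀ i, StrictMono O^[i] := fun i => (cons_mono true).iterate i
  have hlt : ω ^ γ < ω ^ (γ + 1) := (opow_lt_opow_iff_right one_lt_omega0).2 (lt_add_one γ)
  obtain ⟨wZ, tZ⟩ : Z0.IsWF ∧ tp Z0 < ω ^ (γ + 1) :=
    fin_small (fun i => wf_image (wG.mono (hBG' i)) ((mO i).strictMonoOn _)) _ fun i _ => by
      rw [tp_image (wG.mono (hBG' i)) ((mO i).strictMonoOn _)]
      exact ((tp_mono wG (hBG' i)).trans (Gup γ h1).2).trans_lt hlt
  let C : Set Wd := ⋃ j, (fun x => U^[j] (Z x)) '' Z0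
  have ordC : ∀ n n', n < n' → ∀ x ∈ (fun x => U^[n] (Z x)) '' Z0,
      ∀ y ∈ (fun x => U^[n'] (Z x)) '' Z0, x < y := by
    rintro n n' h _ ⟨x, -, rfl⟩ _ ⟨y, -, rfl⟩
    exact ord_iter hm hz h x y
  have wC : C.IsWF := wf_iUnion (fun j => wf_image wZ ((mbl j).strictMonoOn _)) ordC
  have memC : ∀ j i, i ≤ s → ∀ y ∈ B i, U^[j] (Z (O^[i] y)) ∈ C := fun j i hi y hy =>
    mem_iUnion.2 ⟨j, _, mem_iUnion₂.2 ⟨i, Nat.lt_succ_of_le hi, y, hy, rfl⟩, rfl⟩
  have sufX : ∀ k, X k ∈ Suf (X 0) := by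
    intro k
    induction k with
    | zero => exact ⟨0, rfl⟩
    | succ k ih =>
      rw [hX k] at ih
      have h2 : Y k (E k).2 ∈ Suf (X 0) := tail_iter (j := 0) (fun _ => tail_cons) (Nat.zero_le _)
        (tail_cons (tail_iter (j := 0) (ht _) (Nat.zero_le _) ih))
      revert h2
      induction (E k).2 with
      | nil => exact id
      | cons a r ih2 =>
        exact fun h => ih2 (tail_cons (tail_iter (j := 0) (ht _) (Nat.zero_le _) h))
  let C0 : Set Wd := {c | ∃ j k, j ≤ 2 * k ∧ (E k).1 = 0 ∧ c = U^[j] (Z (Y k (E k).2))}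
  have hC0 : C0 ⊆ C := by
    rintro _ ⟨j, k, -, h, rfl⟩
    exact memC j 0 (Nat.zero_le _) _ (h ▸ hYB k)
  refine ⟨X 0, C, C0, B, wC, ?_, ?_, ?_, ?_, ?_, ?_, ?_, hC0, ?_, ?_, ?_⟩
  · refine iUnion_le (fun j => wf_image wZ ((mbl j).strictMonoOn _)) ordC fun j => ?_
    rwa [tp_image wZ ((mbl j).strictMonoOn _)]
  · intro c hc
    obtain ⟨j, z, hz, rfl⟩ := mem_iUnion.1 hc
    rcases j with _ | j
    · obtain ⟨i, hi, y, hy, rfl⟩ := mem_iUnion₂.1 hz
      exact Or.inl ⟨i, Nat.le_of_lt_succ hi, y, hy, rfl⟩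
    · exact Or.inr ⟨_, mem_iUnion.2 ⟨j, z, hz, rfl⟩, Function.iterate_succ_apply' _ _ _⟩
  · intro c hc
    obtain ⟨j, z, hz, rfl⟩ := mem_iUnion.1 hc
    exact mem_iUnion.2 ⟨j + 1, z, hz, Function.iterate_succ_apply' _ _ _⟩
  · intro i y hy
    rcases hBG' i hy with ⟨k, rfl⟩ | ⟨k, n, r, h2, -, rfl⟩
    · exact ⟨_, memC (2 * k) _ (hE k).1 _ (hYB k), (hX k).trans (Function.iterate_succ_apply' _ _ _)⟩
    · have hr := (List.suffix_cons _ _).trans h2
      exact ⟨_, memC (2 * n + 1) 0 (Nat.zero_le _) _ (memG k r γ hr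
        (((hE k).2.2.suffix hr).mono (hξ _))), Function.iterate_succ_apply' _ _ _⟩
  · rintro (_ | i)
    · exact hBG' 1
    · rintro y (h | ⟨k, hk, h⟩)
      exacts [Or.inl h, Or.inr ⟨k, by omega, h⟩]
  · rintro (_ | i)
    exacts [Or.inl ⟨0, rfl⟩, Or.inl rfl]
  · intro i hi
    refine ⟨wG.mono (hBG' i), ?_⟩
    rcases eq_or_ne (ξ i) 0 with h | h
    · rw [h, opow_zero]
      rcases i with _ | i
      · rw [h0] at h; rw [h] at h1; exact absurd h1 (by simp)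
      refine le_antisymm (tp_le_one ?_) (one_le_tp (wG.mono (hBG' (i + 1))) ⟨X 0, Or.inl rfl⟩)
      have : ∀ y ∈ B (i + 1), y = X 0 := by
        rintro y (h2 | ⟨k, hk, -⟩)
        · exact h2
        · have := (hE k).2.1.trans (anti hk)
          rw [h] at this
          exact absurd this (by simp)
      exact fun a ha b hb => (this a ha).trans (this b hb).symm
    · have h2 := Order.one_le_iff_ne_zero.2 h
      refine le_antisymm ?_ ((Dlow 0 i hi h2 _ h2 (hξ i) [] fun r hr => hr).trans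
        (tp_mono (wG.mono (hBG' i)) ?_))
      · rcases i with _ | i
        · rw [h0]; exact (Gup γ h1).2
        · exact (tp_mono (Gup _ h2).1 (hBG i _ le_rfl)).trans (Gup _ h2).2
      · rintro _ ⟨k, r, -, h3, rfl⟩
        have := hYB k
        rwa [h3] at this
  · rw [opow_add_one]
    refine mul_omega_le (wC.mono hC0) (S := fun j => {y ∈ C0 | ∃ x, y = U^[j] (Z x)})
      (fun j => sep_subset _ _) ?_ fun N => ⟨N, le_rfl, ?_⟩
    · rintro n n' h _ ⟨-, x, rfl⟩ _ ⟨-, y, rfl⟩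
      exact ord_iter hm hz h x y
    · refine (Dlow N 0 (Nat.zero_le _) (h0 ▸ h1) γ h1 le_rfl [] fun r hr => h0 ▸ hr).trans
        (tp_le_of_map ((wC.mono hC0).mono (sep_subset _ _)) ((mbl N).strictMonoOn _) ?_)
      rintro _ ⟨k, r, hk, h, rfl⟩
      exact ⟨⟨N, k, by omega, by rw [h], by rw [h]; rfl⟩, _, rfl⟩
  · rintro _ ⟨j, k, hj, h, rfl⟩
    have := sufX k
    rw [hX k, h] at this
    rw [← Function.iterate_succ_apply' U]
    exact tail_iter (ht _) (by omega) this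
  · rintro i y (h | ⟨k, hk, rfl⟩)
    · exact Or.inl h
    · right
      have := sufX k
      rw [hX k] at this
      exact tail_iter (fun _ => tail_cons) hk
        (tail_cons (tail_iter (j := 0) (ht _) (Nat.zero_le _) this))

end Pool.Agent.Lib.H29.Shifts
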