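import Mathlib
import Pool.Agent.Lib.helper29.Wd2

set_option autoImplicit false

namespace Pool.Agent.Lib.H29.Shifts

open Set Ordinal Pool.Agent.Lib.H29.Tp

theorem suf1 {γ : Ordinal.{0}} (h1 : 1 ≤ γ) (hγ : γ < ω₁) :
    ∃ b : Wd, (Suf b).IsWF ∧ tp (Suf b) = ω ^ (γ + 1) := by
  obtain ⟨x0, C, C0, B, wC, tC, c1, c2, c3, -, c5, -, c7, c8, c9, -⟩ :=
    core (U := O) (cons_mono true) Z_lt_O (fun x y n h => (ag_cons _ h).mono (by omega))
      (fun _ _ => tail_cons) h1 hγ 0 (fun _ => γ) rfl antitone_const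
  have hB : B 0 ⊆ C := fun y hy => by
    obtain ⟨c, hc, rfl⟩ := c3 0 y hy
    exact c2 c hc
  have sub : Suf x0 ⊆ C := suf_sub (hB (c5 0)) fun c hc => by
    rcases c1 c hc with ⟨i, hi, y, hy, rfl⟩ | ⟨c', hc', rfl⟩
    · obtain rfl : i = 0 := by omega
      exact hB hy
    · exact hc'
  exact ⟨x0, wC.mono sub, le_antisymm ((tp_mono wC sub).trans tC)
    (c8.trans (tp_mono (wC.mono sub) fun c hc => tail_cons (c9 c hc)))⟩

noncomputable def ps (ξ : ℕ → Ordinal.{0}) : ℕ → Ordinal.{0}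
  | 0 => 0
  | i + 1 => ps ξ i + ω ^ ξ (i + 1)

lemma exists_cnf (ρ : Ordinal.{0}) : ∀ e : Ordinal, ρ < ω ^ (e + 1) →
    ∃ (s : ℕ) (ξ : ℕ → Ordinal.{0}), ξ 0 = e ∧ Antitone ξ ∧ ps ξ s = ρ := by
  induction ρ using WellFoundedLT.induction with
  | ind ρ ih =>
    intro e he
    rcases eq_or_ne ρ 0 with rfl | h0
    · exact ⟨0, fun _ => e, rfl, antitone_const, rfl⟩
    have h1 := opow_log_le_self ω h0
    have h2 := sub_omega0_opow_log_lt h0
    obtain ⟨s, ξ, e1, e2, e3⟩ := ih _ h2 (log ω ρ) (h2.trans (lt_opow_succ_log_self one_lt_omega0 ρ))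
    let ξ' : ℕ → Ordinal.{0} := fun n => match n with
      | 0 => e
      | n + 1 => ξ n
    have key : ∀ i, ps ξ' (i + 1) = ω ^ ξ 0 + ps ξ i := by
      intro i
      induction i with
      | zero => simp [ps, ξ']
      | succ i ih => rw [ps, ih, ps, add_assoc]
    refine ⟨s + 1, ξ', rfl, antitone_nat_of_succ_le ?_, ?_⟩
    · rintro (_ | n)
      · show ξ 0 ≤ e
        rw [e1]
        exact Order.lt_add_one_iff.1 ((lt_opow_iff_log_lt one_lt_omega0 h0).1 he)
      · exact e2 (Nat.le_succ n)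
    · rw [key, e1, e3, Ordinal.add_sub_cancel_of_le h1]

lemma lev_unique {l l' : ℕ} {x y : Wd} (h : O^[l] (Z x) = O^[l'] (Z y)) : l = l' := by
  rcases lt_trichotomy l l' with h1 | h1 | h1
  · exact absurd h (ord_iter (cons_mono true) Z_lt_O h1 x y).ne
  · exact h1
  · exact absurd h (ord_iter (cons_mono true) Z_lt_O h1 y x).ne'

theorem suf2 {γ : Ordinal.{0}} (h1 : 1 ≤ γ) (hγ : γ < ω₁) (a : ℕ) (ha : 1 ≤ a) {ρ : Ordinal}
    (hρ : ρ < ω ^ (γ + 1)) :
    ∃ b : Wd, (Suf b).IsWF ∧ tp (Suf b) = ω ^ (γ + 1) * (a + 1 : ℕ) + ρ := by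
  obtain ⟨s, ξ, h0, anti, rfl⟩ := exists_cnf ρ γ hρ
  have mO : ∀ i, StrictMono O^[i] := fun i => (cons_mono true).iterate i
  have mL : ∀ j, StrictMono fun x => O^[j] (Z x) := fun j => (mO j).comp (cons_mono _)
  have ordL := fun {n n'} => ord_iter (cons_mono true) Z_lt_O (n := n) (n' := n')
  obtain ⟨x0, C, C0, B, wC, tC, c1, c2, c3, c4, c5, c6, c7, c8, c9, c10⟩ :=
    core (U := fun x => O^[a] (Z x)) (mL a) (fun x y => ordL (n := 0) ha x y)
      (fun x y n h => ag_iter (fun x y n h => (ag_cons _ h).mono (by omega)) a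
        ((ag_cons _ h).mono (by omega)))
      (fun _ _ h => tail_cons (tail_iter (j := 0) (fun _ => tail_cons) (Nat.zero_le _) h))
      h1 hγ s ξ h0 anti
  set θ := ω ^ (γ + 1) with hθ
  let Z0 : Set Wd := ⋃ i < s + 1, O^[i] '' B i
  have memZ : ∀ i ≤ s, ∀ y ∈ B i, O^[i] y ∈ Z0 := fun i hi y hy =>
    mem_iUnion₂.2 ⟨i, Nat.lt_succ_of_le hi, y, hy, rfl⟩
  obtain ⟨wZ, tZ⟩ : Z0.IsWF ∧ tp Z0 < θ := by
    have := fin_small (S := fun i => O^[i] '' B (min i s)) (η := γ + 1)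
      (fun i => wf_image (c6 _ (min_le_right _ _)).1 ((mO i).strictMonoOn _)) (s + 1) fun i _ => by
        rw [tp_image (c6 _ (min_le_right _ _)).1 ((mO i).strictMonoOn _), (c6 _ (min_le_right _ _)).2]
        exact (opow_lt_opow_iff_right one_lt_omega0).2
          (Order.lt_add_one_iff.2 (h0 ▸ anti (Nat.zero_le _)))
    have e : (⋃ i < s + 1, O^[i] '' B (min i s)) = Z0 :=
      iUnion₂_congr fun i hi => by rw [min_eq_left (Nat.le_of_lt_succ hi)]
    rwa [e] at this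
  let b := O^[s] x0
  have hx0 : Suf x0 ⊆ Suf b := by
    rintro _ ⟨i, rfl⟩
    exact sh_mem i (tail_iter (j := 0) (fun _ => tail_cons) (Nat.zero_le s) ⟨0, rfl⟩)
  have inv : Suf b ⊆ {y | ∃ l ≤ a, ∃ c ∈ C, y = O^[l] (Z c)} ∪ (Z '' Z0 ∪ Z0) := by
    have first : ∀ l ≤ a, ∀ c ∈ C, sh 1 (O^[l] (Z c)) ∈
        {y | ∃ l ≤ a, ∃ c ∈ C, y = O^[l] (Z c)} ∪ (Z '' Z0 ∪ Z0) := by
      rintro (_ | l) hl c hc
      · rcases c1 c hc with ⟨i, hi, y, hy, rfl⟩ | ⟨c', hc', rfl⟩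
        · exact Or.inr (Or.inl ⟨_, memZ i hi y hy, rfl⟩)
        · exact Or.inl ⟨a, le_rfl, c', hc', rfl⟩
      · rw [Function.iterate_succ_apply']
        exact Or.inl ⟨l, by omega, c, hc, rfl⟩
    refine suf_sub (Or.inr (Or.inr (memZ s le_rfl _ (c5 s)))) ?_
    rintro _ (⟨l, hl, c, hc, rfl⟩ | ⟨z, hz, rfl⟩ | hz)
    · exact first l hl c hc
    · exact Or.inr (Or.inr hz)
    · obtain ⟨i, hi, y, hy, rfl⟩ := mem_iUnion₂.1 hz
      rcases i with _ | i
      · obtain ⟨c, hc, rfl⟩ := c3 0 y hy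
        exact first a le_rfl c hc
      · rw [Function.iterate_succ_apply']
        exact Or.inr (Or.inr (memZ i (by omega) y (c4 i hy)))
  let L : ℕ → Set Wd := fun l => {y ∈ Suf b | ∃ x, y = O^[l] (Z x)}
  have ord : ∀ n n', n < n' → ∀ x ∈ L n, ∀ y ∈ L n', x < y := by
    rintro n n' h _ ⟨-, x, rfl⟩ _ ⟨-, y, rfl⟩
    exact ordL h x y
  have cases : ∀ l, ∀ y ∈ L l, (l ≤ a ∧ ∃ c ∈ C, y = O^[l] (Z c)) ∨ (l = 0 ∧ y ∈ Z '' Z0) ∨
      ∃ i, i + 1 ≤ s ∧ l = a + (i + 1) ∧ y ∈ O^[i + 1] '' B (i + 1) := by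
    rintro l y ⟨hy, x, hx⟩
    rcases inv hy with ⟨l', hl, c, hc, h⟩ | ⟨z, hz, h⟩ | hz
    · obtain rfl := lev_unique (hx.symm.trans h)
      exact Or.inl ⟨hl, c, hc, h⟩
    · exact Or.inr (Or.inl ⟨lev_unique (l' := 0) (hx.symm.trans h.symm), z, hz, h⟩)
    · obtain ⟨i, hi, y', hy', h⟩ := mem_iUnion₂.1 hz
      obtain ⟨c, hc, e⟩ := c3 i y' hy'
      have h2 : y = O^[i + a] (Z c) := by rw [Function.iterate_add_apply, ← h, e]
      have h3 := lev_unique (hx.symm.trans h2)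
      rcases i with _ | i
      · exact Or.inl ⟨by omega, c, hc, by rw [h2, h3]⟩
      · exact Or.inr (Or.inr ⟨i, by omega, by omega, y', hy', h⟩)
  have all : Suf b = ⋃ l < a + 1 + s, L l := by
    refine Subset.antisymm (fun y hy => ?_) (iUnion₂_subset fun l _ => sep_subset _ _)
    rcases inv hy with ⟨l, hl, c, -, h⟩ | ⟨z, -, h⟩ | hz
    · exact mem_iUnion₂.2 ⟨l, by omega, hy, c, h⟩
    · exact mem_iUnion₂.2 ⟨0, by omega, hy, z, h.symm⟩
    · obtain ⟨i, hi, y', hy', h⟩ := mem_iUnion₂.1 hz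
      obtain ⟨c, -, e⟩ := c3 i y' hy'
      exact mem_iUnion₂.2 ⟨i + a, by omega, hy, c, by rw [Function.iterate_add_apply, ← h, e]⟩
  have s0 : L 0 ⊆ Z '' (C ∪ Z0) := fun y hy => by
    rcases cases 0 y hy with ⟨-, c, hc, h⟩ | ⟨-, z, hz, h⟩ | ⟨i, -, h, -⟩
    · exact ⟨c, Or.inl hc, h.symm⟩
    · exact ⟨z, Or.inr hz, h⟩
    · omega
  have s1 : ∀ l, 1 ≤ l → l ≤ a → L l ⊆ (fun x => O^[l] (Z x)) '' C := fun l h2 h3 y hy => by
    rcases cases l y hy with ⟨-, c, hc, h⟩ | ⟨h, -⟩ | ⟨i, -, h, -⟩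
    · exact ⟨c, hc, h.symm⟩
    · omega
    · omega
  have s2 : ∀ i, i + 1 ≤ s → L (a + (i + 1)) = O^[i + 1] '' B (i + 1) := fun i hi => by
    refine Subset.antisymm (fun y hy => ?_) ?_
    · rcases cases _ y hy with ⟨h, -⟩ | ⟨h, -⟩ | ⟨j, -, h, h'⟩
      · omega
      · omega
      · obtain rfl : i = j := by omega
        exact h'
    · rintro _ ⟨y, hy, rfl⟩
      obtain ⟨c, -, e⟩ := c3 _ y hy
      refine ⟨?_, c, by rw [add_comm a, Function.iterate_add_apply _ (i + 1) a, e]⟩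
      rcases c10 i y hy with rfl | h
      · exact tail_iter (fun _ => tail_cons) hi ⟨0, rfl⟩
      · exact hx0 h
  have s3 : ∀ l, a + s < l → L l = ∅ := fun l hl => eq_empty_of_forall_notMem fun y hy => by
    rcases cases l y hy with ⟨h, -⟩ | ⟨h, -⟩ | ⟨j, h, h', -⟩ <;> omega
  have w0 : (Z '' (C ∪ Z0)).IsWF := wf_image (wC.union wZ) ((cons_mono _).strictMonoOn _)
  have wL : ∀ l, (L l).IsWF := by
    intro l
    rcases Nat.eq_zero_or_pos l with rfl | hl
    · exact w0.mono s0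
    rcases le_or_gt l a with h | h
    · exact (wf_image wC ((mL l).strictMonoOn _)).mono (s1 l hl h)
    rcases le_or_gt l (a + s) with h' | h'
    · obtain ⟨i, rfl⟩ : ∃ i, l = a + (i + 1) := ⟨l - a - 1, by omega⟩
      rw [s2 i (by omega)]
      exact wf_image (c6 _ (by omega)).1 ((mO _).strictMonoOn _)
    · rw [s3 l h']; exact isWF_empty
  have wI : ∀ N, (⋃ l < N, L l).IsWF := fun N => (wf_iUnion wL ord).mono
    (iUnion₂_subset fun l _ => subset_iUnion _ l)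
  have step : ∀ N, tp (⋃ l < N + 1, L l) = tp (⋃ l < N, L l) + tp (L N) := fun N => by
    rw [biUnion_lt_succ, tp_union (wI N) (wL N)]
    intro x hx y hy
    obtain ⟨i, hi, hx⟩ := mem_iUnion₂.1 hx
    exact ord i N hi x hx y hy
  have low : ∀ l ≤ a, θ ≤ tp (L l) := fun l hl => c8.trans (tp_le_of_map (wL l)
    ((mL l).strictMonoOn _) fun c hc =>
      ⟨tail_iter (fun _ => tail_cons) hl (hx0 (c9 c hc)), c, rfl⟩)
  have t1 : ∀ l, 1 ≤ l → l ≤ a → tp (L l) = θ := fun l h2 h3 => le_antisymm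
    ((tp_mono (wf_image wC ((mL l).strictMonoOn _)) (s1 l h2 h3)).trans
      (by rwa [tp_image wC ((mL l).strictMonoOn _)])) (low l h3)
  have t0 : tp (L 0) + θ = θ * 2 := by
    rw [Ordinal.mul_two]
    refine le_antisymm ?_ (add_le_add_left (low 0 (Nat.zero_le _)) _)
    have e : tp (C ∪ Z0) = tp C + tp (Z0 \ C) := by
      rw [← tp_union wC (wZ.mono sdiff_subset), union_sdiff_self]
      rintro c hc z ⟨hz, hzC⟩
      obtain ⟨i, hi, y, hy, rfl⟩ := mem_iUnion₂.1 hz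
      obtain ⟨c', hc', rfl⟩ := c3 i y hy
      rcases i with _ | i
      · exact absurd (c2 c' hc') hzC
      rw [← Function.iterate_add_apply]
      rcases c1 c hc with ⟨j, -, y, -, rfl⟩ | ⟨c'', -, rfl⟩
      · exact ordL (n := 0) (by omega) _ _
      · exact ordL (by omega) _ _
    have e2 : tp (L 0) ≤ θ + tp (Z0 \ C) := by
      refine (tp_mono w0 s0).trans ?_
      rw [tp_image (wC.union wZ) ((cons_mono _).strictMonoOn _), e]
      exact add_le_add_left tC _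
    refine (add_le_add_left e2 _).trans ?_
    rw [add_assoc, add_omega0_opow ((tp_mono wZ sdiff_subset).trans_lt tZ)]
  have t2 : ∀ l, 1 ≤ l → l ≤ a → tp (⋃ j < l + 1, L j) = θ * (l + 1 : ℕ) := by
    intro l h2
    induction h2 with
    | refl =>
      intro h
      rw [step, step, t1 1 le_rfl h]
      simpa [tp_empty] using t0
    | @step l h2 ih =>
      intro h
      rw [step, ih (by omega), t1 _ (by omega) h, Nat.cast_succ (l + 1), mul_add, mul_one]
  have t3 : ∀ i ≤ s, tp (⋃ j < a + 1 + i, L j) = θ * (a + 1 : ℕ) + ps ξ i := by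
    intro i
    induction i with
    | zero => intro _; rw [ps, add_zero, add_zero, t2 a ha le_rfl]
    | succ i ih =>
      intro h
      rw [← add_assoc, step, ih (by omega), ps, show a + 1 + i = a + (i + 1) by omega, s2 i h,
        tp_image (c6 _ h).1 ((mO _).strictMonoOn _), (c6 _ h).2, add_assoc]
  exact ⟨b, all ▸ wI _, all ▸ t3 s le_rfl⟩

noncomputable def val (x : Wd) : ℝ := ∑' n, ((x n).toNat : ℝ) / 2 ^ (n + 1)

lemma term_le (x : Wd) (n : ℕ) : ((x n).toNat : ℝ) / 2 ^ (n + 1) ≤ 1 / 2 / 2 ^ n := by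
  rw [div_div, ← pow_succ']
  gcongr
  exact_mod_cast Bool.toNat_le _

lemma val_summable (x : Wd) : Summable fun n => ((x n).toNat : ℝ) / 2 ^ (n + 1) :=
  Summable.of_nonneg_of_le (fun n => by positivity) (term_le x) (summable_geometric_two' 1)

lemma val_eq (x : Wd) : val x = (((x 0).toNat : ℝ) + val (sh 1 x)) / 2 := by
  rw [val, (val_summable x).tsum_eq_zero_add, val, add_div, ← tsum_div_const]
  congr 1
  · simp
  · exact tsum_congr fun n => by simp only [sh]; rw [div_div, ← pow_succ]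

lemma val_lt_one {x : Wd} {n : ℕ} (h : x n = false) : val x < 1 := by
  rw [← tsum_geometric_two' 1]
  refine (val_summable x).tsum_lt_tsum (i := n) (term_le x) ?_ (summable_geometric_two' 1)
  simp [h]

lemma val_lt {x y : Wd} (h : x < y) (hx : ∀ N, ∃ n, N ≤ n ∧ x n = false) : val x < val y := by
  obtain ⟨i, h1, h2⟩ := lt_iff.1 h
  clear h
  induction i generalizing x y with
  | zero =>
    obtain ⟨n, hn, h3⟩ := hx 1
    have h4 : val (sh 1 x) < 1 := val_lt_one (n := n - 1) (by simpa [sh, Nat.sub_add_cancel hn] using h3)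
    have h5 : 0 ≤ val (sh 1 y) := tsum_nonneg fun n => by positivity
    obtain ⟨e1, e2⟩ := Bool.lt_iff.1 h2
    rw [val_eq x, val_eq y, e1, e2]
    simp
    linarith
  | succ i ih =>
    have := ih (x := sh 1 x) (y := sh 1 y) (fun N => by
      obtain ⟨n, hn, h3⟩ := hx (N + 1)
      exact ⟨n - 1, by omega, by simpa [sh, Nat.sub_add_cancel (show 1 ≤ n by omega)] using h3⟩)
      (fun j hj => h1 (j + 1) (by omega)) h2
    rw [val_eq x, val_eq y, h1 0 (by omega)]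
    linarith

lemma val_mono {b : Wd} (hb : ∀ N, ∃ n, N ≤ n ∧ b n = false) : StrictMonoOn val (Suf b) := by
  rintro _ ⟨i, rfl⟩ y - h
  refine val_lt h fun N => ?_
  obtain ⟨n, hn, h3⟩ := hb (N + i)
  exact ⟨n - i, by omega, by simpa [sh, Nat.sub_add_cancel (show i ≤ n by omega)] using h3⟩

lemma suf_finite {b : Wd} (hb : ¬∀ N, ∃ n, N ≤ n ∧ b n = false) : (Suf b).Finite := by
  push Not at hb
  obtain ⟨N, hN⟩ := hb
  refine ((finite_Iic N).image fun i => sh i b).subset ?_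
  rintro _ ⟨i, rfl⟩
  rcases le_total i N with h | h
  · exact ⟨i, h, rfl⟩
  · refine ⟨N, mem_Iic.2 le_rfl, funext fun j => ?_⟩
    simp only [sh]
    rw [eq_true_of_ne_false (hN (j + N) (by omega)), eq_true_of_ne_false (hN (j + i) (by omega))]

lemma suf_nat (n : ℕ) : ∃ b : Wd, (∀ N, ∃ m, N ≤ m ∧ b m = false) ∧ (Suf b).IsWF ∧
    tp (Suf b) = (n + 1 : ℕ) := by
  let f : ℕ → Wd := fun j i => decide (i < j)
  have hf : StrictMono f := fun j k h => lt_iff.2 ⟨j, fun i hi => by simp [f, hi, hi.trans h],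
    by simp [f, h]⟩
  have e : Suf (f n) = f '' Iic n := by
    have : ∀ i, sh i (f n) = f (n - i) := fun i => funext fun j => by
      simp only [sh, f, decide_eq_decide]; omega
    ext y
    constructor
    · rintro ⟨i, rfl⟩
      exact ⟨n - i, Nat.sub_le _ _, (this i).symm⟩
    · rintro ⟨j, hj, rfl⟩
      exact ⟨n - j, by simp only [this, Nat.sub_sub_self hj]⟩
  have w : (Iic n).IsWF := (finite_Iic n).isWF
  refine ⟨f n, fun N => ⟨max N n, le_max_left _ _, by simp [f]⟩, e ▸ wf_image w (hf.strictMonoOn _), ?_⟩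
  rw [e, tp_image w (hf.strictMonoOn _), ← Ordinal.card_eq_nat, card_tp w]
  simp

theorem main (α : Ordinal.{0}) : (∃ b : Wd, Nonempty (val '' Suf b ≃o Iio α)) ↔
    (0 < α ∧ α < ω) ∨ ∃ γ : Ordinal, 1 ≤ γ ∧ γ < ω₁ ∧
      (α = ω ^ (γ + 1) ∨ (ω ^ (γ + 1) * 2 ≤ α ∧ α < ω ^ (γ + 2))) := by
  have back : ∀ b : Wd, (∀ N, ∃ m, N ≤ m ∧ b m = false) → (Suf b).IsWF → tp (Suf b) = α →
      ∃ b : Wd, Nonempty (val '' Suf b ≃o Iio α) := fun b hb w h =>
    ⟨b, (iso_iff _ _).2 ⟨wf_image w (val_mono hb), (tp_image w (val_mono hb)).trans h⟩⟩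
  constructor
  · rintro ⟨b, hb⟩
    obtain ⟨w, h⟩ := (iso_iff _ _).1 hb
    rcases (Suf b).finite_or_infinite with hf | hi
    · exact Or.inl ⟨h ▸ zero_lt_one.trans_le (one_le_tp w ⟨_, _, ⟨0, rfl⟩, rfl⟩),
        h ▸ (tp_lt_omega w).2 (hf.image _)⟩
    · have hb : ∀ N, ∃ n, N ≤ n ∧ b n = false := by
        by_contra hc
        exact hi (suf_finite hc)
      have w' := wf_of_map w (val_mono hb) (mapsTo_image _ _)
      rw [tp_image w' (val_mono hb)] at h
      obtain ⟨γ, h1, h2⟩ := nec b w' hi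
      rw [h] at h2
      refine Or.inr ⟨γ, h1, ?_, h2⟩
      have h3 : ω ^ (γ + 1) ≤ α := by
        rcases h2 with h2 | h2
        · exact h2.ge
        · exact (le_mul_left _ two_pos).trans h2.1
      exact ((lt_add_one γ).trans_le ((right_le_opow _ one_lt_omega0).trans h3)).trans
        (h ▸ tp_lt_omega_one w' (countable_range _))
  · rintro (⟨h0, h1⟩ | ⟨γ, h1, hγ, h⟩)
    · obtain ⟨n, rfl⟩ := lt_omega0.1 h1
      rcases n with _ | n
      · simp at h0
      · obtain ⟨b, h1, h2, h3⟩ := suf_nat n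
        exact back b h1 h2 h3
    · have hω : ω ≤ ω ^ (γ + 1) := left_le_opow _ (zero_lt_one.trans_le le_add_self)
      have hne : ω ^ (γ + 1) ≠ 0 := (opow_pos _ omega0_pos).ne'
      obtain ⟨b, w, hb, hα⟩ : ∃ b : Wd, (Suf b).IsWF ∧ tp (Suf b) = α ∧ ω ≤ α := by
        rcases h with h | ⟨h2, h3⟩
        · obtain ⟨b, w, hb⟩ := suf1 h1 hγ
          exact ⟨b, w, h ▸ hb, h ▸ hω⟩
        · have h4 : α / ω ^ (γ + 1) < ω := by
            rw [← Ordinal.lt_mul_iff_div_lt hne, ← opow_add_one, add_assoc, one_add_one_eq_two]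
            exact h3
          obtain ⟨m, hm⟩ := lt_omega0.1 h4
          have h5 : 2 ≤ m := by
            have := (Ordinal.mul_le_iff_le_div hne).1 h2
            rw [hm] at this
            exact_mod_cast this
          obtain ⟨b, w, hb⟩ := suf2 h1 hγ (m - 1) (by omega) (Ordinal.mod_lt α hne)
          rw [Nat.sub_add_cancel (by omega), ← hm, Ordinal.div_add_mod] at hb
          exact ⟨b, w, hb, hω.trans ((le_mul_left _ two_pos).trans h2)⟩
      refine back b ?_ w hb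
      by_contra hc
      exact absurd ((tp_lt_omega w).2 (suf_finite hc)) (not_lt.2 (hb ▸ hα))

end Pool.Agent.Lib.H29.Shifts
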